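import Mathlib

/-!
Gaussian tails of `log |zeta|` on the critical line: the random model.

Independent angles `x p` uniform on `[0, 1]`, one for every natural number `p`
(only the primes are used), `ch x n` is the completely multiplicative function with
`ch x p = exp (2 π i x p)`; the point `om t` of the model gives `ch (om t) n = n ^ (- i t)`.
-/

set_option autoImplicit false

namespace Pool.Agent.Lib.GT

open MeasureTheory Set Filter Topology Complex ProbabilityTheory
open scoped ComplexConjugate

/-! ### definitions -/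

/-- the space of the angles -/
abbrev Om : Type := ℕ → ℝ

/-- the uniform probability measure on `[0, 1]` -/
noncomputable def u1 : Measure ℝ := volume.restrict (Icc (0 : ℝ) 1)

instance instProbU1 : IsProbabilityMeasure u1 := ⟨by simp [u1]⟩

/-- independent uniform angles -/
noncomputable def mu : Measure Om := Measure.infinitePi fun _ => u1

instance instProbMu : IsProbabilityMeasure mu := by
  unfold mu
  infer_instance

/-- `exp (2 π i x)` -/
noncomputable def e1 (x : ℝ) : ℂ := cexp ((2 * Real.pi * x : ℝ) * I)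

/-- the angle of `n` -/
noncomputable def ang (x : Om) (n : ℕ) : ℝ := n.factorization.sum fun p k => (k : ℝ) * x p

/-- the random completely multiplicative function -/
noncomputable def ch (x : Om) (n : ℕ) : ℂ := e1 (ang x n)

/-- the point of the torus at the height `t` -/
noncomputable def om (t : ℝ) : Om := fun p => -(t * Real.log p / (2 * Real.pi))

/-- `F` depends only on the coordinates in `S` -/
def Dep {E : Type} (S : Set ℕ) (F : Om → E) : Prop := ∀ x y : Om, (∀ p ∈ S, x p = y p) → F x = F y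

/-- trigonometric polynomials of length at most `N` and of norm at most `c` -/
def TP (N c : ℝ) (f : Om → ℂ) : Prop :=
  ∃ (ι : Type) (_ : Fintype ι) (a : ι → ℂ) (m n : ι → ℕ),
    (∀ i, 1 ≤ m i ∧ (m i : ℝ) ≤ N ∧ 1 ≤ n i ∧ (n i : ℝ) ≤ N) ∧
    (∀ x, f x = ∑ i, a i * (ch x (m i) * conj (ch x (n i)))) ∧ ∑ i, ‖a i‖ ≤ c

/-- truncated exponential -/
noncomputable def tex (K : ℕ) (w : ℂ) : ℂ := ∑ k ∈ Finset.range (K + 1), w ^ k / (k.factorial : ℂ)

/-- linear forms -/
noncomputable def lin (S : Finset ℕ) (c : ℕ → ℂ) (x : Om) : ℂ := ∑ p ∈ S, c p * e1 (x p)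

/-- the uniform probability measure on `[x, x + T]` -/
noncomputable def un (x T : ℝ) : Measure ℝ := (ENNReal.ofReal T)⁻¹ • volume.restrict (Icc x (x + T))

/-- the Gaussian probability measure with density `exp (- ((t - x - T / 2) / T) ^ 2) / (√π T)` -/
noncomputable def ga (x T : ℝ) : Measure ℝ := gaussianReal (x + T / 2) (Real.toNNReal (T ^ 2 / 2))

/-! ### the characters -/

lemma norm_e1 (x : ℝ) : ‖e1 x‖ = 1 := by
  unfold e1
  exact Complex.norm_exp_ofReal_mul_I _

lemma e1_ne (x : ℝ) : e1 x ≠ 0 := Complex.exp_ne_zero _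

lemma e1_add (x y : ℝ) : e1 (x + y) = e1 x * e1 y := by
  unfold e1
  rw [← Complex.exp_add]
  congr 1
  push_cast
  ring

lemma e1_zero : e1 0 = 1 := by simp [e1]

lemma e1_neg (x : ℝ) : e1 (-x) = conj (e1 x) := by
  unfold e1
  rw [← Complex.exp_conj]
  congr 1
  simp only [map_mul, Complex.conj_ofReal, Complex.conj_I]
  push_cast
  ring

lemma e1_mul_conj (x : ℝ) : e1 x * conj (e1 x) = 1 := by
  rw [← e1_neg, ← e1_add, add_neg_cancel, e1_zero]

lemma e1_sum {ι : Type} (s : Finset ι) (f : ι → ℝ) : e1 (∑ i ∈ s, f i) = ∏ i ∈ s, e1 (f i) := by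
  classical
  induction s using Finset.induction_on with
  | empty => simp [e1_zero]
  | insert i s hi ih => rw [Finset.sum_insert hi, Finset.prod_insert hi, e1_add, ih]

lemma e1_nat_mul (k : ℕ) (x : ℝ) : e1 (k * x) = e1 x ^ k := by
  unfold e1
  rw [← Complex.exp_nat_mul]
  congr 1
  push_cast
  ring

@[fun_prop]
lemma continuous_e1 : Continuous e1 := by
  unfold e1
  fun_prop

lemma ang_one (x : Om) : ang x 1 = 0 := by simp [ang]

lemma ang_mul (x : Om) {m n : ℕ} (hm : m ≠ 0) (hn : n ≠ 0) : ang x (m * n) = ang x m + ang x n := by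
  unfold ang
  rw [Nat.factorization_mul hm hn]
  exact Finsupp.sum_add_index' (fun _ => by simp) (fun _ _ _ => by push_cast; ring)

lemma ang_prime (x : Om) {p : ℕ} (hp : p.Prime) : ang x p = x p := by
  unfold ang
  rw [hp.factorization]
  simp

lemma ch_one (x : Om) : ch x 1 = 1 := by simp [ch, ang_one, e1_zero]

lemma ch_mul (x : Om) {m n : ℕ} (hm : m ≠ 0) (hn : n ≠ 0) : ch x (m * n) = ch x m * ch x n := by
  unfold ch
  rw [ang_mul x hm hn, e1_add]

lemma ch_prime (x : Om) {p : ℕ} (hp : p.Prime) : ch x p = e1 (x p) := by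
  unfold ch
  rw [ang_prime x hp]

lemma norm_ch (x : Om) (n : ℕ) : ‖ch x n‖ = 1 := norm_e1 _

lemma ch_pow (x : Om) {n : ℕ} (hn : n ≠ 0) (k : ℕ) : ch x (n ^ k) = ch x n ^ k := by
  induction k with
  | zero => simp [ch_one]
  | succ k ih => rw [pow_succ, pow_succ, ch_mul x (pow_ne_zero _ hn) hn, ih]

lemma ch_mul_conj (x : Om) (n : ℕ) : ch x n * conj (ch x n) = 1 := e1_mul_conj _

@[fun_prop]
lemma continuous_ang (n : ℕ) : Continuous fun x : Om => ang x n := by
  unfold ang Finsupp.sum
  fun_prop

@[fun_prop]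
lemma continuous_ch (n : ℕ) : Continuous fun x : Om => ch x n := by
  unfold ch
  fun_prop

lemma dep_ang {S : Set ℕ} {n : ℕ} (h : ∀ p ∈ n.primeFactors, p ∈ S) : Dep S fun x => ang x n := by
  intro x y hxy
  simp only
  unfold ang Finsupp.sum
  refine Finset.sum_congr rfl fun p hp => ?_
  rw [Nat.support_factorization] at hp
  simp only
  rw [hxy p (h p hp)]

lemma dep_ch {S : Set ℕ} {n : ℕ} (h : ∀ p ∈ n.primeFactors, p ∈ S) : Dep S fun x => ch x n := by
  intro x y hxy
  unfold ch
  have := dep_ang h x y hxy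
  simp only at this ⊢
  rw [this]

lemma e1_om (t : ℝ) {p : ℕ} (hp : p ≠ 0) : e1 (om t p) = (p : ℂ) ^ (-(I * t) : ℂ) := by
  have hp' : (p : ℂ) ≠ 0 := by exact_mod_cast hp
  unfold e1 om
  rw [Complex.cpow_def_of_ne_zero hp', ← Complex.natCast_log]
  congr 1
  have hpi := Real.pi_ne_zero
  have : 2 * Real.pi * -(t * Real.log p / (2 * Real.pi)) = -(t * Real.log p) := by
    field_simp
  rw [this]
  push_cast
  ring

lemma ang_om (t : ℝ) {n : ℕ} (hn : n ≠ 0) : ang (om t) n = -(t * Real.log n / (2 * Real.pi)) := by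
  have h1 : Real.log n = n.factorization.sum fun p k => (k : ℝ) * Real.log p := by
    conv_lhs => rw [← Nat.prod_factorization_pow_eq_self hn]
    unfold Finsupp.prod Finsupp.sum
    push_cast
    rw [Real.log_prod]
    · refine Finset.sum_congr rfl fun p _ => ?_
      rw [Real.log_pow]
    · intro p hp
      rw [Nat.support_factorization] at hp
      have := (Nat.prime_of_mem_primeFactors hp).pos
      positivity
  unfold ang
  rw [h1]
  unfold Finsupp.sum om
  rw [Finset.mul_sum, Finset.sum_div, ← Finset.sum_neg_distrib]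
  refine Finset.sum_congr rfl fun p _ => ?_
  ring

lemma ch_om (t : ℝ) {n : ℕ} (hn : n ≠ 0) : ch (om t) n = (n : ℂ) ^ (-(I * t) : ℂ) := by
  unfold ch
  rw [ang_om t hn]
  exact e1_om t hn

@[fun_prop]
lemma continuous_om : Continuous om := by
  unfold om
  refine continuous_pi fun p => ?_
  fun_prop

/-! ### integrals over the torus -/

lemma measurable_of_continuous {f : Om → ℂ} (hf : Continuous f) : Measurable f := hf.measurable

lemma integrable_of_bd {E : Type} [NormedAddCommGroup E] {f : Om → E} (hf : AEStronglyMeasurable f mu)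
    {C : ℝ} (h : ∀ x, ‖f x‖ ≤ C) : Integrable f mu :=
  Integrable.of_bound hf C (Eventually.of_forall h)

/-- product formula -/
theorem integral_prod (D : Finset ℕ) (φ : ℕ → ℝ → ℂ) (hφ : ∀ p, Measurable (φ p)) :
    ∫ x, ∏ p ∈ D, φ p (x p) ∂mu = ∏ p ∈ D, ∫ x, φ p x ∂u1 := by
  have hm : Measurable (fun y : (i : D) → ℝ => ∏ i : D, φ i (y i)) :=
    Finset.measurable_fun_prod _ fun i _ => (hφ i).comp (measurable_pi_apply i)
  have h1 : ∀ z : ℕ → ℝ, ∏ j ∈ D, φ j (z j)
      = (fun y : (i : D) → ℝ => ∏ i : D, φ i (y i)) (D.restrict z) := by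
    intro z
    exact (Finset.prod_coe_sort D fun j => φ j (z j)).symm
  have h2 : ∫ z, (fun y : (i : D) → ℝ => ∏ i : D, φ i (y i)) (D.restrict z) ∂mu
      = ∫ y, ∏ i : D, φ i (y i) ∂(Measure.pi fun _ : D => u1) := by
    unfold mu
    exact integral_restrict_infinitePi (fun _ : ℕ => u1) hm.aestronglyMeasurable
  rw [integral_congr_ae (Eventually.of_forall h1), h2,
    integral_fintype_prod_eq_prod (fun (i : D) (x : ℝ) => φ i x)]
  exact Finset.prod_coe_sort D fun j => ∫ x, φ j x ∂u1

open Classical in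
/-- extension by zero -/
private noncomputable def ext0 (D : Finset ℕ) (x : (i : D) → ℝ) (j : ℕ) : ℝ :=
  if h : j ∈ D then x ⟨j, h⟩ else 0

private lemma measurable_ext0 (D : Finset ℕ) : Measurable (ext0 D) := by
  refine measurable_pi_lambda _ fun j => ?_
  unfold ext0
  by_cases h : j ∈ D
  · simp only [h, dif_pos]
    exact measurable_pi_apply _
  · simp only [h, dif_neg, not_false_iff]
    exact measurable_const

private lemma ext0_eq {D : Finset ℕ} {F : Om → ℂ} (h : Dep (D : Set ℕ) F)
    (z : Om) : F (ext0 D fun i => z i) = F z := by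
  refine h _ _ fun j hj => ?_
  unfold ext0
  rw [dif_pos (Finset.mem_coe.1 hj)]

/-- functions of disjoint sets of coordinates are independent -/
theorem integral_mul_of_dep {S T : Finset ℕ} {F G : Om → ℂ} (hST : Disjoint S T)
    (hF : Measurable F) (hG : Measurable G) (hFS : Dep (S : Set ℕ) F) (hGT : Dep (T : Set ℕ) G) :
    ∫ x, F x * G x ∂mu = (∫ x, F x ∂mu) * ∫ x, G x ∂mu := by
  have hind : iIndepFun (fun (i : ℕ) (z : Om) => z i) mu :=
    iIndepFun_infinitePi (P := fun _ : ℕ => u1) (X := fun _ z => z) (fun _ => measurable_id)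
  have h1 := hind.indepFun_finset S T hST (fun i => measurable_pi_apply i)
  have h2 := h1.comp (hF.comp (measurable_ext0 S)) (hG.comp (measurable_ext0 T))
  have h3 := h2.integral_fun_mul_eq_mul_integral
    ((hF.comp (measurable_ext0 S)).comp (measurable_pi_lambda _ fun i : S =>
      measurable_pi_apply (i : ℕ))).aestronglyMeasurable
    ((hG.comp (measurable_ext0 T)).comp (measurable_pi_lambda _ fun i : T =>
      measurable_pi_apply (i : ℕ))).aestronglyMeasurable
  simp only [Function.comp_apply] at h3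
  simp only [ext0_eq hFS, ext0_eq hGT] at h3
  exact h3

lemma Dep.mono {E : Type} {S T : Set ℕ} {F : Om → E} (h : Dep S F) (hST : S ⊆ T) : Dep T F :=
  fun x y hxy => h x y fun p hp => hxy p (hST hp)

lemma Dep.comp {E E' : Type} {S : Set ℕ} {F : Om → E} (h : Dep S F) (φ : E → E') :
    Dep S fun x => φ (F x) := fun x y hxy => by simp only; rw [h x y hxy]

lemma Dep.comp₂ {E E' E'' : Type} {S : Set ℕ} {F : Om → E} {G : Om → E'} (h : Dep S F)
    (h' : Dep S G) (φ : E → E' → E'') : Dep S fun x => φ (F x) (G x) :=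
  fun x y hxy => by simp only; rw [h x y hxy, h' x y hxy]

lemma Dep.mul {S : Set ℕ} {F G : Om → ℂ} (h : Dep S F) (h' : Dep S G) :
    Dep S fun x => F x * G x := h.comp₂ h' (· * ·)

lemma dep_sum {ι : Type} {S : Set ℕ} {s : Finset ι} {F : ι → Om → ℂ} (h : ∀ i ∈ s, Dep S (F i)) :
    Dep S fun x => ∑ i ∈ s, F i x :=
  fun x y hxy => Finset.sum_congr rfl fun i hi => h i hi x y hxy

lemma dep_prod {ι : Type} {S : Set ℕ} {s : Finset ι} {F : ι → Om → ℂ} (h : ∀ i ∈ s, Dep S (F i)) :
    Dep S fun x => ∏ i ∈ s, F i x :=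
  fun x y hxy => Finset.prod_congr rfl fun i hi => h i hi x y hxy

lemma dep_coord {S : Set ℕ} {p : ℕ} (hp : p ∈ S) : Dep S fun x : Om => x p := fun _ _ hxy => hxy p hp

lemma dep_lin {S : Finset ℕ} {c : ℕ → ℂ} : Dep (S : Set ℕ) (lin S c) := by
  intro x y hxy
  unfold lin
  refine Finset.sum_congr rfl fun p hp => ?_
  rw [hxy p (Finset.mem_coe.mpr hp)]

/-- a family of functions of disjoint sets of coordinates -/
theorem integral_prod_of_dep {ι : Type} (D : Finset ι) (S : ι → Finset ℕ) (F : ι → Om → ℂ)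
    (hS : ∀ i ∈ D, ∀ j ∈ D, i ≠ j → Disjoint (S i) (S j)) (hF : ∀ i ∈ D, Measurable (F i))
    (hD : ∀ i ∈ D, Dep (S i : Set ℕ) (F i)) :
    ∫ x, ∏ i ∈ D, F i x ∂mu = ∏ i ∈ D, ∫ x, F i x ∂mu := by
  classical
  induction D using Finset.induction_on with
  | empty => simp
  | insert i D hi ih =>
    have h1 : ∀ x, ∏ j ∈ insert i D, F j x = F i x * ∏ j ∈ D, F j x := fun x =>
      Finset.prod_insert hi
    simp_rw [h1]
    rw [Finset.prod_insert hi, ← ih (fun j hj k hk => hS j (Finset.mem_insert_of_mem hj) k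
      (Finset.mem_insert_of_mem hk)) (fun j hj => hF j (Finset.mem_insert_of_mem hj))
      (fun j hj => hD j (Finset.mem_insert_of_mem hj))]
    refine integral_mul_of_dep (S := S i) (T := D.biUnion S) ?_ (hF i (Finset.mem_insert_self _ _))
      (Finset.measurable_fun_prod _ fun j hj => hF j (Finset.mem_insert_of_mem hj))
      (hD i (Finset.mem_insert_self _ _)) ?_
    · rw [Finset.disjoint_biUnion_right]
      intro j hj
      refine hS i (Finset.mem_insert_self _ _) j (Finset.mem_insert_of_mem hj) ?_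
      rintro rfl
      exact hi hj
    · refine dep_prod fun j hj => (hD j (Finset.mem_insert_of_mem hj)).mono ?_
      intro p hp
      exact Finset.mem_coe.mpr (Finset.mem_biUnion.mpr ⟨j, hj, Finset.mem_coe.mp hp⟩)

/-- one coordinate -/
lemma integral_e1 (k : ℤ) : ∫ x, cexp ((2 * Real.pi * (k * x) : ℝ) * I) ∂u1 = if k = 0 then 1 else 0 := by
  unfold u1
  rw [integral_Icc_eq_integral_Ioc, ← intervalIntegral.integral_of_le zero_le_one]
  by_cases hk : k = 0
  · simp [hk]
  · rw [if_neg hk]
    have hc : (2 * Real.pi * k * I : ℂ) ≠ 0 := by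
      have : (k : ℂ) ≠ 0 := by exact_mod_cast hk
      have := Complex.ofReal_ne_zero.mpr Real.pi_ne_zero
      simp_all
    have h1 : ∀ x : ℝ, cexp ((2 * Real.pi * (k * x) : ℝ) * I) = cexp ((2 * Real.pi * k * I) * x) := by
      intro x
      congr 1
      push_cast
      ring
    simp_rw [h1]
    rw [integral_exp_mul_complex hc]
    have h2 : cexp (2 * Real.pi * k * I * (1 : ℝ)) = 1 := by
      rw [Complex.exp_eq_one_iff]
      exact ⟨k, by push_cast; ring⟩
    rw [h2]
    simp

/-- orthogonality of the characters -/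
theorem integral_ch {m n : ℕ} (hm : m ≠ 0) (hn : n ≠ 0) :
    ∫ x, ch x m * conj (ch x n) ∂mu = if m = n then 1 else 0 := by
  set D : Finset ℕ := m.primeFactors ∪ n.primeFactors with hD
  have h0 : ∀ (k : ℕ) (x : Om), k.primeFactors ⊆ D →
      ang x k = ∑ p ∈ D, (k.factorization p : ℝ) * x p := by
    intro k x hk
    unfold ang Finsupp.sum
    refine Finset.sum_subset (by rwa [Nat.support_factorization]) fun p _ hp => ?_
    rw [Finsupp.notMem_support_iff.mp hp]
    simp
  have h1 : ∀ x : Om, ch x m * conj (ch x n)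
      = ∏ p ∈ D, cexp ((2 * Real.pi * (((m.factorization p : ℤ) - n.factorization p : ℤ) * x p) : ℝ)
        * I) := by
    intro x
    unfold ch
    rw [h0 m x Finset.subset_union_left, h0 n x Finset.subset_union_right, ← e1_neg, ← e1_add,
      ← Finset.sum_neg_distrib, ← Finset.sum_add_distrib, e1_sum]
    refine Finset.prod_congr rfl fun p _ => ?_
    unfold e1
    congr 1
    push_cast
    ring
  simp_rw [h1]
  rw [integral_prod D (fun p x => cexp ((2 * Real.pi * (((m.factorization p : ℤ)
    - n.factorization p : ℤ) * x) : ℝ) * I)) (fun p => Continuous.measurable (by fun_prop))]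
  simp_rw [integral_e1]
  by_cases h : m = n
  · subst h
    simp
  · rw [if_neg h]
    have h2 : ∃ p, m.factorization p ≠ n.factorization p := by
      by_contra hc
      push Not at hc
      exact h (Nat.eq_of_factorization_eq hm hn hc)
    obtain ⟨p, hp⟩ := h2
    refine Finset.prod_eq_zero (i := p) ?_ ?_
    · rw [hD, Finset.mem_union, ← Nat.support_factorization, ← Nat.support_factorization,
        Finsupp.mem_support_iff, Finsupp.mem_support_iff]
      by_contra hc
      push Not at hc
      exact hp (hc.1.trans hc.2.symm)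
    · rw [if_neg]
      intro hc
      have : (m.factorization p : ℤ) = n.factorization p := by linarith
      exact hp (by exact_mod_cast this)

end Pool.Agent.Lib.GT
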