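import Mathlib
import Pool.Agent.Lib.MP_f9aece_nt_gt.Torus

/-!
Gaussian tails of `log |zeta|` on the critical line: trigonometric polynomials on the torus and
their averages along the flow.
-/

set_option autoImplicit false

namespace Pool.Agent.Lib.GT

open MeasureTheory Set Filter Topology Complex ProbabilityTheory
open scoped ComplexConjugate

namespace TP

variable {N N' c c' : ℝ} {f g : Om → ℂ}

lemma congr (h : TP N c f) (hfg : ∀ x, g x = f x) : TP N c g := by
  obtain ⟨ι, hι, a, m, n, h1, h2, h3⟩ := h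
  exact ⟨ι, hι, a, m, n, h1, fun x => (hfg x).trans (h2 x), h3⟩

lemma mono (h : TP N c f) (hN : N ≤ N') (hc : c ≤ c') : TP N' c' f := by
  obtain ⟨ι, hι, a, m, n, h1, h2, h3⟩ := h
  exact ⟨ι, hι, a, m, n, fun i => ⟨(h1 i).1, (h1 i).2.1.trans hN, (h1 i).2.2.1,
    (h1 i).2.2.2.trans hN⟩, h2, h3.trans hc⟩

lemma zero (N : ℝ) : TP N 0 fun _ => 0 :=
  ⟨Fin 0, inferInstance, fun _ => 0, fun _ => 1, fun _ => 1, fun i => i.elim0, fun x => by simp,
    by simp⟩

lemma char {m n : ℕ} (hm : 1 ≤ m) (hn : 1 ≤ n) (hmN : (m : ℝ) ≤ N) (hnN : (n : ℝ) ≤ N) (a : ℂ) :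
    TP N ‖a‖ fun x => a * (ch x m * conj (ch x n)) :=
  ⟨Unit, inferInstance, fun _ => a, fun _ => m, fun _ => n, fun _ => ⟨hm, hmN, hn, hnN⟩,
    fun x => by simp, by simp⟩

lemma const (hN : 1 ≤ N) (a : ℂ) : TP N ‖a‖ fun _ => a :=
  (char (N := N) (le_refl 1) (le_refl 1) (by simpa using hN) (by simpa using hN) a).congr
    fun x => by simp [ch_one]

lemma one (hN : 1 ≤ N) : TP N 1 fun _ => 1 := by
  have := const hN 1
  simpa using this

lemma add (hf : TP N c f) (hg : TP N c' g) : TP N (c + c') fun x => f x + g x := by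
  obtain ⟨ι, hι, a, m, n, h1, h2, h3⟩ := hf
  obtain ⟨ι', hι', a', m', n', h1', h2', h3'⟩ := hg
  refine ⟨ι ⊕ ι', inferInstance, Sum.elim a a', Sum.elim m m', Sum.elim n n', ?_, ?_, ?_⟩
  · rintro (i | i)
    · exact h1 i
    · exact h1' i
  · intro x
    rw [Fintype.sum_sum_type]
    change f x + g x = _
    rw [h2, h2']
    simp
  · rw [Fintype.sum_sum_type]
    simpa using add_le_add h3 h3'

lemma mul (hf : TP N c f) (hg : TP N' c' g) : TP (N * N') (c * c') fun x => f x * g x := by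
  obtain ⟨ι, hι, a, m, n, h1, h2, h3⟩ := hf
  obtain ⟨ι', hι', a', m', n', h1', h2', h3'⟩ := hg
  refine ⟨ι × ι', inferInstance, fun i => a i.1 * a' i.2, fun i => m i.1 * m' i.2,
    fun i => n i.1 * n' i.2, ?_, ?_, ?_⟩
  · rintro ⟨i, j⟩
    have hi := h1 i
    have hj := h1' j
    have hi0 : (0 : ℝ) ≤ m i := Nat.cast_nonneg _
    have hi0' : (0 : ℝ) ≤ n i := Nat.cast_nonneg _
    have hj0 : (0 : ℝ) ≤ m' j := Nat.cast_nonneg _
    have hj0' : (0 : ℝ) ≤ n' j := Nat.cast_nonneg _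
    refine ⟨Nat.mul_pos hi.1 hj.1, ?_, Nat.mul_pos hi.2.2.1 hj.2.2.1, ?_⟩
    · push_cast
      exact mul_le_mul hi.2.1 hj.2.1 hj0 (hi0.trans hi.2.1)
    · push_cast
      exact mul_le_mul hi.2.2.2 hj.2.2.2 hj0' (hi0'.trans hi.2.2.2)
  · intro x
    change f x * g x = _
    rw [h2, h2', Finset.sum_mul_sum, ← Finset.univ_product_univ, Finset.sum_product]
    refine Finset.sum_congr rfl fun i _ => Finset.sum_congr rfl fun j _ => ?_
    have hi := h1 i
    have hj := h1' j
    simp only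
    rw [ch_mul x (by omega) (by omega), ch_mul x (by omega) (by omega), map_mul]
    ring
  · have e : ∑ i : ι × ι', ‖a i.1 * a' i.2‖ = (∑ i, ‖a i‖) * ∑ j, ‖a' j‖ := by
      rw [Finset.sum_mul_sum, ← Finset.univ_product_univ, Finset.sum_product]
      simp
    rw [e]
    exact mul_le_mul h3 h3' (Finset.sum_nonneg fun _ _ => norm_nonneg _)
      ((Finset.sum_nonneg fun _ _ => norm_nonneg _).trans h3)

lemma conj_ (hf : TP N c f) : TP N c fun x => conj (f x) := by
  obtain ⟨ι, hι, a, m, n, h1, h2, h3⟩ := hf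
  refine ⟨ι, hι, fun i => conj (a i), n, m, fun i => ⟨(h1 i).2.2.1, (h1 i).2.2.2, (h1 i).1,
    (h1 i).2.1⟩, ?_, ?_⟩
  · intro x
    change conj (f x) = _
    rw [h2, map_sum]
    refine Finset.sum_congr rfl fun i _ => ?_
    rw [map_mul, map_mul, Complex.conj_conj]
    ring
  · simpa using h3

lemma nonneg (hf : TP N c f) : 0 ≤ c := by
  obtain ⟨ι, hι, a, m, n, h1, h2, h3⟩ := hf
  exact (Finset.sum_nonneg fun _ _ => norm_nonneg _).trans h3

lemma const_mul (hf : TP N c f) (a : ℂ) : TP N (‖a‖ * c) fun x => a * f x := by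
  have h := (const (le_refl (1 : ℝ)) a).mul hf
  rwa [one_mul] at h

lemma neg (hf : TP N c f) : TP N c fun x => -f x := by
  have h := hf.const_mul (-1)
  simp only [norm_neg, norm_one, one_mul] at h
  exact h.congr fun x => by ring

lemma sub (hf : TP N c f) (hg : TP N c' g) : TP N (c + c') fun x => f x - g x :=
  (hf.add hg.neg).congr fun x => by ring

lemma sum {ι : Type} {s : Finset ι} {c : ι → ℝ} {f : ι → Om → ℂ} (h : ∀ i ∈ s, TP N (c i) (f i)) :
    TP N (∑ i ∈ s, c i) fun x => ∑ i ∈ s, f i x := by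
  classical
  induction s using Finset.induction_on with
  | empty => simpa using TP.zero N
  | insert i s hi ih =>
    rw [Finset.sum_insert hi]
    refine ((h i (Finset.mem_insert_self _ _)).add
      (ih fun j hj => h j (Finset.mem_insert_of_mem hj))).congr fun x => ?_
    rw [Finset.sum_insert hi]

lemma prod {ι : Type} {s : Finset ι} {N c : ι → ℝ} {f : ι → Om → ℂ}
    (h : ∀ i ∈ s, TP (N i) (c i) (f i)) :
    TP (∏ i ∈ s, N i) (∏ i ∈ s, c i) fun x => ∏ i ∈ s, f i x := by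
  classical
  induction s using Finset.induction_on with
  | empty => simpa using TP.one (le_refl (1 : ℝ))
  | insert i s hi ih =>
    rw [Finset.prod_insert hi, Finset.prod_insert hi]
    refine ((h i (Finset.mem_insert_self _ _)).mul
      (ih fun j hj => h j (Finset.mem_insert_of_mem hj))).congr fun x => ?_
    rw [Finset.prod_insert hi]

lemma pow (hf : TP N c f) (k : ℕ) : TP (N ^ k) (c ^ k) fun x => f x ^ k := by
  have h := TP.prod (s := Finset.range k) (N := fun _ => N) (c := fun _ => c) (f := fun _ => f)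
    fun _ _ => hf
  simpa using h

lemma norm_le (hf : TP N c f) (x : Om) : ‖f x‖ ≤ c := by
  obtain ⟨ι, hι, a, m, n, h1, h2, h3⟩ := hf
  rw [h2]
  refine (norm_sum_le _ _).trans (le_trans (le_of_eq ?_) h3)
  refine Finset.sum_congr rfl fun i _ => ?_
  rw [norm_mul, norm_mul, Complex.norm_conj, norm_ch, norm_ch]
  ring

lemma continuous (hf : TP N c f) : Continuous f := by
  obtain ⟨ι, hι, a, m, n, h1, h2, h3⟩ := hf
  have : f = fun x => ∑ i, a i * (ch x (m i) * conj (ch x (n i))) := funext h2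
  rw [this]
  refine continuous_finsetSum _ fun i _ => ?_
  exact continuous_const.mul ((continuous_ch _).mul (Complex.continuous_conj.comp (continuous_ch _)))

lemma integrable (hf : TP N c f) : Integrable f mu :=
  integrable_of_bd hf.continuous.aestronglyMeasurable hf.norm_le

/-- truncated exponentials -/
lemma tex (hN : 1 ≤ N) (hf : TP N c f) (K : ℕ) :
    TP (N ^ K) ((1 + c) ^ K) fun x => GT.tex K (f x) := by
  unfold GT.tex
  have h : ∀ k ∈ Finset.range (K + 1), TP (N ^ K) (c ^ k / (k.factorial : ℝ))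
      fun x => f x ^ k / (k.factorial : ℂ) := by
    intro k hk
    have h1 := (hf.pow k).const_mul (1 / (k.factorial : ℂ))
    have h2 : ‖(1 / (k.factorial : ℂ))‖ * c ^ k = c ^ k / (k.factorial : ℝ) := by
      rw [norm_div, norm_one, Complex.norm_natCast]; ring
    rw [h2] at h1
    refine (h1.congr fun x => by ring).mono ?_ le_rfl
    exact pow_le_pow_right₀ hN (by have := Finset.mem_range.mp hk; omega)
  refine (TP.sum h).mono le_rfl ?_
  have hc := hf.nonneg
  rw [add_comm 1 c, add_pow]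
  refine Finset.sum_le_sum fun k hk => ?_
  have hk' : k ≤ K := by have := Finset.mem_range.mp hk; omega
  rw [one_pow, mul_one]
  have h1 : (1 : ℝ) ≤ (K.choose k : ℝ) := by
    exact_mod_cast Nat.choose_pos hk'
  have h2 : (1 : ℝ) ≤ (k.factorial : ℝ) := by exact_mod_cast Nat.factorial_pos k
  calc c ^ k / (k.factorial : ℝ) ≤ c ^ k := div_le_self (by positivity) h2
    _ = c ^ k * 1 := (mul_one _).symm
    _ ≤ c ^ k * (K.choose k : ℝ) := by gcongr

/-- linear forms -/
lemma lin {S : Finset ℕ} {c : ℕ → ℂ} (hS : ∀ p ∈ S, p.Prime) (hN : ∀ p ∈ S, (p : ℝ) ≤ N)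
    (hN1 : 1 ≤ N) : TP N (∑ p ∈ S, ‖c p‖) (GT.lin S c) := by
  unfold GT.lin
  refine TP.sum fun p hp => ?_
  refine (char (hS p hp).one_le (le_refl 1) (hN p hp) (by simpa using hN1) (c p)).congr
    fun x => ?_
  rw [ch_prime x (hS p hp), ch_one]
  simp

/-- real parts -/
lemma re (hf : TP N c f) : TP N c fun x => ((f x).re : ℂ) := by
  have h := (hf.add hf.conj_).const_mul (1 / 2)
  have h2 : ‖(1 / 2 : ℂ)‖ * (c + c) = c := by
    rw [norm_div, norm_one, Complex.norm_ofNat]; ring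
  rw [h2] at h
  refine h.congr fun x => ?_
  rw [Complex.re_eq_add_conj]
  ring

lemma normSq (hf : TP N c f) : TP (N * N) (c * c) fun x => ((‖f x‖ ^ 2 : ℝ) : ℂ) := by
  refine (hf.mul hf.conj_).congr fun x => ?_
  rw [Complex.mul_conj, Complex.normSq_eq_norm_sq]

end TP

/-! ### transfer -/

lemma log_div_ge {m n : ℕ} {N : ℝ} (hm : 1 ≤ m) (hn : 1 ≤ n) (hmN : (m : ℝ) ≤ N)
    (hnN : (n : ℝ) ≤ N) (h : m ≠ n) : 1 / N ≤ |Real.log m - Real.log n| := by
  have key : ∀ a b : ℕ, 1 ≤ a → a < b → (b : ℝ) ≤ N → 1 / N ≤ Real.log b - Real.log a := by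
    intro a b ha hab hbN
    have ha0 : (0 : ℝ) < a := by exact_mod_cast ha
    have hb0 : (0 : ℝ) < b := by exact_mod_cast (by omega : 0 < b)
    have h1 : Real.log a - Real.log b ≤ a / b - 1 := by
      rw [← Real.log_div ha0.ne' hb0.ne']
      exact Real.log_le_sub_one_of_pos (by positivity)
    have h2 : (a : ℝ) + 1 ≤ b := by exact_mod_cast hab
    have h3 : (a : ℝ) / b - 1 ≤ -(1 / b) := by
      rw [div_sub_one hb0.ne', ← neg_div, div_le_div_iff_of_pos_right hb0]
      linarith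
    have h4 : 1 / N ≤ 1 / (b : ℝ) := one_div_le_one_div_of_le hb0 hbN
    linarith
  rcases Nat.lt_or_gt_of_ne h with h | h
  · rw [abs_sub_comm, abs_of_nonneg]
    · exact key m n hm h hnN
    · have := Real.log_le_log (by exact_mod_cast hm : (0 : ℝ) < m)
        (by exact_mod_cast h.le : (m : ℝ) ≤ n)
      linarith
  · rw [abs_of_nonneg]
    · exact key n m hn h hmN
    · have := Real.log_le_log (by exact_mod_cast hn : (0 : ℝ) < n)
        (by exact_mod_cast h.le : (n : ℝ) ≤ m)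
      linarith

lemma ch_om_mul_conj (t : ℝ) {m n : ℕ} (hm : 1 ≤ m) (hn : 1 ≤ n) :
    ch (om t) m * conj (ch (om t) n) = cexp (-(I * (Real.log m - Real.log n)) * t) := by
  unfold ch
  rw [ang_om t (by omega), ang_om t (by omega), ← e1_neg, ← e1_add]
  unfold e1
  congr 1
  have hpi := Real.pi_ne_zero
  have : 2 * Real.pi * (-(t * Real.log m / (2 * Real.pi)) + - -(t * Real.log n / (2 * Real.pi)))
      = -((Real.log m - Real.log n) * t) := by
    field_simp
    ring
  rw [this]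
  push_cast
  ring

/-- transfer for one character -/
lemma transfer_of_char {ν : Measure ℝ} [IsProbabilityMeasure ν] {N ε : ℝ}
    (hν : ∀ ξ : ℝ, 1 / N ≤ |ξ| → ‖∫ t : ℝ, cexp (-(I * ξ) * t) ∂ν‖ ≤ ε) {c : ℝ} {f : Om → ℂ}
    (hε : 0 ≤ ε) (hf : TP N c f) : ‖∫ t, f (om t) ∂ν - ∫ x, f x ∂mu‖ ≤ c * ε := by
  obtain ⟨ι, hι, a, m, n, h1, h2, h3⟩ := hf
  have hi1 : ∀ i, Integrable (fun t : ℝ => a i * (ch (om t) (m i) * conj (ch (om t) (n i)))) ν := by
    intro i
    refine Integrable.of_bound (C := ‖a i‖) ?_ (Eventually.of_forall fun t => ?_)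
    · refine Continuous.aestronglyMeasurable ?_
      have hc1 : Continuous fun t => ch (om t) (m i) := (continuous_ch _).comp continuous_om
      have hc2 : Continuous fun t => ch (om t) (n i) := (continuous_ch _).comp continuous_om
      exact continuous_const.mul (hc1.mul (Complex.continuous_conj.comp hc2))
    · rw [norm_mul, norm_mul, Complex.norm_conj, norm_ch, norm_ch]
      simp
  have hi2 : ∀ i, Integrable (fun x : Om => a i * (ch x (m i) * conj (ch x (n i)))) mu := by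
    intro i
    refine integrable_of_bd (C := ‖a i‖) ?_ fun x => ?_
    · exact (continuous_const.mul ((continuous_ch _).mul
        (Complex.continuous_conj.comp (continuous_ch _)))).aestronglyMeasurable
    · rw [norm_mul, norm_mul, Complex.norm_conj, norm_ch, norm_ch]
      simp
  simp_rw [h2]
  rw [integral_finsetSum _ fun i _ => hi1 i, integral_finsetSum _ fun i _ => hi2 i,
    ← Finset.sum_sub_distrib]
  refine (norm_sum_le _ _).trans ?_
  have h4 : ∀ i ∈ Finset.univ, ‖∫ t, a i * (ch (om t) (m i) * conj (ch (om t) (n i))) ∂ν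
      - ∫ x, a i * (ch x (m i) * conj (ch x (n i))) ∂mu‖ ≤ ‖a i‖ * ε := by
    intro i _
    obtain ⟨hm, hmN, hn, hnN⟩ := h1 i
    rw [integral_const_mul, integral_const_mul, ← mul_sub, norm_mul]
    gcongr
    rw [integral_ch (by omega) (by omega)]
    simp_rw [ch_om_mul_conj _ hm hn]
    by_cases h : m i = n i
    · rw [if_pos h, h]
      simp [hε]
    · rw [if_neg h, sub_zero]
      have h5 := hν (Real.log (m i) - Real.log (n i)) (log_div_ge hm hn hmN hnN h)
      rwa [Complex.ofReal_sub] at h5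
  refine (Finset.sum_le_sum h4).trans ?_
  rw [← Finset.sum_mul]
  gcongr

/-- transfer to the Gaussian mean -/
theorem transfer_ga {N c : ℝ} (hN : 0 < N) {f : Om → ℂ} (hf : TP N c f) (x : ℝ) {T : ℝ} (hT : 0 < T) :
    ‖∫ t, f (om t) ∂(ga x T) - ∫ x, f x ∂mu‖ ≤ c * Real.exp (-(T ^ 2 / (4 * N ^ 2))) := by
  have : IsProbabilityMeasure (ga x T) := by unfold ga; infer_instance
  refine transfer_of_char (N := N) (fun ξ hξ => ?_) (Real.exp_pos _).le hf
  have h := charFun_gaussianReal (μ := x + T / 2) (v := Real.toNNReal (T ^ 2 / 2)) (-ξ)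
  rw [charFun_apply_real] at h
  have e : ∀ t : ℝ, cexp (-(I * ξ) * t) = cexp (((-ξ : ℝ) : ℂ) * t * I) := by
    intro t
    congr 1
    push_cast
    ring
  simp_rw [e]
  unfold ga
  rw [h, Complex.norm_exp]
  refine Real.exp_le_exp.mpr ?_
  have h5 : ((Real.toNNReal (T ^ 2 / 2) : NNReal) : ℝ) = T ^ 2 / 2 :=
    Real.coe_toNNReal _ (by positivity)
  have h2 : (((-ξ : ℝ) : ℂ) * ((x + T / 2 : ℝ) : ℂ) * I
      - (((Real.toNNReal (T ^ 2 / 2) : NNReal) : ℝ) : ℂ) * ((-ξ : ℝ) : ℂ) ^ 2 / 2).re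
      = -(T ^ 2 * ξ ^ 2 / 4) := by
    rw [h5]
    have h3 : (((-ξ : ℝ) : ℂ) * ((x + T / 2 : ℝ) : ℂ) * I - ((T ^ 2 / 2 : ℝ) : ℂ) *
      ((-ξ : ℝ) : ℂ) ^ 2 / 2) = ((-ξ * (x + T / 2) : ℝ) : ℂ) * I + ((-(T ^ 2 * ξ ^ 2 / 4) : ℝ) : ℂ) := by
      push_cast
      ring
    rw [h3, Complex.add_re, Complex.ofReal_re, Complex.re_ofReal_mul]
    simp
  rw [h2]
  have h6 : 1 / N ^ 2 ≤ ξ ^ 2 := by
    rw [← sq_abs ξ]
    calc 1 / N ^ 2 = (1 / N) ^ 2 := by rw [div_pow, one_pow]
      _ ≤ |ξ| ^ 2 := pow_le_pow_left₀ (by positivity) hξ 2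
  have h7 : T ^ 2 / (4 * N ^ 2) = T ^ 2 * (1 / N ^ 2) / 4 := by
    field_simp
  rw [h7]
  have : T ^ 2 * (1 / N ^ 2) ≤ T ^ 2 * ξ ^ 2 := by gcongr
  linarith

instance instProbGa (x T : ℝ) : IsProbabilityMeasure (ga x T) := by
  unfold ga
  infer_instance

lemma prob_un (x : ℝ) {T : ℝ} (hT : 0 < T) : IsProbabilityMeasure (un x T) := by
  refine ⟨?_⟩
  unfold un
  rw [Measure.smul_apply, Measure.restrict_apply MeasurableSet.univ, univ_inter, Real.volume_Icc,
    smul_eq_mul, add_sub_cancel_left, ENNReal.inv_mul_cancel]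
  · simpa using hT
  · exact ENNReal.ofReal_ne_top

lemma integral_un {E : Type} [NormedAddCommGroup E] [NormedSpace ℝ E] (x : ℝ) {T : ℝ} (hT : 0 < T)
    (f : ℝ → E) : ∫ t, f t ∂(un x T) = (1 / T) • ∫ t in x..(x + T), f t := by
  unfold un
  rw [integral_smul_measure, intervalIntegral.integral_of_le (by linarith),
    integral_Icc_eq_integral_Ioc, ENNReal.toReal_inv, ENNReal.toReal_ofReal hT.le, one_div]

/-- transfer to the uniform mean -/
theorem transfer_un {N c : ℝ} (hN : 0 < N) {f : Om → ℂ} (hf : TP N c f) (x : ℝ) {T : ℝ} (hT : 0 < T) :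
    ‖∫ t, f (om t) ∂(un x T) - ∫ x, f x ∂mu‖ ≤ c * (2 * N / T) := by
  have := prob_un x hT
  refine transfer_of_char (N := N) (fun ξ hξ => ?_) (by positivity) hf
  have hξ0 : 0 < |ξ| := lt_of_lt_of_le (by positivity) hξ
  have hξ1 : ξ ≠ 0 := abs_pos.mp hξ0
  have hc : (-(I * ξ) : ℂ) ≠ 0 := by
    simp [hξ1]
  rw [integral_un x hT, integral_exp_mul_complex hc, norm_smul,
    Real.norm_of_nonneg (by positivity : (0 : ℝ) ≤ 1 / T), norm_div (cexp _ - _), norm_neg, norm_mul,
    Complex.norm_I, one_mul, Complex.norm_real]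
  have h1 : ∀ t : ℝ, ‖cexp (-(I * ξ) * t)‖ = 1 := by
    intro t
    rw [Complex.norm_exp]
    simp
  have h2 : ‖cexp (-(I * ξ) * (x + T : ℝ)) - cexp (-(I * ξ) * x)‖ ≤ 2 := by
    refine (norm_sub_le _ _).trans ?_
    rw [h1, h1]
    norm_num
  have h3 : 1 / |ξ| ≤ N := by
    rw [div_le_iff₀ hξ0]
    rw [div_le_iff₀ hN] at hξ
    linarith
  calc 1 / T * (‖cexp (-(I * ξ) * (x + T : ℝ)) - cexp (-(I * ξ) * x)‖ / ‖ξ‖)
      ≤ 1 / T * (2 / |ξ|) := by
        rw [Real.norm_eq_abs]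
        gcongr
    _ = 2 * (1 / |ξ|) / T := by ring
    _ ≤ 2 * N / T := by gcongr

/-- the uniform mean is bounded by the Gaussian mean -/
theorem un_le_ga (x : ℝ) {T : ℝ} (hT : 0 < T) {f : ℝ → ℝ} (hf : ∀ t, 0 ≤ f t)
    (hi : Integrable f (ga x T)) : Integrable f (un x T) ∧ ∫ t, f t ∂(un x T) ≤ 3 * ∫ t, f t ∂(ga x T) := by
  have hv : Real.toNNReal (T ^ 2 / 2) ≠ 0 := by
    intro h
    rw [Real.toNNReal_eq_zero] at h
    have : 0 < T ^ 2 / 2 := by positivity
    linarith
  have hle : un x T ≤ (3 : NNReal) • ga x T := by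
    unfold un ga
    rw [gaussianReal_of_var_ne_zero _ hv]
    refine Measure.le_iff.mpr fun s hs => ?_
    rw [Measure.smul_apply, Measure.restrict_apply hs, Measure.smul_apply,
      withDensity_apply _ hs]
    have h1 : (ENNReal.ofReal T)⁻¹ • volume (s ∩ Icc x (x + T))
        = ∫⁻ t in s ∩ Icc x (x + T), (ENNReal.ofReal T)⁻¹ := by
      rw [setLIntegral_const, smul_eq_mul]
    rw [h1]
    have h2 : ∫⁻ t in s ∩ Icc x (x + T), (ENNReal.ofReal T)⁻¹ ≤ ∫⁻ t in s ∩ Icc x (x + T),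
        (3 : NNReal) * gaussianPDF (x + T / 2) (Real.toNNReal (T ^ 2 / 2)) t := by
      refine setLIntegral_mono' (hs.inter measurableSet_Icc) fun t ht => ?_
      have ht2 := ht.2
      unfold gaussianPDF gaussianPDFReal
      rw [← ENNReal.ofReal_inv_of_pos hT]
      have h3 : ((3 : NNReal) : ENNReal) = ENNReal.ofReal 3 := by
        rw [ENNReal.ofReal_ofNat]; rfl
      rw [h3, ← ENNReal.ofReal_mul (by norm_num)]
      refine ENNReal.ofReal_le_ofReal ?_
      have h4 : ((Real.toNNReal (T ^ 2 / 2) : NNReal) : ℝ) = T ^ 2 / 2 :=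
        Real.coe_toNNReal _ (by positivity)
      rw [h4]
      have h5 : Real.sqrt (2 * Real.pi * (T ^ 2 / 2)) = Real.sqrt Real.pi * T := by
        rw [show 2 * Real.pi * (T ^ 2 / 2) = Real.pi * T ^ 2 by ring,
          Real.sqrt_mul Real.pi_pos.le, Real.sqrt_sq hT.le]
      rw [h5]
      have h6 : (t - (x + T / 2)) ^ 2 ≤ T ^ 2 / 4 := by
        have e : T ^ 2 / 4 = (T / 2) ^ 2 := by ring
        rw [e]
        refine sq_le_sq' ?_ ?_
        · linarith [ht2.1]
        · linarith [ht2.2]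
      have h7 : -(1 / 4) ≤ -(t - (x + T / 2)) ^ 2 / (2 * (T ^ 2 / 2)) := by
        rw [le_div_iff₀ (by positivity)]
        nlinarith
      have h8 : Real.exp (-(1 / 4)) ≤ Real.exp (-(t - (x + T / 2)) ^ 2 / (2 * (T ^ 2 / 2))) :=
        Real.exp_le_exp.mpr h7
      have h9 : (3 / 4 : ℝ) ≤ Real.exp (-(1 / 4)) := by
        have := Real.add_one_le_exp (-(1 / 4) : ℝ)
        linarith
      have h10 : Real.sqrt Real.pi ≤ 2 := by
        rw [Real.sqrt_le_left (by norm_num)]
        have := Real.pi_le_four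
        linarith
      have h11 : 0 < Real.sqrt Real.pi := Real.sqrt_pos.mpr Real.pi_pos
      calc T⁻¹ = 3 * ((2 * T)⁻¹ * (2 / 3)) := by
            rw [mul_inv]; ring
        _ ≤ 3 * ((Real.sqrt Real.pi * T)⁻¹ * Real.exp (-(t - (x + T / 2)) ^ 2
            / (2 * (T ^ 2 / 2)))) := by
            gcongr
            linarith
    refine h2.trans ?_
    rw [lintegral_const_mul _ (measurable_gaussianPDF _ _)]
    refine mul_le_mul_right ?_ _
    exact lintegral_mono_set inter_subset_left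
  have hi2 : Integrable f ((3 : NNReal) • ga x T) := hi.smul_measure_nnreal
  refine ⟨hi2.mono_measure hle, ?_⟩
  have h := integral_mono_measure hle (Eventually.of_forall hf) hi2
  rw [integral_smul_nnreal_measure, NNReal.smul_def, smul_eq_mul] at h
  exact h

end Pool.Agent.Lib.GT
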