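import Mathlib
import Pool.Agent.Lib.MP_f9aece_nt_j4.GroupsH
import Pool.Agent.Lib.MP_f9aece_nt_h20.Kern2
import Pool.Agent.Lib.MP_f9aece_nt_h40.Growth
import Pool.Agent.Lib.MP_f9aece_nt_gt.TPoly

/-!
Gaussian tails of `log |zeta|` on the critical line: definitions.
-/

set_option autoImplicit false

namespace Pool.Agent.Lib.GT

open MeasureTheory Set Filter Topology Complex ProbabilityTheory
open scoped ComplexConjugate
open Pool.Agent.Lib.MP_f9aece_nt (VV)
open Pool.Agent.Lib.J4 (Sg Yg rg Jok V2)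

/-! ### one group of primes -/

/-- degree of the truncated exponentials -/
def KK (r : ℕ) : ℕ := 1000000 * r

/-- half of the degree of the powers -/
def MM (r : ℕ) : ℕ := 500 * r

/-- thresholds -/
noncomputable def RR (r : ℕ) : ℝ := 10000 * (r : ℝ)

/-- the four truncated exponentials of a group -/
noncomputable def GF (r : ℕ) (S : Finset ℕ) (h : ℕ → ℝ) (z z' μ1 μ2 : ℂ) (x : Om) : ℂ :=
  tex (KK r) (z * ((lin S (fun p => (h p : ℂ)) x).re : ℂ))
    * conj (tex (KK r) (z' * ((lin S (fun p => (h p : ℂ)) x).re : ℂ)))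
    * tex (KK r) (μ1 * lin S (fun p => (h p : ℂ)) x)
    * conj (tex (KK r) (μ2 * lin S (fun p => (h p : ℂ)) x))

/-- the power of a linear form of a group, normalised -/
noncomputable def bp (r : ℕ) (S : Finset ℕ) (c : ℕ → ℂ) (x : Om) : ℝ :=
  (‖lin S c x‖ / RR r) ^ (2 * MM r)

/-- the coefficients of the exponential and Euler factors: `g`, `g'` in the exponent at `e1 (x p)` and
`conj (e1 (x p))`, `a`, `a'` in the Euler factors -/
structure Dat where
  g : ℕ → ℂ
  g' : ℕ → ℂ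
  a : ℕ → ℂ
  a' : ℕ → ℂ

/-- the standing bounds -/
def Dat.Ok (D : Dat) : Prop := ∀ p : ℕ, ‖D.g p‖ ≤ 2 / Real.sqrt p ∧ ‖D.g' p‖ ≤ 2 / Real.sqrt p ∧
  ‖D.a p‖ ≤ 1 / Real.sqrt p ∧ ‖D.a' p‖ ≤ 1 / Real.sqrt p

/-- the exponential and the Euler factors -/
noncomputable def HF (S : Finset ℕ) (D : Dat) (x : Om) : ℂ :=
  cexp (∑ p ∈ S, (D.g p * e1 (x p) + D.g' p * conj (e1 (x p))))
    * ∏ p ∈ S, ((1 - D.a p * e1 (x p))⁻¹ * (1 - D.a' p * conj (e1 (x p)))⁻¹)

/-- the exponent: sum of the products of the coefficients of `e1 (x p)` and of its conjugate -/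
noncomputable def sab (S : Finset ℕ) (h : ℕ → ℝ) (z z' μ1 μ2 : ℂ) (D : Dat) : ℂ :=
  ∑ p ∈ S, ((h p : ℂ) * ((z + conj z') / 2 + μ1) + D.g p + D.a p)
    * ((h p : ℂ) * ((z + conj z') / 2 + conj μ2) + D.g' p + D.a' p)

/-! ### the window -/

/-- the uniform measure on `[-1/2, 1/2]` -/
noncomputable def me : Measure ℝ := volume.restrict (Icc (-(1 / 2) : ℝ) (1 / 2))

instance instProbMe : IsProbabilityMeasure me := ⟨by simp [me]; norm_num⟩

/-- the window on the side of the frequencies -/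
noncomputable def phi (η : ℝ) : ℝ := (1 - 4 * η ^ 2) ^ 2

/-- the window -/
noncomputable def psi (r : ℝ) : ℂ := ∫ η, (phi η : ℂ) * cexp (I * η * r) ∂me

/-- the normalising constant -/
noncomputable def c0 : ℝ := ∫ r, ‖psi r‖ ^ 2

/-! ### parameters -/

/-- `v`, `p0`, `J`, `Y` determine the groups of primes, `lam` is the distance from the critical line,
`be` the tilt and `b` the inverse of the width of the windows -/
structure Par where
  v : ℕ
  p0 : ℕ
  J : ℕ
  Y : ℝ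
  lam : ℝ
  be : ℝ
  b : ℝ

namespace Par

variable (A : Par)

/-- the groups -/
noncomputable def S (g : ℕ) : Finset ℕ := Sg A.v A.p0 A.Y g

/-- size parameters -/
def r (g : ℕ) : ℕ := rg A.v g

/-- all the primes of the groups -/
noncomputable def U : Finset ℕ := (Finset.range A.J).biUnion A.S

/-- the coefficients of the prime sums -/
noncomputable def h (p : ℕ) : ℝ := (p : ℝ) ^ (-(1 / 2 + A.lam))

/-- the prime sums of the groups -/
noncomputable def P (g : ℕ) (x : Om) : ℂ := lin (A.S g) (fun p => (A.h p : ℂ)) x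

/-- the shifted prime sums of the groups -/
noncomputable def Pv (v : ℝ) (g : ℕ) (x : Om) : ℂ :=
  lin (A.S g) (fun p => (A.h p : ℂ) * (p : ℂ) ^ (-(I * v) : ℂ)) x

/-- the real part of the prime sum outside the groups of `s` -/
noncomputable def X (s : Finset ℕ) (x : Om) : ℝ := ∑ g ∈ Finset.range A.J \ s, (A.P g x).re

/-- twice the variance -/
noncomputable def vt : ℝ := ∑ p ∈ A.U, A.h p ^ 2

/-- the variance -/
noncomputable def s2 : ℝ := A.vt / 2

/-- standing assumptions -/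
structure Ok (A : Par) : Prop where
  hv : 4 ≤ A.v
  hp : 1000 ≤ A.p0
  hY : 1 ≤ A.Y
  hJ : Jok A.v A.p0 A.Y A.J
  hl : 0 ≤ A.lam
  hl1 : A.lam ≤ 1
  hbe : 0 < A.be
  hbb : A.be ≤ A.b
  hb : A.b ≤ 1 / 20
  hs : 1 ≤ A.s2

/-- the size of a window of the density at the level `y` under the tilt -/
noncomputable def G (y : ℝ) : ℝ :=
  1 / Real.sqrt A.s2 * Real.exp (-(A.be * y) + A.be ^ 2 * A.s2 / 2)

/-- the complex tilts -/
noncomputable def zz (η : ℝ) : ℂ := A.be / 2 + I * (A.b * η)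

/-- the transform of the truncated exponentials -/
noncomputable def q (s : Finset ℕ) (y : ℝ) (x : Om) : ℂ :=
  ∫ η, (phi η : ℂ) * (cexp (-(A.zz η * y)) *
    ∏ g ∈ Finset.range A.J \ s, tex (KK (A.r g)) (A.zz η * ((A.P g x).re : ℂ))) ∂me

/-- the mollifier -/
noncomputable def mo (μ : ℂ) (s : Finset ℕ) (x : Om) : ℂ :=
  ∏ g ∈ Finset.range A.J \ s, tex (KK (A.r g)) (μ * A.P g x)

/-- the powers -/
noncomputable def bb (g : ℕ) (x : Om) : ℝ := bp (A.r g) (A.S g) (fun p => (A.h p : ℂ)) x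

/-- the shifted powers -/
noncomputable def bbv (v : ℝ) (g : ℕ) (x : Om) : ℝ :=
  bp (A.r g) (A.S g) (fun p => (A.h p : ℂ) * (p : ℂ) ^ (-(I * v) : ℂ)) x

/-- the weights -/
noncomputable def W (s : Finset ℕ) (y : ℝ) (x : Om) : ℝ :=
  A.b / c0 * (∏ g ∈ s, A.bb g x) * ‖A.q s y x‖ ^ 2

/-- no large prime sum outside `s` -/
def Good (s : Finset ℕ) (x : Om) : Prop := ∀ g ∈ Finset.range A.J \ s, ‖A.P g x‖ ≤ RR (A.r g)

/-- large prime sums in `s` -/
def Bad (s : Finset ℕ) (x : Om) : Prop := ∀ g ∈ s, RR (A.r g) < ‖A.P g x‖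

/-- the Euler product over all the primes up to `e ^ Y` -/
noncomputable def F (σ u : ℝ) (x : Om) : ℂ :=
  ∏ p ∈ (Finset.Icc 1 ⌊Real.exp A.Y⌋₊).filter Nat.Prime,
    (1 - (p : ℂ) ^ (-(1 / 2 + σ + I * u) : ℂ) * e1 (x p))⁻¹

/-- the mollifier of the small primes -/
noncomputable def Msm (x : Om) : ℂ :=
  ∏ p ∈ (Finset.Icc 1 A.p0).filter Nat.Prime, (1 - (A.h p : ℂ) * e1 (x p))

/-- smooth sums, `w = Λ / 20`: the weight is `1` for `log n ≤ a - w` and `0` for `log n ≥ a` -/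
noncomputable def _root_.Pool.Agent.Lib.GT.SU (Λ a σ v : ℝ) (x : Om) : ℂ :=
  ∑ n ∈ Finset.Icc 1 ⌊Real.exp a⌋₊, (Real.smoothTransition ((a - Real.log n) / (Λ / 20)) : ℂ)
    * ((n : ℂ) ^ (-(1 / 2 + σ + I * v) : ℂ) * ch x n)

end Par

/-- the kernel on the side of the shifts -/
noncomputable def kf (Λ u : ℝ) : ℝ := Λ / (1 + Λ * |u|) ^ 8

/-- the growth in the shift -/
noncomputable def gr (Λ v : ℝ) : ℝ := (1 + Λ * |v|) ^ (17 / 4 : ℝ)

/-- the window on the side of the values -/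
noncomputable def HH (be b y x : ℝ) : ℝ := b / c0 * (Real.exp (be * (x - y)) * ‖psi (b * (x - y))‖ ^ 2)

/-- the envelope of the windows -/
noncomputable def Env (be b y x : ℝ) : ℝ := b * (Real.exp (be * (x - y)) / (1 + (b * (x - y)) ^ 2))

/-- point at distance `σ` from the critical line -/
noncomputable def pt (σ t : ℝ) : ℂ := 1 / 2 + σ + I * t

end Pool.Agent.Lib.GT
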