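import Mathlib
import Pool.Agent.Lib.MP_f9aece_nt_gt.Defs

/-!
Gaussian tails of `log |zeta|` on the critical line: the statements of the modules, as propositions.
Module `X` proves `theorem x : X`; modules using `X` take it as a hypothesis.
-/

set_option autoImplicit false

namespace Pool.Agent.Lib.GT

open MeasureTheory Set Filter Topology Complex ProbabilityTheory
open scoped ComplexConjugate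
open Pool.Agent.Lib.MP_f9aece_nt (VV)
open Pool.Agent.Lib.J4 (Sg Yg rg Jok V2)

/-! ### B: one group -/

/-- B1: one prime -/
def OnePrime : Prop := ∀ α β a a' : ℂ, ‖α‖ + ‖a‖ ≤ 1 / 2 → ‖β‖ + ‖a'‖ ≤ 1 / 2 →
  ‖∫ x, cexp (α * e1 x + β * conj (e1 x)) * ((1 - a * e1 x)⁻¹ * (1 - a' * conj (e1 x))⁻¹) ∂u1
    - (1 + (α + a) * (β + a'))‖ ≤ 2 * ((‖α‖ + ‖a‖) * (‖β‖ + ‖a'‖)) ^ 2

/-- B2: the product over a set of primes -/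
def ProdPrimes : Prop := ∃ C : ℝ, 0 ≤ C ∧ ∀ S : Finset ℕ, (∀ p ∈ S, p.Prime ∧ 1000 ≤ p) → ∀ D : Dat,
  (∀ p ∈ S, ‖D.g p‖ ≤ 4 / Real.sqrt p ∧ ‖D.g' p‖ ≤ 4 / Real.sqrt p ∧
    ‖D.a p‖ ≤ 1 / Real.sqrt p ∧ ‖D.a' p‖ ≤ 1 / Real.sqrt p) →
  ‖∫ x, HF S D x ∂mu - cexp (∑ p ∈ S, (D.g p + D.a p) * (D.g' p + D.a' p))‖
    ≤ C * V2 S * ‖cexp (∑ p ∈ S, (D.g p + D.a p) * (D.g' p + D.a' p))‖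

/-- B3: exponential moments -/
def ExpMom : Prop := ∀ S : Finset ℕ, (∀ p ∈ S, p.Prime ∧ 1000 ≤ p) → ∀ D : Dat, D.Ok →
  ∀ c : ℕ → ℂ, (∀ p ∈ S, ‖c p‖ ≤ 1 / Real.sqrt p) → ∀ κ : ℝ, 0 ≤ κ → κ ≤ 8 →
  ∫ x, Real.exp (κ * ‖lin S c x‖) * ‖HF S D x‖ ∂mu ≤ 4 * Real.exp (200 * VV S)

/-- B4: the truncated exponentials of a group -/
def GroupMain : Prop := ∃ C : ℝ, 0 ≤ C ∧ ∀ (S : Finset ℕ) (r : ℕ), (∀ p ∈ S, p.Prime ∧ 1000 ≤ p) →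
  1 ≤ r → VV S ≤ 2 * r → ∀ h : ℕ → ℝ, (∀ p ∈ S, 0 ≤ h p ∧ h p ≤ 1 / Real.sqrt p) →
  ∀ z z' μ1 μ2 : ℂ, ‖z‖ ≤ 1 → ‖z'‖ ≤ 1 → ‖μ1‖ ≤ 1 → ‖μ2‖ ≤ 1 → ∀ D : Dat, D.Ok →
  ‖∫ x, GF r S h z z' μ1 μ2 x * HF S D x ∂mu - cexp (sab S h z z' μ1 μ2 D)‖
    ≤ (Real.exp (-r) + C * V2 S) * ‖cexp (sab S h z z' μ1 μ2 D)‖

/-- B5: the powers of a group -/
def GroupBad : Prop := ∀ (S : Finset ℕ) (r : ℕ), (∀ p ∈ S, p.Prime ∧ 1000 ≤ p) →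
  1 ≤ r → VV S ≤ 2 * r → ∀ h : ℕ → ℝ, (∀ p ∈ S, 0 ≤ h p ∧ h p ≤ 1 / Real.sqrt p) →
  ∀ z z' μ1 μ2 : ℂ, ‖z‖ ≤ 1 → ‖z'‖ ≤ 1 → ‖μ1‖ ≤ 1 → ‖μ2‖ ≤ 1 → ∀ D : Dat, D.Ok →
  ∀ c : ℕ → ℂ, (∀ p ∈ S, ‖c p‖ ≤ 1 / Real.sqrt p) →
  ∫ x, bp r S c x * (1 + ‖GF r S h z z' μ1 μ2 x‖) * ‖HF S D x‖ ∂mu
    ≤ Real.exp (-(2 * r)) * ‖cexp (sab S h z z' μ1 μ2 D)‖

/-! ### B: all the groups -/

/-- the product over the groups: `s` without truncated exponentials, `s'` with powers -/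
noncomputable def AllF (A : Par) (s s' : Finset ℕ) (c : ℕ → ℂ) (z z' μ1 μ2 : ℂ) (D : Dat) (x : Om) : ℂ :=
  ∏ g ∈ Finset.range A.J, ((if g ∈ s then 1 else GF (A.r g) (A.S g) A.h z z' μ1 μ2 x)
    * (if g ∈ s' then (bp (A.r g) (A.S g) c x : ℂ) else 1) * HF (A.S g) D x)

/-- B6: the main term -/
def AllMain : Prop := ∃ C : ℝ, 0 ≤ C ∧ ∀ A : Par, A.Ok → ∀ z z' μ1 μ2 : ℂ, ‖z‖ ≤ 1 → ‖z'‖ ≤ 1 →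
  ‖μ1‖ ≤ 1 → ‖μ2‖ ≤ 1 → ∀ D : Dat, D.Ok → ∀ c : ℕ → ℂ,
  ‖∫ x, AllF A ∅ ∅ c z z' μ1 μ2 D x ∂mu - cexp (sab A.U A.h z z' μ1 μ2 D)‖
    ≤ C * (Real.exp (-A.v) + 1 / A.p0) * ‖cexp (sab A.U A.h z z' μ1 μ2 D)‖

/-- B7: the bound for the bad sets -/
def AllBd : Prop := ∃ C : ℝ, 0 ≤ C ∧ ∀ A : Par, A.Ok → ∀ z z' μ1 μ2 : ℂ, ‖z‖ ≤ 1 → ‖z'‖ ≤ 1 →
  ‖μ1‖ ≤ 1 → ‖μ2‖ ≤ 1 → ∀ D : Dat, D.Ok → ∀ c : ℕ → ℂ, (∀ p : ℕ, ‖c p‖ ≤ 1 / Real.sqrt p) →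
  ∀ s s' : Finset ℕ, s ⊆ s' → s' ⊆ Finset.range A.J →
  ‖∫ x, AllF A s s' c z z' μ1 μ2 D x ∂mu‖
    ≤ C * Real.exp (-(2 * ∑ g ∈ s', (A.r g : ℝ))) * ‖cexp (sab A.U A.h z z' μ1 μ2 D)‖

/-! ### N: numerical facts about the groups -/

/-- N1: sizes of the groups -/
def GroupNum : Prop := ∀ A : Par, A.Ok →
  (∀ g, ∀ p ∈ A.S g, p.Prime ∧ 1000 ≤ p ∧ A.p0 < p ∧ (p : ℝ) ≤ Real.exp (Yg A.v A.Y g)) ∧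
  (∀ g, VV (A.S g) ≤ 2 * A.r g) ∧
  (∀ g h, g ≠ h → Disjoint (A.S g) (A.S h)) ∧
  (∀ p, p ∈ A.U ↔ p.Prime ∧ A.p0 < p ∧ (p : ℝ) ≤ Real.exp A.Y) ∧
  ∑ g ∈ Finset.range A.J, (A.r g : ℝ) ≤ 3 * Real.log A.Y + A.v ∧
  ∑ g ∈ Finset.range A.J, Real.exp (-(A.r g : ℝ)) ≤ 2 * Real.exp (-A.v) ∧
  ∑ g ∈ Finset.range A.J, (A.r g : ℝ) * Yg A.v A.Y g ≤ 2 * A.v * A.Y ∧
  (∀ g < A.J, 6 ≤ Yg A.v A.Y g)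

/-- N2: Mertens bounds for the sums occurring in the exponents -/
def PrimeSums : Prop := ∃ C : ℝ, 0 ≤ C ∧ ∀ A : Par, A.Ok →
  (∀ u : ℝ, ∑ p ∈ A.U, ‖(p : ℂ) ^ (-(1 / 2 + I * u) : ℂ) - A.h p‖ ^ 2
    ≤ 17 / 4 * Real.log (1 + A.Y * |u|) + 17 * Real.log (1 + A.lam * A.Y) + C) ∧
  (∀ u : ℝ, ∑ p ∈ A.U, ‖(A.h p : ℂ) * ((p : ℂ) ^ (-(I * u) : ℂ) - 1)‖ ^ 2
    ≤ 17 / 4 * Real.log (1 + A.Y * |u|) + C) ∧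
  (∑ p ∈ A.U, A.h p * ((p : ℝ) ^ (-(1 / 2) : ℝ) - A.h p) ≤ C) ∧
  (∀ u : ℝ, ∑ p ∈ A.U, A.h p ^ 2 * ‖(p : ℂ) ^ (-(I * u) : ℂ) - 1‖
    ≤ min (C * (A.Y * |u|)) (2 * Real.log (1 + A.Y * |u|) + C)) ∧
  (∀ u : ℝ, ∑ p ∈ A.U, A.h p ^ 2 * ‖(p : ℂ) ^ (-(I * u) : ℂ) - 1‖ ^ 2 ≤ C * (A.Y * |u|) ^ 2)

/-- N3: the variance -/
def Variance : Prop := ∃ C : ℝ, 0 ≤ C ∧ ∀ A : Par, A.Ok →
  |A.vt - Real.log A.Y| ≤ C + Real.log A.p0 + C * (A.lam * A.Y)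

/-! ### C: the weights -/

/-- C1: the window -/
def PsiBd : Prop := ∃ C : ℝ, 0 ≤ C ∧ (∀ r : ℝ, ‖psi r‖ ≤ C / (1 + r ^ 2)) ∧ Continuous psi ∧ 0 < c0 ∧
  Integrable (fun r => ‖psi r‖ ^ 2)

/-- C2: integration by parts with the window -/
def WinDecay : Prop := ∃ C : ℝ, 0 ≤ C ∧ ∀ (E E' E'' : ℝ → ℂ) (ε : ℝ), 0 ≤ ε →
  (∀ η, HasDerivAt E (E' η) η) → (∀ η, HasDerivAt E' (E'' η) η) → Continuous E'' →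
  (∀ η, |η| ≤ 1 / 2 → ‖E η‖ ≤ ε ∧ ‖E' η‖ ≤ ε ∧ ‖E'' η‖ ≤ ε) →
  ∀ r : ℝ, ‖∫ η, (phi η : ℂ) * (E η * cexp (I * η * r)) ∂me‖ ≤ C * ε / (1 + r ^ 2)

/-- C3: the weights as double integrals -/
def WForm : Prop := ∀ (A : Par) (s : Finset ℕ) (y : ℝ) (x : Om) (μ1 μ2 : ℂ), s ⊆ Finset.range A.J →
  (A.W s y x : ℂ) * (A.mo μ1 s x * conj (A.mo μ2 s x))
    = (A.b / c0 : ℝ) * ∫ w : ℝ × ℝ, (phi w.1 * phi w.2 : ℝ)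
      * (cexp (-((A.zz w.1 + conj (A.zz w.2)) * y))
        * ∏ g ∈ Finset.range A.J, ((if g ∈ s then 1 else
            GF (A.r g) (A.S g) A.h (A.zz w.1) (A.zz w.2) μ1 μ2 x)
          * (if g ∈ s then (A.bb g x : ℂ) else 1))) ∂(me.prod me)

/-- C4: lengths -/
def WLen : Prop := ∀ A : Par, A.Ok → ∀ z z' μ1 μ2 : ℂ, ‖z‖ ≤ 1 → ‖z'‖ ≤ 1 → ‖μ1‖ ≤ 1 → ‖μ2‖ ≤ 1 →
  ∀ s : Finset ℕ, s ⊆ Finset.range A.J →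
  TP (Real.exp (10 ^ 7 * A.v * A.Y)) (Real.exp (10 ^ 7 * A.v * A.Y))
    (fun x => ∏ g ∈ Finset.range A.J, ((if g ∈ s then 1 else GF (A.r g) (A.S g) A.h z z' μ1 μ2 x)
          * (if g ∈ s then (A.bb g x : ℂ) else 1)))

/-- C5: the weights along the flow, with a trigonometric polynomial -/
def WTransfer : Prop := ∃ C : ℝ, 0 ≤ C ∧ ∀ A : Par, A.Ok → ∀ s : Finset ℕ, s ⊆ Finset.range A.J →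
  ∀ μ1 μ2 : ℂ, ‖μ1‖ ≤ 1 → ‖μ2‖ ≤ 1 → ∀ (N c : ℝ) (H : Om → ℂ), 1 ≤ N → TP N c H → ∀ x T y : ℝ, 0 < T →
  ‖∫ t, (A.W s y (om t) : ℂ) * (A.mo μ1 s (om t) * conj (A.mo μ2 s (om t))) * H (om t) ∂(un x T)
      - ∫ w, (A.W s y w : ℂ) * (A.mo μ1 s w * conj (A.mo μ2 s w)) * H w ∂mu‖
    ≤ C * Real.exp (-(A.be * y)) * (Real.exp (2 * 10 ^ 7 * A.v * A.Y) * (c * N / T)) ∧
  ‖∫ t, (A.W s y (om t) : ℂ) * (A.mo μ1 s (om t) * conj (A.mo μ2 s (om t))) * H (om t) ∂(ga x T)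
      - ∫ w, (A.W s y w : ℂ) * (A.mo μ1 s w * conj (A.mo μ2 s w)) * H w ∂mu‖
    ≤ C * Real.exp (-(A.be * y)) * (Real.exp (10 ^ 7 * A.v * A.Y) * (c *
      Real.exp (-(T ^ 2 / (4 * (Real.exp (10 ^ 7 * A.v * A.Y) * N) ^ 2)))))

/-- C6: the Gaussian integral of the window -/
def WGauss : Prop := ∃ C : ℝ, 0 ≤ C ∧ ∀ A : Par, A.Ok → ∀ y : ℝ,
  ((A.b / c0 : ℝ) * ∫ w : ℝ × ℝ, (phi w.1 * phi w.2 : ℝ) * (cexp (-((A.zz w.1 + conj (A.zz w.2)) * y))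
      * cexp ((A.zz w.1 + conj (A.zz w.2)) ^ 2 * A.vt / 4)) ∂(me.prod me)
    = ((∫ x, HH A.be A.b y x ∂(gaussianReal 0 (Real.toNNReal A.s2)) : ℝ) : ℂ)) ∧
  A.b / c0 * ∫ w : ℝ × ℝ, (phi w.1 * phi w.2) * Real.exp (-(A.be * y)
      + (A.be ^ 2 - A.b ^ 2 * (w.1 - w.2) ^ 2) * A.vt / 4) ∂(me.prod me) ≤ C * A.G y ∧
  ∫ x, Env A.be A.b y x ∂(gaussianReal 0 (Real.toNNReal A.s2)) ≤ C * A.G y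

/-- functions of the small primes -/
def Small (A : Par) (k0 : ℝ) (Q : Om → ℂ) : Prop :=
  Measurable Q ∧ Dep {p : ℕ | p ≤ A.p0} Q ∧ ∀ x, ‖Q x‖ ≤ k0

/-- the condition on the exponents -/
def ExpBd (A : Par) (μ1 μ2 : ℂ) (D : Dat) (B : ℝ) : Prop := ∀ η η' : ℝ, |η| ≤ 1 / 2 → |η'| ≤ 1 / 2 →
  (sab A.U A.h (A.zz η) (A.zz η') μ1 μ2 D).re ≤ (A.be ^ 2 - A.b ^ 2 * (η - η') ^ 2) * A.vt / 4 + B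

/-- C7: the weights on the torus, main term -/
def WMain : Prop := ∃ C : ℝ, 0 ≤ C ∧ ∀ A : Par, A.Ok → ∀ μ1 μ2 : ℂ, ‖μ1‖ ≤ 1 → ‖μ2‖ ≤ 1 →
  ∀ D : Dat, D.Ok → ∀ B : ℝ, ExpBd A μ1 μ2 D B → ∀ (k0 : ℝ) (Q : Om → ℂ), Small A k0 Q → ∀ y : ℝ,
  ‖∫ x, (A.W ∅ y x : ℂ) * (A.mo μ1 ∅ x * conj (A.mo μ2 ∅ x)) * (HF A.U D x * Q x) ∂mu
    - (A.b / c0 : ℝ) * (∫ w : ℝ × ℝ, (phi w.1 * phi w.2 : ℝ)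
        * (cexp (-((A.zz w.1 + conj (A.zz w.2)) * y))
          * cexp (sab A.U A.h (A.zz w.1) (A.zz w.2) μ1 μ2 D)) ∂(me.prod me)) * ∫ x, Q x ∂mu‖
    ≤ C * (Real.exp (-A.v) + 1 / A.p0) * k0 * Real.exp B * A.G y

/-- C8: the weights on the torus, bound; `s'` is the set of the additional powers -/
def WBd : Prop := ∃ C : ℝ, 0 ≤ C ∧ ∀ A : Par, A.Ok → ∀ μ1 μ2 : ℂ, ‖μ1‖ ≤ 1 → ‖μ2‖ ≤ 1 →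
  ∀ D : Dat, D.Ok → ∀ B : ℝ, ExpBd A μ1 μ2 D B → ∀ (k0 : ℝ) (Q : Om → ℂ), Small A k0 Q → ∀ y : ℝ,
  (∀ s : Finset ℕ, s ⊆ Finset.range A.J →
    ‖∫ x, (A.W s y x : ℂ) * (A.mo μ1 s x * conj (A.mo μ2 s x)) * (HF A.U D x * Q x) ∂mu‖
      ≤ C * Real.exp (-(2 * ∑ g ∈ s, (A.r g : ℝ))) * k0 * Real.exp B * A.G y) ∧
  ∀ c : ℕ → ℂ, (∀ p : ℕ, ‖c p‖ ≤ 1 / Real.sqrt p) → ∀ g < A.J,
    ‖∫ x, (A.W ∅ y x : ℂ) * (A.mo μ1 ∅ x * conj (A.mo μ2 ∅ x)) * (bp (A.r g) (A.S g) c x : ℂ)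
        * (HF A.U D x * Q x) ∂mu‖
      ≤ C * Real.exp (-(2 * (A.r g : ℝ))) * k0 * Real.exp B * A.G y

/-- C9: pointwise, the weights at a good point -/
def Pointwise : Prop := ∃ C : ℝ, 0 ≤ C ∧ ∀ A : Par, A.Ok → ∀ s : Finset ℕ, s ⊆ Finset.range A.J →
  ∀ x : Om, A.Good s x →
  (∀ y : ℝ, ‖A.q s y x * Real.exp (-(A.be * (A.X s x - y) / 2)) - psi (A.b * (A.X s x - y))‖
    ≤ C * Real.exp (-A.v) / (1 + (A.b * (A.X s x - y)) ^ 2)) ∧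
  ‖A.mo (-1) s x * cexp (∑ g ∈ Finset.range A.J \ s, A.P g x) - 1‖ ≤ C * Real.exp (-A.v)

/-- C10: the weights at a good point and the windows -/
def WPoint : Prop := ∃ (C C1 : ℝ) (v0 : ℕ), 1 ≤ C ∧ 1 ≤ C1 ∧ ∀ A : Par, A.Ok → v0 ≤ A.v →
  ∀ s : Finset ℕ, s ⊆ Finset.range A.J → ∀ x : Om, A.Good s x → A.Bad s x →
  (∀ V : ℝ, V < A.X s x →
    1 ≤ ENNReal.ofReal C * ∫⁻ y in Ioi (V - C1 / A.b), ENNReal.ofReal (A.W s y x)) ∧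
  (∀ V : ℝ, A.X s x ≤ V → ENNReal.ofReal (Real.exp (2 * (A.X s x - V)))
    ≤ ENNReal.ofReal C *
      ∫⁻ y in Iio (V + C1 / A.b), ENNReal.ofReal (Real.exp (A.b * (y - V)) * A.W s y x)) ∧
  (∀ y : ℝ, ENNReal.ofReal (Env A.be A.b y (A.X s x)) ≤ ENNReal.ofReal (C * A.b) *
    ∫⁻ y', ENNReal.ofReal (Real.exp (A.be * (y' - y)) / (1 + (A.b * (y' - y)) ^ 2) * A.W s y' x)) ∧
  (s = ∅ → ∀ y : ℝ, |A.W ∅ y x - HH A.be A.b y (A.X ∅ x)|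
    ≤ C * Real.exp (-A.v) * Env A.be A.b y (A.X ∅ x)) ∧
  (1 / 2 * Real.exp (-(2 * A.X s x)) ≤ ‖A.mo (-1) s x‖ ^ 2)

/-- C11: comparison of two laws through the windows -/
def Compare : Prop := ∃ C : ℝ, 1 ≤ C ∧ ∀ (be b G V ε r0 R : ℝ) (ν ν' : Measure ℝ), 0 < be → be ≤ b →
  b ≤ 1 / 20 → 0 ≤ ε → 1 ≤ r0 → 1 ≤ R → 0 ≤ G → be / b * (r0 + R) ≤ 1 → IsFiniteMeasure ν →
  IsFiniteMeasure ν' →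
  (∀ y : ℝ, Integrable (Env be b y) ν ∧ ∫ x, Env be b y x ∂ν ≤ G * (be * Real.exp (-(be * (y - V))))) →
  (∀ y : ℝ, Integrable (Env be b y) ν' ∧ ∫ x, Env be b y x ∂ν' ≤ G * (be * Real.exp (-(be * (y - V))))) →
  (∀ y : ℝ, |∫ x, HH be b y x ∂ν - ∫ x, HH be b y x ∂ν'| ≤ ε * (G * (be * Real.exp (-(be * (y - V)))))) →
  |(ν (Ioi V)).toReal - (ν' (Ioi V)).toReal| ≤ C * (ε + 1 / r0 + 1 / R + be / b * (r0 + R)) * G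

end Pool.Agent.Lib.GT
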