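import Mathlib
import Pool.Agent.Lib.MP_f9aece_nt_gt.Stmts

/-!
Gaussian tails of `log |zeta|`, module B1: one prime.
-/

set_option autoImplicit false

namespace Pool.Agent.Lib.GT

open MeasureTheory Set Filter Topology Complex ProbabilityTheory
open scoped ComplexConjugate

lemma integral_e1_pow (n m : ℕ) : ∫ x, e1 x ^ n * conj (e1 x) ^ m ∂u1 = if n = m then 1 else 0 := by
  have h := integral_e1 ((n : ℤ) - m)
  have h2 : ∀ x : ℝ, e1 x ^ n * conj (e1 x) ^ m
      = cexp ((2 * Real.pi * (((n : ℤ) - m : ℤ) * x) : ℝ) * I) := by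
    intro x
    rw [← e1_nat_mul, ← map_pow, ← e1_nat_mul, ← e1_neg, ← e1_add]
    unfold e1
    congr 1
    push_cast
    ring
  simp_rw [h2, h]
  by_cases hnm : n = m
  · simp [hnm]
  · rw [if_neg hnm, if_neg]
    intro hc
    apply hnm
    have : (n : ℤ) = m := by linarith
    exact_mod_cast this

/-- the mean of the product of two power series -/
lemma integral_series {A B : ℕ → ℂ} (hA : Summable fun n => ‖A n‖) (hB : Summable fun n => ‖B n‖) :
    ∫ x, (∑' n, A n * e1 x ^ n) * (∑' n, B n * conj (e1 x) ^ n) ∂u1 = ∑' n, A n * B n := by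
  have hn1 : ∀ (x : ℝ) (n : ℕ), ‖A n * e1 x ^ n‖ = ‖A n‖ := by
    intro x n
    rw [norm_mul, norm_pow, norm_e1, one_pow, mul_one]
  have hn2 : ∀ (x : ℝ) (n : ℕ), ‖B n * conj (e1 x) ^ n‖ = ‖B n‖ := by
    intro x n
    rw [norm_mul, norm_pow, Complex.norm_conj, norm_e1, one_pow, mul_one]
  have h1 : ∀ x, (∑' n, A n * e1 x ^ n) * (∑' n, B n * conj (e1 x) ^ n)
      = ∑' z : ℕ × ℕ, (A z.1 * e1 x ^ z.1) * (B z.2 * conj (e1 x) ^ z.2) := by
    intro x
    refine tsum_mul_tsum_of_summable_norm ?_ ?_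
    · simpa only [hn1] using hA
    · simpa only [hn2] using hB
  simp_rw [h1]
  have hs : Summable fun z : ℕ × ℕ => ‖A z.1‖ * ‖B z.2‖ := hA.mul_of_nonneg hB
    (fun _ => norm_nonneg _) (fun _ => norm_nonneg _)
  have hcont : ∀ z : ℕ × ℕ, Continuous fun x : ℝ => (A z.1 * e1 x ^ z.1) * (B z.2 * conj (e1 x) ^ z.2) := by
    intro z
    have hc : Continuous fun x : ℝ => conj (e1 x) := Complex.continuous_conj.comp continuous_e1
    exact (continuous_const.mul (continuous_e1.pow _)).mul (continuous_const.mul (hc.pow _))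
  have hnz : ∀ (z : ℕ × ℕ) (x : ℝ), ‖(A z.1 * e1 x ^ z.1) * (B z.2 * conj (e1 x) ^ z.2)‖
      = ‖A z.1‖ * ‖B z.2‖ := by
    intro z x
    rw [norm_mul, hn1, hn2]
  rw [← integral_tsum_of_summable_integral_norm]
  · have h2 : ∀ z : ℕ × ℕ, ∫ x, (A z.1 * e1 x ^ z.1) * (B z.2 * conj (e1 x) ^ z.2) ∂u1
        = if z.1 = z.2 then A z.1 * B z.2 else 0 := by
      intro z
      have h3 : ∀ x, (A z.1 * e1 x ^ z.1) * (B z.2 * conj (e1 x) ^ z.2)
          = (A z.1 * B z.2) * (e1 x ^ z.1 * conj (e1 x) ^ z.2) := fun x => by ring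
      simp_rw [h3]
      rw [integral_const_mul, integral_e1_pow]
      split_ifs <;> simp
    simp_rw [h2]
    have hs2 : Summable fun z : ℕ × ℕ => if z.1 = z.2 then A z.1 * B z.2 else 0 := by
      refine Summable.of_norm_bounded hs fun z => ?_
      split_ifs
      · rw [norm_mul]
      · rw [norm_zero]; positivity
    rw [hs2.tsum_prod]
    refine tsum_congr fun n => ?_
    rw [tsum_eq_single n]
    · simp
    · intro m hm
      rw [if_neg (fun h => hm h.symm)]
  · intro z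
    refine Integrable.of_bound (hcont z).aestronglyMeasurable (‖A z.1‖ * ‖B z.2‖)
      (Eventually.of_forall fun x => (hnz z x).le)
  · simp_rw [hnz]
    simpa using hs

/-- coefficients of `exp (α w) / (1 - a w)` -/
noncomputable def cf (α a : ℂ) (n : ℕ) : ℂ :=
  ∑ k ∈ Finset.range (n + 1), α ^ k / (k.factorial : ℂ) * a ^ (n - k)

lemma cf_zero (α a : ℂ) : cf α a 0 = 1 := by simp [cf]

lemma cf_one (α a : ℂ) : cf α a 1 = α + a := by
  simp [cf, Finset.sum_range_succ]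
  ring

lemma norm_cf_le (α a : ℂ) (n : ℕ) : ‖cf α a n‖ ≤ (‖α‖ + ‖a‖) ^ n := by
  unfold cf
  rw [add_pow]
  refine (norm_sum_le _ _).trans (Finset.sum_le_sum fun k hk => ?_)
  have hk' : k ≤ n := by have := Finset.mem_range.mp hk; omega
  rw [norm_mul, norm_div, norm_pow, norm_pow, Complex.norm_natCast]
  have h1 : (1 : ℝ) ≤ (n.choose k : ℝ) := by exact_mod_cast Nat.choose_pos hk'
  have h2 : (1 : ℝ) ≤ (k.factorial : ℝ) := by exact_mod_cast Nat.factorial_pos k
  calc ‖α‖ ^ k / (k.factorial : ℝ) * ‖a‖ ^ (n - k) ≤ ‖α‖ ^ k * ‖a‖ ^ (n - k) := by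
        gcongr
        exact div_le_self (by positivity) h2
    _ = ‖α‖ ^ k * ‖a‖ ^ (n - k) * 1 := (mul_one _).symm
    _ ≤ ‖α‖ ^ k * ‖a‖ ^ (n - k) * (n.choose k : ℝ) := by gcongr

lemma tsum_cf (α a w : ℂ) (ha : ‖a * w‖ < 1) :
    cexp (α * w) * (1 - a * w)⁻¹ = ∑' n, cf α a n * w ^ n := by
  have h1 : cexp (α * w) = ∑' n : ℕ, (α * w) ^ n / (n.factorial : ℂ) := by
    rw [Complex.exp_eq_exp_ℂ, NormedSpace.exp_eq_tsum_div]
  have h2 : (1 - a * w)⁻¹ = ∑' n : ℕ, (a * w) ^ n := (tsum_geometric_of_norm_lt_one ha).symm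
  have s1 : Summable fun n : ℕ => ‖(α * w) ^ n / (n.factorial : ℂ)‖ :=
    NormedSpace.norm_expSeries_div_summable (α * w)
  have s2 : Summable fun n : ℕ => ‖(a * w) ^ n‖ := by
    simp_rw [norm_pow]
    exact summable_geometric_of_lt_one (norm_nonneg _) ha
  rw [h1, h2, tsum_mul_tsum_eq_tsum_sum_range_of_summable_norm s1 s2]
  refine tsum_congr fun n => ?_
  unfold cf
  rw [Finset.sum_mul]
  refine Finset.sum_congr rfl fun k hk => ?_
  have hk' : k ≤ n := by have := Finset.mem_range.mp hk; omega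
  have h3 : w ^ n = w ^ k * w ^ (n - k) := by rw [← pow_add]; congr 1; omega
  rw [h3, mul_pow, mul_pow]
  ring

theorem onePrime : OnePrime := by
  intro α β a a' h1 h2
  set Q : ℝ := ‖α‖ + ‖a‖ with hQ
  set Q' : ℝ := ‖β‖ + ‖a'‖ with hQ'
  have hQ0 : 0 ≤ Q := by positivity
  have hQ0' : 0 ≤ Q' := by positivity
  have ha : ‖a‖ ≤ 1 / 2 := by have := norm_nonneg α; linarith
  have ha' : ‖a'‖ ≤ 1 / 2 := by have := norm_nonneg β; linarith
  have e : ∀ x : ℝ, cexp (α * e1 x + β * conj (e1 x)) * ((1 - a * e1 x)⁻¹ * (1 - a' * conj (e1 x))⁻¹)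
      = (∑' n, cf α a n * e1 x ^ n) * (∑' n, cf β a' n * conj (e1 x) ^ n) := by
    intro x
    rw [← tsum_cf, ← tsum_cf, Complex.exp_add]
    · ring
    · rw [norm_mul, Complex.norm_conj, norm_e1]; linarith
    · rw [norm_mul, norm_e1]; linarith
  have sA : Summable fun n => ‖cf α a n‖ :=
    Summable.of_nonneg_of_le (fun _ => norm_nonneg _) (norm_cf_le α a)
      (summable_geometric_of_lt_one hQ0 (by linarith))
  have sB : Summable fun n => ‖cf β a' n‖ :=
    Summable.of_nonneg_of_le (fun _ => norm_nonneg _) (norm_cf_le β a')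
      (summable_geometric_of_lt_one hQ0' (by linarith))
  simp_rw [e]
  rw [integral_series sA sB]
  have hq : Q * Q' ≤ 1 / 4 := by nlinarith
  have hq0 : 0 ≤ Q * Q' := by positivity
  have hb : ∀ n, ‖cf α a n * cf β a' n‖ ≤ (Q * Q') ^ n := by
    intro n
    rw [norm_mul, mul_pow]
    exact mul_le_mul (norm_cf_le _ _ _) (norm_cf_le _ _ _) (norm_nonneg _) (by positivity)
  have sg : Summable fun n : ℕ => (Q * Q') ^ n := summable_geometric_of_lt_one hq0 (by linarith)
  have sAB : Summable fun n => cf α a n * cf β a' n := Summable.of_norm_bounded sg hb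
  rw [← sAB.sum_add_tsum_nat_add 2]
  simp only [Finset.sum_range_succ, Finset.range_zero, Finset.sum_empty, zero_add, cf_zero, cf_one,
    mul_one]
  rw [add_sub_cancel_left]
  have s2 : Summable fun n : ℕ => (Q * Q') ^ (n + 2) := (summable_nat_add_iff 2).mpr sg
  have h3 : ‖∑' n, cf α a (n + 2) * cf β a' (n + 2)‖ ≤ ∑' n : ℕ, (Q * Q') ^ (n + 2) :=
    tsum_of_norm_bounded s2.hasSum fun n => hb (n + 2)
  refine h3.trans ?_
  have h4 : ∑' n : ℕ, (Q * Q') ^ (n + 2) = (Q * Q') ^ 2 * (1 - Q * Q')⁻¹ := by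
    rw [← tsum_geometric_of_lt_one hq0 (by linarith), ← tsum_mul_left]
    refine tsum_congr fun n => ?_
    rw [pow_add]
    ring
  rw [h4]
  have h5 : (1 - Q * Q')⁻¹ ≤ 2 := by
    rw [inv_le_comm₀ (by linarith) (by norm_num)]
    linarith
  nlinarith [sq_nonneg (Q * Q')]

end Pool.Agent.Lib.GT
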