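import Mathlib
import Pool.Agent.Lib.MP_f9aece_nt_gt.Stmts
import Pool.Agent.Lib.MP_f9aece_nt.PrimeSums

/-!
Gaussian tails of `log |zeta|`, module B2: product over a set of primes.
-/

set_option autoImplicit false

namespace Pool.Agent.Lib.GT

open MeasureTheory Set Filter Topology Complex ProbabilityTheory
open scoped ComplexConjugate
open Pool.Agent.Lib.MP_f9aece_nt (VV)
open Pool.Agent.Lib.J4 (V2)

/-- one factor -/
noncomputable def hf (D : Dat) (p : ℕ) (y : ℝ) : ℂ :=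
  cexp (D.g p * e1 y + D.g' p * conj (e1 y)) * ((1 - D.a p * e1 y)⁻¹ * (1 - D.a' p * conj (e1 y))⁻¹)

lemma HF_eq_prod (S : Finset ℕ) (D : Dat) (x : Om) : HF S D x = ∏ p ∈ S, hf D p (x p) := by
  unfold HF hf
  rw [Complex.exp_sum, ← Finset.prod_mul_distrib]

lemma measurable_hf (D : Dat) (p : ℕ) : Measurable (hf D p) := by
  have h1 : Measurable e1 := continuous_e1.measurable
  have h2 : Measurable fun y : ℝ => conj (e1 y) :=
    (Complex.continuous_conj.comp continuous_e1).measurable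
  unfold hf
  exact ((measurable_const.mul h1).add (measurable_const.mul h2)).cexp.mul
    (((measurable_const.sub (measurable_const.mul h1)).inv).mul
      ((measurable_const.sub (measurable_const.mul h2)).inv))

lemma integral_HF (S : Finset ℕ) (D : Dat) : ∫ x, HF S D x ∂mu = ∏ p ∈ S, ∫ y, hf D p y ∂u1 := by
  simp_rw [HF_eq_prod]
  exact integral_prod S (hf D) fun p => measurable_hf D p

theorem prodPrimes (h1 : OnePrime) : ProdPrimes := by
  refine ⟨2000 * Real.exp 3, by positivity, fun S hS D hD => ?_⟩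
  rw [integral_HF, Complex.exp_sum]
  set w : ℕ → ℂ := fun p => (D.g p + D.a p) * (D.g' p + D.a' p) with hw
  have key : ∀ p ∈ S, ‖(∫ y, hf D p y ∂u1) / cexp (w p) - 1‖ ≤ 2000 * ((p : ℝ)⁻¹) ^ 2 := by
    intro p hp
    obtain ⟨hpp, hp1⟩ := hS p hp
    obtain ⟨hg, hg', ha, ha'⟩ := hD p hp
    have hp0 : (0 : ℝ) < p := by exact_mod_cast hpp.pos
    have hp3 : (1000 : ℝ) ≤ p := by exact_mod_cast hp1
    have hsq : 0 < Real.sqrt p := Real.sqrt_pos.mpr hp0
    have hsq2 : Real.sqrt p * Real.sqrt p = p := Real.mul_self_sqrt hp0.le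
    have hs10 : 10 ≤ Real.sqrt p := by
      rw [Real.le_sqrt' (by norm_num)]
      linarith
    have hQ : ‖D.g p‖ + ‖D.a p‖ ≤ 5 / Real.sqrt p := by
      have : 5 / Real.sqrt p = 4 / Real.sqrt p + 1 / Real.sqrt p := by ring
      rw [this]; exact add_le_add hg ha
    have hQ' : ‖D.g' p‖ + ‖D.a' p‖ ≤ 5 / Real.sqrt p := by
      have : 5 / Real.sqrt p = 4 / Real.sqrt p + 1 / Real.sqrt p := by ring
      rw [this]; exact add_le_add hg' ha'
    have h5 : 5 / Real.sqrt p ≤ 1 / 2 := by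
      rw [div_le_div_iff₀ hsq (by norm_num)]
      linarith
    have h2 := h1 (D.g p) (D.g' p) (D.a p) (D.a' p) (hQ.trans h5) (hQ'.trans h5)
    have hprod : (‖D.g p‖ + ‖D.a p‖) * (‖D.g' p‖ + ‖D.a' p‖) ≤ 25 * (p : ℝ)⁻¹ := by
      calc _ ≤ (5 / Real.sqrt p) * (5 / Real.sqrt p) := mul_le_mul hQ hQ' (by positivity) (by positivity)
        _ = 25 / (Real.sqrt p * Real.sqrt p) := by ring
        _ = 25 * (p : ℝ)⁻¹ := by rw [hsq2]; rfl
    have hpinv : (p : ℝ)⁻¹ ≤ 1 / 1000 := by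
      rw [inv_le_comm₀ hp0 (by norm_num)]
      simpa using hp3
    have hpinv0 : 0 < (p : ℝ)⁻¹ := by positivity
    have hwn : ‖w p‖ ≤ 25 * (p : ℝ)⁻¹ := by
      rw [hw]
      simp only
      rw [norm_mul]
      exact (mul_le_mul (norm_add_le _ _) (norm_add_le _ _) (norm_nonneg _) (by positivity)).trans hprod
    have hw1 : ‖w p‖ ≤ 1 / 40 := by linarith
    have h3 : ‖cexp (w p) - 1 - w p‖ ≤ ‖w p‖ ^ 2 := norm_exp_sub_one_sub_id_le (by linarith)
    have h4 : ‖(∫ y, hf D p y ∂u1) - cexp (w p)‖ ≤ 1875 * ((p : ℝ)⁻¹) ^ 2 := by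
      have e : (∫ y, hf D p y ∂u1) - cexp (w p)
          = ((∫ y, hf D p y ∂u1) - (1 + w p)) - (cexp (w p) - 1 - w p) := by ring
      rw [e]
      refine (norm_sub_le _ _).trans ?_
      have h5 : 2 * ((‖D.g p‖ + ‖D.a p‖) * (‖D.g' p‖ + ‖D.a' p‖)) ^ 2 ≤ 2 * (25 * (p : ℝ)⁻¹) ^ 2 := by
        gcongr
      have h6 : ‖w p‖ ^ 2 ≤ (25 * (p : ℝ)⁻¹) ^ 2 := by gcongr
      have h7 : ‖(∫ y, hf D p y ∂u1) - (1 + w p)‖ ≤ 2 * (25 * (p : ℝ)⁻¹) ^ 2 := h2.trans h5
      nlinarith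
    have hne : cexp (w p) ≠ 0 := Complex.exp_ne_zero _
    have e2 : (∫ y, hf D p y ∂u1) / cexp (w p) - 1
        = ((∫ y, hf D p y ∂u1) - cexp (w p)) / cexp (w p) := by
      field_simp
    rw [e2, norm_div, Complex.norm_exp]
    have h8 : (39 / 40 : ℝ) ≤ Real.exp (w p).re := by
      have h9 := Real.add_one_le_exp (w p).re
      have h10 := (abs_le.mp (Complex.abs_re_le_norm (w p))).1
      linarith
    rw [div_le_iff₀ (Real.exp_pos _)]
    calc ‖(∫ y, hf D p y ∂u1) - cexp (w p)‖ ≤ 1875 * ((p : ℝ)⁻¹) ^ 2 := h4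
      _ ≤ 2000 * ((p : ℝ)⁻¹) ^ 2 * (39 / 40) := by nlinarith [sq_nonneg (p : ℝ)⁻¹]
      _ ≤ _ := by gcongr
  have e1 : ∏ p ∈ S, ∫ y, hf D p y ∂u1
      = (∏ p ∈ S, (1 + ((∫ y, hf D p y ∂u1) / cexp (w p) - 1))) * ∏ p ∈ S, cexp (w p) := by
    rw [← Finset.prod_mul_distrib]
    refine Finset.prod_congr rfl fun p _ => ?_
    have hne : cexp (w p) ≠ 0 := Complex.exp_ne_zero _
    field_simp
    ring
  rw [e1, ← sub_one_mul, norm_mul]
  refine mul_le_mul_of_nonneg_right ?_ (norm_nonneg _)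
  refine (Finset.norm_prod_one_add_sub_one_le S _).trans ?_
  have h5 : ∑ p ∈ S, ‖(∫ y, hf D p y ∂u1) / cexp (w p) - 1‖ ≤ 2000 * V2 S := by
    unfold V2
    rw [Finset.mul_sum]
    exact Finset.sum_le_sum key
  have h6 : V2 S ≤ 1 / 999 := by
    have := Pool.Agent.Lib.MP_f9aece_nt.sum_inv_sq_le 999 (by norm_num) S
      (fun p hp => by have := (hS p hp).2; omega)
    simpa [V2] using this
  have h7 : 0 ≤ V2 S := Finset.sum_nonneg fun p _ => by positivity
  set t := ∑ p ∈ S, ‖(∫ y, hf D p y ∂u1) / cexp (w p) - 1‖ with ht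
  have ht0 : 0 ≤ t := Finset.sum_nonneg fun p _ => norm_nonneg _
  have h8 : Real.exp t - 1 ≤ t * Real.exp t := by
    have h9 := Real.add_one_le_exp (-t)
    have h10 : Real.exp (-t) * Real.exp t = 1 := by rw [← Real.exp_add]; simp
    have h11 := Real.exp_pos t
    nlinarith
  have h12 : Real.exp t ≤ Real.exp 3 := Real.exp_le_exp.mpr (by linarith)
  calc Real.exp t - 1 ≤ t * Real.exp t := h8
    _ ≤ (2000 * V2 S) * Real.exp 3 := mul_le_mul h5 h12 (Real.exp_pos _).le (by positivity)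
    _ = _ := by ring

end Pool.Agent.Lib.GT
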