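import Mathlib
import Pool.Agent.Lib.MP_f9aece_nt_gt.B2
import Pool.Agent.Lib.MP_f9aece_nt_gt.B1

/-!
Gaussian tails of `log |zeta|`, module B3: exponential moments.
-/

set_option autoImplicit false

namespace Pool.Agent.Lib.GT

open MeasureTheory Set Filter Topology Complex ProbabilityTheory
open scoped ComplexConjugate
open Pool.Agent.Lib.MP_f9aece_nt (VV)
open Pool.Agent.Lib.J4 (V2)

theorem integral_prod_real (D : Finset ℕ) (φ : ℕ → ℝ → ℝ) (hφ : ∀ p, Measurable (φ p)) :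
    ∫ x, ∏ p ∈ D, φ p (x p) ∂mu = ∏ p ∈ D, ∫ x, φ p x ∂u1 := by
  have h := integral_prod D (fun p y => (φ p y : ℂ)) fun p => Complex.measurable_ofReal.comp (hφ p)
  have h1 : ∫ x, ∏ p ∈ D, ((φ p (x p) : ℝ) : ℂ) ∂mu = ((∫ x, ∏ p ∈ D, φ p (x p) ∂mu : ℝ) : ℂ) := by
    rw [← integral_complex_ofReal]
    refine integral_congr_ae (Eventually.of_forall fun x => ?_)
    simp
  have h2 : ∏ p ∈ D, ∫ y, ((φ p y : ℝ) : ℂ) ∂u1 = ((∏ p ∈ D, ∫ y, φ p y ∂u1 : ℝ) : ℂ) := by
    push_cast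
    exact Finset.prod_congr rfl fun p _ => integral_complex_ofReal
  rw [h1, h2] at h
  exact_mod_cast h

lemma norm_inv_one_sub_le {z : ℂ} (hz : ‖z‖ ≤ 1 / 10) :
    ‖(1 - z)⁻¹‖ ≤ Real.exp (z.re + 2 * ‖z‖ ^ 2) := by
  have h1 : ‖1 - z‖ ^ 2 = 1 - 2 * z.re + ‖z‖ ^ 2 := by
    rw [← Complex.normSq_eq_norm_sq, ← Complex.normSq_eq_norm_sq, Complex.normSq_apply,
      Complex.normSq_apply]
    simp
    ring
  have hr := Complex.abs_re_le_norm z
  have hr1 := (abs_le.mp hr).1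
  have hr2 := (abs_le.mp hr).2
  have hz0 := norm_nonneg z
  have hrsq : z.re ^ 2 ≤ ‖z‖ ^ 2 := by rw [← sq_abs z.re]; gcongr
  set r := z.re with hrdef
  set m := ‖z‖ with hm
  have hpos : 0 < 1 + 2 * r + 4 * m ^ 2 := by nlinarith
  have h2 : 1 ≤ (1 - 2 * r + m ^ 2) * (1 + 2 * r + 4 * m ^ 2) := by
    have h3 : -(1 / 10) ≤ r ∧ r ≤ 1 / 10 := ⟨by linarith, by linarith⟩
    have h4 : (1 - 2 * r + m ^ 2) * (1 + 2 * r + 4 * m ^ 2)
      = 1 + 5 * m ^ 2 - 4 * r ^ 2 - 6 * r * m ^ 2 + 4 * (m ^ 2) ^ 2 := by ring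
    rw [h4]
    nlinarith [sq_nonneg m, sq_nonneg (m ^ 2)]
  have h3 : Real.exp (-(2 * r) - 4 * m ^ 2) ≤ ‖1 - z‖ ^ 2 := by
    rw [h1]
    have h4 : Real.exp (-(2 * r) - 4 * m ^ 2) * (1 + 2 * r + 4 * m ^ 2) ≤ 1 := by
      have h5 := Real.add_one_le_exp (2 * r + 4 * m ^ 2)
      have h6 : Real.exp (-(2 * r) - 4 * m ^ 2) * Real.exp (2 * r + 4 * m ^ 2) = 1 := by
        rw [← Real.exp_add]; ring_nf; exact Real.exp_zero
      have h7 := Real.exp_pos (-(2 * r) - 4 * m ^ 2)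
      nlinarith
    have h8 : Real.exp (-(2 * r) - 4 * m ^ 2) * (1 + 2 * r + 4 * m ^ 2)
        ≤ (1 - 2 * r + m ^ 2) * (1 + 2 * r + 4 * m ^ 2) := h4.trans h2
    exact le_of_mul_le_mul_right h8 hpos
  have h9 : Real.exp (-(r + 2 * m ^ 2)) ≤ ‖1 - z‖ := by
    have h10 : Real.exp (-(r + 2 * m ^ 2)) ^ 2 = Real.exp (-(2 * r) - 4 * m ^ 2) := by
      rw [← Real.exp_nat_mul]
      congr 1
      push_cast
      ring
    rw [← h10] at h3
    exact le_of_sq_le_sq h3 (norm_nonneg _)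
  rw [norm_inv]
  have h11 : 0 < ‖1 - z‖ := lt_of_lt_of_le (Real.exp_pos _) h9
  rw [inv_le_comm₀ h11 (Real.exp_pos _), ← Real.exp_neg]
  exact h9

lemma norm_hf_le (D : Dat) (hD : D.Ok) {p : ℕ} (hp : 1000 ≤ p) (y : ℝ) :
    ‖hf D p y‖ ≤ Real.exp (((D.g p + conj (D.g' p) + D.a p + conj (D.a' p)) * e1 y).re
      + 4 * (p : ℝ)⁻¹) := by
  obtain ⟨hg, hg', ha, ha'⟩ := hD p
  have hp0 : (0 : ℝ) < p := by exact_mod_cast (by omega : 0 < p)
  have hp3 : (1000 : ℝ) ≤ p := by exact_mod_cast hp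
  have hsq : 0 < Real.sqrt p := Real.sqrt_pos.mpr hp0
  have hsq2 : Real.sqrt p * Real.sqrt p = p := Real.mul_self_sqrt hp0.le
  have hs10 : 10 ≤ Real.sqrt p := by
    rw [Real.le_sqrt' (by norm_num)]
    linarith
  have h10 : 1 / Real.sqrt p ≤ 1 / 10 := one_div_le_one_div_of_le (by norm_num) hs10
  have hinv : (1 / Real.sqrt p) ^ 2 = (p : ℝ)⁻¹ := by
    rw [div_pow, one_pow, sq, hsq2, one_div]
  have e1' : ‖D.a p * e1 y‖ = ‖D.a p‖ := by rw [norm_mul, norm_e1, mul_one]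
  have e2' : ‖D.a' p * conj (e1 y)‖ = ‖D.a' p‖ := by
    rw [norm_mul, Complex.norm_conj, norm_e1, mul_one]
  have h1 := norm_inv_one_sub_le (z := D.a p * e1 y) (by rw [e1']; linarith)
  have h2 := norm_inv_one_sub_le (z := D.a' p * conj (e1 y)) (by rw [e2']; linarith)
  rw [e1'] at h1
  rw [e2'] at h2
  have h3 : ‖D.a p‖ ^ 2 ≤ (p : ℝ)⁻¹ := by rw [← hinv]; gcongr
  have h4 : ‖D.a' p‖ ^ 2 ≤ (p : ℝ)⁻¹ := by rw [← hinv]; gcongr
  have h5 : (D.a' p * conj (e1 y)).re = (conj (D.a' p) * e1 y).re := by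
    rw [← Complex.conj_re, map_mul, Complex.conj_conj]
  have h6 : (D.g' p * conj (e1 y)).re = (conj (D.g' p) * e1 y).re := by
    rw [← Complex.conj_re, map_mul, Complex.conj_conj]
  unfold hf
  rw [norm_mul, norm_mul, Complex.norm_exp, Complex.add_re, h6]
  calc Real.exp ((D.g p * e1 y).re + (conj (D.g' p) * e1 y).re)
        * (‖(1 - D.a p * e1 y)⁻¹‖ * ‖(1 - D.a' p * conj (e1 y))⁻¹‖)
      ≤ Real.exp ((D.g p * e1 y).re + (conj (D.g' p) * e1 y).re)
        * (Real.exp ((D.a p * e1 y).re + 2 * ‖D.a p‖ ^ 2)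
          * Real.exp ((D.a' p * conj (e1 y)).re + 2 * ‖D.a' p‖ ^ 2)) := by gcongr
    _ = Real.exp (((D.g p + conj (D.g' p) + D.a p + conj (D.a' p)) * e1 y).re
        + (2 * ‖D.a p‖ ^ 2 + 2 * ‖D.a' p‖ ^ 2)) := by
        rw [← Real.exp_add, ← Real.exp_add, h5]
        congr 1
        simp only [add_mul, Complex.add_re]
        ring
    _ ≤ _ := by
        refine Real.exp_le_exp.mpr ?_
        linarith

lemma integral_exp_re_le {Γ : ℂ} (hΓ : ‖Γ‖ ≤ 1) :
    ∫ y, Real.exp ((Γ * e1 y).re) ∂u1 ≤ Real.exp (‖Γ‖ ^ 2 / 2) := by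
  have hc : Continuous fun y : ℝ => (Γ * e1 y).re :=
    Complex.continuous_re.comp (continuous_const.mul continuous_e1)
  have hn : ∀ y, |(Γ * e1 y).re| ≤ ‖Γ‖ := by
    intro y
    refine (Complex.abs_re_le_norm _).trans ?_
    rw [norm_mul, norm_e1, mul_one]
  have hint : ∀ f : ℝ → ℝ, Continuous f → Integrable f u1 := by
    intro f hf
    unfold u1
    exact hf.integrableOn_Icc
  have h1 : ∀ y, Real.exp ((Γ * e1 y).re) ≤ 1 + (Γ * e1 y).re + ((Γ * e1 y).re) ^ 2 := by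
    intro y
    have h := Real.abs_exp_sub_one_sub_id_le (x := (Γ * e1 y).re) ((hn y).trans hΓ)
    have := (abs_le.mp h).2
    linarith
  have h2 : ∫ y, (Γ * e1 y).re ∂u1 = 0 := by
    have h3 : ∫ y, Γ * e1 y ∂u1 = 0 := by
      have h := integral_e1_pow 1 0
      simp only [pow_one, pow_zero, mul_one] at h
      rw [integral_const_mul, h]
      simp
    have hi : Integrable (fun y => Γ * e1 y) u1 := by
      unfold u1
      exact (continuous_const.mul continuous_e1).integrableOn_Icc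
    have h4 := integral_re (𝕜 := ℂ) hi
    simp only [RCLike.re_to_complex] at h4
    rw [h4, h3]
    simp
  have h3 : ∫ y, ((Γ * e1 y).re) ^ 2 ∂u1 = ‖Γ‖ ^ 2 / 2 := by
    have e : ∀ y, ((Γ * e1 y).re) ^ 2 = ‖Γ‖ ^ 2 / 2 + ((Γ ^ 2 / 2) * (e1 y) ^ 2).re := by
      intro y
      have h5 : ‖Γ‖ ^ 2 = ‖Γ * e1 y‖ ^ 2 := by rw [norm_mul, norm_e1, mul_one]
      have h6 : (Γ ^ 2 / 2) * (e1 y) ^ 2 = (Γ * e1 y) ^ 2 / 2 := by ring
      rw [h5, h6]
      set w := Γ * e1 y
      rw [← Complex.normSq_eq_norm_sq, Complex.normSq_apply]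
      have h7 : (w ^ 2 / 2).re = (w.re * w.re - w.im * w.im) / 2 := by
        rw [sq]
        simp [Complex.mul_re]
      rw [h7]
      ring
    have hi : Integrable (fun y => (Γ ^ 2 / 2) * (e1 y) ^ 2) u1 := by
      unfold u1
      exact (continuous_const.mul (continuous_e1.pow 2)).integrableOn_Icc
    have h8 : ∫ y, (Γ ^ 2 / 2) * (e1 y) ^ 2 ∂u1 = 0 := by
      have h := integral_e1_pow 2 0
      simp only [pow_zero, mul_one] at h
      rw [integral_const_mul, h]
      simp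
    have h9 := integral_re (𝕜 := ℂ) hi
    simp only [RCLike.re_to_complex] at h9
    simp_rw [e]
    have h10 : Integrable (fun y => ((Γ ^ 2 / 2) * (e1 y) ^ 2).re) u1 := hi.re
    rw [integral_add (integrable_const _) h10, h9, h8]
    simp
  calc ∫ y, Real.exp ((Γ * e1 y).re) ∂u1
      ≤ ∫ y, (1 + (Γ * e1 y).re + ((Γ * e1 y).re) ^ 2) ∂u1 :=
        integral_mono (hint _ (Real.continuous_exp.comp hc))
          (hint _ ((continuous_const.add hc).add (hc.pow 2))) h1
    _ = 1 + ‖Γ‖ ^ 2 / 2 := by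
        have i1 : Integrable (fun y : ℝ => 1 + (Γ * e1 y).re) u1 := hint _ (continuous_const.add hc)
        have i2 : Integrable (fun y : ℝ => (Γ * e1 y).re) u1 := hint _ hc
        have i3 : Integrable (fun y : ℝ => (Γ * e1 y).re ^ 2) u1 := hint _ (hc.pow 2)
        rw [integral_add i1 i3, integral_add (integrable_const _) i2, h2, h3]
        simp
    _ ≤ _ := by
        have := Real.add_one_le_exp (‖Γ‖ ^ 2 / 2)
        linarith

theorem expMom : ExpMom := by
  intro S hS D hD c hc κ hκ0 hκ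
  have hsq : ∀ p ∈ S, 0 < Real.sqrt p ∧ Real.sqrt p * Real.sqrt p = p ∧ 30 ≤ Real.sqrt p ∧
      (0 : ℝ) < p := by
    intro p hp
    have hp3 : (1000 : ℝ) ≤ p := by exact_mod_cast (hS p hp).2
    refine ⟨Real.sqrt_pos.mpr (by linarith), Real.mul_self_sqrt (by linarith), ?_, by linarith⟩
    rw [Real.le_sqrt' (by norm_num)]
    linarith
  -- the four signs
  set σ : Fin 4 → ℂ := ![1 + I, 1 - I, -1 + I, -1 - I] with hσ
  have hσn : ∀ j, ‖σ j‖ ≤ 1415 / 1000 := by
    intro j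
    have h : ‖σ j‖ ^ 2 = 2 := by
      rw [← Complex.normSq_eq_norm_sq, Complex.normSq_apply]
      fin_cases j <;> simp [hσ] <;> norm_num
    nlinarith [norm_nonneg (σ j)]
  set Γ : Fin 4 → ℕ → ℂ := fun j p => κ * σ j * c p
    + (D.g p + conj (D.g' p) + D.a p + conj (D.a' p)) with hΓ
  have hΓn : ∀ j, ∀ p ∈ S, ‖Γ j p‖ ≤ 174 / 10 / Real.sqrt p := by
    intro j p hp
    obtain ⟨h1, h2, h3, h4⟩ := hD p
    have hs := (hsq p hp).1
    have h5 := hc p hp
    have h6 : ‖(κ : ℂ) * σ j * c p‖ ≤ 8 * (1415 / 1000) * (1 / Real.sqrt p) := by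
      rw [norm_mul, norm_mul, Complex.norm_real, Real.norm_of_nonneg hκ0]
      have := hσn j
      gcongr
    have h7 : ‖D.g p + conj (D.g' p) + D.a p + conj (D.a' p)‖
        ≤ 2 / Real.sqrt p + 2 / Real.sqrt p + 1 / Real.sqrt p + 1 / Real.sqrt p := by
      refine (norm_add_le _ _).trans ?_
      rw [Complex.norm_conj]
      refine add_le_add ((norm_add_le _ _).trans (add_le_add ((norm_add_le _ _).trans ?_) h3)) h4
      rw [Complex.norm_conj]
      exact add_le_add h1 h2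
    refine (norm_add_le _ _).trans ((add_le_add h6 h7).trans ?_)
    have e : 8 * (1415 / 1000) * (1 / Real.sqrt p) + (2 / Real.sqrt p + 2 / Real.sqrt p
      + 1 / Real.sqrt p + 1 / Real.sqrt p) = (8 * (1415 / 1000) + 6) / Real.sqrt p := by ring
    rw [e]
    gcongr
    norm_num
  have hre : ∀ (x : Om) (f : ℕ → ℂ), (lin S f x).re = ∑ p ∈ S, (f p * e1 (x p)).re := by
    intro x f
    unfold lin
    rw [Complex.re_sum]
  have hV : ∑ p ∈ S, (p : ℝ)⁻¹ = VV S := rfl
  have hpt : ∀ x : Om, Real.exp (κ * ‖lin S c x‖) * ‖HF S D x‖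
      ≤ ∑ j, Real.exp (4 * VV S) * ∏ p ∈ S, Real.exp ((Γ j p * e1 (x p)).re) := by
    intro x
    have h1 : Real.exp (κ * ‖lin S c x‖) ≤ ∑ j, Real.exp ((κ * σ j * lin S c x).re) := by
      set w := lin S c x with hw
      have h2 : ‖w‖ ≤ |w.re| + |w.im| := Complex.norm_le_abs_re_add_abs_im w
      have h3 : ∃ j, |w.re| + |w.im| ≤ (σ j * w).re := by
        rcases le_total 0 w.re with hr | hr <;> rcases le_total 0 w.im with hi | hi
        · exact ⟨1, by simp [hσ, abs_of_nonneg hr, abs_of_nonneg hi, sub_mul]⟩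
        · exact ⟨0, by simp [hσ, abs_of_nonneg hr, abs_of_nonpos hi, add_mul]⟩
        · exact ⟨3, by simp [hσ, abs_of_nonpos hr, abs_of_nonneg hi, sub_mul]⟩
        · exact ⟨2, by simp [hσ, abs_of_nonpos hr, abs_of_nonpos hi, add_mul]⟩
      obtain ⟨j, hj⟩ := h3
      have h4 : κ * ‖w‖ ≤ (κ * σ j * w).re := by
        rw [mul_assoc, Complex.re_ofReal_mul]
        exact mul_le_mul_of_nonneg_left (h2.trans hj) hκ0
      exact (Real.exp_le_exp.mpr h4).trans (Finset.single_le_sum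
        (f := fun j => Real.exp ((κ * σ j * w).re)) (fun i _ => (Real.exp_pos _).le)
        (Finset.mem_univ j))
    have h5 : ‖HF S D x‖ ≤ Real.exp (4 * VV S)
        * ∏ p ∈ S, Real.exp (((D.g p + conj (D.g' p) + D.a p + conj (D.a' p)) * e1 (x p)).re) := by
      rw [HF_eq_prod, norm_prod]
      have h6 : ∀ p ∈ S, ‖hf D p (x p)‖ ≤ Real.exp (4 * (p : ℝ)⁻¹)
          * Real.exp (((D.g p + conj (D.g' p) + D.a p + conj (D.a' p)) * e1 (x p)).re) := by
        intro p hp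
        refine (norm_hf_le D hD (hS p hp).2 (x p)).trans (le_of_eq ?_)
        rw [← Real.exp_add, add_comm]
      refine (Finset.prod_le_prod (fun p _ => norm_nonneg _) h6).trans (le_of_eq ?_)
      rw [Finset.prod_mul_distrib, ← Real.exp_sum, ← Finset.mul_sum, hV]
    calc Real.exp (κ * ‖lin S c x‖) * ‖HF S D x‖
        ≤ (∑ j, Real.exp ((κ * σ j * lin S c x).re)) * (Real.exp (4 * VV S)
          * ∏ p ∈ S, Real.exp (((D.g p + conj (D.g' p) + D.a p + conj (D.a' p)) * e1 (x p)).re)) := by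
          gcongr
      _ = _ := by
          rw [Finset.sum_mul]
          refine Finset.sum_congr rfl fun j _ => ?_
          have h7 : (κ * σ j * lin S c x).re = ∑ p ∈ S, (κ * σ j * c p * e1 (x p)).re := by
            unfold lin
            rw [Finset.mul_sum, Complex.re_sum]
            refine Finset.sum_congr rfl fun p _ => ?_
            congr 1
            ring
          rw [h7, Real.exp_sum]
          have h8 : ∏ p ∈ S, Real.exp ((Γ j p * e1 (x p)).re)
              = (∏ p ∈ S, Real.exp ((κ * σ j * c p * e1 (x p)).re)) * ∏ p ∈ S,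
                Real.exp (((D.g p + conj (D.g' p) + D.a p + conj (D.a' p)) * e1 (x p)).re) := by
            rw [← Finset.prod_mul_distrib]
            refine Finset.prod_congr rfl fun p _ => ?_
            rw [← Real.exp_add]
            congr 1
            rw [hΓ]
            simp only
            rw [add_mul _ _ (e1 (x p)), Complex.add_re]
          rw [h8]
          ring
  -- integrate
  have hcont : ∀ j, Continuous fun x : Om => Real.exp (4 * VV S)
      * ∏ p ∈ S, Real.exp ((Γ j p * e1 (x p)).re) := by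
    intro j
    refine continuous_const.mul (continuous_finsetProd _ fun p _ => ?_)
    exact Real.continuous_exp.comp (Complex.continuous_re.comp
      (continuous_const.mul (continuous_e1.comp (continuous_apply p))))
  have hbd : ∀ j (x : Om), ‖Real.exp (4 * VV S) * ∏ p ∈ S, Real.exp ((Γ j p * e1 (x p)).re)‖
      ≤ Real.exp (4 * VV S) * ∏ p ∈ S, Real.exp ‖Γ j p‖ := by
    intro j x
    rw [Real.norm_of_nonneg (by positivity)]
    gcongr with p hp
    refine (Complex.re_le_norm _).trans ?_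
    rw [norm_mul, norm_e1, mul_one]
  have hint : ∀ j, Integrable (fun x : Om => Real.exp (4 * VV S)
      * ∏ p ∈ S, Real.exp ((Γ j p * e1 (x p)).re)) mu := fun j =>
    integrable_of_bd (hcont j).aestronglyMeasurable (hbd j)
  have hj : ∀ j, ∫ x, Real.exp (4 * VV S) * ∏ p ∈ S, Real.exp ((Γ j p * e1 (x p)).re) ∂mu
      ≤ Real.exp (200 * VV S) := by
    intro j
    rw [integral_const_mul, integral_prod_real S (fun p y => Real.exp ((Γ j p * e1 y).re)) fun p =>
      (Real.continuous_exp.comp (Complex.continuous_re.comp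
        (continuous_const.mul continuous_e1))).measurable]
    have h1 : ∏ p ∈ S, ∫ y, Real.exp ((Γ j p * e1 y).re) ∂u1 ≤ ∏ p ∈ S, Real.exp (152 * (p : ℝ)⁻¹) := by
      refine Finset.prod_le_prod (fun p _ => integral_nonneg fun y => (Real.exp_pos _).le) ?_
      intro p hp
      obtain ⟨hs0, hs1, hs2, hp0⟩ := hsq p hp
      have h2 : ‖Γ j p‖ ≤ 1 := by
        refine (hΓn j p hp).trans ?_
        rw [div_le_one hs0]
        linarith
      refine (integral_exp_re_le h2).trans (Real.exp_le_exp.mpr ?_)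
      have h3 : ‖Γ j p‖ ^ 2 ≤ (174 / 10 / Real.sqrt p) ^ 2 := by
        have := hΓn j p hp
        gcongr
      have h4 : (174 / 10 / Real.sqrt p) ^ 2 = (174 / 10) ^ 2 * (p : ℝ)⁻¹ := by
        rw [div_pow, sq (Real.sqrt p), hs1]
        rfl
      rw [h4] at h3
      have h5 : 0 < (p : ℝ)⁻¹ := by positivity
      nlinarith
    have h6 : ∏ p ∈ S, Real.exp (152 * (p : ℝ)⁻¹) = Real.exp (152 * VV S) := by
      rw [← Real.exp_sum, ← Finset.mul_sum, hV]
    rw [h6] at h1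
    have hV0 : 0 ≤ VV S := Finset.sum_nonneg fun p _ => by positivity
    calc Real.exp (4 * VV S) * ∏ p ∈ S, ∫ y, Real.exp ((Γ j p * e1 y).re) ∂u1
        ≤ Real.exp (4 * VV S) * Real.exp (152 * VV S) := by gcongr
      _ = Real.exp (156 * VV S) := by rw [← Real.exp_add]; ring_nf
      _ ≤ _ := Real.exp_le_exp.mpr (by linarith)
  calc ∫ x, Real.exp (κ * ‖lin S c x‖) * ‖HF S D x‖ ∂mu
      ≤ ∫ x, ∑ j, Real.exp (4 * VV S) * ∏ p ∈ S, Real.exp ((Γ j p * e1 (x p)).re) ∂mu := by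
        refine integral_mono_of_nonneg (Eventually.of_forall fun x => by positivity)
          (integrable_finsetSum _ fun j _ => hint j) (Eventually.of_forall hpt)
    _ = ∑ j, ∫ x, Real.exp (4 * VV S) * ∏ p ∈ S, Real.exp ((Γ j p * e1 (x p)).re) ∂mu :=
        integral_finsetSum _ fun j _ => hint j
    _ ≤ ∑ _j : Fin 4, Real.exp (200 * VV S) := Finset.sum_le_sum fun j _ => hj j
    _ = _ := by simp

end Pool.Agent.Lib.GT
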