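import Mathlib
import Pool.Agent.Lib.MP_f9aece_nt_gt.Stmts

/-!
Gaussian tails of `log |zeta|`: row B5 (`groupBad`), and the common lemmas for B4 and B5 (namespace
`B45`): truncated exponentials, bounds and measurability for `lin`, `GF`, `HF`, `sab`.
-/

set_option autoImplicit false

namespace Pool.Agent.Lib.GT

open MeasureTheory Set Filter Topology Complex ProbabilityTheory
open scoped ComplexConjugate
open Pool.Agent.Lib.MP_f9aece_nt (VV)
open Pool.Agent.Lib.J4 (Sg Yg rg Jok V2)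

namespace B45

/-! ### truncated exponentials -/

lemma exp_sub_sum_le {t : ℝ} (ht : 0 ≤ t) (n : ℕ) :
    Real.exp t - ∑ m ∈ Finset.range n, t ^ m / (m.factorial : ℝ)
      ≤ (1 / 2) ^ n * Real.exp (2 * t) := by
  have hf : ∀ s : ℝ, HasSum (fun k : ℕ => s ^ k / (k.factorial : ℝ)) (Real.exp s) := fun s => by
    have := NormedSpace.expSeries_div_hasSum_exp (𝔸 := ℝ) s
    rwa [← Real.exp_eq_exp_ℝ] at this
  have h1 := (hasSum_nat_add_iff' n).2 (hf t)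
  have h2 := ((hasSum_nat_add_iff' n).2 (hf (2 * t))).mul_left ((1 / 2 : ℝ) ^ n)
  have h3 := hasSum_le (fun k => ?_) h1 h2
  · refine h3.trans ?_
    refine mul_le_mul_of_nonneg_left ?_ (by positivity)
    have : 0 ≤ ∑ m ∈ Finset.range n, (2 * t) ^ m / (m.factorial : ℝ) := by positivity
    linarith
  · have e : (1 / 2 : ℝ) ^ n * ((2 * t) ^ (k + n) / ((k + n).factorial : ℝ))
        = 2 ^ k * (t ^ (k + n) / ((k + n).factorial : ℝ)) := by
      rw [mul_pow, pow_add 2 k n, one_div, inv_pow]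
      field_simp
    rw [e]
    refine le_mul_of_one_le_left (by positivity) (one_le_pow₀ (by norm_num))

lemma norm_exp_sub_tex (K : ℕ) (w : ℂ) :
    ‖cexp w - tex K w‖ ≤ (1 / 2) ^ K * Real.exp (2 * ‖w‖) := by
  unfold tex
  refine (Complex.norm_exp_sub_sum_le_exp_norm_sub_sum w (K + 1)).trans ?_
  refine (exp_sub_sum_le (norm_nonneg w) (K + 1)).trans ?_
  rw [pow_succ]
  have : 0 ≤ (1 / 2 : ℝ) ^ K * Real.exp (2 * ‖w‖) := by positivity
  nlinarith [this]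

lemma norm_tex_le (K : ℕ) (w : ℂ) : ‖tex K w‖ ≤ Real.exp ‖w‖ := by
  unfold tex
  refine (norm_sum_le _ _).trans (le_trans (le_of_eq ?_)
    (Real.sum_le_exp_of_nonneg (norm_nonneg w) (K + 1)))
  refine Finset.sum_congr rfl fun k _ => ?_
  rw [norm_div, norm_pow, Complex.norm_natCast]

@[fun_prop]
lemma continuous_tex (K : ℕ) : Continuous (tex K) := by
  unfold tex
  fun_prop

/-! ### the functions on the torus -/

@[fun_prop]
lemma continuous_lin (S : Finset ℕ) (c : ℕ → ℂ) : Continuous (lin S c) := by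
  unfold lin
  fun_prop

lemma norm_lin_le (S : Finset ℕ) (c : ℕ → ℂ) (x : Om) : ‖lin S c x‖ ≤ ∑ p ∈ S, ‖c p‖ := by
  unfold lin
  refine (norm_sum_le _ _).trans (Finset.sum_le_sum fun p _ => ?_)
  rw [norm_mul, norm_e1, mul_one]

@[fun_prop]
lemma continuous_GF (r : ℕ) (S : Finset ℕ) (h : ℕ → ℝ) (z z' μ1 μ2 : ℂ) :
    Continuous (GF r S h z z' μ1 μ2) := by
  unfold GF
  fun_prop

lemma measurable_HF (S : Finset ℕ) (D : Dat) : Measurable (HF S D) := by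
  have he : ∀ p : ℕ, Measurable fun x : Om => e1 (x p) := fun p =>
    continuous_e1.measurable.comp (measurable_pi_apply p)
  have hc : ∀ p : ℕ, Measurable fun x : Om => conj (e1 (x p)) := fun p =>
    Complex.continuous_conj.measurable.comp (he p)
  unfold HF
  refine Measurable.mul ?_ ?_
  · refine Complex.measurable_exp.comp (Finset.measurable_fun_sum _ fun p _ => ?_)
    exact ((he p).const_mul _).add ((hc p).const_mul _)
  · refine Finset.measurable_fun_prod _ fun p _ => ?_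
    exact ((((he p).const_mul _).const_sub 1).inv).mul ((((hc p).const_mul _).const_sub 1).inv)

lemma norm_inv_le {a w : ℂ} (ha : ‖a‖ ≤ 1 / 2) (hw : ‖w‖ = 1) : ‖(1 - a * w)⁻¹‖ ≤ 2 := by
  have h1 : 1 / 2 ≤ ‖1 - a * w‖ := by
    have h2 := norm_sub_norm_le (1 : ℂ) (a * w)
    rw [norm_one, norm_mul, hw, mul_one] at h2
    linarith
  rw [norm_inv]
  rw [inv_le_comm₀ (by linarith) (by norm_num)]
  linarith

lemma norm_HF_le (S : Finset ℕ) (D : Dat) (ha : ∀ p ∈ S, ‖D.a p‖ ≤ 1 / 2 ∧ ‖D.a' p‖ ≤ 1 / 2)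
    (x : Om) : ‖HF S D x‖ ≤ Real.exp (∑ p ∈ S, (‖D.g p‖ + ‖D.g' p‖)) * ∏ _p ∈ S, (2 * 2 : ℝ) := by
  unfold HF
  rw [norm_mul, norm_prod]
  have hc : ∀ p : ℕ, ‖conj (e1 (x p))‖ = 1 := fun p => by rw [Complex.norm_conj, norm_e1]
  refine mul_le_mul ?_ ?_ (Finset.prod_nonneg fun _ _ => norm_nonneg _) (Real.exp_pos _).le
  · rw [Complex.norm_exp]
    refine Real.exp_le_exp.2 ((Complex.re_le_norm _).trans ((norm_sum_le _ _).trans
      (Finset.sum_le_sum fun p _ => ?_)))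
    refine (norm_add_le _ _).trans ?_
    rw [norm_mul, norm_mul, hc, norm_e1, mul_one, mul_one]
  · refine Finset.prod_le_prod (fun _ _ => norm_nonneg _) fun p hp => ?_
    rw [norm_mul]
    exact mul_le_mul (norm_inv_le (ha p hp).1 (norm_e1 _)) (norm_inv_le (ha p hp).2 (hc p))
      (norm_nonneg _) (by norm_num)

lemma one_div_sqrt_le {p : ℕ} (hp : 1000 ≤ p) : 1 / Real.sqrt p ≤ 1 / 2 := by
  have h1 : (2 : ℝ) ≤ Real.sqrt p := by
    rw [Real.le_sqrt (by norm_num) (by positivity)]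
    have : (1000 : ℝ) ≤ p := by exact_mod_cast hp
    linarith
  exact one_div_le_one_div_of_le (by norm_num) h1

lemma sq_one_div_sqrt (p : ℕ) : 1 / Real.sqrt p * (1 / Real.sqrt p) = (p : ℝ)⁻¹ := by
  rw [div_mul_div_comm, one_mul, Real.mul_self_sqrt (by positivity), one_div]

lemma integrable_expHF (S : Finset ℕ) (D : Dat)
    (ha : ∀ p ∈ S, ‖D.a p‖ ≤ 1 / 2 ∧ ‖D.a' p‖ ≤ 1 / 2) (c : ℕ → ℂ) {κ : ℝ} (hκ : 0 ≤ κ) :
    Integrable (fun x => Real.exp (κ * ‖lin S c x‖) * ‖HF S D x‖) mu := by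
  refine integrable_of_bd (C := Real.exp (κ * ∑ p ∈ S, ‖c p‖) *
    (Real.exp (∑ p ∈ S, (‖D.g p‖ + ‖D.g' p‖)) * ∏ _p ∈ S, (2 * 2 : ℝ))) ?_ fun x => ?_
  · refine Measurable.aestronglyMeasurable (Measurable.mul ?_ (measurable_HF S D).norm)
    exact (by fun_prop : Continuous fun x => Real.exp (κ * ‖lin S c x‖)).measurable
  · rw [norm_mul, norm_norm, Real.norm_eq_abs, Real.abs_exp]
    refine mul_le_mul (Real.exp_le_exp.2 (mul_le_mul_of_nonneg_left (norm_lin_le S c x) hκ))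
      (norm_HF_le S D ha x) (norm_nonneg _) (Real.exp_pos _).le

lemma norm_mul_re_le {z P : ℂ} (hz : ‖z‖ ≤ 1) : ‖z * ((P.re : ℝ) : ℂ)‖ ≤ ‖P‖ := by
  rw [norm_mul, Complex.norm_real, Real.norm_eq_abs]
  calc ‖z‖ * |P.re| ≤ 1 * ‖P‖ :=
        mul_le_mul hz (Complex.abs_re_le_norm _) (abs_nonneg _) zero_le_one
    _ = ‖P‖ := one_mul _

lemma norm_mul_le' {z P : ℂ} (hz : ‖z‖ ≤ 1) : ‖z * P‖ ≤ ‖P‖ := by
  rw [norm_mul]
  calc ‖z‖ * ‖P‖ ≤ 1 * ‖P‖ := mul_le_mul_of_nonneg_right hz (norm_nonneg _)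
    _ = ‖P‖ := one_mul _

lemma norm_GF_le (r : ℕ) (S : Finset ℕ) (h : ℕ → ℝ) {z z' μ1 μ2 : ℂ} (hz : ‖z‖ ≤ 1)
    (hz' : ‖z'‖ ≤ 1) (h1 : ‖μ1‖ ≤ 1) (h2 : ‖μ2‖ ≤ 1) (x : Om) :
    ‖GF r S h z z' μ1 μ2 x‖ ≤ Real.exp (4 * ‖lin S (fun p => (h p : ℂ)) x‖) := by
  set P := lin S (fun p => (h p : ℂ)) x with hP
  have e1 : ∀ w : ℂ, ‖w‖ ≤ ‖P‖ → ‖tex (KK r) w‖ ≤ Real.exp ‖P‖ := fun w hw =>
    (norm_tex_le _ _).trans (Real.exp_le_exp.2 hw)
  unfold GF
  rw [← hP, norm_mul, norm_mul, norm_mul, Complex.norm_conj, Complex.norm_conj]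
  calc ‖tex (KK r) (z * (P.re : ℂ))‖ * ‖tex (KK r) (z' * (P.re : ℂ))‖ * ‖tex (KK r) (μ1 * P)‖
        * ‖tex (KK r) (μ2 * P)‖
      ≤ Real.exp ‖P‖ * Real.exp ‖P‖ * Real.exp ‖P‖ * Real.exp ‖P‖ := by
        gcongr
        · exact e1 _ (norm_mul_re_le hz)
        · exact e1 _ (norm_mul_re_le hz')
        · exact e1 _ (norm_mul_le' h1)
        · exact e1 _ (norm_mul_le' h2)
    _ = Real.exp (4 * ‖P‖) := by
        rw [← Real.exp_add, ← Real.exp_add, ← Real.exp_add]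
        ring_nf

lemma norm_sab_le {S : Finset ℕ} {h : ℕ → ℝ} (hh : ∀ p ∈ S, 0 ≤ h p ∧ h p ≤ 1 / Real.sqrt p)
    {z z' μ1 μ2 : ℂ} (hz : ‖z‖ ≤ 1) (hz' : ‖z'‖ ≤ 1) (h1 : ‖μ1‖ ≤ 1) (h2 : ‖μ2‖ ≤ 1) {D : Dat}
    (hD : D.Ok) : ‖sab S h z z' μ1 μ2 D‖ ≤ 25 * VV S := by
  unfold sab VV
  rw [Finset.mul_sum]
  refine (norm_sum_le _ _).trans (Finset.sum_le_sum fun p hp => ?_)
  obtain ⟨h3, h4, h5, h6⟩ := hD p
  obtain ⟨h7, h8⟩ := hh p hp
  set s := 1 / Real.sqrt p with hs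
  have e2 : 2 / Real.sqrt p = 2 * s := by rw [hs]; ring
  rw [e2] at h3 h4
  have hs0 : 0 ≤ s := by positivity
  have hzz : ‖(z + conj z') / 2‖ ≤ 1 := by
    rw [norm_div, Complex.norm_ofNat]
    have := norm_add_le z (conj z')
    rw [Complex.norm_conj] at this
    linarith
  have key : ∀ (μ g a : ℂ), ‖μ‖ ≤ 1 → ‖g‖ ≤ 2 * s → ‖a‖ ≤ s →
      ‖(h p : ℂ) * ((z + conj z') / 2 + μ) + g + a‖ ≤ 5 * s := by
    intro μ g a hμ hg ha
    have a1 : ‖(h p : ℂ) * ((z + conj z') / 2 + μ)‖ ≤ s * 2 := by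
      rw [norm_mul, Complex.norm_real, Real.norm_eq_abs, abs_of_nonneg h7]
      refine mul_le_mul h8 ((norm_add_le _ _).trans (by linarith)) (norm_nonneg _) hs0
    have a2 := norm_add_le ((h p : ℂ) * ((z + conj z') / 2 + μ) + g) a
    have a3 := norm_add_le ((h p : ℂ) * ((z + conj z') / 2 + μ)) g
    linarith
  rw [norm_mul]
  have k1 := key μ1 (D.g p) (D.a p) h1 h3 h5
  have k2 := key (conj μ2) (D.g' p) (D.a' p) (by rwa [Complex.norm_conj]) h4 h6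
  calc _ ≤ (5 * s) * (5 * s) := mul_le_mul k1 k2 (norm_nonneg _) (by positivity)
    _ = 25 * (p : ℝ)⁻¹ := by rw [← sq_one_div_sqrt p, ← hs]; ring

lemma norm_cexp_sab_ge {S : Finset ℕ} {r : ℕ} (hV : VV S ≤ 2 * r) {h : ℕ → ℝ}
    (hh : ∀ p ∈ S, 0 ≤ h p ∧ h p ≤ 1 / Real.sqrt p)
    {z z' μ1 μ2 : ℂ} (hz : ‖z‖ ≤ 1) (hz' : ‖z'‖ ≤ 1) (h1 : ‖μ1‖ ≤ 1) (h2 : ‖μ2‖ ≤ 1) {D : Dat}
    (hD : D.Ok) : Real.exp (-(50 * r)) ≤ ‖cexp (sab S h z z' μ1 μ2 D)‖ := by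
  rw [Complex.norm_exp, Real.exp_le_exp]
  have a1 := norm_sab_le hh hz hz' h1 h2 hD
  have a2 := (abs_le.1 (Complex.abs_re_le_norm (sab S h z z' μ1 μ2 D))).1
  linarith

/-! ### numbers -/

/-- powers of linear forms -/
lemma bp_le {r : ℕ} (hr : 1 ≤ r) (S : Finset ℕ) (c : ℕ → ℂ) (x : Om) :
    bp r S c x ≤ (1 / 10) ^ (1000 * r) * Real.exp ‖lin S c x‖ := by
  set L := ‖lin S c x‖ with hL
  have hL0 : 0 ≤ L := norm_nonneg _
  have hr0 : (0 : ℝ) < r := by exact_mod_cast hr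
  have hM : 2 * MM r = 1000 * r := by unfold MM; ring
  unfold bp
  rw [hM, ← hL]
  set n := 1000 * r with hn
  have hn0 : (n : ℝ) = 1000 * r := by rw [hn]; push_cast; ring
  have h1 : L ^ n / (n.factorial : ℝ) ≤ Real.exp L := Real.pow_div_factorial_le_exp L hL0 n
  have h2 : (n.factorial : ℝ) ≤ (n : ℝ) ^ n := by exact_mod_cast Nat.factorial_le_pow n
  have h3 : L ^ n ≤ (n : ℝ) ^ n * Real.exp L := by
    rw [div_le_iff₀ (by positivity)] at h1
    calc L ^ n ≤ Real.exp L * n.factorial := h1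
      _ ≤ Real.exp L * (n : ℝ) ^ n := by gcongr
      _ = _ := mul_comm _ _
  have hR : RR r = 10 * n := by unfold RR; rw [hn0]; ring
  rw [hR, div_pow, mul_pow]
  have hn1 : 0 < (n : ℝ) := by rw [hn0]; positivity
  rw [div_le_iff₀ (by positivity)]
  calc L ^ n ≤ (n : ℝ) ^ n * Real.exp L := h3
    _ = (1 / 10) ^ n * Real.exp L * (10 ^ n * (n : ℝ) ^ n) := by
        rw [one_div, inv_pow]
        field_simp

end B45

open B45 in
/-- B5 -/
theorem groupBad (h3 : ExpMom) : GroupBad := by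
  intro S r hS hr hV h hh z z' μ1 μ2 hz hz' hμ1 hμ2 D hD c hc
  set P : Om → ℂ := lin S (fun p => (h p : ℂ)) with hP
  set L : Om → ℂ := lin S c with hL
  have ha : ∀ p ∈ S, ‖D.a p‖ ≤ 1 / 2 ∧ ‖D.a' p‖ ≤ 1 / 2 := fun p hp =>
    ⟨((hD p).2.2.1).trans (one_div_sqrt_le (hS p hp).2),
      ((hD p).2.2.2).trans (one_div_sqrt_le (hS p hp).2)⟩
  have hi1 := integrable_expHF S D ha c (κ := 2) (by norm_num)
  have hi2 := integrable_expHF S D ha (fun p => (h p : ℂ)) (κ := 8) (by norm_num)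
  have hm1 := h3 S hS D hD c hc 2 (by norm_num) (by norm_num)
  have hm2 := h3 S hS D hD (fun p => (h p : ℂ)) (fun p hp => by
    rw [Complex.norm_real, Real.norm_eq_abs, abs_of_nonneg (hh p hp).1]
    exact (hh p hp).2) 8 (by norm_num) le_rfl
  have hpt : ∀ x, bp r S c x * (1 + ‖GF r S h z z' μ1 μ2 x‖) * ‖HF S D x‖
      ≤ (1 / 10) ^ (1000 * r) * (Real.exp (2 * ‖L x‖) * ‖HF S D x‖
        + Real.exp (8 * ‖P x‖) * ‖HF S D x‖) := by
    intro x
    have b1 := bp_le hr S c x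
    have b2 := norm_GF_le r S h hz hz' hμ1 hμ2 x
    rw [← hP] at b2
    rw [← hL] at b1
    have b3 : 1 + ‖GF r S h z z' μ1 μ2 x‖ ≤ 2 * Real.exp (4 * ‖P x‖) := by
      have : 1 ≤ Real.exp (4 * ‖P x‖) := Real.one_le_exp (by positivity)
      linarith
    have b4 : Real.exp ‖L x‖ * (2 * Real.exp (4 * ‖P x‖))
        ≤ Real.exp (2 * ‖L x‖) + Real.exp (8 * ‖P x‖) := by
      have e1 : Real.exp (2 * ‖L x‖) = Real.exp ‖L x‖ ^ 2 := by
        rw [← Real.exp_nat_mul]; norm_num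
      have e2 : Real.exp (8 * ‖P x‖) = Real.exp (4 * ‖P x‖) ^ 2 := by
        rw [← Real.exp_nat_mul]; ring_nf
      rw [e1, e2]
      nlinarith [sq_nonneg (Real.exp ‖L x‖ - Real.exp (4 * ‖P x‖))]
    calc bp r S c x * (1 + ‖GF r S h z z' μ1 μ2 x‖) * ‖HF S D x‖
        ≤ ((1 / 10) ^ (1000 * r) * Real.exp ‖L x‖) * (2 * Real.exp (4 * ‖P x‖)) * ‖HF S D x‖ := by
          gcongr
      _ = (1 / 10) ^ (1000 * r) * (Real.exp ‖L x‖ * (2 * Real.exp (4 * ‖P x‖))) * ‖HF S D x‖ := by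
          ring
      _ ≤ (1 / 10) ^ (1000 * r) * (Real.exp (2 * ‖L x‖) + Real.exp (8 * ‖P x‖)) * ‖HF S D x‖ := by
          gcongr
      _ = _ := by ring
  have hint : ∫ x, bp r S c x * (1 + ‖GF r S h z z' μ1 μ2 x‖) * ‖HF S D x‖ ∂mu
      ≤ (1 / 10) ^ (1000 * r) * (4 * Real.exp (200 * VV S) + 4 * Real.exp (200 * VV S)) := by
    calc _ ≤ ∫ x, (1 / 10) ^ (1000 * r) * (Real.exp (2 * ‖L x‖) * ‖HF S D x‖
          + Real.exp (8 * ‖P x‖) * ‖HF S D x‖) ∂mu := by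
          refine integral_mono_of_nonneg (Eventually.of_forall fun x => ?_)
            ((hi1.add hi2).const_mul _) (Eventually.of_forall hpt)
          have : 0 ≤ bp r S c x := by
            unfold bp RR
            positivity
          positivity
      _ = (1 / 10) ^ (1000 * r) * (∫ x, Real.exp (2 * ‖L x‖) * ‖HF S D x‖ ∂mu
          + ∫ x, Real.exp (8 * ‖P x‖) * ‖HF S D x‖ ∂mu) := by
          rw [integral_const_mul, integral_add hi1 hi2]
      _ ≤ _ := by gcongr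
  have hr1 : (1 : ℝ) ≤ r := by exact_mod_cast hr
  have hlow := norm_cexp_sab_ge hV hh hz hz' hμ1 hμ2 hD
  have hexp : Real.exp (200 * VV S) ≤ Real.exp (400 * r) := Real.exp_le_exp.2 (by linarith)
  have h10 : ((1 / 10 : ℝ)) ^ (1000 * r) ≤ Real.exp (-(1000 * r)) := by
    have e1 : Real.exp (-(1000 * (r : ℝ))) = Real.exp (-1) ^ (1000 * r) := by
      rw [← Real.exp_nat_mul]; push_cast; ring_nf
    rw [e1]
    refine pow_le_pow_left₀ (by norm_num) ?_ _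
    have := Real.exp_one_lt_d9
    rw [Real.exp_neg, one_div]
    exact inv_anti₀ (Real.exp_pos 1) (by linarith)
  have h8 : (8 : ℝ) ≤ Real.exp (8 * r) := by
    have := Real.add_one_le_exp (8 * (r : ℝ))
    linarith
  calc _ ≤ (1 / 10) ^ (1000 * r) * (4 * Real.exp (200 * VV S) + 4 * Real.exp (200 * VV S)) := hint
    _ = 8 * ((1 / 10) ^ (1000 * r) * Real.exp (200 * VV S)) := by ring
    _ ≤ Real.exp (8 * r) * (Real.exp (-(1000 * r)) * Real.exp (400 * r)) := by gcongr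
    _ = Real.exp (-(592 * r)) := by
        rw [← Real.exp_add, ← Real.exp_add]; ring_nf
    _ ≤ Real.exp (-(2 * r) + -(50 * r)) := Real.exp_le_exp.2 (by linarith)
    _ = Real.exp (-(2 * r)) * Real.exp (-(50 * r)) := Real.exp_add _ _
    _ ≤ _ := by gcongr

end Pool.Agent.Lib.GT
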