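import Mathlib
import Pool.Agent.Lib.MP_f9aece_nt_gt.B5

/-!
Gaussian tails of `log |zeta|`: row B4 (`groupMain`).
-/

set_option autoImplicit false

namespace Pool.Agent.Lib.GT

open MeasureTheory Set Filter Topology Complex ProbabilityTheory
open scoped ComplexConjugate
open Pool.Agent.Lib.MP_f9aece_nt (VV)
open Pool.Agent.Lib.J4 (Sg Yg rg Jok V2)

namespace B45

/-- the exponential of the four arguments -/
noncomputable def GE (P z z' μ1 μ2 : ℂ) : ℂ :=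
  cexp (z * (P.re : ℂ)) * conj (cexp (z' * (P.re : ℂ))) * cexp (μ1 * P) * conj (cexp (μ2 * P))

lemma prod_sub_le {a1 a2 a3 a4 b1 b2 b3 b4 : ℂ} {B δ : ℝ} (hB : 0 ≤ B) (ha1 : ‖a1‖ ≤ B)
    (ha2 : ‖a2‖ ≤ B) (ha3 : ‖a3‖ ≤ B) (hb2 : ‖b2‖ ≤ B) (hb3 : ‖b3‖ ≤ B) (hb4 : ‖b4‖ ≤ B)
    (h1 : ‖a1 - b1‖ ≤ δ) (h2 : ‖a2 - b2‖ ≤ δ) (h3 : ‖a3 - b3‖ ≤ δ) (h4 : ‖a4 - b4‖ ≤ δ) :
    ‖a1 * a2 * a3 * a4 - b1 * b2 * b3 * b4‖ ≤ 4 * (δ * (B * B * B)) := by
  have hδ : 0 ≤ δ := (norm_nonneg _).trans h1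
  have e : a1 * a2 * a3 * a4 - b1 * b2 * b3 * b4
      = (a1 - b1) * (b2 * b3 * b4) + (a2 - b2) * (a1 * b3 * b4) + (a3 - b3) * (a1 * a2 * b4)
        + (a4 - b4) * (a1 * a2 * a3) := by ring
  have k : ∀ u v w s : ℂ, ‖u‖ ≤ δ → ‖v‖ ≤ B → ‖w‖ ≤ B → ‖s‖ ≤ B →
      ‖u * (v * w * s)‖ ≤ δ * (B * B * B) := by
    intro u v w s hu hv hw hs
    rw [norm_mul, norm_mul, norm_mul]
    gcongr
  rw [e]
  have t1 := k _ _ _ _ h1 hb2 hb3 hb4
  have t2 := k _ _ _ _ h2 ha1 hb3 hb4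
  have t3 := k _ _ _ _ h3 ha1 ha2 hb4
  have t4 := k _ _ _ _ h4 ha1 ha2 ha3
  have s1 := norm_add_le ((a1 - b1) * (b2 * b3 * b4) + (a2 - b2) * (a1 * b3 * b4)
    + (a3 - b3) * (a1 * a2 * b4)) ((a4 - b4) * (a1 * a2 * a3))
  have s2 := norm_add_le ((a1 - b1) * (b2 * b3 * b4) + (a2 - b2) * (a1 * b3 * b4))
    ((a3 - b3) * (a1 * a2 * b4))
  have s3 := norm_add_le ((a1 - b1) * (b2 * b3 * b4)) ((a2 - b2) * (a1 * b3 * b4))
  linarith

lemma GF_sub_le (r : ℕ) (S : Finset ℕ) (h : ℕ → ℝ) {z z' μ1 μ2 : ℂ} (hz : ‖z‖ ≤ 1)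
    (hz' : ‖z'‖ ≤ 1) (h1 : ‖μ1‖ ≤ 1) (h2 : ‖μ2‖ ≤ 1) (x : Om) :
    ‖GF r S h z z' μ1 μ2 x - GE (lin S (fun p => (h p : ℂ)) x) z z' μ1 μ2‖
      ≤ 4 * ((1 / 2) ^ (KK r) * Real.exp (5 * ‖lin S (fun p => (h p : ℂ)) x‖)) := by
  set P := lin S (fun p => (h p : ℂ)) x with hP
  have e1 : ∀ w : ℂ, ‖w‖ ≤ ‖P‖ → ‖tex (KK r) w‖ ≤ Real.exp ‖P‖ := fun w hw =>
    (norm_tex_le _ _).trans (Real.exp_le_exp.2 hw)
  have e2 : ∀ w : ℂ, ‖w‖ ≤ ‖P‖ → ‖cexp w‖ ≤ Real.exp ‖P‖ := fun w hw =>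
    (Complex.norm_exp_le_exp_norm w).trans (Real.exp_le_exp.2 hw)
  have e3 : ∀ w : ℂ, ‖w‖ ≤ ‖P‖ → ‖tex (KK r) w - cexp w‖ ≤ (1 / 2) ^ (KK r) * Real.exp (2 * ‖P‖) := by
    intro w hw
    rw [norm_sub_rev]
    refine (norm_exp_sub_tex _ _).trans ?_
    gcongr
  have w1 : ‖z * (P.re : ℂ)‖ ≤ ‖P‖ := norm_mul_re_le hz
  have w2 : ‖z' * (P.re : ℂ)‖ ≤ ‖P‖ := norm_mul_re_le hz'
  have w3 : ‖μ1 * P‖ ≤ ‖P‖ := norm_mul_le' h1
  have w4 : ‖μ2 * P‖ ≤ ‖P‖ := norm_mul_le' h2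
  unfold GF GE
  rw [← hP]
  refine (prod_sub_le (B := Real.exp ‖P‖) (δ := (1 / 2) ^ (KK r) * Real.exp (2 * ‖P‖))
    (Real.exp_pos _).le (e1 _ w1) (by rw [Complex.norm_conj]; exact e1 _ w2) (e1 _ w3)
    (by rw [Complex.norm_conj]; exact e2 _ w2) (e2 _ w3)
    (by rw [Complex.norm_conj]; exact e2 _ w4) (e3 _ w1)
    (by rw [← map_sub, Complex.norm_conj]; exact e3 _ w2) (e3 _ w3)
    (by rw [← map_sub, Complex.norm_conj]; exact e3 _ w4)).trans (le_of_eq ?_)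
  have : Real.exp (2 * ‖P‖) * (Real.exp ‖P‖ * Real.exp ‖P‖ * Real.exp ‖P‖)
      = Real.exp (5 * ‖P‖) := by
    rw [← Real.exp_add, ← Real.exp_add, ← Real.exp_add]
    ring_nf
  rw [mul_assoc ((1 / 2 : ℝ) ^ KK r), this]

/-- the data with the exponentials absorbed -/
noncomputable def DE (h : ℕ → ℝ) (z z' μ1 μ2 : ℂ) (D : Dat) : Dat where
  g p := D.g p + h p * ((z + conj z') / 2 + μ1)
  g' p := D.g' p + h p * ((z + conj z') / 2 + conj μ2)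
  a := D.a
  a' := D.a'

lemma GE_mul_HF (S : Finset ℕ) (h : ℕ → ℝ) (z z' μ1 μ2 : ℂ) (D : Dat) (x : Om) :
    GE (lin S (fun p => (h p : ℂ)) x) z z' μ1 μ2 * HF S D x = HF S (DE h z z' μ1 μ2 D) x := by
  set P := lin S (fun p => (h p : ℂ)) x with hP
  have hre : ((P.re : ℝ) : ℂ) = (P + conj P) / 2 := Complex.re_eq_add_conj P
  have hPc : conj P = ∑ p ∈ S, (h p : ℂ) * conj (e1 (x p)) := by
    rw [hP]
    unfold lin
    rw [map_sum]
    refine Finset.sum_congr rfl fun p _ => ?_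
    rw [map_mul, Complex.conj_ofReal]
  have hPs : P = ∑ p ∈ S, (h p : ℂ) * e1 (x p) := rfl
  unfold GE HF
  rw [← Complex.exp_conj, ← Complex.exp_conj, ← Complex.exp_add, ← Complex.exp_add,
    ← Complex.exp_add, ← mul_assoc, ← Complex.exp_add]
  congr 2
  simp only [map_mul, Complex.conj_ofReal]
  rw [hre]
  have hs : ∑ p ∈ S, ((DE h z z' μ1 μ2 D).g p * e1 (x p)
      + (DE h z z' μ1 μ2 D).g' p * conj (e1 (x p)))
      = ∑ p ∈ S, (D.g p * e1 (x p) + D.g' p * conj (e1 (x p)))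
        + ((z + conj z') / 2 + μ1) * P + ((z + conj z') / 2 + conj μ2) * conj P := by
    rw [hPs, ← hPs, hPc]
    conv_rhs => rw [hPs]
    rw [Finset.mul_sum, Finset.mul_sum, ← Finset.sum_add_distrib, ← Finset.sum_add_distrib]
    refine Finset.sum_congr rfl fun p _ => ?_
    simp only [DE]
    ring
  rw [hs]
  ring

end B45

open B45 in
/-- B4 -/
theorem groupMain (h2 : ProdPrimes) (h3 : ExpMom) : GroupMain := by
  obtain ⟨C, hC, h2⟩ := h2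
  refine ⟨C, hC, ?_⟩
  intro S r hS hr hV h hh z z' μ1 μ2 hz hz' hμ1 hμ2 D hD
  set P : Om → ℂ := lin S (fun p => (h p : ℂ)) with hP
  have ha : ∀ p ∈ S, ‖D.a p‖ ≤ 1 / 2 ∧ ‖D.a' p‖ ≤ 1 / 2 := fun p hp =>
    ⟨((hD p).2.2.1).trans (one_div_sqrt_le (hS p hp).2),
      ((hD p).2.2.2).trans (one_div_sqrt_le (hS p hp).2)⟩
  have hzz : ‖(z + conj z') / 2‖ ≤ 1 := by
    rw [norm_div, Complex.norm_ofNat]
    have := norm_add_le z (conj z')
    rw [Complex.norm_conj] at this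
    linarith
  have hbd : ∀ p ∈ S, ∀ (g μ : ℂ), ‖g‖ ≤ 2 / Real.sqrt p → ‖μ‖ ≤ 1 →
      ‖g + (h p : ℂ) * ((z + conj z') / 2 + μ)‖ ≤ 4 / Real.sqrt p := by
    intro p hp g μ hg hμ
    obtain ⟨h7, h8⟩ := hh p hp
    have a1 : ‖(h p : ℂ) * ((z + conj z') / 2 + μ)‖ ≤ 1 / Real.sqrt p * 2 := by
      rw [norm_mul, Complex.norm_real, Real.norm_eq_abs, abs_of_nonneg h7]
      exact mul_le_mul h8 ((norm_add_le _ _).trans (by linarith)) (norm_nonneg _) (by positivity)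
    have a2 := norm_add_le g ((h p : ℂ) * ((z + conj z') / 2 + μ))
    calc _ ≤ _ := a2
      _ ≤ 2 / Real.sqrt p + 1 / Real.sqrt p * 2 := add_le_add hg a1
      _ = 4 / Real.sqrt p := by ring
  -- the main term
  have hmain := h2 S hS (DE h z z' μ1 μ2 D) (fun p hp =>
    ⟨hbd p hp _ _ (hD p).1 hμ1, hbd p hp _ _ (hD p).2.1 (by rwa [Complex.norm_conj]),
      (hD p).2.2.1, (hD p).2.2.2⟩)
  have hsab : ∑ p ∈ S, ((DE h z z' μ1 μ2 D).g p + (DE h z z' μ1 μ2 D).a p)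
      * ((DE h z z' μ1 μ2 D).g' p + (DE h z z' μ1 μ2 D).a' p) = sab S h z z' μ1 μ2 D := by
    unfold sab
    refine Finset.sum_congr rfl fun p _ => ?_
    simp only [DE]
    ring
  rw [hsab] at hmain
  -- the remainder
  have hi := integrable_expHF S D ha (fun p => (h p : ℂ)) (κ := 5) (by norm_num)
  have hm := h3 S hS D hD (fun p => (h p : ℂ)) (fun p hp => by
    rw [Complex.norm_real, Real.norm_eq_abs, abs_of_nonneg (hh p hp).1]
    exact (hh p hp).2) 5 (by norm_num) (by norm_num)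
  have hiE : Integrable (HF S (DE h z z' μ1 μ2 D)) mu :=
    integrable_of_bd (measurable_HF S _).aestronglyMeasurable
      (norm_HF_le S (DE h z z' μ1 μ2 D) (fun p hp => ha p hp))
  have hpt : ∀ x, ‖GF r S h z z' μ1 μ2 x * HF S D x - HF S (DE h z z' μ1 μ2 D) x‖
      ≤ 4 * (1 / 2) ^ (KK r) * (Real.exp (5 * ‖P x‖) * ‖HF S D x‖) := by
    intro x
    rw [← GE_mul_HF, ← sub_mul, norm_mul]
    have := GF_sub_le r S h hz hz' hμ1 hμ2 x
    calc _ ≤ 4 * ((1 / 2) ^ (KK r) * Real.exp (5 * ‖P x‖)) * ‖HF S D x‖ :=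
          mul_le_mul_of_nonneg_right this (norm_nonneg _)
      _ = _ := by ring
  have hmeas : AEStronglyMeasurable (fun x => GF r S h z z' μ1 μ2 x * HF S D x
      - HF S (DE h z z' μ1 μ2 D) x) mu :=
    ((((continuous_GF r S h z z' μ1 μ2).measurable.mul (measurable_HF S D)).sub
      (measurable_HF S _))).aestronglyMeasurable
  have hiR : Integrable (fun x => GF r S h z z' μ1 μ2 x * HF S D x
      - HF S (DE h z z' μ1 μ2 D) x) mu :=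
    Integrable.mono' (hi.const_mul _) hmeas (Eventually.of_forall hpt)
  have hR : ‖∫ x, (GF r S h z z' μ1 μ2 x * HF S D x - HF S (DE h z z' μ1 μ2 D) x) ∂mu‖
      ≤ 4 * (1 / 2) ^ (KK r) * (4 * Real.exp (200 * VV S)) := by
    refine (norm_integral_le_of_norm_le (hi.const_mul _) (Eventually.of_forall hpt)).trans ?_
    rw [integral_const_mul]
    gcongr
  have hsplit : ∫ x, GF r S h z z' μ1 μ2 x * HF S D x ∂mu
      = ∫ x, (GF r S h z z' μ1 μ2 x * HF S D x - HF S (DE h z z' μ1 μ2 D) x) ∂mu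
        + ∫ x, HF S (DE h z z' μ1 μ2 D) x ∂mu := by
    rw [← integral_add hiR hiE]
    congr 1
    funext x
    ring
  have hr1 : (1 : ℝ) ≤ r := by exact_mod_cast hr
  have hlow := norm_cexp_sab_ge hV hh hz hz' hμ1 hμ2 hD
  have hexp : Real.exp (200 * VV S) ≤ Real.exp (400 * r) := Real.exp_le_exp.2 (by linarith)
  have h12 : ((1 / 2 : ℝ)) ^ (KK r) ≤ Real.exp (-(500000 * r)) := by
    have e1 : Real.exp (-(500000 * (r : ℝ))) = Real.exp (-(1 / 2)) ^ (KK r) := by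
      rw [← Real.exp_nat_mul]
      unfold KK
      push_cast
      ring_nf
    rw [e1]
    refine pow_le_pow_left₀ (by norm_num) ?_ _
    have := Real.add_one_le_exp (-(1 / 2 : ℝ))
    linarith
  have h16 : (16 : ℝ) ≤ Real.exp (16 * r) := by
    have := Real.add_one_le_exp (16 * (r : ℝ))
    linarith
  have hRe : 4 * (1 / 2) ^ (KK r) * (4 * Real.exp (200 * VV S))
      ≤ Real.exp (-r) * ‖cexp (sab S h z z' μ1 μ2 D)‖ := by
    calc 4 * (1 / 2) ^ (KK r) * (4 * Real.exp (200 * VV S))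
        = 16 * ((1 / 2) ^ (KK r) * Real.exp (200 * VV S)) := by ring
      _ ≤ Real.exp (16 * r) * (Real.exp (-(500000 * r)) * Real.exp (400 * r)) := by gcongr
      _ = Real.exp (-(499584 * r)) := by
          rw [← Real.exp_add, ← Real.exp_add]; ring_nf
      _ ≤ Real.exp (-r + -(50 * r)) := Real.exp_le_exp.2 (by linarith)
      _ = Real.exp (-r) * Real.exp (-(50 * r)) := Real.exp_add _ _
      _ ≤ _ := by gcongr
  rw [hsplit]
  calc _ = ‖∫ x, (GF r S h z z' μ1 μ2 x * HF S D x - HF S (DE h z z' μ1 μ2 D) x) ∂mu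
        + (∫ x, HF S (DE h z z' μ1 μ2 D) x ∂mu - cexp (sab S h z z' μ1 μ2 D))‖ := by
        congr 1; ring
    _ ≤ _ := norm_add_le _ _
    _ ≤ Real.exp (-r) * ‖cexp (sab S h z z' μ1 μ2 D)‖
        + C * V2 S * ‖cexp (sab S h z z' μ1 μ2 D)‖ := add_le_add (hR.trans hRe) hmain
    _ = _ := by ring

end Pool.Agent.Lib.GT
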