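import Mathlib
import Pool.Agent.Lib.MP_f9aece_nt_gt.Stmts

/-!
B7: the bound for the bad sets, product over the groups.
-/

set_option autoImplicit false

namespace Pool.Agent.Lib.GT

open MeasureTheory Set Filter Topology Complex ProbabilityTheory
open scoped ComplexConjugate
open Pool.Agent.Lib.MP_f9aece_nt (VV)
open Pool.Agent.Lib.J4 (Sg Yg rg Jok V2)

namespace B7Aux

lemma norm_lin_le (S : Finset ℕ) (c : ℕ → ℂ) (x : Om) : ‖lin S c x‖ ≤ ∑ p ∈ S, ‖c p‖ := by
  unfold lin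
  refine (norm_sum_le _ _).trans (Finset.sum_le_sum fun p _ => ?_)
  rw [norm_mul, norm_e1, mul_one]

lemma norm_tex_le (K : ℕ) (w : ℂ) : ‖tex K w‖ ≤ Real.exp ‖w‖ := by
  unfold tex
  refine (norm_sum_le _ _).trans ?_
  have h : ∀ k ∈ Finset.range (K + 1), ‖w ^ k / (k.factorial : ℂ)‖ = ‖w‖ ^ k / (k.factorial : ℝ) := by
    intro k _
    rw [norm_div, norm_pow, Complex.norm_natCast]
  rw [Finset.sum_congr rfl h]
  exact Real.sum_le_exp_of_nonneg (norm_nonneg _) _

lemma measurable_lin (S : Finset ℕ) (c : ℕ → ℂ) : Measurable (lin S c) := by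
  unfold lin
  exact Finset.measurable_fun_sum _ fun p _ =>
    measurable_const.mul (continuous_e1.measurable.comp (measurable_pi_apply p))

lemma continuous_tex (K : ℕ) : Continuous (tex K) := by
  unfold tex
  fun_prop

lemma measurable_GF (r : ℕ) (S : Finset ℕ) (h : ℕ → ℝ) (z z' μ1 μ2 : ℂ) :
    Measurable (GF r S h z z' μ1 μ2) := by
  have hl : Measurable (lin S fun p => (h p : ℂ)) := measurable_lin _ _
  have hr : Measurable fun x : Om => ((lin S (fun p => (h p : ℂ)) x).re : ℂ) :=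
    Complex.measurable_ofReal.comp (Complex.measurable_re.comp hl)
  have ht := (continuous_tex (KK r)).measurable
  have hc : Measurable fun w : ℂ => conj w := Complex.continuous_conj.measurable
  unfold GF
  exact (((ht.comp (measurable_const.mul hr)).mul (hc.comp (ht.comp (measurable_const.mul hr)))).mul
    (ht.comp (measurable_const.mul hl))).mul (hc.comp (ht.comp (measurable_const.mul hl)))

lemma measurable_bp (r : ℕ) (S : Finset ℕ) (c : ℕ → ℂ) : Measurable (bp r S c) := by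
  unfold bp
  exact ((measurable_lin S c).norm.div_const _).pow_const _

lemma measurable_HF (S : Finset ℕ) (D : Dat) : Measurable (HF S D) := by
  have he : ∀ p : ℕ, Measurable fun x : Om => e1 (x p) := fun p =>
    continuous_e1.measurable.comp (measurable_pi_apply p)
  have hc : ∀ p : ℕ, Measurable fun x : Om => conj (e1 (x p)) := fun p =>
    Complex.continuous_conj.measurable.comp (he p)
  unfold HF
  refine (Complex.measurable_exp.comp (Finset.measurable_fun_sum _ fun p _ => ?_)).mul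
    (Finset.measurable_fun_prod _ fun p _ => ?_)
  · exact (measurable_const.mul (he p)).add (measurable_const.mul (hc p))
  · exact ((measurable_const.sub (measurable_const.mul (he p))).inv).mul
      ((measurable_const.sub (measurable_const.mul (hc p))).inv)

lemma dep_GF (r : ℕ) (S : Finset ℕ) (h : ℕ → ℝ) (z z' μ1 μ2 : ℂ) :
    Dep (S : Set ℕ) (GF r S h z z' μ1 μ2) := by
  intro x y hxy
  unfold GF
  rw [dep_lin x y hxy]

lemma dep_bp (r : ℕ) (S : Finset ℕ) (c : ℕ → ℂ) : Dep (S : Set ℕ) (bp r S c) := by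
  intro x y hxy
  unfold bp
  rw [dep_lin x y hxy]

lemma dep_HF (S : Finset ℕ) (D : Dat) : Dep (S : Set ℕ) (HF S D) := by
  intro x y hxy
  unfold HF
  congr 1
  · congr 1
    exact Finset.sum_congr rfl fun p hp => by rw [hxy p (Finset.mem_coe.2 hp)]
  · exact Finset.prod_congr rfl fun p hp => by rw [hxy p (Finset.mem_coe.2 hp)]

lemma norm_GF_le (r : ℕ) (S : Finset ℕ) (h : ℕ → ℝ) (z z' μ1 μ2 : ℂ) (x : Om) :
    ‖GF r S h z z' μ1 μ2 x‖ ≤ Real.exp (‖z‖ * ∑ p ∈ S, ‖(h p : ℂ)‖) * Real.exp (‖z'‖ * ∑ p ∈ S, ‖(h p : ℂ)‖)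
      * Real.exp (‖μ1‖ * ∑ p ∈ S, ‖(h p : ℂ)‖) * Real.exp (‖μ2‖ * ∑ p ∈ S, ‖(h p : ℂ)‖) := by
  have hl := norm_lin_le S (fun p => (h p : ℂ)) x
  have hr : ‖((lin S (fun p => (h p : ℂ)) x).re : ℂ)‖ ≤ ∑ p ∈ S, ‖(h p : ℂ)‖ := by
    rw [Complex.norm_real]
    exact (Complex.abs_re_le_norm _).trans hl
  have key : ∀ (a w : ℂ), ‖w‖ ≤ ∑ p ∈ S, ‖(h p : ℂ)‖ →
      ‖tex (KK r) (a * w)‖ ≤ Real.exp (‖a‖ * ∑ p ∈ S, ‖(h p : ℂ)‖) := by
    intro a w hw
    refine (norm_tex_le _ _).trans (Real.exp_le_exp.2 ?_)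
    rw [norm_mul]
    gcongr
  unfold GF
  rw [norm_mul, norm_mul, norm_mul, Complex.norm_conj, Complex.norm_conj]
  gcongr
  · exact key _ _ hr
  · exact key _ _ hr
  · exact key _ _ hl
  · exact key _ _ hl

lemma norm_HF_le {S : Finset ℕ} (hS : ∀ p ∈ S, p.Prime ∧ 1000 ≤ p) {D : Dat} (hD : D.Ok) (x : Om) :
    ‖HF S D x‖ ≤ Real.exp (∑ p ∈ S, (‖D.g p‖ + ‖D.g' p‖)) * ∏ _p ∈ S, ((2 : ℝ) * 2) := by
  have hinv : ∀ p ∈ S, ∀ a w : ℂ, ‖a‖ ≤ 1 / Real.sqrt p → ‖w‖ = 1 → ‖(1 - a * w)⁻¹‖ ≤ 2 := by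
    intro p hp a w ha hw
    have hp4 : (2 : ℝ) ≤ Real.sqrt p := by
      apply Real.le_sqrt_of_sq_le
      have : (1000 : ℝ) ≤ p := by exact_mod_cast (hS p hp).2
      linarith
    have h1 : ‖a‖ ≤ 1 / 2 := ha.trans (by
      apply one_div_le_one_div_of_le (by norm_num) hp4)
    have h2 : 1 - ‖a‖ ≤ ‖1 - a * w‖ := by
      have := norm_sub_norm_le (1 : ℂ) (a * w)
      rw [norm_one, norm_mul, hw, mul_one] at this
      exact this
    rw [norm_inv]
    apply inv_le_of_inv_le₀ (by norm_num)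
    linarith
  unfold HF
  rw [norm_mul, Complex.norm_exp]
  gcongr
  · refine (Complex.re_le_norm _).trans ((norm_sum_le _ _).trans (Finset.sum_le_sum fun p _ => ?_))
    refine (norm_add_le _ _).trans ?_
    rw [norm_mul, norm_mul, Complex.norm_conj, norm_e1, mul_one, mul_one]
  · rw [norm_prod]
    refine Finset.prod_le_prod (fun p _ => norm_nonneg _) fun p hp => ?_
    rw [norm_mul]
    have := hD p
    gcongr
    · exact hinv p hp _ _ this.2.2.1 (norm_e1 _)
    · exact hinv p hp _ _ this.2.2.2 (by rw [Complex.norm_conj, norm_e1])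

lemma bp_nonneg (r : ℕ) (S : Finset ℕ) (c : ℕ → ℂ) (x : Om) : 0 ≤ bp r S c x := by
  unfold bp
  rw [pow_mul]
  positivity

lemma bp_le {r : ℕ} (hr : 1 ≤ r) (S : Finset ℕ) (c : ℕ → ℂ) (x : Om) :
    bp r S c x ≤ ((∑ p ∈ S, ‖c p‖) / RR r) ^ (2 * MM r) := by
  have hR : 0 < RR r := by
    unfold RR
    have : (1 : ℝ) ≤ r := by exact_mod_cast hr
    positivity
  unfold bp
  have := norm_lin_le S c x
  gcongr

/-- the bound for a group in the bad set is integrable -/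
lemma integrable_bd {S : Finset ℕ} (hS : ∀ p ∈ S, p.Prime ∧ 1000 ≤ p) {D : Dat} (hD : D.Ok) {r : ℕ}
    (hr : 1 ≤ r) (h : ℕ → ℝ) (z z' μ1 μ2 : ℂ) (c : ℕ → ℂ) :
    Integrable (fun x => bp r S c x * (1 + ‖GF r S h z z' μ1 μ2 x‖) * ‖HF S D x‖) mu := by
  have hm : Measurable (fun x => bp r S c x * (1 + ‖GF r S h z z' μ1 μ2 x‖) * ‖HF S D x‖) :=
    ((measurable_bp r S c).mul (measurable_const.add (measurable_GF r S h z z' μ1 μ2).norm)).mul
      (measurable_HF S D).norm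
  refine integrable_of_bd hm.aestronglyMeasurable (C := ((∑ p ∈ S, ‖c p‖) / RR r) ^ (2 * MM r) *
    (1 + Real.exp (‖z‖ * ∑ p ∈ S, ‖(h p : ℂ)‖) * Real.exp (‖z'‖ * ∑ p ∈ S, ‖(h p : ℂ)‖)
      * Real.exp (‖μ1‖ * ∑ p ∈ S, ‖(h p : ℂ)‖) * Real.exp (‖μ2‖ * ∑ p ∈ S, ‖(h p : ℂ)‖)) *
    (Real.exp (∑ p ∈ S, (‖D.g p‖ + ‖D.g' p‖)) * ∏ _p ∈ S, ((2 : ℝ) * 2))) ?_
  intro x
  have h0 := bp_nonneg r S c x
  have h1 := bp_le hr S c x
  have h2 := norm_GF_le r S h z z' μ1 μ2 x
  have h3 := norm_HF_le hS hD x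
  have h4 : 0 ≤ ((∑ p ∈ S, ‖c p‖) / RR r) ^ (2 * MM r) := h0.trans h1
  rw [Real.norm_of_nonneg (by positivity)]
  gcongr

end B7Aux

open B7Aux in
/-- **B7** -/
theorem allBd (h1 : GroupMain) (h2 : GroupBad) (h3 : GroupNum) : AllBd := by
  obtain ⟨C, hC, hmain⟩ := h1
  -- the sum of the squares
  have hsum : Summable fun n : ℕ => ((n : ℝ)⁻¹) ^ 2 := by
    have := Real.summable_nat_pow_inv (p := 2)
    simp [inv_pow] at this ⊢
  set Z : ℝ := ∑' n : ℕ, ((n : ℝ)⁻¹) ^ 2 with hZ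
  have hZ0 : 0 ≤ Z := tsum_nonneg fun n => by positivity
  refine ⟨Real.exp (2 + C * Z), (Real.exp_pos _).le, ?_⟩
  intro A hA z z' μ1 μ2 hz hz' hμ1 hμ2 D hD c hc s s' hss hs'
  obtain ⟨n1, n2, n3, n4, n5, n6, n7, n8⟩ := h3 A hA
  have hS : ∀ g, ∀ p ∈ A.S g, p.Prime ∧ 1000 ≤ p := fun g p hp => ⟨(n1 g p hp).1, (n1 g p hp).2.1⟩
  have hr : ∀ g, 1 ≤ A.r g := by
    intro g
    have := hA.hv
    unfold Par.r rg
    nlinarith
  have hh : ∀ g, ∀ p ∈ A.S g, 0 ≤ A.h p ∧ A.h p ≤ 1 / Real.sqrt p := by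
    intro g p hp
    have hp1 : (1 : ℝ) ≤ p := by
      have := (hS g p hp).2
      have h' : (1000 : ℝ) ≤ p := by exact_mod_cast this
      linarith
    unfold Par.h
    refine ⟨by positivity, ?_⟩
    have e : (1 : ℝ) / Real.sqrt p = (p : ℝ) ^ (-(1 / 2) : ℝ) := by
      rw [Real.rpow_neg (by linarith), ← Real.sqrt_eq_rpow, one_div]
    rw [e]
    apply Real.rpow_le_rpow_of_exponent_le hp1
    have := hA.hl
    linarith
  -- the factors
  set E : ℕ → Om → ℂ := fun g x => (if g ∈ s then 1 else GF (A.r g) (A.S g) A.h z z' μ1 μ2 x)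
    * (if g ∈ s' then (bp (A.r g) (A.S g) c x : ℂ) else 1) * HF (A.S g) D x with hE
  have hEm : ∀ g, Measurable (E g) := by
    intro g
    have m1 : Measurable fun x : Om => (if g ∈ s then (1 : ℂ) else GF (A.r g) (A.S g) A.h z z' μ1 μ2 x) := by
      by_cases hg : g ∈ s
      · simp only [hg, if_true]; exact measurable_const
      · simp only [hg, if_false]; exact measurable_GF _ _ _ _ _ _ _
    have m2 : Measurable fun x : Om => (if g ∈ s' then (bp (A.r g) (A.S g) c x : ℂ) else 1) := by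
      by_cases hg : g ∈ s'
      · simp only [hg, if_true]; exact Complex.measurable_ofReal.comp (measurable_bp _ _ _)
      · simp only [hg, if_false]; exact measurable_const
    exact (m1.mul m2).mul (measurable_HF _ _)
  have hEd : ∀ g, Dep (A.S g : Set ℕ) (E g) := by
    intro g x y hxy
    simp only [hE]
    rw [dep_GF _ _ _ _ _ _ _ x y hxy, dep_bp _ _ _ x y hxy, dep_HF _ _ x y hxy]
  have hprod : ∫ x, AllF A s s' c z z' μ1 μ2 D x ∂mu = ∏ g ∈ Finset.range A.J, ∫ x, E g x ∂mu :=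
    integral_prod_of_dep (Finset.range A.J) A.S E (fun i _ j _ hij => n3 i j hij)
      (fun i _ => hEm i) (fun i _ => hEd i)
  -- the bound of one factor
  have hone : ∀ g ∈ Finset.range A.J, ‖∫ x, E g x ∂mu‖ ≤
      Real.exp ((if g ∈ s' then -(2 * (A.r g : ℝ)) else 0) + (Real.exp (-(A.r g : ℝ)) + C * V2 (A.S g)))
        * ‖cexp (sab (A.S g) A.h z z' μ1 μ2 D)‖ := by
    intro g _
    have hV2 : 0 ≤ V2 (A.S g) := Finset.sum_nonneg fun p _ => by positivity
    have hpos : 0 ≤ Real.exp (-(A.r g : ℝ)) + C * V2 (A.S g) := by positivity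
    by_cases hg : g ∈ s'
    · have hb := h2 (A.S g) (A.r g) (hS g) (hr g) (n2 g) A.h (hh g) z z' μ1 μ2 hz hz' hμ1 hμ2 D hD c
        (fun p _ => hc p)
      have hle : ‖∫ x, E g x ∂mu‖ ≤
          ∫ x, bp (A.r g) (A.S g) c x * (1 + ‖GF (A.r g) (A.S g) A.h z z' μ1 μ2 x‖) * ‖HF (A.S g) D x‖ ∂mu := by
        refine norm_integral_le_of_norm_le (integrable_bd (hS g) hD (hr g) A.h z z' μ1 μ2 c) ?_
        refine Eventually.of_forall fun x => ?_
        have h0 := bp_nonneg (A.r g) (A.S g) c x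
        simp only [hE, hg, if_true]
        rw [norm_mul, norm_mul, Complex.norm_real, Real.norm_of_nonneg h0]
        have h4 : ‖(if g ∈ s then (1 : ℂ) else GF (A.r g) (A.S g) A.h z z' μ1 μ2 x)‖ ≤
            1 + ‖GF (A.r g) (A.S g) A.h z z' μ1 μ2 x‖ := by
          split_ifs
          · rw [norm_one]; linarith [norm_nonneg (GF (A.r g) (A.S g) A.h z z' μ1 μ2 x)]
          · linarith
        rw [mul_comm (bp (A.r g) (A.S g) c x) (1 + _)]
        gcongr
      refine (hle.trans hb).trans ?_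
      simp only [hg, if_true]
      gcongr
      linarith
    · have hgs : g ∉ s := fun h => hg (hss h)
      have hm := hmain (A.S g) (A.r g) (hS g) (hr g) (n2 g) A.h (hh g) z z' μ1 μ2 hz hz' hμ1 hμ2 D hD
      have he : ∀ x, E g x = GF (A.r g) (A.S g) A.h z z' μ1 μ2 x * HF (A.S g) D x := by
        intro x
        simp only [hE, hg, hgs, if_false, mul_one]
      rw [integral_congr_ae (Eventually.of_forall he)]
      have h5 := norm_le_norm_add_norm_sub' (∫ x, GF (A.r g) (A.S g) A.h z z' μ1 μ2 x * HF (A.S g) D x ∂mu)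
        (cexp (sab (A.S g) A.h z z' μ1 μ2 D))
      have h6 := Real.add_one_le_exp (Real.exp (-(A.r g : ℝ)) + C * V2 (A.S g))
      simp only [hg, if_false, zero_add]
      calc _ ≤ ‖cexp (sab (A.S g) A.h z z' μ1 μ2 D)‖ +
            (Real.exp (-(A.r g : ℝ)) + C * V2 (A.S g)) * ‖cexp (sab (A.S g) A.h z z' μ1 μ2 D)‖ := by
            linarith
        _ = ((Real.exp (-(A.r g : ℝ)) + C * V2 (A.S g)) + 1) * ‖cexp (sab (A.S g) A.h z z' μ1 μ2 D)‖ := by
            ring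
        _ ≤ _ := by gcongr
  -- the product
  have hU : sab A.U A.h z z' μ1 μ2 D = ∑ g ∈ Finset.range A.J, sab (A.S g) A.h z z' μ1 μ2 D := by
    unfold sab Par.U
    exact Finset.sum_biUnion fun i _ j _ hij => n3 i j hij
  have hV : ∑ g ∈ Finset.range A.J, V2 (A.S g) ≤ Z := by
    have : ∑ g ∈ Finset.range A.J, V2 (A.S g) = ∑ p ∈ A.U, ((p : ℝ)⁻¹) ^ 2 := by
      unfold Par.U V2
      exact (Finset.sum_biUnion fun i _ j _ hij => n3 i j hij).symm
    rw [this]
    exact hsum.sum_le_tsum _ fun n _ => by positivity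
  rw [hprod, norm_prod]
  refine (Finset.prod_le_prod (fun g _ => norm_nonneg _) hone).trans ?_
  rw [Finset.prod_mul_distrib, ← norm_prod, ← Complex.exp_sum, ← hU, ← Real.exp_sum,
    Finset.sum_add_distrib, Finset.sum_add_distrib, ← Finset.mul_sum]
  have hite : ∑ g ∈ Finset.range A.J, (if g ∈ s' then -(2 * (A.r g : ℝ)) else 0) =
      -(2 * ∑ g ∈ s', (A.r g : ℝ)) := by
    rw [← Finset.sum_filter, Finset.filter_mem_eq_inter, Finset.inter_eq_right.2 hs', Finset.mul_sum,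
      Finset.sum_neg_distrib]
  rw [hite, Real.exp_add, mul_comm (Real.exp (2 + C * Z))]
  gcongr
  have h7 : Real.exp (-(A.v : ℝ)) ≤ 1 := by
    rw [Real.exp_le_one_iff]
    have : (0 : ℝ) ≤ A.v := by positivity
    linarith
  linarith

end Pool.Agent.Lib.GT
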