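import Mathlib
import Pool.Agent.Lib.MP_f9aece_nt_gt.B7

/-!
B6: the main term, product over the groups.
-/

set_option autoImplicit false

namespace Pool.Agent.Lib.GT

open MeasureTheory Set Filter Topology Complex ProbabilityTheory
open scoped ComplexConjugate
open Pool.Agent.Lib.MP_f9aece_nt (VV)
open Pool.Agent.Lib.J4 (Sg Yg rg Jok V2)

namespace B6Aux

/-- the sum of the squares beyond `k` -/
lemma sum_sq_le {k : ℕ} (hk : k ≠ 0) (U : Finset ℕ) (hU : ∀ p ∈ U, k < p) :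
    ∑ p ∈ U, ((p : ℝ)⁻¹) ^ 2 ≤ 1 / k := by
  set n : ℕ := U.sup id + k with hn
  have h1 : U ⊆ Finset.Ioc k n := by
    intro p hp
    rw [Finset.mem_Ioc]
    have : p ≤ U.sup id := Finset.le_sup (f := id) hp
    exact ⟨hU p hp, by omega⟩
  have h2 : ∑ p ∈ U, ((p : ℝ)⁻¹) ^ 2 ≤ ∑ p ∈ Finset.Ioc k n, ((p : ℝ)⁻¹) ^ 2 :=
    Finset.sum_le_sum_of_subset_of_nonneg h1 fun _ _ _ => by positivity
  have h3 : ∑ p ∈ Finset.Ioc k n, ((p : ℝ)⁻¹) ^ 2 ≤ (k : ℝ)⁻¹ - (n : ℝ)⁻¹ := by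
    have := sum_Ioc_inv_sq_le_sub (α := ℝ) hk (by omega : k ≤ n)
    simpa [inv_pow] using this
  have h4 : (0 : ℝ) ≤ (n : ℝ)⁻¹ := by positivity
  rw [one_div]
  linarith

/-- a product of perturbed factors -/
lemma prod_pert {ι : Type} (s : Finset ι) (I M : ι → ℂ) (ε : ι → ℝ) (hM : ∀ i, M i ≠ 0)
    (h : ∀ i ∈ s, ‖I i - M i‖ ≤ ε i * ‖M i‖) :
    ‖∏ i ∈ s, I i - ∏ i ∈ s, M i‖ ≤
      (∑ i ∈ s, ε i) * Real.exp (∑ i ∈ s, ε i) * ‖∏ i ∈ s, M i‖ := by
  set d : ι → ℂ := fun i => (I i - M i) / M i with hd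
  have hd1 : ∀ i, I i = M i * (1 + d i) := by
    intro i
    simp only [hd]
    field_simp [hM i]
    ring
  have hd2 : ∀ i ∈ s, ‖d i‖ ≤ ε i := by
    intro i hi
    simp only [hd]
    rw [norm_div, div_le_iff₀ (norm_pos_iff.2 (hM i))]
    exact h i hi
  have h1 : ∏ i ∈ s, I i - ∏ i ∈ s, M i = (∏ i ∈ s, (1 + d i) - 1) * ∏ i ∈ s, M i := by
    rw [Finset.prod_congr rfl fun i _ => hd1 i, Finset.prod_mul_distrib]
    ring
  have h2 := Finset.norm_prod_one_add_sub_one_le s d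
  have h3 : ∑ i ∈ s, ‖d i‖ ≤ ∑ i ∈ s, ε i := Finset.sum_le_sum hd2
  set x := ∑ i ∈ s, ε i with hx
  have h4 : Real.exp (∑ i ∈ s, ‖d i‖) - 1 ≤ x * Real.exp x := by
    have e1 : Real.exp (∑ i ∈ s, ‖d i‖) ≤ Real.exp x := Real.exp_le_exp.2 h3
    have e2 : 1 - x ≤ Real.exp (-x) := by
      have := Real.add_one_le_exp (-x)
      linarith
    have e3 : (1 - x) * Real.exp x ≤ 1 := by
      calc (1 - x) * Real.exp x ≤ Real.exp (-x) * Real.exp x :=
            mul_le_mul_of_nonneg_right e2 (Real.exp_pos x).le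
        _ = 1 := by rw [← Real.exp_add, neg_add_cancel, Real.exp_zero]
    linarith
  rw [h1, norm_mul]
  exact mul_le_mul_of_nonneg_right (h2.trans h4) (norm_nonneg _)

end B6Aux

open B6Aux B7Aux in
/-- **B6** -/
theorem allMain (h1 : GroupMain) (h3 : GroupNum) : AllMain := by
  obtain ⟨C, hC, hmain⟩ := h1
  refine ⟨(2 + C) * Real.exp (2 + C), by positivity, ?_⟩
  intro A hA z z' μ1 μ2 hz hz' hμ1 hμ2 D hD c
  obtain ⟨n1, n2, n3, n4, n5, n6, n7, n8⟩ := h3 A hA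
  have hS : ∀ g, ∀ p ∈ A.S g, p.Prime ∧ 1000 ≤ p := fun g p hp => ⟨(n1 g p hp).1, (n1 g p hp).2.1⟩
  have hr : ∀ g, 1 ≤ A.r g := by
    intro g
    have := hA.hv
    unfold Par.r rg
    nlinarith
  have hh : ∀ g, ∀ p ∈ A.S g, 0 ≤ A.h p ∧ A.h p ≤ 1 / Real.sqrt p := by
    intro g p hp
    have hp1 : (1 : ℝ) ≤ p := by
      have := (hS g p hp).2
      have h' : (1000 : ℝ) ≤ p := by exact_mod_cast this
      linarith
    unfold Par.h
    refine ⟨by positivity, ?_⟩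
    have e : (1 : ℝ) / Real.sqrt p = (p : ℝ) ^ (-(1 / 2) : ℝ) := by
      rw [Real.rpow_neg (by linarith), ← Real.sqrt_eq_rpow, one_div]
    rw [e]
    apply Real.rpow_le_rpow_of_exponent_le hp1
    have := hA.hl
    linarith
  -- the factors
  set E : ℕ → Om → ℂ := fun g x => GF (A.r g) (A.S g) A.h z z' μ1 μ2 x * HF (A.S g) D x with hE
  have hEm : ∀ g, Measurable (E g) := fun g => (measurable_GF _ _ _ _ _ _ _).mul (measurable_HF _ _)
  have hEd : ∀ g, Dep (A.S g : Set ℕ) (E g) := by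
    intro g x y hxy
    simp only [hE]
    rw [dep_GF _ _ _ _ _ _ _ x y hxy, dep_HF _ _ x y hxy]
  have hAll : ∀ x, AllF A ∅ ∅ c z z' μ1 μ2 D x = ∏ g ∈ Finset.range A.J, E g x := by
    intro x
    unfold AllF
    refine Finset.prod_congr rfl fun g _ => ?_
    simp [hE]
  have hprod : ∫ x, AllF A ∅ ∅ c z z' μ1 μ2 D x ∂mu = ∏ g ∈ Finset.range A.J, ∫ x, E g x ∂mu := by
    rw [integral_congr_ae (Eventually.of_forall hAll)]
    exact integral_prod_of_dep (Finset.range A.J) A.S E (fun i _ j _ hij => n3 i j hij)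
      (fun i _ => hEm i) (fun i _ => hEd i)
  have hU : cexp (sab A.U A.h z z' μ1 μ2 D) =
      ∏ g ∈ Finset.range A.J, cexp (sab (A.S g) A.h z z' μ1 μ2 D) := by
    rw [← Complex.exp_sum]
    congr 1
    unfold sab Par.U
    exact Finset.sum_biUnion fun i _ j _ hij => n3 i j hij
  have hV : ∑ g ∈ Finset.range A.J, V2 (A.S g) ≤ 1 / A.p0 := by
    have : ∑ g ∈ Finset.range A.J, V2 (A.S g) = ∑ p ∈ A.U, ((p : ℝ)⁻¹) ^ 2 := by
      unfold Par.U V2
      exact (Finset.sum_biUnion fun i _ j _ hij => n3 i j hij).symm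
    rw [this]
    exact sum_sq_le (by have := hA.hp; omega) A.U fun p hp => ((n4 p).1 hp).2.1
  have hp0 : (0 : ℝ) < A.p0 := by
    have := hA.hp
    exact_mod_cast (by omega : 0 < A.p0)
  have hp1 : 1 / (A.p0 : ℝ) ≤ 1 := by
    rw [div_le_one hp0]
    have := hA.hp
    exact_mod_cast (by omega : 1 ≤ A.p0)
  have hev : Real.exp (-(A.v : ℝ)) ≤ 1 := by
    rw [Real.exp_le_one_iff]
    have : (0 : ℝ) ≤ A.v := by positivity
    linarith
  have key := prod_pert (Finset.range A.J) (fun g => ∫ x, E g x ∂mu)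
    (fun g => cexp (sab (A.S g) A.h z z' μ1 μ2 D))
    (fun g => Real.exp (-(A.r g : ℝ)) + C * V2 (A.S g)) (fun g => Complex.exp_ne_zero _)
    (fun g _ => hmain (A.S g) (A.r g) (hS g) (hr g) (n2 g) A.h (hh g) z z' μ1 μ2 hz hz' hμ1 hμ2 D hD)
  rw [hprod, hU]
  refine key.trans (mul_le_mul_of_nonneg_right ?_ (norm_nonneg _))
  set x : ℝ := ∑ g ∈ Finset.range A.J, (Real.exp (-(A.r g : ℝ)) + C * V2 (A.S g)) with hx
  have hev0 := Real.exp_pos (-(A.v : ℝ))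
  have hx1 : x ≤ 2 * Real.exp (-A.v) + C * (1 / A.p0) := by
    rw [hx, Finset.sum_add_distrib, ← Finset.mul_sum]
    exact add_le_add n6 (mul_le_mul_of_nonneg_left hV hC)
  have hx0 : 0 ≤ x := Finset.sum_nonneg fun g _ => by
    have : 0 ≤ V2 (A.S g) := Finset.sum_nonneg fun p _ => by positivity
    positivity
  have hx2 : x ≤ 2 + C := by
    refine hx1.trans ?_
    have := mul_le_mul_of_nonneg_left hp1 hC
    linarith
  have hx3 : x ≤ (2 + C) * (Real.exp (-A.v) + 1 / A.p0) := by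
    refine hx1.trans ?_
    have e1 : 0 ≤ C * Real.exp (-(A.v : ℝ)) := by positivity
    have e2 : (0 : ℝ) ≤ 2 * (1 / A.p0) := by positivity
    nlinarith
  calc x * Real.exp x ≤ (2 + C) * (Real.exp (-A.v) + 1 / A.p0) * Real.exp (2 + C) :=
        mul_le_mul hx3 (Real.exp_le_exp.2 hx2) (Real.exp_pos _).le (by positivity)
    _ = _ := by ring

end Pool.Agent.Lib.GT
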