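import Mathlib
import Pool.Agent.Lib.MP_f9aece_nt_gt.Stmts

/-!
Gaussian tails of `log |zeta|` on the critical line, module C4: lengths.
-/

set_option autoImplicit false

namespace Pool.Agent.Lib.GT

open MeasureTheory Set Filter Topology Complex ProbabilityTheory
open scoped ComplexConjugate
open Pool.Agent.Lib.MP_f9aece_nt (VV)
open Pool.Agent.Lib.J4 (Sg Yg rg Jok V2)

namespace C4

lemma h_le (A : Par) (hl : 0 ≤ A.lam) {p : ℕ} (hp : 1 ≤ p) : 0 ≤ A.h p ∧ A.h p ≤ 1 := by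
  unfold Par.h
  have h1 : (1 : ℝ) ≤ p := by exact_mod_cast hp
  exact ⟨by positivity, Real.rpow_le_one_of_one_le_of_nonpos h1 (by linarith)⟩

/-- one group -/
lemma group (A : Par) (hA : A.Ok) (hn : GroupNum) {g : ℕ} (hg : g < A.J) :
    TP (Real.exp (Yg A.v A.Y g)) (Real.exp (Yg A.v A.Y g)) (A.P g) := by
  obtain ⟨h1, -, -, -, -, -, -, h8⟩ := hn A hA
  have hS := h1 g
  have hY := h8 g hg
  have h0 : (1 : ℝ) ≤ Real.exp (Yg A.v A.Y g) := Real.one_le_exp (by linarith)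
  have h2 := TP.lin (S := A.S g) (c := fun p => (A.h p : ℂ)) (fun p hp => (hS p hp).1)
    (fun p hp => (hS p hp).2.2.2) h0
  refine TP.mono h2 le_rfl ?_
  have h3 : ∀ p ∈ A.S g, ‖(A.h p : ℂ)‖ ≤ 1 := by
    intro p hp
    have := h_le A hA.hl (hS p hp).1.one_le
    rw [Complex.norm_real, Real.norm_of_nonneg this.1]
    exact this.2
  refine (Finset.sum_le_card_nsmul _ _ _ h3).trans ?_
  rw [nsmul_eq_mul, mul_one]
  have h4 : A.S g ⊆ Finset.Icc 1 ⌊Real.exp (Yg A.v A.Y g)⌋₊ := by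
    intro p hp
    rw [Finset.mem_Icc]
    exact ⟨(hS p hp).1.one_le, Nat.le_floor (hS p hp).2.2.2⟩
  have h5 := Finset.card_le_card h4
  rw [Nat.card_Icc] at h5
  have h6 : ((A.S g).card : ℝ) ≤ ⌊Real.exp (Yg A.v A.Y g)⌋₊ := by
    have : (A.S g).card ≤ ⌊Real.exp (Yg A.v A.Y g)⌋₊ := by omega
    exact_mod_cast this
  exact h6.trans (Nat.floor_le (by positivity))

lemma one_add_exp {y : ℝ} (hy : 6 ≤ y) : 1 + Real.exp y ≤ Real.exp (5 / 4 * y) := by
  have h1 : Real.exp (5 / 4 * y) = Real.exp y * Real.exp (y / 4) := by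
    rw [← Real.exp_add]; congr 1; ring
  have h2 := Real.add_one_le_exp (y / 4)
  have h3 : 1 ≤ Real.exp y := Real.one_le_exp (by linarith)
  rw [h1]
  nlinarith

/-- truncated exponential of a multiple of a form -/
lemma texm {y : ℝ} (hy : 6 ≤ y) {f : Om → ℂ} (hf : TP (Real.exp y) (Real.exp y) f) {z : ℂ}
    (hz : ‖z‖ ≤ 1) (K : ℕ) :
    TP (Real.exp (5 / 4 * y) ^ K) (Real.exp (5 / 4 * y) ^ K) fun x => tex K (z * f x) := by
  have h0 : (1 : ℝ) ≤ Real.exp y := Real.one_le_exp (by linarith)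
  have h1 := (hf.const_mul z).mono le_rfl (show ‖z‖ * Real.exp y ≤ Real.exp y by
    have := Real.exp_pos y
    nlinarith)
  have h2 := h1.tex h0 K
  have h3 := one_add_exp hy
  have h4 : Real.exp y ≤ Real.exp (5 / 4 * y) := Real.exp_le_exp.mpr (by linarith)
  exact h2.mono (pow_le_pow_left₀ (by positivity) h4 _) (pow_le_pow_left₀ (by positivity) h3 _)

lemma gf (A : Par) (hA : A.Ok) (hn : GroupNum) {g : ℕ} (hg : g < A.J) {z z' μ1 μ2 : ℂ}
    (hz : ‖z‖ ≤ 1) (hz' : ‖z'‖ ≤ 1) (h1 : ‖μ1‖ ≤ 1) (h2 : ‖μ2‖ ≤ 1) :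
    TP (Real.exp (5000000 * (A.r g * Yg A.v A.Y g))) (Real.exp (5000000 * (A.r g * Yg A.v A.Y g)))
      (fun x => GF (A.r g) (A.S g) A.h z z' μ1 μ2 x) := by
  have hY : 6 ≤ Yg A.v A.Y g := (hn A hA).2.2.2.2.2.2.2 g hg
  have hP := group A hA hn hg
  have hR := hP.re
  have t1 := texm hY hR hz (KK (A.r g))
  have t2 := (texm hY hR hz' (KK (A.r g))).conj_
  have t3 := texm hY hP h1 (KK (A.r g))
  have t4 := (texm hY hP h2 (KK (A.r g))).conj_
  have t5 := ((t1.mul t2).mul t3).mul t4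
  have e : Real.exp (5 / 4 * Yg A.v A.Y g) ^ KK (A.r g) * Real.exp (5 / 4 * Yg A.v A.Y g) ^ KK (A.r g)
      * Real.exp (5 / 4 * Yg A.v A.Y g) ^ KK (A.r g) * Real.exp (5 / 4 * Yg A.v A.Y g) ^ KK (A.r g)
      = Real.exp (5000000 * (A.r g * Yg A.v A.Y g)) := by
    rw [← pow_add, ← pow_add, ← pow_add, ← Real.exp_nat_mul]
    congr 1
    unfold KK
    push_cast
    ring
  rw [e] at t5
  exact t5

lemma bbT (A : Par) (hA : A.Ok) (hn : GroupNum) {g : ℕ} (hg : g < A.J) :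
    TP (Real.exp (5000000 * (A.r g * Yg A.v A.Y g))) (Real.exp (5000000 * (A.r g * Yg A.v A.Y g)))
      (fun x => (A.bb g x : ℂ)) := by
  have hY : 6 ≤ Yg A.v A.Y g := (hn A hA).2.2.2.2.2.2.2 g hg
  have hP := group A hA hn hg
  have hv := hA.hv
  have hr : 1 ≤ A.r g := by
    unfold Par.r rg
    exact Nat.mul_pos (by omega) (by omega)
  have hr' : (1 : ℝ) ≤ A.r g := by exact_mod_cast hr
  have h1 := (hP.normSq.pow (MM (A.r g))).const_mul (((1 / RR (A.r g) ^ (2 * MM (A.r g)) : ℝ)) : ℂ)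
  have hRR : 1 ≤ RR (A.r g) := by unfold RR; linarith
  have h2 : ‖((1 / RR (A.r g) ^ (2 * MM (A.r g)) : ℝ) : ℂ)‖ ≤ 1 := by
    rw [Complex.norm_real, Real.norm_of_nonneg (by positivity)]
    rw [div_le_one (by positivity)]
    exact one_le_pow₀ hRR
  have e1 : (Real.exp (Yg A.v A.Y g) * Real.exp (Yg A.v A.Y g)) ^ MM (A.r g) =
      Real.exp (1000 * (A.r g * Yg A.v A.Y g)) := by
    rw [← Real.exp_add, ← Real.exp_nat_mul]
    congr 1
    unfold MM
    push_cast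
    ring
  rw [e1] at h1
  have h3 : Real.exp (1000 * (A.r g * Yg A.v A.Y g)) ≤ Real.exp (5000000 * (A.r g * Yg A.v A.Y g)) := by
    refine Real.exp_le_exp.mpr ?_
    have : 0 ≤ A.r g * Yg A.v A.Y g := by positivity
    linarith
  refine (h1.congr fun x => ?_).mono h3 ?_
  · unfold Par.bb bp
    rw [show lin (A.S g) (fun p => (A.h p : ℂ)) x = A.P g x from rfl]
    push_cast
    rw [div_pow, pow_mul, pow_mul]
    have : ((RR (A.r g) : ℂ) ^ 2) ^ MM (A.r g) ≠ 0 := by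
      have h0 : (RR (A.r g) : ℂ) ≠ 0 := by
        have : RR (A.r g) ≠ 0 := by positivity
        exact_mod_cast this
      positivity
    field_simp
  · have h4 := Real.exp_pos (1000 * (A.r g * Yg A.v A.Y g))
    calc ‖((1 / RR (A.r g) ^ (2 * MM (A.r g)) : ℝ) : ℂ)‖ * Real.exp (1000 * (A.r g * Yg A.v A.Y g))
        ≤ 1 * Real.exp (1000 * (A.r g * Yg A.v A.Y g)) := by gcongr
      _ ≤ _ := by rw [one_mul]; exact h3

end C4

/-- C4 -/
theorem wLen (hn : GroupNum) : WLen := by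
  intro A hA z z' μ1 μ2 hz hz' h1 h2 s hs
  have hT : ∀ g ∈ Finset.range A.J, TP (Real.exp (5000000 * (A.r g * Yg A.v A.Y g)))
      (Real.exp (5000000 * (A.r g * Yg A.v A.Y g)))
      (fun x => (if g ∈ s then 1 else GF (A.r g) (A.S g) A.h z z' μ1 μ2 x)
          * (if g ∈ s then (A.bb g x : ℂ) else 1)) := by
    intro g hg
    by_cases h : g ∈ s
    · refine (C4.bbT A hA hn (Finset.mem_range.mp hg)).congr fun x => ?_
      rw [if_pos h, if_pos h, one_mul]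
    · refine (C4.gf A hA hn (Finset.mem_range.mp hg) hz hz' h1 h2).congr fun x => ?_
      rw [if_neg h, if_neg h, mul_one]
  have h3 := TP.prod hT
  have h4 : ∏ g ∈ Finset.range A.J, Real.exp (5000000 * (A.r g * Yg A.v A.Y g)) ≤
      Real.exp (10 ^ 7 * A.v * A.Y) := by
    rw [← Real.exp_sum, ← Finset.mul_sum]
    refine Real.exp_le_exp.mpr ?_
    have := (hn A hA).2.2.2.2.2.2.1
    nlinarith
  exact h3.mono h4 h4

end Pool.Agent.Lib.GT
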