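import Mathlib
import Pool.Agent.Lib.MP_f9aece_nt_gt.Stmts

/-!
Gaussian tails of `log |zeta|`: continuity of the functions on the torus, elementary facts.
-/

set_option autoImplicit false

namespace Pool.Agent.Lib.GT

open MeasureTheory Set Filter Topology Complex ProbabilityTheory
open scoped ComplexConjugate
open Pool.Agent.Lib.MP_f9aece_nt (VV)
open Pool.Agent.Lib.J4 (Sg Yg rg Jok V2)

@[fun_prop]
lemma continuous_lin (S : Finset ℕ) (c : ℕ → ℂ) : Continuous (lin S c) := by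
  unfold lin
  exact continuous_finsetSum _ fun p _ =>
    continuous_const.mul (continuous_e1.comp (continuous_apply p))

@[fun_prop]
lemma continuous_tex (K : ℕ) : Continuous (tex K) := by
  unfold tex
  exact continuous_finsetSum _ fun k _ => (continuous_pow k).div_const _

lemma norm_lin_le (S : Finset ℕ) (c : ℕ → ℂ) (x : Om) : ‖lin S c x‖ ≤ ∑ p ∈ S, ‖c p‖ := by
  unfold lin
  refine (norm_sum_le _ _).trans (le_of_eq (Finset.sum_congr rfl fun p _ => ?_))
  rw [norm_mul, norm_e1, mul_one]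

lemma norm_tex_le (K : ℕ) (w : ℂ) : ‖tex K w‖ ≤ Real.exp ‖w‖ := by
  unfold tex
  refine (norm_sum_le _ _).trans ?_
  have h : ∀ k ∈ Finset.range (K + 1), ‖w ^ k / (k.factorial : ℂ)‖ = ‖w‖ ^ k / (k.factorial : ℝ) := by
    intro k _
    rw [norm_div, norm_pow, Complex.norm_natCast]
  rw [Finset.sum_congr rfl h]
  exact Real.sum_le_exp_of_nonneg (norm_nonneg w) (K + 1)

lemma abs_phi_le {η : ℝ} (h : |η| ≤ 1 / 2) : |phi η| ≤ 1 := by
  have h1 : η ^ 2 ≤ 1 / 4 := by
    rw [← sq_abs]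
    nlinarith [abs_nonneg η]
  have h2 := sq_nonneg η
  unfold phi
  rw [abs_of_nonneg (by positivity)]
  nlinarith

lemma phi_nonneg (η : ℝ) : 0 ≤ phi η := by unfold phi; positivity

@[fun_prop]
lemma continuous_phi : Continuous phi := by unfold phi; fun_prop

lemma ae_me {P : ℝ → Prop} (h : ∀ η, |η| ≤ 1 / 2 → P η) : ∀ᵐ η ∂me, P η := by
  unfold me
  refine (ae_restrict_iff' measurableSet_Icc).mpr (Eventually.of_forall fun η hη => h η ?_)
  rw [abs_le]
  exact ⟨by have := hη.1; linarith, hη.2⟩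

namespace Par

variable (A : Par)

@[fun_prop]
lemma continuous_P (g : ℕ) : Continuous (A.P g) := continuous_lin _ _

@[fun_prop]
lemma continuous_Pv (v : ℝ) (g : ℕ) : Continuous (A.Pv v g) := continuous_lin _ _

@[fun_prop]
lemma continuous_X (s : Finset ℕ) : Continuous (A.X s) := by
  unfold X
  exact continuous_finsetSum _ fun g _ => Complex.continuous_re.comp (A.continuous_P g)

@[fun_prop]
lemma _root_.Pool.Agent.Lib.GT.continuous_bp (r : ℕ) (S : Finset ℕ) (c : ℕ → ℂ) :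
    Continuous (bp r S c) := by
  unfold bp
  exact ((continuous_lin S c).norm.div_const _).pow _

@[fun_prop]
lemma continuous_bb (g : ℕ) : Continuous (A.bb g) := continuous_bp _ _ _

@[fun_prop]
lemma continuous_bbv (v : ℝ) (g : ℕ) : Continuous (A.bbv v g) := continuous_bp _ _ _

@[fun_prop]
lemma continuous_mo (μ : ℂ) (s : Finset ℕ) : Continuous (A.mo μ s) := by
  unfold mo
  exact continuous_finsetProd _ fun g _ => (continuous_tex _).comp
    (continuous_const.mul (A.continuous_P g))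

@[fun_prop]
lemma continuous_zz : Continuous A.zz := by
  unfold zz
  fun_prop

lemma norm_zz_le (hA : A.Ok) {η : ℝ} (h : |η| ≤ 1 / 2) : ‖A.zz η‖ ≤ 1 / 20 := by
  have h1 := hA.hbe
  have h2 := hA.hbb
  have h3 := hA.hb
  have hb0 : 0 < A.b := h1.trans_le h2
  unfold zz
  refine (norm_add_le _ _).trans ?_
  have e1' : ‖(A.be / 2 : ℂ)‖ = A.be / 2 := by
    rw [norm_div, Complex.norm_real, Real.norm_of_nonneg h1.le, Complex.norm_ofNat]
  have e2' : ‖I * (A.b * η : ℂ)‖ = A.b * |η| := by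
    rw [norm_mul, Complex.norm_I, one_mul, norm_mul, Complex.norm_real, Complex.norm_real,
      Real.norm_of_nonneg hb0.le, Real.norm_eq_abs]
  rw [e1', e2']
  nlinarith [abs_nonneg η]

/-- the integrand of `q` -/
noncomputable def qi (s : Finset ℕ) (y : ℝ) (x : Om) (η : ℝ) : ℂ :=
  (phi η : ℂ) * (cexp (-(A.zz η * y)) *
    ∏ g ∈ Finset.range A.J \ s, tex (KK (A.r g)) (A.zz η * ((A.P g x).re : ℂ)))

lemma q_eq (s : Finset ℕ) (y : ℝ) (x : Om) : A.q s y x = ∫ η, A.qi s y x η ∂me := rfl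

lemma continuous_qi (s : Finset ℕ) : Continuous fun w : ℝ × Om × ℝ => A.qi s w.1 w.2.1 w.2.2 := by
  unfold qi
  refine Continuous.mul ?_ (Continuous.mul ?_ ?_)
  · exact Complex.continuous_ofReal.comp (continuous_phi.comp (continuous_snd.comp continuous_snd))
  · refine Complex.continuous_exp.comp (Continuous.neg (Continuous.mul ?_ ?_))
    · exact A.continuous_zz.comp (continuous_snd.comp continuous_snd)
    · exact Complex.continuous_ofReal.comp continuous_fst
  · refine continuous_finsetProd _ fun g _ => (continuous_tex _).comp (Continuous.mul ?_ ?_)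
    · exact A.continuous_zz.comp (continuous_snd.comp continuous_snd)
    · exact Complex.continuous_ofReal.comp (Complex.continuous_re.comp
        ((A.continuous_P g).comp (continuous_fst.comp continuous_snd)))

/-- uniform bound of the integrand of `q` -/
lemma norm_qi_le (hA : A.Ok) (s : Finset ℕ) {y Y : ℝ} (hy : |y| ≤ Y) (x : Om) {η : ℝ}
    (hη : |η| ≤ 1 / 2) : ‖A.qi s y x η‖ ≤ Real.exp Y
        * ∏ g ∈ Finset.range A.J \ s, Real.exp (∑ p ∈ A.S g, ‖(A.h p : ℂ)‖) := by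
  have hz := A.norm_zz_le hA hη
  unfold qi
  rw [norm_mul, norm_mul, norm_prod, Complex.norm_real, Real.norm_eq_abs]
  have h6 := abs_phi_le hη
  have h7 : ‖cexp (-(A.zz η * y))‖ ≤ Real.exp Y := by
    rw [Complex.norm_exp]
    refine Real.exp_le_exp.mpr ((Complex.re_le_norm _).trans ?_)
    rw [norm_neg, norm_mul, Complex.norm_real, Real.norm_eq_abs]
    nlinarith [abs_nonneg y]
  have h8 : ∏ g ∈ Finset.range A.J \ s, ‖tex (KK (A.r g)) (A.zz η * ((A.P g x).re : ℂ))‖
      ≤ ∏ g ∈ Finset.range A.J \ s, Real.exp (∑ p ∈ A.S g, ‖(A.h p : ℂ)‖) := by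
    refine Finset.prod_le_prod (fun g _ => norm_nonneg _) fun g _ => ?_
    refine (norm_tex_le _ _).trans (Real.exp_le_exp.mpr ?_)
    rw [norm_mul, Complex.norm_real, Real.norm_eq_abs]
    have h9 := Complex.abs_re_le_norm (A.P g x)
    have h10 := norm_lin_le (A.S g) (fun p => (A.h p : ℂ)) x
    have h11 : |(A.P g x).re| ≤ ∑ p ∈ A.S g, ‖(A.h p : ℂ)‖ := h9.trans h10
    nlinarith [abs_nonneg (A.P g x).re, norm_nonneg (A.zz η)]
  calc |phi η| * (‖cexp (-(A.zz η * y))‖
        * ∏ g ∈ Finset.range A.J \ s, ‖tex (KK (A.r g)) (A.zz η * ((A.P g x).re : ℂ))‖)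
      ≤ 1 * (Real.exp Y * ∏ g ∈ Finset.range A.J \ s,
          Real.exp (∑ p ∈ A.S g, ‖(A.h p : ℂ)‖)) := by gcongr
    _ = _ := one_mul _

/-- `q` is continuous in the level and in the point -/
lemma continuous_q (hA : A.Ok) (s : Finset ℕ) : Continuous fun w : ℝ × Om => A.q s w.1 w.2 := by
  have hqi := A.continuous_qi s
  rw [continuous_iff_continuousAt]
  rintro ⟨y0, x0⟩
  refine continuousAt_of_dominated (F := fun (w : ℝ × Om) (η : ℝ) => A.qi s w.1 w.2 η) (μ := me)
    (bound := fun _ => Real.exp (|y0| + 1)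
        * ∏ g ∈ Finset.range A.J \ s, Real.exp (∑ p ∈ A.S g, ‖(A.h p : ℂ)‖)) ?_ ?_
    (integrable_const _) ?_
  · refine Eventually.of_forall fun w => Continuous.aestronglyMeasurable ?_
    exact hqi.comp (f := fun η : ℝ => ((w.1, w.2, η) : ℝ × Om × ℝ)) (by fun_prop)
  · have h1 : ∀ᶠ w : ℝ × Om in 𝓝 (y0, x0), |w.1| < |y0| + 1 := by
      have hc : Continuous fun w : ℝ × Om => |w.1| := continuous_fst.abs
      exact (hc.tendsto (y0, x0)).eventually (gt_mem_nhds (by simp))
    filter_upwards [h1] with w hw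
    exact ae_me fun η hη => A.norm_qi_le hA s hw.le w.2 hη
  · refine Eventually.of_forall fun η => Continuous.continuousAt ?_
    exact hqi.comp (f := fun w : ℝ × Om => ((w.1, w.2, η) : ℝ × Om × ℝ)) (by fun_prop)

/-- `W` is continuous in the level and in the point -/
lemma continuous_W (hA : A.Ok) (s : Finset ℕ) : Continuous fun w : ℝ × Om => A.W s w.1 w.2 := by
  unfold W
  refine (continuous_const.mul (continuous_finsetProd _ fun g _ => ?_)).mul
    ((A.continuous_q hA s).norm.pow 2)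
  exact (A.continuous_bb g).comp continuous_snd

lemma continuous_W' (hA : A.Ok) (s : Finset ℕ) (y : ℝ) : Continuous fun x : Om => A.W s y x :=
  (A.continuous_W hA s).comp (f := fun x : Om => ((y, x) : ℝ × Om)) (by fun_prop)

lemma continuous_q' (hA : A.Ok) (s : Finset ℕ) (y : ℝ) : Continuous fun x : Om => A.q s y x :=
  (A.continuous_q hA s).comp (f := fun x : Om => ((y, x) : ℝ × Om)) (by fun_prop)

lemma c0_nonneg : 0 ≤ c0 := integral_nonneg fun _ => by positivity

lemma bp_nonneg (r : ℕ) (S : Finset ℕ) (c : ℕ → ℂ) (x : Om) : 0 ≤ bp r S c x := by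
  unfold bp RR
  positivity

lemma bb_nonneg (g : ℕ) (x : Om) : 0 ≤ A.bb g x := bp_nonneg _ _ _ _

lemma W_nonneg (hb : 0 ≤ A.b) (s : Finset ℕ) (y : ℝ) (x : Om) : 0 ≤ A.W s y x := by
  unfold W
  have := c0_nonneg
  exact mul_nonneg (mul_nonneg (by positivity) (Finset.prod_nonneg fun g _ => A.bb_nonneg g x))
    (by positivity)

lemma Ok.b_pos {A : Par} (hA : A.Ok) : 0 < A.b := hA.hbe.trans_le hA.hbb

lemma Ok.G_pos {A : Par} (hA : A.Ok) (y : ℝ) : 0 < A.G y := by
  unfold G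
  have h : 0 < Real.sqrt A.s2 := Real.sqrt_pos.mpr (lt_of_lt_of_le one_pos hA.hs)
  positivity

lemma G_shift (y V : ℝ) : A.G y = A.G V * Real.exp (-(A.be * (y - V))) := by
  unfold G
  rw [mul_assoc, ← Real.exp_add]
  congr 2
  ring

/-- upper bound for `W`, uniform on the torus -/
lemma W_le (hA : A.Ok) (s : Finset ℕ) (y : ℝ) : ∃ B : ℝ, ∀ x, A.W s y x ≤ B := by
  -- every coordinate enters through `e1`, so all factors are bounded
  have hb := hA.b_pos
  have h1 : ∀ g, ∃ B : ℝ, ∀ x, A.bb g x ≤ B := by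
    intro g
    refine ⟨((∑ p ∈ A.S g, ‖(A.h p : ℂ)‖) / RR (A.r g)) ^ (2 * MM (A.r g)), fun x => ?_⟩
    unfold bb bp
    have h2 := norm_lin_le (A.S g) (fun p => (A.h p : ℂ)) x
    have h3 : 0 ≤ RR (A.r g) := by unfold RR; positivity
    gcongr
  choose B hB using h1
  have h4 : ∃ B' : ℝ, ∀ x, ‖A.q s y x‖ ≤ B' := by
    refine ⟨Real.exp |y| * ∏ g ∈ Finset.range A.J \ s, Real.exp (∑ p ∈ A.S g, ‖(A.h p : ℂ)‖),
      fun x => ?_⟩
    rw [A.q_eq]
    have h12 := norm_integral_le_of_norm_le_const (μ := me)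
      (ae_me fun η hη => A.norm_qi_le hA s (le_refl |y|) x hη)
    simpa using h12
  obtain ⟨B', hB'⟩ := h4
  refine ⟨A.b / c0 * (∏ g ∈ s, B g) * B' ^ 2, fun x => ?_⟩
  unfold W
  have hc := c0_nonneg
  have h5 : ∏ g ∈ s, A.bb g x ≤ ∏ g ∈ s, B g :=
    Finset.prod_le_prod (fun g _ => A.bb_nonneg g x) fun g _ => hB g x
  have h6 : 0 ≤ ∏ g ∈ s, A.bb g x := Finset.prod_nonneg fun g _ => A.bb_nonneg g x
  have h7 := hB' x
  have h8 : 0 ≤ ∏ g ∈ s, B g := h6.trans h5
  gcongr

end Par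

lemma lin_om_add (S : Finset ℕ) (hS : ∀ p ∈ S, p ≠ 0) (c : ℕ → ℂ) (t v : ℝ) :
    lin S c (om (t + v)) = lin S (fun p => c p * (p : ℂ) ^ (-(I * v) : ℂ)) (om t) := by
  unfold lin
  refine Finset.sum_congr rfl fun p hp => ?_
  have hp0 := hS p hp
  have hp' : (p : ℂ) ≠ 0 := by exact_mod_cast hp0
  rw [e1_om _ hp0, e1_om _ hp0, mul_assoc, ← Complex.cpow_add _ _ hp']
  congr 2
  push_cast
  ring

end Pool.Agent.Lib.GT
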