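import Mathlib
import Pool.Agent.Lib.MP_f9aece_nt_gt.Stmts

/-!
Gaussian tails of `log |zeta|`: continuity and bounds for the weights and the Euler factors on the
torus (auxiliary facts for module D6).
-/

set_option autoImplicit false

namespace Pool.Agent.Lib.GT.D6

open MeasureTheory Set Filter Topology Complex ProbabilityTheory
open scoped ComplexConjugate

lemma cont_lin (S : Finset ℕ) (c : ℕ → ℂ) : Continuous (lin S c) := by
  unfold lin
  refine continuous_finsetSum _ fun p _ => ?_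
  exact continuous_const.mul (continuous_e1.comp (continuous_apply p))

lemma norm_lin_le (S : Finset ℕ) (c : ℕ → ℂ) (x : Om) : ‖lin S c x‖ ≤ ∑ p ∈ S, ‖c p‖ := by
  unfold lin
  refine (norm_sum_le _ _).trans (Finset.sum_le_sum fun p _ => ?_)
  rw [norm_mul, norm_e1, mul_one]

lemma cont_tex (K : ℕ) : Continuous (tex K) := by
  unfold tex
  refine continuous_finsetSum _ fun k _ => ?_
  exact (continuous_pow k).div_const _

lemma norm_tex_le (K : ℕ) (w : ℂ) : ‖tex K w‖ ≤ Real.exp ‖w‖ := by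
  unfold tex
  refine (norm_sum_le _ _).trans ?_
  have h : ∀ k ∈ Finset.range (K + 1), ‖w ^ k / (k.factorial : ℂ)‖ = ‖w‖ ^ k / (k.factorial : ℝ) := by
    intro k _
    rw [norm_div, norm_pow, Complex.norm_natCast]
  rw [Finset.sum_congr rfl h]
  exact Real.sum_le_exp_of_nonneg (norm_nonneg w) (K + 1)

lemma tex_zero (K : ℕ) : tex K 0 = 1 := by
  unfold tex
  rw [Finset.sum_range_succ']
  simp

lemma phi_nonneg (η : ℝ) : 0 ≤ phi η := by unfold phi; positivity

lemma phi_le_one {η : ℝ} (h : |η| ≤ 1 / 2) : phi η ≤ 1 := by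
  unfold phi
  have h1 : η ^ 2 ≤ 1 / 4 := by
    have := sq_abs η
    have h2 : |η| ^ 2 ≤ (1 / 2) ^ 2 := pow_le_pow_left₀ (abs_nonneg _) h 2
    nlinarith
  have h2 : 0 ≤ η ^ 2 := sq_nonneg η
  have h3 : (0 : ℝ) ≤ 1 - 4 * η ^ 2 := by linarith
  have h4 : (1 : ℝ) - 4 * η ^ 2 ≤ 1 := by linarith
  exact pow_le_one₀ h3 h4

lemma cont_phi : Continuous phi := by unfold phi; fun_prop

lemma ae_me : ∀ᵐ η ∂me, |η| ≤ 1 / 2 := by
  unfold me
  refine ae_restrict_of_forall_mem measurableSet_Icc fun η hη => ?_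
  rw [abs_le]
  exact ⟨by linarith [hη.1], hη.2⟩

lemma c0_nonneg : 0 ≤ c0 := by
  unfold c0
  exact integral_nonneg fun r => by positivity

lemma norm_zz_le (A : Par) {η : ℝ} (h : |η| ≤ 1 / 2) : ‖A.zz η‖ ≤ (|A.be| + |A.b|) / 2 := by
  unfold Par.zz
  refine (norm_add_le _ _).trans ?_
  have h1 : ‖(A.be / 2 : ℂ)‖ = |A.be| / 2 := by
    rw [norm_div, Complex.norm_real, Real.norm_eq_abs]; simp
  have h2 : ‖I * (A.b * η : ℂ)‖ = |A.b| * |η| := by
    rw [norm_mul, Complex.norm_I, one_mul, norm_mul, Complex.norm_real, Complex.norm_real,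
      Real.norm_eq_abs, Real.norm_eq_abs]
  rw [h1, h2]
  have h3 : |A.b| * |η| ≤ |A.b| * (1 / 2) := mul_le_mul_of_nonneg_left h (abs_nonneg _)
  linarith

lemma cont_P (A : Par) (g : ℕ) : Continuous (A.P g) := cont_lin _ _

lemma norm_P_le (A : Par) (g : ℕ) (x : Om) : ‖A.P g x‖ ≤ ∑ p ∈ A.S g, ‖(A.h p : ℂ)‖ :=
  norm_lin_le _ _ _

/-- the bound of the integrand of `q` -/
noncomputable def qb (A : Par) (s : Finset ℕ) (y : ℝ) : ℝ :=
  Real.exp ((|A.be| + |A.b|) / 2 * |y|) *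
    ∏ g ∈ Finset.range A.J \ s, Real.exp ((|A.be| + |A.b|) / 2 * ∑ p ∈ A.S g, ‖(A.h p : ℂ)‖)

lemma norm_integrand (A : Par) (s : Finset ℕ) (y : ℝ) (x : Om) {η : ℝ} (h : |η| ≤ 1 / 2) :
    ‖(phi η : ℂ) * (cexp (-(A.zz η * y)) *
      ∏ g ∈ Finset.range A.J \ s, tex (KK (A.r g)) (A.zz η * ((A.P g x).re : ℂ)))‖ ≤ qb A s y := by
  rw [norm_mul, Complex.norm_real, Real.norm_eq_abs, abs_of_nonneg (phi_nonneg η), norm_mul, norm_prod]
  have hz := norm_zz_le A h
  have hZ : 0 ≤ (|A.be| + |A.b|) / 2 := by positivity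
  have h1 : ‖cexp (-(A.zz η * y))‖ ≤ Real.exp ((|A.be| + |A.b|) / 2 * |y|) := by
    rw [Complex.norm_exp]
    apply Real.exp_le_exp.mpr
    refine (Complex.re_le_norm _).trans ?_
    rw [norm_neg, norm_mul, Complex.norm_real, Real.norm_eq_abs]
    exact mul_le_mul_of_nonneg_right hz (abs_nonneg _)
  have h2 : ∏ g ∈ Finset.range A.J \ s, ‖tex (KK (A.r g)) (A.zz η * ((A.P g x).re : ℂ))‖
      ≤ ∏ g ∈ Finset.range A.J \ s,
        Real.exp ((|A.be| + |A.b|) / 2 * ∑ p ∈ A.S g, ‖(A.h p : ℂ)‖) := by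
    refine Finset.prod_le_prod (fun g _ => norm_nonneg _) fun g _ => ?_
    refine (norm_tex_le _ _).trans (Real.exp_le_exp.mpr ?_)
    rw [norm_mul, Complex.norm_real, Real.norm_eq_abs]
    have h3 : |(A.P g x).re| ≤ ∑ p ∈ A.S g, ‖(A.h p : ℂ)‖ :=
      (Complex.abs_re_le_norm _).trans (norm_P_le A g x)
    exact mul_le_mul hz h3 (abs_nonneg _) hZ
  have h4 : ‖cexp (-(A.zz η * y))‖ *
      ∏ g ∈ Finset.range A.J \ s, ‖tex (KK (A.r g)) (A.zz η * ((A.P g x).re : ℂ))‖ ≤ qb A s y := by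
    unfold qb
    exact mul_le_mul h1 h2 (Finset.prod_nonneg fun g _ => norm_nonneg _) (Real.exp_pos _).le
  calc phi η * (‖cexp (-(A.zz η * y))‖ *
      ∏ g ∈ Finset.range A.J \ s, ‖tex (KK (A.r g)) (A.zz η * ((A.P g x).re : ℂ))‖)
      ≤ 1 * (‖cexp (-(A.zz η * y))‖ *
      ∏ g ∈ Finset.range A.J \ s, ‖tex (KK (A.r g)) (A.zz η * ((A.P g x).re : ℂ))‖) :=
        mul_le_mul_of_nonneg_right (phi_le_one h)
          (mul_nonneg (norm_nonneg _) (Finset.prod_nonneg fun g _ => norm_nonneg _))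
    _ ≤ _ := by rw [one_mul]; exact h4

lemma cont_zz (A : Par) : Continuous A.zz := by
  unfold Par.zz
  fun_prop

lemma cont_q (A : Par) (s : Finset ℕ) (y : ℝ) : Continuous (A.q s y) := by
  unfold Par.q
  refine continuous_of_dominated (bound := fun _ => qb A s y) ?_ ?_ (integrable_const _) ?_
  · intro x
    apply Continuous.aestronglyMeasurable
    refine (Complex.continuous_ofReal.comp cont_phi).mul (Continuous.mul ?_ ?_)
    · exact Complex.continuous_exp.comp ((cont_zz A).mul continuous_const).neg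
    · refine continuous_finsetProd _ fun g _ => ?_
      exact (cont_tex _).comp ((cont_zz A).mul continuous_const)
  · intro x
    filter_upwards [ae_me] with η hη
    exact norm_integrand A s y x hη
  · refine Eventually.of_forall fun η => ?_
    refine continuous_const.mul (continuous_const.mul ?_)
    refine continuous_finsetProd _ fun g _ => ?_
    exact (cont_tex _).comp (continuous_const.mul
      (Complex.continuous_ofReal.comp (Complex.continuous_re.comp (cont_P A g))))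

lemma norm_q_le (A : Par) (s : Finset ℕ) (y : ℝ) (x : Om) : ‖A.q s y x‖ ≤ qb A s y := by
  unfold Par.q
  have h := norm_integral_le_of_norm_le_const (μ := me) (C := qb A s y)
    (f := fun η : ℝ => (phi η : ℂ) * (cexp (-(A.zz η * y)) *
      ∏ g ∈ Finset.range A.J \ s, tex (KK (A.r g)) (A.zz η * ((A.P g x).re : ℂ))))
    (by filter_upwards [ae_me] with η hη; exact norm_integrand A s y x hη)
  simpa using h

lemma W_empty (A : Par) (y : ℝ) (x : Om) : A.W ∅ y x = A.b / c0 * ‖A.q ∅ y x‖ ^ 2 := by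
  unfold Par.W
  simp

lemma cont_W (A : Par) (y : ℝ) : Continuous (A.W ∅ y) := by
  have : A.W ∅ y = fun x => A.b / c0 * ‖A.q ∅ y x‖ ^ 2 := funext fun x => W_empty A y x
  rw [this]
  exact continuous_const.mul ((cont_q A ∅ y).norm.pow 2)

lemma W_bd (A : Par) (y : ℝ) (x : Om) : |A.W ∅ y x| ≤ |A.b / c0| * qb A ∅ y ^ 2 := by
  rw [W_empty, abs_mul, abs_of_nonneg (by positivity : 0 ≤ ‖A.q ∅ y x‖ ^ 2)]
  exact mul_le_mul_of_nonneg_left (pow_le_pow_left₀ (norm_nonneg _) (norm_q_le A ∅ y x) 2)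
    (abs_nonneg _)

lemma W_nonneg {A : Par} (hb : 0 ≤ A.b) (y : ℝ) (x : Om) : 0 ≤ A.W ∅ y x := by
  rw [W_empty]
  have := c0_nonneg
  positivity

lemma cont_mo (A : Par) (μ : ℂ) (s : Finset ℕ) : Continuous (A.mo μ s) := by
  unfold Par.mo
  refine continuous_finsetProd _ fun g _ => ?_
  exact (cont_tex _).comp (continuous_const.mul (cont_P A g))

lemma mo_bd (A : Par) (μ : ℂ) (s : Finset ℕ) (x : Om) : ‖A.mo μ s x‖ ≤
    ∏ g ∈ Finset.range A.J \ s, Real.exp (‖μ‖ * ∑ p ∈ A.S g, ‖(A.h p : ℂ)‖) := by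
  unfold Par.mo
  rw [norm_prod]
  refine Finset.prod_le_prod (fun g _ => norm_nonneg _) fun g _ => ?_
  refine (norm_tex_le _ _).trans (Real.exp_le_exp.mpr ?_)
  rw [norm_mul]
  exact mul_le_mul_of_nonneg_left (norm_P_le A g x) (norm_nonneg _)

lemma mo_zero (A : Par) (s : Finset ℕ) (x : Om) : A.mo 0 s x = 1 := by
  unfold Par.mo
  refine Finset.prod_eq_one fun g _ => ?_
  rw [zero_mul, tex_zero]

/-- one Euler factor -/
noncomputable def fac (a : ℂ) (x : ℝ) : ℂ := (1 - a * e1 x)⁻¹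

lemma one_sub_ne {a : ℂ} (ha : ‖a‖ < 1) (x : ℝ) : 1 - a * e1 x ≠ 0 := by
  intro h
  have h1 : a * e1 x = 1 := (sub_eq_zero.mp h).symm
  have h2 : ‖a * e1 x‖ = ‖a‖ := by rw [norm_mul, norm_e1, mul_one]
  rw [h1, norm_one] at h2
  linarith

lemma cont_fac {a : ℂ} (ha : ‖a‖ < 1) : Continuous (fac a) := by
  unfold fac
  exact (continuous_const.sub (continuous_const.mul continuous_e1)).inv₀ fun x => one_sub_ne ha x

lemma norm_one_sub_ge (a : ℂ) (x : ℝ) : 1 - ‖a‖ ≤ ‖1 - a * e1 x‖ := by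
  have h := norm_sub_norm_le (1 : ℂ) (a * e1 x)
  rwa [norm_one, norm_mul, norm_e1, mul_one] at h

lemma norm_fac_le {a : ℂ} (ha : ‖a‖ < 1) (x : ℝ) : ‖fac a x‖ ≤ (1 - ‖a‖)⁻¹ := by
  unfold fac
  rw [norm_inv]
  exact inv_anti₀ (by linarith) (norm_one_sub_ge a x)

lemma conj_fac (a : ℂ) (x : ℝ) : conj (fac a x) = (1 - conj a * conj (e1 x))⁻¹ := by
  unfold fac
  rw [map_inv₀, map_sub, map_one, map_mul]

/-- integrability over the product of the frequencies -/
lemma integrable_me {E : Type} [NormedAddCommGroup E] {f : ℝ × ℝ → E} (hf : Continuous f) :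
    Integrable f (me.prod me) := by
  have h : me.prod me = (volume : Measure (ℝ × ℝ)).restrict
      (Icc (-(1 / 2) : ℝ) (1 / 2) ×ˢ Icc (-(1 / 2) : ℝ) (1 / 2)) := by
    unfold me
    rw [Measure.prod_restrict]
    rfl
  rw [h]
  exact hf.continuousOn.integrableOn_compact (isCompact_Icc.prod isCompact_Icc)

lemma ae_me2 : ∀ᵐ w ∂(me.prod me), |w.1| ≤ 1 / 2 ∧ |w.2| ≤ 1 / 2 := by
  have h : me.prod me = (volume : Measure (ℝ × ℝ)).restrict
      (Icc (-(1 / 2) : ℝ) (1 / 2) ×ˢ Icc (-(1 / 2) : ℝ) (1 / 2)) := by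
    unfold me
    rw [Measure.prod_restrict]
    rfl
  rw [h]
  refine ae_restrict_of_forall_mem (measurableSet_Icc.prod measurableSet_Icc) fun w hw => ?_
  obtain ⟨h1, h2⟩ := hw
  exact ⟨abs_le.mpr ⟨by linarith [h1.1], h1.2⟩, abs_le.mpr ⟨by linarith [h2.1], h2.2⟩⟩

end Pool.Agent.Lib.GT.D6
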