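import Pool.Agent.Lib.MP_f9aece_nt_gt.Stmts
import Pool.Agent.Lib.MP_f9aece_nt.TruncExp

/-!
Gaussian tails of `log |zeta|`, row C9: truncated exponentials at good points, Cauchy estimates.
-/

set_option autoImplicit false

namespace Pool.Agent.Lib.GT

open MeasureTheory Set Filter Topology Complex
open scoped ComplexConjugate
open Pool.Agent.Lib.MP_f9aece_nt (EE EE_sub_exp)

namespace C9

/-- relative error of a truncated exponential -/
lemma tex_rel (r : ℕ) {w : ℂ} (hw : ‖w‖ ≤ RR r) :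
    ‖tex (KK r) w * cexp (-w) - 1‖ ≤ Real.exp (-(r : ℝ)) := by
  have h1 : ‖w‖ ≤ ((KK r + 1 : ℕ) : ℝ) / 10 := by
    refine hw.trans ?_
    unfold RR KK
    push_cast
    have : (0 : ℝ) ≤ r := Nat.cast_nonneg r
    linarith
  have h2 : ‖cexp w - tex (KK r) w‖ ≤ 2 * (1 / 3) ^ (KK r + 1) * ‖cexp w‖ := EE_sub_exp h1
  have h3 : tex (KK r) w * cexp (-w) - 1 = -((cexp w - tex (KK r) w) * cexp (-w)) := by
    have : cexp w * cexp (-w) = 1 := by rw [← Complex.exp_add, add_neg_cancel, Complex.exp_zero]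
    linear_combination this
  rw [h3, norm_neg, norm_mul]
  have h4 : ‖cexp w‖ * ‖cexp (-w)‖ = 1 := by
    rw [← norm_mul, ← Complex.exp_add, add_neg_cancel, Complex.exp_zero, norm_one]
  have h5 : (1 / 3 : ℝ) ^ (KK r + 1) ≤ (1 / 3) * Real.exp (-(r : ℝ)) := by
    have h6 : (1 / 3 : ℝ) ^ (KK r + 1) ≤ (1 / 3) ^ (r + 1) := by
      refine pow_le_pow_of_le_one (by norm_num) (by norm_num) ?_
      unfold KK
      omega
    refine h6.trans ?_
    rw [pow_succ, mul_comm]
    refine mul_le_mul_of_nonneg_left ?_ (by norm_num)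
    have h7 : (1 / 3 : ℝ) ≤ Real.exp (-1) := by
      rw [Real.exp_neg, one_div]
      refine inv_anti₀ (Real.exp_pos 1) ?_
      have := Real.exp_one_lt_d9
      linarith
    calc (1 / 3 : ℝ) ^ r ≤ (Real.exp (-1)) ^ r := pow_le_pow_left₀ (by norm_num) h7 r
      _ = Real.exp (-(r : ℝ)) := by
          rw [← Real.exp_nat_mul]
          congr 1
          ring
  calc ‖cexp w - tex (KK r) w‖ * ‖cexp (-w)‖
      ≤ 2 * (1 / 3) ^ (KK r + 1) * ‖cexp w‖ * ‖cexp (-w)‖ :=
        mul_le_mul_of_nonneg_right h2 (norm_nonneg _)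
    _ = 2 * (1 / 3) ^ (KK r + 1) := by rw [mul_assoc, h4, mul_one]
    _ ≤ Real.exp (-(r : ℝ)) := by
        have := Real.exp_pos (-(r : ℝ))
        linarith

/-- relative error of a product over the groups -/
lemma prod_rel (A : Par) (hv : 4 ≤ A.v) {T : Finset ℕ} (hT : T ⊆ Finset.range A.J) {w : ℕ → ℂ}
    (hw : ∀ g ∈ T, ‖w g‖ ≤ RR (A.r g)) :
    ‖∏ g ∈ T, (tex (KK (A.r g)) (w g) * cexp (-(w g))) - 1‖ ≤ 4 * Real.exp (-(A.v : ℝ)) := by
  have h1 : ∏ g ∈ T, (tex (KK (A.r g)) (w g) * cexp (-(w g))) =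
      ∏ g ∈ T, (1 + (tex (KK (A.r g)) (w g) * cexp (-(w g)) - 1)) :=
    Finset.prod_congr rfl fun g _ => by ring
  rw [h1]
  refine (Finset.norm_prod_one_add_sub_one_le _ _).trans ?_
  have hv' : (4 : ℝ) ≤ A.v := by exact_mod_cast hv
  have he : Real.exp (-(A.v : ℝ)) ≤ 1 / 2 := by
    have h2 : Real.exp (-(A.v : ℝ)) ≤ Real.exp (-1) := Real.exp_le_exp.2 (by linarith)
    refine h2.trans ?_
    rw [Real.exp_neg, one_div]
    refine inv_anti₀ (by norm_num) ?_
    have := Real.exp_one_gt_d9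
    linarith
  have h0 := Real.exp_pos (-(A.v : ℝ))
  have h2 : ∑ g ∈ T, ‖tex (KK (A.r g)) (w g) * cexp (-(w g)) - 1‖ ≤ 2 * Real.exp (-(A.v : ℝ)) := by
    calc ∑ g ∈ T, ‖tex (KK (A.r g)) (w g) * cexp (-(w g)) - 1‖
        ≤ ∑ g ∈ T, Real.exp (-(A.v : ℝ)) * (1 / 2) ^ g := by
          refine Finset.sum_le_sum fun g hg => (tex_rel _ (hw g hg)).trans ?_
          have h3 : Real.exp (-((A.r g : ℕ) : ℝ)) =
              Real.exp (-(A.v : ℝ)) * (Real.exp (-(A.v : ℝ))) ^ g := by
            rw [← Real.exp_nat_mul, ← Real.exp_add]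
            congr 1
            have : (A.r g : ℕ) = A.v * (g + 1) := rfl
            rw [this]
            push_cast
            ring
          rw [h3]
          exact mul_le_mul_of_nonneg_left (pow_le_pow_left₀ h0.le he g) h0.le
      _ ≤ ∑ g ∈ Finset.range A.J, Real.exp (-(A.v : ℝ)) * (1 / 2) ^ g :=
          Finset.sum_le_sum_of_subset_of_nonneg hT fun _ _ _ => by positivity
      _ ≤ 2 * Real.exp (-(A.v : ℝ)) := by
          rw [← Finset.mul_sum, mul_comm]
          exact mul_le_mul_of_nonneg_right (sum_geometric_two_le _) h0.le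
  have h3 : Real.exp (∑ g ∈ T, ‖tex (KK (A.r g)) (w g) * cexp (-(w g)) - 1‖) ≤
      Real.exp (2 * Real.exp (-(A.v : ℝ))) := Real.exp_le_exp.2 h2
  have h4 : Real.exp (2 * Real.exp (-(A.v : ℝ))) - 1 ≤ 2 * (2 * Real.exp (-(A.v : ℝ))) := by
    have h5 := Real.exp_bound_div_one_sub_of_interval (x := 2 * Real.exp (-(A.v : ℝ)))
    set x := 2 * Real.exp (-(A.v : ℝ)) with hx
    have hx0 : 0 ≤ x := by positivity
    have hx1 : x ≤ 1 / 2 := by
      have h6 : Real.exp (-(A.v : ℝ)) ≤ Real.exp (-4) := Real.exp_le_exp.2 (by linarith)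
      have h7 : Real.exp (-4) ≤ 1 / 4 := by
        rw [Real.exp_neg, one_div]
        refine inv_anti₀ (by norm_num) ?_
        have := Real.add_one_le_exp (4 : ℝ)
        linarith
      rw [hx]
      linarith
    have h8 : Real.exp x ≤ 1 / (1 - x) := Real.exp_bound_div_one_sub_of_interval hx0 (by linarith)
    have h9 : 1 / (1 - x) ≤ 1 + 2 * x := by
      rw [div_le_iff₀ (by linarith)]
      nlinarith
    linarith
  linarith

/-- the relative error as a function of the tilt -/
noncomputable def FF (A : Par) (T : Finset ℕ) (X : ℕ → ℝ) (z : ℂ) : ℂ :=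
  ∏ g ∈ T, (tex (KK (A.r g)) (z * (X g : ℂ)) * cexp (-(z * (X g : ℂ)))) - 1

lemma FF_diff (A : Par) (T : Finset ℕ) (X : ℕ → ℝ) : Differentiable ℂ (FF A T X) := by
  unfold FF tex
  fun_prop

lemma FF_le (A : Par) (hv : 4 ≤ A.v) {T : Finset ℕ} (hT : T ⊆ Finset.range A.J) {X : ℕ → ℝ}
    (hX : ∀ g ∈ T, |X g| ≤ RR (A.r g)) {z : ℂ} (hz : ‖z‖ ≤ 1) :
    ‖FF A T X z‖ ≤ 4 * Real.exp (-(A.v : ℝ)) := by
  refine prod_rel A hv hT (w := fun g => z * (X g : ℂ)) fun g hg => ?_
  rw [norm_mul, Complex.norm_real, Real.norm_eq_abs]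
  calc ‖z‖ * |X g| ≤ 1 * |X g| := mul_le_mul_of_nonneg_right hz (abs_nonneg _)
    _ ≤ RR (A.r g) := by rw [one_mul]; exact hX g hg

lemma cauchy {f : ℂ → ℂ} (hf : Differentiable ℂ f) {M ρ δ : ℝ} (hδ : 0 < δ)
    (hM : ∀ z, ‖z‖ ≤ ρ → ‖f z‖ ≤ M) {z : ℂ} (hz : ‖z‖ ≤ ρ - δ) : ‖deriv f z‖ ≤ M / δ := by
  refine Complex.norm_deriv_le_of_forall_mem_sphere_norm_le hδ hf.diffContOnCl fun w hw => hM w ?_
  have h1 : ‖w - z‖ = δ := by simpa [dist_eq_norm] using hw
  calc ‖w‖ = ‖(w - z) + z‖ := by rw [sub_add_cancel]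
    _ ≤ ‖w - z‖ + ‖z‖ := norm_add_le _ _
    _ ≤ ρ := by rw [h1]; linarith

end C9

open C9 in
/-- C9 -/
theorem pointwise (h2 : WinDecay) : Pointwise := by
  obtain ⟨C, hC, hwin⟩ := h2
  refine ⟨C * 32 + 4, by positivity, ?_⟩
  intro A hA s hs x hx
  have hv := hA.hv
  have h0 := Real.exp_pos (-(A.v : ℝ))
  have hT : Finset.range A.J \ s ⊆ Finset.range A.J := Finset.sdiff_subset
  set T := Finset.range A.J \ s with hTdef
  constructor
  · intro y
    set X : ℕ → ℝ := fun g => (A.P g x).re with hXdef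
    have hXs : A.X s x = ∑ g ∈ T, X g := rfl
    have hX : ∀ g ∈ T, |X g| ≤ RR (A.r g) := fun g hg =>
      (Complex.abs_re_le_norm _).trans (hx g hg)
    set F := FF A T X with hF
    have hFd : Differentiable ℂ F := FF_diff A T X
    have hF'd : Differentiable ℂ (deriv F) := (hFd.contDiff (n := 2)).differentiable_deriv_two
    have hF''c : Continuous (deriv (deriv F)) := by
      have h3 : Differentiable ℂ (deriv (deriv F)) :=
        ((hF'd.contDiff (n := 2))).differentiable_deriv_two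
      exact h3.continuous
    have b0 : ∀ z : ℂ, ‖z‖ ≤ 1 → ‖F z‖ ≤ 4 * Real.exp (-(A.v : ℝ)) := fun z hz =>
      FF_le A hv hT hX hz
    have b1 : ∀ z : ℂ, ‖z‖ ≤ 1 / 2 → ‖deriv F z‖ ≤ 8 * Real.exp (-(A.v : ℝ)) := by
      intro z hz
      have := cauchy hFd (δ := 1 / 2) (by norm_num) b0 (z := z) (by linarith)
      linarith
    have b2 : ∀ z : ℂ, ‖z‖ ≤ 1 / 4 → ‖deriv (deriv F) z‖ ≤ 32 * Real.exp (-(A.v : ℝ)) := by
      intro z hz
      have := cauchy hF'd (δ := 1 / 4) (by norm_num) b1 (z := z) (by linarith)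
      linarith
    have hbe := hA.hbe
    have hbb := hA.hbb
    have hb := hA.hb
    have hb0 : 0 < A.b := lt_of_lt_of_le hbe hbb
    have hzz : ∀ η : ℝ, |η| ≤ 1 / 2 → ‖A.zz η‖ ≤ A.b := by
      intro η hη
      unfold Par.zz
      refine (norm_add_le _ _).trans ?_
      have e1 : ‖(A.be : ℂ) / 2‖ = A.be / 2 := by
        rw [norm_div, Complex.norm_real, Real.norm_of_nonneg hbe.le]
        norm_num
      have e2 : ‖I * ((A.b : ℂ) * (η : ℂ))‖ = A.b * |η| := by
        rw [norm_mul, Complex.norm_I, one_mul, norm_mul, Complex.norm_real, Complex.norm_real,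
          Real.norm_of_nonneg hb0.le, Real.norm_eq_abs]
      rw [e1, e2]
      nlinarith
    have hzd : ∀ η : ℝ, HasDerivAt A.zz (I * A.b) η := by
      intro η
      unfold Par.zz
      have h3 : HasDerivAt (fun η : ℝ => (η : ℂ)) 1 η := Complex.ofRealCLM.hasDerivAt
      have h4 := ((h3.const_mul (A.b : ℂ)).const_mul I).const_add ((A.be : ℂ) / 2)
      rw [mul_one] at h4
      exact h4
    have hzc : Continuous A.zz := by
      unfold Par.zz
      fun_prop
    have hw := hwin (fun η => F (A.zz η)) (fun η => deriv F (A.zz η) * (I * A.b))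
      (fun η => deriv (deriv F) (A.zz η) * (I * A.b) * (I * A.b)) (32 * Real.exp (-(A.v : ℝ)))
      (by positivity)
      (fun η => (hFd _).hasDerivAt.comp η (hzd η))
      (fun η => ((hF'd _).hasDerivAt.comp η (hzd η)).mul_const _)
      (((hF''c.comp hzc).mul continuous_const).mul continuous_const)
      (by
        intro η hη
        have h3 := hzz η hη
        have h4 : ‖I * (A.b : ℂ)‖ = A.b := by
          rw [norm_mul, Complex.norm_I, one_mul, Complex.norm_real, Real.norm_of_nonneg hb0.le]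
        refine ⟨?_, ?_, ?_⟩
        · have := b0 (A.zz η) (by linarith)
          linarith
        · rw [norm_mul, h4]
          have := b1 (A.zz η) (by linarith)
          have h5 := norm_nonneg (deriv F (A.zz η))
          nlinarith
        · rw [norm_mul, norm_mul, h4]
          have := b2 (A.zz η) (by linarith)
          have h5 := norm_nonneg (deriv (deriv F) (A.zz η))
          have h6 : A.b * A.b ≤ 1 := by nlinarith
          rw [mul_assoc]
          nlinarith)
      (A.b * (A.X s x - y))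
    have hφc : Continuous phi := by
      unfold phi
      fun_prop
    have hint : ∀ f : ℝ → ℂ, Continuous f → Integrable f me := by
      intro f hf
      unfold me
      exact hf.integrableOn_Icc
    have key : A.q s y x * Real.exp (-(A.be * (A.X s x - y) / 2)) - psi (A.b * (A.X s x - y)) =
        ∫ η, (phi η : ℂ) * (F (A.zz η) * cexp (I * η * (A.b * (A.X s x - y) : ℝ))) ∂me := by
      unfold Par.q psi
      rw [← integral_mul_const, ← integral_sub]
      · refine integral_congr_ae (Eventually.of_forall fun η => ?_)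
        have e1 : ∏ g ∈ T, tex (KK (A.r g)) (A.zz η * ((A.P g x).re : ℂ)) =
            (1 + F (A.zz η)) * cexp (A.zz η * (A.X s x : ℝ)) := by
          have e2 : 1 + F (A.zz η) = ∏ g ∈ T, (tex (KK (A.r g)) (A.zz η * (X g : ℂ)) *
              cexp (-(A.zz η * (X g : ℂ)))) := by
            rw [hF]
            unfold FF
            ring
          rw [e2, hXs, Complex.ofReal_sum, Finset.mul_sum, Complex.exp_sum, ← Finset.prod_mul_distrib]
          refine Finset.prod_congr rfl fun g _ => ?_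
          rw [mul_assoc, ← Complex.exp_add, neg_add_cancel, Complex.exp_zero, mul_one]
        have e3 : cexp (-(A.zz η * y)) * cexp (A.zz η * (A.X s x : ℝ)) *
            (Real.exp (-(A.be * (A.X s x - y) / 2)) : ℝ) =
            cexp (I * η * (A.b * (A.X s x - y) : ℝ)) := by
          rw [Complex.ofReal_exp, ← Complex.exp_add, ← Complex.exp_add]
          congr 1
          unfold Par.zz
          push_cast
          ring
        show (phi η : ℂ) * (cexp (-(A.zz η * y)) * ∏ g ∈ T, tex (KK (A.r g))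
          (A.zz η * ((A.P g x).re : ℂ))) * (Real.exp (-(A.be * (A.X s x - y) / 2)) : ℝ) -
          (phi η : ℂ) * cexp (I * η * (A.b * (A.X s x - y) : ℝ)) =
          (phi η : ℂ) * (F (A.zz η) * cexp (I * η * (A.b * (A.X s x - y) : ℝ)))
        rw [e1, ← e3]
        ring
      · refine (hint _ ?_).mul_const _
        unfold tex
        fun_prop
      · refine hint _ ?_
        fun_prop
    rw [key]
    refine hw.trans ?_
    rw [div_le_div_iff_of_pos_right (by positivity)]
    nlinarith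
  · have h3 : A.mo (-1) s x * cexp (∑ g ∈ T, A.P g x) - 1 =
        ∏ g ∈ T, (tex (KK (A.r g)) (-(A.P g x)) * cexp (-(-(A.P g x)))) - 1 := by
      unfold Par.mo
      rw [Complex.exp_sum, ← Finset.prod_mul_distrib]
      congr 1
      refine Finset.prod_congr rfl fun g _ => ?_
      rw [neg_one_mul, neg_neg]
    rw [h3]
    refine (prod_rel A hv hT (w := fun g => -(A.P g x)) fun g hg => ?_).trans ?_
    · rw [norm_neg]
      exact hx g hg
    · nlinarith

end Pool.Agent.Lib.GT
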