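import Mathlib
import Pool.Agent.Lib.MP_f9aece_nt_gt.Stmts

/-!
Gaussian tails of `log |zeta|` on the critical line: the statements of the modules, second part
(zeta, means over `t`, assembly).
Module `X` proves `theorem x : X`; modules using `X` take it as a hypothesis.
-/

set_option autoImplicit false

namespace Pool.Agent.Lib.GT

open MeasureTheory Set Filter Topology Complex ProbabilityTheory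
open scoped ComplexConjugate
open Pool.Agent.Lib.MP_f9aece_nt (VV)
open Pool.Agent.Lib.J4 (Sg Yg rg Jok V2)

/-! ### D: zeta and smooth sums -/

/-- D1: smooth approximate functional equation, averaged over the length -/
def SmoothAfe : Prop := ∃ C : ℝ, 0 ≤ C ∧ ∀ Λ : ℝ, 200 ≤ Λ → ∀ t : ℝ, Real.exp (9 / 10 * Λ) ≤ t →
  t ≤ 3 * Real.exp Λ → ‖riemannZeta (1 / 2 + I * t)‖ ^ 2
    ≤ C / Λ * (∫ a in (3 / 10 * Λ)..(13 / 20 * Λ), ‖SU Λ a 0 0 (om t)‖ ^ 2)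
      + C * Real.exp (-(3 / 10 * Λ))

/-- D2: the weights of the smooth sums as transforms -/
def KerRep : Prop := ∃ C : ℝ, 1 ≤ C ∧ ∀ Λ a : ℝ, 200 ≤ Λ → 3 / 10 * Λ ≤ a → a ≤ 9 / 10 * Λ →
  ∃ K : ℝ → ℂ, Continuous K ∧ (∀ u, ‖K u‖ ≤ C * kf Λ u) ∧ ∀ ξ : ℝ, 0 ≤ ξ →
    (Real.smoothTransition ((a - ξ) / (Λ / 20)) : ℂ) = ∫ u, K u * cexp (-(I * u * ξ))

/-- the integers from `2` to `e ^ a` without prime factor up to `e ^ Y` -/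
noncomputable def RoS (Y a : ℝ) : Finset ℕ :=
  (Finset.Icc 2 ⌊Real.exp a⌋₊).filter fun n => ∀ p ∈ n.primeFactors, Real.exp Y < p

/-- D3: smooth sums on the torus through Euler products -/
def SuBound : Prop := ∃ C : ℝ, 1 ≤ C ∧ ∀ A : Par, A.Ok → ∀ Λ a σ v : ℝ, 200 ≤ Λ → 3 / 10 * Λ ≤ a →
  a ≤ 9 / 10 * Λ → 0 ≤ σ → σ ≤ 1 → ∀ (f : Om → ℝ) (m g : Om → ℂ) (B : ℝ), Measurable f → Measurable m →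
  Measurable g → (∀ x, 0 ≤ f x ∧ f x ≤ B ∧ ‖m x‖ ≤ B ∧ ‖g x‖ ≤ B) →
  Dep {p : ℕ | (p : ℝ) ≤ Real.exp A.Y} f → Dep {p : ℕ | (p : ℝ) ≤ Real.exp A.Y} m →
  Dep {p : ℕ | (p : ℝ) ≤ Real.exp A.Y} g →
  ∫ x, f x * ‖SU Λ a σ v x * m x - g x‖ ^ 2 ∂mu
    ≤ C * (∫ u, kf Λ u * ∫ x, f x * ‖A.F σ (v + u) x * m x - g x‖ ^ 2 ∂mu)
      + C * (∑ n ∈ RoS A.Y a, (n : ℝ) ^ (-(1 + 2 * σ)))
        * ∫ u, kf Λ u * ∫ x, f x * (‖A.F σ (v + u) x‖ ^ 2 * ‖m x‖ ^ 2) ∂mu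

/-- D4: sums over rough numbers -/
def RoughS : Prop := ∃ C : ℝ, 1 ≤ C ∧ ∀ Y a lam : ℝ, 1 ≤ Y → Y ≤ a → 0 ≤ lam →
  ∑ n ∈ RoS Y a, (n : ℝ) ^ (-(1 : ℝ)) ≤ C * (a / Y) ∧
  (1 ≤ lam * Y → ∑ n ∈ RoS Y a, (n : ℝ) ^ (-(1 + 2 * lam)) ≤ C * Real.exp (-(2 * lam * Y)))

/-- D5: the Euler products under the tilt -/
def FBound : Prop := ∀ p0 : ℕ, 1000 ≤ p0 → ∃ C : ℝ, 1 ≤ C ∧ ∀ A : Par, A.Ok → A.p0 = p0 → ∀ y u : ℝ,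
  (∀ s : Finset ℕ, s ⊆ Finset.range A.J →
    ∫ x, A.W s y x * (‖A.F 0 u x‖ ^ 2 * ‖A.mo (-1) s x‖ ^ 2) ∂mu
      ≤ C * Real.exp (-(2 * ∑ g ∈ s, (A.r g : ℝ))) * (1 + A.lam * A.Y) ^ 17 * gr A.Y u * A.G y) ∧
  ∫ x, A.W ∅ y x * (‖A.F A.lam u x‖ ^ 2 * ‖A.mo (-1) ∅ x * A.Msm x‖ ^ 2) ∂mu ≤ C * gr A.Y u * A.G y

/-- D6: the Euler products and the mollifier under the tilt -/
def FNear : Prop := ∃ C : ℝ, 1 ≤ C ∧ ∀ p0 : ℕ, 1000 ≤ p0 → ∃ C' : ℝ, 1 ≤ C' ∧ ∀ A : Par, A.Ok →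
  A.p0 = p0 → ∀ y u : ℝ,
  ∫ x, A.W ∅ y x * ‖A.F A.lam u x * (A.mo (-1) ∅ x * A.Msm x) - 1‖ ^ 2 ∂mu
    ≤ C * (Real.exp (-A.v) + 1 / A.p0 + A.Y * |u| + C' * |u|) * gr A.Y u * A.G y

/-! ### E: means over `t` -/

/-- the polynomials are short -/
def Len (A : Par) (T : ℝ) : Prop := 10 ^ 10 * A.v * A.Y ≤ Real.log T

/-- E1: mean of the weights -/
def WMean : Prop := ∃ C T0 : ℝ, 1 ≤ C ∧ 3 ≤ T0 ∧ ∀ A : Par, A.Ok → ∀ T : ℝ, T0 ≤ T → Len A T →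
  ∀ x y : ℝ, ∀ s : Finset ℕ, s ⊆ Finset.range A.J →
  ∫⁻ t, ENNReal.ofReal (A.W s y (om t)) ∂(un x T)
    ≤ ENNReal.ofReal (C * Real.exp (-∑ g ∈ s, (A.r g : ℝ)) * A.G y)

/-- E2: asymptotics of the mean of the weights -/
def WAsym : Prop := ∃ C T0 : ℝ, 1 ≤ C ∧ 3 ≤ T0 ∧ ∀ A : Par, A.Ok → ∀ T : ℝ, T0 ≤ T → Len A T →
  ∀ x y : ℝ, |∫ t, A.W ∅ y (om t) ∂(un x T)
      - ∫ z, HH A.be A.b y z ∂(gaussianReal 0 (Real.toNNReal A.s2))|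
    ≤ C * (Real.exp (-A.v) + 1 / A.p0 + 1 / Real.sqrt T) * A.G y

/-- E3: the weights and the shifted powers -/
def WShift : Prop := ∃ C T0 : ℝ, 1 ≤ C ∧ 3 ≤ T0 ∧ ∀ A : Par, A.Ok → ∀ T : ℝ, T0 ≤ T → Len A T →
  ∀ x y w : ℝ, ∀ g < A.J, ∫⁻ t, ENNReal.ofReal (A.W ∅ y (om t) * A.bbv w g (om t)) ∂(un x T)
    ≤ ENNReal.ofReal (C * Real.exp (-(A.r g : ℝ)) * A.G y)

/-- E4: the weights and zeta on the line -/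
def LineMean : Prop := ∃ T0 : ℝ, 3 ≤ T0 ∧ ∀ p0 : ℕ, 1000 ≤ p0 → ∃ C : ℝ, 1 ≤ C ∧ ∀ A : Par, A.Ok →
  A.p0 = p0 → ∀ T : ℝ, T0 ≤ T → Len A T → ∀ x : ℝ, |x| ≤ T → ∀ y w : ℝ, |w| ≤ Real.sqrt T →
  ∀ s : Finset ℕ, s ⊆ Finset.range A.J →
  ∫⁻ t in Icc (T ^ (19 / 20 : ℝ)) (x + T), ENNReal.ofReal (A.W s y (om t) * (‖A.mo (-1) s (om t)‖ ^ 2
      * ‖riemannZeta (1 / 2 + I * (t + w : ℝ))‖ ^ 2)) ∂(un x T)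
    ≤ ENNReal.ofReal (C * (Real.log T / A.Y) * (1 + A.lam * A.Y) ^ 17 * gr (Real.log T) w
      * Real.exp (-∑ g ∈ s, (A.r g : ℝ)) * A.G y)

/-- E5: the weights and zeta near the line -/
def NearMean : Prop := ∃ C T0 : ℝ, 1 ≤ C ∧ 3 ≤ T0 ∧ ∀ p0 : ℕ, 1000 ≤ p0 → ∃ C' : ℝ, 1 ≤ C' ∧
  ∀ A : Par, A.Ok → A.p0 = p0 → ∀ T : ℝ, T0 ≤ T → Len A T → 1 ≤ A.lam * A.Y →
  20 ≤ A.lam * Real.log T → A.lam ≤ 1 / 4 → ∀ x : ℝ, |x| ≤ T → ∀ y : ℝ,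
  ∫⁻ t in Icc (T ^ (19 / 20 : ℝ)) (x + T), ENNReal.ofReal (A.W ∅ y (om t)
      * ‖riemannZeta (pt A.lam t) * (A.mo (-1) ∅ (om t) * A.Msm (om t)) - 1‖ ^ 2) ∂(un x T)
    ≤ ENNReal.ofReal ((C * (Real.exp (-A.v) + 1 / A.p0 + A.Y / Real.log T)
      + C' * (1 / Real.log T + Real.exp (-(2 * A.lam * A.Y))
        + Real.log T / A.Y * (1 + A.lam * A.Y) ^ 17 * Real.exp (-(3 / 2 * A.lam * Real.log T)))) * A.G y)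

/-- E6: the weights and the variation of the prime sum -/
def WDelta : Prop := ∃ C T0 : ℝ, 1 ≤ C ∧ 3 ≤ T0 ∧ ∀ A : Par, A.Ok → ∀ T : ℝ, T0 ≤ T → Len A T →
  ∀ x y w : ℝ,
  ∫⁻ t, ENNReal.ofReal (A.W ∅ y (om t) *
      ((lin A.U (fun p => (p : ℂ) ^ (-(1 / 2 + I * w) : ℂ) - A.h p) (om t)).re) ^ 2) ∂(un x T)
    ≤ ENNReal.ofReal (C * (1 + Real.log (1 + A.Y * |w|) + Real.log (1 + A.lam * A.Y)) ^ 2 * A.G y) ∧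
  ∫⁻ t, ENNReal.ofReal (A.W ∅ y (om t) *
      ((lin A.U (fun p => (A.h p : ℂ) * ((p : ℂ) ^ (-(I * w) : ℂ) - 1)) (om t)).re) ^ 2) ∂(un x T)
    ≤ ENNReal.ofReal (C * (1 + Real.log (1 + A.Y * |w|)) ^ 2 * A.G y)

/-! ### F: sets of `t` -/

/-- F1: from the weights to sets, above the level -/
def TiltUp : Prop := ∃ (C : ℝ) (v0 : ℕ), 1 ≤ C ∧ ∀ A : Par, A.Ok → v0 ≤ A.v → ∀ s : Finset ℕ,
  s ⊆ Finset.range A.J → ∀ (x T κ : ℝ), 0 < T → 0 ≤ κ → ∀ H : ℝ → ENNReal, Measurable H →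
  (∀ y : ℝ, ∫⁻ t, ENNReal.ofReal (A.W s y (om t)) * H t ∂(un x T) ≤ ENNReal.ofReal (κ * A.G y)) →
  ∀ V : ℝ, ∫⁻ t in {t | A.Good s (om t) ∧ A.Bad s (om t) ∧ V < A.X s (om t)}, H t ∂(un x T)
    ≤ ENNReal.ofReal (C * κ * (A.G V / A.be))

/-- F2: from the weights to sets, below the level -/
def TiltLow : Prop := ∃ (C : ℝ) (v0 : ℕ), 1 ≤ C ∧ ∀ A : Par, A.Ok → v0 ≤ A.v → 2 * A.be ≤ A.b →
  ∀ s : Finset ℕ, s ⊆ Finset.range A.J → ∀ (x T κ : ℝ), 0 < T → 0 ≤ κ → ∀ H : ℝ → ENNReal,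
  Measurable H →
  (∀ y : ℝ, ∫⁻ t, ENNReal.ofReal (A.W s y (om t)) * H t ∂(un x T) ≤ ENNReal.ofReal (κ * A.G y)) →
  ∀ V : ℝ, ∫⁻ t in {t | A.Good s (om t) ∧ A.Bad s (om t) ∧ A.X s (om t) ≤ V},
    ENNReal.ofReal (Real.exp (2 * (A.X s (om t) - V))) * H t ∂(un x T)
    ≤ ENNReal.ofReal (C * κ * (A.G V / A.b))

/-- F3: the law of the prime sum -/
def LawX : Prop := ∃ (C T0 : ℝ) (v0 : ℕ), 1 ≤ C ∧ 3 ≤ T0 ∧ ∀ A : Par, A.Ok → v0 ≤ A.v → ∀ T : ℝ,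
  T0 ≤ T → Len A T → ∀ x V r0 : ℝ, 1 ≤ r0 → A.be / A.b * r0 ≤ 1 / 2 →
  |(un x T {t | A.Good ∅ (om t) ∧ V < A.X ∅ (om t)}).toReal
      - (gaussianReal 0 (Real.toNNReal A.s2) (Ioi V)).toReal|
    ≤ C * (Real.exp (-A.v) + 1 / A.p0 + 1 / Real.sqrt T + 1 / r0 + A.be / A.b * r0) * (A.G V / A.be)

/-- F4: upper bound for the large values -/
def UpperTail : Prop := ∃ (C T0 : ℝ) (v0 : ℕ), 1 ≤ C ∧ 3 ≤ T0 ∧ ∀ p0 : ℕ, 1000 ≤ p0 →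
  ∃ C' : ℝ, 1 ≤ C' ∧ ∀ A : Par, A.Ok → v0 ≤ A.v → A.p0 = p0 → 2 * A.be ≤ A.b → ∀ T : ℝ,
  T0 ≤ T → Len A T → ∀ x V : ℝ, |x| ≤ T ^ (9 / 10 : ℝ) →
  (un x T {t | Real.exp V < ‖riemannZeta (1 / 2 + I * t)‖}).toReal
    ≤ (un x T {t | A.Good ∅ (om t) ∧ V < A.X ∅ (om t)}).toReal
      + (C * Real.exp (-A.v) + C' * (Real.log T / A.Y) * (1 + A.lam * A.Y) ^ 17 * (A.be / A.b))
        * (A.G V / A.be) + 2 * T ^ (-(1 / 20) : ℝ)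

/-! ### P: the lower bound -/

/-- truncated negative part of the logarithm -/
noncomputable def Ph (u x : ℝ) : ℝ := if x ≤ 0 then u else min u (Real.posLog x⁻¹)

/-- the angles and the shifts -/
noncomputable def ct (θ : ℝ) : ℝ := Real.cos (θ / 2) / Real.sin (θ / 2)

/-- P1: Poisson-Jensen inequality -/
def PoisJen : Prop := ∀ F : ℂ → ℂ, (∀ s : ℂ, 1 / 2 ≤ s.re → AnalyticAt ℂ F s) → ∀ K : ℝ, 0 ≤ K →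
  (∀ s : ℂ, 1 / 2 ≤ s.re → ‖F s‖ ≤ K * (1 + ‖s‖)) → ∀ δ : ℝ, 0 < δ → ∀ t : ℝ, F (pt δ t) ≠ 0 →
  ∀ u : ℝ, 0 < u →
  ∫⁻ θ in Ioo 0 (2 * Real.pi), ENNReal.ofReal (Ph u ‖F (1 / 2 + I * (t + δ * ct θ : ℝ))‖)
    ≤ (∫⁻ θ in Ioo 0 (2 * Real.pi), ENNReal.ofReal (Real.posLog ‖F (1 / 2 + I * (t + δ * ct θ : ℝ))‖))
      + ENNReal.ofReal (2 * Real.pi * Real.posLog ‖F (pt δ t)‖⁻¹)

/-- the function to which it is applied -/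
noncomputable def hs (A : Par) (s : ℂ) : ℂ :=
  Pool.Agent.Lib.MP_f9aece_nt_h40.F s
    * (∏ p ∈ (Finset.Icc 1 A.p0).filter Nat.Prime, (1 - (p : ℂ) ^ (-s)))
    * cexp (-∑ p ∈ A.U, (p : ℂ) ^ (-s))

/-- P2: its properties -/
def HsProps : Prop := ∀ A : Par, A.Ok →
  (∀ s : ℂ, 1 / 2 ≤ s.re → AnalyticAt ℂ (hs A) s) ∧
  (∃ K : ℝ, 0 ≤ K ∧ K ≤ 6 * 2 ^ A.p0 * Real.exp (2 * Real.exp A.Y) ∧
    ∀ s : ℂ, 1 / 2 ≤ s.re → ‖hs A s‖ ≤ K * (1 + ‖s‖)) ∧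
  (∀ τ : ℝ, ‖hs A (1 / 2 + I * τ)‖ ≤ ‖riemannZeta (1 / 2 + I * τ)‖ * 2 ^ A.p0
    * Real.exp (-(lin A.U (fun p => (p : ℂ) ^ (-(1 / 2) : ℂ)) (om τ)).re)) ∧
  (∀ t : ℝ, 10 ≤ t → 1 / 2 * (‖riemannZeta (pt A.lam t) * A.Msm (om t)‖
    * Real.exp (-(A.X ∅ (om t)))) ≤ ‖hs A (pt A.lam t)‖)

/-- the set of the good heights for the lower bound -/
def Th (A : Par) (x T V : ℝ) : Set ℝ := {t | t ∈ Icc (T ^ (19 / 20 : ℝ)) (x + T) ∧ A.Good ∅ (om t) ∧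
  V < A.X ∅ (om t) ∧ ‖riemannZeta (pt A.lam t) * (A.mo (-1) ∅ (om t) * A.Msm (om t)) - 1‖ ≤ 1 / 2}

/-- P3: the mean of the truncated negative part -/
def NegMean : Prop := ∃ (T0 : ℝ) (v0 : ℕ), 3 ≤ T0 ∧ ∀ p0 : ℕ, 1000 ≤ p0 → ∃ C : ℝ, 1 ≤ C ∧
  ∀ A : Par, A.Ok → v0 ≤ A.v → A.p0 = p0 → 0 < A.lam → ∀ T : ℝ, T0 ≤ T → Len A T → ∀ x : ℝ,
  |x| ≤ T ^ (9 / 10 : ℝ) → ∀ V u : ℝ, 0 < u →
  ∫⁻ t in Th A x T V, (∫⁻ θ in Ioo 0 (2 * Real.pi),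
      ENNReal.ofReal (Ph u ‖hs A (1 / 2 + I * (t + A.lam * ct θ : ℝ))‖)) ∂(un x T)
    ≤ ENNReal.ofReal (C * (1 + Real.log (1 + A.lam * Real.log T) + Real.log (Real.log T / A.Y))
      * (A.G V / A.be))

/-- P4: the lower bound -/
def LowerTail : Prop := ∃ (C T0 : ℝ) (v0 : ℕ), 1 ≤ C ∧ 3 ≤ T0 ∧ ∀ p0 : ℕ, 1000 ≤ p0 →
  ∃ C' : ℝ, 1 ≤ C' ∧ ∀ A : Par, A.Ok → v0 ≤ A.v → A.p0 = p0 → ∀ T : ℝ, T0 ≤ T → Len A T →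
  1 ≤ A.lam * A.Y → 20 ≤ A.lam * Real.log T → A.lam ≤ 1 / 100 → ∀ x : ℝ, |x| ≤ T ^ (9 / 10 : ℝ) →
  ∀ V u : ℝ, C' ≤ u →
  (un x T {t | A.Good ∅ (om t) ∧ V + 3 * u < A.X ∅ (om t)}).toReal
    ≤ (un x T {t | Real.exp V < ‖riemannZeta (1 / 2 + I * t)‖}).toReal
      + (C * (Real.exp (-A.v) + 1 / A.p0 + A.Y / Real.log T)
        + C' * (1 / Real.log T + Real.exp (-(2 * A.lam * A.Y))
          + Real.log T / A.Y * (1 + A.lam * A.Y) ^ 17 * Real.exp (-(3 / 2 * A.lam * Real.log T)))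
        + C' * (1 + Real.log (1 + A.lam * Real.log T) + Real.log (Real.log T / A.Y)) ^ 2 / u)
        * (A.G V / A.be) + 4 * T ^ (-(1 / 20) : ℝ)

/-! ### G: Gaussian tails -/

/-- the tail of the standard Gaussian law -/
noncomputable def tl (x : ℝ) : ℝ := (gaussianReal 0 1 (Ioi x)).toReal

/-- G1: elementary facts -/
def TailFacts : Prop := ∃ c C : ℝ, 0 < c ∧ 1 ≤ C ∧
  (∀ x : ℝ, 0 ≤ x → c * Real.exp (-(x ^ 2 / 2)) / (1 + x) ≤ tl x) ∧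
  (∀ x d : ℝ, 0 ≤ x → 0 ≤ d → tl x - tl (x + d) ≤ C * d * (1 + x) * tl x) ∧
  (∀ s V : ℝ, 0 < s → (gaussianReal 0 (Real.toNNReal (s ^ 2)) (Ioi V)).toReal = tl (V / s)) ∧
  Antitone tl

/-- G2: Gaussian tails of `log |zeta|` -/
def Main : Prop := ∀ ε : ℝ, 0 < ε → ∃ δ T0 : ℝ, 0 < δ ∧ ∀ x T V : ℝ, T0 ≤ T →
  |x| ≤ T ^ (9 / 10 : ℝ) → V ≤ δ * Real.log (Real.log T) →
  |(volume {u : ℝ | u ∈ Icc (0 : ℝ) 1 ∧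
      Real.exp V < ‖riemannZeta (1 / 2 + I * x + I * u * T)‖}).toReal
    - tl (V / Real.sqrt (Real.log (Real.log T) / 2))|
    ≤ ε * tl (V / Real.sqrt (Real.log (Real.log T) / 2))

end Pool.Agent.Lib.GT
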