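import Mathlib
import Pool.Agent.Lib.MP_f9aece_nt_gt.StmtsZ

/-!
Gaussian tails of `log |zeta|` on the critical line, module G1: elementary facts on the Gaussian tail.
-/

set_option autoImplicit false

namespace Pool.Agent.Lib.GT

open MeasureTheory Set Filter Topology ProbabilityTheory

/-- the density -/
theorem G1.pdf_eq (x : ℝ) : gaussianPDFReal 0 1 x = (Real.sqrt (2 * Real.pi))⁻¹ * Real.exp (-(x ^ 2 / 2)) := by
  unfold gaussianPDFReal
  simp only [NNReal.coe_one, mul_one, sub_zero]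
  congr 2
  ring

theorem G1.meas_eq (s : Set ℝ) : (gaussianReal 0 1 s).toReal = ∫ x in s, gaussianPDFReal 0 1 x := by
  rw [gaussianReal_apply_eq_integral 0 one_ne_zero, ENNReal.toReal_ofReal]
  exact integral_nonneg fun x => gaussianPDFReal_nonneg 0 1 x

theorem G1.sub_eq {x d : ℝ} (hd : 0 ≤ d) : tl x - tl (x + d) = (gaussianReal 0 1 (Ioc x (x + d))).toReal := by
  unfold tl
  have h : Ioi x = Ioc x (x + d) ∪ Ioi (x + d) := (Ioc_union_Ioi_eq_Ioi (by linarith)).symm
  rw [h, measure_union (by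
    rw [Set.disjoint_left]
    rintro y ⟨-, hy⟩ hy'
    exact absurd hy' (not_lt.mpr hy)) measurableSet_Ioi,
    ENNReal.toReal_add (measure_ne_top _ _) (measure_ne_top _ _)]
  ring

theorem G1.const_eq : Real.exp (-(3 / 2)) * (Real.sqrt (2 * Real.pi))⁻¹ > 0 := by
  positivity

theorem G1.lower {x : ℝ} (hx : 0 ≤ x) :
    (Real.exp (-(3 / 2)) * (Real.sqrt (2 * Real.pi))⁻¹) * Real.exp (-(x ^ 2 / 2)) / (1 + x) ≤ tl x := by
  have hx1 : 0 < 1 + x := by linarith
  set δ : ℝ := 1 / (1 + x) with hδ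
  have hδ0 : 0 < δ := by positivity
  have hδ1 : δ ≤ 1 := by
    rw [hδ, div_le_one hx1]; linarith
  have hxδ : x * δ ≤ 1 := by
    rw [hδ, mul_one_div, div_le_one hx1]; linarith
  have h1 : (gaussianReal 0 1 (Ioc x (x + δ))).toReal ≤ tl x := by
    unfold tl
    exact ENNReal.toReal_mono (measure_ne_top _ _) (measure_mono fun y hy => hy.1)
  refine le_trans ?_ h1
  rw [G1.meas_eq]
  have h2 : ∫ _y in Ioc x (x + δ), (Real.exp (-(3 / 2)) * (Real.sqrt (2 * Real.pi))⁻¹) *
      Real.exp (-(x ^ 2 / 2)) ≤ ∫ y in Ioc x (x + δ), gaussianPDFReal 0 1 y := by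
    refine setIntegral_mono_on ?_ (integrable_gaussianPDFReal 0 1).integrableOn measurableSet_Ioc ?_
    · exact integrableOn_const (by simp)
    · intro y hy
      rw [G1.pdf_eq]
      have h3 : y ^ 2 ≤ x ^ 2 + 3 := by
        obtain ⟨hy1, hy2⟩ := hy
        have h4 : y ^ 2 ≤ (x + δ) ^ 2 := pow_le_pow_left₀ (by linarith) hy2 2
        nlinarith
      have h5 : Real.exp (-(3 / 2)) * Real.exp (-(x ^ 2 / 2)) ≤ Real.exp (-(y ^ 2 / 2)) := by
        rw [← Real.exp_add]
        exact Real.exp_le_exp.mpr (by linarith)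
      have h6 : 0 ≤ (Real.sqrt (2 * Real.pi))⁻¹ := by positivity
      calc Real.exp (-(3 / 2)) * (Real.sqrt (2 * Real.pi))⁻¹ * Real.exp (-(x ^ 2 / 2))
          = (Real.sqrt (2 * Real.pi))⁻¹ * (Real.exp (-(3 / 2)) * Real.exp (-(x ^ 2 / 2))) := by ring
        _ ≤ _ := mul_le_mul_of_nonneg_left h5 h6
  refine le_trans (le_of_eq ?_) h2
  rw [setIntegral_const, Real.volume_real_Ioc_of_le (by linarith), smul_eq_mul, hδ]
  field_simp
  ring

theorem G1.upper {x d : ℝ} (hx : 0 ≤ x) (hd : 0 ≤ d) :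
    tl x - tl (x + d) ≤ d * ((Real.sqrt (2 * Real.pi))⁻¹ * Real.exp (-(x ^ 2 / 2))) := by
  rw [G1.sub_eq hd, G1.meas_eq]
  have h2 : ∫ y in Ioc x (x + d), gaussianPDFReal 0 1 y ≤
      ∫ _y in Ioc x (x + d), (Real.sqrt (2 * Real.pi))⁻¹ * Real.exp (-(x ^ 2 / 2)) := by
    refine setIntegral_mono_on (integrable_gaussianPDFReal 0 1).integrableOn ?_ measurableSet_Ioc ?_
    · exact integrableOn_const (by simp)
    · intro y hy
      rw [G1.pdf_eq]
      have h3 : x ^ 2 ≤ y ^ 2 := pow_le_pow_left₀ hx hy.1.le 2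
      exact mul_le_mul_of_nonneg_left (Real.exp_le_exp.mpr (by linarith)) (by positivity)
  refine h2.trans (le_of_eq ?_)
  rw [setIntegral_const, Real.volume_real_Ioc_of_le (by linarith), smul_eq_mul]
  ring

theorem G1.scale {s V : ℝ} (hs : 0 < s) :
    (gaussianReal 0 (Real.toNNReal (s ^ 2)) (Ioi V)).toReal = tl (V / s) := by
  unfold tl
  have h1 := gaussianReal_map_const_mul (μ := 0) (v := 1) s
  have h2 : gaussianReal 0 (Real.toNNReal (s ^ 2)) = (gaussianReal 0 1).map (s * ·) := by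
    rw [h1]
    congr 1
    · ring
    · ext
      simp [Real.coe_toNNReal _ (sq_nonneg s)]
  rw [h2, Measure.map_apply (measurable_const_mul s) measurableSet_Ioi]
  congr 2
  ext y
  simp only [mem_preimage, mem_Ioi]
  rw [div_lt_iff₀ hs, mul_comm]

/-- **G1** -/
theorem tailFacts : TailFacts := by
  refine ⟨Real.exp (-(3 / 2)) * (Real.sqrt (2 * Real.pi))⁻¹, Real.exp (3 / 2), G1.const_eq,
    Real.one_le_exp (by norm_num), fun x hx => G1.lower hx, fun x d hx hd => ?_,
    fun s V hs => G1.scale hs, ?_⟩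
  · refine (G1.upper hx hd).trans ?_
    have h1 := G1.lower hx
    have hx1 : 0 < 1 + x := by linarith
    rw [div_le_iff₀ hx1] at h1
    have h2 : Real.exp (3 / 2) * (Real.exp (-(3 / 2)) * (Real.sqrt (2 * Real.pi))⁻¹ *
        Real.exp (-(x ^ 2 / 2))) = (Real.sqrt (2 * Real.pi))⁻¹ * Real.exp (-(x ^ 2 / 2)) := by
      have h3 : Real.exp (3 / 2) * Real.exp (-(3 / 2)) = 1 := by
        rw [← Real.exp_add]
        norm_num
      calc _ = (Real.exp (3 / 2) * Real.exp (-(3 / 2))) * ((Real.sqrt (2 * Real.pi))⁻¹ *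
            Real.exp (-(x ^ 2 / 2))) := by ring
        _ = _ := by rw [h3, one_mul]
    calc d * ((Real.sqrt (2 * Real.pi))⁻¹ * Real.exp (-(x ^ 2 / 2)))
        = (d * Real.exp (3 / 2)) * (Real.exp (-(3 / 2)) * (Real.sqrt (2 * Real.pi))⁻¹ *
            Real.exp (-(x ^ 2 / 2))) := by rw [← h2]; ring
      _ ≤ (d * Real.exp (3 / 2)) * (tl x * (1 + x)) :=
          mul_le_mul_of_nonneg_left h1 (by positivity)
      _ = _ := by ring
  · intro x y hxy
    exact ENNReal.toReal_mono (measure_ne_top _ _) (measure_mono (Ioi_subset_Ioi hxy))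

end Pool.Agent.Lib.GT
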