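import Mathlib
import Pool.Agent.Lib.MP_f9aece_nt_gt.StmtsZ
import Pool.Agent.Lib.MP_f9aece_nt_gt.G1
import Pool.Agent.Lib.MP_f9aece_nt_gt.Cont

/-!
Gaussian tails of `log |zeta|`, module G2: the assembly (choice of the parameters).
-/

set_option autoImplicit false

namespace Pool.Agent.Lib.GT

open MeasureTheory Set Filter Topology Complex ProbabilityTheory
open Pool.Agent.Lib.J4 (Sg Yg rg Jok V2)

/-- N3 without the conditions on the tilt -/
def Variance' : Prop := ∃ C : ℝ, 0 ≤ C ∧ ∀ A : Par, 4 ≤ A.v → 1000 ≤ A.p0 → 1 ≤ A.Y →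
  Jok A.v A.p0 A.Y A.J → 0 ≤ A.lam → A.lam ≤ 1 →
  |A.vt - Real.log A.Y| ≤ C + Real.log A.p0 + C * (A.lam * A.Y)

/-! ### scaling -/

theorem vol_eq (x : ℝ) {T : ℝ} (hT : 0 < T) (P : ℂ → Prop) :
    volume {u : ℝ | u ∈ Icc (0 : ℝ) 1 ∧ P (1 / 2 + I * x + I * u * T)} =
      un x T {t | P (1 / 2 + I * t)} := by
  have h1 : {u : ℝ | u ∈ Icc (0 : ℝ) 1 ∧ P (1 / 2 + I * x + I * u * T)} =
      (fun u => u * T) ⁻¹' ((fun t => t + x) ⁻¹' ({t | P (1 / 2 + I * t)} ∩ Icc x (x + T))) := by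
    ext u
    have e : (1 / 2 + I * x + I * u * T : ℂ) = 1 / 2 + I * ((u * T + x : ℝ) : ℂ) := by
      push_cast
      ring
    constructor
    · rintro ⟨⟨h2, h3⟩, h4⟩
      refine ⟨?_, ?_, ?_⟩
      · show P _
        rw [← e]
        exact h4
      · show x ≤ u * T + x
        nlinarith
      · show u * T + x ≤ x + T
        nlinarith
    · rintro ⟨h2, h3, h4⟩
      have h3' : x ≤ u * T + x := h3
      have h4' : u * T + x ≤ x + T := h4
      refine ⟨⟨?_, ?_⟩, ?_⟩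
      · by_contra h5
        push Not at h5
        nlinarith
      · by_contra h5
        push Not at h5
        nlinarith
      · show P _
        rw [e]
        exact h2
  rw [h1, Real.volume_preimage_mul_right hT.ne', measure_preimage_add_right, abs_of_pos (inv_pos.mpr hT),
    ENNReal.ofReal_inv_of_pos hT]
  unfold un
  rw [Measure.smul_apply, Measure.restrict_apply' measurableSet_Icc, smul_eq_mul]

/-! ### the size of the windows at the optimal tilt -/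

theorem G_div {A : Par} {V : ℝ} (hs : 0 < A.s2) (hV : 0 ≤ V)
    (hbe : A.be = (V + Real.sqrt A.s2) / A.s2) :
    A.G V / A.be = Real.exp (1 / 2) *
      (Real.exp (-((V / Real.sqrt A.s2) ^ 2 / 2)) / (1 + V / Real.sqrt A.s2)) := by
  set s := Real.sqrt A.s2 with hs'
  have hs0 : 0 < s := Real.sqrt_pos.mpr hs
  have hss : A.s2 = s ^ 2 := (Real.sq_sqrt hs.le).symm
  have hVs : 0 < V + s := by linarith
  unfold Par.G
  rw [← hs', hbe, hss]
  have e1 : -((V + s) / s ^ 2 * V) + ((V + s) / s ^ 2) ^ 2 * s ^ 2 / 2 =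
      1 / 2 + -((V / s) ^ 2 / 2) := by
    field_simp
    ring
  rw [e1, Real.exp_add]
  have e2 : 1 + V / s = (V + s) / s := by
    field_simp
    ring
  rw [e2]
  field_simp

theorem G_anti {A : Par} (hbe : 0 ≤ A.be) {V V' : ℝ} (h : V ≤ V') : A.G V' ≤ A.G V := by
  unfold Par.G
  have h1 : A.be * V ≤ A.be * V' := mul_le_mul_of_nonneg_left h hbe
  gcongr

/-! ### comparison of Gaussian tails -/

theorem tl_nonneg (x : ℝ) : 0 ≤ tl x := ENNReal.toReal_nonneg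

theorem tl_cmp {C : ℝ} (hc : ∀ x d : ℝ, 0 ≤ x → 0 ≤ d → tl x - tl (x + d) ≤ C * d * (1 + x) * tl x)
    (ha : Antitone tl) {x x0 θ : ℝ} (hx : 0 ≤ x) (hx0 : 0 ≤ x0) (h1 : C * |x - x0| * (1 + x) ≤ θ)
    (h2 : C * |x - x0| * (1 + x0) ≤ θ) (hθ0 : 0 ≤ θ) (hθ : θ ≤ 1 / 2) :
    |tl x - tl x0| ≤ 2 * θ * tl x0 := by
  have n1 := tl_nonneg x
  have n2 := tl_nonneg x0
  rcases le_total x x0 with h | h
  · have h3 := hc x (x0 - x) hx (by linarith)
    rw [add_sub_cancel] at h3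
    rw [abs_sub_comm, abs_of_nonneg (by linarith : 0 ≤ x0 - x)] at h1
    have h4 : C * (x0 - x) * (1 + x) * tl x ≤ θ * tl x := mul_le_mul_of_nonneg_right h1 n1
    have h5 : tl x ≤ 2 * tl x0 := by nlinarith
    rw [abs_of_nonneg (by linarith [ha h])]
    nlinarith
  · have h3 := hc x0 (x - x0) hx0 (by linarith)
    rw [add_sub_cancel] at h3
    rw [abs_of_nonneg (by linarith : 0 ≤ x - x0)] at h2
    have h4 : C * (x - x0) * (1 + x0) * tl x0 ≤ θ * tl x0 := mul_le_mul_of_nonneg_right h2 n2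
    rw [abs_sub_comm, abs_of_nonneg (by linarith [ha h])]
    nlinarith

/-- the final computation -/
theorem core {P X X' t t' t0 g B η E1 E2 E3 τ2 τ4 : ℝ} (hη : 0 ≤ η) (hB : 1 ≤ B) (ht0 : 0 ≤ t0)
    (hg0 : 0 ≤ g) (hg : g ≤ B * t) (h1 : |X - t| ≤ E1 * g) (h1' : |X' - t'| ≤ E1 * g)
    (hE1 : E1 ≤ 5 * η) (hU : P ≤ X + E2 * g + τ2) (hE2 : E2 ≤ 2 * η) (hL : X' ≤ P + E3 * g + τ4)
    (hE3 : E3 ≤ 7 * η) (ht' : t - t' ≤ η * t) (hτ2 : τ2 ≤ η * t0) (hτ4 : τ4 ≤ η * t0)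
    (h0 : |t - t0| ≤ 2 * η * t0) (hηB : 100 * (B + 1) * η ≤ 1) :
    |P - t0| ≤ 100 * (B + 1) * η * t0 := by
  have hB0 : 0 < B := by linarith
  have hη1 : η ≤ 1 / 200 := by nlinarith
  have hBη : 0 ≤ B * η := by positivity
  have hBη1 : B * η ≤ 1 / 100 := by nlinarith
  rw [abs_le] at h0 h1 h1' ⊢
  have a1 : E1 * g ≤ 5 * η * g := mul_le_mul_of_nonneg_right hE1 hg0
  have a2 : E2 * g ≤ 2 * η * g := mul_le_mul_of_nonneg_right hE2 hg0
  have a3 : E3 * g ≤ 7 * η * g := mul_le_mul_of_nonneg_right hE3 hg0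
  have a4 : η * g ≤ B * η * t := by
    calc η * g ≤ η * (B * t) := mul_le_mul_of_nonneg_left hg hη
      _ = B * η * t := by ring
  have a5 : t ≤ (1 + 2 * η) * t0 := by linarith [h0.2]
  have a6 : (1 - 2 * η) * t0 ≤ t := by linarith [h0.1]
  have a7 : B * η * t ≤ B * η * ((1 + 2 * η) * t0) := mul_le_mul_of_nonneg_left a5 hBη
  have a8 : B * η * η * t0 ≤ B * η * t0 := by
    have : B * η * η ≤ B * η * 1 := mul_le_mul_of_nonneg_left (by linarith) hBη
    have := mul_le_mul_of_nonneg_right this ht0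
    linarith
  have a9 : B * η * t ≤ 3 * (B * η * t0) := by nlinarith
  have a10 : 0 ≤ B * η * t0 := by positivity
  have a11 : 0 ≤ η * t0 := by positivity
  have a12 : η * t ≤ 2 * (η * t0) := by nlinarith
  have e : 100 * (B + 1) * η * t0 = 100 * (B * η * t0) + 100 * (η * t0) := by ring
  rw [e]
  constructor
  · nlinarith [h1'.1]
  · nlinarith [h1.2]

/-! ### large `T` -/

theorem tendsto_loglog : Tendsto (fun T : ℝ => Real.log (Real.log T)) atTop atTop :=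
  Real.tendsto_log_atTop.comp Real.tendsto_log_atTop

theorem ev_large (T1 l0 K0 K η c : ℝ) (hη : 0 < η) (hc : 0 < c) : ∀ᶠ T : ℝ in atTop,
    T1 ≤ T ∧ l0 ≤ Real.log (Real.log T) ∧ K0 ≤ Real.log T ∧
    Real.log (Real.log T) ≤ Real.log T / 1000 ∧ K / Real.sqrt T ≤ η ∧
    4 * T ^ (-(1 / 20) : ℝ) ≤ η * (c / (2 * (Real.log T) ^ 2)) := by
  have h2 : ∀ᶠ T : ℝ in atTop, Real.log (Real.log T) ≤ Real.log T / 1000 := by
    have h3 : ∀ᶠ L : ℝ in atTop, Real.log L ≤ L / 1000 := by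
      have h4 := Real.isLittleO_log_id_atTop.bound (c := 1 / 1000) (by norm_num)
      filter_upwards [h4, eventually_ge_atTop 1] with L h5 h6
      have h7 : |Real.log L| ≤ 1 / 1000 * |L| := h5
      rw [abs_of_nonneg (by linarith : (0 : ℝ) ≤ L)] at h7
      linarith [le_abs_self (Real.log L)]
    exact Real.tendsto_log_atTop.eventually h3
  have h3 : ∀ᶠ T : ℝ in atTop, K / Real.sqrt T ≤ η := by
    have h4 : Tendsto (fun T : ℝ => K / Real.sqrt T) atTop (𝓝 0) :=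
      Real.tendsto_sqrt_atTop.const_div_atTop K
    exact (h4.eventually (gt_mem_nhds hη)).mono fun T h => h.le
  have h4 : ∀ᶠ T : ℝ in atTop, 4 * T ^ (-(1 / 20) : ℝ) ≤ η * (c / (2 * (Real.log T) ^ 2)) := by
    have h5 : ∀ᶠ L : ℝ in atTop, 4 * Real.exp (-(L / 20)) ≤ η * (c / (2 * L ^ 2)) := by
      have h6 : Tendsto (fun L : ℝ => (L / 20) ^ 2 * Real.exp (-(L / 20))) atTop (𝓝 0) :=
        (Real.tendsto_pow_mul_exp_neg_atTop_nhds_zero 2).comp
          (tendsto_id.atTop_div_const (by norm_num : (0 : ℝ) < 20))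
      have h7 : 0 < η * c / 3200 := by positivity
      filter_upwards [h6.eventually (gt_mem_nhds h7), eventually_ge_atTop 1] with L h8 h9
      have hL : 0 < L := by linarith
      rw [mul_div_assoc', le_div_iff₀ (by positivity)]
      have h10 : 4 * Real.exp (-(L / 20)) * (2 * L ^ 2) =
          3200 * ((L / 20) ^ 2 * Real.exp (-(L / 20))) := by ring
      rw [h10]
      linarith
    have h6 := Real.tendsto_log_atTop.eventually h5
    filter_upwards [h6, eventually_gt_atTop 0] with T h7 h8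
    have h9 : T ^ (-(1 / 20) : ℝ) = Real.exp (-(Real.log T / 20)) := by
      rw [Real.rpow_def_of_pos h8]
      congr 1
      ring
    rw [h9]
    exact h7
  filter_upwards [eventually_ge_atTop T1, tendsto_loglog.eventually_ge_atTop l0,
    Real.tendsto_log_atTop.eventually_ge_atTop K0, h2, h3, h4] with T a1 a3 a4 a5 a6 a7
  exact ⟨a1, a3, a4, a5, a6, a7⟩

/-! ### the choice of the parameters -/

theorem choose_v (K η : ℝ) (hη : 0 < η) (n0 : ℕ) : ∃ v : ℕ, n0 ≤ v ∧ K * Real.exp (-(v : ℝ)) ≤ η := by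
  have h1 : Tendsto (fun v : ℕ => K * Real.exp (-(v : ℝ))) atTop (𝓝 (K * 0)) := by
    refine Tendsto.const_mul K ?_
    exact Real.tendsto_exp_neg_atTop_nhds_zero.comp tendsto_natCast_atTop_atTop
  rw [mul_zero] at h1
  obtain ⟨v, h2, h3⟩ := ((h1.eventually (gt_mem_nhds hη)).and (eventually_ge_atTop n0)).exists
  exact ⟨v, h3, h2.le⟩

theorem choose_p (K η : ℝ) (hη : 0 < η) (n0 : ℕ) : ∃ p : ℕ, n0 ≤ p ∧ K * (1 / (p : ℝ)) ≤ η := by
  have h1 : Tendsto (fun v : ℕ => K * (1 / (v : ℝ))) atTop (𝓝 (K * 0)) :=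
    Tendsto.const_mul K tendsto_one_div_atTop_nhds_zero_nat
  rw [mul_zero] at h1
  obtain ⟨v, h2, h3⟩ := ((h1.eventually (gt_mem_nhds hη)).and (eventually_ge_atTop n0)).exists
  exact ⟨v, h3, h2.le⟩

theorem choose_M (K η m : ℝ) (hη : 0 < η) : ∃ M : ℝ, 1 ≤ M ∧ m ≤ M ∧ K * (1 / M) ≤ η := by
  have h1 : Tendsto (fun M : ℝ => K * (1 / M)) atTop (𝓝 (K * 0)) := by
    refine Tendsto.const_mul K ?_
    exact tendsto_const_nhds.div_atTop tendsto_id
  rw [mul_zero] at h1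
  obtain ⟨M, h2, h3, h4⟩ := ((h1.eventually (gt_mem_nhds hη)).and
    ((eventually_ge_atTop 1).and (eventually_ge_atTop m))).exists
  exact ⟨M, h3, h4, h2.le⟩

theorem choose_kap (K M η : ℝ) (hK : 0 ≤ K) (hM : 1 ≤ M) (hη : 0 < η) : ∃ κ : ℝ, 20 ≤ κ ∧
    K * Real.exp (-(2 * κ)) ≤ η ∧ K * (M * (1 + κ) ^ 17 * Real.exp (-(3 / 2 * (κ * M)))) ≤ η := by
  have h1 : Tendsto (fun κ : ℝ => K * Real.exp (-(2 * κ))) atTop (𝓝 (K * 0)) := by
    refine Tendsto.const_mul K ?_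
    exact Real.tendsto_exp_neg_atTop_nhds_zero.comp (tendsto_id.const_mul_atTop (by norm_num))
  have h2 : Tendsto (fun κ : ℝ => K * M * Real.exp 1 * ((1 + κ) ^ 17 * Real.exp (-(1 + κ)))) atTop
      (𝓝 (K * M * Real.exp 1 * 0)) := by
    refine Tendsto.const_mul _ ?_
    exact (Real.tendsto_pow_mul_exp_neg_atTop_nhds_zero 17).comp
      (tendsto_atTop_add_const_left _ _ tendsto_id)
  rw [mul_zero] at h1 h2
  obtain ⟨κ, h3, h4, h5⟩ := ((h1.eventually (gt_mem_nhds hη)).and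
    ((h2.eventually (gt_mem_nhds hη)).and (eventually_ge_atTop 20))).exists
  refine ⟨κ, h5, h3.le, le_trans ?_ h4.le⟩
  have h6 : Real.exp (-(3 / 2 * (κ * M))) ≤ Real.exp 1 * Real.exp (-(1 + κ)) := by
    rw [← Real.exp_add]
    apply Real.exp_le_exp.mpr
    nlinarith
  calc K * (M * (1 + κ) ^ 17 * Real.exp (-(3 / 2 * (κ * M))))
      ≤ K * (M * (1 + κ) ^ 17 * (Real.exp 1 * Real.exp (-(1 + κ)))) := by gcongr
    _ = _ := by ring

/-! ### elementary estimates for the two variances -/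

/-- the levels `V / s` and `V / s₀` are close; size of the tilt -/
theorem levels {V l s s0 K δ ρ Cc : ℝ} (hV : 0 ≤ V) (hl : 1 ≤ l) (hVl : V ≤ δ * l) (hδ0 : 0 ≤ δ) (hδ : δ ≤ 1)
    (hs : 0 < s) (hs0 : 0 < s0) (hs2 : l / 4 ≤ s ^ 2) (hs02 : s0 ^ 2 = l / 2)
    (hK : |s ^ 2 - s0 ^ 2| ≤ K) (hC : 0 ≤ Cc) (hρ : 0 < ρ) (hδρ : 160 * δ ≤ ρ) (hlρ : (80 / ρ) ^ 2 ≤ l) :
    Cc * |V / s - V / s0| * (1 + V / s) ≤ 12 * Cc * K * δ ∧
    Cc * |V / s - V / s0| * (1 + V / s0) ≤ 12 * Cc * K * δ ∧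
    20 * ((V + s) / s ^ 2) ≤ ρ := by
  set w := Real.sqrt l with hw
  have hw0 : 0 < w := Real.sqrt_pos.mpr (by linarith)
  have hww : w ^ 2 = l := Real.sq_sqrt (by linarith)
  have hw1 : 1 ≤ w := by
    rw [hw]
    exact Real.one_le_sqrt.mpr hl
  have h1 : w / 2 ≤ s := by
    by_contra h
    push Not at h
    nlinarith
  have h2 : w / 2 ≤ s0 := by
    by_contra h
    push Not at h
    nlinarith
  have hK0 : 0 ≤ K := (abs_nonneg _).trans hK
  have h3 : |s0 - s| ≤ K / w := by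
    have e : s ^ 2 - s0 ^ 2 = -((s0 - s) * (s + s0)) := by ring
    rw [e, abs_neg, abs_mul, abs_of_pos (by linarith : 0 < s + s0)] at hK
    rw [le_div_iff₀ hw0]
    have : |s0 - s| * w ≤ |s0 - s| * (s + s0) :=
      mul_le_mul_of_nonneg_left (by linarith) (abs_nonneg _)
    linarith
  have h4 : V / s - V / s0 = V * (s0 - s) / (s * s0) := by
    field_simp
  have h5 : |V / s - V / s0| ≤ 4 * δ * K / w := by
    rw [h4, abs_div, abs_mul, abs_of_nonneg hV, abs_of_pos (mul_pos hs hs0), div_le_iff₀ (mul_pos hs hs0)]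
    have e1 : V * |s0 - s| ≤ δ * l * (K / w) := mul_le_mul hVl h3 (abs_nonneg _) (by positivity)
    have e2 : w ^ 2 / 4 ≤ s * s0 := by
      calc w ^ 2 / 4 = (w / 2) * (w / 2) := by ring
        _ ≤ s * s0 := mul_le_mul h1 h2 (by positivity) hs.le
    have e3 : 4 * δ * K / w * (w ^ 2 / 4) ≤ 4 * δ * K / w * (s * s0) :=
      mul_le_mul_of_nonneg_left e2 (by positivity)
    have e4 : 4 * δ * K / w * (w ^ 2 / 4) = δ * l * (K / w) := by
      rw [← hww]
      field_simp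
    linarith
  have h6 : ∀ r : ℝ, 0 < r → w / 2 ≤ r → V / r ≤ 2 * w := by
    intro r hr hwr
    rw [div_le_iff₀ hr]
    have : V ≤ w ^ 2 := by
      rw [hww]
      nlinarith
    nlinarith
  have h7 : ∀ r : ℝ, 0 < r → w / 2 ≤ r → Cc * |V / s - V / s0| * (1 + V / r) ≤ 12 * Cc * K * δ := by
    intro r hr hwr
    have e1 : 1 + V / r ≤ 3 * w := by linarith [h6 r hr hwr]
    have e2 : 0 ≤ 1 + V / r := by positivity
    calc Cc * |V / s - V / s0| * (1 + V / r) ≤ Cc * (4 * δ * K / w) * (3 * w) :=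
          mul_le_mul (mul_le_mul_of_nonneg_left h5 hC) e1 e2 (by positivity)
      _ = 12 * Cc * K * δ := by
          field_simp
          ring
  refine ⟨h7 s hs h1, h7 s0 hs0 h2, ?_⟩
  have e1 : (V + s) / s ^ 2 = V / s ^ 2 + 1 / s := by
    field_simp
  have e2 : V / s ^ 2 ≤ 4 * δ := by
    rw [div_le_iff₀ (by positivity)]
    nlinarith
  have e3 : 1 / s ≤ 2 / w := by
    rw [div_le_div_iff₀ hs hw0]
    linarith
  have e4 : 80 / ρ ≤ w := by
    rw [hw]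
    exact Real.le_sqrt_of_sq_le hlρ
  have e5 : 2 / w ≤ ρ / 40 := by
    rw [div_le_iff₀ hρ] at e4
    rw [div_le_iff₀ hw0]
    linarith
  rw [e1]
  linarith

/-- lower bound for the tail at the limiting variance -/
theorem tl_low {c V l : ℝ} (hc : 0 < c)
    (hlow : ∀ x : ℝ, 0 ≤ x → c * Real.exp (-(x ^ 2 / 2)) / (1 + x) ≤ tl x) (hV : 0 ≤ V) (hl : 1 ≤ l)
    (hVl : V ≤ l) {L : ℝ} (hL : Real.log L = l) (hL0 : 0 < L) :
    c / (2 * L ^ 2) ≤ tl (V / Real.sqrt (l / 2)) := by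
  set s0 := Real.sqrt (l / 2) with hs0
  have hs0p : 0 < s0 := Real.sqrt_pos.mpr (by linarith)
  have hs02 : s0 ^ 2 = l / 2 := Real.sq_sqrt (by linarith)
  have hx : 0 ≤ V / s0 := by positivity
  refine le_trans ?_ (hlow _ hx)
  have h1 : (V / s0) ^ 2 / 2 ≤ l := by
    rw [div_pow, hs02]
    have : V ^ 2 ≤ l ^ 2 := pow_le_pow_left₀ hV hVl 2
    rw [div_div, div_le_iff₀ (by positivity)]
    nlinarith
  have h2 : 1 / L ≤ Real.exp (-((V / s0) ^ 2 / 2)) := by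
    rw [one_div, ← Real.exp_log (inv_pos.mpr hL0), Real.log_inv, hL]
    exact Real.exp_le_exp.mpr (by linarith)
  have h3 : l ≤ L - 1 := by
    rw [← hL]
    exact Real.log_le_sub_one_of_pos hL0
  have h4 : V / s0 ≤ 2 * l := by
    rw [div_le_iff₀ hs0p]
    have : 1 / 2 ≤ s0 := by
      by_contra h
      push Not at h
      nlinarith
    nlinarith
  have h5 : 1 + V / s0 ≤ 2 * L := by linarith
  rw [div_le_div_iff₀ (by positivity) (by positivity)]
  have h6 : c * (1 + V / s0) ≤ c * (2 * L) := mul_le_mul_of_nonneg_left h5 hc.le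
  have h7 : c * (1 / L) * (2 * L ^ 2) ≤ c * Real.exp (-((V / s0) ^ 2 / 2)) * (2 * L ^ 2) :=
    mul_le_mul_of_nonneg_right (mul_le_mul_of_nonneg_left h2 hc.le) (by positivity)
  have h8 : c * (1 / L) * (2 * L ^ 2) = c * (2 * L) := by
    field_simp
  linarith

/-! ### the assembly -/

theorem choose_rho {r0 a b c η : ℝ} (hr0 : 0 ≤ r0) (ha : 0 ≤ a) (hb : 0 ≤ b) (hc : 0 ≤ c) (hη : 0 < η) :
    ∃ ρ : ℝ, 0 < ρ ∧ ρ ≤ 1 / 2 ∧ ρ * r0 ≤ 1 / 2 ∧ a * ρ ≤ η ∧ b * ρ ≤ η ∧ c * ρ ≤ η := by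
  set q := 1 + 2 * r0 + a / η + b / η + c / η + 1 with hq
  have n1 : 0 ≤ a / η := by positivity
  have n2 : 0 ≤ b / η := by positivity
  have n3 : 0 ≤ c / η := by positivity
  have hq2 : 2 ≤ q := by linarith
  have hq0 : 0 < q := by linarith
  have key : ∀ a : ℝ, a / η ≤ q → a * (1 / q) ≤ η := by
    intro a ha
    rw [div_le_iff₀ hη] at ha
    rw [mul_one_div, div_le_iff₀ hq0]
    linarith
  refine ⟨1 / q, by positivity, ?_, ?_, key _ (by linarith), key _ (by linarith), key _ (by linarith)⟩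
  · rw [div_le_div_iff₀ hq0 two_pos]
    linarith
  · rw [one_div_mul_eq_div, div_le_div_iff₀ hq0 two_pos]
    linarith

theorem choose_del {ρ η a : ℝ} (hρ : 0 < ρ) (hρ1 : ρ ≤ 1 / 2) (hη : 0 < η) (ha : 0 ≤ a) :
    ∃ δ : ℝ, 0 < δ ∧ δ ≤ 1 ∧ 160 * δ ≤ ρ ∧ a * δ ≤ η := by
  refine ⟨min (ρ / 160) (η / (a + 1)), lt_min (by positivity) (by positivity), ?_, ?_, ?_⟩
  · exact (min_le_left _ _).trans (by linarith)
  · have := min_le_left (ρ / 160) (η / (a + 1))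
    linarith
  · have h1 := min_le_right (ρ / 160) (η / (a + 1))
    calc a * min (ρ / 160) (η / (a + 1))
        ≤ a * (η / (a + 1)) := mul_le_mul_of_nonneg_left h1 ha
      _ = η * (a / (a + 1)) := by ring
      _ ≤ η * 1 := by
          refine mul_le_mul_of_nonneg_left ?_ hη.le
          rw [div_le_one (by positivity)]
          linarith
      _ = η := mul_one η

/-- the variance of the prime sum -/
theorem var_bd {s2 vt l L M κ Y lam C5 P K : ℝ} (hvt : vt = 2 * s2) (hM : 1 ≤ M) (hL : 0 < L)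
    (hl : l = Real.log L) (hY : Y = L / M) (hlY : lam * Y = κ) (hP : 0 ≤ P) (hC5 : 0 ≤ C5 * κ)
    (hC : 0 ≤ C5)
    (hK : K = C5 + P + C5 * κ + Real.log M)
    (h : |vt - Real.log Y| ≤ C5 + P + C5 * (lam * Y)) : |s2 - l / 2| ≤ K := by
  have e2 : Real.log (L / M) = l - Real.log M := by
    rw [Real.log_div (by positivity) (by positivity), hl]
  have e4 := Real.log_nonneg hM
  rw [hvt, hlY, hY, e2, abs_le] at h
  rw [hK, abs_le]
  constructor
  · linarith [h.1]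
  · linarith [h.2]

theorem E1_bd {C1 S v p sT r0 q η ρ : ℝ} (hC1 : 0 ≤ C1) (hS : C1 ≤ S) (hv : S * v ≤ η)
    (hv0 : 0 ≤ v) {S' : ℝ} (hS' : C1 ≤ S') (hp0 : 0 ≤ p) (hp : S' * p ≤ η) (hT : C1 / sT ≤ η)
    (hr : C1 * (1 / r0) ≤ η) (hr0 : 0 ≤ r0) (hq : q ≤ ρ) (hρ : C1 * r0 * ρ ≤ η) :
    C1 * (v + p + 1 / sT + 1 / r0 + q * r0) ≤ 5 * η := by
  have f1 : C1 * v ≤ η := (mul_le_mul_of_nonneg_right hS hv0).trans hv
  have f2 : C1 * p ≤ η := (mul_le_mul_of_nonneg_right hS' hp0).trans hp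
  have f3 : C1 * (1 / sT) ≤ η := by
    rw [mul_one_div]
    exact hT
  have f4 : C1 * (q * r0) ≤ η := by
    have := mul_le_mul_of_nonneg_left (mul_le_mul_of_nonneg_right hq hr0) hC1
    calc C1 * (q * r0) ≤ C1 * (ρ * r0) := this
      _ = C1 * r0 * ρ := by ring
      _ ≤ η := hρ
  calc _ = C1 * v + C1 * p + C1 * (1 / sT) + C1 * (1 / r0) + C1 * (q * r0) := by ring
    _ ≤ 5 * η := by linarith only [f1, f2, f3, f4, hr]

theorem E2_bd {C2 S v D q η ρ : ℝ} (hS : C2 ≤ S) (hv : S * v ≤ η)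
    (hv0 : 0 ≤ v) (hD : 0 ≤ D) (hq : q ≤ ρ) (hρ : D * ρ ≤ η) : C2 * v + D * q ≤ 2 * η := by
  have f1 : C2 * v ≤ η := (mul_le_mul_of_nonneg_right hS hv0).trans hv
  have f2 : D * q ≤ η := (mul_le_mul_of_nonneg_left hq hD).trans hρ
  linarith only [f1, f2]

theorem E3_bd {C3 C3' S S' v p M L a b c u η : ℝ} (hS : C3 ≤ S) (hv : S * v ≤ η)
    (hv0 : 0 ≤ v) (hS' : C3 ≤ S') (hp0 : 0 ≤ p) (hp : S' * p ≤ η) (hM : C3 * (1 / M) ≤ η)
    (hη : 0 < η) (hL : 0 < L) (hL2 : C3' / η ≤ L) (ha : C3' * a ≤ η) (hb : C3' * b ≤ η)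
    (hc : C3' * c * (1 / u) ≤ η) :
    C3 * (v + p + 1 / M) + C3' * (1 / L + a + b) + C3' * c / u ≤ 7 * η := by
  have f1 : C3 * v ≤ η := (mul_le_mul_of_nonneg_right hS hv0).trans hv
  have f2 : C3 * p ≤ η := (mul_le_mul_of_nonneg_right hS' hp0).trans hp
  have f3 : C3' * (1 / L) ≤ η := by
    rw [div_le_iff₀ hη] at hL2
    rw [mul_one_div, div_le_iff₀ hL]
    linarith only [hL2]
  calc _ = C3 * v + C3 * p + C3 * (1 / M) + C3' * (1 / L) + C3' * a + C3' * b + C3' * c * (1 / u) := by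
        ring
    _ ≤ 7 * η := by linarith only [f1, f2, f3, hM, ha, hb, hc]

theorem shift_bd {C4 u V s s2 be ρ η : ℝ}
    (hcon : ∀ x d : ℝ, 0 ≤ x → 0 ≤ d → tl x - tl (x + d) ≤ C4 * d * (1 + x) * tl x) (hC4 : 0 ≤ C4)
    (hu : 0 ≤ u) (hs : 0 < s) (hV : 0 ≤ V) (hss : s ^ 2 = s2) (hbe : be = (V + s) / s2) (hbρ : be ≤ ρ)
    (hρ : 3 * u * C4 * ρ ≤ η) : tl (V / s) - tl ((V + 3 * u) / s) ≤ η * tl (V / s) := by
  have h1 := hcon (V / s) (3 * u / s) (by positivity) (by positivity)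
  rw [← add_div] at h1
  refine h1.trans (mul_le_mul_of_nonneg_right ?_ (tl_nonneg _))
  have h2 : C4 * (3 * u / s) * (1 + V / s) = 3 * u * C4 * be := by
    rw [hbe, ← hss]
    field_simp
    ring
  rw [h2]
  exact le_trans (mul_le_mul_of_nonneg_left hbρ (by positivity)) hρ

theorem win_bd {c B V s : ℝ} (hc : 0 < c)
    (hlow : ∀ x : ℝ, 0 ≤ x → c * Real.exp (-(x ^ 2 / 2)) / (1 + x) ≤ tl x)
    (hB : Real.exp (1 / 2) / c ≤ B) (hxs : 0 ≤ V / s) :
    Real.exp (1 / 2) * (Real.exp (-((V / s) ^ 2 / 2)) / (1 + V / s)) ≤ B * tl (V / s) := by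
  have h1 := hlow _ hxs
  have h2 : Real.exp (-((V / s) ^ 2 / 2)) / (1 + V / s) ≤ tl (V / s) / c := by
    rw [le_div_iff₀ hc]
    calc _ = c * Real.exp (-((V / s) ^ 2 / 2)) / (1 + V / s) := by ring
      _ ≤ _ := h1
  calc Real.exp (1 / 2) * (Real.exp (-((V / s) ^ 2 / 2)) / (1 + V / s))
      ≤ Real.exp (1 / 2) * (tl (V / s) / c) := mul_le_mul_of_nonneg_left h2 (Real.exp_pos _).le
    _ = Real.exp (1 / 2) / c * tl (V / s) := by ring
    _ ≤ B * tl (V / s) := mul_le_mul_of_nonneg_right hB (tl_nonneg _)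

theorem max4 {a b c d x : ℝ} (h : max a (max b (max c d)) ≤ x) : a ≤ x ∧ b ≤ x ∧ c ≤ x ∧ d ≤ x := by
  simpa only [max_le_iff] using h

theorem max4n {a b c d x : ℕ} (h : max a (max b (max c d)) ≤ x) : a ≤ x ∧ b ≤ x ∧ c ≤ x ∧ d ≤ x := by
  simpa only [max_le_iff] using h

/-! ### negative levels -/

theorem lip (x d : ℝ) (hd : 0 ≤ d) : tl x - tl (x + d) ≤ d := by
  rw [G1.sub_eq hd, G1.meas_eq]
  have h1 : ∀ y : ℝ, gaussianPDFReal 0 1 y ≤ 1 := by
    intro y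
    rw [G1.pdf_eq]
    have h2 : (Real.sqrt (2 * Real.pi))⁻¹ ≤ 1 := by
      apply inv_le_one_of_one_le₀
      rw [Real.one_le_sqrt]
      have := Real.pi_gt_three
      linarith
    have h3 : Real.exp (-(y ^ 2 / 2)) ≤ 1 := Real.exp_le_one_iff.mpr (by
      have := sq_nonneg y
      linarith)
    have h4 := (Real.exp_pos (-(y ^ 2 / 2))).le
    have h5 : 0 ≤ (Real.sqrt (2 * Real.pi))⁻¹ := by positivity
    nlinarith
  calc ∫ y in Ioc x (x + d), gaussianPDFReal 0 1 y ≤ ∫ y in Ioc x (x + d), (1 : ℝ) := by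
        refine setIntegral_mono_on (integrable_gaussianPDFReal 0 1).integrableOn ?_ measurableSet_Ioc ?_
        · exact integrableOn_const (by simp)
        · intro y _
          exact h1 y
    _ = d := by simp [hd]

theorem lip_abs (ha : Antitone tl) (x y : ℝ) : |tl x - tl y| ≤ |x - y| := by
  rcases le_total x y with h | h
  · have h1 := lip x (y - x) (by linarith)
    rw [add_sub_cancel] at h1
    rw [abs_of_nonneg (by linarith [ha h]), abs_sub_comm, abs_of_nonneg (by linarith)]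
    exact h1
  · have h1 := lip y (x - y) (by linarith)
    rw [add_sub_cancel] at h1
    rw [abs_sub_comm, abs_of_nonneg (by linarith [ha h]), abs_of_nonneg (by linarith)]
    exact h1

theorem tl_neg {c : ℝ} (hlow : ∀ x : ℝ, 0 ≤ x → c * Real.exp (-(x ^ 2 / 2)) / (1 + x) ≤ tl x)
    (ha : Antitone tl) {x : ℝ} (hx : x ≤ 0) : c ≤ tl x := by
  have h1 := hlow 0 le_rfl
  norm_num at h1
  exact h1.trans (ha hx)

theorem G_neg {A : Par} {V : ℝ} (hs : 0 < A.s2) (hbe : A.be = (0 + Real.sqrt A.s2) / A.s2) :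
    A.G V / A.be = Real.exp (1 / 2 - V / Real.sqrt A.s2) := by
  set s := Real.sqrt A.s2 with hs'
  have hs0 : 0 < s := Real.sqrt_pos.mpr hs
  have hss : A.s2 = s ^ 2 := (Real.sq_sqrt hs.le).symm
  unfold Par.G
  rw [← hs', hbe, hss]
  have e1 : -((0 + s) / s ^ 2 * V) + ((0 + s) / s ^ 2) ^ 2 * s ^ 2 / 2 = 1 / 2 - V / s := by
    field_simp
    ring
  rw [e1]
  field_simp
  ring

/-- levels above `- N` standard deviations -/
def MainN : Prop := ∀ ε : ℝ, 0 < ε → ∀ N : ℝ, 0 ≤ N → ∃ δ T0 : ℝ, 0 < δ ∧ ∀ x T V : ℝ, T0 ≤ T →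
  |x| ≤ T ^ (9 / 10 : ℝ) → -(N * Real.sqrt (Real.log (Real.log T) / 2)) ≤ V →
  V ≤ δ * Real.log (Real.log T) →
  |(volume {u : ℝ | u ∈ Icc (0 : ℝ) 1 ∧
      Real.exp V < ‖riemannZeta (1 / 2 + I * x + I * u * T)‖}).toReal
    - tl (V / Real.sqrt (Real.log (Real.log T) / 2))|
    ≤ ε * tl (V / Real.sqrt (Real.log (Real.log T) / 2))

/-- closeness of the two scales -/
theorem scales {l s s0 K : ℝ} (hl : 1 ≤ l) (hs : 0 < s) (hs0 : 0 < s0) (hs2 : l / 4 ≤ s ^ 2)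
    (hs02 : s0 ^ 2 = l / 2) (hK : |s ^ 2 - s0 ^ 2| ≤ K) :
    Real.sqrt l / 2 ≤ s ∧ s0 ≤ 2 * s ∧ |s0 - s| ≤ K / Real.sqrt l := by
  set w := Real.sqrt l with hw
  have hw0 : 0 < w := Real.sqrt_pos.mpr (by linarith)
  have hww : w ^ 2 = l := Real.sq_sqrt (by linarith)
  have h1 : w / 2 ≤ s := by
    by_contra h
    push Not at h
    nlinarith
  have h2 : w / 2 ≤ s0 := by
    by_contra h
    push Not at h
    nlinarith
  refine ⟨h1, ?_, ?_⟩
  · by_contra h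
    push Not at h
    nlinarith
  · have e : s ^ 2 - s0 ^ 2 = -((s0 - s) * (s + s0)) := by ring
    rw [e, abs_neg, abs_mul, abs_of_pos (by linarith : 0 < s + s0)] at hK
    rw [le_div_iff₀ hw0]
    have : |s0 - s| * w ≤ |s0 - s| * (s + s0) :=
      mul_le_mul_of_nonneg_left (by linarith) (abs_nonneg _)
    linarith

/-- negative levels: comparison of the two normalisations -/
theorem neg_cmp {c V l s s0 K η N : ℝ} (hc : 0 < c)
    (hlow : ∀ x : ℝ, 0 ≤ x → c * Real.exp (-(x ^ 2 / 2)) / (1 + x) ≤ tl x) (ha : Antitone tl)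
    (hl : 1 ≤ l) (hs : 0 < s) (hs0 : 0 < s0) (hs2 : l / 4 ≤ s ^ 2)
    (hs02 : s0 ^ 2 = l / 2) (hK : |s ^ 2 - s0 ^ 2| ≤ K) (hN : 0 ≤ N) (hVN : -(N * s0) ≤ V) (hV : V ≤ 0)
    (hη : 0 < η) (hlK : 2 * N * K / (η * c) ≤ l) :
    |tl (V / s) - tl (V / s0)| ≤ 2 * η * tl (V / s0) := by
  obtain ⟨h1, h2, h3⟩ := scales hl hs hs0 hs2 hs02 hK
  set w := Real.sqrt l with hw
  have hw0 : 0 < w := Real.sqrt_pos.mpr (by linarith)
  have hww : w ^ 2 = l := Real.sq_sqrt (by linarith)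
  have hK0 : 0 ≤ K := (abs_nonneg _).trans hK
  have h4 : |V / s - V / s0| ≤ η * c := by
    have e : V / s - V / s0 = V * (s0 - s) / (s * s0) := by field_simp
    rw [e, abs_div, abs_mul, abs_of_nonpos hV, abs_of_pos (mul_pos hs hs0), div_le_iff₀ (mul_pos hs hs0)]
    have e1 : -V * |s0 - s| ≤ N * s0 * (K / w) :=
      mul_le_mul (by linarith) h3 (abs_nonneg _) (by positivity)
    rw [div_le_iff₀ (by positivity)] at hlK
    have e2 : N * s0 * (K / w) ≤ η * c * (s * s0) := by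
      have e3 : N * K ≤ η * c * (s * w) := by
        have e4 : w ^ 2 / 2 ≤ s * w := by nlinarith
        have e5 : η * c * (w ^ 2 / 2) ≤ η * c * (s * w) := mul_le_mul_of_nonneg_left e4 (by positivity)
        rw [hww] at e5
        linarith
      calc N * s0 * (K / w) = (N * K) * (s0 / w) := by ring
        _ ≤ (η * c * (s * w)) * (s0 / w) := mul_le_mul_of_nonneg_right e3 (by positivity)
        _ = η * c * (s * s0) := by field_simp
    linarith
  have h5 := tl_neg hlow ha (x := V / s0) (div_nonpos_of_nonpos_of_nonneg hV hs0.le)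
  have h6 := lip_abs ha (V / s) (V / s0)
  have h7 : η * c ≤ η * tl (V / s0) := mul_le_mul_of_nonneg_left h5 hη.le
  have h8 : 0 ≤ η * tl (V / s0) := mul_nonneg hη.le (tl_nonneg _)
  linarith

/-- negative levels: the shift of the level -/
theorem neg_shift {c V l s s0 K η u : ℝ} (hc : 0 < c)
    (hlow : ∀ x : ℝ, 0 ≤ x → c * Real.exp (-(x ^ 2 / 2)) / (1 + x) ≤ tl x) (ha : Antitone tl)
    (hl : 1 ≤ l) (hs : 0 < s) (hs0 : 0 < s0) (hs2 : l / 4 ≤ s ^ 2)
    (hs02 : s0 ^ 2 = l / 2) (hK : |s ^ 2 - s0 ^ 2| ≤ K) (hV : V ≤ 0) (hu : 0 ≤ u)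
    (hη : 0 < η) (hlu : (6 * u / (η * c)) ^ 2 ≤ l) :
    tl (V / s) - tl ((V + 3 * u) / s) ≤ η * tl (V / s) := by
  obtain ⟨h1, -, -⟩ := scales hl hs hs0 hs2 hs02 hK
  have h2 := lip (V / s) (3 * u / s) (by positivity)
  rw [← add_div] at h2
  have h3 := tl_neg hlow ha (x := V / s) (div_nonpos_of_nonpos_of_nonneg hV hs.le)
  have h4 : 6 * u / (η * c) ≤ Real.sqrt l := Real.le_sqrt_of_sq_le hlu
  have h5 : 3 * u / s ≤ η * c := by
    rw [div_le_iff₀ hs]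
    rw [div_le_iff₀ (by positivity)] at h4
    have : η * c * (Real.sqrt l / 2) ≤ η * c * s := mul_le_mul_of_nonneg_left h1 (by positivity)
    linarith
  have h6 : η * c ≤ η * tl (V / s) := mul_le_mul_of_nonneg_left h3 hη.le
  linarith

theorem mainN (hX : LawX) (hU : UpperTail) (hL : LowerTail) (hT : TailFacts) (hV : Variance') : MainN := by
  obtain ⟨C1, T1, v1, hC1, -, hX⟩ := hX
  obtain ⟨C2, T2, v2, hC2, -, hU⟩ := hU
  obtain ⟨C3, T3, v3, hC3, -, hL⟩ := hL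
  obtain ⟨c, C4, hc, hC4, hlow, hcon, hsc, hanti⟩ := hT
  obtain ⟨C5, hC5, hV⟩ := hV
  intro ε0 hε0 N hN
  obtain ⟨B, hB1, hBc, hBN⟩ : ∃ B : ℝ, 1 ≤ B ∧ Real.exp (1 / 2) / c ≤ B ∧
      Real.exp (1 / 2 + 2 * N) / c ≤ B := by
    refine ⟨max 1 (Real.exp (1 / 2 + 2 * N) / c), le_max_left _ _, le_trans ?_ (le_max_right _ _),
      le_max_right _ _⟩
    apply div_le_div_of_nonneg_right _ hc.le
    exact Real.exp_le_exp.mpr (by linarith)
  obtain ⟨ε, hε, hεε, hε1⟩ : ∃ ε : ℝ, 0 < ε ∧ ε ≤ ε0 ∧ ε ≤ 1 :=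
    ⟨min ε0 1, lt_min hε0 one_pos, min_le_left _ _, min_le_right _ _⟩
  obtain ⟨η, hη, hηB⟩ : ∃ η : ℝ, 0 < η ∧ 100 * (B + 1) * η = ε :=
    ⟨ε / (100 * (B + 1)), by positivity, by field_simp⟩
  have hη1 : η ≤ 1 / 2 := by nlinarith only [hηB, hε1, hB1, hη]
  obtain ⟨v, hv0, hv⟩ := choose_v (C1 + C2 + C3) η hη (max 4 (max v1 (max v2 v3)))
  obtain ⟨p0, hp0, hp⟩ := choose_p (C1 + C3) η hη 1000
  obtain ⟨C2', hC2', hU⟩ := hU p0 hp0
  obtain ⟨C3', hC3', hL⟩ := hL p0 hp0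
  obtain ⟨M, hM1, hMv, hM⟩ := choose_M C3 η (10 ^ 10 * v) hη
  obtain ⟨κ, hκ, hκ1, hκ2⟩ := choose_kap C3' M η (zero_le_one.trans hC3') hM1 hη
  obtain ⟨u, hu1, hu2, hu3⟩ := choose_M (C3' * (1 + Real.log (1 + κ * M) + Real.log M) ^ 2) η C3' hη
  obtain ⟨r0, hr0, -, hr⟩ := choose_M C1 η 1 hη
  have n1 : 0 ≤ C1 := zero_le_one.trans hC1
  have n2 : 0 ≤ C2 := zero_le_one.trans hC2
  have n3 : 0 ≤ C3 := zero_le_one.trans hC3
  have n4 : 0 ≤ C4 := zero_le_one.trans hC4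
  have n2' : 0 ≤ C2' := zero_le_one.trans hC2'
  have n3' : 0 ≤ C3' := zero_le_one.trans hC3'
  have nM : 0 < M := zero_lt_one.trans_le hM1
  have nu : 0 < u := zero_lt_one.trans_le hu1
  have nr : 0 < r0 := zero_lt_one.trans_le hr0
  have nκ : 0 < κ := lt_of_lt_of_le (by norm_num) hκ
  have hκM : 20 ≤ κ * M := by nlinarith only [hκ, hM1]
  obtain ⟨hv4, hv1, hv2, hv3⟩ := max4n hv0
  clear hv0
  have k1 : C1 ≤ C1 + C2 + C3 := by linarith only [n2, n3]
  have k2 : C2 ≤ C1 + C2 + C3 := by linarith only [n1, n3]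
  have k3 : C3 ≤ C1 + C2 + C3 := by linarith only [n1, n2]
  have k4 : C1 ≤ C1 + C3 := by linarith only [n3]
  have k5 : C3 ≤ C1 + C3 := by linarith only [n1]
  have hev := (Real.exp_pos (-(v : ℝ))).le
  have hpp : (0 : ℝ) ≤ 1 / (p0 : ℝ) := by positivity
  -- the ratio of the tilt and the window
  obtain ⟨ρ, hρ0, hρ1, hρ2, hρ3, hρ4, hρ5⟩ := choose_rho (r0 := r0) (a := C1 * r0)
    (b := C2' * M * (1 + κ) ^ 17) (c := 3 * u * C4) nr.le (by positivity) (by positivity) (by positivity) hη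
  -- the difference of the variances
  obtain ⟨K, hK⟩ : ∃ K : ℝ, K = C5 + Real.log p0 + C5 * κ + Real.log M := ⟨_, rfl⟩
  have hp1 : (1 : ℝ) ≤ p0 := by exact_mod_cast (by omega : 1 ≤ p0)
  have hlp := Real.log_nonneg hp1
  have hlM := Real.log_nonneg hM1
  have hC5κ : 0 ≤ C5 * κ := by positivity
  have hK0 : 0 ≤ K := by linarith only [hK, hlp, hlM, hC5κ, hC5]
  obtain ⟨δ, hδ0, hδ1, hδρ, hδK⟩ := choose_del (a := 12 * C4 * K) hρ0 hρ1 hη (by positivity)
  obtain ⟨T0, hT0⟩ := eventually_atTop.mp (ev_large (max T1 (max T2 (max T3 3)))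
    (max (max ((80 / ρ) ^ 2) (4 * K + 4)) (max (2 * N * K / (η * c)) ((6 * u / (η * c)) ^ 2)))
    (max (100 * (κ * M)) (C3' / η)) C1 η c hη hc)
  refine ⟨δ, T0, hδ0, fun x T V hT b2 hVN hVδ => ?_⟩
  obtain ⟨b1, b3, b4, b5, b6, b7⟩ := hT0 T hT
  obtain ⟨hT1, hT2, hT3, hT4⟩ := max4 b1
  have hTp : 0 < T := lt_of_lt_of_le (by norm_num) hT4
  obtain ⟨b31, b32⟩ := max_le_iff.mp b3
  obtain ⟨hl1, hl2⟩ := max_le_iff.mp b31
  obtain ⟨hl3, hl4⟩ := max_le_iff.mp b32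
  obtain ⟨hL1, hL2⟩ := max_le_iff.mp b4
  clear hT0 b1 b3 b31 b32 b4
  obtain ⟨L, hLdef⟩ : ∃ L : ℝ, L = Real.log T := ⟨_, rfl⟩
  obtain ⟨l, hldef⟩ : ∃ l : ℝ, l = Real.log L := ⟨_, rfl⟩
  rw [← hLdef, ← hldef] at hl1 hl2 hl3 hl4 hVδ hVN
  rw [← hLdef, ← hldef] at b5
  rw [← hLdef] at hL1 hL2 b7
  rw [← hLdef, ← hldef]
  have hLp : 0 < L := by linarith only [hL1, hκM]
  have hl : 1 ≤ l := by linarith only [hl2, hK0]
  obtain ⟨V1, hV1⟩ : ∃ V1 : ℝ, V1 = max V 0 := ⟨_, rfl⟩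
  have hV10 : 0 ≤ V1 := by rw [hV1]; exact le_max_right _ _
  have hV1δ : V1 ≤ δ * l := by rw [hV1]; exact max_le hVδ (by positivity)
  have hV1l : V1 ≤ l := by nlinarith only [hV1δ, hδ1, hl]
  -- the parameters
  obtain ⟨J, hJ⟩ := Pool.Agent.Lib.J4.existsJ v p0 (by omega) (by omega) (L / M) (by positivity)
  have hY1 : 1 ≤ L / M := by
    rw [le_div_iff₀ nM]
    nlinarith only [hL1, hκ, nM]
  have hlam0 : 0 ≤ κ * M / L := by positivity
  have hlam1 : κ * M / L ≤ 1 / 100 := by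
    rw [div_le_iff₀ hLp]
    linarith only [hL1]
  have hlY : κ * M / L * (L / M) = κ := by
    field_simp
  have hLY : L / (L / M) = M := by
    field_simp
  obtain ⟨A0, hA0⟩ : ∃ A : Par, A = ⟨v, p0, J, L / M, κ * M / L, 1, 1 / 20⟩ := ⟨_, rfl⟩
  have hvar := hV A0 (by rw [hA0]; exact hv4) (by rw [hA0]; exact hp0) (by rw [hA0]; exact hY1)
    (by rw [hA0]; exact hJ) (by rw [hA0]; exact hlam0)
    (by rw [hA0]; exact hlam1.trans (by norm_num))
  have hA0p : A0.p0 = p0 := by rw [hA0]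
  have hA0Y : A0.Y = L / M := by rw [hA0]
  have hA0l : A0.lam = κ * M / L := by rw [hA0]
  rw [hA0p] at hvar
  have hs2l : |A0.s2 - l / 2| ≤ K :=
    var_bd (by unfold Par.s2; ring) hM1 hLp hldef hA0Y (by rw [hA0Y, hA0l]; exact hlY) hlp hC5κ hC5 hK hvar
  obtain ⟨s2, hs2def⟩ : ∃ s2 : ℝ, s2 = A0.s2 := ⟨_, rfl⟩
  rw [← hs2def] at hs2l
  have hs24 : l / 4 ≤ s2 := by
    have := (abs_le.mp hs2l).1
    linarith only [this, hl2, hK0]
  have hs21 : 1 ≤ s2 := by linarith only [hs24, hl2, hK0]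
  have hs2p : 0 < s2 := zero_lt_one.trans_le hs21
  obtain ⟨s, hs⟩ : ∃ s : ℝ, s = Real.sqrt s2 := ⟨_, rfl⟩
  have hsp : 0 < s := by rw [hs]; exact Real.sqrt_pos.mpr hs2p
  have hss : s ^ 2 = s2 := by rw [hs]; exact Real.sq_sqrt hs2p.le
  have hl2p : 0 < l / 2 := by linarith only [hl]
  have hs0p : 0 < Real.sqrt (l / 2) := Real.sqrt_pos.mpr hl2p
  have hs0s : Real.sqrt (l / 2) ^ 2 = l / 2 := Real.sq_sqrt hl2p.le
  obtain ⟨lev1, lev2, lev3⟩ := levels (V := V1) (l := l) (s := s) (s0 := Real.sqrt (l / 2)) (K := K) (δ := δ)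
    (ρ := ρ) (Cc := C4) hV10 hl hV1δ hδ0.le hδ1 hsp hs0p (by rw [hss]; exact hs24) hs0s
    (by rw [hss, hs0s]; exact hs2l) n4 hρ0 hδρ hl1
  obtain ⟨be, hbe⟩ : ∃ be : ℝ, be = (V1 + s) / s2 := ⟨_, rfl⟩
  have hbe0 : 0 < be := by rw [hbe]; positivity
  have hbeρ : 20 * be ≤ ρ := by rw [hbe, ← hss]; exact lev3
  have hbe1 : be ≤ ρ := by linarith only [hbeρ, hbe0]
  obtain ⟨A, hA⟩ : ∃ A : Par, A = ⟨v, p0, J, L / M, κ * M / L, be, 1 / 20⟩ := ⟨_, rfl⟩
  have hAv : A.v = v := by rw [hA]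
  have hAp : A.p0 = p0 := by rw [hA]
  have hAY : A.Y = L / M := by rw [hA]
  have hAl : A.lam = κ * M / L := by rw [hA]
  have hAbe : A.be = be := by rw [hA]
  have hAb : A.b = 1 / 20 := by rw [hA]
  have hAs : A.s2 = s2 := by rw [hA, hs2def, hA0]; rfl
  have hAJ : Jok A.v A.p0 A.Y A.J := by rw [hA]; exact hJ
  have hOk : A.Ok := by
    refine ⟨?_, ?_, ?_, hAJ, ?_, ?_, ?_, ?_, ?_, ?_⟩
    · rw [hAv]; exact hv4
    · rw [hAp]; exact hp0
    · rw [hAY]; exact hY1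
    · rw [hAl]; exact hlam0
    · rw [hAl]; exact hlam1.trans (by norm_num)
    · rw [hAbe]; exact hbe0
    · rw [hAbe, hAb]; linarith only [hbeρ, hρ1]
    · rw [hAb]
    · rw [hAs]; exact hs21
  have hbb : A.be / A.b = 20 * be := by
    rw [hAbe, hAb]
    ring
  have hLen : Len A T := by
    unfold Len
    rw [hAv, hAY, ← hLdef, mul_div_assoc', div_le_iff₀ nM]
    have := mul_le_mul_of_nonneg_right hMv hLp.le
    linarith only [this]
  -- the size of a window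
  obtain ⟨g, hg⟩ : ∃ g : ℝ, g = A.G V / A.be := ⟨_, rfl⟩
  have hg0 : 0 ≤ g := by
    rw [hg]
    exact div_nonneg (hOk.G_pos V).le hOk.hbe.le
  have hgt : g ≤ B * tl (V / s) := by
    rw [hg]
    rcases le_total 0 V with hV0 | hV0
    · have e : V1 = V := by rw [hV1]; exact max_eq_left hV0
      have h1 := G_div (A := A) (V := V) (by rw [hAs]; exact hs2p) hV0 (by rw [hAbe, hAs, ← hs, hbe, e])
      rw [h1, hAs, ← hs]
      exact win_bd hc hlow hBc (by positivity)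
    · have e : V1 = 0 := by rw [hV1]; exact max_eq_right hV0
      have h1 := G_neg (A := A) (V := V) (by rw [hAs]; exact hs2p) (by rw [hAbe, hAs, ← hs, hbe, e])
      rw [h1, hAs, ← hs]
      obtain ⟨-, sc2, -⟩ := scales (K := K) hl hsp hs0p (by rw [hss]; exact hs24) hs0s
        (by rw [hss, hs0s]; exact hs2l)
      have h2 : -(V / s) ≤ 2 * N := by
        rw [← neg_div, div_le_iff₀ hsp]
        have := mul_le_mul_of_nonneg_left sc2 hN
        linarith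
      have h3 : Real.exp (1 / 2 - V / s) ≤ Real.exp (1 / 2 + 2 * N) := Real.exp_le_exp.mpr (by linarith)
      have h4 := tl_neg hlow hanti (x := V / s) (div_nonpos_of_nonpos_of_nonneg hV0 hsp.le)
      rw [div_le_iff₀ hc] at hBN
      calc _ ≤ _ := h3
        _ ≤ B * c := hBN
        _ ≤ B * tl (V / s) := mul_le_mul_of_nonneg_left h4 (by linarith)
  have hG' : A.G (V + 3 * u) / A.be ≤ g := by
    rw [hg]
    exact div_le_div_of_nonneg_right (G_anti hOk.hbe.le (by linarith only [nu])) hOk.hbe.le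
  have hgau : ∀ W : ℝ, (gaussianReal 0 (Real.toNNReal A.s2) (Ioi W)).toReal = tl (W / s) := by
    intro W
    rw [hAs, ← hss]
    exact hsc s W hsp
  -- the law of the prime sum
  have hrr : A.be / A.b * r0 ≤ 1 / 2 := by
    rw [hbb]
    exact (mul_le_mul_of_nonneg_right hbeρ nr.le).trans hρ2
  have hX1 := hX A hOk (by rw [hAv]; exact hv1) T hT1 hLen x V r0 hr0 hrr
  have hX2 := hX A hOk (by rw [hAv]; exact hv1) T hT1 hLen x (V + 3 * u) r0 hr0 hrr
  have hU1 := hU A hOk (by rw [hAv]; exact hv2) hAp (by rw [hAbe, hAb]; linarith only [hbeρ, hρ1]) T hT2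
    hLen x V b2
  have hL1' := hL A hOk (by rw [hAv]; exact hv3) hAp T hT3 hLen
    (by rw [hAl, hAY, hlY]; linarith only [hκ])
    (by rw [hAl, ← hLdef, div_mul_cancel₀ _ hLp.ne']; exact hκM) (by rw [hAl]; exact hlam1) x b2 V u hu2
  rw [hgau] at hX1 hX2
  rw [hAv, hAp, hbb, ← hg] at hX1
  rw [hAv, hAp, hbb] at hX2
  rw [hAv, hbb, ← hg, hAY, ← hLdef, hLY, hAl, hlY] at hU1
  rw [hAv, hAp, ← hg, hAY, ← hLdef, hLY, hAl, mul_assoc 2 (κ * M / L) (L / M), hlY] at hL1'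
  have e1 : L / M / L = 1 / M := by field_simp
  have e2 : κ * M / L * L = κ * M := by field_simp
  have e3 : 3 / 2 * (κ * M / L) * L = 3 / 2 * (κ * M) := by field_simp
  rw [e1, e2, e3] at hL1'
  have hvol := vol_eq x hTp (fun z => Real.exp V < ‖riemannZeta z‖)
  rw [hvol]
  obtain ⟨t0, ht0⟩ : ∃ t0 : ℝ, t0 = tl (V / Real.sqrt (l / 2)) := ⟨_, rfl⟩
  have hlow0 : c / (2 * L ^ 2) ≤ tl (V / Real.sqrt (l / 2)) := by
    have h1 := tl_low hc hlow hV10 hl hV1l hldef.symm hLp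
    refine h1.trans (hanti ?_)
    apply div_le_div_of_nonneg_right _ hs0p.le
    rw [hV1]
    exact le_max_left _ _
  rw [← ht0] at hlow0 ⊢
  have ht00 : 0 ≤ t0 := by rw [ht0]; exact tl_nonneg _
  have b8 : 4 * T ^ (-(1 / 20) : ℝ) ≤ η * t0 := b7.trans (mul_le_mul_of_nonneg_left hlow0 hη.le)
  have b9 : 0 ≤ T ^ (-(1 / 20) : ℝ) := Real.rpow_nonneg hTp.le _
  have b10 : 2 * T ^ (-(1 / 20) : ℝ) ≤ η * t0 := by linarith only [b8, b9]
  have hE1 := E1_bd (C1 := C1) (v := Real.exp (-(v : ℝ))) (p := 1 / (p0 : ℝ)) (q := 20 * be) n1 k1 hv hev k4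
    hpp hp b6 hr nr.le hbeρ hρ3
  have hE2 := E2_bd (C2 := C2) (v := Real.exp (-(v : ℝ))) (D := C2' * M * (1 + κ) ^ 17) (q := 20 * be) k2 hv
    hev (by positivity) hbeρ hρ4
  have hE3 := E3_bd (C3 := C3) (v := Real.exp (-(v : ℝ))) (p := 1 / (p0 : ℝ)) k3 hv hev k5 hpp hp hM hη hLp
    hL2 hκ1 hκ2 hu3
  -- the shift of the level
  have htt : tl (V / s) - tl ((V + 3 * u) / s) ≤ η * tl (V / s) := by
    rcases le_total 0 V with hV0 | hV0
    · have e : V1 = V := by rw [hV1]; exact max_eq_left hV0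
      exact shift_bd hcon n4 nu.le hsp hV0 hss (by rw [hbe, e]) hbe1 hρ5
    · exact neg_shift (K := K) hc hlow hanti hl hsp hs0p (by rw [hss]; exact hs24) hs0s
        (by rw [hss, hs0s]; exact hs2l) hV0 nu.le hη hl4
  have h0 : |tl (V / s) - tl (V / Real.sqrt (l / 2))| ≤ 2 * η * tl (V / Real.sqrt (l / 2)) := by
    rcases le_total 0 V with hV0 | hV0
    · have e : V1 = V := by rw [hV1]; exact max_eq_left hV0
      rw [e] at lev1 lev2
      exact tl_cmp hcon hanti (by positivity) (by positivity) (lev1.trans hδK) (lev2.trans hδK) hη.le hη1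
    · exact neg_cmp (K := K) hc hlow hanti hl hsp hs0p (by rw [hss]; exact hs24) hs0s
        (by rw [hss, hs0s]; exact hs2l) hN hVN hV0 hη hl3
  rw [← ht0] at h0
  have hfin := core (P := (un x T {t | Real.exp V < ‖riemannZeta (1 / 2 + I * t)‖}).toReal)
    (τ2 := 2 * T ^ (-(1 / 20) : ℝ)) (τ4 := 4 * T ^ (-(1 / 20) : ℝ)) (t0 := t0) (t := tl (V / s)) hη.le hB1
    ht00 hg0 hgt hX1 (hX2.trans (mul_le_mul_of_nonneg_left hG' (by positivity))) hE1 hU1 hE2 hL1' hE3 htt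
    b10 b8 h0 (by rw [hηB]; exact hε1)
  rw [hηB] at hfin
  exact hfin.trans (mul_le_mul_of_nonneg_right hεε ht00)

theorem tl_le_one (x : ℝ) : tl x ≤ 1 := by
  unfold tl
  have h1 : gaussianReal 0 1 (Ioi x) ≤ 1 := prob_le_one
  calc _ ≤ (1 : ENNReal).toReal := ENNReal.toReal_mono ENNReal.one_ne_top h1
    _ = 1 := ENNReal.toReal_one

theorem tl_near_one (ε : ℝ) (hε : 0 < ε) : ∃ N : ℝ, 0 ≤ N ∧ 1 - ε ≤ tl (-N) := by
  have h1 : Tendsto (fun n : ℕ => gaussianReal 0 1 (Ioi (-(n : ℝ)))) atTop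
      (𝓝 (gaussianReal 0 1 (⋃ n : ℕ, Ioi (-(n : ℝ))))) := by
    apply tendsto_measure_iUnion_atTop
    intro m n hmn
    apply Ioi_subset_Ioi
    have : (m : ℝ) ≤ n := by exact_mod_cast hmn
    linarith
  have h2 : (⋃ n : ℕ, Ioi (-(n : ℝ))) = univ := by
    apply eq_univ_of_forall
    intro y
    obtain ⟨n, hn⟩ := exists_nat_gt (-y)
    refine mem_iUnion.mpr ⟨n, ?_⟩
    show -(n : ℝ) < y
    linarith
  rw [h2, measure_univ] at h1
  have h3 : Tendsto (fun n : ℕ => tl (-(n : ℝ))) atTop (𝓝 1) := by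
    have := (ENNReal.tendsto_toReal ENNReal.one_ne_top).comp h1
    rwa [ENNReal.toReal_one] at this
  obtain ⟨n, hn⟩ := (h3.eventually (lt_mem_nhds (show (1 : ℝ) - ε < 1 by linarith))).exists
  exact ⟨n, Nat.cast_nonneg n, hn.le⟩

/-- **Gaussian tails of `log |zeta|`** -/
theorem main (hX : LawX) (hU : UpperTail) (hL : LowerTail) (hT : TailFacts) (hV : Variance') : Main := by
  have hanti : Antitone tl := by
    obtain ⟨c, C4, hc, hC4, hlow, hcon, hsc, hanti⟩ := hT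
    exact hanti
  have hN := mainN hX hU hL hT hV
  intro ε0 hε0
  obtain ⟨ε, hε, hεε, hε1⟩ : ∃ ε : ℝ, 0 < ε ∧ ε ≤ ε0 ∧ ε ≤ 1 :=
    ⟨min ε0 1, lt_min hε0 one_pos, min_le_left _ _, min_le_right _ _⟩
  obtain ⟨N, hN0, hN1⟩ := tl_near_one (ε / 4) (by positivity)
  obtain ⟨δ, T0, hδ, h⟩ := hN (ε / 4) (by positivity) N hN0
  refine ⟨δ, max T0 (Real.exp (Real.exp 1)), hδ, fun x T V hT hx hV => ?_⟩
  obtain ⟨hT0, hT1⟩ := max_le_iff.mp hT
  have hTp : 0 < T := (Real.exp_pos _).trans_le hT1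
  have hl : 1 ≤ Real.log (Real.log T) := by
    have h1 : Real.exp 1 ≤ Real.log T := by
      rw [Real.le_log_iff_exp_le hTp]
      exact hT1
    rw [Real.le_log_iff_exp_le ((Real.exp_pos _).trans_le h1)]
    exact h1
  set l := Real.log (Real.log T) with hldef
  have hs0 : 0 < Real.sqrt (l / 2) := Real.sqrt_pos.mpr (by linarith)
  set s0 := Real.sqrt (l / 2) with hs0def
  set P : ℝ → ℝ := fun V => (volume {u : ℝ | u ∈ Icc (0 : ℝ) 1 ∧
      Real.exp V < ‖riemannZeta (1 / 2 + I * x + I * u * T)‖}).toReal with hP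
  have hgoal : |P V - tl (V / s0)| ≤ ε * tl (V / s0) := by
    rcases le_or_gt (-(N * s0)) V with hVN | hVN
    · refine (h x T V hT0 hx hVN hV).trans ?_
      have := tl_nonneg (V / s0)
      nlinarith
    · have h1 := h x T (-(N * s0)) hT0 hx le_rfl (by
        have : 0 ≤ N * s0 := by positivity
        have : 0 ≤ δ * l := by positivity
        linarith)
      have e1 : -(N * s0) / s0 = -N := by field_simp
      rw [← hldef, ← hs0def, e1] at h1
      have h2 : P (-(N * s0)) ≤ P V := by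
        apply ENNReal.toReal_mono
        · refine ne_of_lt (lt_of_le_of_lt (measure_mono (t := Icc (0 : ℝ) 1) fun u hu => hu.1) ?_)
          simp
        · apply measure_mono
          rintro u ⟨hu1, hu2⟩
          exact ⟨hu1, (Real.exp_lt_exp.mpr hVN).trans hu2⟩
      have h3 : P V ≤ 1 := by
        have h4 : volume {u : ℝ | u ∈ Icc (0 : ℝ) 1 ∧
            Real.exp V < ‖riemannZeta (1 / 2 + I * x + I * u * T)‖} ≤ 1 := by
          refine (measure_mono (t := Icc (0 : ℝ) 1) fun u hu => hu.1).trans ?_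
          simp
        calc P V ≤ (1 : ENNReal).toReal := ENNReal.toReal_mono ENNReal.one_ne_top h4
          _ = 1 := ENNReal.toReal_one
      have h5 : tl (-N) ≤ tl (V / s0) := by
        apply hanti
        rw [div_le_iff₀ hs0]
        linarith
      have h6 := tl_le_one (V / s0)
      have h7 := tl_le_one (-N)
      have h8 : P (-(N * s0)) ≥ tl (-N) - ε / 4 * tl (-N) := by
        have := (abs_le.mp h1).1
        simp only [hP]
        linarith
      rw [abs_le]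
      constructor
      · nlinarith
      · nlinarith
  refine hgoal.trans (mul_le_mul_of_nonneg_right hεε (tl_nonneg _))

end Pool.Agent.Lib.GT
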