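import Mathlib
import Pool.Agent.Lib.MP_f9aece_nt_gt.G1
import Pool.Agent.Lib.MP_f9aece_nt_gt.G2
import Pool.Agent.Lib.MP_f9aece_nt_rt.Assembly

/-!
Gaussian tails of `log |zeta|`, module G3: consequences for the moments.
-/

set_option autoImplicit false

namespace Pool.Agent.Lib.GT

open MeasureTheory Set Filter Topology Complex ProbabilityTheory

/-! ### truncated moments from tails -/

section LayerCake

variable {α α' : Type} [MeasurableSpace α] [MeasurableSpace α'] {ν : Measure α} {γ : Measure α'}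
  [IsFiniteMeasure ν] [IsFiniteMeasure γ] {f : α → ℝ} {g : α' → ℝ}

lemma integrable_trunc (hf : Measurable f) (hf0 : ∀ a, 0 ≤ f a) {Y : ℝ} (hY : 0 < Y) {β : ℝ} (hβ : 0 < β) :
    Integrable (fun a => min (f a) Y ^ β) ν := by
  refine Integrable.mono' (integrable_const (Y ^ β)) ((hf.min measurable_const).pow_const β).aestronglyMeasurable
    (Eventually.of_forall fun a => ?_)
  have h1 : 0 ≤ min (f a) Y := le_min (hf0 a) hY.le
  rw [Real.norm_of_nonneg (by positivity)]
  exact Real.rpow_le_rpow h1 (min_le_right _ _) hβ.le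

lemma trunc_le (hf : Measurable f) (hf0 : ∀ a, 0 ≤ f a) (hg : Measurable g) (hg0 : ∀ a, 0 ≤ g a)
    {Y : ℝ} (hY : 0 < Y) {β : ℝ} (hβ : 0 < β) {c : ℝ} (hc : 0 ≤ c)
    (h : ∀ y : ℝ, 0 < y → y < Y → (ν {a | y < f a}).toReal ≤ c * (γ {a | y < g a}).toReal) :
    ∫ a, min (f a) Y ^ β ∂ν ≤ c * ∫ a, min (g a) Y ^ β ∂γ := by
  have i1 := integrable_trunc (ν := ν) hf hf0 hY hβ
  have i2 := integrable_trunc (ν := γ) hg hg0 hY hβ
  have n1 : ∀ a, 0 ≤ min (f a) Y := fun a => le_min (hf0 a) hY.le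
  have n2 : ∀ a, 0 ≤ min (g a) Y := fun a => le_min (hg0 a) hY.le
  have h1 : ENNReal.ofReal (∫ a, min (f a) Y ^ β ∂ν)
      ≤ ENNReal.ofReal c * ENNReal.ofReal (∫ a, min (g a) Y ^ β ∂γ) := by
    rw [ofReal_integral_eq_lintegral_ofReal i1 (Eventually.of_forall fun a => by
        have := n1 a
        positivity),
      ofReal_integral_eq_lintegral_ofReal i2 (Eventually.of_forall fun a => by
        have := n2 a
        positivity),
      lintegral_rpow_eq_lintegral_meas_lt_mul ν (Eventually.of_forall n1)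
        (hf.min measurable_const).aemeasurable hβ,
      lintegral_rpow_eq_lintegral_meas_lt_mul γ (Eventually.of_forall n2)
        (hg.min measurable_const).aemeasurable hβ, mul_left_comm (ENNReal.ofReal c)]
    refine mul_le_mul' le_rfl ?_
    rw [← lintegral_const_mul' _ _ ENNReal.ofReal_ne_top]
    apply setLIntegral_mono' measurableSet_Ioi
    intro y hy
    rw [← mul_assoc]
    gcongr
    rcases lt_or_ge y Y with hyY | hyY
    · have e1 : {a | y < min (f a) Y} = {a | y < f a} := by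
        ext a
        simp [hyY]
      have e2 : {a | y < min (g a) Y} = {a | y < g a} := by
        ext a
        simp [hyY]
      rw [e1, e2]
      have h2 := h y hy hyY
      rw [← ENNReal.ofReal_toReal (measure_ne_top ν {a | y < f a}),
        ← ENNReal.ofReal_toReal (measure_ne_top γ {a | y < g a}), ← ENNReal.ofReal_mul hc]
      exact ENNReal.ofReal_le_ofReal h2
    · have e1 : {a | y < min (f a) Y} = ∅ := by
        ext a
        simp only [mem_ofPred_eq, lt_min_iff, mem_empty_iff_false, iff_false, not_and, not_lt]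
        intro _
        exact hyY
      rw [e1, measure_empty]
      exact zero_le
  rw [← ENNReal.ofReal_mul hc] at h1
  have n3 : 0 ≤ ∫ a, min (g a) Y ^ β ∂γ := integral_nonneg fun a => by
    have := n2 a
    positivity
  exact (ENNReal.ofReal_le_ofReal_iff (by positivity)).mp h1

/-- comparison of truncated moments -/
lemma trunc_cmp (hf : Measurable f) (hf0 : ∀ a, 0 ≤ f a) (hg : Measurable g) (hg0 : ∀ a, 0 ≤ g a)
    {Y : ℝ} (hY : 0 < Y) {β : ℝ} (hβ : 0 < β) {ε : ℝ} (hε : 0 ≤ ε) (hε1 : ε < 1)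
    (h : ∀ y : ℝ, 0 < y → y < Y → |(ν {a | y < f a}).toReal - (γ {a | y < g a}).toReal|
      ≤ ε * (γ {a | y < g a}).toReal) :
    |∫ a, min (f a) Y ^ β ∂ν - ∫ a, min (g a) Y ^ β ∂γ|
      ≤ ε * ∫ a, min (g a) Y ^ β ∂γ := by
  have h1 := trunc_le (ν := ν) (γ := γ) hf hf0 hg hg0 hY hβ (c := 1 + ε) (by linarith) (fun y hy hyY => by
    have := (abs_le.mp (h y hy hyY)).2
    linarith)
  have h2 := trunc_le (ν := γ) (γ := ν) hg hg0 hf hf0 hY hβ (c := (1 - ε)⁻¹) (by
    have : 0 < 1 - ε := by linarith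
    positivity) (fun y hy hyY => by
    have h3 := (abs_le.mp (h y hy hyY)).1
    rw [inv_mul_eq_div, le_div_iff₀ (by linarith)]
    linarith)
  rw [inv_mul_eq_div, le_div_iff₀ (by linarith)] at h2
  rw [abs_le]
  constructor <;> linarith

/-- pointwise bound for the part above the truncation -/
lemma rpow_split {a Y K β : ℝ} (ha : 0 ≤ a) (hY : 0 < Y) (hK : 0 < K) (hβ : 0 < β) (hβ2 : β ≤ 2) :
    a ^ β ≤ min a Y ^ β + ({b : ℝ | Y < b}.indicator (fun _ => K ^ β) a + K ^ (β - 2) * a ^ 2) := by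
  have n1 : 0 ≤ K ^ (β - 2) * a ^ 2 := by positivity
  rcases le_or_gt a Y with h | h
  · rw [min_eq_left h, indicator_of_notMem (by simpa using h)]
    linarith
  · rw [indicator_of_mem (by simpa using h)]
    have n2 : 0 ≤ min a Y ^ β := Real.rpow_nonneg (le_min ha hY.le) _
    have n3 : 0 ≤ K ^ β := by positivity
    rcases le_or_gt a K with h1 | h1
    · have : a ^ β ≤ K ^ β := Real.rpow_le_rpow ha h1 hβ.le
      linarith
    · have ha0 : 0 < a := hK.trans h1
      have e : a ^ β = a ^ (β - 2) * a ^ 2 := by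
        rw [← Real.rpow_natCast, ← Real.rpow_add ha0]
        norm_num
      have h2 : a ^ (β - 2) ≤ K ^ (β - 2) :=
        Real.rpow_le_rpow_of_nonpos hK h1.le (by linarith)
      have h3 : a ^ (β - 2) * a ^ 2 ≤ K ^ (β - 2) * a ^ 2 := by gcongr
      linarith

lemma moment_le (hf : Measurable f) (hf0 : ∀ a, 0 ≤ f a) {Y K β : ℝ} (hY : 0 < Y) (hK : 0 < K)
    (hβ : 0 < β) (hβ2 : β ≤ 2) (h2 : Integrable (fun a => f a ^ 2) ν) :
    Integrable (fun a => f a ^ β) ν ∧
    ∫ a, min (f a) Y ^ β ∂ν ≤ ∫ a, f a ^ β ∂ν ∧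
    ∫ a, f a ^ β ∂ν ≤ ∫ a, min (f a) Y ^ β ∂ν
      + (K ^ β * (ν {a | Y < f a}).toReal + K ^ (β - 2) * ∫ a, f a ^ 2 ∂ν) := by
  have i1 := integrable_trunc (ν := ν) hf hf0 hY hβ
  have hm : MeasurableSet {a | Y < f a} := measurableSet_lt measurable_const hf
  have i2 : Integrable ({a | Y < f a}.indicator fun _ => K ^ β) ν :=
    (integrable_const (K ^ β)).indicator hm
  have i3 : Integrable (fun a => K ^ (β - 2) * f a ^ 2) ν := h2.const_mul _
  have i23 : Integrable (fun a => {a | Y < f a}.indicator (fun _ => K ^ β) a + K ^ (β - 2) * f a ^ 2) ν :=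
    i2.add i3
  have hpt : ∀ a, f a ^ β ≤ min (f a) Y ^ β
      + ({a | Y < f a}.indicator (fun _ => K ^ β) a + K ^ (β - 2) * f a ^ 2) := by
    intro a
    have := rpow_split (a := f a) (hf0 a) hY hK hβ hβ2
    exact this
  have i4 : Integrable (fun a => f a ^ β) ν := by
    refine Integrable.mono' (i1.add i23) (hf.pow_const β).aestronglyMeasurable
      (Eventually.of_forall fun a => ?_)
    have := hf0 a
    rw [Real.norm_of_nonneg (by positivity)]
    exact hpt a
  refine ⟨i4, ?_, ?_⟩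
  · apply integral_mono i1 i4
    intro a
    exact Real.rpow_le_rpow (le_min (hf0 a) hY.le) (min_le_left _ _) hβ.le
  · calc ∫ a, f a ^ β ∂ν ≤ ∫ a, (min (f a) Y ^ β
          + ({a | Y < f a}.indicator (fun _ => K ^ β) a + K ^ (β - 2) * f a ^ 2)) ∂ν :=
          integral_mono i4 (i1.add i23) hpt
      _ = _ := by
          rw [integral_add i1 i23, integral_add i2 i3, integral_indicator_const _ hm, integral_const_mul,
            smul_eq_mul, Measure.real]
          ring

end LayerCake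

/-! ### the Gaussian side -/

lemma tl_chernoff {x : ℝ} (hx : 0 ≤ x) : tl x ≤ Real.exp (-(x ^ 2 / 2)) := by
  have h1 := measure_ge_le_exp_mul_mgf (μ := gaussianReal 0 1) (X := id) x hx
    (by simpa using integrable_exp_mul_gaussianReal (μ := 0) (v := 1) x)
  have h2 : tl x ≤ (gaussianReal 0 1).real {ω | x ≤ id ω} := by
    unfold tl Measure.real
    apply ENNReal.toReal_mono (measure_ne_top _ _)
    apply measure_mono
    intro y hy
    have hy' : x < y := hy
    exact hy'.le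
  refine h2.trans (h1.trans (le_of_eq ?_))
  rw [mgf_id_gaussianReal, ← Real.exp_add]
  congr 1
  simp only [NNReal.coe_one]
  ring

lemma gauss_moment (s β : ℝ) :
    Integrable (fun z => Real.exp (s * z) ^ β) (gaussianReal 0 1) ∧
    ∫ z, Real.exp (s * z) ^ β ∂(gaussianReal 0 1) = Real.exp (β ^ 2 * s ^ 2 / 2) := by
  have e : (fun z : ℝ => Real.exp (s * z) ^ β) = fun z => Real.exp (β * s * z) := by
    funext z
    rw [← Real.exp_mul]
    congr 1
    ring
  rw [e]
  refine ⟨integrable_exp_mul_gaussianReal _, ?_⟩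
  have h := congrFun (mgf_id_gaussianReal (μ := 0) (v := 1)) (β * s)
  unfold mgf at h
  simp only [id_eq] at h
  rw [h]
  congr 1
  simp only [NNReal.coe_one]
  ring

/-! ### the side of zeta -/

/-- the modulus of zeta at the random point -/
noncomputable def zf (x T u : ℝ) : ℝ := ‖riemannZeta (1 / 2 + I * x + I * u * T)‖

lemma zf_eq (x T u : ℝ) : zf x T u = ‖riemannZeta (1 / 2 + I * ((x + u * T : ℝ) : ℂ))‖ := by
  unfold zf
  congr 2
  push_cast
  ring

lemma continuous_zl : Continuous fun t : ℝ => riemannZeta (1 / 2 + I * (t : ℂ)) := by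
  refine continuous_iff_continuousAt.2 fun t => ?_
  have h1 : (1 / 2 + I * (t : ℂ) : ℂ) ≠ 1 := by
    intro h
    have := congrArg Complex.re h
    norm_num at this
  exact (differentiableAt_riemannZeta h1).continuousAt.comp
    (f := fun t : ℝ => (1 / 2 + I * (t : ℂ) : ℂ)) (by fun_prop)

lemma continuous_zf (x T : ℝ) : Continuous (zf x T) := by
  have : zf x T = fun u => ‖riemannZeta (1 / 2 + I * ((x + u * T : ℝ) : ℂ))‖ := by
    funext u
    exact zf_eq x T u
  rw [this]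
  have h2 : Continuous fun u : ℝ => x + u * T := by fun_prop
  exact (continuous_zl.comp h2).norm

lemma zl_neg (t : ℝ) : ‖riemannZeta (1 / 2 + I * ((-t : ℝ) : ℂ))‖
    = ‖riemannZeta (1 / 2 + I * (t : ℂ))‖ := by
  have h : (1 / 2 + I * ((-t : ℝ) : ℂ) : ℂ) = (starRingEnd ℂ) (1 / 2 + I * (t : ℂ)) := by
    simp [Complex.ext_iff]
  rw [h, riemannZeta_conj, RCLike.norm_conj]

/-- crude upper bound for the second moment -/
lemma second_zf : ∃ C T0 : ℝ, 0 ≤ C ∧ 16 ≤ T0 ∧ ∀ x T : ℝ, T0 ≤ T → |x| ≤ T →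
    ∫ u in Icc (0 : ℝ) 1, zf x T u ^ 2 ≤ C * Real.log T := by
  obtain ⟨C, T0, hC, hT0, h⟩ := Pool.Agent.Lib.MP_f9aece_nt_rt.second_crude
  refine ⟨8 * C, T0, by positivity, hT0, fun x T hT hx => ?_⟩
  have hTp : 0 < T := by linarith
  have hx' := abs_le.mp hx
  have hc2 : Continuous fun t : ℝ => ‖riemannZeta (1 / 2 + I * (t : ℂ))‖ ^ 2 := continuous_zl.norm.pow 2
  have e1 : ∫ u in Icc (0 : ℝ) 1, zf x T u ^ 2
      = T⁻¹ * ∫ t in x..(x + T), ‖riemannZeta (1 / 2 + I * (t : ℂ))‖ ^ 2 := by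
    rw [integral_Icc_eq_integral_Ioc, ← intervalIntegral.integral_of_le zero_le_one]
    have e2 := intervalIntegral.integral_comp_mul_add
      (fun t : ℝ => ‖riemannZeta (1 / 2 + I * (t : ℂ))‖ ^ 2) (a := 0) (b := 1) hTp.ne' x
    simp only [mul_zero, zero_add, mul_one, smul_eq_mul] at e2
    rw [add_comm x T, ← e2]
    refine intervalIntegral.integral_congr fun u _ => ?_
    beta_reduce
    rw [zf_eq, add_comm (T * u) x, mul_comm T u]
  have h2T : T0 ≤ 2 * T := by linarith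
  have hp := h (2 * T) h2T
  rw [integral_Icc_eq_integral_Ioc, ← intervalIntegral.integral_of_le (by linarith)] at hp
  have e3 : ∫ t in (-(2 * T))..0, ‖riemannZeta (1 / 2 + I * (t : ℂ))‖ ^ 2
      = ∫ t in (0 : ℝ)..(2 * T), ‖riemannZeta (1 / 2 + I * (t : ℂ))‖ ^ 2 := by
    have := intervalIntegral.integral_comp_neg (a := 0) (b := 2 * T)
      (fun t : ℝ => ‖riemannZeta (1 / 2 + I * (t : ℂ))‖ ^ 2)
    rw [neg_zero] at this
    rw [← this]
    refine intervalIntegral.integral_congr fun u _ => ?_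
    beta_reduce
    rw [zl_neg]
  have e4 : ∫ t in x..(x + T), ‖riemannZeta (1 / 2 + I * (t : ℂ))‖ ^ 2
      ≤ ∫ t in (-(2 * T))..(2 * T), ‖riemannZeta (1 / 2 + I * (t : ℂ))‖ ^ 2 := by
    rw [intervalIntegral.integral_of_le (by linarith), intervalIntegral.integral_of_le (by linarith)]
    apply setIntegral_mono_set
    · exact (hc2.intervalIntegrable _ _).1
    · exact Eventually.of_forall fun t => by positivity
    · apply LE.le.eventuallyLE
      apply Ioc_subset_Ioc <;> linarith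
  have e5 := intervalIntegral.integral_add_adjacent_intervals
    (hc2.intervalIntegrable (μ := volume) (-(2 * T)) 0) (hc2.intervalIntegrable (μ := volume) 0 (2 * T))
  have hlog : Real.log (2 * T) ≤ 2 * Real.log T := by
    rw [Real.log_mul (by norm_num) hTp.ne']
    have : Real.log 2 ≤ Real.log T := Real.log_le_log (by norm_num) (by linarith)
    linarith
  rw [e1]
  have hlT : 0 ≤ Real.log T := Real.log_nonneg (by linarith)
  have e6 : C * (2 * T * Real.log (2 * T)) ≤ C * (2 * T * (2 * Real.log T)) := by gcongr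
  calc T⁻¹ * ∫ t in x..(x + T), ‖riemannZeta (1 / 2 + I * (t : ℂ))‖ ^ 2
      ≤ T⁻¹ * (C * (2 * T * (2 * Real.log T)) + C * (2 * T * (2 * Real.log T))) := by
        gcongr
        linarith
    _ = 8 * C * Real.log T := by
        field_simp
        ring

/-! ### tails and moments -/

/-- tails and moments of `|zeta|` -/
def MainM : Prop := ∀ ε : ℝ, 0 < ε → ∃ δ T0 : ℝ, 0 < δ ∧ ∀ x T : ℝ, T0 ≤ T →
  |x| ≤ T ^ (9 / 10 : ℝ) →
  (∀ V : ℝ, V ≤ δ * Real.log (Real.log T) →
    |(volume {u : ℝ | u ∈ Icc (0 : ℝ) 1 ∧ Real.exp V < zf x T u}).toReal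
      - tl (V / Real.sqrt (Real.log (Real.log T) / 2))|
      ≤ ε * tl (V / Real.sqrt (Real.log (Real.log T) / 2))) ∧
  (∀ β : ℝ, 0 < β → |(∫ u in Icc (0 : ℝ) 1, min (zf x T u) (Real.log T ^ δ) ^ β)
      - ∫ z, min (Real.exp (Real.sqrt (Real.log (Real.log T) / 2) * z)) (Real.log T ^ δ) ^ β
        ∂(gaussianReal 0 1)|
      ≤ ε * ∫ z, min (Real.exp (Real.sqrt (Real.log (Real.log T) / 2) * z)) (Real.log T ^ δ) ^ β
        ∂(gaussianReal 0 1)) ∧
  (∀ β : ℝ, 0 < β → β ≤ δ → |(∫ u in Icc (0 : ℝ) 1, zf x T u ^ β) - Real.log T ^ (β ^ 2 / 4)|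
      ≤ ε * Real.log T ^ (β ^ 2 / 4))

lemma gauss_set {s y : ℝ} (hs : 0 < s) (hy : 0 < y) :
    (gaussianReal 0 1 {z | y < Real.exp (s * z)}).toReal = tl (Real.log y / s) := by
  unfold tl
  congr 2
  ext z
  show y < Real.exp (s * z) ↔ Real.log y / s < z
  rw [div_lt_iff₀ hs, mul_comm z s, Real.log_lt_iff_lt_exp hy]

lemma zeta_set (x T : ℝ) {y : ℝ} (hy : 0 < y) :
    (volume.restrict (Icc (0 : ℝ) 1) {u | y < zf x T u}).toReal
      = (volume {u : ℝ | u ∈ Icc (0 : ℝ) 1 ∧ Real.exp (Real.log y) < zf x T u}).toReal := by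
  rw [Real.exp_log hy, Measure.restrict_apply' measurableSet_Icc]
  congr 2
  ext u
  exact and_comm

theorem moments (hM : Main) : MainM := by
  obtain ⟨C, T2, hC, hT2, h2⟩ := second_zf
  intro ε0 hε0
  obtain ⟨ε, hε, hεε, hε1⟩ : ∃ ε : ℝ, 0 < ε ∧ 2 * ε ≤ ε0 ∧ ε ≤ 1 / 4 :=
    ⟨min (ε0 / 2) (1 / 4), lt_min (by positivity) (by norm_num),
      by linarith [min_le_left (ε0 / 2) (1 / 4)], min_le_right _ _⟩
  obtain ⟨δ0, T1, hδ0, h⟩ := hM ε hε
  obtain ⟨δ1, hδ1, hδ10, hδ11⟩ : ∃ δ1 : ℝ, 0 < δ1 ∧ δ1 ≤ δ0 ∧ δ1 ≤ 1 :=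
    ⟨min δ0 1, lt_min hδ0 one_pos, min_le_left _ _, min_le_right _ _⟩
  obtain ⟨δ, hδ⟩ : ∃ δ : ℝ, δ = δ1 ^ 2 / 2 := ⟨_, rfl⟩
  have hδp : 0 < δ := by rw [hδ]; positivity
  have hδle : δ ≤ δ1 := by rw [hδ]; nlinarith
  have hδh : δ ≤ 1 / 2 := by rw [hδ]; nlinarith
  -- large `T`
  have hlim : Tendsto (fun l : ℝ => (3 + C) * Real.exp (-(δ * l))) atTop (𝓝 ((3 + C) * 0)) := by
    refine Tendsto.const_mul _ (Real.tendsto_exp_neg_atTop_nhds_zero.comp ?_)
    exact tendsto_id.const_mul_atTop hδp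
  rw [mul_zero] at hlim
  have hev : ∀ᶠ T : ℝ in atTop, 1 ≤ Real.log (Real.log T) ∧
      (3 + C) * Real.exp (-(δ * Real.log (Real.log T))) ≤ ε := by
    have h1 := (hlim.eventually (gt_mem_nhds hε)).and (eventually_ge_atTop 1)
    filter_upwards [tendsto_loglog.eventually h1] with T h2
    exact ⟨h2.2, h2.1.le⟩
  obtain ⟨T3, hT3⟩ := eventually_atTop.mp hev
  refine ⟨δ, max (max T1 T2) T3, hδp, fun x T hT hx => ?_⟩
  have hTT1 : T1 ≤ T := ((le_max_left _ _).trans (le_max_left _ _)).trans hT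
  have hTT2 : T2 ≤ T := ((le_max_right _ _).trans (le_max_left _ _)).trans hT
  obtain ⟨hl, hsm⟩ := hT3 T ((le_max_right _ _).trans hT)
  have hT16 : 16 ≤ T := hT2.trans hTT2
  have hTp : 0 < T := by linarith
  have hL1 : 1 < Real.log T := by
    rw [Real.lt_log_iff_exp_lt hTp]
    have := Real.exp_one_lt_d9
    linarith
  have hLp : 0 < Real.log T := by linarith
  obtain ⟨l, hldef⟩ : ∃ l : ℝ, l = Real.log (Real.log T) := ⟨_, rfl⟩
  rw [← hldef] at hl hsm
  have hpow : ∀ a : ℝ, Real.log T ^ a = Real.exp (a * l) := by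
    intro a
    rw [Real.rpow_def_of_pos hLp, ← hldef, mul_comm]
  have hx1 : |x| ≤ T := by
    refine hx.trans ?_
    calc T ^ (9 / 10 : ℝ) ≤ T ^ (1 : ℝ) := Real.rpow_le_rpow_of_exponent_le (by linarith) (by norm_num)
      _ = T := Real.rpow_one T
  obtain ⟨s, hs⟩ : ∃ s : ℝ, s = Real.sqrt (l / 2) := ⟨_, rfl⟩
  have hsp : 0 < s := by rw [hs]; exact Real.sqrt_pos.mpr (by linarith)
  have hss : s ^ 2 = l / 2 := by rw [hs]; exact Real.sq_sqrt (by linarith)
  have htail : ∀ V : ℝ, V ≤ δ1 * l → |(volume {u : ℝ | u ∈ Icc (0 : ℝ) 1 ∧ Real.exp V < zf x T u}).toReal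
      - tl (V / s)| ≤ ε * tl (V / s) := by
    intro V hV
    rw [hs, hldef]
    refine h x T V hTT1 hx (hV.trans ?_)
    rw [← hldef]
    exact mul_le_mul_of_nonneg_right hδ10 (by linarith)
  rw [← hldef, ← hs]
  have hfm : Measurable (zf x T) := (continuous_zf x T).measurable
  have hf0 : ∀ u, 0 ≤ zf x T u := fun u => norm_nonneg _
  have hgm : Measurable fun z : ℝ => Real.exp (s * z) := by fun_prop
  have hg0 : ∀ z : ℝ, 0 ≤ Real.exp (s * z) := fun z => (Real.exp_pos _).le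
  have hfin : IsFiniteMeasure (volume.restrict (Icc (0 : ℝ) 1)) := inferInstance
  -- truncated moments at the level `exp (d l)`, `d ≤ δ1`
  have htr : ∀ d : ℝ, d ≤ δ1 → ∀ β : ℝ, 0 < β → |(∫ u in Icc (0 : ℝ) 1, min (zf x T u) (Real.exp (d * l)) ^ β)
      - ∫ z, min (Real.exp (s * z)) (Real.exp (d * l)) ^ β ∂(gaussianReal 0 1)|
      ≤ ε * ∫ z, min (Real.exp (s * z)) (Real.exp (d * l)) ^ β ∂(gaussianReal 0 1) := by
    intro d hd β hβ
    refine trunc_cmp (ν := volume.restrict (Icc (0 : ℝ) 1)) (γ := gaussianReal 0 1) hfm hf0 hgm hg0 (Real.exp_pos _) hβ hε.le (by linarith) fun y hy hyY => ?_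
    rw [zeta_set x T hy, gauss_set hsp hy]
    apply htail
    have h3 : Real.log y ≤ d * l := by
      rw [Real.log_le_iff_le_exp hy]
      exact hyY.le
    exact h3.trans (mul_le_mul_of_nonneg_right hd (by linarith))
  refine ⟨fun V hV => ?_, fun β hβ => ?_, fun β hβ hβδ => ?_⟩
  · refine (htail V (hV.trans (mul_le_mul_of_nonneg_right hδle (by linarith)))).trans ?_
    have := tl_nonneg (V / s)
    nlinarith
  · rw [hpow]
    refine (htr δ hδle β hβ).trans ?_
    have h3 : 0 ≤ ∫ z, min (Real.exp (s * z)) (Real.exp (δ * l)) ^ β ∂(gaussianReal 0 1) :=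
      integral_nonneg fun z => Real.rpow_nonneg (le_min (hg0 z) (Real.exp_pos _).le) _
    nlinarith
  · -- small moments
    have hβ2 : β ≤ 2 := by linarith
    have hY : 0 < Real.exp (δ1 * l) := Real.exp_pos _
    have hf2 : Integrable (fun u => zf x T u ^ 2) (volume.restrict (Icc (0 : ℝ) 1)) :=
      ((continuous_zf x T).pow 2).continuousOn.integrableOn_compact isCompact_Icc
    obtain ⟨-, a1, a2⟩ := moment_le (K := Real.log T) hfm hf0 hY hLp hβ hβ2 hf2
    have g2 := gauss_moment s 2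
    have hg2 : Integrable (fun z : ℝ => Real.exp (s * z) ^ 2) (gaussianReal 0 1) := by
      have := g2.1
      refine this.congr (Eventually.of_forall fun z => ?_)
      beta_reduce
      rw [← Real.rpow_natCast]
      norm_num
    have hg2' : ∫ z, Real.exp (s * z) ^ 2 ∂(gaussianReal 0 1) = Real.exp l := by
      have e : ∫ z, Real.exp (s * z) ^ 2 ∂(gaussianReal 0 1)
          = ∫ z, Real.exp (s * z) ^ (2 : ℝ) ∂(gaussianReal 0 1) := by
        refine integral_congr_ae (Eventually.of_forall fun z => ?_)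
        beta_reduce
        rw [← Real.rpow_natCast]
        norm_num
      rw [e, g2.2, hss]
      congr 1
      ring
    obtain ⟨-, b1, b2⟩ := moment_le (K := Real.log T) hgm hg0 hY hLp hβ hβ2 hg2
    have b3 := (gauss_moment s β).2
    have hMe : Real.exp (β ^ 2 * s ^ 2 / 2) = Real.exp (β ^ 2 / 4 * l) := by
      rw [hss]
      congr 1
      ring
    rw [hMe] at b3
    rw [b3, hg2', gauss_set hsp hY, Real.log_exp] at b2
    rw [b3] at b1
    rw [zeta_set x T hY, Real.log_exp] at a2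
    have hE := h2 x T hTT2 hx1
    rw [hpow]
    rw [hpow β, hpow (β - 2)] at a2 b2
    have hLe : Real.log T = Real.exp l := by
      rw [hldef, Real.exp_log hLp]
    rw [hLe] at hE
    have t1 := htail (δ1 * l) le_rfl
    have t2 : tl (δ1 * l / s) ≤ Real.exp (-(δ1 ^ 2 * l)) := by
      have h4 := tl_chernoff (x := δ1 * l / s) (by positivity)
      have h5 : (δ1 * l / s) ^ 2 / 2 = δ1 ^ 2 * l := by
        rw [div_pow, hss]
        field_simp
      rwa [h5] at h4
    have t3 := (abs_le.mp t1).2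
    have t4 : (volume {u : ℝ | u ∈ Icc (0 : ℝ) 1 ∧ Real.exp (δ1 * l) < zf x T u}).toReal
        ≤ 2 * Real.exp (-(δ1 ^ 2 * l)) := by
      have := tl_nonneg (δ1 * l / s)
      nlinarith
    -- the small quantity
    obtain ⟨q, hq⟩ : ∃ q : ℝ, q = Real.exp (-(δ * l)) := ⟨_, rfl⟩
    have hq0 : 0 < q := by rw [hq]; exact Real.exp_pos _
    have q1 : Real.exp (β * l) * Real.exp (-(δ1 ^ 2 * l)) ≤ q := by
      rw [hq, ← Real.exp_add]
      apply Real.exp_le_exp.mpr
      have h6 : β * l ≤ δ * l := mul_le_mul_of_nonneg_right hβδ (by linarith)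
      have h7 : δ1 ^ 2 * l = 2 * (δ * l) := by rw [hδ]; ring
      linarith
    have q2 : Real.exp ((β - 2) * l) * Real.exp l ≤ q := by
      rw [hq, ← Real.exp_add]
      apply Real.exp_le_exp.mpr
      have h6 : β * l ≤ δ * l := mul_le_mul_of_nonneg_right hβδ (by linarith)
      have h7 : δ * l ≤ 1 / 2 * l := mul_le_mul_of_nonneg_right hδh (by linarith)
      linarith
    have hM1 : 1 ≤ Real.exp (β ^ 2 / 4 * l) := Real.one_le_exp (by positivity)
    have r1 : Real.exp (β * l) * (volume {u : ℝ | u ∈ Icc (0 : ℝ) 1 ∧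
        Real.exp (δ1 * l) < zf x T u}).toReal ≤ 2 * q := by
      calc _ ≤ Real.exp (β * l) * (2 * Real.exp (-(δ1 ^ 2 * l))) :=
            mul_le_mul_of_nonneg_left t4 (Real.exp_pos _).le
        _ ≤ 2 * q := by linarith
    have r2 : Real.exp ((β - 2) * l) * ∫ u in Icc (0 : ℝ) 1, zf x T u ^ 2 ≤ C * q := by
      calc _ ≤ Real.exp ((β - 2) * l) * (C * Real.exp l) :=
            mul_le_mul_of_nonneg_left hE (Real.exp_pos _).le
        _ = C * (Real.exp ((β - 2) * l) * Real.exp l) := by ring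
        _ ≤ C * q := mul_le_mul_of_nonneg_left q2 hC
    have r3 : Real.exp (β * l) * tl (δ1 * l / s) ≤ q :=
      (mul_le_mul_of_nonneg_left t2 (Real.exp_pos _).le).trans q1
    have hqs : (3 + C) * q ≤ ε := by rw [hq]; exact hsm
    have c1 := htr δ1 le_rfl β hβ
    obtain ⟨c2, c3⟩ := abs_le.mp c1
    set If := ∫ u in Icc (0 : ℝ) 1, zf x T u ^ β with hIf
    set Jf := ∫ u in Icc (0 : ℝ) 1, min (zf x T u) (Real.exp (δ1 * l)) ^ β with hJf
    set Jg := ∫ z, min (Real.exp (s * z)) (Real.exp (δ1 * l)) ^ β ∂(gaussianReal 0 1) with hJg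
    set M := Real.exp (β ^ 2 / 4 * l) with hMdef
    have d1 : If ≤ (1 + ε) * M + (2 + C) * q := by
      have : ε * Jg ≤ ε * M := mul_le_mul_of_nonneg_left b1 hε.le
      linarith
    have d2 : M - 2 * q ≤ Jg := by linarith
    have d3 : (1 - ε) * (M - 2 * q) ≤ If := by
      have : (1 - ε) * (M - 2 * q) ≤ (1 - ε) * Jg := mul_le_mul_of_nonneg_left d2 (by linarith)
      linarith
    have hCq : 0 ≤ C * q := by positivity
    have hq2 : 2 * q ≤ ε := by nlinarith
    have hq3 : (2 + C) * q ≤ ε := by nlinarith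
    have hεM : ε ≤ ε * M := le_mul_of_one_le_right hε.le hM1
    have hεM2 : 2 * ε * M ≤ ε0 * M := mul_le_mul_of_nonneg_right hεε (by linarith)
    rw [abs_le]
    constructor
    · nlinarith
    · linarith

end Pool.Agent.Lib.GT
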