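import Mathlib
import Pool.Agent.Lib.MP_f9aece_nt_h20.Bmp
import Pool.Agent.Lib.MP_f9aece_nt_gt.StmtsZ

/-!
Gaussian tails of `log |zeta|`, module D2: the weights of the smooth sums as transforms.
-/

set_option autoImplicit false

namespace Pool.Agent.Lib.GT

open MeasureTheory Complex Set Filter Topology
open scoped SchwartzMap ContDiff
open Pool.Agent.H20.Smooth

namespace D2

variable {a α b β : ℝ}

lemma I1_BS_le' (h : Pr a α b β) (m : ℕ) :
    I1 (BS h) (m + 1) ≤ ((α⁻¹) ^ m + (β⁻¹) ^ m) * cM (m + 1) := by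
  have hα0 : 0 < α := h.hα
  have hβ0 : 0 < β := h.hβ
  unfold I1
  rw [BS_coe]
  have e : ∀ x, iteratedDeriv (m + 1) (bm a α b β) x
      = (α⁻¹) ^ (m + 1) • iteratedDeriv (m + 1) sg ((x - a) / α)
        + (-1 : ℝ) ^ (m + 1) • ((β⁻¹) ^ (m + 1) • iteratedDeriv (m + 1) sg ((b - x) / β)) := by
    intro x
    have h1 : ContDiff ℝ ∞ (fun x : ℝ => sg ((x - a) / α)) := sg_contDiff.comp (by fun_prop)
    have h2 : ContDiff ℝ ∞ (fun x : ℝ => sg ((b - x) / β)) := sg_contDiff.comp (by fun_prop)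
    have h1' : ContDiff ℝ ((m + 1 : ℕ) : ℕ∞) (fun x : ℝ => sg ((x - a) / α)) :=
      h1.of_le (by exact_mod_cast le_top)
    have h2' : ContDiff ℝ ((m + 1 : ℕ) : ℕ∞) (fun x : ℝ => sg ((b - x) / β)) :=
      h2.of_le (by exact_mod_cast le_top)
    have e1 : bm a α b β = fun x => (-1 : ℂ) +
        ((fun x : ℝ => sg ((x - a) / α)) + fun x : ℝ => sg ((b - x) / β)) x := by
      funext x; unfold bm; simp only [Pi.add_apply]; ring
    rw [e1, iteratedDeriv_const_add (by omega), iteratedDeriv_add h1'.contDiffAt h2'.contDiffAt,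
      iter_up, iter_down]
  have hi := iter_sg_integrable m
  have i1 : Integrable (fun x => ‖iteratedDeriv (m + 1) sg ((x - a) / α)‖) := by
    have := (hi.norm.comp_div hα0.ne').comp_sub_right a
    exact this
  have i2 : Integrable (fun x => ‖iteratedDeriv (m + 1) sg ((b - x) / β)‖) := by
    have := (hi.norm.comp_div hβ0.ne').comp_sub_left b
    exact this
  have hb : ∀ x, ‖iteratedDeriv (m + 1) (bm a α b β) x‖
      ≤ (α⁻¹) ^ (m + 1) * ‖iteratedDeriv (m + 1) sg ((x - a) / α)‖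
        + (β⁻¹) ^ (m + 1) * ‖iteratedDeriv (m + 1) sg ((b - x) / β)‖ := by
    intro x
    rw [e x]
    refine (norm_add_le _ _).trans (le_of_eq ?_)
    have hn : ‖(-1 : ℝ) ^ (m + 1)‖ = 1 := by rw [norm_pow, norm_neg, norm_one, one_pow]
    have ha : ‖(α⁻¹) ^ (m + 1)‖ = (α⁻¹) ^ (m + 1) := Real.norm_of_nonneg (by positivity)
    have hb : ‖(β⁻¹) ^ (m + 1)‖ = (β⁻¹) ^ (m + 1) := Real.norm_of_nonneg (by positivity)
    rw [norm_smul, norm_smul, norm_smul, hn, ha, hb, one_mul]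
  have hα2 : (α⁻¹) ^ (m + 1) * α = (α⁻¹) ^ m := by
    rw [pow_succ, mul_assoc, inv_mul_cancel₀ hα0.ne', mul_one]
  have hβ2 : (β⁻¹) ^ (m + 1) * β = (β⁻¹) ^ m := by
    rw [pow_succ, mul_assoc, inv_mul_cancel₀ hβ0.ne', mul_one]
  calc ∫ x, ‖iteratedDeriv (m + 1) (bm a α b β) x‖
      ≤ ∫ x, ((α⁻¹) ^ (m + 1) * ‖iteratedDeriv (m + 1) sg ((x - a) / α)‖
        + (β⁻¹) ^ (m + 1) * ‖iteratedDeriv (m + 1) sg ((b - x) / β)‖) :=
        integral_mono_of_nonneg (Eventually.of_forall fun _ => norm_nonneg _)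
          ((i1.const_mul _).add (i2.const_mul _)) (Eventually.of_forall hb)
    _ = (α⁻¹) ^ (m + 1) * (α * cM (m + 1)) + (β⁻¹) ^ (m + 1) * (β * cM (m + 1)) := by
        rw [integral_add (i1.const_mul _) (i2.const_mul _), integral_const_mul, integral_const_mul,
          int_comp (fun x => ‖iteratedDeriv (m + 1) sg x‖) hα0,
          int_comp' (fun x => ‖iteratedDeriv (m + 1) sg x‖) hβ0]
        rfl
    _ = ((α⁻¹) ^ (m + 1) * α + (β⁻¹) ^ (m + 1) * β) * cM (m + 1) := by ring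
    _ = _ := by rw [hα2, hβ2]

/-- the trivial bound for the transform -/
lemma norm_KF_le (h : Pr a α b β) (v : ℝ) : ‖KF (BS h) v‖ ≤ b - a := by
  have hab : a ≤ b := by linarith [h.h, h.hα, h.hβ]
  unfold KF
  have e : ∫ x, BS h x * cexp (I * v * x) = ∫ x in Icc a b, BS h x * cexp (I * v * x) := by
    symm
    apply setIntegral_eq_integral_of_forall_compl_eq_zero
    intro x hx
    rw [mem_Icc, not_and_or, not_le, not_le] at hx
    rw [BS_apply]
    rcases hx with hx | hx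
    · rw [bm_zero_left h hx.le, zero_mul]
    · rw [bm_zero_right h hx.le, zero_mul]
  rw [e]
  have h1 : ‖∫ x in Icc a b, BS h x * cexp (I * v * x)‖ ≤ 1 * (volume : Measure ℝ).real (Icc a b) := by
    apply norm_setIntegral_le_of_norm_le_const
    · rw [Real.volume_Icc]
      exact ENNReal.ofReal_lt_top
    · intro x _
      rw [norm_mul, Complex.norm_exp, BS_apply]
      have h2 := norm_bm_le h x
      have h3 : (I * v * x).re = 0 := by simp
      rw [h3, Real.exp_zero, mul_one]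
      exact h2
  refine h1.trans (le_of_eq ?_)
  rw [Real.volume_real_Icc_of_le hab, one_mul]

/-- **Decay of the transform of a wide window.** -/
lemma decay {Λ a : ℝ} (hΛ : 200 ≤ Λ) (_ha : 3 / 10 * Λ ≤ a) (ha' : a ≤ 9 / 10 * Λ)
    (h : Pr (-(Λ / 10)) (Λ / 10) a (Λ / 20)) (u : ℝ) :
    (1 + Λ * |u|) ^ 8 * ‖KF (BS h) u‖ ≤ 128 * (1 + 2 * 20 ^ 7 * cM 8) * Λ := by
  have hΛ0 : 0 < Λ := by linarith
  have h1 : ‖KF (BS h) u‖ ≤ Λ := (norm_KF_le h u).trans (by linarith)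
  have h2 : |u| ^ 8 * ‖KF (BS h) u‖ ≤ 2 * (20 / Λ) ^ 7 * cM 8 := by
    refine (pow_KF_le (BS h) (bm_compact h) 8 u).trans ?_
    refine (I1_BS_le' h 7).trans ?_
    have hc := cM_nonneg 8
    have e1 : ((Λ / 10)⁻¹) ^ 7 ≤ (20 / Λ) ^ 7 := by
      apply pow_le_pow_left₀ (by positivity)
      rw [inv_div]
      gcongr
      norm_num
    have e2 : ((Λ / 20)⁻¹) ^ 7 = (20 / Λ) ^ 7 := by rw [inv_div]
    rw [e2]
    refine mul_le_mul_of_nonneg_right ?_ hc
    linarith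
  have h3 : (1 + Λ * |u|) ^ 8 ≤ 128 * (1 + (Λ * |u|) ^ 8) := by
    have h4 := add_pow_le (zero_le_one : (0 : ℝ) ≤ 1) (by positivity : 0 ≤ Λ * |u|) 8
    norm_num at h4
    linarith
  have h0 := norm_nonneg (KF (BS h) u)
  calc (1 + Λ * |u|) ^ 8 * ‖KF (BS h) u‖ ≤ 128 * (1 + (Λ * |u|) ^ 8) * ‖KF (BS h) u‖ :=
        mul_le_mul_of_nonneg_right h3 h0
    _ = 128 * (‖KF (BS h) u‖ + Λ ^ 8 * (|u| ^ 8 * ‖KF (BS h) u‖)) := by ring
    _ ≤ 128 * (Λ + Λ ^ 8 * (2 * (20 / Λ) ^ 7 * cM 8)) := by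
        gcongr
    _ = 128 * (1 + 2 * 20 ^ 7 * cM 8) * Λ := by
        field_simp

end D2

open D2 in
theorem kerRep : KerRep := by
  have hc := cM_nonneg 8
  refine ⟨128 * (1 + 2 * 20 ^ 7 * cM 8), by linarith, fun Λ a hΛ ha ha' => ?_⟩
  have hΛ0 : 0 < Λ := by linarith
  have h : Pr (-(Λ / 10)) (Λ / 10) a (Λ / 20) := ⟨by positivity, by positivity, by linarith⟩
  refine ⟨fun u => 1 / (2 * Real.pi) * KF (BS h) u, ?_, ?_, ?_⟩
  · rw [KF_eq]
    exact continuous_const.mul (KS (BS h)).continuous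
  · intro u
    have h1 := decay hΛ ha ha' h u
    have h2 : ‖(1 / (2 * Real.pi) : ℂ)‖ ≤ 1 := by
      have e : (1 / (2 * Real.pi) : ℂ) = ((1 / (2 * Real.pi) : ℝ) : ℂ) := by push_cast; ring
      rw [e, Complex.norm_real, Real.norm_of_nonneg (by positivity), div_le_one (by positivity)]
      linarith [Real.pi_gt_three]
    show ‖1 / (2 * Real.pi) * KF (BS h) u‖ ≤ _
    rw [norm_mul]
    have h3 : ‖(1 / (2 * Real.pi) : ℂ)‖ * ‖KF (BS h) u‖ ≤ 1 * ‖KF (BS h) u‖ :=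
      mul_le_mul_of_nonneg_right h2 (norm_nonneg _)
    refine h3.trans ?_
    unfold kf
    rw [one_mul, mul_div_assoc', le_div_iff₀ (by positivity)]
    linarith
  · intro ξ hξ
    have h1 := inversion (BS h) ξ
    rw [BS_apply, bm_right h (by linarith)] at h1
    have h2 : sg ((a - ξ) / (Λ / 20)) = (Real.smoothTransition ((a - ξ) / (Λ / 20)) : ℂ) := rfl
    rw [← h2, h1, ← integral_const_mul]
    refine integral_congr_ae (Eventually.of_forall fun v => ?_)
    simp only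
    ring

end Pool.Agent.Lib.GT
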