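import Mathlib
import Pool.Agent.Lib.MP_f9aece_nt_gt.StmtsZ

/-!
Gaussian tails of `log |zeta|`: row D3 (`suBound`), smooth sums on the torus through Euler products.
-/

set_option autoImplicit false

namespace Pool.Agent.Lib.GT

open MeasureTheory Set Filter Topology Complex ProbabilityTheory
open scoped ComplexConjugate
open Pool.Agent.Lib.MP_f9aece_nt (VV)
open Pool.Agent.Lib.J4 (Sg Yg rg Jok V2 Rough)

namespace D3

/-! ### rough and smooth numbers (copied from the library J4) -/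

lemma rough_coprime {S : Finset ℕ} {r m : ℕ} (hr : Rough S r) (hm : m ∈ Nat.factoredNumbers S) :
    r.Coprime m := by
  rw [Nat.coprime_iff_gcd_eq_one]
  by_contra h
  obtain ⟨p, hp, hpd⟩ := Nat.exists_prime_and_dvd h
  have h1 : p ∣ r := hpd.trans (Nat.gcd_dvd_left r m)
  have h2 : p ∣ m := hpd.trans (Nat.gcd_dvd_right r m)
  have h3 : p ∈ S := (Nat.mem_factoredNumbers.mp hm).2 p
    ((Nat.mem_primeFactorsList (Nat.ne_zero_of_mem_factoredNumbers hm)).mpr ⟨hp, h2⟩)
  exact hr.2 p h3 h1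

lemma rough_smooth_inj {S : Finset ℕ} {r r' m m' : ℕ} (hr : Rough S r) (hr' : Rough S r')
    (hm : m ∈ Nat.factoredNumbers S) (hm' : m' ∈ Nat.factoredNumbers S) (h : r * m = r' * m') :
    r = r' ∧ m = m' := by
  have h1 : m ∣ m' := by
    have h2 : m ∣ r' * m' := h ▸ Dvd.intro_left r rfl
    exact (rough_coprime hr' hm).symm.dvd_of_dvd_mul_left h2
  have h3 : m' ∣ m := by
    have h2 : m' ∣ r * m := h ▸ Dvd.intro_left r' rfl
    exact (rough_coprime hr hm').symm.dvd_of_dvd_mul_left h2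
  have h4 : m = m' := Nat.dvd_antisymm h1 h3
  subst h4
  exact ⟨Nat.eq_of_mul_eq_mul_right
    (Nat.pos_of_ne_zero (Nat.ne_zero_of_mem_factoredNumbers hm)) h, rfl⟩

lemma exists_rough_smooth {S : Finset ℕ} (hS : ∀ p ∈ S, p.Prime) {n : ℕ} (hn : n ≠ 0) :
    ∃ r m : ℕ, Rough S r ∧ m ∈ Nat.factoredNumbers S ∧ r * m = n := by
  induction n using Nat.strong_induction_on with
  | _ n ih =>
    by_cases h : ∃ p ∈ S, p ∣ n
    · obtain ⟨p, hpS, k, rfl⟩ := h
      have hp := hS p hpS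
      have hk : k ≠ 0 := by
        rintro rfl
        exact hn (mul_zero p)
      have hlt : k < p * k := by
        have := hp.two_le
        have := Nat.pos_of_ne_zero hk
        nlinarith
      obtain ⟨r, m, h1, h2, h3⟩ := ih k hlt hk
      refine ⟨r, p * m, h1, ?_, ?_⟩
      · rw [Nat.mem_factoredNumbers]
        refine ⟨mul_ne_zero hp.ne_zero (Nat.ne_zero_of_mem_factoredNumbers h2), ?_⟩
        intro l hl
        rw [Nat.mem_primeFactorsList (mul_ne_zero hp.ne_zero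
          (Nat.ne_zero_of_mem_factoredNumbers h2))] at hl
        rcases (Nat.Prime.dvd_mul hl.1).mp hl.2 with h4 | h4
        · rw [(Nat.prime_dvd_prime_iff_eq hl.1 hp).mp h4]
          exact hpS
        · exact (Nat.mem_factoredNumbers.mp h2).2 l
            ((Nat.mem_primeFactorsList (Nat.ne_zero_of_mem_factoredNumbers h2)).mpr ⟨hl.1, h4⟩)
      · rw [← h3]; ring
    · push Not at h
      refine ⟨n, 1, ⟨Nat.one_le_iff_ne_zero.mpr hn, h⟩, ?_, mul_one n⟩
      rw [Nat.mem_factoredNumbers]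
      exact ⟨one_ne_zero, fun p hp => by simp at hp⟩

/-! ### the kernel -/

/-- the profile of the kernel -/
noncomputable def k1 (t : ℝ) : ℝ := 1 / (1 + |t|) ^ 8

lemma k1_nonneg (t : ℝ) : 0 ≤ k1 t := by unfold k1; positivity

lemma integrable_k1 : Integrable k1 := by
  have h := integrable_one_add_norm (E := ℝ) (μ := volume) (r := 8) (by simp)
  refine h.congr (Eventually.of_forall fun t => ?_)
  unfold k1
  simp only [Real.norm_eq_abs]
  rw [Real.rpow_neg (by positivity), one_div]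
  norm_cast

lemma kf_eq {Λ : ℝ} (hΛ : 0 < Λ) (u : ℝ) : kf Λ u = Λ * k1 (Λ * u) := by
  unfold kf k1
  rw [abs_mul, abs_of_pos hΛ]
  ring

lemma kf_nonneg {Λ : ℝ} (hΛ : 0 < Λ) (u : ℝ) : 0 ≤ kf Λ u := by
  rw [kf_eq hΛ]
  exact mul_nonneg hΛ.le (k1_nonneg _)

lemma integrable_kf {Λ : ℝ} (hΛ : 0 < Λ) : Integrable (kf Λ) := by
  have h := (integrable_k1.comp_mul_left' hΛ.ne').const_mul Λ
  exact h.congr (Eventually.of_forall fun u => (kf_eq hΛ u).symm)

/-- the integral of the profile -/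
noncomputable def c8 : ℝ := ∫ t, k1 t

lemma c8_nonneg : 0 ≤ c8 := integral_nonneg k1_nonneg

lemma integral_kf {Λ : ℝ} (hΛ : 0 < Λ) : ∫ u, kf Λ u = c8 := by
  have h : kf Λ = fun u => Λ * k1 (Λ * u) := funext (kf_eq hΛ)
  rw [h, integral_const_mul, Measure.integral_comp_mul_left k1 Λ, abs_of_pos (inv_pos.2 hΛ),
    smul_eq_mul, ← mul_assoc, mul_inv_cancel₀ hΛ.ne', one_mul]
  rfl

lemma continuous_kf {Λ : ℝ} (hΛ : 0 < Λ) : Continuous (kf Λ) := by
  unfold kf
  refine Continuous.div continuous_const (by fun_prop) fun u => ?_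
  positivity

/-! ### the characters and the Euler product -/

/-- the exponent -/
noncomputable def sx (σ v : ℝ) : ℂ := -(1 / 2 + σ + I * v)

lemma sx_re (σ v : ℝ) : (sx σ v).re = -(1 / 2 + σ) := by
  unfold sx
  simp

lemma sx_ne {σ : ℝ} (hσ : 0 ≤ σ) (v : ℝ) : sx σ v ≠ 0 := by
  intro h
  have := sx_re σ v
  rw [h] at this
  simp at this
  linarith

lemma sx_add (σ v u : ℝ) : sx σ (v + u) = sx σ v + -(I * u) := by
  unfold sx
  push_cast
  ring

lemma norm_cpow_sx {n : ℕ} (hn : n ≠ 0) (σ v : ℝ) : ‖(n : ℂ) ^ sx σ v‖ = (n : ℝ) ^ (-(1 / 2 + σ)) := by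
  rw [Complex.norm_natCast_cpow_of_pos (Nat.pos_of_ne_zero hn), sx_re]

lemma norm_cpow_I {n : ℕ} (hn : n ≠ 0) (u : ℝ) : ‖(n : ℂ) ^ (-(I * u) : ℂ)‖ = 1 := by
  rw [Complex.norm_natCast_cpow_of_pos (Nat.pos_of_ne_zero hn)]
  simp

/-- the completely multiplicative function -/
noncomputable def fh (σ w : ℝ) (hσ : 0 ≤ σ) (x : Om) : ℕ →* ℂ where
  toFun n := (n : ℂ) ^ sx σ w * ch x n
  map_one' := by simp [ch_one]
  map_mul' m n := by
    rcases eq_or_ne m 0 with h | h
    · rw [h]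
      simp [Complex.zero_cpow (sx_ne hσ w)]
    rcases eq_or_ne n 0 with h' | h'
    · rw [h']
      simp [Complex.zero_cpow (sx_ne hσ w)]
    rw [ch_mul x h h', Nat.cast_mul, Complex.natCast_mul_natCast_cpow]
    ring

lemma prime_rpow_lt {p : ℕ} (hp : p.Prime) {σ : ℝ} (hσ : 0 ≤ σ) : (p : ℝ) ^ (-(1 / 2 + σ)) < 1 :=
  Real.rpow_lt_one_of_one_lt_of_neg (by exact_mod_cast hp.one_lt) (by linarith)

lemma euler {P : Finset ℕ} (hP : ∀ p ∈ P, p.Prime) {σ : ℝ} (hσ : 0 ≤ σ) (w : ℝ) (x : Om) :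
    Summable (fun m : Nat.factoredNumbers P => ((m : ℕ) : ℝ) ^ (-(1 / 2 + σ))) ∧
    HasSum (fun m : Nat.factoredNumbers P => ((m : ℕ) : ℂ) ^ sx σ w * ch x m)
      (∏ p ∈ P, (1 - (p : ℂ) ^ sx σ w * e1 (x p))⁻¹) := by
  obtain ⟨h1, h2⟩ := EulerProduct.summable_and_hasSum_factoredNumbers_prod_filter_prime_geometric
    (f := fh σ w hσ x) (fun {p} hp => by
      change ‖(p : ℂ) ^ sx σ w * ch x p‖ < 1
      rw [norm_mul, norm_ch, mul_one, norm_cpow_sx hp.ne_zero]
      exact prime_rpow_lt hp hσ) P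
  constructor
  · refine h1.congr fun m => ?_
    change ‖((m : ℕ) : ℂ) ^ sx σ w * ch x m‖ = _
    rw [norm_mul, norm_ch, mul_one, norm_cpow_sx (Nat.ne_zero_of_mem_factoredNumbers m.2)]
  · rw [Finset.filter_true_of_mem hP] at h2
    have e : ∏ p ∈ P, (1 - (p : ℂ) ^ sx σ w * e1 (x p))⁻¹ = ∏ p ∈ P, (1 - fh σ w hσ x p)⁻¹ := by
      refine Finset.prod_congr rfl fun p hp => ?_
      change _ = (1 - (p : ℂ) ^ sx σ w * ch x p)⁻¹
      rw [ch_prime x (hP p hp)]
    rw [e]
    exact h2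

/-- the Euler product -/
noncomputable def FP (P : Finset ℕ) (σ w : ℝ) (x : Om) : ℂ :=
  ∏ p ∈ P, (1 - (p : ℂ) ^ sx σ w * e1 (x p))⁻¹

/-- the bound of the Euler product -/
noncomputable def BF (P : Finset ℕ) (σ : ℝ) : ℝ := ∏ p ∈ P, (1 - (p : ℝ) ^ (-(1 / 2 + σ)))⁻¹

lemma norm_FP_le {P : Finset ℕ} (hP : ∀ p ∈ P, p.Prime) {σ : ℝ} (hσ : 0 ≤ σ) (w : ℝ) (x : Om) :
    ‖FP P σ w x‖ ≤ BF P σ := by
  unfold FP BF
  rw [norm_prod]
  refine Finset.prod_le_prod (fun _ _ => norm_nonneg _) fun p hp => ?_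
  have h1 := prime_rpow_lt (hP p hp) hσ
  have h2 : 1 - (p : ℝ) ^ (-(1 / 2 + σ)) ≤ ‖1 - (p : ℂ) ^ sx σ w * e1 (x p)‖ := by
    have h3 := norm_sub_norm_le (1 : ℂ) ((p : ℂ) ^ sx σ w * e1 (x p))
    rwa [norm_one, norm_mul, norm_e1, mul_one, norm_cpow_sx (hP p hp).ne_zero] at h3
  rw [norm_inv]
  exact inv_anti₀ (by linarith) h2

lemma dep_FP {P : Finset ℕ} {S : Set ℕ} (h : ∀ p ∈ P, p ∈ S) (σ w : ℝ) : Dep S (FP P σ w) := by
  intro x y hxy
  unfold FP
  refine Finset.prod_congr rfl fun p hp => ?_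
  rw [hxy p (h p hp)]

lemma measurable_FP {P : Finset ℕ} (hP : ∀ p ∈ P, p.Prime) (σ v : ℝ) :
    Measurable fun q : Om × ℝ => FP P σ (v + q.2) q.1 := by
  unfold FP
  refine Finset.measurable_fun_prod _ fun p hp => ?_
  have hp0 : (p : ℂ) ≠ 0 := by exact_mod_cast (hP p hp).ne_zero
  have h1 : Continuous fun q : Om × ℝ => (p : ℂ) ^ sx σ (v + q.2) * e1 (q.1 p) := by
    have e : ∀ q : Om × ℝ, (p : ℂ) ^ sx σ (v + q.2) = cexp (Complex.log p * sx σ (v + q.2)) :=
      fun q => Complex.cpow_def_of_ne_zero hp0 _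
    simp only [e]
    unfold sx
    fun_prop
  exact (h1.measurable.const_sub 1).inv

/-! ### the transform of the Euler product -/

/-- the weight -/
noncomputable def st (Λ a ξ : ℝ) : ℂ := (Real.smoothTransition ((a - ξ) / (Λ / 20)) : ℂ)

/-- the transform -/
noncomputable def Mt (K : ℝ → ℂ) (P : Finset ℕ) (σ v : ℝ) (r : ℕ) (x : Om) : ℂ :=
  ∫ u, K u * ((r : ℂ) ^ (-(I * u) : ℂ) * FP P σ (v + u) x)

lemma exp_log_mul {r m : ℕ} (hr : r ≠ 0) (hm : m ≠ 0) (u : ℝ) :
    (r : ℂ) ^ (-(I * u) : ℂ) * (m : ℂ) ^ (-(I * u) : ℂ)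
      = cexp (-(I * u * (Real.log ((r : ℝ) * m) : ℝ))) := by
  have hr' : (r : ℂ) ≠ 0 := by exact_mod_cast hr
  have hm' : (m : ℂ) ≠ 0 := by exact_mod_cast hm
  rw [Complex.cpow_def_of_ne_zero hr', Complex.cpow_def_of_ne_zero hm', ← Complex.exp_add,
    Real.log_mul (by exact_mod_cast hr) (by exact_mod_cast hm), ← Complex.natCast_log,
    ← Complex.natCast_log]
  congr 1
  push_cast
  ring

lemma continuous_cpow_I {r : ℕ} (hr : r ≠ 0) : Continuous fun u : ℝ => (r : ℂ) ^ (-(I * u) : ℂ) := by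
  have hr' : (r : ℂ) ≠ 0 := by exact_mod_cast hr
  simp only [Complex.cpow_def_of_ne_zero hr']
  fun_prop

lemma hasSum_Mt {C Λ a : ℝ} {K : ℝ → ℂ} (hΛ : 0 < Λ) (hKc : Continuous K)
    (hK : ∀ u, ‖K u‖ ≤ C * kf Λ u)
    (hrep : ∀ ξ : ℝ, 0 ≤ ξ → (Real.smoothTransition ((a - ξ) / (Λ / 20)) : ℂ)
      = ∫ u, K u * cexp (-(I * u * ξ)))
    {P : Finset ℕ} (hP : ∀ p ∈ P, p.Prime) {σ : ℝ} (hσ : 0 ≤ σ) (v : ℝ) {r : ℕ} (hr : r ≠ 0)
    (x : Om) :
    HasSum (fun m : Nat.factoredNumbers P => ((m : ℕ) : ℂ) ^ sx σ v * ch x m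
      * st Λ a (Real.log ((r : ℝ) * (m : ℕ)))) (Mt K P σ v r x) := by
  have hKi : Integrable K := ((integrable_kf hΛ).const_mul C).mono' hKc.aestronglyMeasurable
    (Eventually.of_forall hK)
  have hnorm : ∀ (m : Nat.factoredNumbers P) (u : ℝ),
      ‖K u * ((r : ℂ) ^ (-(I * u) : ℂ) * (((m : ℕ) : ℂ) ^ sx σ (v + u) * ch x m))‖
        = ‖K u‖ * ((m : ℕ) : ℝ) ^ (-(1 / 2 + σ)) := by
    intro m u
    rw [norm_mul, norm_mul, norm_mul, norm_cpow_I hr, norm_ch, one_mul, mul_one,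
      norm_cpow_sx (Nat.ne_zero_of_mem_factoredNumbers m.2)]
  have hint : ∀ m : Nat.factoredNumbers P, Integrable fun u : ℝ =>
      K u * ((r : ℂ) ^ (-(I * u) : ℂ) * (((m : ℕ) : ℂ) ^ sx σ (v + u) * ch x m)) := by
    intro m
    have hm' : (((m : ℕ)) : ℂ) ≠ 0 := by exact_mod_cast Nat.ne_zero_of_mem_factoredNumbers m.2
    refine (hKi.norm.mul_const (((m : ℕ) : ℝ) ^ (-(1 / 2 + σ)))).mono' ?_
      (Eventually.of_forall fun u => (hnorm m u).le)
    refine Continuous.aestronglyMeasurable ?_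
    refine hKc.mul ((continuous_cpow_I hr).mul ?_)
    simp only [Complex.cpow_def_of_ne_zero hm']
    unfold sx
    fun_prop
  have hsum : Summable fun m : Nat.factoredNumbers P => ∫ u : ℝ,
      ‖K u * ((r : ℂ) ^ (-(I * u) : ℂ) * (((m : ℕ) : ℂ) ^ sx σ (v + u) * ch x m))‖ := by
    simp only [hnorm, integral_mul_const]
    exact (euler hP hσ 0 x).1.mul_left _
  have h := hasSum_integral_of_summable_integral_norm hint hsum
  have e1 : ∀ u : ℝ, ∑' m : Nat.factoredNumbers P,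
      K u * ((r : ℂ) ^ (-(I * u) : ℂ) * (((m : ℕ) : ℂ) ^ sx σ (v + u) * ch x m))
      = K u * ((r : ℂ) ^ (-(I * u) : ℂ) * FP P σ (v + u) x) := fun u =>
    (((euler hP hσ (v + u) x).2.mul_left _).mul_left _).tsum_eq
  simp only [e1] at h
  have e2 : ∀ m : Nat.factoredNumbers P, ∫ u : ℝ,
      K u * ((r : ℂ) ^ (-(I * u) : ℂ) * (((m : ℕ) : ℂ) ^ sx σ (v + u) * ch x m))
      = ((m : ℕ) : ℂ) ^ sx σ v * ch x m * st Λ a (Real.log ((r : ℝ) * (m : ℕ))) := by
    intro m
    have hm0 := Nat.ne_zero_of_mem_factoredNumbers m.2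
    have hm' : (((m : ℕ)) : ℂ) ≠ 0 := by exact_mod_cast hm0
    have hlog : 0 ≤ Real.log ((r : ℝ) * (m : ℕ)) := by
      refine Real.log_nonneg ?_
      have h1 : (1 : ℝ) ≤ r := by exact_mod_cast Nat.one_le_iff_ne_zero.2 hr
      have h2 : (1 : ℝ) ≤ ((m : ℕ) : ℝ) := by exact_mod_cast Nat.one_le_iff_ne_zero.2 hm0
      nlinarith
    have e3 : ∀ u : ℝ, K u * ((r : ℂ) ^ (-(I * u) : ℂ) * (((m : ℕ) : ℂ) ^ sx σ (v + u) * ch x m))
        = ((m : ℕ) : ℂ) ^ sx σ v * ch x m
          * (K u * cexp (-(I * u * (Real.log ((r : ℝ) * (m : ℕ)) : ℝ)))) := by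
      intro u
      rw [← exp_log_mul hr hm0, sx_add, Complex.cpow_add _ _ hm']
      ring
    simp only [e3]
    rw [integral_const_mul, ← hrep _ hlog]
    rfl
  simp only [e2] at h
  exact h

lemma measurable_Mt {K : ℝ → ℂ} (hKc : Continuous K) {P : Finset ℕ} (hP : ∀ p ∈ P, p.Prime)
    (σ v : ℝ) {r : ℕ} (hr : r ≠ 0) : Measurable (Mt K P σ v r) := by
  have h1 : Measurable fun q : Om × ℝ =>
      K q.2 * ((r : ℂ) ^ (-(I * q.2) : ℂ) * FP P σ (v + q.2) q.1) :=
    (hKc.measurable.comp measurable_snd).mul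
      (((continuous_cpow_I hr).measurable.comp measurable_snd).mul (measurable_FP hP σ v))
  exact (h1.stronglyMeasurable.integral_prod_right' (ν := volume)).measurable

lemma dep_Mt {K : ℝ → ℂ} {P : Finset ℕ} {S : Set ℕ} (h : ∀ p ∈ P, p ∈ S) (σ v : ℝ) (r : ℕ) :
    Dep S (Mt K P σ v r) := by
  intro x y hxy
  unfold Mt
  congr 1
  funext u
  rw [dep_FP h σ (v + u) x y hxy]

/-! ### the decomposition of the smooth sum -/

open Classical in
lemma SU_eq {C Λ a : ℝ} {K : ℝ → ℂ} (hΛ : 0 < Λ) (hKc : Continuous K)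
    (hK : ∀ u, ‖K u‖ ≤ C * kf Λ u) (ha : 0 ≤ a)
    (hrep : ∀ ξ : ℝ, 0 ≤ ξ → (Real.smoothTransition ((a - ξ) / (Λ / 20)) : ℂ)
      = ∫ u, K u * cexp (-(I * u * ξ)))
    {Y : ℝ} {P : Finset ℕ} (hPdef : P = (Finset.Icc 1 ⌊Real.exp Y⌋₊).filter Nat.Prime)
    {σ : ℝ} (hσ : 0 ≤ σ) (v : ℝ) (x : Om) :
    SU Λ a σ v x = ∑ r ∈ insert 1 (RoS Y a), ((r : ℂ) ^ sx σ v * ch x r) * Mt K P σ v r x := by
  set N := ⌊Real.exp a⌋₊ with hN
  have hP : ∀ p ∈ P, p.Prime := fun p hp => by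
    rw [hPdef, Finset.mem_filter] at hp
    exact hp.2
  have hmemP : ∀ p : ℕ, p.Prime → ((p : ℝ) ≤ Real.exp Y ↔ p ∈ P) := by
    intro p hp
    rw [hPdef, Finset.mem_filter, Finset.mem_Icc, Nat.le_floor_iff (Real.exp_pos _).le]
    exact ⟨fun h => ⟨⟨hp.pos, h⟩, hp⟩, fun h => h.1.2⟩
  have hN1 : 1 ≤ N := by
    rw [hN, Nat.one_le_floor_iff]
    exact Real.one_le_exp ha
  set B := (Finset.Icc 1 N).filter (fun m => m ∈ Nat.factoredNumbers P) with hB
  set G : ℕ → ℂ := fun n => st Λ a (Real.log n) * ((n : ℂ) ^ sx σ v * ch x n) with hG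
  -- the weights vanish beyond `N`
  have hst0 : ∀ n : ℕ, N < n → st Λ a (Real.log n) = 0 := by
    intro n hn
    have h1 : Real.exp a < n := (Nat.floor_lt (Real.exp_pos a).le).1 hn
    have h2 : a < Real.log n := by
      rw [Real.lt_log_iff_exp_lt (lt_trans (Real.exp_pos a) h1)]
      exact h1
    unfold st
    rw [Real.smoothTransition.zero_of_nonpos]
    · simp
    · exact div_nonpos_of_nonpos_of_nonneg (by linarith) (by positivity)
  -- the transforms are finite sums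
  have hM : ∀ r : ℕ, r ≠ 0 → Mt K P σ v r x
      = ∑ m ∈ B, (m : ℂ) ^ sx σ v * ch x m * st Λ a (Real.log ((r : ℝ) * m)) := by
    intro r hr
    have h1 := hasSum_Mt (a := a) hΛ hKc hK hrep hP hσ v hr x
    set f : ℕ → ℂ := fun m => (m : ℂ) ^ sx σ v * ch x m * st Λ a (Real.log ((r : ℝ) * m)) with hf
    have h2 : HasSum ((Nat.factoredNumbers P).indicator f) (Mt K P σ v r x) := by
      rw [← hasSum_subtype_iff_indicator]
      exact h1
    have h3 : HasSum ((Nat.factoredNumbers P).indicator f)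
        (∑ m ∈ B, (Nat.factoredNumbers P).indicator f m) := by
      refine hasSum_sum_of_ne_finset_zero fun m hm => ?_
      by_cases hmP : m ∈ Nat.factoredNumbers P
      · rw [Set.indicator_of_mem hmP, hf]
        have hm0 := Nat.ne_zero_of_mem_factoredNumbers hmP
        have hmN : N < m := by
          by_contra hc
          refine hm ?_
          rw [hB, Finset.mem_filter, Finset.mem_Icc]
          exact ⟨⟨by omega, by omega⟩, hmP⟩
        have h4 := hst0 (r * m) (lt_of_lt_of_le hmN (Nat.le_mul_of_pos_left m (by omega)))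
        push_cast at h4
        simp only
        rw [h4, mul_zero]
      · exact Set.indicator_of_notMem hmP f
    rw [h2.unique h3]
    refine Finset.sum_congr rfl fun m hm => ?_
    rw [hB, Finset.mem_filter] at hm
    exact Set.indicator_of_mem hm.2 f
  have hRough : ∀ r ∈ insert 1 (RoS Y a), Rough P r := by
    intro r hr
    rw [Finset.mem_insert] at hr
    rcases hr with rfl | hr
    · exact ⟨le_rfl, fun p hp hd => (hP p hp).one_lt.ne' (Nat.dvd_one.1 hd)⟩
    · unfold RoS at hr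
      rw [Finset.mem_filter, Finset.mem_Icc] at hr
      refine ⟨by omega, fun p hp hd => ?_⟩
      have h1 := hr.2 p (Nat.mem_primeFactors.2 ⟨hP p hp, hd, by omega⟩)
      have h2 := (hmemP p (hP p hp)).2 hp
      linarith
  have hR0 : ∀ r ∈ insert 1 (RoS Y a), r ≠ 0 := fun r hr => by
    have := (hRough r hr).1
    omega
  -- right-hand side
  have hrhs : ∑ r ∈ insert 1 (RoS Y a), ((r : ℂ) ^ sx σ v * ch x r) * Mt K P σ v r x
      = ∑ q ∈ (insert 1 (RoS Y a)) ×ˢ B, G (q.1 * q.2) := by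
    rw [Finset.sum_product]
    refine Finset.sum_congr rfl fun r hr => ?_
    rw [hM r (hR0 r hr), Finset.mul_sum]
    refine Finset.sum_congr rfl fun m hm => ?_
    have hm0 : m ≠ 0 := by
      rw [hB, Finset.mem_filter, Finset.mem_Icc] at hm
      omega
    simp only [hG]
    have e : ((r * m : ℕ) : ℂ) ^ sx σ v = (r : ℂ) ^ sx σ v * (m : ℂ) ^ sx σ v := by
      rw [Nat.cast_mul, Complex.natCast_mul_natCast_cpow]
    rw [ch_mul x (hR0 r hr) hm0, e, Nat.cast_mul]
    ring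
  have himg : ∑ q ∈ (insert 1 (RoS Y a)) ×ˢ B, G (q.1 * q.2)
      = ∑ n ∈ ((insert 1 (RoS Y a)) ×ˢ B).image (fun q => q.1 * q.2), G n := by
    rw [Finset.sum_image]
    intro q hq q' hq' h
    have h1 := Finset.mem_product.1 (Finset.mem_coe.1 hq)
    have h2 := Finset.mem_product.1 (Finset.mem_coe.1 hq')
    have h3 := (Finset.mem_filter.1 h1.2).2
    have h4 := (Finset.mem_filter.1 h2.2).2
    obtain ⟨h5, h6⟩ := rough_smooth_inj (hRough _ h1.1) (hRough _ h2.1) h3 h4 h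
    exact Prod.ext h5 h6
  rw [hrhs, himg]
  have hSU : SU Λ a σ v x = ∑ n ∈ Finset.Icc 1 N, G n := rfl
  rw [hSU]
  refine Finset.sum_subset ?_ ?_
  · intro n hn
    rw [Finset.mem_Icc] at hn
    obtain ⟨r, m, h1, h2, h3⟩ := exists_rough_smooth (S := P) hP (n := n) (by omega)
    have hm0 := Nat.pos_of_ne_zero (Nat.ne_zero_of_mem_factoredNumbers h2)
    have hr0 : 0 < r := h1.1
    rw [Finset.mem_image]
    refine ⟨(r, m), ?_, h3⟩
    rw [Finset.mem_product]
    have hrn : r ≤ n := by rw [← h3]; exact Nat.le_mul_of_pos_right r hm0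
    have hmn : m ≤ n := by rw [← h3]; exact Nat.le_mul_of_pos_left m hr0
    constructor
    · rw [Finset.mem_insert]
      rcases Nat.lt_or_ge 1 r with h4 | h4
      · right
        unfold RoS
        rw [Finset.mem_filter, Finset.mem_Icc]
        refine ⟨⟨h4, hrn.trans hn.2⟩, fun p hp => ?_⟩
        by_contra hc
        rw [not_lt] at hc
        have hp' := Nat.prime_of_mem_primeFactors hp
        exact h1.2 p ((hmemP p hp').1 hc) (Nat.dvd_of_mem_primeFactors hp)
      · left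
        change r = 1
        omega
    · rw [hB, Finset.mem_filter, Finset.mem_Icc]
      exact ⟨⟨hm0, hmn.trans hn.2⟩, h2⟩
  · intro n hn hn'
    have hn0 : n ≠ 0 := by
      rw [Finset.mem_image] at hn
      obtain ⟨q, hq, rfl⟩ := hn
      have h1 := Finset.mem_product.1 hq
      have h2 := Finset.mem_Icc.1 (Finset.mem_filter.1 h1.2).1
      exact mul_ne_zero (hR0 _ h1.1) (by omega)
    have hnN : N < n := by
      by_contra hc
      exact hn' (Finset.mem_Icc.2 ⟨by omega, by omega⟩)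
    simp only [hG]
    rw [hst0 n hnN, zero_mul]

/-! ### orthogonality of the rough characters -/

lemma orth (T : Finset ℕ) (R : Finset ℕ) (hR : ∀ r ∈ R, r ≠ 0 ∧ ∀ p ∈ r.primeFactors, p ∉ T)
    {f : Om → ℝ} {Z : ℕ → Om → ℂ} {B B' : ℝ} (hf : Measurable f) (hfd : Dep (T : Set ℕ) f)
    (hfB : ∀ x, 0 ≤ f x ∧ f x ≤ B) (hZ : ∀ r ∈ R, Measurable (Z r) ∧ Dep (T : Set ℕ) (Z r) ∧
      ∀ x, ‖Z r x‖ ≤ B') :
    ∫ x, f x * ‖∑ r ∈ R, ch x r * Z r x‖ ^ 2 ∂mu = ∑ r ∈ R, ∫ x, f x * ‖Z r x‖ ^ 2 ∂mu := by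
  classical
  have hexp : ∀ x : Om, ((f x * ‖∑ r ∈ R, ch x r * Z r x‖ ^ 2 : ℝ) : ℂ)
      = ∑ r ∈ R, ∑ r' ∈ R, ((f x : ℂ) * (Z r x * conj (Z r' x))) * (ch x r * conj (ch x r')) := by
    intro x
    push_cast
    rw [← Complex.mul_conj', map_sum, Finset.sum_mul_sum, Finset.mul_sum]
    refine Finset.sum_congr rfl fun r _ => ?_
    rw [Finset.mul_sum]
    refine Finset.sum_congr rfl fun r' _ => ?_
    rw [map_mul]
    ring
  have hmeas : ∀ r ∈ R, ∀ r' ∈ R, Measurable fun x : Om => (f x : ℂ) * (Z r x * conj (Z r' x)) :=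
    fun r hr r' hr' => (Complex.measurable_ofReal.comp hf).mul ((hZ r hr).1.mul
      (Complex.continuous_conj.measurable.comp (hZ r' hr').1))
  have hbd : ∀ r ∈ R, ∀ r' ∈ R, ∀ x : Om, ‖(f x : ℂ) * (Z r x * conj (Z r' x))‖ ≤ B * (B' * B') := by
    intro r hr r' hr' x
    have h1 := (hZ r hr).2.2 x
    have h2 := (hZ r' hr').2.2 x
    have h3 := hfB x
    rw [norm_mul, norm_mul, Complex.norm_conj, Complex.norm_real, Real.norm_eq_abs,
      abs_of_nonneg h3.1]
    have h4 : 0 ≤ B' := (norm_nonneg _).trans h1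
    exact mul_le_mul h3.2 (mul_le_mul h1 h2 (norm_nonneg _) h4) (by positivity) (h3.1.trans h3.2)
  have hint : ∀ r ∈ R, ∀ r' ∈ R, Integrable (fun x : Om =>
      ((f x : ℂ) * (Z r x * conj (Z r' x))) * (ch x r * conj (ch x r'))) mu := by
    intro r hr r' hr'
    refine integrable_of_bd (C := B * (B' * B')) ?_ fun x => ?_
    · refine ((hmeas r hr r' hr').mul ?_).aestronglyMeasurable
      exact ((continuous_ch r).mul (Complex.continuous_conj.comp (continuous_ch r'))).measurable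
    · have e : ‖ch x r * conj (ch x r')‖ = 1 := by
        rw [norm_mul, Complex.norm_conj, norm_ch, norm_ch, mul_one]
      rw [norm_mul, e, mul_one]
      exact hbd r hr r' hr' x
  have hterm : ∀ r ∈ R, ∀ r' ∈ R, ∫ x,
      ((f x : ℂ) * (Z r x * conj (Z r' x))) * (ch x r * conj (ch x r')) ∂mu
      = if r = r' then ((∫ x, f x * ‖Z r x‖ ^ 2 ∂mu : ℝ) : ℂ) else 0 := by
    intro r hr r' hr'
    set T' : Finset ℕ := r.primeFactors ∪ r'.primeFactors with hT'
    have hdisj : Disjoint T T' := by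
      rw [Finset.disjoint_right]
      intro p hp
      rw [hT', Finset.mem_union] at hp
      rcases hp with hp | hp
      · exact (hR r hr).2 p hp
      · exact (hR r' hr').2 p hp
    rw [integral_mul_of_dep (F := fun x => (f x : ℂ) * (Z r x * conj (Z r' x)))
      (G := fun x => ch x r * conj (ch x r')) hdisj (hmeas r hr r' hr')
      ((continuous_ch r).mul (Complex.continuous_conj.comp (continuous_ch r'))).measurable ?_ ?_,
      integral_ch (hR r hr).1 (hR r' hr').1]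
    · by_cases h : r = r'
      · subst h
        rw [if_pos rfl, if_pos rfl, mul_one, ← integral_complex_ofReal]
        refine integral_congr_ae (Eventually.of_forall fun x => ?_)
        simp only
        rw [Complex.mul_conj']
        push_cast
        ring
      · rw [if_neg h, if_neg h, mul_zero]
    · exact Dep.comp₂ hfd (Dep.comp₂ (hZ r hr).2.1 (hZ r' hr').2.1 fun a b => a * conj b)
        fun (a : ℝ) (b : ℂ) => (a : ℂ) * b
    · have h1 : Dep (T' : Set ℕ) fun x => ch x r := dep_ch fun p hp => by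
        rw [hT', Finset.coe_union]; exact Or.inl hp
      have h2 : Dep (T' : Set ℕ) fun x => ch x r' := dep_ch fun p hp => by
        rw [hT', Finset.coe_union]; exact Or.inr hp
      exact Dep.comp₂ h1 h2 fun a b => a * conj b
  have hC : ((∫ x, f x * ‖∑ r ∈ R, ch x r * Z r x‖ ^ 2 ∂mu : ℝ) : ℂ)
      = ((∑ r ∈ R, ∫ x, f x * ‖Z r x‖ ^ 2 ∂mu : ℝ) : ℂ) := by
    rw [← integral_complex_ofReal]
    simp only [hexp]
    rw [integral_finsetSum _ fun r hr => integrable_finsetSum _ fun r' hr' => hint r hr r' hr']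
    push_cast
    refine Finset.sum_congr rfl fun r hr => ?_
    rw [integral_finsetSum _ fun r' hr' => hint r hr r' hr']
    rw [Finset.sum_congr rfl fun r' hr' => hterm r hr r' hr', Finset.sum_ite_eq, if_pos hr]
  exact_mod_cast hC

/-! ### Cauchy-Schwarz against the kernel -/

lemma kernel_sq {C Λ : ℝ} {K : ℝ → ℂ} (hΛ : 0 < Λ)
    (hK : ∀ u, ‖K u‖ ≤ C * kf Λ u) {G : ℝ → ℂ} {B : ℝ} (hG : Measurable G) (hGB : ∀ u, ‖G u‖ ≤ B) :
    ‖∫ u, K u * G u‖ ^ 2 ≤ C ^ 2 * (c8 + 1) * ∫ u, kf Λ u * ‖G u‖ ^ 2 := by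
  have hB : 0 ≤ B := (norm_nonneg _).trans (hGB 0)
  have hk := integrable_kf hΛ
  have hi1 : Integrable fun u => kf Λ u * ‖G u‖ := by
    refine (hk.mul_const B).mono' ((continuous_kf hΛ).measurable.mul hG.norm).aestronglyMeasurable
      (Eventually.of_forall fun u => ?_)
    rw [norm_mul, norm_norm, Real.norm_eq_abs, abs_of_nonneg (kf_nonneg hΛ u)]
    exact mul_le_mul_of_nonneg_left (hGB u) (kf_nonneg hΛ u)
  have hi2 : Integrable fun u => kf Λ u * ‖G u‖ ^ 2 := by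
    refine (hk.mul_const (B ^ 2)).mono'
      ((continuous_kf hΛ).measurable.mul (hG.norm.pow_const 2)).aestronglyMeasurable
      (Eventually.of_forall fun u => ?_)
    rw [norm_mul, norm_pow, norm_norm, Real.norm_eq_abs, abs_of_nonneg (kf_nonneg hΛ u)]
    exact mul_le_mul_of_nonneg_left (pow_le_pow_left₀ (norm_nonneg _) (hGB u) 2) (kf_nonneg hΛ u)
  set A1 := ∫ u, kf Λ u * ‖G u‖ with hA1
  set A2 := ∫ u, kf Λ u * ‖G u‖ ^ 2 with hA2
  have h1 : ‖∫ u, K u * G u‖ ≤ C * A1 := by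
    rw [hA1, ← integral_const_mul]
    refine norm_integral_le_of_norm_le (hi1.const_mul C) (Eventually.of_forall fun u => ?_)
    rw [norm_mul, ← mul_assoc]
    exact mul_le_mul_of_nonneg_right (hK u) (norm_nonneg _)
  have hA1n : 0 ≤ A1 := integral_nonneg fun u => mul_nonneg (kf_nonneg hΛ u) (norm_nonneg _)
  have hc := c8_nonneg
  have h2 : A1 ^ 2 ≤ (c8 + 1) * A2 := by
    set l := A1 / (c8 + 1) with hl
    have h3 : 0 ≤ ∫ u, kf Λ u * (‖G u‖ - l) ^ 2 :=
      integral_nonneg fun u => mul_nonneg (kf_nonneg hΛ u) (sq_nonneg _)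
    have h4 : ∫ u, kf Λ u * (‖G u‖ - l) ^ 2 = A2 - 2 * l * A1 + l ^ 2 * c8 := by
      have e : (fun u => kf Λ u * (‖G u‖ - l) ^ 2) = fun u =>
          kf Λ u * ‖G u‖ ^ 2 - 2 * l * (kf Λ u * ‖G u‖) + l ^ 2 * kf Λ u := by
        funext u; ring
      have j1 : Integrable fun u => 2 * l * (kf Λ u * ‖G u‖) := hi1.const_mul _
      have j2 : Integrable fun u => l ^ 2 * kf Λ u := hk.const_mul _
      have j3 : Integrable fun u => kf Λ u * ‖G u‖ ^ 2 - 2 * l * (kf Λ u * ‖G u‖) := hi2.sub j1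
      rw [e, integral_add j3 j2, integral_sub hi2 j1, integral_const_mul, integral_const_mul,
        integral_kf hΛ]
    rw [h4] at h3
    have h5 : 0 ≤ l ^ 2 := sq_nonneg l
    have h6 : l * (c8 + 1) = A1 := by rw [hl]; field_simp
    have h7 : 0 ≤ A2 - 2 * l * A1 + l ^ 2 * (c8 + 1) := by nlinarith
    have h8 : l ^ 2 * (c8 + 1) = l * A1 := by rw [← h6]; ring
    rw [h8] at h7
    have h9 : 0 ≤ (c8 + 1) * (A2 - l * A1) := mul_nonneg (by linarith) (by linarith)
    have h10 : (c8 + 1) * (l * A1) = A1 ^ 2 := by rw [← mul_assoc, mul_comm (c8 + 1) l, h6]; ring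
    linarith
  calc ‖∫ u, K u * G u‖ ^ 2 ≤ (C * A1) ^ 2 := pow_le_pow_left₀ (norm_nonneg _) h1 2
    _ = C ^ 2 * A1 ^ 2 := by ring
    _ ≤ C ^ 2 * ((c8 + 1) * A2) := by gcongr
    _ = _ := by ring

/-- Fubini for the kernel -/
lemma kernel_swap {Λ : ℝ} (hΛ : 0 < Λ) {G : Om × ℝ → ℂ} {B B' : ℝ} (hG : Measurable G)
    (hGB : ∀ q, ‖G q‖ ≤ B) {f : Om → ℝ} (hf : Measurable f) (hfB : ∀ x, 0 ≤ f x ∧ f x ≤ B') :
    Integrable (fun x => f x * ∫ u, kf Λ u * ‖G (x, u)‖ ^ 2) mu ∧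
    ∫ x, f x * (∫ u, kf Λ u * ‖G (x, u)‖ ^ 2) ∂mu
      = ∫ u, kf Λ u * ∫ x, f x * ‖G (x, u)‖ ^ 2 ∂mu := by
  have hB' : 0 ≤ B' := (hfB (fun _ => 0)).1.trans (hfB (fun _ => 0)).2
  have hmeas : Measurable fun q : Om × ℝ => f q.1 * (kf Λ q.2 * ‖G q‖ ^ 2) :=
    (hf.comp measurable_fst).mul (((continuous_kf hΛ).measurable.comp measurable_snd).mul
      (hG.norm.pow_const 2))
  have hi : Integrable (fun q : Om × ℝ => f q.1 * (kf Λ q.2 * ‖G q‖ ^ 2)) (mu.prod volume) := by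
    have h1 : Integrable (fun q : Om × ℝ => (1 : ℝ) * kf Λ q.2) (mu.prod volume) :=
      Integrable.mul_prod (f := fun _ : Om => (1 : ℝ)) (integrable_const _) (integrable_kf hΛ)
    refine (h1.const_mul (B' * B ^ 2)).mono' hmeas.aestronglyMeasurable
      (Eventually.of_forall fun q => ?_)
    have h2 := hfB q.1
    have h3 := kf_nonneg hΛ q.2
    have h4 := pow_le_pow_left₀ (norm_nonneg _) (hGB q) 2
    rw [norm_mul, norm_mul, norm_pow, norm_norm, Real.norm_eq_abs, Real.norm_eq_abs,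
      abs_of_nonneg h2.1, abs_of_nonneg h3]
    calc f q.1 * (kf Λ q.2 * ‖G q‖ ^ 2) ≤ B' * (kf Λ q.2 * B ^ 2) := by
          refine mul_le_mul h2.2 (mul_le_mul_of_nonneg_left h4 h3) (by positivity) hB'
      _ = _ := by ring
  have e1 : ∀ x, f x * (∫ u, kf Λ u * ‖G (x, u)‖ ^ 2) = ∫ u, f x * (kf Λ u * ‖G (x, u)‖ ^ 2) :=
    fun x => (integral_const_mul _ _).symm
  constructor
  · simp only [e1]
    exact hi.integral_prod_left
  · simp only [e1]
    rw [integral_integral_swap (f := fun x u => f x * (kf Λ u * ‖G (x, u)‖ ^ 2)) hi]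
    refine integral_congr_ae (Eventually.of_forall fun u => ?_)
    simp only
    rw [← integral_const_mul]
    refine integral_congr_ae (Eventually.of_forall fun x => ?_)
    simp only
    ring

end D3

open D3 in
/-- D3 -/
theorem suBound (hker : KerRep) : SuBound := by
  classical
  obtain ⟨C, hC1, hker⟩ := hker
  have hc8 := c8_nonneg
  refine ⟨C ^ 2 * (c8 + 1), ?_, ?_⟩
  · have h1 : 1 ≤ C ^ 2 := one_le_pow₀ hC1
    nlinarith
  intro A hA Λ a σ v hΛ ha1 ha2 hσ hσ1 f m g B hf hm hg hB hfd hmd hgd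
  obtain ⟨K, hKc, hK, hrep⟩ := hker Λ a hΛ ha1 ha2
  have hΛ0 : 0 < Λ := by linarith
  have ha0 : 0 ≤ a := by linarith
  set P : Finset ℕ := (Finset.Icc 1 ⌊Real.exp A.Y⌋₊).filter Nat.Prime with hPdef
  have hP : ∀ p ∈ P, p.Prime := fun p hp => (Finset.mem_filter.1 hp).2
  have hF : ∀ w x, A.F σ w x = FP P σ w x := fun w x => rfl
  set T : Finset ℕ := Finset.range (⌊Real.exp A.Y⌋₊ + 1) with hT
  have hTset : {p : ℕ | (p : ℝ) ≤ Real.exp A.Y} = (T : Set ℕ) := by
    ext p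
    rw [Set.mem_ofPred_eq, hT, Finset.mem_coe, Finset.mem_range, Nat.lt_succ_iff,
      Nat.le_floor_iff (Real.exp_pos _).le]
  rw [hTset] at hfd hmd hgd
  have hPT : ∀ p ∈ P, p ∈ (T : Set ℕ) := by
    intro p hp
    have := (Finset.mem_Icc.1 (Finset.mem_filter.1 hp).1).2
    rw [Finset.mem_coe, hT, Finset.mem_range]
    omega
  have hB0 : 0 ≤ B := (hB (fun _ => 0)).1.trans (hB (fun _ => 0)).2.1
  set R : Finset ℕ := insert 1 (RoS A.Y a) with hR
  have hRne : ∀ r ∈ R, r ≠ 0 := by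
    intro r hr
    rw [hR, Finset.mem_insert] at hr
    rcases hr with rfl | hr
    · exact one_ne_zero
    · have := (Finset.mem_Icc.1 (Finset.mem_filter.1 hr).1).1
      omega
  have hRT : ∀ r ∈ R, r ≠ 0 ∧ ∀ p ∈ r.primeFactors, p ∉ T := by
    intro r hr
    refine ⟨hRne r hr, fun p hp hpT => ?_⟩
    rw [hR, Finset.mem_insert] at hr
    rcases hr with rfl | hr
    · simp at hp
    · have h1 := (Finset.mem_filter.1 hr).2 p hp
      have h2 : p ∈ (T : Set ℕ) := hpT
      rw [← hTset] at h2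
      have h3 : (p : ℝ) ≤ Real.exp A.Y := h2
      linarith
  have hBF : 0 ≤ BF P σ := (norm_nonneg _).trans (norm_FP_le hP hσ 0 (fun _ => 0))
  -- the transforms
  have hKi : Integrable fun u => C * kf Λ u * BF P σ :=
    ((integrable_kf hΛ0).const_mul C).mul_const _
  have hMB : ∀ r ∈ R, ∀ x, ‖Mt K P σ v r x‖ ≤ C * c8 * BF P σ := by
    intro r hr x
    have h1 : ∫ u, C * kf Λ u * BF P σ = C * c8 * BF P σ := by
      rw [integral_mul_const, integral_const_mul, integral_kf hΛ0]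
    rw [← h1]
    refine norm_integral_le_of_norm_le hKi (Eventually.of_forall fun u => ?_)
    rw [norm_mul, norm_mul, norm_cpow_I (hRne r hr), one_mul]
    exact mul_le_mul (hK u) (norm_FP_le hP hσ _ x) (norm_nonneg _)
      (mul_nonneg (by linarith) (kf_nonneg hΛ0 u))
  set Z : ℕ → Om → ℂ := fun r x => (r : ℂ) ^ sx σ v * Mt K P σ v r x * m x
    - (if r = 1 then g x else 0) with hZ
  have hsxle : ∀ r ∈ R, ‖(r : ℂ) ^ sx σ v‖ ≤ 1 := by
    intro r hr
    rw [norm_cpow_sx (hRne r hr)]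
    exact Real.rpow_le_one_of_one_le_of_nonpos
      (by exact_mod_cast Nat.one_le_iff_ne_zero.2 (hRne r hr)) (by linarith)
  have hZp : ∀ r ∈ R, Measurable (Z r) ∧ Dep (T : Set ℕ) (Z r) ∧
      ∀ x, ‖Z r x‖ ≤ C * c8 * BF P σ * B + B := by
    intro r hr
    refine ⟨?_, ?_, fun x => ?_⟩
    · refine Measurable.sub (((measurable_Mt hKc hP σ v (hRne r hr)).const_mul _).mul hm) ?_
      by_cases h : r = 1
      · simp only [h, if_true]; exact hg
      · simp only [h, if_false]; exact measurable_const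
    · intro x y hxy
      simp only [hZ]
      rw [dep_Mt hPT σ v r x y hxy, hmd x y hxy, hgd x y hxy]
    · simp only [hZ]
      have h1 : ‖(r : ℂ) ^ sx σ v * Mt K P σ v r x * m x‖ ≤ C * c8 * BF P σ * B := by
        rw [norm_mul, norm_mul]
        refine mul_le_mul ?_ (hB x).2.2.1 (norm_nonneg _) (by positivity)
        calc _ ≤ 1 * (C * c8 * BF P σ) := mul_le_mul (hsxle r hr) (hMB r hr x) (norm_nonneg _)
              zero_le_one
          _ = _ := one_mul _
      have h2 : ‖(if r = 1 then g x else 0)‖ ≤ B := by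
        by_cases h : r = 1
        · simp only [h, if_true]; exact (hB x).2.2.2
        · simp only [h, if_false]; rw [norm_zero]; exact hB0
      exact (norm_sub_le _ _).trans (add_le_add h1 h2)
  have hdec : ∀ x, SU Λ a σ v x * m x - g x = ∑ r ∈ R, ch x r * Z r x := by
    intro x
    rw [SU_eq (C := C) hΛ0 hKc hK ha0 hrep hPdef hσ v x]
    simp only [hZ, mul_sub]
    rw [Finset.sum_sub_distrib, Finset.sum_mul]
    congr 1
    · refine Finset.sum_congr rfl fun r _ => ?_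
      ring
    · simp only [mul_ite, mul_zero]
      rw [Finset.sum_ite_eq', if_pos (Finset.mem_insert_self _ _), ch_one, one_mul]
  have horth := orth T R hRT (Z := Z) (B := B) hf hfd (fun x => ⟨(hB x).1, (hB x).2.1⟩) hZp
  simp only [hdec]
  rw [horth]
  have h1R : (1 : ℕ) ∉ RoS A.Y a := by
    intro h
    have := (Finset.mem_Icc.1 (Finset.mem_filter.1 h).1).1
    omega
  rw [hR, Finset.sum_insert h1R]
  -- bounds for the functions of `(x, u)`
  have hFm : Measurable fun q : Om × ℝ => FP P σ (v + q.2) q.1 := measurable_FP hP σ v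
  have hFB : ∀ q : Om × ℝ, ‖FP P σ (v + q.2) q.1‖ ≤ BF P σ := fun q => norm_FP_le hP hσ _ _
  have hfB : ∀ x, 0 ≤ f x ∧ f x ≤ B := fun x => ⟨(hB x).1, (hB x).2.1⟩
  refine add_le_add ?_ ?_
  · -- the term `r = 1`
    set G : Om × ℝ → ℂ := fun q => FP P σ (v + q.2) q.1 * m q.1 - g q.1 with hG
    have hGm : Measurable G := (hFm.mul (hm.comp measurable_fst)).sub (hg.comp measurable_fst)
    have hGB : ∀ q, ‖G q‖ ≤ BF P σ * B + B := by
      intro q
      refine (norm_sub_le _ _).trans (add_le_add ?_ (hB q.1).2.2.2)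
      rw [norm_mul]
      exact mul_le_mul (hFB q) (hB q.1).2.2.1 (norm_nonneg _) hBF
    obtain ⟨hi, hsw⟩ := kernel_swap hΛ0 hGm hGB hf hfB
    have hZ1 : ∀ x, Z 1 x = ∫ u, K u * G (x, u) := by
      intro x
      have hKint : Integrable K := ((integrable_kf hΛ0).const_mul C).mono'
        hKc.aestronglyMeasurable (Eventually.of_forall hK)
      have hone : ∫ u, K u = 1 := by
        have h := hrep 0 le_rfl
        rw [Real.smoothTransition.one_of_one_le] at h
        · rw [← ofReal_one, h]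
          refine integral_congr_ae (Eventually.of_forall fun u => ?_)
          simp
        · rw [sub_zero, le_div_iff₀ (by positivity)]
          linarith
      have hi1 : Integrable fun u => K u * FP P σ (v + u) x := by
        refine (hKint.norm.mul_const (BF P σ)).mono' ?_ (Eventually.of_forall fun u => ?_)
        · exact (hKc.measurable.mul (hFm.comp measurable_prodMk_left)).aestronglyMeasurable
        · rw [norm_mul]
          exact mul_le_mul_of_nonneg_left (norm_FP_le hP hσ _ x) (norm_nonneg _)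
      simp only [hZ, if_true, hG]
      unfold Mt
      simp only [Nat.cast_one, Complex.one_cpow, one_mul]
      have e : (fun u => K u * (FP P σ (v + u) x * m x - g x))
          = fun u => K u * FP P σ (v + u) x * m x - K u * g x := by
        funext u; ring
      rw [e, integral_sub (hi1.mul_const _) (hKint.mul_const _), integral_mul_const,
        integral_mul_const, hone, one_mul]
    calc ∫ x, f x * ‖Z 1 x‖ ^ 2 ∂mu
        ≤ ∫ x, C ^ 2 * (c8 + 1) * (f x * ∫ u, kf Λ u * ‖G (x, u)‖ ^ 2) ∂mu := by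
          refine integral_mono_of_nonneg (Eventually.of_forall fun x =>
            mul_nonneg (hfB x).1 (sq_nonneg _)) (hi.const_mul _)
            (Eventually.of_forall fun x => ?_)
          simp only
          rw [hZ1 x]
          have h1 := kernel_sq (C := C) hΛ0 hK (G := fun u => G (x, u))
            (hGm.comp measurable_prodMk_left) (fun u => hGB (x, u))
          calc _ ≤ f x * (C ^ 2 * (c8 + 1) * ∫ u, kf Λ u * ‖G (x, u)‖ ^ 2) :=
                mul_le_mul_of_nonneg_left h1 (hfB x).1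
            _ = _ := by ring
      _ = C ^ 2 * (c8 + 1) * ∫ u, kf Λ u * ∫ x, f x * ‖G (x, u)‖ ^ 2 ∂mu := by
          rw [integral_const_mul, hsw]
  · -- the other terms
    set G : Om × ℝ → ℂ := fun q => FP P σ (v + q.2) q.1 * m q.1 with hG
    have hGm : Measurable G := hFm.mul (hm.comp measurable_fst)
    have hGB : ∀ q, ‖G q‖ ≤ BF P σ * B := by
      intro q
      rw [hG, norm_mul]
      exact mul_le_mul (hFB q) (hB q.1).2.2.1 (norm_nonneg _) hBF
    obtain ⟨hi, hsw⟩ := kernel_swap hΛ0 hGm hGB hf hfB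
    have hGn : ∀ x u, ‖G (x, u)‖ ^ 2 = ‖A.F σ (v + u) x‖ ^ 2 * ‖m x‖ ^ 2 := by
      intro x u
      simp only [hG, hF]
      rw [norm_mul, mul_pow]
    have hterm : ∀ r ∈ RoS A.Y a, ∫ x, f x * ‖Z r x‖ ^ 2 ∂mu
        ≤ C ^ 2 * (c8 + 1) * (r : ℝ) ^ (-(1 + 2 * σ))
          * ∫ u, kf Λ u * ∫ x, f x * ‖G (x, u)‖ ^ 2 ∂mu := by
      intro r hr
      have hr1 : r ≠ 1 := fun h => h1R (h ▸ hr)
      have hr0 : r ≠ 0 := hRne r (by rw [hR]; exact Finset.mem_insert_of_mem hr)
      have hrn : ‖(r : ℂ) ^ sx σ v‖ ^ 2 = (r : ℝ) ^ (-(1 + 2 * σ)) := by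
        rw [norm_cpow_sx hr0, ← Real.rpow_natCast, ← Real.rpow_mul (by positivity)]
        congr 1
        push_cast
        ring
      have hZr : ∀ x, Z r x = (r : ℂ) ^ sx σ v
          * ∫ u, K u * ((r : ℂ) ^ (-(I * u) : ℂ) * G (x, u)) := by
        intro x
        simp only [hZ, if_neg hr1, sub_zero, hG]
        unfold Mt
        rw [mul_assoc, ← integral_mul_const]
        congr 1
        refine integral_congr_ae (Eventually.of_forall fun u => ?_)
        simp only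
        ring
      have hsq : ∀ x, ‖Z r x‖ ^ 2 ≤ (r : ℝ) ^ (-(1 + 2 * σ))
          * (C ^ 2 * (c8 + 1) * ∫ u, kf Λ u * ‖G (x, u)‖ ^ 2) := by
        intro x
        rw [hZr x, norm_mul, mul_pow, hrn]
        refine mul_le_mul_of_nonneg_left ?_ (by positivity)
        have hn : ∀ u : ℝ, ‖(r : ℂ) ^ (-(I * u) : ℂ) * G (x, u)‖ = ‖G (x, u)‖ := by
          intro u
          rw [norm_mul, norm_cpow_I hr0, one_mul]
        have h1 := kernel_sq (C := C) hΛ0 hK
          (G := fun u => (r : ℂ) ^ (-(I * u) : ℂ) * G (x, u)) (B := BF P σ * B)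
          ((continuous_cpow_I hr0).measurable.mul (hGm.comp measurable_prodMk_left))
          (fun u => by rw [hn]; exact hGB (x, u))
        simp only [hn] at h1
        exact h1
      calc ∫ x, f x * ‖Z r x‖ ^ 2 ∂mu
          ≤ ∫ x, C ^ 2 * (c8 + 1) * (r : ℝ) ^ (-(1 + 2 * σ))
            * (f x * ∫ u, kf Λ u * ‖G (x, u)‖ ^ 2) ∂mu := by
            refine integral_mono_of_nonneg (Eventually.of_forall fun x =>
              mul_nonneg (hfB x).1 (sq_nonneg _)) (hi.const_mul _)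
              (Eventually.of_forall fun x => ?_)
            simp only
            calc _ ≤ f x * ((r : ℝ) ^ (-(1 + 2 * σ))
                  * (C ^ 2 * (c8 + 1) * ∫ u, kf Λ u * ‖G (x, u)‖ ^ 2)) :=
                  mul_le_mul_of_nonneg_left (hsq x) (hfB x).1
              _ = _ := by ring
        _ = _ := by rw [integral_const_mul, hsw]
    refine (Finset.sum_le_sum hterm).trans (le_of_eq ?_)
    simp only [hGn]
    rw [← Finset.sum_mul, ← Finset.mul_sum]

end Pool.Agent.Lib.GT
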