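import Mathlib
import Pool.Agent.Lib.MP_f9aece_nt_gt.StmtsZ
import Pool.Agent.Lib.MP_f9aece_nt_h20.Afe1

/-!
D1: the smooth approximate functional equation on the critical line, averaged over the length.
-/

set_option autoImplicit false

namespace Pool.Agent.Lib.GT

open MeasureTheory Complex Set Filter Topology
open scoped SchwartzMap ComplexConjugate ContDiff
open Pool.Agent.H20.Chi (chi norm_chi)
open Pool.Agent.H20.Smooth

namespace D1

/-- the smooth sums as sums over a fixed range -/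
lemma su_eq {Λ a : ℝ} (hΛ : 0 < Λ) {N : ℕ} (hN : Real.exp a ≤ N) (t : ℝ) :
    SU Λ a 0 0 (om t) = ∑ n ∈ Finset.Icc 1 N, sg ((a - Real.log n) / (Λ / 20))
      * (n : ℂ) ^ (-(1 / 2 + I * t) : ℂ) := by
  unfold SU
  have hs : Finset.Icc 1 ⌊Real.exp a⌋₊ ⊆ Finset.Icc 1 N := by
    refine Finset.Icc_subset_Icc le_rfl ?_
    have h1 : ((⌊Real.exp a⌋₊ : ℕ) : ℝ) ≤ N := (Nat.floor_le (Real.exp_pos a).le).trans hN
    exact_mod_cast h1
  rw [← Finset.sum_subset hs]
  · refine Finset.sum_congr rfl fun n hn => ?_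
    have hn1 : 1 ≤ n := (Finset.mem_Icc.mp hn).1
    have hn0 : n ≠ 0 := by omega
    have hnC : (n : ℂ) ≠ 0 := by exact_mod_cast hn0
    rw [ch_om t hn0, ← Complex.cpow_add _ _ hnC]
    unfold sg
    congr 2
    push_cast
    ring
  · intro n hn hn'
    have hn1 : 1 ≤ n := (Finset.mem_Icc.mp hn).1
    have h2 : ¬ Real.log n ≤ a := fun h => hn' ((mem_iff hn1 a).mpr h)
    rw [sg_zero, zero_mul]
    exact div_nonpos_of_nonpos_of_nonneg (by linarith) (by positivity)

/-- the smooth sums depend continuously on their length -/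
lemma continuousOn_su {Λ : ℝ} (hΛ : 0 < Λ) (B t : ℝ) :
    ContinuousOn (fun a => ‖SU Λ a 0 0 (om t)‖ ^ 2) (Iic B) := by
  set N : ℕ := ⌈Real.exp B⌉₊ with hN
  have hc : Continuous (fun a : ℝ => ‖∑ n ∈ Finset.Icc 1 N, sg ((a - Real.log n) / (Λ / 20))
      * (n : ℂ) ^ (-(1 / 2 + I * t) : ℂ)‖ ^ 2) := by
    refine (Continuous.norm ?_).pow 2
    refine continuous_finsetSum _ fun n _ => Continuous.mul ?_ continuous_const
    exact sg_contDiff.continuous.comp (by fun_prop)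
  refine hc.continuousOn.congr fun a ha => ?_
  simp only
  rw [su_eq hΛ ((Real.exp_le_exp.mpr ha).trans (Nat.le_ceil _))]

/-- the sum over a window which is `1` on `[0, b - w]` -/
lemma sum_window {Λ a α b : ℝ} (hΛ : 0 < Λ) (h : Pr a α b (Λ / 20)) (ha : a + α ≤ 0) {N : ℕ}
    (hN : Real.exp b ≤ N) (t : ℝ) :
    ∑ n ∈ Finset.Icc 1 N, BS h (Real.log n) * (n : ℂ) ^ (-(1 / 2 + I * t : ℂ))
      = SU Λ b 0 0 (om t) := by
  rw [su_eq hΛ hN]
  refine Finset.sum_congr rfl fun n _ => ?_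
  have h0 : 0 ≤ Real.log n := Real.log_natCast_nonneg n
  rw [BS_apply, bm_right h (by linarith)]

/-- **Approximate functional equation** with smooth sums. -/
theorem afe_pt : ∃ C : ℝ, 0 ≤ C ∧ ∀ Λ : ℝ, 200 ≤ Λ → ∀ t : ℝ, Real.exp (9 / 10 * Λ) ≤ t →
    t ≤ 3 * Real.exp Λ → ∀ c : ℝ, 0 ≤ c → c ≤ 13 / 20 * Λ →
    0 ≤ Real.log (t / (2 * Real.pi)) - c + Λ / 20 →
    Real.log (t / (2 * Real.pi)) - c + Λ / 20 ≤ 13 / 20 * Λ →
    ‖riemannZeta (1 / 2 + I * t)‖ ≤ ‖SU Λ c 0 0 (om t)‖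
      + ‖SU Λ (Real.log (t / (2 * Real.pi)) - c + Λ / 20) 0 0 (om t)‖
      + C * Real.exp (-(9 / 20 * Λ)) := by
  have hc1 := c1_nonneg
  set M : ℝ := Real.pi * (4 * cM 1 + 8 * cM 3 + 4 * cM 5) with hM
  have hpi := Real.pi_pos
  have hM0 : 0 ≤ M := by
    have h1 := cM_nonneg 1
    have h3 := cM_nonneg 3
    have h5 := cM_nonneg 5
    positivity
  refine ⟨8 * c1 + 60 * M, by positivity, ?_⟩
  intro Λ hΛ t ht1 ht2 c hc0 hc hc'0 hc'
  have hΛ0 : 0 < Λ := by linarith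
  have ht0 : 0 < t := (Real.exp_pos _).trans_le ht1
  have ht : 1 ≤ t := (Real.one_le_exp (by linarith)).trans ht1
  set l : ℝ := Real.log (t / (2 * Real.pi)) with hl
  have hw : 1 ≤ Λ / 20 := by linarith
  have hlL : l ≤ 2 * Λ := by linarith
  -- windows
  have main : ∀ A : ℝ, 2 * Λ ≤ A → ∀ hA : 1 ≤ A,
      ‖Z1 (BS (pr_GA hA)) t‖ ≤ ‖SU Λ c 0 0 (om t)‖ + ‖SU Λ (l - c + Λ / 20) 0 0 (om t)‖
      + (8 * c1 + 60 * M) * Real.exp (-(9 / 20 * Λ)) := by
    intro A hA2 hA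
    have p1 : Pr (-(2 * A)) A c (Λ / 20) := ⟨by linarith, by linarith, by linarith⟩
    have p3 : Pr (c - Λ / 20) (Λ / 20) (2 * A) A := ⟨by linarith, by linarith, by linarith⟩
    have p4 : Pr (l - 2 * A) A (l - c + Λ / 20) (Λ / 20) :=
      ⟨by linarith, by linarith, by linarith⟩
    have hA0 : A ≠ 0 := by positivity
    have hdec : ∀ x, BS (pr_GA hA) x = BS p1 x + BS p3 x := by
      intro x
      rw [BS_apply, BS_apply, BS_apply]
      unfold bm
      have e1 := sg_one_sub' ((c - x) / (Λ / 20))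
      have e3 : (1 : ℝ) - (c - x) / (Λ / 20) = (x - (c - Λ / 20)) / (Λ / 20) := by
        field_simp
        ring
      rw [e3] at e1
      rw [e1]
      ring
    have hZ1 : Z1 (BS (pr_GA hA)) t = Z1 (BS p1) t + Z1 (BS p3) t := Z1_add hdec t
    have hrefl : ∀ y, BS p4 y = conj (BS p3 (l - y)) := by
      intro y
      rw [BS_apply, BS_apply]
      unfold bm
      have hcj : ∀ z, conj (sg z) = sg z := fun z => by unfold sg; rw [Complex.conj_ofReal]
      rw [map_sub, map_add, hcj, hcj, map_one]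
      have e1 : (l - y - (c - Λ / 20)) / (Λ / 20) = (l - c + Λ / 20 - y) / (Λ / 20) := by ring
      have e2 : (2 * A - (l - y)) / A = (y - (l - 2 * A)) / A := by ring
      rw [e1, e2]
      ring
    have hR := reflect1 (κ := BS p3) (κ' := BS p4) ht hrefl
    have hM3 := M3_BS_le p3 hw hA
    -- polar terms
    have hexp : 4 * c1 * Real.exp (13 / 20 * Λ / 2) / t ≤ 4 * c1 * Real.exp (-(9 / 20 * Λ)) := by
      rw [div_le_iff₀ ht0]
      have h1 : Real.exp (13 / 20 * Λ / 2) ≤ Real.exp (-(9 / 20 * Λ)) * t := by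
        calc Real.exp (13 / 20 * Λ / 2) ≤ Real.exp (-(9 / 20 * Λ) + 9 / 10 * Λ) :=
              Real.exp_le_exp.mpr (by linarith)
          _ = Real.exp (-(9 / 20 * Λ)) * Real.exp (9 / 10 * Λ) := Real.exp_add _ _
          _ ≤ Real.exp (-(9 / 20 * Λ)) * t := by gcongr
      calc 4 * c1 * Real.exp (13 / 20 * Λ / 2) ≤ 4 * c1 * (Real.exp (-(9 / 20 * Λ)) * t) := by
            gcongr
        _ = _ := by ring
    have q1 := norm_polar_bm_le p1 hA hw (B := 13 / 20 * Λ) (by linarith) ht0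
    have q4 := norm_polar_bm_le p4 hA hw (B := 13 / 20 * Λ) (by linarith) ht0
    -- the sums
    set N : ℕ := ⌈Real.exp (13 / 20 * Λ)⌉₊ with hN
    have hNL : Real.exp (13 / 20 * Λ) ≤ N := Nat.le_ceil _
    have hN1 : 1 ≤ N := Nat.one_le_ceil_iff.mpr (Real.exp_pos _)
    have hlogN : 13 / 20 * Λ ≤ Real.log N := by
      have := Real.log_le_log (Real.exp_pos _) hNL
      rwa [Real.log_exp] at this
    have d1 := smooth_sum (BS p1) hN1 (fun x hx => by
      rw [BS_apply]; exact bm_zero_right p1 (by linarith)) t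
    have d4 := smooth_sum (BS p4) hN1 (fun x hx => by
      rw [BS_apply]; exact bm_zero_right p4 (by linarith)) t
    have s1 := sum_window hΛ0 p1 (by linarith) (N := N)
      ((Real.exp_le_exp.mpr (by linarith)).trans hNL) t
    have s4 := sum_window hΛ0 p4 (by linarith) (N := N)
      ((Real.exp_le_exp.mpr (by linarith)).trans hNL) t
    have z1 : ‖Z1 (BS p1) t‖ ≤ ‖SU Λ c 0 0 (om t)‖ + 4 * c1 * Real.exp (-(9 / 20 * Λ)) := by
      have e : Z1 (BS p1) t = (∑ n ∈ Finset.Icc 1 N, BS p1 (Real.log n) *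
          (n : ℂ) ^ (-(1 / 2 + I * t : ℂ)))
          - ∫ x, BS p1 x * cexp ((1 / 2 - I * t) * x) := by
        rw [d1]; unfold Z1; ring
      rw [e, s1]
      exact (norm_sub_le _ _).trans (add_le_add le_rfl (q1.trans hexp))
    have z4 : ‖Z1 (BS p4) t‖ ≤ ‖SU Λ (l - c + Λ / 20) 0 0 (om t)‖
        + 4 * c1 * Real.exp (-(9 / 20 * Λ)) := by
      have e : Z1 (BS p4) t = (∑ n ∈ Finset.Icc 1 N, BS p4 (Real.log n) *
          (n : ℂ) ^ (-(1 / 2 + I * t : ℂ)))
          - ∫ x, BS p4 x * cexp ((1 / 2 - I * t) * x) := by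
        rw [d4]; unfold Z1; ring
      rw [e, s4]
      exact (norm_sub_le _ _).trans (add_le_add le_rfl (q4.trans hexp))
    have z3 : ‖Z1 (BS p3) t‖ ≤ ‖Z1 (BS p4) t‖ + 60 * M * Real.exp (-(9 / 20 * Λ)) := by
      have e : Z1 (BS p3) t = chi t * conj (Z1 (BS p4) t)
          + (Z1 (BS p3) t - chi t * conj (Z1 (BS p4) t)) := by ring
      rw [e]
      refine (norm_add_le _ _).trans ?_
      refine add_le_add ?_ (hR.trans ?_)
      · rw [norm_mul, norm_chi, one_mul, Complex.norm_conj]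
      · have hst : Real.exp (9 / 20 * Λ) ≤ Real.sqrt t := by
          refine Real.le_sqrt_of_sq_le ?_
          rw [← Real.exp_nat_mul]
          refine le_trans (le_of_eq ?_) ht1
          congr 1
          push_cast
          ring
        have hst0 : 0 < Real.sqrt t := Real.sqrt_pos.mpr ht0
        have h60 : 60 / Real.sqrt t ≤ 60 * Real.exp (-(9 / 20 * Λ)) := by
          rw [Real.exp_neg, ← div_eq_mul_inv]
          gcongr
        have hM3' : 0 ≤ M3 (BS p3) := integral_nonneg fun v => by positivity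
        calc 60 / Real.sqrt t * M3 (BS p3) ≤ 60 * Real.exp (-(9 / 20 * Λ)) * M := by gcongr
          _ = 60 * M * Real.exp (-(9 / 20 * Λ)) := by ring
    rw [hZ1]
    refine (norm_add_le _ _).trans ?_
    linarith
  have hlim := (tendsto_Z1 t).norm
  refine le_of_tendsto hlim ?_
  obtain ⟨n0, hn0⟩ := exists_nat_ge (2 * Λ)
  filter_upwards [eventually_ge_atTop n0] with n hn
  have hn1 : (n0 : ℝ) ≤ n := by exact_mod_cast hn
  have h3 : (1 : ℝ) ≤ (n : ℝ) + 1 := by
    have : (0 : ℝ) ≤ n := Nat.cast_nonneg n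
    linarith
  have h4 := main ((n : ℝ) + 1) (by linarith) h3
  rw [Z1_GA h3] at h4
  exact h4

end D1

/-- D1 -/
theorem smoothAfe : SmoothAfe := by
  obtain ⟨C, hC0, hC⟩ := D1.afe_pt
  refine ⟨40 + 3 * C ^ 2, by positivity, ?_⟩
  intro Λ hΛ t ht1 ht2
  have hΛ0 : 0 < Λ := by linarith
  have ht0 : 0 < t := (Real.exp_pos _).trans_le ht1
  have hpi := Real.pi_pos
  set l : ℝ := Real.log (t / (2 * Real.pi)) with hl
  have hpi4 := Real.pi_le_four
  have hpi3 := Real.pi_gt_three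
  -- the size of `l`
  have hl1 : l ≤ Λ := by
    rw [hl, Real.log_le_iff_le_exp (by positivity), div_le_iff₀ (by positivity)]
    have := Real.exp_pos Λ
    nlinarith
  have hl2 : 351 / 400 * Λ ≤ l := by
    rw [hl, Real.le_log_iff_exp_le (by positivity), le_div_iff₀ (by positivity)]
    have he : (8 : ℝ) ≤ Real.exp (9 / 400 * Λ) := by
      have h3 := Real.add_one_le_exp (9 / 400 * Λ - 1)
      have h4 : Real.exp (9 / 400 * Λ) = Real.exp (9 / 400 * Λ - 1) * Real.exp 1 := by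
        rw [← Real.exp_add]; congr 1; ring
      have h5 := Real.exp_one_gt_d9
      rw [h4]
      nlinarith
    calc Real.exp (351 / 400 * Λ) * (2 * Real.pi) ≤ Real.exp (351 / 400 * Λ) * 8 := by
          gcongr; linarith
      _ ≤ Real.exp (351 / 400 * Λ) * Real.exp (9 / 400 * Λ) := by gcongr
      _ = Real.exp (9 / 10 * Λ) := by rw [← Real.exp_add]; congr 1; ring
      _ ≤ t := ht1
  set f : ℝ → ℝ := fun a => ‖SU Λ a 0 0 (om t)‖ ^ 2 with hf
  have hf0 : ∀ a, 0 ≤ f a := fun a => by positivity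
  set K : ℝ := 3 * C ^ 2 * Real.exp (-(9 / 10 * Λ)) with hK
  have hii : ∀ u v : ℝ, IntervalIntegrable f volume u v := fun u v =>
    ((D1.continuousOn_su hΛ0 (max u v) t).mono fun x hx =>
      (mem_uIcc.mp hx).elim (fun h => h.2.trans (le_max_right _ _))
        fun h => h.2.trans (le_max_left _ _)).intervalIntegrable
  have hpt : ∀ c ∈ Icc (2 / 5 * Λ) (11 / 20 * Λ), ‖riemannZeta (1 / 2 + I * t)‖ ^ 2
      ≤ 3 * f c + 3 * f (l + Λ / 20 - c) + K := by
    intro c hc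
    obtain ⟨hc1, hc2⟩ := hc
    have h := hC Λ hΛ t ht1 ht2 c (by linarith) (by linarith) (by rw [← hl]; linarith)
      (by rw [← hl]; linarith)
    rw [← hl, show l - c + Λ / 20 = l + Λ / 20 - c by ring] at h
    have hsq : ∀ x y z : ℝ, (x + y + z) ^ 2 ≤ 3 * x ^ 2 + 3 * y ^ 2 + 3 * z ^ 2 := fun x y z => by
      nlinarith [sq_nonneg (x - y), sq_nonneg (y - z), sq_nonneg (z - x)]
    calc ‖riemannZeta (1 / 2 + I * t)‖ ^ 2 ≤ (‖SU Λ c 0 0 (om t)‖
      + ‖SU Λ (l + Λ / 20 - c) 0 0 (om t)‖ + C * Real.exp (-(9 / 20 * Λ))) ^ 2 := by gcongr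
      _ ≤ 3 * ‖SU Λ c 0 0 (om t)‖ ^ 2 + 3 * ‖SU Λ (l + Λ / 20 - c) 0 0 (om t)‖ ^ 2
          + 3 * (C * Real.exp (-(9 / 20 * Λ))) ^ 2 := hsq _ _ _
      _ = 3 * f c + 3 * f (l + Λ / 20 - c) + K := by
          rw [hK, mul_pow, ← Real.exp_nat_mul, hf]
          have e : ((2 : ℕ) : ℝ) * -(9 / 20 * Λ) = -(9 / 10 * Λ) := by push_cast; ring
          rw [e]
          ring
  set J : ℝ := ∫ a in (3 / 10 * Λ)..(13 / 20 * Λ), f a with hJ
  have hsub : ∀ u v : ℝ, 3 / 10 * Λ ≤ u → u ≤ v → v ≤ 13 / 20 * Λ → ∫ x in u..v, f x ≤ J := by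
    intro u v h1 h2 h3
    exact intervalIntegral.integral_mono_interval h1 h2 h3 (Eventually.of_forall hf0) (hii _ _)
  have i1 := hsub (2 / 5 * Λ) (11 / 20 * Λ) (by linarith) (by linarith) (by linarith)
  have i2 := hsub (l + Λ / 20 - 11 / 20 * Λ) (l + Λ / 20 - 2 / 5 * Λ) (by linarith) (by linarith)
    (by linarith)
  have hg2 : IntervalIntegrable (fun c => f (l + Λ / 20 - c)) volume (2 / 5 * Λ) (11 / 20 * Λ) := by
    have := (hii (l + Λ / 20 - 2 / 5 * Λ) (l + Λ / 20 - 11 / 20 * Λ)).comp_sub_left (l + Λ / 20)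
    rwa [sub_sub_cancel, sub_sub_cancel] at this
  have hmono := intervalIntegral.integral_mono_on (μ := volume) (a := 2 / 5 * Λ)
    (b := 11 / 20 * Λ) (by linarith) intervalIntegrable_const
    ((((hii _ _).const_mul 3).add (hg2.const_mul 3)).add intervalIntegrable_const) hpt
  rw [intervalIntegral.integral_add (((hii _ _).const_mul 3).add (hg2.const_mul 3))
    intervalIntegrable_const, intervalIntegral.integral_add ((hii _ _).const_mul 3)
    (hg2.const_mul 3), intervalIntegral.integral_const_mul, intervalIntegral.integral_const_mul,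
    intervalIntegral.integral_comp_sub_left (fun x => f x), intervalIntegral.integral_const,
    intervalIntegral.integral_const, smul_eq_mul, smul_eq_mul] at hmono
  have hJ0 : 0 ≤ J := intervalIntegral.integral_nonneg (by linarith) fun x _ => hf0 x
  have hKe : K ≤ 3 * C ^ 2 * Real.exp (-(3 / 10 * Λ)) := by
    rw [hK]
    gcongr
    linarith
  have h7 : ‖riemannZeta (1 / 2 + I * t)‖ ^ 2 ≤ 40 / Λ * J + K := by
    have h8 : Λ * ‖riemannZeta (1 / 2 + I * t)‖ ^ 2 ≤ 40 * J + Λ * K := by nlinarith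
    have h9 : 40 / Λ * J + K = (40 * J + Λ * K) / Λ := by field_simp
    rw [h9, le_div_iff₀ hΛ0]
    linarith
  have hex : 0 ≤ Real.exp (-(3 / 10 * Λ)) := (Real.exp_pos _).le
  have h10 : 40 / Λ * J ≤ (40 + 3 * C ^ 2) / Λ * J := by
    gcongr
    nlinarith [sq_nonneg C]
  calc ‖riemannZeta (1 / 2 + I * t)‖ ^ 2 ≤ 40 / Λ * J + K := h7
    _ ≤ (40 + 3 * C ^ 2) / Λ * J + (40 + 3 * C ^ 2) * Real.exp (-(3 / 10 * Λ)) := by
        nlinarith
    _ = _ := by rw [hJ, hf]

end Pool.Agent.Lib.GT
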