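import Mathlib
import Pool.Agent.Lib.MP_f9aece_nt_gt.StmtsZ
import Pool.Agent.Lib.MP_f9aece_nt_gt.Cont

/-!
Gaussian tails of `log |zeta|` on the critical line: E1, E2, means of the weights along the flow.
-/

set_option autoImplicit false

namespace Pool.Agent.Lib.GT

open MeasureTheory Set Filter Topology Complex ProbabilityTheory
open scoped ComplexConjugate
open Pool.Agent.Lib.MP_f9aece_nt (VV)
open Pool.Agent.Lib.J4 (Sg Yg rg Jok V2)

namespace EE

/-! ### numerical facts -/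

lemma two_mul_le_exp (x : ℝ) (hx : 0 ≤ x) : 2 * x ≤ Real.exp x := by
  have h := Real.quadratic_le_exp_of_nonneg hx
  nlinarith [sq_nonneg (x - 1)]

section

variable {A : Par}

lemma K_ge (hA : A.Ok) : 4 ≤ (A.v : ℝ) * A.Y := by
  have h1 : (4 : ℝ) ≤ A.v := by exact_mod_cast hA.hv
  have h2 := hA.hY
  nlinarith

lemma sum_r_le (hN : GroupNum) (hA : A.Ok) :
    ∑ g ∈ Finset.range A.J, (A.r g : ℝ) ≤ 2 * (A.v * A.Y) := by
  have h := (hN A hA).2.2.2.2.1
  have h1 : (4 : ℝ) ≤ A.v := by exact_mod_cast hA.hv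
  have h2 := hA.hY
  have h3 : Real.log A.Y ≤ A.Y - 1 := Real.log_le_sub_one_of_pos (by linarith)
  nlinarith

lemma h_sq_le {p : ℕ} (hA : A.Ok) (hp : 1 ≤ p) : A.h p ^ 2 ≤ 1 / (p : ℝ) := by
  have hp' : (1 : ℝ) ≤ p := by exact_mod_cast hp
  have hp0 : (0 : ℝ) < p := by linarith
  unfold Par.h
  have e : 1 / (p : ℝ) = (p : ℝ) ^ (-1 : ℝ) := by rw [Real.rpow_neg_one, one_div]
  rw [← Real.rpow_natCast, ← Real.rpow_mul hp0.le, e]
  refine Real.rpow_le_rpow_of_exponent_le hp' ?_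
  have := hA.hl
  push_cast
  linarith

lemma h_nonneg (p : ℕ) : 0 ≤ A.h p := by
  unfold Par.h
  positivity

lemma h_le {p : ℕ} (hA : A.Ok) (hp : 1 ≤ p) : A.h p ≤ 1 / Real.sqrt p := by
  have h1 := h_sq_le hA hp
  have hp' : (1 : ℝ) ≤ p := by exact_mod_cast hp
  have h2 : (1 / Real.sqrt p) ^ 2 = 1 / (p : ℝ) := by
    rw [div_pow, Real.sq_sqrt (by linarith), one_pow]
  rw [← h2] at h1
  exact le_of_sq_le_sq h1 (by positivity)

lemma vt_le (hN : GroupNum) (hA : A.Ok) : A.vt ≤ 4 * (A.v * A.Y) := by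
  obtain ⟨h1, h2, h3, -⟩ := hN A hA
  have h4 := sum_r_le hN hA
  have h5 : A.vt = ∑ g ∈ Finset.range A.J, ∑ p ∈ A.S g, A.h p ^ 2 := by
    unfold Par.vt Par.U
    exact Finset.sum_biUnion fun g _ g' _ hgg => h3 g g' hgg
  rw [h5]
  calc ∑ g ∈ Finset.range A.J, ∑ p ∈ A.S g, A.h p ^ 2
      ≤ ∑ g ∈ Finset.range A.J, VV (A.S g) := by
        refine Finset.sum_le_sum fun g _ => ?_
        unfold VV
        refine Finset.sum_le_sum fun p hp => ?_
        rw [← one_div]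
        exact h_sq_le hA (h1 g p hp).1.one_lt.le
    _ ≤ ∑ g ∈ Finset.range A.J, 2 * (A.r g : ℝ) := Finset.sum_le_sum fun g _ => h2 g
    _ = 2 * ∑ g ∈ Finset.range A.J, (A.r g : ℝ) := by rw [Finset.mul_sum]
    _ ≤ _ := by linarith

lemma exp_le_G (hN : GroupNum) (hA : A.Ok) (y : ℝ) :
    Real.exp (-(A.be * y)) ≤ Real.exp (A.v * A.Y) * A.G y := by
  have h1 := vt_le hN hA
  have h2 := hA.hs
  have h3 : A.s2 ≤ 2 * (A.v * A.Y) := by
    unfold Par.s2
    linarith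
  have hK := K_ge hA
  have h4 := two_mul_le_exp (A.v * A.Y) (by linarith)
  have h5 : Real.sqrt A.s2 ≤ A.s2 := by
    rw [Real.sqrt_le_left (by linarith)]
    nlinarith
  have h6 : 0 < Real.sqrt A.s2 := Real.sqrt_pos.mpr (by linarith)
  have h7 : Real.exp (-(A.be * y)) ≤ Real.exp (-(A.be * y) + A.be ^ 2 * A.s2 / 2) := by
    refine Real.exp_le_exp.mpr ?_
    have : 0 ≤ A.be ^ 2 * A.s2 / 2 := by positivity
    linarith
  unfold Par.G
  have h8 : Real.sqrt A.s2 ≤ Real.exp (A.v * A.Y) := by linarith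
  calc Real.exp (-(A.be * y)) ≤ Real.exp (-(A.be * y) + A.be ^ 2 * A.s2 / 2) := h7
    _ = Real.sqrt A.s2 * (1 / Real.sqrt A.s2 * Real.exp (-(A.be * y) + A.be ^ 2 * A.s2 / 2)) := by
        field_simp
    _ ≤ _ := by gcongr

/-- the error of the transfer is small -/
lemma err_le (hN : GroupNum) (hA : A.Ok) {T : ℝ} (hT : 3 ≤ T) (hL : Len A T) (y : ℝ) {D : ℝ}
    (hD0 : 0 ≤ D) (hD : D ≤ Real.exp (10 ^ 9 * (A.v * A.Y))) :
    Real.exp (-(A.be * y)) * (Real.exp (2 * 10 ^ 7 * A.v * A.Y) * (D / T))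
      ≤ Real.exp (-∑ g ∈ Finset.range A.J, (A.r g : ℝ)) * (A.G y / Real.sqrt T) := by
  have hK := K_ge hA
  set K : ℝ := A.v * A.Y with hKd
  have hG := hA.G_pos y
  have h1 := exp_le_G hN hA y
  have h2 := sum_r_le hN hA
  rw [← hKd] at h1 h2
  have hT0 : 0 < T := by linarith
  have hsT : 0 < Real.sqrt T := Real.sqrt_pos.mpr hT0
  have h3 : Real.exp (5 * 10 ^ 9 * K) ≤ Real.sqrt T := by
    refine Real.le_sqrt_of_sq_le ?_
    rw [← Real.exp_nat_mul]
    have h4 : Real.exp (10 ^ 10 * A.v * A.Y) ≤ T := by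
      calc Real.exp (10 ^ 10 * A.v * A.Y) ≤ Real.exp (Real.log T) := Real.exp_le_exp.mpr hL
        _ = T := Real.exp_log hT0
    refine le_trans (Real.exp_le_exp.mpr ?_) h4
    push_cast
    rw [hKd]
    linarith
  have h5 : 1 / Real.sqrt T ≤ Real.exp (-(5 * 10 ^ 9 * K)) := by
    rw [Real.exp_neg, one_div]
    exact inv_anti₀ (Real.exp_pos _) h3
  have h6 : D / T ≤ Real.exp (10 ^ 9 * K) * (1 / Real.sqrt T * (1 / Real.sqrt T)) := by
    have e : 1 / Real.sqrt T * (1 / Real.sqrt T) = 1 / T := by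
      rw [div_mul_div_comm, one_mul, Real.mul_self_sqrt hT0.le]
    rw [e, mul_one_div]
    gcongr
  have h7 : Real.exp (2 * 10 ^ 7 * A.v * A.Y) = Real.exp (2 * 10 ^ 7 * K) := by
    congr 1
    rw [hKd]
    ring
  rw [h7]
  calc Real.exp (-(A.be * y)) * (Real.exp (2 * 10 ^ 7 * K) * (D / T))
      ≤ (Real.exp K * A.G y) * (Real.exp (2 * 10 ^ 7 * K) *
        (Real.exp (10 ^ 9 * K) * (1 / Real.sqrt T * (1 / Real.sqrt T)))) := by gcongr
    _ ≤ (Real.exp K * A.G y) * (Real.exp (2 * 10 ^ 7 * K) *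
        (Real.exp (10 ^ 9 * K) * (Real.exp (-(5 * 10 ^ 9 * K)) * (1 / Real.sqrt T)))) := by gcongr
    _ = Real.exp (K + 2 * 10 ^ 7 * K + 10 ^ 9 * K + -(5 * 10 ^ 9 * K)) *
        (A.G y / Real.sqrt T) := by
        rw [Real.exp_add, Real.exp_add, Real.exp_add]
        ring
    _ ≤ _ := by
        refine mul_le_mul_of_nonneg_right (Real.exp_le_exp.mpr ?_) (by positivity)
        linarith

/-! ### transfer for the weights times a nonnegative polynomial -/

lemma tex_zero (K : ℕ) : tex K 0 = 1 := by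
  unfold tex
  rw [Finset.sum_eq_single 0]
  · simp
  · intro k _ hk
    simp [hk]
  · intro h
    exact absurd (Finset.mem_range.mpr (Nat.succ_pos K)) h

lemma mo_zero (s : Finset ℕ) (x : Om) : A.mo 0 s x = 1 := by
  unfold Par.mo
  refine Finset.prod_eq_one fun g _ => ?_
  rw [zero_mul, tex_zero]

/-- transfer of the mean of `W * H`, real form -/
lemma abs_mean_sub_le {C : ℝ} {s : Finset ℕ} {x T y N c : ℝ} {H : Om → ℝ}
    (h : ‖∫ t, (A.W s y (om t) : ℂ) * (A.mo 0 s (om t) * conj (A.mo 0 s (om t)))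
          * (H (om t) : ℂ) ∂(un x T)
        - ∫ w, (A.W s y w : ℂ) * (A.mo 0 s w * conj (A.mo 0 s w)) * (H w : ℂ) ∂mu‖
      ≤ C * Real.exp (-(A.be * y)) * (Real.exp (2 * 10 ^ 7 * A.v * A.Y) * (c * N / T))) :
    |∫ t, A.W s y (om t) * H (om t) ∂(un x T) - ∫ w, A.W s y w * H w ∂mu|
      ≤ C * (Real.exp (-(A.be * y)) * (Real.exp (2 * 10 ^ 7 * A.v * A.Y) * (c * N / T))) := by
  have e1 : ∀ w : Om, (A.W s y w : ℂ) * (A.mo 0 s w * conj (A.mo 0 s w)) * (H w : ℂ)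
      = ((A.W s y w * H w : ℝ) : ℂ) := by
    intro w
    rw [mo_zero, map_one, mul_one, mul_one]
    push_cast
    rfl
  simp only [e1] at h
  rw [integral_complex_ofReal, integral_complex_ofReal, ← Complex.ofReal_sub, Complex.norm_real,
    Real.norm_eq_abs, mul_assoc] at h
  exact h

/-- the mean of `W * H` along the flow -/
lemma lmean_le (hA : A.Ok) {s : Finset ℕ} {x T y M E : ℝ} {H : Om → ℝ} (hT : 0 < T)
    (hH : Continuous H) (hH0 : ∀ w, 0 ≤ H w) (hHb : ∃ B, ∀ w, H w ≤ B)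
    (hM : ∫ w, A.W s y w * H w ∂mu ≤ M)
    (h : |∫ t, A.W s y (om t) * H (om t) ∂(un x T) - ∫ w, A.W s y w * H w ∂mu| ≤ E) :
    ∫⁻ t, ENNReal.ofReal (A.W s y (om t) * H (om t)) ∂(un x T) ≤ ENNReal.ofReal (M + E) := by
  have := prob_un x hT
  obtain ⟨B, hB⟩ := hHb
  obtain ⟨B', hB'⟩ := A.W_le hA s y
  have hW0 : ∀ w, 0 ≤ A.W s y w := A.W_nonneg hA.b_pos.le s y
  have hc : Continuous fun t : ℝ => A.W s y (om t) * H (om t) :=
    ((A.continuous_W' hA s y).comp continuous_om).mul (hH.comp continuous_om)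
  have hi : Integrable (fun t : ℝ => A.W s y (om t) * H (om t)) (un x T) := by
    refine Integrable.of_bound hc.aestronglyMeasurable (B' * B) (Eventually.of_forall fun t => ?_)
    rw [Real.norm_of_nonneg (mul_nonneg (hW0 _) (hH0 _))]
    exact mul_le_mul (hB' _) (hB _) (hH0 _) ((hW0 (om t)).trans (hB' _))
  rw [← ofReal_integral_eq_lintegral_ofReal hi
    (Eventually.of_forall fun t => mul_nonneg (hW0 _) (hH0 _))]
  refine ENNReal.ofReal_le_ofReal ?_
  have h2 := (abs_le.mp h).2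
  linarith

/-! ### the plain weights -/

/-- no exponential factors -/
noncomputable def D0 : Dat := ⟨fun _ => 0, fun _ => 0, fun _ => 0, fun _ => 0⟩

lemma D0_ok : D0.Ok := by
  intro p
  have h1 : 0 ≤ 2 / Real.sqrt p := by positivity
  have h2 : 0 ≤ 1 / Real.sqrt p := by positivity
  refine ⟨?_, ?_, ?_, ?_⟩ <;> simp only [D0, norm_zero] <;> assumption

lemma HF_D0 (S : Finset ℕ) (x : Om) : HF S D0 x = 1 := by
  unfold HF D0
  simp

lemma sab_D0 (z z' : ℂ) : sab A.U A.h z z' 0 0 D0 = (z + conj z') ^ 2 * A.vt / 4 := by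
  unfold sab D0 Par.vt
  push_cast
  rw [Finset.mul_sum, Finset.sum_div]
  refine Finset.sum_congr rfl fun p _ => ?_
  simp only [map_zero, add_zero]
  ring

lemma zz_sum (η η' : ℝ) : A.zz η + conj (A.zz η') = (A.be : ℂ) + I * (A.b * (η - η') : ℝ) := by
  unfold Par.zz
  rw [map_add, map_div₀, map_mul, map_mul, Complex.conj_I, Complex.conj_ofReal, Complex.conj_ofReal,
    Complex.conj_ofReal, map_ofNat]
  push_cast
  ring

lemma re_sq_zz (η η' : ℝ) : ((A.zz η + conj (A.zz η')) ^ 2).re =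
    A.be ^ 2 - A.b ^ 2 * (η - η') ^ 2 := by
  rw [zz_sum, pow_two]
  simp only [Complex.mul_re, Complex.add_re, Complex.add_im, Complex.mul_im, Complex.ofReal_re,
    Complex.ofReal_im, Complex.I_re, Complex.I_im]
  ring

lemma expBd_D0 : ExpBd A 0 0 D0 0 := by
  intro η η' _ _
  rw [sab_D0]
  have e : (A.zz η + conj (A.zz η')) ^ 2 * (A.vt : ℂ) / 4 =
      ((A.vt / 4 : ℝ) : ℂ) * (A.zz η + conj (A.zz η')) ^ 2 := by
    push_cast
    ring
  rw [e, Complex.re_ofReal_mul, re_sq_zz]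
  apply le_of_eq
  ring

lemma small_one : Small A 1 fun _ => 1 :=
  ⟨measurable_const, fun _ _ _ => rfl, fun _ => by simp⟩

end

end EE

open EE

/-- E1 -/
theorem wMean (hT : WTransfer) (hB : WBd) (hN : GroupNum) : WMean := by
  obtain ⟨C, hC, hT⟩ := hT
  obtain ⟨C', hC', hB⟩ := hB
  refine ⟨C + C' + 1, 3, by linarith, le_refl _, fun A hA T hT0 hL x y s hs => ?_⟩
  have hTp : 0 < T := by linarith
  have h1 := (hB A hA 0 0 (by simp) (by simp) D0 D0_ok 0 expBd_D0 1 (fun _ => 1) small_one y).1 s hs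
  have h2 : ∫ w, A.W s y w * (fun _ => (1 : ℝ)) w ∂mu ≤
      C' * Real.exp (-(2 * ∑ g ∈ s, (A.r g : ℝ))) * A.G y := by
    have e1 : ∀ w : Om, (A.W s y w : ℂ) * (A.mo 0 s w * conj (A.mo 0 s w)) * (HF A.U D0 w * 1)
        = ((A.W s y w * 1 : ℝ) : ℂ) := by
      intro w
      rw [mo_zero, map_one, HF_D0]
      push_cast
      ring
    simp only [e1] at h1
    rw [integral_complex_ofReal, Complex.norm_real, mul_one, Real.exp_zero, mul_one] at h1
    exact (le_abs_self _).trans h1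
  have h3 := (hT A hA s hs 0 0 (by simp) (by simp) 1 1 (fun _ => 1) le_rfl (TP.one le_rfl) x T y
    hTp).1
  have h4 : |∫ t, A.W s y (om t) * (fun _ => (1 : ℝ)) (om t) ∂(un x T)
      - ∫ w, A.W s y w * (fun _ => (1 : ℝ)) w ∂mu| ≤
      C * (Real.exp (-(A.be * y)) * (Real.exp (2 * 10 ^ 7 * A.v * A.Y) * (1 * 1 / T))) := by
    refine abs_mean_sub_le (A := A) (s := s) (x := x) (y := y) (N := 1) (c := 1)
      (H := fun _ => 1) ?_
    simpa using h3
  have h5 := lmean_le hA hTp continuous_const (fun _ => zero_le_one) ⟨1, fun _ => le_rfl⟩ h2 h4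
  simp only [mul_one] at h5
  refine h5.trans (ENNReal.ofReal_le_ofReal ?_)
  have h6 := err_le hN hA hT0 hL y (D := 1) zero_le_one (Real.one_le_exp (by
    have := K_ge hA
    positivity))
  have h7 : ∑ g ∈ s, (A.r g : ℝ) ≤ ∑ g ∈ Finset.range A.J, (A.r g : ℝ) :=
    Finset.sum_le_sum_of_subset_of_nonneg hs fun _ _ _ => by positivity
  have h8 : 0 ≤ ∑ g ∈ s, (A.r g : ℝ) := Finset.sum_nonneg fun _ _ => by positivity
  have hG := hA.G_pos y
  have h9 : A.G y / Real.sqrt T ≤ A.G y := by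
    refine div_le_self hG.le ?_
    rw [Real.one_le_sqrt]
    linarith
  have h10 : Real.exp (-∑ g ∈ Finset.range A.J, (A.r g : ℝ)) ≤ Real.exp (-∑ g ∈ s, (A.r g : ℝ)) :=
    Real.exp_le_exp.mpr (by linarith)
  have h11 : Real.exp (-(2 * ∑ g ∈ s, (A.r g : ℝ))) ≤ Real.exp (-∑ g ∈ s, (A.r g : ℝ)) :=
    Real.exp_le_exp.mpr (by linarith)
  set a := Real.exp (-∑ g ∈ s, (A.r g : ℝ)) with ha
  have ha0 : 0 < a := Real.exp_pos _
  calc C' * Real.exp (-(2 * ∑ g ∈ s, (A.r g : ℝ))) * A.G y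
        + C * (Real.exp (-(A.be * y)) * (Real.exp (2 * 10 ^ 7 * A.v * A.Y) * (1 / T)))
      ≤ C' * a * A.G y + C * (a * A.G y) := by
        refine add_le_add (by gcongr) (mul_le_mul_of_nonneg_left ?_ hC)
        refine h6.trans ?_
        exact mul_le_mul h10 h9 (by positivity) ha0.le
    _ ≤ (C + C' + 1) * a * A.G y := by nlinarith [mul_pos ha0 hG]

/-- E2 -/
theorem wAsym (hT : WTransfer) (hM : WMain) (hG : WGauss) (hN : GroupNum) : WAsym := by
  obtain ⟨C, hC, hT⟩ := hT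
  obtain ⟨C', hC', hM⟩ := hM
  obtain ⟨CG, -, hG⟩ := hG
  refine ⟨C + C' + 1, 3, by linarith, le_refl _, fun A hA T hT0 hL x y => ?_⟩
  have hTp : 0 < T := by linarith
  have h1 := hM A hA 0 0 (by simp) (by simp) D0 D0_ok 0 expBd_D0 1 (fun _ => 1) small_one y
  have h2 : |∫ w, A.W ∅ y w ∂mu - ∫ z, HH A.be A.b y z ∂(gaussianReal 0 (Real.toNNReal A.s2))| ≤
      C' * (Real.exp (-A.v) + 1 / A.p0) * A.G y := by
    have e1 : ∀ w : Om, (A.W ∅ y w : ℂ) * (A.mo 0 ∅ w * conj (A.mo 0 ∅ w)) * (HF A.U D0 w * 1)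
        = ((A.W ∅ y w : ℝ) : ℂ) := by
      intro w
      rw [mo_zero, map_one, HF_D0]
      ring
    simp only [e1, sab_D0] at h1
    rw [(hG A hA y).1, integral_complex_ofReal] at h1
    rw [integral_const, probReal_univ, one_smul, mul_one, ← Complex.ofReal_sub,
      Complex.norm_real, mul_one, Real.exp_zero, mul_one] at h1
    exact h1
  have h3 := (hT A hA ∅ (Finset.empty_subset _) 0 0 (by simp) (by simp) 1 1 (fun _ => 1) le_rfl
    (TP.one le_rfl) x T y hTp).1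
  have h4 : |∫ t, A.W ∅ y (om t) * (fun _ => (1 : ℝ)) (om t) ∂(un x T)
      - ∫ w, A.W ∅ y w * (fun _ => (1 : ℝ)) w ∂mu| ≤
      C * (Real.exp (-(A.be * y)) * (Real.exp (2 * 10 ^ 7 * A.v * A.Y) * (1 * 1 / T))) := by
    refine abs_mean_sub_le (A := A) (s := ∅) (x := x) (y := y) (N := 1) (c := 1)
      (H := fun _ => 1) ?_
    simpa using h3
  simp only [mul_one] at h4
  have h6 := err_le hN hA hT0 hL y (D := 1) zero_le_one (Real.one_le_exp (by
    have := K_ge hA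
    positivity))
  have h8 : 0 ≤ ∑ g ∈ Finset.range A.J, (A.r g : ℝ) := Finset.sum_nonneg fun _ _ => by positivity
  have hG0 := hA.G_pos y
  have h10 : Real.exp (-∑ g ∈ Finset.range A.J, (A.r g : ℝ)) ≤ 1 :=
    Real.exp_le_one_iff.mpr (by linarith)
  have h11 : Real.exp (-(A.be * y)) * (Real.exp (2 * 10 ^ 7 * A.v * A.Y) * (1 / T)) ≤
      1 / Real.sqrt T * A.G y := by
    refine h6.trans ?_
    have e : A.G y / Real.sqrt T = 1 / Real.sqrt T * A.G y := by ring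
    rw [e]
    have h12 : 0 ≤ 1 / Real.sqrt T * A.G y := by positivity
    nlinarith
  have h13 := abs_sub_le (∫ t, A.W ∅ y (om t) ∂(un x T)) (∫ w, A.W ∅ y w ∂mu)
    (∫ z, HH A.be A.b y z ∂(gaussianReal 0 (Real.toNNReal A.s2)))
  have h14 : 0 < Real.exp (-(A.v : ℝ)) := Real.exp_pos _
  have h15 : (0 : ℝ) ≤ 1 / A.p0 := by positivity
  have h16 : 0 ≤ 1 / Real.sqrt T := by positivity
  set a := Real.exp (-(A.v : ℝ)) + 1 / A.p0 with ha
  have ha0 : 0 < a := by positivity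
  calc |∫ t, A.W ∅ y (om t) ∂(un x T) -
        ∫ z, HH A.be A.b y z ∂(gaussianReal 0 (Real.toNNReal A.s2))|
      ≤ C * (1 / Real.sqrt T * A.G y) + C' * a * A.G y := by
        refine h13.trans (add_le_add (h4.trans ?_) h2)
        exact mul_le_mul_of_nonneg_left h11 hC
    _ ≤ (C + C' + 1) * (a + 1 / Real.sqrt T) * A.G y := by
        have h17 : C * (1 / Real.sqrt T) + C' * a ≤ (C + C' + 1) * (a + 1 / Real.sqrt T) := by
          nlinarith [mul_nonneg hC ha0.le, mul_nonneg hC' h16]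
        nlinarith [mul_le_mul_of_nonneg_right h17 hG0.le]

end Pool.Agent.Lib.GT
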