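import Mathlib
import Pool.Agent.Lib.MP_f9aece_nt_gt.StmtsZ
import Pool.Agent.Lib.MP_f9aece_nt_gt.Cont
import Pool.Agent.Lib.MP_f9aece_nt_gt.E1

/-!
Gaussian tails of `log |zeta|` on the critical line: E4, the weights and zeta on the line.
-/

set_option autoImplicit false

namespace Pool.Agent.Lib.GT

open MeasureTheory Set Filter Topology Complex ProbabilityTheory
open scoped ComplexConjugate
open Pool.Agent.Lib.MP_f9aece_nt (VV)
open Pool.Agent.Lib.J4 (Sg Yg rg Jok V2)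

namespace LM

/-! ### the smooth sums -/

/-- the smooth sums as sums over a fixed range -/
noncomputable def SN (N : ℕ) (Λ σ v : ℝ) (a : ℝ) (x : Om) : ℂ :=
  ∑ n ∈ Finset.Icc 1 N, (Real.smoothTransition ((a - Real.log n) / (Λ / 20)) : ℂ)
    * ((n : ℂ) ^ (-(1 / 2 + σ + I * v) : ℂ) * ch x n)

lemma su_eq {Λ a : ℝ} (hΛ : 0 < Λ) {N : ℕ} (hN : Real.exp a ≤ N) (σ v : ℝ) (x : Om) :
    SU Λ a σ v x = SN N Λ σ v a x := by
  unfold SU SN
  have hs : Finset.Icc 1 ⌊Real.exp a⌋₊ ⊆ Finset.Icc 1 N := by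
    refine Finset.Icc_subset_Icc le_rfl ?_
    have h1 : ((⌊Real.exp a⌋₊ : ℕ) : ℝ) ≤ N := (Nat.floor_le (Real.exp_pos a).le).trans hN
    exact_mod_cast h1
  refine Finset.sum_subset hs fun n hn hn' => ?_
  have hn1 : 1 ≤ n := (Finset.mem_Icc.mp hn).1
  have hn0 : (0 : ℝ) < n := by exact_mod_cast hn1
  have h2 : a ≤ Real.log n := by
    by_contra h
    push Not at h
    refine hn' (Finset.mem_Icc.mpr ⟨hn1, Nat.le_floor ?_⟩)
    exact ((Real.log_lt_iff_lt_exp hn0).mp h).le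
  have h3 : (a - Real.log n) / (Λ / 20) ≤ 0 :=
    div_nonpos_of_nonpos_of_nonneg (by linarith) (by positivity)
  rw [Real.smoothTransition.zero_of_nonpos h3]
  simp

/-- a shift of the height -/
lemma su_shift (Λ a t w : ℝ) : SU Λ a 0 0 (om (t + w)) = SU Λ a 0 w (om t) := by
  unfold SU
  refine Finset.sum_congr rfl fun n hn => ?_
  have hn1 : 1 ≤ n := (Finset.mem_Icc.mp hn).1
  have hn0 : n ≠ 0 := by omega
  have hnC : (n : ℂ) ≠ 0 := by exact_mod_cast hn0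
  rw [ch_om _ hn0, ch_om _ hn0, ← Complex.cpow_add _ _ hnC, ← Complex.cpow_add _ _ hnC]
  congr 2
  push_cast
  ring

lemma continuous_SN (N : ℕ) (Λ σ v : ℝ) : Continuous fun w : ℝ × Om => SN N Λ σ v w.1 w.2 := by
  unfold SN
  refine continuous_finsetSum _ fun n _ => Continuous.mul ?_ (continuous_const.mul ?_)
  · refine Complex.continuous_ofReal.comp (Real.smoothTransition.continuous.comp ?_)
    exact (continuous_fst.sub continuous_const).div_const _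
  · exact (continuous_ch n).comp continuous_snd

lemma continuous_SU (Λ a σ v : ℝ) : Continuous (SU Λ a σ v) := by
  unfold SU
  exact continuous_finsetSum _ fun n _ => continuous_const.mul
    (continuous_const.mul (continuous_ch n))

/-- the coefficients of the smooth sums are bounded by `1` -/
lemma coef_le (Λ a : ℝ) {σ : ℝ} (hσ : 0 ≤ σ) (v : ℝ) {n : ℕ} (hn : 1 ≤ n) :
    ‖(Real.smoothTransition ((a - Real.log n) / (Λ / 20)) : ℂ)
      * (n : ℂ) ^ (-(1 / 2 + σ + I * v) : ℂ)‖ ≤ 1 := by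
  have hn1 : (1 : ℝ) ≤ n := by exact_mod_cast hn
  rw [norm_mul, Complex.norm_real, Real.norm_of_nonneg (Real.smoothTransition.nonneg _)]
  have h1 := Real.smoothTransition.le_one ((a - Real.log n) / (Λ / 20))
  have h2 : ‖(n : ℂ) ^ (-(1 / 2 + σ + I * v) : ℂ)‖ ≤ 1 := by
    have e : (-(1 / 2 + σ + I * v) : ℂ).re = -(1 / 2 + σ) := by simp
    rw [Complex.norm_natCast_cpow_of_pos (by omega), e]
    exact Real.rpow_le_one_of_one_le_of_nonpos hn1 (by linarith)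
  exact mul_le_one₀ h1 (norm_nonneg _) h2

/-- square of a sum of characters as a trigonometric polynomial of the same length -/
lemma tp_sq {S : Finset ℕ} {c : ℕ → ℂ} {N : ℝ} (hS : ∀ n ∈ S, 1 ≤ n ∧ (n : ℝ) ≤ N) :
    TP N ((∑ n ∈ S, ‖c n‖) * ∑ n ∈ S, ‖c n‖)
      fun x => ((‖∑ n ∈ S, c n * ch x n‖ ^ 2 : ℝ) : ℂ) := by
  have h1 : TP N (∑ m ∈ S, ∑ n ∈ S, ‖c m * conj (c n)‖)
      fun x => ∑ m ∈ S, ∑ n ∈ S, (c m * conj (c n)) * (ch x m * conj (ch x n)) :=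
    TP.sum fun m hm => TP.sum fun n hn =>
      TP.char (hS m hm).1 (hS n hn).1 (hS m hm).2 (hS n hn).2 _
  refine (h1.mono le_rfl (le_of_eq ?_)).congr fun x => ?_
  · rw [Finset.sum_mul_sum]
    refine Finset.sum_congr rfl fun m _ => Finset.sum_congr rfl fun n _ => ?_
    rw [norm_mul, Complex.norm_conj]
  · rw [← Complex.normSq_eq_norm_sq, ← Complex.mul_conj, map_sum, Finset.sum_mul_sum]
    refine Finset.sum_congr rfl fun m _ => Finset.sum_congr rfl fun n _ => ?_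
    rw [map_mul]
    ring

/-- the square of a smooth sum -/
lemma tp_su (Λ a : ℝ) {σ : ℝ} (hσ : 0 ≤ σ) (v : ℝ) :
    TP (Real.exp a) (Real.exp (2 * a)) fun x => ((‖SU Λ a σ v x‖ ^ 2 : ℝ) : ℂ) := by
  have h1 : ∀ n ∈ Finset.Icc 1 ⌊Real.exp a⌋₊, 1 ≤ n ∧ (n : ℝ) ≤ Real.exp a := fun n hn =>
    ⟨(Finset.mem_Icc.mp hn).1, (Nat.cast_le.mpr (Finset.mem_Icc.mp hn).2).trans
      (Nat.floor_le (Real.exp_pos a).le)⟩
  have h2 : ∑ n ∈ Finset.Icc 1 ⌊Real.exp a⌋₊,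
      ‖(Real.smoothTransition ((a - Real.log n) / (Λ / 20)) : ℂ)
      * (n : ℂ) ^ (-(1 / 2 + σ + I * v) : ℂ)‖ ≤ Real.exp a := by
    calc _ ≤ ∑ n ∈ Finset.Icc 1 ⌊Real.exp a⌋₊, (1 : ℝ) :=
          Finset.sum_le_sum fun n hn => coef_le Λ a hσ v (h1 n hn).1
      _ = (⌊Real.exp a⌋₊ : ℝ) := by simp
      _ ≤ _ := Nat.floor_le (Real.exp_pos a).le
  refine ((tp_sq (c := fun n => (Real.smoothTransition ((a - Real.log n) / (Λ / 20)) : ℂ)
      * (n : ℂ) ^ (-(1 / 2 + σ + I * v) : ℂ)) h1).mono le_rfl ?_).congr fun x => ?_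
  · rw [two_mul, Real.exp_add]
    have h0 : 0 ≤ ∑ n ∈ Finset.Icc 1 ⌊Real.exp a⌋₊,
      ‖(Real.smoothTransition ((a - Real.log n) / (Λ / 20)) : ℂ)
      * (n : ℂ) ^ (-(1 / 2 + σ + I * v) : ℂ)‖ := Finset.sum_nonneg fun _ _ => norm_nonneg _
    exact mul_le_mul h2 h2 h0 (Real.exp_pos a).le
  · have e : SU Λ a σ v x = ∑ n ∈ Finset.Icc 1 ⌊Real.exp a⌋₊,
        ((Real.smoothTransition ((a - Real.log n) / (Λ / 20)) : ℂ)
          * (n : ℂ) ^ (-(1 / 2 + σ + I * v) : ℂ)) * ch x n := by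
      unfold SU
      exact Finset.sum_congr rfl fun n _ => by rw [mul_assoc]
    rw [e]

/-! ### transfer through the Gaussian mean -/

section

variable {A : Par}

lemma log_ge (hA : A.Ok) {T : ℝ} (hL : Len A T) : 10 ^ 10 * (A.v * A.Y) ≤ Real.log T ∧
    4 * 10 ^ 10 ≤ Real.log T := by
  have hK := EE.K_ge hA
  have h : 10 ^ 10 * (A.v * A.Y) ≤ Real.log T := by
    have := hL
    unfold Len at this
    linarith
  exact ⟨h, by nlinarith⟩

/-- the error for the Gaussian mean is small -/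
lemma ga_err (hN : GroupNum) (hA : A.Ok) {T : ℝ} (hT : 0 < T) (hL : Len A T) (y : ℝ) {N c : ℝ}
    (hN0 : 0 < N) (hN1 : N ≤ Real.exp (9 / 10 * Real.log T + 10 ^ 7 * (A.v * A.Y))) (hc : 0 ≤ c)
    (hc1 : c ≤ Real.exp (4 * Real.log T)) :
    Real.exp (-(A.be * y)) * (Real.exp (10 ^ 7 * A.v * A.Y) * (c *
      Real.exp (-(T ^ 2 / (4 * (Real.exp (10 ^ 7 * A.v * A.Y) * N) ^ 2)))))
    ≤ Real.exp (-∑ g ∈ Finset.range A.J, (A.r g : ℝ)) * (A.G y * Real.exp (-Real.log T)) := by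
  obtain ⟨h1, h2⟩ := log_ge hA hL
  have hK := EE.K_ge hA
  have h3 := EE.exp_le_G hN hA y
  have h4 := EE.sum_r_le hN hA
  have hG := hA.G_pos y
  set K : ℝ := A.v * A.Y with hKd
  set Λ : ℝ := Real.log T with hΛ
  have e1 : Real.exp (10 ^ 7 * A.v * A.Y) = Real.exp (10 ^ 7 * K) := by
    congr 1
    rw [hKd]
    ring
  rw [e1]
  have e2 : T ^ 2 = Real.exp (2 * Λ) := by
    rw [two_mul, Real.exp_add, hΛ, Real.exp_log hT]
    ring
  have h5 : (Real.exp (10 ^ 7 * K) * N) ^ 2 ≤ Real.exp (181 / 100 * Λ) := by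
    calc (Real.exp (10 ^ 7 * K) * N) ^ 2
        ≤ (Real.exp (10 ^ 7 * K) * Real.exp (9 / 10 * Λ + 10 ^ 7 * K)) ^ 2 := by gcongr
      _ = Real.exp (4 * 10 ^ 7 * K + 9 / 5 * Λ) := by
          rw [← Real.exp_add, ← Real.exp_nat_mul]
          congr 1
          push_cast
          ring
      _ ≤ _ := Real.exp_le_exp.mpr (by linarith)
  have h6 : 6 * Λ ≤ T ^ 2 / (4 * (Real.exp (10 ^ 7 * K) * N) ^ 2) := by
    rw [e2]
    have h7 : 0 < (Real.exp (10 ^ 7 * K) * N) ^ 2 := by positivity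
    calc 6 * Λ ≤ Real.exp (19 / 100 * Λ) / 4 := by
          have h8 := Real.quadratic_le_exp_of_nonneg (x := 19 / 100 * Λ) (by linarith)
          nlinarith
      _ = Real.exp (2 * Λ) / (4 * Real.exp (181 / 100 * Λ)) := by
          have e3 : Real.exp (2 * Λ) = Real.exp (19 / 100 * Λ) * Real.exp (181 / 100 * Λ) := by
            rw [← Real.exp_add]
            congr 1
            ring
          rw [e3]
          have := Real.exp_pos (181 / 100 * Λ)
          field_simp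
      _ ≤ _ := by gcongr
  calc Real.exp (-(A.be * y)) * (Real.exp (10 ^ 7 * K) * (c *
      Real.exp (-(T ^ 2 / (4 * (Real.exp (10 ^ 7 * K) * N) ^ 2)))))
      ≤ (Real.exp K * A.G y) * (Real.exp (10 ^ 7 * K) * (Real.exp (4 * Λ) *
        Real.exp (-(6 * Λ)))) := by gcongr
    _ = Real.exp (K + 10 ^ 7 * K + 4 * Λ + -(6 * Λ)) * A.G y := by
        rw [Real.exp_add, Real.exp_add, Real.exp_add]
        ring
    _ ≤ Real.exp (-∑ g ∈ Finset.range A.J, (A.r g : ℝ) + -Λ) * A.G y := by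
        refine mul_le_mul_of_nonneg_right (Real.exp_le_exp.mpr ?_) hG.le
        linarith
    _ = _ := by
        rw [Real.exp_add]
        ring

/-- the mean of `W |mo|^2 H` along the flow through the Gaussian mean -/
lemma ga_mean (hN : GroupNum) (hA : A.Ok) {C : ℝ} (hC : 0 ≤ C) {s : Finset ℕ} {μ1 : ℂ} {x T y : ℝ}
    (hT : 0 < T) (hL : Len A T) {N c : ℝ} (hN0 : 0 < N)
    (hN1 : N ≤ Real.exp (9 / 10 * Real.log T + 10 ^ 7 * (A.v * A.Y)))
    (hc1 : c ≤ Real.exp (4 * Real.log T)) {H : Om → ℝ} (hH0 : ∀ w, 0 ≤ H w)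
    (hH : TP N c fun w => (H w : ℂ))
    (hs : s ⊆ Finset.range A.J)
    (h : ‖∫ t, (A.W s y (om t) : ℂ) * (A.mo μ1 s (om t) * conj (A.mo μ1 s (om t)))
          * (H (om t) : ℂ) ∂(ga x T)
        - ∫ w, (A.W s y w : ℂ) * (A.mo μ1 s w * conj (A.mo μ1 s w)) * (H w : ℂ) ∂mu‖
      ≤ C * Real.exp (-(A.be * y)) * (Real.exp (10 ^ 7 * A.v * A.Y) * (c *
      Real.exp (-(T ^ 2 / (4 * (Real.exp (10 ^ 7 * A.v * A.Y) * N) ^ 2)))))) :
    ∫⁻ t, ENNReal.ofReal (A.W s y (om t) * (‖A.mo μ1 s (om t)‖ ^ 2 * H (om t))) ∂(un x T)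
      ≤ ENNReal.ofReal (3 * (∫ w, A.W s y w * (‖A.mo μ1 s w‖ ^ 2 * H w) ∂mu
        + C * (Real.exp (-∑ g ∈ s, (A.r g : ℝ)) * A.G y))) := by
  have := prob_un x hT
  have hc0 := hH.nonneg
  obtain ⟨B', hB'⟩ := A.W_le hA s y
  have hW0 : ∀ w, 0 ≤ A.W s y w := A.W_nonneg hA.b_pos.le s y
  have hHc : Continuous H := by
    have h1 := Complex.continuous_re.comp hH.continuous
    simpa [Function.comp_def] using h1
  have hHb : ∀ w, H w ≤ c := by
    intro w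
    have h1 := hH.norm_le w
    rw [Complex.norm_real, Real.norm_of_nonneg (hH0 w)] at h1
    exact h1
  have hmc : Continuous fun w => ‖A.mo μ1 s w‖ ^ 2 := ((A.continuous_mo μ1 s).norm).pow 2
  obtain ⟨Bm, hBm⟩ : ∃ B, ∀ w, ‖A.mo μ1 s w‖ ≤ B := by
    refine ⟨∏ g ∈ Finset.range A.J \ s, Real.exp (‖μ1‖ * ∑ p ∈ A.S g, ‖(A.h p : ℂ)‖), fun w => ?_⟩
    unfold Par.mo
    rw [norm_prod]
    refine Finset.prod_le_prod (fun g _ => norm_nonneg _) fun g _ => ?_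
    refine (norm_tex_le _ _).trans (Real.exp_le_exp.mpr ?_)
    rw [norm_mul]
    exact mul_le_mul_of_nonneg_left (norm_lin_le _ _ _) (norm_nonneg _)
  set F : ℝ → ℝ := fun t => A.W s y (om t) * (‖A.mo μ1 s (om t)‖ ^ 2 * H (om t)) with hF
  have hFc : Continuous F := ((A.continuous_W' hA s y).comp continuous_om).mul
    ((hmc.comp continuous_om).mul (hHc.comp continuous_om))
  have hF0 : ∀ t, 0 ≤ F t := fun t => mul_nonneg (hW0 _) (mul_nonneg (by positivity) (hH0 _))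
  have hFb : ∀ t, F t ≤ B' * (Bm ^ 2 * c) := by
    intro t
    have h1 := hB' (om t)
    have h2 := hBm (om t)
    have h3 := hHb (om t)
    have h4 := hW0 (om t)
    have h5 := hH0 (om t)
    have h6 : ‖A.mo μ1 s (om t)‖ ^ 2 ≤ Bm ^ 2 := by gcongr
    exact mul_le_mul h1 (mul_le_mul h6 h3 h5 (by positivity)) (by positivity) (h4.trans h1)
  have hig : Integrable F (ga x T) := by
    refine Integrable.of_bound hFc.aestronglyMeasurable (B' * (Bm ^ 2 * c))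
      (Eventually.of_forall fun t => ?_)
    rw [Real.norm_of_nonneg (hF0 t)]
    exact hFb t
  obtain ⟨hiu, hle⟩ := un_le_ga x hT hF0 hig
  rw [← ofReal_integral_eq_lintegral_ofReal hiu (Eventually.of_forall hF0)]
  refine ENNReal.ofReal_le_ofReal (hle.trans (mul_le_mul_of_nonneg_left ?_ (by norm_num)))
  have e1 : ∀ w : Om, (A.W s y w : ℂ) * (A.mo μ1 s w * conj (A.mo μ1 s w)) * (H w : ℂ)
      = ((A.W s y w * (‖A.mo μ1 s w‖ ^ 2 * H w) : ℝ) : ℂ) := by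
    intro w
    rw [Complex.mul_conj, Complex.normSq_eq_norm_sq]
    push_cast
    ring
  simp only [e1] at h
  rw [integral_complex_ofReal, integral_complex_ofReal, ← Complex.ofReal_sub, Complex.norm_real,
    Real.norm_eq_abs, mul_assoc] at h
  have h2 := (abs_le.mp h).2
  have h3 := ga_err hN hA hT hL y hN0 hN1 hc0 hc1
  have hG := hA.G_pos y
  have h7 : ∑ g ∈ s, (A.r g : ℝ) ≤ ∑ g ∈ Finset.range A.J, (A.r g : ℝ) :=
    Finset.sum_le_sum_of_subset_of_nonneg hs fun _ _ _ => by positivity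
  have h10 : Real.exp (-∑ g ∈ Finset.range A.J, (A.r g : ℝ)) ≤ Real.exp (-∑ g ∈ s, (A.r g : ℝ)) :=
    Real.exp_le_exp.mpr (by linarith)
  have h11 : A.G y * Real.exp (-Real.log T) ≤ A.G y := by
    refine mul_le_of_le_one_right hG.le (Real.exp_le_one_iff.mpr ?_)
    have := (log_ge hA hL).2
    linarith
  have h12 : Real.exp (-∑ g ∈ Finset.range A.J, (A.r g : ℝ)) * (A.G y * Real.exp (-Real.log T))
      ≤ Real.exp (-∑ g ∈ s, (A.r g : ℝ)) * A.G y :=
    mul_le_mul h10 h11 (by positivity) (Real.exp_pos _).le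
  have h13 := mul_le_mul_of_nonneg_left (h3.trans h12) hC
  have h14 : ∫ t, F t ∂(ga x T) = ∫ t, A.W s y (om t) * (‖A.mo μ1 s (om t)‖ ^ 2 * H (om t))
    ∂(ga x T) := rfl
  rw [h14]
  linarith

end

/-! ### the integral of the kernel against the growth -/

/-- profile -/
noncomputable def k3 (t : ℝ) : ℝ := 1 / (1 + |t|) ^ 3

lemma k3_nonneg (t : ℝ) : 0 ≤ k3 t := by unfold k3; positivity

lemma integrable_k3 : Integrable k3 := by
  have h := integrable_one_add_norm (E := ℝ) (μ := volume) (r := 3) (by simp)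
  refine h.congr (Eventually.of_forall fun t => ?_)
  unfold k3
  simp only [Real.norm_eq_abs]
  rw [Real.rpow_neg (by positivity), one_div]
  norm_cast

/-- the integral of the profile -/
noncomputable def c3 : ℝ := ∫ t, k3 t

lemma c3_nonneg : 0 ≤ c3 := integral_nonneg k3_nonneg

lemma gr_nonneg {Λ : ℝ} (hΛ : 0 ≤ Λ) (v : ℝ) : 0 ≤ gr Λ v := by
  unfold gr
  positivity

lemma one_le_gr {Λ : ℝ} (hΛ : 0 ≤ Λ) (v : ℝ) : 1 ≤ gr Λ v := by
  unfold gr
  refine Real.one_le_rpow ?_ (by norm_num)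
  have : 0 ≤ Λ * |v| := by positivity
  linarith

lemma kf_mul_gr_le {Λ : ℝ} (hΛ : 0 < Λ) (u : ℝ) : kf Λ u * gr Λ u ≤ Λ * k3 (Λ * u) := by
  unfold kf gr k3
  rw [abs_mul, abs_of_pos hΛ]
  have h0 : 0 ≤ Λ * |u| := by positivity
  set z : ℝ := 1 + Λ * |u| with hz
  have hz1 : 1 ≤ z := by linarith
  have h1 : z ^ (17 / 4 : ℝ) ≤ z ^ 5 := by
    rw [← Real.rpow_natCast z 5]
    exact Real.rpow_le_rpow_of_exponent_le hz1 (by norm_num)
  calc Λ / z ^ 8 * z ^ (17 / 4 : ℝ) ≤ Λ / z ^ 8 * z ^ 5 := by gcongr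
    _ = Λ * (1 / z ^ 3) := by
        have : z ≠ 0 := by linarith
        field_simp

lemma integrable_Lk3 {Λ : ℝ} (hΛ : 0 < Λ) : Integrable fun u => Λ * k3 (Λ * u) :=
  (integrable_k3.comp_mul_left' hΛ.ne').const_mul Λ

lemma integral_Lk3 {Λ : ℝ} (hΛ : 0 < Λ) : ∫ u, Λ * k3 (Λ * u) = c3 := by
  rw [integral_const_mul, Measure.integral_comp_mul_left k3 Λ, abs_of_pos (inv_pos.2 hΛ),
    smul_eq_mul, ← mul_assoc, mul_inv_cancel₀ hΛ.ne', one_mul]
  rfl

lemma kf_nonneg {Λ : ℝ} (hΛ : 0 < Λ) (u : ℝ) : 0 ≤ kf Λ u := by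
  unfold kf
  positivity

/-- the growth is submultiplicative -/
lemma gr_add_le {Y Λ : ℝ} (hY : 0 ≤ Y) (h : Y ≤ Λ) (w u : ℝ) : gr Y (w + u) ≤ gr Λ w * gr Λ u := by
  have hΛ : 0 ≤ Λ := hY.trans h
  unfold gr
  rw [← Real.mul_rpow (by positivity) (by positivity)]
  refine Real.rpow_le_rpow (by positivity) ?_ (by norm_num)
  have h1 := abs_add_le w u
  have h2 : Y * |w + u| ≤ Λ * (|w| + |u|) := mul_le_mul h h1 (abs_nonneg _) hΛ
  have h3 : 0 ≤ Λ * |w| * (Λ * |u|) := by positivity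
  nlinarith

/-- integrals against the kernel -/
lemma kernel_le {Y Λ : ℝ} (hΛ : 0 < Λ) (hY : 0 ≤ Y) (hYΛ : Y ≤ Λ) {φ : ℝ → ℝ} {M w : ℝ} (hM : 0 ≤ M)
    (h0 : ∀ u, 0 ≤ φ u) (h : ∀ u, φ u ≤ M * gr Y (w + u)) :
    ∫ u, kf Λ u * φ u ≤ c3 * (M * gr Λ w) := by
  have hg := gr_nonneg hΛ.le w
  calc ∫ u, kf Λ u * φ u ≤ ∫ u, M * gr Λ w * (Λ * k3 (Λ * u)) := by
        refine integral_mono_of_nonneg
          (Eventually.of_forall fun u => mul_nonneg (kf_nonneg hΛ u) (h0 u))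
          ((integrable_Lk3 hΛ).const_mul _) (Eventually.of_forall fun u => ?_)
        simp only
        have h1 := gr_add_le hY hYΛ w u
        have h2 := kf_mul_gr_le hΛ u
        have h3 := kf_nonneg hΛ u
        calc kf Λ u * φ u ≤ kf Λ u * (M * (gr Λ w * gr Λ u)) := by
              refine mul_le_mul_of_nonneg_left ((h u).trans ?_) h3
              exact mul_le_mul_of_nonneg_left h1 hM
          _ = M * gr Λ w * (kf Λ u * gr Λ u) := by ring
          _ ≤ _ := mul_le_mul_of_nonneg_left h2 (by positivity)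
    _ = c3 * (M * gr Λ w) := by
        rw [integral_const_mul, integral_Lk3 hΛ]
        ring

/-! ### the weights depend on the primes up to `e ^ Y` -/

lemma dep_P {A : Par} (hN : GroupNum) (hA : A.Ok) {g : ℕ} (hg : g ∈ Finset.range A.J) :
    Dep {p : ℕ | (p : ℝ) ≤ Real.exp A.Y} (A.P g) := by
  refine Dep.mono (dep_lin (S := A.S g) (c := fun p => (A.h p : ℂ))) fun p hp => ?_
  have h := ((hN A hA).2.2.2.1 p).mp (by
    unfold Par.U
    exact Finset.mem_biUnion.mpr ⟨g, hg, hp⟩)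
  exact h.2.2

lemma dep_mo {A : Par} (hN : GroupNum) (hA : A.Ok) (μ1 : ℂ) (s : Finset ℕ) :
    Dep {p : ℕ | (p : ℝ) ≤ Real.exp A.Y} (A.mo μ1 s) := by
  unfold Par.mo
  refine dep_prod fun g hg => ?_
  exact (dep_P hN hA (Finset.mem_sdiff.mp hg).1).comp fun z => tex (KK (A.r g)) (μ1 * z)

lemma dep_W {A : Par} (hN : GroupNum) (hA : A.Ok) {s : Finset ℕ} (hs : s ⊆ Finset.range A.J) (y : ℝ) :
    Dep {p : ℕ | (p : ℝ) ≤ Real.exp A.Y} (A.W s y) := by
  intro x x' hx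
  have h1 : ∀ g ∈ Finset.range A.J, A.P g x = A.P g x' := fun g hg => dep_P hN hA hg x x' hx
  unfold Par.W
  have h2 : ∏ g ∈ s, A.bb g x = ∏ g ∈ s, A.bb g x' := by
    refine Finset.prod_congr rfl fun g hg => ?_
    have h3 := h1 g (hs hg)
    unfold Par.P at h3
    unfold Par.bb bp
    rw [h3]
  have h4 : A.q s y x = A.q s y x' := by
    unfold Par.q
    congr 1
    funext η
    congr 2
    refine Finset.prod_congr rfl fun g hg => ?_
    rw [h1 g (Finset.mem_sdiff.mp hg).1]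
  rw [h2, h4]

/-- uniform bound of the mollifier -/
lemma mo_bd (A : Par) (μ1 : ℂ) (s : Finset ℕ) : ∃ B, ∀ w, ‖A.mo μ1 s w‖ ≤ B := by
  refine ⟨∏ g ∈ Finset.range A.J \ s, Real.exp (‖μ1‖ * ∑ p ∈ A.S g, ‖(A.h p : ℂ)‖), fun w => ?_⟩
  unfold Par.mo
  rw [norm_prod]
  refine Finset.prod_le_prod (fun g _ => norm_nonneg _) fun g _ => ?_
  refine (norm_tex_le _ _).trans (Real.exp_le_exp.mpr ?_)
  rw [norm_mul]
  exact mul_le_mul_of_nonneg_left (norm_lin_le _ _ _) (norm_nonneg _)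

/-- the bound on the torus -/
lemma torus_le (h3 : SuBound) (h4 : RoughS) (h5 : FBound) (hN : GroupNum) : ∀ p0 : ℕ, 1000 ≤ p0 →
    ∃ C : ℝ, 1 ≤ C ∧ ∀ A : Par, A.Ok → A.p0 = p0 → ∀ Λ a : ℝ, 200 ≤ Λ → 3 / 10 * Λ ≤ a →
    a ≤ 9 / 10 * Λ → A.Y ≤ 3 / 10 * Λ → ∀ y w : ℝ, ∀ s : Finset ℕ, s ⊆ Finset.range A.J →
    ∫ x, A.W s y x * (‖A.mo (-1) s x‖ ^ 2 * ‖SU Λ a 0 w x‖ ^ 2) ∂mu
      ≤ C * (Λ / A.Y) * (1 + A.lam * A.Y) ^ 17 * gr Λ w
        * Real.exp (-(2 * ∑ g ∈ s, (A.r g : ℝ))) * A.G y := by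
  obtain ⟨C1, hC1, h3⟩ := h3
  obtain ⟨C2, hC2, h4⟩ := h4
  intro p0 hp0
  obtain ⟨C3, hC3, h5⟩ := h5 p0 hp0
  refine ⟨C1 * (1 + C2) * (c3 * C3) + 1, ?_, ?_⟩
  · have := c3_nonneg
    have : 0 ≤ C1 * (1 + C2) * (c3 * C3) := by positivity
    linarith
  intro A hA hAp Λ a hΛ ha1 ha2 hYΛ y w s hs
  have hΛ0 : 0 < Λ := by linarith
  have hY1 := hA.hY
  have hY0 : 0 < A.Y := by linarith
  obtain ⟨B', hB'⟩ := A.W_le hA s y
  obtain ⟨Bm, hBm⟩ := mo_bd A (-1) s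
  have hW0 : ∀ x, 0 ≤ A.W s y x := A.W_nonneg hA.b_pos.le s y
  have hG := hA.G_pos y
  have hl := hA.hl
  have hB0 : 0 ≤ Bm := (norm_nonneg _).trans (hBm (fun _ => 0))
  have key := h3 A hA Λ a 0 w hΛ ha1 ha2 le_rfl zero_le_one (A.W s y) (A.mo (-1) s) (fun _ => 0)
    (max B' Bm) (A.continuous_W' hA s y).measurable (A.continuous_mo (-1) s).measurable
    measurable_const (fun x => ⟨hW0 x, (hB' x).trans (le_max_left _ _),
      (hBm x).trans (le_max_right _ _), by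
        rw [norm_zero]
        exact hB0.trans (le_max_right _ _)⟩)
    (dep_W hN hA hs y) (dep_mo hN hA (-1) s) (fun _ _ _ => rfl)
  set M : ℝ := C3 * Real.exp (-(2 * ∑ g ∈ s, (A.r g : ℝ))) * (1 + A.lam * A.Y) ^ 17 * A.G y with hM
  have hM0 : 0 ≤ M := by positivity
  have hF : ∀ u : ℝ, ∫ x, A.W s y x * (‖A.F 0 u x‖ ^ 2 * ‖A.mo (-1) s x‖ ^ 2) ∂mu
      ≤ M * gr A.Y u := by
    intro u
    refine ((h5 A hA hAp y u).1 s hs).trans (le_of_eq ?_)
    rw [hM]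
    ring
  have e1 : ∀ u x, A.W s y x * ‖A.F 0 (w + u) x * A.mo (-1) s x - 0‖ ^ 2
      = A.W s y x * (‖A.F 0 (w + u) x‖ ^ 2 * ‖A.mo (-1) s x‖ ^ 2) := by
    intro u x
    rw [sub_zero, norm_mul, mul_pow]
  have e2 : ∀ x, A.W s y x * ‖SU Λ a 0 w x * A.mo (-1) s x - 0‖ ^ 2
      = A.W s y x * (‖A.mo (-1) s x‖ ^ 2 * ‖SU Λ a 0 w x‖ ^ 2) := by
    intro x
    rw [sub_zero, norm_mul, mul_pow]
    ring
  simp only [e1, e2] at key
  have hk := kernel_le (Y := A.Y) (Λ := Λ) (w := w) (M := M)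
    (φ := fun u => ∫ x, A.W s y x * (‖A.F 0 (w + u) x‖ ^ 2 * ‖A.mo (-1) s x‖ ^ 2) ∂mu) hΛ0 hY0.le
    (by linarith) hM0 (fun u => integral_nonneg fun x => mul_nonneg (hW0 x) (by positivity))
    (fun u => hF (w + u))
  have hr := (h4 A.Y a 0 hY1 (by linarith) le_rfl).1
  have e3 : ∑ n ∈ RoS A.Y a, (n : ℝ) ^ (-(1 + 2 * (0 : ℝ))) = ∑ n ∈ RoS A.Y a, (n : ℝ) ^ (-(1 : ℝ)) := by
    refine Finset.sum_congr rfl fun n _ => ?_
    norm_num
  rw [e3] at key
  set I : ℝ := ∫ u, kf Λ u * ∫ x, A.W s y x * (‖A.F 0 (w + u) x‖ ^ 2 * ‖A.mo (-1) s x‖ ^ 2) ∂mu with hI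
  have hI0 : 0 ≤ I := integral_nonneg fun u => mul_nonneg (kf_nonneg hΛ0 u)
    (integral_nonneg fun x => mul_nonneg (hW0 x) (by positivity))
  have hq : a / A.Y ≤ Λ / A.Y := by
    gcongr
    linarith
  have hq1 : 1 ≤ Λ / A.Y := by
    rw [one_le_div hY0]
    linarith
  have hg := gr_nonneg hΛ0.le w
  have hc3 := c3_nonneg
  calc ∫ x, A.W s y x * (‖A.mo (-1) s x‖ ^ 2 * ‖SU Λ a 0 w x‖ ^ 2) ∂mu
      ≤ C1 * I + C1 * (∑ n ∈ RoS A.Y a, (n : ℝ) ^ (-(1 : ℝ))) * I := key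
    _ ≤ C1 * I + C1 * (C2 * (Λ / A.Y)) * I := by
        gcongr
        exact hr.trans (by gcongr)
    _ ≤ C1 * (Λ / A.Y) * I + C1 * (C2 * (Λ / A.Y)) * I := by
        have : C1 * I ≤ C1 * I * (Λ / A.Y) := le_mul_of_one_le_right (by positivity) hq1
        linarith
    _ = C1 * (1 + C2) * (Λ / A.Y) * I := by ring
    _ ≤ C1 * (1 + C2) * (Λ / A.Y) * (c3 * (M * gr Λ w)) := by gcongr
    _ = (C1 * (1 + C2) * (c3 * C3)) * ((Λ / A.Y) * (1 + A.lam * A.Y) ^ 17 * gr Λ w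
        * Real.exp (-(2 * ∑ g ∈ s, (A.r g : ℝ))) * A.G y) := by
        rw [hM]
        ring
    _ ≤ (C1 * (1 + C2) * (c3 * C3) + 1) * ((Λ / A.Y) * (1 + A.lam * A.Y) ^ 17 * gr Λ w
        * Real.exp (-(2 * ∑ g ∈ s, (A.r g : ℝ))) * A.G y) := by
        refine mul_le_mul_of_nonneg_right (by linarith) ?_
        positivity
    _ = _ := by ring

/-! ### the mean of the square of the mollifier -/

lemma sab_neg (A : Par) (z z' : ℂ) :
    sab A.U A.h z z' (-1) (-1) EE.D0 = ((z + conj z') / 2 - 1) ^ 2 * A.vt := by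
  unfold sab EE.D0 Par.vt
  push_cast
  rw [Finset.mul_sum]
  refine Finset.sum_congr rfl fun p _ => ?_
  simp only [map_neg, map_one, add_zero]
  ring

lemma vt_nonneg (A : Par) : 0 ≤ A.vt := by
  unfold Par.vt
  exact Finset.sum_nonneg fun _ _ => by positivity

lemma expBd_neg {A : Par} (hA : A.Ok) : ExpBd A (-1) (-1) EE.D0 A.vt := by
  intro η η' _ _
  rw [sab_neg, EE.zz_sum]
  have e : ((((A.be : ℂ) + I * (A.b * (η - η') : ℝ)) / 2 - 1) ^ 2 * (A.vt : ℂ)).re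
      = ((A.be / 2 - 1) ^ 2 - (A.b * (η - η') / 2) ^ 2) * A.vt := by
    rw [mul_comm, Complex.re_ofReal_mul, pow_two]
    simp only [Complex.mul_re, Complex.sub_re, Complex.sub_im, Complex.add_re, Complex.add_im,
      Complex.mul_im, Complex.ofReal_re, Complex.ofReal_im, Complex.I_re, Complex.I_im,
      Complex.one_re, Complex.one_im, Complex.div_ofNat_re, Complex.div_ofNat_im]
    ring
  rw [e]
  have h1 := vt_nonneg A
  have h2 := hA.hbe
  nlinarith [mul_nonneg h2.le h1]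

lemma mo_mean (hT : WTransfer) (hB : WBd) (hN : GroupNum) : ∃ C : ℝ, 0 ≤ C ∧ ∀ A : Par, A.Ok →
    ∀ T : ℝ, 3 ≤ T → Len A T → ∀ x y : ℝ, ∀ s : Finset ℕ, s ⊆ Finset.range A.J →
    ∫⁻ t, ENNReal.ofReal (A.W s y (om t) * ‖A.mo (-1) s (om t)‖ ^ 2) ∂(un x T)
      ≤ ENNReal.ofReal (C * Real.exp (4 * (A.v * A.Y))
        * Real.exp (-∑ g ∈ s, (A.r g : ℝ)) * A.G y) := by
  obtain ⟨C, hC, hT⟩ := hT
  obtain ⟨C', hC', hB⟩ := hB
  refine ⟨C + C', by positivity, fun A hA T hT0 hL x y s hs => ?_⟩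
  have hTp : 0 < T := by linarith
  obtain ⟨Bm, hBm⟩ := mo_bd A (-1) s
  have h1 := (hB A hA (-1) (-1) (by simp) (by simp) EE.D0 EE.D0_ok A.vt (expBd_neg hA) 1 (fun _ => 1)
    EE.small_one y).1 s hs
  have h2 : ∫ w, A.W s y w * ‖A.mo (-1) s w‖ ^ 2 ∂mu ≤
      C' * Real.exp (-(2 * ∑ g ∈ s, (A.r g : ℝ))) * Real.exp A.vt * A.G y := by
    have e1 : ∀ w : Om, (A.W s y w : ℂ) * (A.mo (-1) s w * conj (A.mo (-1) s w))
        * (HF A.U EE.D0 w * 1) = ((A.W s y w * ‖A.mo (-1) s w‖ ^ 2 : ℝ) : ℂ) := by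
      intro w
      rw [EE.HF_D0, Complex.mul_conj, Complex.normSq_eq_norm_sq]
      push_cast
      ring
    simp only [e1] at h1
    rw [integral_complex_ofReal, Complex.norm_real, mul_one] at h1
    exact (le_abs_self _).trans h1
  have h3 := (hT A hA s hs (-1) (-1) (by simp) (by simp) 1 1 (fun _ => 1) le_rfl (TP.one le_rfl) x T y
    hTp).1
  have h4 : |∫ t, A.W s y (om t) * (fun w => ‖A.mo (-1) s w‖ ^ 2) (om t) ∂(un x T)
      - ∫ w, A.W s y w * (fun w => ‖A.mo (-1) s w‖ ^ 2) w ∂mu| ≤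
      C * (Real.exp (-(A.be * y)) * (Real.exp (2 * 10 ^ 7 * A.v * A.Y) * (1 / T))) := by
    have e1 : ∀ w : Om, (A.W s y w : ℂ) * (A.mo (-1) s w * conj (A.mo (-1) s w)) * 1
        = ((A.W s y w * ‖A.mo (-1) s w‖ ^ 2 : ℝ) : ℂ) := by
      intro w
      rw [Complex.mul_conj, Complex.normSq_eq_norm_sq]
      push_cast
      ring
    simp only [e1] at h3
    rw [integral_complex_ofReal, integral_complex_ofReal, ← Complex.ofReal_sub, Complex.norm_real,
      Real.norm_eq_abs, mul_assoc, one_mul] at h3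
    exact h3
  have h5 := EE.lmean_le (H := fun w => ‖A.mo (-1) s w‖ ^ 2) hA hTp
    (((A.continuous_mo (-1) s).norm).pow 2) (fun _ => by positivity)
    ⟨Bm ^ 2, fun w => by
      have := hBm w
      gcongr⟩ h2 h4
  refine h5.trans (ENNReal.ofReal_le_ofReal ?_)
  have h6 := EE.err_le hN hA hT0 hL y (D := 1) zero_le_one (Real.one_le_exp (by
    have := EE.K_ge hA
    positivity))
  have h7 : ∑ g ∈ s, (A.r g : ℝ) ≤ ∑ g ∈ Finset.range A.J, (A.r g : ℝ) :=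
    Finset.sum_le_sum_of_subset_of_nonneg hs fun _ _ _ => by positivity
  have h8 : 0 ≤ ∑ g ∈ s, (A.r g : ℝ) := Finset.sum_nonneg fun _ _ => by positivity
  have hG := hA.G_pos y
  have h9 : A.G y / Real.sqrt T ≤ A.G y := by
    refine div_le_self hG.le ?_
    rw [Real.one_le_sqrt]
    linarith
  have h10 : Real.exp (-∑ g ∈ Finset.range A.J, (A.r g : ℝ)) ≤ Real.exp (-∑ g ∈ s, (A.r g : ℝ)) :=
    Real.exp_le_exp.mpr (by linarith)
  have h11 : Real.exp (-(2 * ∑ g ∈ s, (A.r g : ℝ))) ≤ Real.exp (-∑ g ∈ s, (A.r g : ℝ)) :=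
    Real.exp_le_exp.mpr (by linarith)
  have h12 : Real.exp A.vt ≤ Real.exp (4 * (A.v * A.Y)) := Real.exp_le_exp.mpr (EE.vt_le hN hA)
  have h13 : 1 ≤ Real.exp (4 * (A.v * A.Y)) := Real.one_le_exp (by
    have := EE.K_ge hA
    positivity)
  set a := Real.exp (-∑ g ∈ s, (A.r g : ℝ)) with ha
  set b := Real.exp (4 * (A.v * A.Y)) with hb
  have ha0 : 0 < a := Real.exp_pos _
  calc C' * Real.exp (-(2 * ∑ g ∈ s, (A.r g : ℝ))) * Real.exp A.vt * A.G y
        + C * (Real.exp (-(A.be * y)) * (Real.exp (2 * 10 ^ 7 * A.v * A.Y) * (1 / T)))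
      ≤ C' * a * b * A.G y + C * (a * A.G y) := by
        refine add_le_add (by gcongr) (mul_le_mul_of_nonneg_left ?_ hC)
        refine h6.trans ?_
        exact mul_le_mul h10 h9 (by positivity) ha0.le
    _ ≤ C' * a * b * A.G y + C * (a * A.G y) * b := by
        refine add_le_add le_rfl (le_mul_of_one_le_right (by positivity) h13)
    _ = (C + C') * b * a * A.G y := by ring

lemma continuous_E {A : Par} (hA : A.Ok) (s : Finset ℕ) (y w : ℝ) (N : ℕ) (Λ : ℝ) :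
    Continuous fun q : ℝ × ℝ => A.W s y (om q.2) * (‖A.mo (-1) s (om q.2)‖ ^ 2
      * ‖SN N Λ 0 w q.1 (om q.2)‖ ^ 2) := by
  have c1 : Continuous fun q : ℝ × ℝ => om q.2 := continuous_om.comp continuous_snd
  have c2 : Continuous fun q : ℝ × ℝ => ((q.1, om q.2) : ℝ × Om) := continuous_fst.prodMk c1
  have c3 : Continuous fun q : ℝ × ℝ => SN N Λ 0 w q.1 (om q.2) :=
    Continuous.comp (g := fun z : ℝ × Om => SN N Λ 0 w z.1 z.2)
      (f := fun q : ℝ × ℝ => ((q.1, om q.2) : ℝ × Om)) (continuous_SN N Λ 0 w) c2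
  have c4 : Continuous fun q : ℝ × ℝ => A.W s y (om q.2) := (A.continuous_W' hA s y).comp c1
  have c5 : Continuous fun q : ℝ × ℝ => A.mo (-1) s (om q.2) := (A.continuous_mo (-1) s).comp c1
  exact c4.mul ((c5.norm.pow 2).mul (c3.norm.pow 2))

/-! ### the height -/

lemma rpow_eq {T : ℝ} (hT : 0 < T) (e : ℝ) : T ^ e = Real.exp (e * Real.log T) := by
  rw [Real.rpow_def_of_pos hT, mul_comm]

lemma height {T x t w : ℝ} (hT : 0 < T) (hΛ : 200 ≤ Real.log T) (hx : |x| ≤ T)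
    (hw : |w| ≤ Real.sqrt T) (ht : t ∈ Icc (T ^ (19 / 20 : ℝ)) (x + T)) :
    Real.exp (9 / 10 * Real.log T) ≤ t + w ∧ t + w ≤ 3 * Real.exp (Real.log T) := by
  have h1 := abs_le.mp hx
  have h2 := abs_le.mp hw
  have hs : Real.sqrt T = Real.exp (1 / 2 * Real.log T) := by
    rw [Real.sqrt_eq_rpow, rpow_eq hT]
  have ht1 := ht.1
  have ht2 := ht.2
  rw [rpow_eq hT] at ht1
  rw [Real.exp_log hT]
  have h3 : 2 * Real.exp (9 / 10 * Real.log T) ≤ Real.exp (19 / 20 * Real.log T) := by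
    have h4 : Real.exp (19 / 20 * Real.log T)
        = Real.exp (1 / 20 * Real.log T) * Real.exp (9 / 10 * Real.log T) := by
      rw [← Real.exp_add]
      congr 1
      ring
    rw [h4]
    have h5 := Real.add_one_le_exp (1 / 20 * Real.log T)
    exact mul_le_mul_of_nonneg_right (by linarith) (Real.exp_pos _).le
  have h6 : Real.exp (1 / 2 * Real.log T) ≤ Real.exp (9 / 10 * Real.log T) :=
    Real.exp_le_exp.mpr (by linarith)
  have h7 : Real.sqrt T ≤ T := by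
    rw [hs]
    calc Real.exp (1 / 2 * Real.log T) ≤ Real.exp (Real.log T) :=
          Real.exp_le_exp.mpr (by linarith)
      _ = T := Real.exp_log hT
  rw [hs] at h2
  rw [hs] at h7
  constructor
  · linarith [h2.1]
  · linarith [h2.2, h1.2]

end LM

open LM

/-- E4 -/
theorem lineMean (h1 : SmoothAfe) (h3 : SuBound) (h4 : RoughS) (h5 : FBound) (hT : WTransfer)
    (hB : WBd) (hN : GroupNum) : LineMean := by
  obtain ⟨C0, hC0, h1⟩ := h1
  obtain ⟨C4, hC4, hmo⟩ := mo_mean hT hB hN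
  obtain ⟨C2, hC2, hT⟩ := hT
  refine ⟨3, le_rfl, fun p0 hp0 => ?_⟩
  obtain ⟨C1, hC1, htor⟩ := torus_le h3 h4 h5 hN p0 hp0
  refine ⟨C0 * (3 * (C1 + C2)) + C0 * C4 + 1, by
    have : 0 ≤ C0 * (3 * (C1 + C2)) := by positivity
    have : 0 ≤ C0 * C4 := by positivity
    linarith, fun A hA hAp T hT0 hL x hx y w hw s hs => ?_⟩
  have hTp : 0 < T := by linarith
  obtain ⟨hK1, hK2⟩ := log_ge hA hL
  have hK := EE.K_ge hA
  have hprob := prob_un x hTp
  have hv : (4 : ℝ) ≤ A.v := by exact_mod_cast hA.hv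
  have hY1 := hA.hY
  have hY0 : 0 < A.Y := by linarith
  have hG := hA.G_pos y
  have hl := hA.hl
  set Λ : ℝ := Real.log T with hΛ
  have hΛ200 : 200 ≤ Λ := by linarith
  have hΛ0 : 0 < Λ := by linarith
  have hYΛ : A.Y ≤ 3 / 10 * Λ := by nlinarith
  set R : ℝ := ∑ g ∈ s, (A.r g : ℝ) with hR
  have hR0 : 0 ≤ R := Finset.sum_nonneg fun _ _ => by positivity
  have hW0 : ∀ z, 0 ≤ A.W s y z := A.W_nonneg hA.b_pos.le s y
  have hg1 := one_le_gr hΛ0.le w
  have hq1 : 1 ≤ Λ / A.Y := by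
    rw [one_le_div hY0]
    linarith
  have hp1 : 1 ≤ (1 + A.lam * A.Y) ^ 17 := one_le_pow₀ (by
    have : 0 ≤ A.lam * A.Y := by positivity
    linarith)
  set Q : ℝ := (Λ / A.Y) * (1 + A.lam * A.Y) ^ 17 * gr Λ w * Real.exp (-R) * A.G y with hQ
  have hQ0 : Real.exp (-R) * A.G y ≤ Q := by
    have h6 : 1 ≤ (Λ / A.Y) * (1 + A.lam * A.Y) ^ 17 * gr Λ w :=
      one_le_mul_of_one_le_of_one_le (one_le_mul_of_one_le_of_one_le hq1 hp1) hg1
    have h7 : 0 ≤ Real.exp (-R) * A.G y := by positivity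
    calc Real.exp (-R) * A.G y = 1 * (Real.exp (-R) * A.G y) := (one_mul _).symm
      _ ≤ ((Λ / A.Y) * (1 + A.lam * A.Y) ^ 17 * gr Λ w) * (Real.exp (-R) * A.G y) := by gcongr
      _ = Q := by rw [hQ]; ring
  have hQp : 0 ≤ Q := le_trans (by positivity) hQ0
  -- the sums over a fixed range
  set N : ℕ := ⌈Real.exp (13 / 20 * Λ)⌉₊ with hNd
  set E : ℝ → ℝ → ℝ := fun a t => A.W s y (om t) * (‖A.mo (-1) s (om t)‖ ^ 2
    * ‖SN N Λ 0 w a (om t)‖ ^ 2) with hE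
  have hE0 : ∀ a t, 0 ≤ E a t := fun a t => mul_nonneg (hW0 _) (by positivity)
  have hsn : ∀ a ≤ 13 / 20 * Λ, ∀ z : Om, SN N Λ 0 w a z = SU Λ a 0 w z := fun a ha z =>
    (su_eq hΛ0 ((Real.exp_le_exp.mpr ha).trans (Nat.le_ceil _)) 0 w z).symm
  have hcE : Continuous fun q : ℝ × ℝ => E q.1 q.2 := continuous_E hA s y w N Λ
  -- the mean for every length
  have hmean : ∀ a ∈ Icc (3 / 10 * Λ) (13 / 20 * Λ), ∫⁻ t, ENNReal.ofReal (E a t) ∂(un x T)
      ≤ ENNReal.ofReal (3 * (C1 + C2) * Q) := by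
    intro a ha
    have ha1 := ha.1
    have ha2 := ha.2
    have tp := tp_su Λ a (le_refl (0 : ℝ)) w
    have hN0 : 0 < Real.exp a := Real.exp_pos a
    have g1 := (hT A hA s hs (-1) (-1) (by simp) (by simp) (Real.exp a) (Real.exp (2 * a)) _
      (Real.one_le_exp (by linarith)) tp x T y hTp).2
    have g2 := ga_mean hN hA hC2 hTp hL hN0 (Real.exp_le_exp.mpr (by linarith))
      (Real.exp_le_exp.mpr (by linarith)) (fun _ => by positivity) tp hs g1
    have g3 := htor A hA hAp Λ a hΛ200 ha1 (by linarith) hYΛ y w s hs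
    have e1 : ∀ t, E a t = A.W s y (om t) * (‖A.mo (-1) s (om t)‖ ^ 2 * ‖SU Λ a 0 w (om t)‖ ^ 2) := by
      intro t
      rw [hE]
      simp only
      rw [hsn a ha2]
    simp only [e1]
    refine g2.trans (ENNReal.ofReal_le_ofReal ?_)
    rw [mul_assoc]
    refine mul_le_mul_of_nonneg_left ?_ (by norm_num)
    rw [add_mul]
    refine add_le_add (g3.trans ?_) (mul_le_mul_of_nonneg_left hQ0 hC2)
    have h8 : Real.exp (-(2 * R)) ≤ Real.exp (-R) := Real.exp_le_exp.mpr (by linarith)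
    rw [hQ]
    calc C1 * (Λ / A.Y) * (1 + A.lam * A.Y) ^ 17 * gr Λ w * Real.exp (-(2 * R)) * A.G y
        ≤ C1 * (Λ / A.Y) * (1 + A.lam * A.Y) ^ 17 * gr Λ w * Real.exp (-R) * A.G y := by
          have : 0 ≤ C1 * (Λ / A.Y) * (1 + A.lam * A.Y) ^ 17 * gr Λ w := by positivity
          gcongr
      _ = _ := by ring
  -- pointwise
  have hpt : ∀ t ∈ Icc (T ^ (19 / 20 : ℝ)) (x + T),
      ENNReal.ofReal (A.W s y (om t) * (‖A.mo (-1) s (om t)‖ ^ 2
        * ‖riemannZeta (1 / 2 + I * (t + w : ℝ))‖ ^ 2))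
      ≤ ENNReal.ofReal (C0 / Λ) * (∫⁻ a in Ioc (3 / 10 * Λ) (13 / 20 * Λ), ENNReal.ofReal (E a t))
        + ENNReal.ofReal (C0 * Real.exp (-(3 / 10 * Λ)))
          * ENNReal.ofReal (A.W s y (om t) * ‖A.mo (-1) s (om t)‖ ^ 2) := by
    intro t ht
    obtain ⟨k1, k2⟩ := height hTp hΛ200 hx hw ht
    have k3 := h1 Λ hΛ200 (t + w) k1 k2
    have e1 : (∫ a in (3 / 10 * Λ)..(13 / 20 * Λ), ‖SU Λ a 0 0 (om (t + w))‖ ^ 2)
        = ∫ a in (3 / 10 * Λ)..(13 / 20 * Λ), ‖SN N Λ 0 w a (om t)‖ ^ 2 := by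
      refine intervalIntegral.integral_congr fun a ha => ?_
      rw [uIcc_of_le (by linarith)] at ha
      rw [su_shift, hsn a ha.2]
    rw [e1] at k3
    set D : ℝ := A.W s y (om t) * ‖A.mo (-1) s (om t)‖ ^ 2 with hD
    have hD0 : 0 ≤ D := mul_nonneg (hW0 _) (by positivity)
    have k4 : A.W s y (om t) * (‖A.mo (-1) s (om t)‖ ^ 2
        * ‖riemannZeta (1 / 2 + I * (t + w : ℝ))‖ ^ 2)
        ≤ C0 / Λ * (∫ a in (3 / 10 * Λ)..(13 / 20 * Λ), E a t)
          + C0 * Real.exp (-(3 / 10 * Λ)) * D := by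
      have e2 : (∫ a in (3 / 10 * Λ)..(13 / 20 * Λ), E a t)
          = D * ∫ a in (3 / 10 * Λ)..(13 / 20 * Λ), ‖SN N Λ 0 w a (om t)‖ ^ 2 := by
        rw [← intervalIntegral.integral_const_mul]
        refine intervalIntegral.integral_congr fun a _ => ?_
        simp only [hE, hD]
        ring
      rw [e2]
      calc _ = D * ‖riemannZeta (1 / 2 + I * (t + w : ℝ))‖ ^ 2 := by rw [hD]; ring
        _ ≤ D * (C0 / Λ * (∫ a in (3 / 10 * Λ)..(13 / 20 * Λ), ‖SN N Λ 0 w a (om t)‖ ^ 2)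
            + C0 * Real.exp (-(3 / 10 * Λ))) := mul_le_mul_of_nonneg_left k3 hD0
        _ = _ := by ring
    have hint : IntegrableOn (fun a => E a t) (Ioc (3 / 10 * Λ) (13 / 20 * Λ)) := by
      have hc : Continuous fun a => E a t := hcE.comp (f := fun a : ℝ => ((a, t) : ℝ × ℝ))
        (by fun_prop)
      exact (hc.integrableOn_Icc).mono_set Ioc_subset_Icc_self
    refine (ENNReal.ofReal_le_ofReal k4).trans ?_
    have hi0 : 0 ≤ ∫ a in (3 / 10 * Λ)..(13 / 20 * Λ), E a t :=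
      intervalIntegral.integral_nonneg (by linarith) fun a _ => hE0 a t
    rw [ENNReal.ofReal_add (by positivity) (by positivity), ENNReal.ofReal_mul (by positivity),
      ENNReal.ofReal_mul (by positivity) (p := C0 * Real.exp (-(3 / 10 * Λ)))]
    refine add_le_add ?_ le_rfl
    rw [intervalIntegral.integral_of_le (by linarith),
      ofReal_integral_eq_lintegral_ofReal hint (Eventually.of_forall fun a => hE0 a t)]
  have hmeas : Measurable fun q : ℝ × ℝ => ENNReal.ofReal (E q.2 q.1) :=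
    ENNReal.measurable_ofReal.comp (hcE.comp (f := fun q : ℝ × ℝ => (q.2, q.1)) (by fun_prop)).measurable
  have hmI : Measurable fun t : ℝ =>
      ∫⁻ a in Ioc (3 / 10 * Λ) (13 / 20 * Λ), ENNReal.ofReal (E a t) :=
    hmeas.lintegral_prod_right'
  calc ∫⁻ t in Icc (T ^ (19 / 20 : ℝ)) (x + T), ENNReal.ofReal (A.W s y (om t)
        * (‖A.mo (-1) s (om t)‖ ^ 2 * ‖riemannZeta (1 / 2 + I * (t + w : ℝ))‖ ^ 2)) ∂(un x T)
      ≤ ∫⁻ t in Icc (T ^ (19 / 20 : ℝ)) (x + T), (ENNReal.ofReal (C0 / Λ)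
          * (∫⁻ a in Ioc (3 / 10 * Λ) (13 / 20 * Λ), ENNReal.ofReal (E a t))
        + ENNReal.ofReal (C0 * Real.exp (-(3 / 10 * Λ)))
          * ENNReal.ofReal (A.W s y (om t) * ‖A.mo (-1) s (om t)‖ ^ 2)) ∂(un x T) :=
        setLIntegral_mono' measurableSet_Icc hpt
    _ ≤ ∫⁻ t, (ENNReal.ofReal (C0 / Λ)
          * (∫⁻ a in Ioc (3 / 10 * Λ) (13 / 20 * Λ), ENNReal.ofReal (E a t))
        + ENNReal.ofReal (C0 * Real.exp (-(3 / 10 * Λ)))
          * ENNReal.ofReal (A.W s y (om t) * ‖A.mo (-1) s (om t)‖ ^ 2)) ∂(un x T) :=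
        setLIntegral_le_lintegral _ _
    _ = ENNReal.ofReal (C0 / Λ) * (∫⁻ t, (∫⁻ a in Ioc (3 / 10 * Λ) (13 / 20 * Λ),
          ENNReal.ofReal (E a t)) ∂(un x T))
        + ENNReal.ofReal (C0 * Real.exp (-(3 / 10 * Λ)))
          * ∫⁻ t, ENNReal.ofReal (A.W s y (om t) * ‖A.mo (-1) s (om t)‖ ^ 2) ∂(un x T) := by
        rw [lintegral_add_left (hmI.const_mul _), lintegral_const_mul _ hmI,
          lintegral_const_mul' _ _ ENNReal.ofReal_ne_top]
    _ ≤ ENNReal.ofReal (C0 / Λ) * (ENNReal.ofReal (3 * (C1 + C2) * Q) * ENNReal.ofReal (7 / 20 * Λ))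
        + ENNReal.ofReal (C0 * Real.exp (-(3 / 10 * Λ)))
          * ENNReal.ofReal (C4 * Real.exp (4 * (A.v * A.Y)) * Real.exp (-R) * A.G y) := by
        refine add_le_add (mul_le_mul_right ?_ _) (mul_le_mul_right (hmo A hA T hT0 hL x y s hs) _)
        rw [lintegral_lintegral_swap hmeas.aemeasurable]
        calc ∫⁻ a in Ioc (3 / 10 * Λ) (13 / 20 * Λ), (∫⁻ t, ENNReal.ofReal (E a t) ∂(un x T))
            ≤ ∫⁻ a in Ioc (3 / 10 * Λ) (13 / 20 * Λ), ENNReal.ofReal (3 * (C1 + C2) * Q) :=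
              setLIntegral_mono' measurableSet_Ioc fun a ha => hmean a (Ioc_subset_Icc_self ha)
          _ = _ := by
              rw [setLIntegral_const, Real.volume_Ioc]
              congr 2
              ring
    _ ≤ ENNReal.ofReal (C0 * (3 * (C1 + C2)) * Q + C0 * C4 * Q) := by
        have hC12 : 0 ≤ 3 * (C1 + C2) * Q := by positivity
        rw [← ENNReal.ofReal_mul hC12, ← ENNReal.ofReal_mul (by positivity),
          ← ENNReal.ofReal_mul (by positivity), ← ENNReal.ofReal_add (by positivity) (by positivity)]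
        refine ENNReal.ofReal_le_ofReal (add_le_add ?_ ?_)
        · have e1 : C0 / Λ * (3 * (C1 + C2) * Q * (7 / 20 * Λ)) = 7 / 20 * (C0 * (3 * (C1 + C2)) * Q) := by
            field_simp
          rw [e1]
          have : 0 ≤ C0 * (3 * (C1 + C2)) * Q := by positivity
          linarith
        · have e2 : C0 * Real.exp (-(3 / 10 * Λ)) * (C4 * Real.exp (4 * (A.v * A.Y)) * Real.exp (-R)
              * A.G y) = C0 * C4 * (Real.exp (-(3 / 10 * Λ) + 4 * (A.v * A.Y))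
                * (Real.exp (-R) * A.G y)) := by
            rw [Real.exp_add]
            ring
          rw [e2]
          have h9 : Real.exp (-(3 / 10 * Λ) + 4 * (A.v * A.Y)) ≤ 1 :=
            Real.exp_le_one_iff.mpr (by linarith)
          have h10 : Real.exp (-(3 / 10 * Λ) + 4 * (A.v * A.Y)) * (Real.exp (-R) * A.G y) ≤ Q :=
            (mul_le_of_le_one_left (by positivity) h9).trans hQ0
          gcongr
    _ ≤ _ := by
        refine ENNReal.ofReal_le_ofReal ?_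
        have e3 : (C0 * (3 * (C1 + C2)) + C0 * C4 + 1) * (Λ / A.Y) * (1 + A.lam * A.Y) ^ 17
            * gr Λ w * Real.exp (-R) * A.G y = (C0 * (3 * (C1 + C2)) + C0 * C4 + 1) * Q := by
          rw [hQ]
          ring
        rw [e3]
        nlinarith

end Pool.Agent.Lib.GT
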