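import Mathlib
import Pool.Agent.Lib.MP_f9aece_nt_gt.StmtsZ
import Pool.Agent.Lib.MP_f9aece_nt_gt.E4

/-!
Gaussian tails of `log |zeta|` on the critical line: E5, first part: transfer of the mean of
`W |S M - 1|^2` to the torus through the Gaussian mean.
-/

set_option autoImplicit false

namespace Pool.Agent.Lib.GT

open MeasureTheory Set Filter Topology Complex ProbabilityTheory
open scoped ComplexConjugate

/-- sums of characters of length at most `N` and of norm at most `c` -/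
def AP (N c : ℝ) (f : Om → ℂ) : Prop :=
  ∃ (ι : Type) (_ : Fintype ι) (a : ι → ℂ) (m : ι → ℕ), (∀ i, 1 ≤ m i ∧ (m i : ℝ) ≤ N) ∧
    (∀ x, f x = ∑ i, a i * ch x (m i)) ∧ ∑ i, ‖a i‖ ≤ c

namespace AP

variable {N N' c c' : ℝ} {f g : Om → ℂ}

lemma congr (h : AP N c f) (hfg : ∀ x, g x = f x) : AP N c g := by
  obtain ⟨ι, hι, a, m, h1, h2, h3⟩ := h
  exact ⟨ι, hι, a, m, h1, fun x => (hfg x).trans (h2 x), h3⟩

lemma mono (h : AP N c f) (hN : N ≤ N') (hc : c ≤ c') : AP N' c' f := by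
  obtain ⟨ι, hι, a, m, h1, h2, h3⟩ := h
  exact ⟨ι, hι, a, m, fun i => ⟨(h1 i).1, (h1 i).2.trans hN⟩, h2, h3.trans hc⟩

lemma one (hN : 1 ≤ N) : AP N 1 fun _ => 1 :=
  ⟨Unit, inferInstance, fun _ => 1, fun _ => 1, fun _ => ⟨le_rfl, by simpa using hN⟩,
    fun x => by simp [ch_one], by simp⟩

lemma mul (hf : AP N c f) (hg : AP N' c' g) : AP (N * N') (c * c') fun x => f x * g x := by
  obtain ⟨ι, hι, a, m, h1, h2, h3⟩ := hf
  obtain ⟨ι', hι', a', m', h1', h2', h3'⟩ := hg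
  refine ⟨ι × ι', inferInstance, fun i => a i.1 * a' i.2, fun i => m i.1 * m' i.2, ?_, ?_, ?_⟩
  · rintro ⟨i, j⟩
    have hi := h1 i
    have hj := h1' j
    have hi0 : (0 : ℝ) ≤ m i := Nat.cast_nonneg _
    have hj0 : (0 : ℝ) ≤ m' j := Nat.cast_nonneg _
    refine ⟨Nat.mul_pos hi.1 hj.1, ?_⟩
    push_cast
    exact mul_le_mul hi.2 hj.2 hj0 (hi0.trans hi.2)
  · intro x
    change f x * g x = _
    rw [h2, h2', Finset.sum_mul_sum, ← Finset.univ_product_univ, Finset.sum_product]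
    refine Finset.sum_congr rfl fun i _ => Finset.sum_congr rfl fun j _ => ?_
    have hi := h1 i
    have hj := h1' j
    simp only
    rw [ch_mul x (by omega) (by omega)]
    ring
  · have e : ∑ i : ι × ι', ‖a i.1 * a' i.2‖ = (∑ i, ‖a i‖) * ∑ j, ‖a' j‖ := by
      rw [Finset.sum_mul_sum, ← Finset.univ_product_univ, Finset.sum_product]
      simp
    rw [e]
    exact mul_le_mul h3 h3' (Finset.sum_nonneg fun _ _ => norm_nonneg _)
      ((Finset.sum_nonneg fun _ _ => norm_nonneg _).trans h3)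

lemma prod {ι : Type} {s : Finset ι} {N c : ι → ℝ} {f : ι → Om → ℂ}
    (h : ∀ i ∈ s, AP (N i) (c i) (f i)) :
    AP (∏ i ∈ s, N i) (∏ i ∈ s, c i) fun x => ∏ i ∈ s, f i x := by
  classical
  induction s using Finset.induction_on with
  | empty => simpa using AP.one (le_refl (1 : ℝ))
  | insert i s hi ih =>
    rw [Finset.prod_insert hi, Finset.prod_insert hi]
    refine ((h i (Finset.mem_insert_self _ _)).mul
      (ih fun j hj => h j (Finset.mem_insert_of_mem hj))).congr fun x => ?_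
    rw [Finset.prod_insert hi]

/-- a sum of characters is a trigonometric polynomial -/
lemma tp (hf : AP N c f) (hN : 1 ≤ N) : TP N c f := by
  obtain ⟨ι, hι, a, m, h1, h2, h3⟩ := hf
  exact ⟨ι, hι, a, m, fun _ => 1, fun i => ⟨(h1 i).1, (h1 i).2, le_rfl, by simpa using hN⟩,
    fun x => by simp [h2, ch_one], h3⟩

/-- the square of a sum of characters is a trigonometric polynomial of the same length -/
lemma normSq (hf : AP N c f) : TP N (c * c) fun x => ((‖f x‖ ^ 2 : ℝ) : ℂ) := by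
  obtain ⟨ι, hι, a, m, h1, h2, h3⟩ := hf
  refine ⟨ι × ι, inferInstance, fun i => a i.1 * conj (a i.2), fun i => m i.1, fun i => m i.2,
    fun i => ⟨(h1 i.1).1, (h1 i.1).2, (h1 i.2).1, (h1 i.2).2⟩, ?_, ?_⟩
  · intro x
    change ((‖f x‖ ^ 2 : ℝ) : ℂ) = _
    rw [h2, ← Complex.normSq_eq_norm_sq, ← Complex.mul_conj, map_sum, Finset.sum_mul_sum,
      ← Finset.univ_product_univ, Finset.sum_product]
    refine Finset.sum_congr rfl fun i _ => Finset.sum_congr rfl fun j _ => ?_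
    simp only
    rw [map_mul]
    ring
  · have e : ∑ i : ι × ι, ‖a i.1 * conj (a i.2)‖ = (∑ i, ‖a i‖) * ∑ j, ‖a j‖ := by
      rw [Finset.sum_mul_sum, ← Finset.univ_product_univ, Finset.sum_product]
      simp
    rw [e]
    exact mul_le_mul h3 h3 (Finset.sum_nonneg fun _ _ => norm_nonneg _)
      ((Finset.sum_nonneg fun _ _ => norm_nonneg _).trans h3)

end AP

namespace LM

lemma ap_sum {S : Finset ℕ} {c : ℕ → ℂ} {N C : ℝ} (hS : ∀ n ∈ S, 1 ≤ n ∧ (n : ℝ) ≤ N)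
    (hC : ∑ n ∈ S, ‖c n‖ ≤ C) : AP N C fun x => ∑ n ∈ S, c n * ch x n := by
  refine ⟨S, Finset.fintypeCoeSort S, fun n => c n, fun n => n, fun n => hS n n.2, fun x => ?_, ?_⟩
  · exact (Finset.sum_coe_sort S fun n => c n * ch x n).symm
  · rw [Finset.sum_coe_sort S fun n => ‖c n‖]
    exact hC

/-- the smooth sum -/
lemma ap_su (Λ a : ℝ) {σ : ℝ} (hσ : 0 ≤ σ) (v : ℝ) : AP (Real.exp a) (Real.exp a) (SU Λ a σ v) := by
  have h1 : ∀ n ∈ Finset.Icc 1 ⌊Real.exp a⌋₊, 1 ≤ n ∧ (n : ℝ) ≤ Real.exp a := fun n hn =>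
    ⟨(Finset.mem_Icc.mp hn).1, (Nat.cast_le.mpr (Finset.mem_Icc.mp hn).2).trans
      (Nat.floor_le (Real.exp_pos a).le)⟩
  have h2 : ∑ n ∈ Finset.Icc 1 ⌊Real.exp a⌋₊,
      ‖(Real.smoothTransition ((a - Real.log n) / (Λ / 20)) : ℂ)
      * (n : ℂ) ^ (-(1 / 2 + σ + I * v) : ℂ)‖ ≤ Real.exp a := by
    calc _ ≤ ∑ n ∈ Finset.Icc 1 ⌊Real.exp a⌋₊, (1 : ℝ) :=
          Finset.sum_le_sum fun n hn => coef_le Λ a hσ v (h1 n hn).1
      _ = (⌊Real.exp a⌋₊ : ℝ) := by simp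
      _ ≤ _ := Nat.floor_le (Real.exp_pos a).le
  refine (ap_sum h1 h2).congr fun x => ?_
  unfold SU
  exact Finset.sum_congr rfl fun n _ => by rw [mul_assoc]

/-- the length of the mollifier of the small primes -/
noncomputable def Nsm (p0 : ℕ) : ℝ := ∏ p ∈ (Finset.Icc 1 p0).filter Nat.Prime, (p : ℝ)

/-- the norm of the mollifier of the small primes -/
noncomputable def csm (p0 : ℕ) : ℝ := ∏ _p ∈ (Finset.Icc 1 p0).filter Nat.Prime, (2 : ℝ)

lemma one_le_Nsm (p0 : ℕ) : 1 ≤ Nsm p0 := by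
  unfold Nsm
  rw [← Finset.prod_const_one (s := (Finset.Icc 1 p0).filter Nat.Prime)]
  refine Finset.prod_le_prod (fun _ _ => zero_le_one) fun p hp => ?_
  have := (Finset.mem_filter.mp hp).2.one_lt.le
  exact_mod_cast this

lemma one_le_csm (p0 : ℕ) : 1 ≤ csm p0 := by
  unfold csm
  rw [← Finset.prod_const_one (s := (Finset.Icc 1 p0).filter Nat.Prime)]
  exact Finset.prod_le_prod (fun _ _ => zero_le_one) fun p _ => one_le_two

section

variable {A : Par}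

lemma norm_h_le {p : ℕ} (hA : A.Ok) (hp : 1 ≤ p) : ‖(A.h p : ℂ)‖ ≤ 1 := by
  rw [Complex.norm_real, Real.norm_of_nonneg (EE.h_nonneg p)]
  have h1 := EE.h_sq_le hA hp
  have h2 : (1 : ℝ) / p ≤ 1 := by
    have : (1 : ℝ) ≤ p := by exact_mod_cast hp
    rw [div_le_one (by linarith)]
    exact this
  have h3 := EE.h_nonneg (A := A) p
  nlinarith

lemma ap_Msm (hA : A.Ok) : AP (Nsm A.p0) (csm A.p0) A.Msm := by
  unfold Nsm csm Par.Msm
  refine AP.prod fun p hp => ?_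
  obtain ⟨h1, h2⟩ := Finset.mem_filter.mp hp
  have hp1 := h2.one_lt.le
  refine ⟨Bool, inferInstance, fun b => if b then 1 else -(A.h p : ℂ), fun b => if b then 1 else p,
    ?_, ?_, ?_⟩
  · intro b
    cases b
    · exact ⟨hp1, le_rfl⟩
    · refine ⟨le_rfl, ?_⟩
      simpa using hp1
  · intro x
    simp [ch_one, ch_prime x h2]
    ring
  · have h3 := norm_h_le hA hp1
    simp only [Fintype.sum_bool, if_true, Bool.false_eq_true, if_false, norm_one, norm_neg]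
    linarith

lemma norm_Msm_le (hA : A.Ok) (x : Om) : ‖A.Msm x‖ ≤ csm A.p0 :=
  ((ap_Msm hA).tp (one_le_Nsm _)).norm_le x

lemma continuous_Msm (A : Par) : Continuous A.Msm := by
  unfold Par.Msm
  exact continuous_finsetProd _ fun p _ =>
    continuous_const.sub (continuous_const.mul (continuous_e1.comp (continuous_apply p)))

lemma int4 {α : Type} [MeasurableSpace α] {ν : Measure α} {g1 g2 g3 g4 : α → ℂ}
    (h1 : Integrable g1 ν) (h2 : Integrable g2 ν) (h3 : Integrable g3 ν) (h4 : Integrable g4 ν) :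
    ∫ a, (g1 a - g2 a - g3 a + g4 a) ∂ν
      = ∫ a, g1 a ∂ν - ∫ a, g2 a ∂ν - ∫ a, g3 a ∂ν + ∫ a, g4 a ∂ν := by
  have h12 : Integrable (fun a => g1 a - g2 a) ν := h1.sub h2
  have h123 : Integrable (fun a => g1 a - g2 a - g3 a) ν := h12.sub h3
  rw [integral_add h123 h4, integral_sub h12 h3, integral_sub h1 h2]

/-- the functions to which the transfer is applied -/
noncomputable def tf (A : Par) (y : ℝ) (μ1 μ2 : ℂ) (H : Om → ℂ) (w : Om) : ℂ :=
  (A.W ∅ y w : ℂ) * (A.mo μ1 ∅ w * conj (A.mo μ2 ∅ w)) * H w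

lemma continuous_tf (hA : A.Ok) (y : ℝ) (μ1 μ2 : ℂ) {H : Om → ℂ} (hH : Continuous H) :
    Continuous (tf A y μ1 μ2 H) :=
  ((Complex.continuous_ofReal.comp (A.continuous_W' hA ∅ y)).mul
    ((A.continuous_mo μ1 ∅).mul (Complex.continuous_conj.comp (A.continuous_mo μ2 ∅)))).mul hH

lemma tf_bd (hA : A.Ok) (y : ℝ) (μ1 μ2 : ℂ) {H : Om → ℂ} {c : ℝ} (hH : ∀ w, ‖H w‖ ≤ c) :
    ∃ B, ∀ w, ‖tf A y μ1 μ2 H w‖ ≤ B := by
  obtain ⟨B1, h1⟩ := A.W_le hA ∅ y
  obtain ⟨B2, h2⟩ := mo_bd A μ1 ∅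
  obtain ⟨B3, h3⟩ := mo_bd A μ2 ∅
  refine ⟨B1 * (B2 * B3) * c, fun w => ?_⟩
  unfold tf
  rw [norm_mul, norm_mul, norm_mul, Complex.norm_conj, Complex.norm_real,
    Real.norm_of_nonneg (A.W_nonneg hA.b_pos.le ∅ y w)]
  have h4 := A.W_nonneg hA.b_pos.le ∅ y w
  have h5 := h1 w
  have h6 := h2 w
  have h7 := h3 w
  have h8 := hH w
  have h9 := norm_nonneg (A.mo μ1 ∅ w)
  have h10 := norm_nonneg (A.mo μ2 ∅ w)
  have h11 := norm_nonneg (H w)
  have h12 : 0 ≤ B1 := h4.trans h5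
  have h13 : 0 ≤ B2 := h9.trans h6
  have h14 : 0 ≤ B3 := h10.trans h7
  gcongr

lemma tf_int (hA : A.Ok) (y : ℝ) (μ1 μ2 : ℂ) {H : Om → ℂ} {N c : ℝ} (hH : TP N c H) (x T : ℝ) :
    Integrable (fun t => tf A y μ1 μ2 H (om t)) (ga x T) ∧ Integrable (tf A y μ1 μ2 H) mu := by
  obtain ⟨B, hB⟩ := tf_bd (H := H) hA y μ1 μ2 hH.norm_le
  have hc := continuous_tf (H := H) hA y μ1 μ2 hH.continuous
  exact ⟨Integrable.of_bound (hc.comp continuous_om).aestronglyMeasurable B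
    (Eventually.of_forall fun t => hB _), integrable_of_bd hc.aestronglyMeasurable hB⟩

/-- the expansion of the square -/
lemma sq_expand (A : Par) (y : ℝ) (S : Om → ℂ) (w : Om) :
    ((A.W ∅ y w * ‖S w * (A.mo (-1) ∅ w * A.Msm w) - 1‖ ^ 2 : ℝ) : ℂ)
      = tf A y (-1) (-1) (fun x => ((‖S x * A.Msm x‖ ^ 2 : ℝ) : ℂ)) w
        - tf A y (-1) 0 (fun x => S x * A.Msm x) w
        - tf A y 0 (-1) (fun x => conj (S x * A.Msm x)) w + tf A y 0 0 (fun _ => 1) w := by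
  unfold tf
  rw [EE.mo_zero]
  push_cast
  rw [← Complex.ofReal_pow, ← Complex.ofReal_pow, ← Complex.normSq_eq_norm_sq,
    ← Complex.normSq_eq_norm_sq, ← Complex.mul_conj, ← Complex.mul_conj, map_sub, map_mul, map_mul,
    map_mul, map_one]
  ring

/-- **Transfer of the mean of `W |S M - 1|^2` to the torus.** -/
lemma near_un (hN : GroupNum) {C : ℝ} (hC : 0 ≤ C) (hA : A.Ok)
    (hT : ∀ μ1 μ2 : ℂ, ‖μ1‖ ≤ 1 → ‖μ2‖ ≤ 1 → ∀ (N c : ℝ) (H : Om → ℂ), 1 ≤ N → TP N c H →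
      ∀ x T y : ℝ, 0 < T →
      ‖∫ t, tf A y μ1 μ2 H (om t) ∂(ga x T) - ∫ w, tf A y μ1 μ2 H w ∂mu‖
        ≤ C * Real.exp (-(A.be * y)) * (Real.exp (10 ^ 7 * A.v * A.Y) * (c *
          Real.exp (-(T ^ 2 / (4 * (Real.exp (10 ^ 7 * A.v * A.Y) * N) ^ 2))))))
    {x T y : ℝ} (hT0 : 0 < T) (hL : Len A T) {S : Om → ℂ} {N c : ℝ} (hS : AP N c S) (hN1 : 1 ≤ N)
    (hc1 : 1 ≤ c) (hNT : N * Nsm A.p0 ≤ Real.exp (9 / 10 * Real.log T))
    (hcT : c * csm A.p0 ≤ Real.exp (2 * Real.log T)) :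
    ∫⁻ t, ENNReal.ofReal (A.W ∅ y (om t)
        * ‖S (om t) * (A.mo (-1) ∅ (om t) * A.Msm (om t)) - 1‖ ^ 2) ∂(un x T)
      ≤ ENNReal.ofReal (3 * (∫ w, A.W ∅ y w * ‖S w * (A.mo (-1) ∅ w * A.Msm w) - 1‖ ^ 2 ∂mu
        + 4 * C * (A.G y * Real.exp (-Real.log T)))) := by
  have := prob_un x hT0
  have hK := EE.K_ge hA
  have hP := hS.mul (ap_Msm hA)
  have hN2 : 1 ≤ N * Nsm A.p0 := one_le_mul_of_one_le_of_one_le hN1 (one_le_Nsm _)
  have hc2 : 1 ≤ c * csm A.p0 := one_le_mul_of_one_le_of_one_le hc1 (one_le_csm _)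
  set N' : ℝ := N * Nsm A.p0 with hN'
  set c' : ℝ := c * csm A.p0 with hc'
  have t1 : TP N' (c' * c') fun x => ((‖S x * A.Msm x‖ ^ 2 : ℝ) : ℂ) := hP.normSq
  have t2 : TP N' c' fun x => S x * A.Msm x := hP.tp hN2
  have t3 : TP N' c' fun x => conj (S x * A.Msm x) := t2.conj_
  have t4 : TP N' 1 fun _ => (1 : ℂ) := TP.one hN2
  have herr : ∀ c0 : ℝ, 0 ≤ c0 → c0 ≤ Real.exp (4 * Real.log T) →
      C * Real.exp (-(A.be * y)) * (Real.exp (10 ^ 7 * A.v * A.Y) * (c0 *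
          Real.exp (-(T ^ 2 / (4 * (Real.exp (10 ^ 7 * A.v * A.Y) * N') ^ 2)))))
        ≤ C * (A.G y * Real.exp (-Real.log T)) := by
    intro c0 h0 h1
    rw [mul_assoc]
    refine mul_le_mul_of_nonneg_left ?_ hC
    have h2 := ga_err hN hA hT0 hL y (N := N') (c := c0) (by linarith)
      (hNT.trans (Real.exp_le_exp.mpr (by
        have : 0 ≤ 10 ^ 7 * ((A.v : ℝ) * A.Y) := by positivity
        linarith))) h0 h1
    refine h2.trans ?_
    have hG := hA.G_pos y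
    have h3 : Real.exp (-∑ g ∈ Finset.range A.J, (A.r g : ℝ)) ≤ 1 :=
      Real.exp_le_one_iff.mpr (by
        have : 0 ≤ ∑ g ∈ Finset.range A.J, (A.r g : ℝ) := Finset.sum_nonneg fun _ _ => by positivity
        linarith)
    exact mul_le_of_le_one_left (by positivity) h3
  have hcc : c' * c' ≤ Real.exp (4 * Real.log T) := by
    calc c' * c' ≤ Real.exp (2 * Real.log T) * Real.exp (2 * Real.log T) := by
          gcongr
      _ = Real.exp (4 * Real.log T) := by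
          rw [← Real.exp_add]
          congr 1
          ring
  have hL2 := (log_ge hA hL).2
  have hc4 : c' ≤ Real.exp (4 * Real.log T) := hcT.trans (Real.exp_le_exp.mpr (by linarith))
  have h14 : (1 : ℝ) ≤ Real.exp (4 * Real.log T) := hc2.trans hc4
  have n1 : ‖(-1 : ℂ)‖ ≤ 1 := by simp
  have n0 : ‖(0 : ℂ)‖ ≤ 1 := by simp
  have g1 := (hT (-1) (-1) n1 n1 N' _ _ hN2 t1 x T y hT0).trans (herr _ (by positivity) hcc)
  have g2 := (hT (-1) 0 n1 n0 N' _ _ hN2 t2 x T y hT0).trans (herr _ (by positivity) hc4)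
  have g3 := (hT 0 (-1) n0 n1 N' _ _ hN2 t3 x T y hT0).trans (herr _ (by positivity) hc4)
  have g4 := (hT 0 0 n0 n0 N' _ _ hN2 t4 x T y hT0).trans (herr _ zero_le_one h14)
  have i1 := tf_int hA y (-1) (-1) t1 x T
  have i2 := tf_int hA y (-1) 0 t2 x T
  have i3 := tf_int hA y 0 (-1) t3 x T
  have i4 := tf_int hA y 0 0 t4 x T
  set f1 := tf A y (-1) (-1) (fun x => ((‖S x * A.Msm x‖ ^ 2 : ℝ) : ℂ)) with hf1
  set f2 := tf A y (-1) 0 (fun x => S x * A.Msm x) with hf2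
  set f3 := tf A y 0 (-1) (fun x => conj (S x * A.Msm x)) with hf3
  set f4 := tf A y 0 0 (fun _ => 1) with hf4
  set F : Om → ℝ := fun w => A.W ∅ y w * ‖S w * (A.mo (-1) ∅ w * A.Msm w) - 1‖ ^ 2 with hF
  have eF : ∀ w, ((F w : ℝ) : ℂ) = f1 w - f2 w - f3 w + f4 w := fun w => sq_expand A y S w
  have hF0 : ∀ w, 0 ≤ F w := fun w => mul_nonneg (A.W_nonneg hA.b_pos.le ∅ y w) (by positivity)
  have hig : Integrable (fun t => F (om t)) (ga x T) := by
    have h1 : Integrable (fun t => ((F (om t) : ℝ) : ℂ)) (ga x T) := by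
      refine (((i1.1.sub i2.1).sub i3.1).add i4.1).congr (Eventually.of_forall fun t => ?_)
      exact (eF (om t)).symm
    have h2 := h1.re
    simpa using h2
  obtain ⟨hiu, hle⟩ := un_le_ga x hT0 (fun t => hF0 (om t)) hig
  have key : ‖((∫ t, F (om t) ∂(ga x T) : ℝ) : ℂ) - ((∫ w, F w ∂mu : ℝ) : ℂ)‖
      ≤ 4 * C * (A.G y * Real.exp (-Real.log T)) := by
    rw [← integral_complex_ofReal, ← integral_complex_ofReal]
    simp only [eF]
    rw [int4 i1.1 i2.1 i3.1 i4.1, int4 i1.2 i2.2 i3.2 i4.2]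
    have e : ∀ a1 a2 a3 a4 b1 b2 b3 b4 : ℂ, a1 - a2 - a3 + a4 - (b1 - b2 - b3 + b4)
        = (a1 - b1) - (a2 - b2) - (a3 - b3) + (a4 - b4) := by
      intros
      ring
    rw [e]
    refine (norm_add_le _ _).trans ((add_le_add ((norm_sub_le _ _).trans
      (add_le_add ((norm_sub_le _ _).trans (add_le_add g1 g2)) g3)) g4).trans (le_of_eq ?_))
    ring
  rw [← Complex.ofReal_sub, Complex.norm_real, Real.norm_eq_abs] at key
  have h2 := (abs_le.mp key).2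
  rw [← ofReal_integral_eq_lintegral_ofReal hiu (Eventually.of_forall fun t => hF0 (om t))]
  refine ENNReal.ofReal_le_ofReal (hle.trans (mul_le_mul_of_nonneg_left ?_ (by norm_num)))
  linarith

end

end LM

end Pool.Agent.Lib.GT
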