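import Mathlib
import Pool.Agent.Lib.MP_f9aece_nt_gt.Stmts

/-!
C11: comparison of two laws through the windows.
-/

set_option autoImplicit false

namespace Pool.Agent.Lib.GT

open MeasureTheory Set Filter Topology Complex ProbabilityTheory
open scoped ComplexConjugate

namespace C11

/-- `1 / (1 + r ^ 2)` -/
lemma cont_ca : Continuous fun r : ℝ => (1 + r ^ 2)⁻¹ :=
  Continuous.inv₀ (by fun_prop) fun r => by positivity

lemma exp_ca_int (κ a : ℝ) (hκ : 0 ≤ κ) :
    IntegrableOn (fun r : ℝ => Real.exp (κ * r) * (1 + r ^ 2)⁻¹) (Iio a) := by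
  have h1 : Integrable fun r : ℝ => Real.exp (κ * a) * (1 + r ^ 2)⁻¹ :=
    integrable_inv_one_add_sq.const_mul _
  refine h1.integrableOn.mono' ?_ ?_
  · exact (Continuous.mul (by fun_prop) cont_ca).aestronglyMeasurable
  · filter_upwards [ae_restrict_mem measurableSet_Iio] with r hr
    rw [Real.norm_eq_abs, abs_of_pos (by positivity)]
    refine mul_le_mul_of_nonneg_right ?_ (by positivity)
    exact Real.exp_le_exp.2 (mul_le_mul_of_nonneg_left (le_of_lt hr) hκ)

/-- the primitive of the envelope -/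
noncomputable def EE (κ a : ℝ) : ℝ := ∫ r in Iio a, Real.exp (κ * r) * (1 + r ^ 2)⁻¹

/-- the primitive of the window -/
noncomputable def Ph' (κ a : ℝ) : ℝ := ∫ r in Iio a, Real.exp (κ * r) * ‖psi r‖ ^ 2

lemma EE_nonneg (κ a : ℝ) : 0 ≤ EE κ a :=
  setIntegral_nonneg measurableSet_Iio fun r _ => by positivity

lemma EE_mono {κ a a' : ℝ} (hκ : 0 ≤ κ) (h : a ≤ a') : EE κ a ≤ EE κ a' :=
  setIntegral_mono_set (exp_ca_int κ a' hκ) (Eventually.of_forall fun r => by positivity)
    (Iio_subset_Iio h).eventuallyLE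

lemma EE_ge {κ a : ℝ} (hκ : 0 ≤ κ) (ha : 0 < a) : 1 / 2 ≤ EE κ (a + 1) := by
  have h1 : ∫ r in Ioo (0 : ℝ) 1, (1 / 2 : ℝ) ≤ ∫ r in Ioo (0 : ℝ) 1,
      Real.exp (κ * r) * (1 + r ^ 2)⁻¹ := by
    refine setIntegral_mono_on (by simp) ((exp_ca_int κ 1 hκ).mono_set fun r hr => hr.2)
      measurableSet_Ioo fun r hr => ?_
    have h2 : 1 ≤ Real.exp (κ * r) := Real.one_le_exp (mul_nonneg hκ hr.1.le)
    have h3 : (1 / 2 : ℝ) ≤ (1 + r ^ 2)⁻¹ := by
      rw [one_div]
      apply inv_anti₀ (by positivity)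
      nlinarith [hr.1, hr.2]
    calc (1 / 2 : ℝ) ≤ 1 * (1 + r ^ 2)⁻¹ := by rw [one_mul]; exact h3
      _ ≤ _ := mul_le_mul_of_nonneg_right h2 (by positivity)
  have h2 : ∫ r in Ioo (0 : ℝ) 1, (1 / 2 : ℝ) = 1 / 2 := by simp
  rw [h2] at h1
  refine h1.trans ?_
  exact setIntegral_mono_set (exp_ca_int κ (a + 1) hκ) (Eventually.of_forall fun r => by positivity)
    (LE.le.eventuallyLE fun r hr => by
      have := hr.2
      show r < a + 1
      linarith)

/-- The pointwise comparison. -/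
lemma pointwise {K : ℝ} (_hK : 0 ≤ K) (hψ : ∀ r : ℝ, ‖psi r‖ ≤ K / (1 + r ^ 2)) (hc : Continuous psi)
    (hc0 : 0 < c0) (hi : Integrable fun r => ‖psi r‖ ^ 2) {κ R : ℝ} (hκ : 0 < κ) (hR : 1 ≤ R)
    (hκR : κ * R ≤ 1) (a : ℝ) :
    |(if 0 < a then 1 else 0) - Ph' κ a / c0| ≤
      14 * K ^ 2 / c0 * (3 * (κ * R) + 1 / R) * EE κ (a + 1) +
        K ^ 2 * Real.pi / c0 * (Real.exp (κ * a) * (1 + a ^ 2)⁻¹) := by
  have hψ2 : ∀ r : ℝ, ‖psi r‖ ^ 2 ≤ K ^ 2 * (1 + r ^ 2)⁻¹ * (1 + r ^ 2)⁻¹ := by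
    intro r
    have h1 := pow_le_pow_left₀ (norm_nonneg _) (hψ r) 2
    refine h1.trans (le_of_eq ?_)
    field_simp
  have hca1 : ∀ r : ℝ, (1 + r ^ 2)⁻¹ ≤ 1 := fun r => inv_le_one_of_one_le₀ (by nlinarith [sq_nonneg r])
  have hψc : Continuous fun r => ‖psi r‖ ^ 2 := by fun_prop
  have hPi : IntegrableOn (fun r : ℝ => Real.exp (κ * r) * ‖psi r‖ ^ 2) (Iio a) := by
    refine ((exp_ca_int κ a hκ.le).const_mul (K ^ 2)).mono' ?_ ?_
    · exact (Continuous.mul (by fun_prop) hψc).aestronglyMeasurable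
    · refine Eventually.of_forall fun r => ?_
      rw [Real.norm_eq_abs, abs_of_nonneg (by positivity)]
      calc Real.exp (κ * r) * ‖psi r‖ ^ 2 ≤ Real.exp (κ * r) * (K ^ 2 * (1 + r ^ 2)⁻¹ * 1) := by
            refine mul_le_mul_of_nonneg_left ((hψ2 r).trans ?_) (by positivity)
            exact mul_le_mul_of_nonneg_left (hca1 r) (by positivity)
        _ = K ^ 2 * (Real.exp (κ * r) * (1 + r ^ 2)⁻¹) := by ring
  have hE := EE_nonneg κ (a + 1)
  by_cases ha : 0 < a
  · rw [if_pos ha]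
    -- splitting
    have e1 : 1 - Ph' κ a / c0 = ((∫ r in Ici a, ‖psi r‖ ^ 2) +
        ∫ r in Iio a, (1 - Real.exp (κ * r)) * ‖psi r‖ ^ 2) / c0 := by
      have e2 : c0 = (∫ r in Iio a, ‖psi r‖ ^ 2) + ∫ r in Ici a, ‖psi r‖ ^ 2 := by
        have h3 := integral_add_compl (s := Iio a) measurableSet_Iio hi
        rw [compl_Iio] at h3
        exact h3.symm
      have e3 : ∫ r in Iio a, (1 - Real.exp (κ * r)) * ‖psi r‖ ^ 2 =
          (∫ r in Iio a, ‖psi r‖ ^ 2) - Ph' κ a := by
        unfold Ph'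
        rw [← integral_sub hi.integrableOn hPi]
        refine integral_congr_ae (Eventually.of_forall fun r => ?_)
        simp only
        ring
      rw [e3, eq_div_iff hc0.ne', sub_mul, div_mul_cancel₀ _ hc0.ne', one_mul]
      linarith
    rw [e1, abs_div, abs_of_pos hc0]
    have b1 : |∫ r in Ici a, ‖psi r‖ ^ 2| ≤ K ^ 2 * Real.pi * (Real.exp (κ * a) * (1 + a ^ 2)⁻¹) := by
      rw [abs_of_nonneg (setIntegral_nonneg measurableSet_Ici fun r _ => by positivity)]
      have h1 : ∫ r in Ici a, ‖psi r‖ ^ 2 ≤ ∫ r in Ici a, K ^ 2 * (1 + a ^ 2)⁻¹ * (1 + r ^ 2)⁻¹ := by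
        refine setIntegral_mono_on hi.integrableOn
          (integrable_inv_one_add_sq.const_mul _).integrableOn measurableSet_Ici fun r hr => ?_
        refine (hψ2 r).trans ?_
        refine mul_le_mul_of_nonneg_right ?_ (by positivity)
        refine mul_le_mul_of_nonneg_left ?_ (by positivity)
        exact inv_anti₀ (by positivity) (by nlinarith [mem_Ici.1 hr])
      have h2 : ∫ r in Ici a, K ^ 2 * (1 + a ^ 2)⁻¹ * (1 + r ^ 2)⁻¹ ≤
          ∫ r, K ^ 2 * (1 + a ^ 2)⁻¹ * (1 + r ^ 2)⁻¹ :=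
        setIntegral_le_integral (integrable_inv_one_add_sq.const_mul _)
          (Eventually.of_forall fun r => by positivity)
      have e5 : ∫ r, K ^ 2 * (1 + a ^ 2)⁻¹ * (1 + r ^ 2)⁻¹ = K ^ 2 * (1 + a ^ 2)⁻¹ * Real.pi := by
        rw [integral_const_mul, integral_univ_inv_one_add_sq]
      rw [e5] at h2
      have h3 : 1 ≤ Real.exp (κ * a) := Real.one_le_exp (by positivity)
      have h4 : K ^ 2 * (1 + a ^ 2)⁻¹ * Real.pi ≤
          K ^ 2 * Real.pi * (Real.exp (κ * a) * (1 + a ^ 2)⁻¹) := by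
        have : 0 ≤ K ^ 2 * (1 + a ^ 2)⁻¹ * Real.pi := by positivity
        nlinarith
      linarith
    have b2 : |∫ r in Iio a, (1 - Real.exp (κ * r)) * ‖psi r‖ ^ 2| ≤
        14 * K ^ 2 * (3 * (κ * R) + 1 / R) * EE κ (a + 1) := by
      have hR0 : 0 < R := by linarith
      have hp : ∀ r : ℝ, |(1 - Real.exp (κ * r)) * ‖psi r‖ ^ 2| ≤
          K ^ 2 * (3 * (κ * R) + 1 / R) * (2 * (1 + r ^ 2)⁻¹ +
            Real.exp (κ * r) * (1 + r ^ 2)⁻¹) := by
        intro r
        rw [abs_mul, abs_of_nonneg (sq_nonneg ‖psi r‖)]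
        have h1 : |1 - Real.exp (κ * r)| * (1 + r ^ 2)⁻¹ ≤
            (3 * (κ * R) + 1 / R) * (2 + Real.exp (κ * r)) := by
          by_cases hr : |r| ≤ R
          · have h2 : |κ * r| ≤ 1 := by
              rw [abs_mul, abs_of_pos hκ]
              nlinarith
            have h3 := Real.abs_exp_sub_one_le h2
            rw [abs_sub_comm]
            have h4 : |κ * r| ≤ κ * R := by
              rw [abs_mul, abs_of_pos hκ]
              exact mul_le_mul_of_nonneg_left hr hκ.le
            calc |Real.exp (κ * r) - 1| * (1 + r ^ 2)⁻¹ ≤ 2 * |κ * r| * 1 :=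
                  mul_le_mul h3 (hca1 r) (by positivity) (by positivity)
              _ ≤ 3 * (κ * R) * 1 := by nlinarith [abs_nonneg (κ * r)]
              _ ≤ (3 * (κ * R) + 1 / R) * (2 + Real.exp (κ * r)) := by
                refine mul_le_mul ?_ ?_ (by norm_num) (by positivity)
                · have : 0 ≤ 1 / R := by positivity
                  linarith
                · linarith [Real.exp_pos (κ * r)]
          · push Not at hr
            have h2 : |1 - Real.exp (κ * r)| ≤ 1 + Real.exp (κ * r) := by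
              rw [abs_le]
              constructor <;> linarith [Real.exp_pos (κ * r)]
            have h3 : (1 + r ^ 2)⁻¹ ≤ 1 / R := by
              rw [one_div]
              refine inv_anti₀ hR0 ?_
              have := sq_abs r
              nlinarith
            calc |1 - Real.exp (κ * r)| * (1 + r ^ 2)⁻¹ ≤ (1 + Real.exp (κ * r)) * (1 / R) :=
                  mul_le_mul h2 h3 (by positivity) (by positivity)
              _ = 1 / R * (1 + Real.exp (κ * r)) := by ring
              _ ≤ (3 * (κ * R) + 1 / R) * (2 + Real.exp (κ * r)) := by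
                refine mul_le_mul ?_ (by linarith) (by positivity) (by positivity)
                have : 0 ≤ 3 * (κ * R) := by positivity
                linarith
        calc |1 - Real.exp (κ * r)| * ‖psi r‖ ^ 2
            ≤ |1 - Real.exp (κ * r)| * (K ^ 2 * (1 + r ^ 2)⁻¹ * (1 + r ^ 2)⁻¹) :=
              mul_le_mul_of_nonneg_left (hψ2 r) (abs_nonneg _)
          _ = K ^ 2 * (1 + r ^ 2)⁻¹ * (|1 - Real.exp (κ * r)| * (1 + r ^ 2)⁻¹) := by ring
          _ ≤ K ^ 2 * (1 + r ^ 2)⁻¹ * ((3 * (κ * R) + 1 / R) * (2 + Real.exp (κ * r))) :=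
              mul_le_mul_of_nonneg_left h1 (by positivity)
          _ = _ := by ring
      have hig : IntegrableOn (fun r : ℝ => K ^ 2 * (3 * (κ * R) + 1 / R) * (2 * (1 + r ^ 2)⁻¹ +
            Real.exp (κ * r) * (1 + r ^ 2)⁻¹)) (Iio a) :=
        ((integrable_inv_one_add_sq.const_mul 2).integrableOn.add (exp_ca_int κ a hκ.le)).const_mul _
      have h5 : |∫ r in Iio a, (1 - Real.exp (κ * r)) * ‖psi r‖ ^ 2| ≤
          ∫ r in Iio a, K ^ 2 * (3 * (κ * R) + 1 / R) * (2 * (1 + r ^ 2)⁻¹ +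
            Real.exp (κ * r) * (1 + r ^ 2)⁻¹) := by
        rw [← Real.norm_eq_abs]
        exact norm_integral_le_of_norm_le hig (Eventually.of_forall hp)
      refine h5.trans ?_
      rw [integral_const_mul, integral_add (integrable_inv_one_add_sq.const_mul 2).integrableOn
        (exp_ca_int κ a hκ.le), integral_const_mul]
      have h6 : ∫ r in Iio a, (1 + r ^ 2)⁻¹ ≤ Real.pi := by
        rw [← integral_univ_inv_one_add_sq]
        exact setIntegral_le_integral integrable_inv_one_add_sq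
          (Eventually.of_forall fun r => by positivity)
      have h7 := EE_mono hκ.le (show a ≤ a + 1 by linarith)
      have h8 := EE_ge hκ.le ha
      have h9 : 0 ≤ K ^ 2 * (3 * (κ * R) + 1 / R) := by positivity
      have hpi : Real.pi ≤ 3.15 := Real.pi_lt_d2.le
      have h10 : 2 * (∫ r in Iio a, (1 + r ^ 2)⁻¹) + EE κ a ≤ 14 * EE κ (a + 1) := by
        linarith
      calc K ^ 2 * (3 * (κ * R) + 1 / R) * (2 * (∫ r in Iio a, (1 + r ^ 2)⁻¹) + EE κ a)
          ≤ K ^ 2 * (3 * (κ * R) + 1 / R) * (14 * EE κ (a + 1)) :=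
            mul_le_mul_of_nonneg_left h10 h9
        _ = _ := by ring
    calc |(∫ r in Ici a, ‖psi r‖ ^ 2) + ∫ r in Iio a, (1 - Real.exp (κ * r)) * ‖psi r‖ ^ 2| / c0
        ≤ (K ^ 2 * Real.pi * (Real.exp (κ * a) * (1 + a ^ 2)⁻¹) +
          14 * K ^ 2 * (3 * (κ * R) + 1 / R) * EE κ (a + 1)) / c0 := by
          refine div_le_div_of_nonneg_right ((abs_add_le _ _).trans (add_le_add b1 b2)) hc0.le
      _ = _ := by ring
  · rw [if_neg ha, zero_sub, abs_neg, abs_of_nonneg (by
      refine div_nonneg (setIntegral_nonneg measurableSet_Iio fun r _ => by positivity) hc0.le)]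
    push Not at ha
    have h1 : Ph' κ a ≤ ∫ r in Iio a, K ^ 2 * (Real.exp (κ * a) * (1 + a ^ 2)⁻¹) * (1 + r ^ 2)⁻¹ := by
      refine setIntegral_mono_on hPi (integrable_inv_one_add_sq.const_mul _).integrableOn
        measurableSet_Iio fun r hr => ?_
      have hra : r < a := hr
      calc Real.exp (κ * r) * ‖psi r‖ ^ 2
          ≤ Real.exp (κ * a) * (K ^ 2 * (1 + a ^ 2)⁻¹ * (1 + r ^ 2)⁻¹) := by
            refine mul_le_mul (Real.exp_le_exp.2 (mul_le_mul_of_nonneg_left hra.le hκ.le)) ?_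
              (by positivity) (by positivity)
            refine (hψ2 r).trans ?_
            refine mul_le_mul_of_nonneg_right ?_ (by positivity)
            refine mul_le_mul_of_nonneg_left ?_ (by positivity)
            exact inv_anti₀ (by positivity) (by nlinarith)
        _ = _ := by ring
    have h2 : ∫ r in Iio a, K ^ 2 * (Real.exp (κ * a) * (1 + a ^ 2)⁻¹) * (1 + r ^ 2)⁻¹ ≤
        ∫ r, K ^ 2 * (Real.exp (κ * a) * (1 + a ^ 2)⁻¹) * (1 + r ^ 2)⁻¹ :=
      setIntegral_le_integral (integrable_inv_one_add_sq.const_mul _)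
        (Eventually.of_forall fun r => by positivity)
    have e5 : ∫ r, K ^ 2 * (Real.exp (κ * a) * (1 + a ^ 2)⁻¹) * (1 + r ^ 2)⁻¹ =
        K ^ 2 * (Real.exp (κ * a) * (1 + a ^ 2)⁻¹) * Real.pi := by
      rw [integral_const_mul, integral_univ_inv_one_add_sq]
    rw [e5] at h2
    have h3 : 0 ≤ 14 * K ^ 2 / c0 * (3 * (κ * R) + 1 / R) * EE κ (a + 1) := by positivity
    calc Ph' κ a / c0 ≤ K ^ 2 * (Real.exp (κ * a) * (1 + a ^ 2)⁻¹) * Real.pi / c0 :=
          div_le_div_of_nonneg_right (h1.trans h2) hc0.le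
      _ = K ^ 2 * Real.pi / c0 * (Real.exp (κ * a) * (1 + a ^ 2)⁻¹) := by ring
      _ ≤ _ := by linarith

/-- substitution in the window variable -/
lemma subst {b : ℝ} (hb : 0 < b) (F : ℝ → ℝ) (x U : ℝ) :
    ∫ y in Ioi U, F (b * (x - y)) = 1 / b * ∫ r in Iio (b * (x - U)), F r := by
  rw [← integral_indicator measurableSet_Ioi, ← integral_indicator measurableSet_Iio]
  have e1 : ∀ y : ℝ, (Ioi U).indicator (fun y => F (b * (x - y))) y =
      (Iio (b * (x - U))).indicator F (b * (x - y)) := by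
    intro y
    by_cases h : U < y
    · rw [indicator_of_mem (show y ∈ Ioi U from h), indicator_of_mem]
      show b * (x - y) < b * (x - U)
      exact mul_lt_mul_of_pos_left (by linarith) hb
    · rw [indicator_of_notMem (show y ∉ Ioi U from h), indicator_of_notMem]
      show ¬ b * (x - y) < b * (x - U)
      push Not at h ⊢
      exact mul_le_mul_of_nonneg_left (by linarith) hb.le
  simp_rw [e1]
  rw [integral_sub_left_eq_self (fun z => (Iio (b * (x - U))).indicator F (b * z)) volume x,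
    Measure.integral_comp_mul_left, abs_of_pos (inv_pos.2 hb), smul_eq_mul, one_div]

lemma int_HH {be b : ℝ} (hb : 0 < b) (x V : ℝ) :
    ∫ y in Ioi V, HH be b y x = Ph' (be / b) (b * (x - V)) / c0 := by
  have e1 : ∀ y : ℝ, HH be b y x =
      (fun r => b / c0 * (Real.exp (be / b * r) * ‖psi r‖ ^ 2)) (b * (x - y)) := by
    intro y
    unfold HH
    simp only
    rw [show be / b * (b * (x - y)) = be * (x - y) by field_simp]
  have h := subst hb (fun r => b / c0 * (Real.exp (be / b * r) * ‖psi r‖ ^ 2)) x V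
  rw [integral_congr_ae (Eventually.of_forall fun y => e1 y), h, integral_const_mul]
  unfold Ph'
  field_simp

lemma int_Env {be b : ℝ} (hb : 0 < b) (x V : ℝ) :
    ∫ y in Ioi (V - 1 / b), Env be b y x = EE (be / b) (b * (x - V) + 1) := by
  have e1 : ∀ y : ℝ, Env be b y x =
      (fun r => b * (Real.exp (be / b * r) * (1 + r ^ 2)⁻¹)) (b * (x - y)) := by
    intro y
    unfold Env
    simp only
    rw [show be / b * (b * (x - y)) = be * (x - y) by field_simp, div_eq_mul_inv]
  have h := subst hb (fun r => b * (Real.exp (be / b * r) * (1 + r ^ 2)⁻¹)) x (V - 1 / b)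
  rw [integral_congr_ae (Eventually.of_forall fun y => e1 y), h, integral_const_mul]
  unfold EE
  rw [show b * (x - (V - 1 / b)) = b * (x - V) + 1 by field_simp; ring]
  field_simp

/-- Fubini -/
lemma fub {ν : Measure ℝ} [IsFiniteMeasure ν] {f : ℝ → ℝ → ℝ}
    (hf : Continuous fun p : ℝ × ℝ => f p.2 p.1) (hf0 : ∀ y x, 0 ≤ f y x) {be V M : ℝ} (hbe : 0 < be)
    (h : ∀ y : ℝ, Integrable (f y) ν ∧ ∫ x, f y x ∂ν ≤ M * (be * Real.exp (-(be * (y - V))))) (U : ℝ) :
    Integrable (fun x => ∫ y in Ioi U, f y x) ν ∧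
      IntegrableOn (fun y => ∫ x, f y x ∂ν) (Ioi U) ∧
      (∫ x, (∫ y in Ioi U, f y x) ∂ν = ∫ y in Ioi U, (∫ x, f y x ∂ν)) ∧
      ∫ y in Ioi U, (∫ x, f y x ∂ν) ≤ M * Real.exp (-(be * (U - V))) := by
  have e0 : ∀ y : ℝ, M * (be * Real.exp (-(be * (y - V)))) =
      M * be * Real.exp (be * V) * Real.exp (-be * y) := by
    intro y
    rw [mul_assoc (M * be), ← Real.exp_add]
    rw [show be * V + -be * y = -(be * (y - V)) by ring]
    ring
  have hi : IntegrableOn (fun y => M * (be * Real.exp (-(be * (y - V))))) (Ioi U) := by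
    simp_rw [e0]
    exact (integrableOn_exp_mul_Ioi (by linarith) U).const_mul _
  have hval : ∫ y in Ioi U, M * (be * Real.exp (-(be * (y - V)))) =
      M * Real.exp (-(be * (U - V))) := by
    simp_rw [e0]
    rw [integral_const_mul, integral_exp_mul_Ioi (by linarith)]
    rw [show -(be * (U - V)) = be * V + -be * U by ring, Real.exp_add]
    field_simp
  have hm : AEStronglyMeasurable (fun p : ℝ × ℝ => f p.2 p.1) (ν.prod (volume.restrict (Ioi U))) :=
    hf.aestronglyMeasurable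
  have hp : Integrable (fun p : ℝ × ℝ => f p.2 p.1) (ν.prod (volume.restrict (Ioi U))) := by
    rw [integrable_prod_iff' hm]
    refine ⟨Eventually.of_forall fun y => (h y).1, ?_⟩
    refine Integrable.mono' hi ?_ ?_
    · have h1 : StronglyMeasurable fun p : ℝ × ℝ => ‖f p.2 p.1‖ := hf.norm.stronglyMeasurable
      exact h1.integral_prod_left'.aestronglyMeasurable
    · refine Eventually.of_forall fun y => ?_
      have e1 : ∫ x, ‖f y x‖ ∂ν = ∫ x, f y x ∂ν := integral_congr_ae
        (Eventually.of_forall fun x => by simp only [Real.norm_eq_abs, abs_of_nonneg (hf0 y x)])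
      simp only
      rw [e1, Real.norm_eq_abs, abs_of_nonneg (integral_nonneg fun x => hf0 y x)]
      exact (h y).2
  have hr : IntegrableOn (fun y => ∫ x, f y x ∂ν) (Ioi U) := hp.integral_prod_right
  refine ⟨hp.integral_prod_left, hr, integral_integral_swap hp, ?_⟩
  rw [← hval]
  exact setIntegral_mono_on hr hi measurableSet_Ioi fun y _ => (h y).2

end C11

open C11 in
/-- C11 -/
theorem compare (hpsi : PsiBd) : Compare := by
  obtain ⟨K, hK, hψ, hc, hc0, hi⟩ := hpsi
  set c₁ : ℝ := 14 * K ^ 2 / c0 with hc₁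
  set c₂ : ℝ := K ^ 2 * Real.pi / c0 with hc₂
  have hc₁0 : 0 ≤ c₁ := by positivity
  have hc₂0 : 0 ≤ c₂ := by positivity
  refine ⟨1 + 24 * c₁ + 2 * c₂, by linarith, ?_⟩
  intro be b G V ε r0 R ν ν' hbe hbb hb hε hr0 hR hG hκ hν hν' h1 h2 h3
  have hb0 : 0 < b := lt_of_lt_of_le hbe hbb
  set κ : ℝ := be / b with hκd
  have hκ0 : 0 < κ := div_pos hbe hb0
  have hκ1 : κ ≤ 1 := (div_le_one hb0).2 hbb
  have hκR : κ * R ≤ 1 := by nlinarith
  have hEc : Continuous fun p : ℝ × ℝ => Env be b p.2 p.1 := by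
    unfold Env
    refine Continuous.mul continuous_const (Continuous.div (by fun_prop) (by fun_prop) ?_)
    intro p
    positivity
  have hE0 : ∀ y x, 0 ≤ Env be b y x := fun y x => by unfold Env; positivity
  have hHc : Continuous fun p : ℝ × ℝ => HH be b p.2 p.1 := by
    unfold HH
    fun_prop
  have hH0 : ∀ y x, 0 ≤ HH be b y x := fun y x => by unfold HH; positivity
  have hHE : ∀ y x, HH be b y x ≤ K ^ 2 / c0 * Env be b y x := by
    intro y x
    unfold HH Env
    have h4 := pow_le_pow_left₀ (norm_nonneg _) (hψ (b * (x - y))) 2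
    have h5 : (K / (1 + (b * (x - y)) ^ 2)) ^ 2 ≤ K ^ 2 / (1 + (b * (x - y)) ^ 2) := by
      rw [div_pow]
      refine div_le_div_of_nonneg_left (by positivity) (by positivity) ?_
      nlinarith [sq_nonneg (b * (x - y)), sq_nonneg ((b * (x - y)) ^ 2)]
    calc b / c0 * (Real.exp (be * (x - y)) * ‖psi (b * (x - y))‖ ^ 2)
        ≤ b / c0 * (Real.exp (be * (x - y)) * (K ^ 2 / (1 + (b * (x - y)) ^ 2))) := by
          gcongr
          exact h4.trans h5
      _ = _ := by ring
  -- one measure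
  have key : ∀ (ρ : Measure ℝ), IsFiniteMeasure ρ →
      (∀ y : ℝ, Integrable (Env be b y) ρ ∧
        ∫ x, Env be b y x ∂ρ ≤ G * (be * Real.exp (-(be * (y - V))))) →
      (IntegrableOn (fun y => ∫ x, HH be b y x ∂ρ) (Ioi V)) ∧
      |(ρ (Ioi V)).toReal - ∫ y in Ioi V, (∫ x, HH be b y x ∂ρ)| ≤
        (c₁ * (3 * (κ * R) + 1 / R) * 3 + c₂ * κ) * G := by
    intro ρ hρ h
    have hHi : ∀ y : ℝ, Integrable (HH be b y) ρ ∧ ∫ x, HH be b y x ∂ρ ≤
        (K ^ 2 / c0 * G) * (be * Real.exp (-(be * (y - V)))) := by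
      intro y
      have i1 : Integrable (HH be b y) ρ := by
        refine ((h y).1.const_mul (K ^ 2 / c0)).mono' ?_ ?_
        · exact (hHc.comp (Continuous.prodMk_left y)).aestronglyMeasurable
        · refine Eventually.of_forall fun x => ?_
          rw [Real.norm_eq_abs, abs_of_nonneg (hH0 y x)]
          exact hHE y x
      refine ⟨i1, ?_⟩
      calc ∫ x, HH be b y x ∂ρ ≤ ∫ x, K ^ 2 / c0 * Env be b y x ∂ρ :=
            integral_mono i1 ((h y).1.const_mul _) fun x => hHE y x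
        _ = K ^ 2 / c0 * ∫ x, Env be b y x ∂ρ := integral_const_mul _ _
        _ ≤ K ^ 2 / c0 * (G * (be * Real.exp (-(be * (y - V))))) :=
            mul_le_mul_of_nonneg_left (h y).2 (by positivity)
        _ = _ := by ring
    obtain ⟨a1, a2, a3, -⟩ := fub hHc hH0 hbe hHi V
    obtain ⟨b1, -, b3, b4⟩ := fub hEc hE0 hbe h (V - 1 / b)
    refine ⟨a2, ?_⟩
    rw [← a3]
    have e1 : (ρ (Ioi V)).toReal = ∫ x, (Ioi V).indicator (fun _ => (1 : ℝ)) x ∂ρ := by
      rw [integral_indicator measurableSet_Ioi]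
      simp [Measure.real]
    rw [e1, ← integral_sub ((integrable_const 1).indicator measurableSet_Ioi) a1,
      ← Real.norm_eq_abs]
    have hp : ∀ x : ℝ, ‖(Ioi V).indicator (fun _ => (1 : ℝ)) x - ∫ y in Ioi V, HH be b y x‖ ≤
        c₁ * (3 * (κ * R) + 1 / R) * (∫ y in Ioi (V - 1 / b), Env be b y x) +
          c₂ * (Env be b V x / b) := by
      intro x
      rw [Real.norm_eq_abs, int_HH hb0, int_Env hb0]
      have h4 := pointwise hK hψ hc hc0 hi hκ0 hR hκR (b * (x - V))
      have e2 : (if 0 < b * (x - V) then (1 : ℝ) else 0) = (Ioi V).indicator (fun _ => (1 : ℝ)) x := by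
        by_cases hx : V < x
        · rw [indicator_of_mem (show x ∈ Ioi V from hx), if_pos (mul_pos hb0 (by linarith))]
        · rw [indicator_of_notMem (show x ∉ Ioi V from hx), if_neg]
          push Not at hx ⊢
          exact mul_nonpos_of_nonneg_of_nonpos hb0.le (by linarith)
      have e3 : Env be b V x / b = Real.exp (κ * (b * (x - V))) * (1 + (b * (x - V)) ^ 2)⁻¹ := by
        unfold Env
        rw [show κ * (b * (x - V)) = be * (x - V) by rw [hκd]; field_simp, div_eq_mul_inv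
          (Real.exp _)]
        field_simp
      rw [e2] at h4
      rw [e3]
      exact h4
    have i2 : Integrable (fun x => c₁ * (3 * (κ * R) + 1 / R) * (∫ y in Ioi (V - 1 / b), Env be b y x) +
          c₂ * (Env be b V x / b)) ρ :=
      (b1.const_mul _).add (((h V).1.div_const b).const_mul _)
    refine (norm_integral_le_of_norm_le i2 (Eventually.of_forall hp)).trans ?_
    rw [integral_add (b1.const_mul _) (((h V).1.div_const b).const_mul _), integral_const_mul,
      integral_const_mul, integral_div, b3]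
    have h5 : Real.exp (-(be * (V - 1 / b - V))) ≤ 3 := by
      have : -(be * (V - 1 / b - V)) ≤ 1 := by
        have e4 : -(be * (V - 1 / b - V)) = κ := by rw [hκd]; field_simp; ring
        rw [e4]; exact hκ1
      calc Real.exp (-(be * (V - 1 / b - V))) ≤ Real.exp 1 := Real.exp_le_exp.2 this
        _ ≤ 3 := by
          have := Real.exp_one_lt_d9
          linarith
    have h6 : ∫ y in Ioi (V - 1 / b), (∫ x, Env be b y x ∂ρ) ≤ G * 3 :=
      b4.trans (mul_le_mul_of_nonneg_left h5 hG)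
    have h7 : (∫ x, Env be b V x ∂ρ) / b ≤ κ * G := by
      rw [div_le_iff₀ hb0]
      have h8 := (h V).2
      rw [sub_self, mul_zero, neg_zero, Real.exp_zero, mul_one] at h8
      rw [hκd]
      calc ∫ x, Env be b V x ∂ρ ≤ G * be := h8
        _ = be / b * G * b := by field_simp
    have h9 : 0 ≤ c₁ * (3 * (κ * R) + 1 / R) := by positivity
    calc c₁ * (3 * (κ * R) + 1 / R) * (∫ y in Ioi (V - 1 / b), (∫ x, Env be b y x ∂ρ)) +
          c₂ * ((∫ x, Env be b V x ∂ρ) / b)
        ≤ c₁ * (3 * (κ * R) + 1 / R) * (G * 3) + c₂ * (κ * G) :=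
          add_le_add (mul_le_mul_of_nonneg_left h6 h9) (mul_le_mul_of_nonneg_left h7 hc₂0)
      _ = _ := by ring
  obtain ⟨i1, k1⟩ := key ν hν h1
  obtain ⟨i2, k2⟩ := key ν' hν' h2
  have h4 : |(∫ y in Ioi V, (∫ x, HH be b y x ∂ν)) - ∫ y in Ioi V, (∫ x, HH be b y x ∂ν')| ≤
      ε * G := by
    rw [← integral_sub i1 i2, ← Real.norm_eq_abs]
    have e0 : ∀ y : ℝ, ε * (G * (be * Real.exp (-(be * (y - V))))) =
        ε * G * be * Real.exp (be * V) * Real.exp (-be * y) := by
      intro y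
      rw [mul_assoc (ε * G * be), ← Real.exp_add]
      rw [show be * V + -be * y = -(be * (y - V)) by ring]
      ring
    have hi : IntegrableOn (fun y => ε * (G * (be * Real.exp (-(be * (y - V)))))) (Ioi V) := by
      simp_rw [e0]
      exact (integrableOn_exp_mul_Ioi (by linarith) V).const_mul _
    have hval : ∫ y in Ioi V, ε * (G * (be * Real.exp (-(be * (y - V))))) = ε * G := by
      simp_rw [e0]
      rw [integral_const_mul, integral_exp_mul_Ioi (by linarith)]
      rw [mul_div_assoc', mul_neg, mul_assoc (ε * G * be), ← Real.exp_add,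
        show be * V + -be * V = 0 by ring, Real.exp_zero]
      field_simp
    rw [← hval]
    exact norm_integral_le_of_norm_le hi (Eventually.of_forall fun y => by
      rw [Real.norm_eq_abs]; exact h3 y)
  have h5 : |(ν (Ioi V)).toReal - (ν' (Ioi V)).toReal| ≤
      (c₁ * (3 * (κ * R) + 1 / R) * 3 + c₂ * κ) * G + ε * G +
        (c₁ * (3 * (κ * R) + 1 / R) * 3 + c₂ * κ) * G := by
    have e1 : (ν (Ioi V)).toReal - (ν' (Ioi V)).toReal =
        ((ν (Ioi V)).toReal - ∫ y in Ioi V, (∫ x, HH be b y x ∂ν)) +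
        ((∫ y in Ioi V, (∫ x, HH be b y x ∂ν)) - ∫ y in Ioi V, (∫ x, HH be b y x ∂ν')) -
        ((ν' (Ioi V)).toReal - ∫ y in Ioi V, (∫ x, HH be b y x ∂ν')) := by ring
    rw [e1]
    exact (abs_sub _ _).trans (add_le_add ((abs_add_le _ _).trans (add_le_add k1 h4)) k2)
  refine h5.trans ?_
  have hR1 : 0 ≤ 1 / R := by positivity
  have hr1 : 0 ≤ 1 / r0 := by positivity
  have h6 : κ * R ≤ κ * (r0 + R) := mul_le_mul_of_nonneg_left (by linarith) hκ0.le
  have h7 : κ ≤ κ * (r0 + R) := by nlinarith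
  have h8 : 2 * (c₁ * (3 * (κ * R) + 1 / R) * 3 + c₂ * κ) + ε ≤
      (1 + 24 * c₁ + 2 * c₂) * (ε + 1 / r0 + 1 / R + κ * (r0 + R)) := by
    have i3 : c₁ * (κ * R) ≤ c₁ * (κ * (r0 + R)) := mul_le_mul_of_nonneg_left h6 hc₁0
    have i4 : c₂ * κ ≤ c₂ * (κ * (r0 + R)) := mul_le_mul_of_nonneg_left h7 hc₂0
    have i5 : 0 ≤ c₁ * (1 / R) := by positivity
    have i6 : 0 ≤ c₁ * (κ * (r0 + R)) := by positivity
    have i7 : 0 ≤ c₁ * ε := by positivity
    have i8 : 0 ≤ c₂ * ε := by positivity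
    have i9 : 0 ≤ c₁ * (1 / r0) := by positivity
    have i10 : 0 ≤ c₂ * (1 / r0) := by positivity
    have i11 : 0 ≤ c₂ * (1 / R) := by positivity
    have i12 : 0 ≤ κ * (r0 + R) := by positivity
    nlinarith
  calc (c₁ * (3 * (κ * R) + 1 / R) * 3 + c₂ * κ) * G + ε * G +
        (c₁ * (3 * (κ * R) + 1 / R) * 3 + c₂ * κ) * G
      = (2 * (c₁ * (3 * (κ * R) + 1 / R) * 3 + c₂ * κ) + ε) * G := by ring
    _ ≤ _ := mul_le_mul_of_nonneg_right h8 hG

end Pool.Agent.Lib.GT
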