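import Mathlib
import Pool.Agent.Lib.MP_f9aece_nt_gt.Stmts

/-!
C2: `WinDecay`: two integrations by parts with `phi * E`.
-/

set_option autoImplicit false

namespace Pool.Agent.Lib.GT

open MeasureTheory Set Filter Topology Complex
open scoped ComplexConjugate

/-- first derivative of the window -/
noncomputable def phi1 (η : ℝ) : ℝ := -16 * η + 64 * η ^ 3

/-- second derivative of the window -/
noncomputable def phi2 (η : ℝ) : ℝ := -16 + 192 * η ^ 2

theorem hasDerivAt_phi (η : ℝ) : HasDerivAt phi (phi1 η) η := by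
  unfold phi phi1
  have h1 : HasDerivAt (fun η : ℝ => 1 - 4 * η ^ 2) (-(8 * η)) η :=
    (((hasDerivAt_pow 2 η).const_mul (4 : ℝ)).const_sub 1).congr_deriv (by norm_num; ring)
  exact (h1.fun_pow 2).congr_deriv (by norm_num; ring)

theorem hasDerivAt_phi1 (η : ℝ) : HasDerivAt phi1 (phi2 η) η := by
  unfold phi1 phi2
  have h1 : HasDerivAt (fun η : ℝ => -16 * η) (-16) η :=
    ((hasDerivAt_id' η).const_mul (-16 : ℝ)).congr_deriv (by norm_num)
  have h2 : HasDerivAt (fun η : ℝ => 64 * η ^ 3) (192 * η ^ 2) η :=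
    ((hasDerivAt_pow 3 η).const_mul (64 : ℝ)).congr_deriv (by norm_num; ring)
  exact h1.add h2

theorem phi_end : phi (1 / 2) = 0 ∧ phi (-(1 / 2)) = 0 ∧ phi1 (1 / 2) = 0 ∧ phi1 (-(1 / 2)) = 0 := by
  unfold phi phi1
  norm_num

theorem phi_bd {η : ℝ} (h : |η| ≤ 1 / 2) : |phi η| ≤ 1 ∧ |phi1 η| ≤ 8 ∧ |phi2 η| ≤ 32 := by
  have h2 : η ^ 2 ≤ 1 / 4 := by
    rw [← sq_abs]
    nlinarith [abs_nonneg η]
  have h0 : 0 ≤ η ^ 2 := sq_nonneg η
  obtain ⟨h3, h4⟩ := abs_le.1 h
  refine ⟨?_, ?_, ?_⟩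
  · unfold phi
    rw [abs_of_nonneg (sq_nonneg _)]
    nlinarith
  · unfold phi1
    rw [show -16 * η + 64 * η ^ 3 = η * (-16 + 64 * η ^ 2) by ring, abs_mul]
    have h5 : |-16 + 64 * η ^ 2| ≤ 16 := by rw [abs_le]; constructor <;> linarith
    calc |η| * |-16 + 64 * η ^ 2| ≤ 1 / 2 * 16 := mul_le_mul h h5 (abs_nonneg _) (by norm_num)
      _ = 8 := by norm_num
  · unfold phi2
    rw [abs_le]
    constructor <;> linarith

theorem winDecay : WinDecay := by
  refine ⟨50, by norm_num, ?_⟩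
  intro E E' E'' ε hε hE hE' hc hb r
  -- the integrand and its derivatives
  set f : ℝ → ℂ := fun η => (phi η : ℂ) * E η with hf
  set f1 : ℝ → ℂ := fun η => (phi1 η : ℂ) * E η + (phi η : ℂ) * E' η with hf1
  set f2 : ℝ → ℂ := fun η => (phi2 η : ℂ) * E η + 2 * ((phi1 η : ℂ) * E' η) + (phi η : ℂ) * E'' η
    with hf2
  set w : ℝ → ℂ := fun η => cexp (I * η * r) with hw
  have dphi : ∀ η : ℝ, HasDerivAt (fun η => (phi η : ℂ)) (phi1 η : ℂ) η := fun η =>
    (hasDerivAt_phi η).ofReal_comp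
  have dphi1 : ∀ η : ℝ, HasDerivAt (fun η => (phi1 η : ℂ)) (phi2 η : ℂ) η := fun η =>
    (hasDerivAt_phi1 η).ofReal_comp
  have df : ∀ η, HasDerivAt f (f1 η) η := fun η => by
    have := (dphi η).mul (hE η)
    exact this
  have df1 : ∀ η, HasDerivAt f1 (f2 η) η := fun η => by
    exact (((dphi1 η).mul (hE η)).add ((dphi η).mul (hE' η))).congr_deriv
      (by simp only [hf2]; ring)
  have dw : ∀ η : ℝ, HasDerivAt w (I * r * w η) η := fun η => by
    have h1 : HasDerivAt (fun η : ℝ => I * (η : ℂ) * r) (I * r) η :=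
      (((hasDerivAt_id' η).ofReal_comp.const_mul I).mul_const (r : ℂ)).congr_deriv (by simp)
    exact h1.cexp.congr_deriv (by simp only [hw]; ring)
  set g : ℝ → ℂ := fun η => f1 η * w η - (I * r) * (f η * w η) with hg
  have dg : ∀ η, HasDerivAt g (f2 η * w η + (r : ℂ) ^ 2 * (f η * w η)) η := fun η => by
    have hI : I ^ 2 = -1 := I_sq
    exact (((df1 η).mul (dw η)).sub (((df η).mul (dw η)).const_mul (I * r))).congr_deriv
      (by linear_combination (-(r : ℂ) ^ 2 * f η * w η) * hI)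
  have cE : Continuous E := continuous_iff_continuousAt.2 fun η => (hE η).continuousAt
  have cE' : Continuous E' := continuous_iff_continuousAt.2 fun η => (hE' η).continuousAt
  have cphi : Continuous fun η : ℝ => (phi η : ℂ) :=
    continuous_iff_continuousAt.2 fun η => (dphi η).continuousAt
  have cphi1 : Continuous fun η : ℝ => (phi1 η : ℂ) :=
    continuous_iff_continuousAt.2 fun η => (dphi1 η).continuousAt
  have cphi2 : Continuous fun η : ℝ => (phi2 η : ℂ) := by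
    unfold phi2
    fun_prop
  have cw : Continuous w := continuous_iff_continuousAt.2 fun η => (dw η).continuousAt
  have cf : Continuous f := cphi.mul cE
  have cf2 : Continuous f2 := ((cphi2.mul cE).add (continuous_const.mul (cphi1.mul cE'))).add
    (cphi.mul hc)
  have nw : ∀ η : ℝ, ‖w η‖ = 1 := fun η => by
    simp only [hw]
    rw [show I * (η : ℂ) * r = ((η * r : ℝ) : ℂ) * I by push_cast; ring, norm_exp_ofReal_mul_I]
  -- the integral of the derivative vanishes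
  have hab : (-(1 / 2) : ℝ) ≤ 1 / 2 := by norm_num
  have h0 : ∫ η in (-(1 / 2) : ℝ)..(1 / 2), (f2 η * w η + (r : ℂ) ^ 2 * (f η * w η)) = 0 := by
    rw [intervalIntegral.integral_eq_sub_of_hasDerivAt (fun η _ => dg η)
      ((cf2.mul cw).add (continuous_const.mul (cf.mul cw))).continuousOn.intervalIntegrable]
    obtain ⟨e1, e2, e3, e4⟩ := phi_end
    simp only [hg, hf, hf1, e1, e2, e3, e4]
    simp
  have i1 : IntervalIntegrable (fun η => f2 η * w η) volume (-(1 / 2) : ℝ) (1 / 2) :=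
    (cf2.mul cw).intervalIntegrable _ _
  have i2 : IntervalIntegrable (fun η => f η * w η) volume (-(1 / 2) : ℝ) (1 / 2) :=
    (cf.mul cw).intervalIntegrable _ _
  rw [intervalIntegral.integral_add i1 (i2.const_mul _), intervalIntegral.integral_const_mul] at h0
  -- the bounds
  have bf : ∀ η ∈ Set.uIoc (-(1 / 2) : ℝ) (1 / 2), ‖f η * w η‖ ≤ ε := fun η hη => by
    rw [uIoc_of_le hab] at hη
    have hη' : |η| ≤ 1 / 2 := abs_le.2 ⟨hη.1.le, hη.2⟩
    rw [norm_mul, nw, mul_one]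
    simp only [hf]
    rw [norm_mul, norm_real, Real.norm_eq_abs]
    calc |phi η| * ‖E η‖ ≤ 1 * ε := mul_le_mul (phi_bd hη').1 (hb η hη').1 (norm_nonneg _)
          (by norm_num)
      _ = ε := one_mul _
  have bf2 : ∀ η ∈ Set.uIoc (-(1 / 2) : ℝ) (1 / 2), ‖f2 η * w η‖ ≤ 49 * ε := fun η hη => by
    rw [uIoc_of_le hab] at hη
    have hη' : |η| ≤ 1 / 2 := abs_le.2 ⟨hη.1.le, hη.2⟩
    obtain ⟨p0, p1, p2⟩ := phi_bd hη'
    obtain ⟨q0, q1, q2⟩ := hb η hη'
    rw [norm_mul, nw, mul_one]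
    simp only [hf2]
    have t1 : ‖(phi2 η : ℂ) * E η‖ ≤ 32 * ε := by
      rw [norm_mul, norm_real, Real.norm_eq_abs]
      exact mul_le_mul p2 q0 (norm_nonneg _) (by norm_num)
    have t2 : ‖2 * ((phi1 η : ℂ) * E' η)‖ ≤ 2 * (8 * ε) := by
      rw [norm_mul, norm_mul, norm_real, Real.norm_eq_abs]
      refine mul_le_mul (by simp) (mul_le_mul p1 q1 (norm_nonneg _) (by norm_num))
        (by positivity) (by norm_num)
    have t3 : ‖(phi η : ℂ) * E'' η‖ ≤ 1 * ε := by
      rw [norm_mul, norm_real, Real.norm_eq_abs]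
      exact mul_le_mul p0 q2 (norm_nonneg _) (by norm_num)
    calc _ ≤ ‖(phi2 η : ℂ) * E η‖ + ‖2 * ((phi1 η : ℂ) * E' η)‖ + ‖(phi η : ℂ) * E'' η‖ :=
          norm_add₃_le
      _ ≤ 32 * ε + 2 * (8 * ε) + 1 * ε := by linarith
      _ = 49 * ε := by ring
  have hlen : |(1 / 2 : ℝ) - -(1 / 2)| = 1 := by norm_num
  have n1 := intervalIntegral.norm_integral_le_of_norm_le_const bf
  have n2 := intervalIntegral.norm_integral_le_of_norm_le_const bf2
  rw [hlen, mul_one] at n1 n2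
  -- the result
  have hint : ∫ η, (phi η : ℂ) * (E η * cexp (I * η * r)) ∂me =
      ∫ η in (-(1 / 2) : ℝ)..(1 / 2), f η * w η := by
    unfold me
    rw [intervalIntegral.integral_of_le hab, integral_Icc_eq_integral_Ioc]
    refine integral_congr_ae (Eventually.of_forall fun η => ?_)
    simp only [hf, hw]
    ring
  rw [hint]
  have h1 : (r : ℂ) ^ 2 * ∫ η in (-(1 / 2) : ℝ)..(1 / 2), f η * w η =
      -∫ η in (-(1 / 2) : ℝ)..(1 / 2), f2 η * w η := by
    linear_combination h0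
  have h2 : r ^ 2 * ‖∫ η in (-(1 / 2) : ℝ)..(1 / 2), f η * w η‖ ≤ 49 * ε := by
    have h3 := congrArg norm h1
    rw [norm_mul, norm_neg, norm_pow, norm_real, Real.norm_eq_abs, sq_abs] at h3
    rw [h3]
    exact n2
  rw [le_div_iff₀ (by positivity)]
  calc ‖∫ η in (-(1 / 2) : ℝ)..(1 / 2), f η * w η‖ * (1 + r ^ 2)
      = ‖∫ η in (-(1 / 2) : ℝ)..(1 / 2), f η * w η‖ +
        r ^ 2 * ‖∫ η in (-(1 / 2) : ℝ)..(1 / 2), f η * w η‖ := by ring
    _ ≤ ε + 49 * ε := add_le_add n1 h2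
    _ = 50 * ε := by ring

end Pool.Agent.Lib.GT
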