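import Mathlib
import Pool.Agent.Lib.MP_f9aece_nt_gt.Stmts

/-!
Gaussian tails of `log |zeta|` on the critical line, module C3: the weights as double integrals.
-/

set_option autoImplicit false

namespace Pool.Agent.Lib.GT

open MeasureTheory Set Filter Topology Complex ProbabilityTheory
open scoped ComplexConjugate

/-- C3 -/
theorem wForm : WForm := by
  intro A s y x μ1 μ2 hs
  set Q : ℝ → ℂ := fun η => (phi η : ℂ) * (cexp (-(A.zz η * y)) *
    ∏ g ∈ Finset.range A.J \ s, tex (KK (A.r g)) (A.zz η * ((A.P g x).re : ℂ))) with hQ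
  set Kc : ℂ := A.mo μ1 s x * conj (A.mo μ2 s x) * ∏ g ∈ s, (A.bb g x : ℂ) with hKc
  have hprod : ∀ w : ℝ × ℝ, ∏ g ∈ Finset.range A.J, ((if g ∈ s then 1 else
            GF (A.r g) (A.S g) A.h (A.zz w.1) (A.zz w.2) μ1 μ2 x)
          * (if g ∈ s then (A.bb g x : ℂ) else 1)) =
      (∏ g ∈ Finset.range A.J \ s, tex (KK (A.r g)) (A.zz w.1 * ((A.P g x).re : ℂ))) *
      conj (∏ g ∈ Finset.range A.J \ s, tex (KK (A.r g)) (A.zz w.2 * ((A.P g x).re : ℂ))) * Kc := by
    intro w
    rw [← Finset.prod_sdiff hs]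
    have e1 : ∏ g ∈ Finset.range A.J \ s, ((if g ∈ s then 1 else
            GF (A.r g) (A.S g) A.h (A.zz w.1) (A.zz w.2) μ1 μ2 x)
          * (if g ∈ s then (A.bb g x : ℂ) else 1)) =
        ∏ g ∈ Finset.range A.J \ s, GF (A.r g) (A.S g) A.h (A.zz w.1) (A.zz w.2) μ1 μ2 x := by
      refine Finset.prod_congr rfl fun g hg => ?_
      have := (Finset.mem_sdiff.mp hg).2
      rw [if_neg this, if_neg this, mul_one]
    have e2 : ∏ g ∈ s, ((if g ∈ s then 1 else
            GF (A.r g) (A.S g) A.h (A.zz w.1) (A.zz w.2) μ1 μ2 x)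
          * (if g ∈ s then (A.bb g x : ℂ) else 1)) = ∏ g ∈ s, (A.bb g x : ℂ) := by
      refine Finset.prod_congr rfl fun g hg => ?_
      rw [if_pos hg, if_pos hg, one_mul]
    rw [e1, e2]
    unfold GF
    simp only [Finset.prod_mul_distrib, map_prod, hKc, Par.mo, Par.P]
    ring
  have hint : ∀ w : ℝ × ℝ, ((phi w.1 * phi w.2 : ℝ) : ℂ)
      * (cexp (-((A.zz w.1 + conj (A.zz w.2)) * y))
        * ∏ g ∈ Finset.range A.J, ((if g ∈ s then 1 else
            GF (A.r g) (A.S g) A.h (A.zz w.1) (A.zz w.2) μ1 μ2 x)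
          * (if g ∈ s then (A.bb g x : ℂ) else 1))) = Q w.1 * conj (Q w.2) * Kc := by
    intro w
    rw [hprod w]
    have e3 : cexp (-((A.zz w.1 + conj (A.zz w.2)) * y)) =
        cexp (-(A.zz w.1 * y)) * conj (cexp (-(A.zz w.2 * y))) := by
      rw [← Complex.exp_conj, ← Complex.exp_add]
      congr 1
      rw [map_neg, map_mul, Complex.conj_ofReal]
      ring
    rw [e3, hQ]
    simp only [map_mul, Complex.conj_ofReal]
    push_cast
    ring
  have hi : ∫ w : ℝ × ℝ, ((phi w.1 * phi w.2 : ℝ) : ℂ)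
      * (cexp (-((A.zz w.1 + conj (A.zz w.2)) * y))
        * ∏ g ∈ Finset.range A.J, ((if g ∈ s then 1 else
            GF (A.r g) (A.S g) A.h (A.zz w.1) (A.zz w.2) μ1 μ2 x)
          * (if g ∈ s then (A.bb g x : ℂ) else 1))) ∂(me.prod me)
      = A.q s y x * conj (A.q s y x) * Kc := by
    simp_rw [hint]
    rw [integral_mul_const]
    congr 1
    rw [integral_prod_mul (f := Q) (g := fun η => conj (Q η)), integral_conj]
    rfl
  rw [hi]
  unfold Par.W
  rw [Complex.mul_conj, Complex.normSq_eq_norm_sq, hKc]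
  push_cast
  ring

end Pool.Agent.Lib.GT
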