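import Mathlib
import Pool.Agent.Lib.MP_f9aece_nt_gt.Stmts

/-!
C5: transfer of the weights along the flow.
-/

set_option autoImplicit false

namespace Pool.Agent.Lib.GT

open MeasureTheory Set Filter Topology Complex ProbabilityTheory
open scoped ComplexConjugate

namespace C5

/-- the integrand of the weights -/
noncomputable def Gw (A : Par) (s : Finset ℕ) (μ1 μ2 : ℂ) (w : ℝ × ℝ) (x : Om) : ℂ :=
  ∏ g ∈ Finset.range A.J, ((if g ∈ s then 1 else
            GF (A.r g) (A.S g) A.h (A.zz w.1) (A.zz w.2) μ1 μ2 x)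
          * (if g ∈ s then (A.bb g x : ℂ) else 1))

/-- the kernel -/
noncomputable def Kw (A : Par) (y : ℝ) (w : ℝ × ℝ) : ℂ :=
  ((phi w.1 * phi w.2 : ℝ) : ℂ) * cexp (-((A.zz w.1 + conj (A.zz w.2)) * y))

lemma continuous_tex (K : ℕ) : Continuous (tex K) := by
  unfold tex
  refine continuous_finsetSum _ fun k _ => ?_
  exact (continuous_id.pow k).div_const _

lemma continuous_lin (S : Finset ℕ) (c : ℕ → ℂ) : Continuous (lin S c) := by
  unfold lin
  refine continuous_finsetSum _ fun p _ => ?_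
  exact continuous_const.mul (continuous_e1.comp (continuous_apply p))

lemma continuous_zz (A : Par) : Continuous A.zz := by
  unfold Par.zz
  fun_prop

lemma continuous_phi : Continuous phi := by
  unfold phi
  fun_prop

lemma continuous_Gw (A : Par) (s : Finset ℕ) (μ1 μ2 : ℂ) :
    Continuous fun p : (ℝ × ℝ) × Om => Gw A s μ1 μ2 p.1 p.2 := by
  unfold Gw
  refine continuous_finsetProd _ fun g _ => ?_
  by_cases hg : g ∈ s
  · simp only [hg, if_true, one_mul]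
    refine Complex.continuous_ofReal.comp ?_
    unfold Par.bb bp
    exact ((((continuous_lin _ _).comp continuous_snd).norm).div_const _).pow _
  · simp only [hg, if_false, mul_one]
    unfold GF
    have h0 : Continuous fun p : (ℝ × ℝ) × Om => lin (A.S g) (fun p => (A.h p : ℂ)) p.2 :=
      (continuous_lin _ _).comp continuous_snd
    have h1 : Continuous fun p : (ℝ × ℝ) × Om => A.zz p.1.1 :=
      (continuous_zz A).comp (continuous_fst.comp continuous_fst)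
    have h2 : Continuous fun p : (ℝ × ℝ) × Om => A.zz p.1.2 :=
      (continuous_zz A).comp (continuous_snd.comp continuous_fst)
    have h3 : Continuous fun p : (ℝ × ℝ) × Om =>
        ((lin (A.S g) (fun p => (A.h p : ℂ)) p.2).re : ℂ) :=
      Complex.continuous_ofReal.comp (Complex.continuous_re.comp h0)
    have c1 := (continuous_tex (KK (A.r g))).comp (h1.mul h3)
    have c2 := Complex.continuous_conj.comp ((continuous_tex (KK (A.r g))).comp (h2.mul h3))
    have c3 := (continuous_tex (KK (A.r g))).comp (continuous_const (y := μ1) |>.mul h0)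
    have c4 := Complex.continuous_conj.comp
      ((continuous_tex (KK (A.r g))).comp (continuous_const (y := μ2) |>.mul h0))
    exact ((c1.mul c2).mul c3).mul c4

lemma continuous_Kw (A : Par) (y : ℝ) : Continuous (Kw A y) := by
  unfold Kw
  have h1 : Continuous fun w : ℝ × ℝ => A.zz w.1 := (continuous_zz A).comp continuous_fst
  have h2 : Continuous fun w : ℝ × ℝ => A.zz w.2 := (continuous_zz A).comp continuous_snd
  refine (Complex.continuous_ofReal.comp ?_).mul ?_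
  · exact (continuous_phi.comp continuous_fst).mul (continuous_phi.comp continuous_snd)
  · exact Complex.continuous_exp.comp
      (((h1.add (Complex.continuous_conj.comp h2)).mul continuous_const).neg)

lemma ae_me : ∀ᵐ w ∂(me.prod me), |w.1| ≤ 1 / 2 ∧ |w.2| ≤ 1 / 2 := by
  unfold me
  rw [Measure.prod_restrict]
  filter_upwards [ae_restrict_mem (measurableSet_Icc.prod measurableSet_Icc)] with w hw
  exact ⟨abs_le.2 ⟨hw.1.1, hw.1.2⟩, abs_le.2 ⟨hw.2.1, hw.2.2⟩⟩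

lemma norm_zz {A : Par} (hA : A.Ok) {η : ℝ} (h : |η| ≤ 1 / 2) : ‖A.zz η‖ ≤ 1 := by
  have hbe := hA.hbe
  have hbb := hA.hbb
  have hb := hA.hb
  unfold Par.zz
  refine (norm_add_le _ _).trans ?_
  have h1 : ‖(A.be / 2 : ℂ)‖ = A.be / 2 := by
    rw [norm_div, Complex.norm_real, Complex.norm_ofNat, Real.norm_of_nonneg hbe.le]
  have h2 : ‖I * (A.b * η : ℂ)‖ = A.b * |η| := by
    rw [norm_mul, Complex.norm_I, one_mul, norm_mul, Complex.norm_real, Complex.norm_real,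
      Real.norm_of_nonneg (by linarith), Real.norm_eq_abs]
  rw [h1, h2]
  have h3 : A.b * |η| ≤ A.b * (1 / 2) := mul_le_mul_of_nonneg_left h (by linarith)
  linarith

lemma norm_phi {η : ℝ} (h : |η| ≤ 1 / 2) : |phi η| ≤ 1 := by
  unfold phi
  have h1 : η ^ 2 ≤ 1 / 4 := by
    rw [← sq_abs]
    have := abs_nonneg η
    nlinarith
  have h2 : 0 ≤ η ^ 2 := sq_nonneg η
  rw [abs_of_nonneg (by positivity)]
  nlinarith

lemma norm_Kw {A : Par} {y : ℝ} {w : ℝ × ℝ} (h : |w.1| ≤ 1 / 2 ∧ |w.2| ≤ 1 / 2) :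
    ‖Kw A y w‖ ≤ Real.exp (-(A.be * y)) := by
  unfold Kw
  rw [norm_mul, Complex.norm_real, Complex.norm_exp]
  have h1 : ‖phi w.1 * phi w.2‖ ≤ 1 := by
    rw [norm_mul, Real.norm_eq_abs, Real.norm_eq_abs]
    exact mul_le_one₀ (norm_phi h.1) (abs_nonneg _) (norm_phi h.2)
  have h2 : (-((A.zz w.1 + conj (A.zz w.2)) * (y : ℂ))).re = -(A.be * y) := by
    have e1 : ∀ η : ℝ, (A.zz η).re = A.be / 2 := by
      intro η
      have : (A.be / 2 : ℂ) = ((A.be / 2 : ℝ) : ℂ) := by push_cast; rfl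
      unfold Par.zz
      rw [this]
      simp
    rw [Complex.neg_re, mul_comm, Complex.re_ofReal_mul, Complex.add_re, Complex.conj_re, e1, e1]
    ring
  rw [h2]
  calc ‖phi w.1 * phi w.2‖ * Real.exp (-(A.be * y)) ≤ 1 * Real.exp (-(A.be * y)) := by
        gcongr
    _ = _ := one_mul _

lemma tp0 {A : Par} {s : Finset ℕ} {μ1 μ2 : ℂ} (hL : WLen) (hA : A.Ok) (hs : s ⊆ Finset.range A.J)
    (h1 : ‖μ1‖ ≤ 1) (h2 : ‖μ2‖ ≤ 1) {w : ℝ × ℝ} (hw : |w.1| ≤ 1 / 2 ∧ |w.2| ≤ 1 / 2) :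
    TP (Real.exp (10 ^ 7 * A.v * A.Y)) (Real.exp (10 ^ 7 * A.v * A.Y)) (Gw A s μ1 μ2 w) := by
  unfold Gw
  exact hL A hA (A.zz w.1) (A.zz w.2) μ1 μ2 (norm_zz hA hw.1) (norm_zz hA hw.2) h1 h2 s hs

lemma form0 (hW : WForm) {A : Par} {s : Finset ℕ} {μ1 μ2 : ℂ} (hs : s ⊆ Finset.range A.J) (y : ℝ)
    (x : Om) (c : ℂ) :
    (A.W s y x : ℂ) * (A.mo μ1 s x * conj (A.mo μ2 s x)) * c
      = ((A.b / c0 : ℝ) : ℂ) * ∫ w, Kw A y w * (Gw A s μ1 μ2 w x * c) ∂(me.prod me) := by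
  rw [hW A s y x μ1 μ2 hs, mul_assoc, ← integral_mul_const]
  congr 1
  refine integral_congr_ae (Eventually.of_forall fun w => ?_)
  simp only [Kw, Gw]
  ring

attribute [local irreducible] Gw Kw

section swap

variable {A : Par} {s : Finset ℕ} {μ1 μ2 : ℂ} {N c y : ℝ} {H : Om → ℂ}
  {α : Type} [MeasurableSpace α] {ρ : Measure α} [IsFiniteMeasure ρ] {τ : α → Om}

lemma tp (hL : WLen) (hA : A.Ok) (hs : s ⊆ Finset.range A.J) (h1 : ‖μ1‖ ≤ 1) (h2 : ‖μ2‖ ≤ 1)
    (hH : TP N c H) {w : ℝ × ℝ} (hw : |w.1| ≤ 1 / 2 ∧ |w.2| ≤ 1 / 2) :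
    TP (Real.exp (10 ^ 7 * A.v * A.Y) * N) (Real.exp (10 ^ 7 * A.v * A.Y) * c)
      fun x => Gw A s μ1 μ2 w x * H x :=
  (tp0 hL hA hs h1 h2 hw).mul hH

lemma integrable_all (hL : WLen) (hA : A.Ok) (hs : s ⊆ Finset.range A.J) (h1 : ‖μ1‖ ≤ 1)
    (h2 : ‖μ2‖ ≤ 1) (hH : TP N c H) (hτ : Measurable τ) (y : ℝ) :
    Integrable (fun p : (ℝ × ℝ) × α => Kw A y p.1 * (Gw A s μ1 μ2 p.1 (τ p.2) * H (τ p.2)))
      ((me.prod me).prod ρ) := by
  refine Integrable.of_bound (C := Real.exp (-(A.be * y)) * (Real.exp (10 ^ 7 * A.v * A.Y) * c)) ?_ ?_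
  · refine Measurable.aestronglyMeasurable ?_
    have k1 : Measurable (Kw A y) := (continuous_Kw A y).measurable
    have m1 : Measurable fun p : (ℝ × ℝ) × α => Kw A y p.1 := k1.comp measurable_fst
    have k2 : Measurable fun q : (ℝ × ℝ) × Om => Gw A s μ1 μ2 q.1 q.2 :=
      (continuous_Gw A s μ1 μ2).measurable
    have k3 : Measurable fun p : (ℝ × ℝ) × α => (p.1, τ p.2) :=
      measurable_fst.prodMk (hτ.comp measurable_snd)
    have m2 : Measurable fun p : (ℝ × ℝ) × α => Gw A s μ1 μ2 p.1 (τ p.2) := k2.comp k3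
    have k4 : Measurable H := hH.continuous.measurable
    have k5 : Measurable fun p : (ℝ × ℝ) × α => τ p.2 := hτ.comp measurable_snd
    have m3 : Measurable fun p : (ℝ × ℝ) × α => H (τ p.2) := k4.comp k5
    exact m1.mul (m2.mul m3)
  · have h0 := Measure.quasiMeasurePreserving_fst (μ := me.prod me) (ν := ρ) |>.ae ae_me
    filter_upwards [h0] with p hp
    rw [norm_mul]
    have h3 := norm_Kw (A := A) (y := y) hp
    have h4 := (tp hL hA hs h1 h2 hH hp).norm_le (τ p.2)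
    exact mul_le_mul h3 h4 (norm_nonneg _) (Real.exp_pos _).le

lemma form (hW : WForm) (hL : WLen) (hA : A.Ok) (hs : s ⊆ Finset.range A.J) (h1 : ‖μ1‖ ≤ 1)
    (h2 : ‖μ2‖ ≤ 1) (hH : TP N c H) (hτ : Measurable τ) (y : ℝ) :
    ∫ a, (A.W s y (τ a) : ℂ) * (A.mo μ1 s (τ a) * conj (A.mo μ2 s (τ a))) * H (τ a) ∂ρ
      = ((A.b / c0 : ℝ) : ℂ) * ∫ w, Kw A y w * ∫ a, Gw A s μ1 μ2 w (τ a) * H (τ a) ∂ρ ∂(me.prod me) := by
  have hi := integrable_all (ρ := ρ) (τ := τ) hL hA hs h1 h2 hH hτ y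
  have e1 : ∀ a, (A.W s y (τ a) : ℂ) * (A.mo μ1 s (τ a) * conj (A.mo μ2 s (τ a))) * H (τ a)
      = ((A.b / c0 : ℝ) : ℂ) * ∫ w, Kw A y w * (Gw A s μ1 μ2 w (τ a) * H (τ a)) ∂(me.prod me) :=
    fun a => form0 hW hs y (τ a) (H (τ a))
  simp_rw [e1]
  rw [integral_const_mul]
  congr 1
  have h := integral_integral_swap (μ := me.prod me) (ν := ρ)
    (f := fun w a => Kw A y w * (Gw A s μ1 μ2 w (τ a) * H (τ a))) hi
  rw [← h]
  refine integral_congr_ae (Eventually.of_forall fun w => ?_)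
  simp only
  rw [integral_const_mul]

lemma integrable_out (hL : WLen) (hA : A.Ok) (hs : s ⊆ Finset.range A.J) (h1 : ‖μ1‖ ≤ 1)
    (h2 : ‖μ2‖ ≤ 1) (hH : TP N c H) (hτ : Measurable τ) (y : ℝ) :
    Integrable (fun w => Kw A y w * ∫ a, Gw A s μ1 μ2 w (τ a) * H (τ a) ∂ρ) (me.prod me) := by
  have hi := integrable_all (ρ := ρ) (τ := τ) hL hA hs h1 h2 hH hτ y
  refine hi.integral_prod_left.congr (Eventually.of_forall fun w => ?_)
  simp only
  rw [integral_const_mul]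

end swap

/-- the common estimate -/
lemma main (hW : WForm) (hL : WLen) {A : Par} (hA : A.Ok) {s : Finset ℕ} (hs : s ⊆ Finset.range A.J)
    {μ1 μ2 : ℂ} (h1 : ‖μ1‖ ≤ 1) (h2 : ‖μ2‖ ≤ 1) {N c : ℝ} {H : Om → ℂ} (hH : TP N c H)
    {ν : Measure ℝ} [IsFiniteMeasure ν] {B : ℝ}
    (hB : ∀ f : Om → ℂ, TP (Real.exp (10 ^ 7 * A.v * A.Y) * N) (Real.exp (10 ^ 7 * A.v * A.Y) * c) f →
      ‖∫ t, f (om t) ∂ν - ∫ x, f x ∂mu‖ ≤ B) (y : ℝ) :
    ‖∫ t, (A.W s y (om t) : ℂ) * (A.mo μ1 s (om t) * conj (A.mo μ2 s (om t))) * H (om t) ∂ν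
      - ∫ w, (A.W s y w : ℂ) * (A.mo μ1 s w * conj (A.mo μ2 s w)) * H w ∂mu‖
      ≤ |1 / c0| * (Real.exp (-(A.be * y)) * B) := by
  have e1 := form (ρ := ν) (τ := om) hW hL hA hs h1 h2 hH continuous_om.measurable y
  have e2 := form (ρ := mu) (τ := id) hW hL hA hs h1 h2 hH measurable_id y
  simp only [id] at e2
  have i1 := integrable_out (ρ := ν) (τ := om) hL hA hs h1 h2 hH continuous_om.measurable y
  have i2 := integrable_out (ρ := mu) (τ := id) hL hA hs h1 h2 hH measurable_id y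
  simp only [id] at i2
  rw [e1, e2, ← mul_sub, ← integral_sub i1 i2, norm_mul, Complex.norm_real]
  have hb0 : 0 ≤ A.b := by linarith [hA.hbe, hA.hbb]
  have hb1 : ‖A.b / c0‖ ≤ |1 / c0| := by
    rw [div_eq_mul_one_div, norm_mul, Real.norm_of_nonneg hb0, Real.norm_eq_abs]
    have := abs_nonneg (1 / c0)
    nlinarith [hA.hb]
  have hBn : 0 ≤ Real.exp (-(A.be * y)) * B := by
    have h0 := hB (fun x => Gw A s μ1 μ2 (0, 0) x * H x) (tp hL hA hs h1 h2 hH (by norm_num))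
    have := (norm_nonneg _).trans h0
    positivity
  refine mul_le_mul hb1 ?_ (norm_nonneg _) (abs_nonneg _)
  have h3 : ∀ᵐ w ∂(me.prod me), ‖Kw A y w * ∫ a, Gw A s μ1 μ2 w (om a) * H (om a) ∂ν
      - Kw A y w * ∫ a, Gw A s μ1 μ2 w a * H a ∂mu‖ ≤ Real.exp (-(A.be * y)) * B := by
    filter_upwards [ae_me] with w hw
    rw [← mul_sub, norm_mul]
    exact mul_le_mul (norm_Kw hw) (hB _ (tp hL hA hs h1 h2 hH hw)) (norm_nonneg _)
      (Real.exp_pos _).le
  refine (norm_integral_le_of_norm_le_const h3).trans ?_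
  rw [probReal_univ, mul_one]

end C5

theorem wTransfer (h1 : WForm) (h2 : WLen) : WTransfer := by
  refine ⟨2 * |1 / c0|, by positivity, ?_⟩
  intro A hA s hs μ1 μ2 hμ1 hμ2 N c H hN hH x T y hT
  have hc := hH.nonneg
  set E : ℝ := Real.exp (10 ^ 7 * A.v * A.Y) with hE
  have hE0 : 0 < E := Real.exp_pos _
  have hEE : Real.exp (2 * 10 ^ 7 * A.v * A.Y) = E * E := by
    rw [hE, ← Real.exp_add]
    congr 1
    ring
  have hEN : 0 < E * N := by positivity
  have hu := prob_un x hT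
  constructor
  · have := C5.main (ν := un x T) (B := E * c * (2 * (E * N) / T)) h1 h2 hA hs hμ1 hμ2 hH
      (fun f hf => transfer_un hEN hf x hT) y
    refine this.trans (le_of_eq ?_)
    rw [hEE]
    ring
  · have := C5.main (ν := ga x T) (B := E * c * Real.exp (-(T ^ 2 / (4 * (E * N) ^ 2)))) h1 h2 hA hs
      hμ1 hμ2 hH (fun f hf => transfer_ga hEN hf x hT) y
    refine this.trans ?_
    have e : 2 * |1 / c0| * Real.exp (-(A.be * y)) * (E * (c * Real.exp (-(T ^ 2 / (4 * (E * N) ^ 2)))))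
        = 2 * (|1 / c0| * (Real.exp (-(A.be * y)) * (E * c * Real.exp (-(T ^ 2 / (4 * (E * N) ^ 2)))))) := by
      ring
    rw [e]
    have : 0 ≤ |1 / c0| * (Real.exp (-(A.be * y)) * (E * c * Real.exp (-(T ^ 2 / (4 * (E * N) ^ 2))))) := by
      positivity
    linarith

end Pool.Agent.Lib.GT
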