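import Mathlib
import Pool.Agent.Lib.MP_f9aece_nt_gt.Stmts

/-!
Module C8: the weights on the torus, bound.
-/

set_option autoImplicit false

namespace Pool.Agent.Lib.GT

open MeasureTheory Set Filter Topology Complex ProbabilityTheory
open scoped ComplexConjugate
open Pool.Agent.Lib.MP_f9aece_nt (VV)
open Pool.Agent.Lib.J4 (Sg Yg rg Jok V2)

namespace C8

/-! ### bounds -/

private lemma norm_tex_le (K : ℕ) (w : ℂ) : ‖tex K w‖ ≤ Real.exp ‖w‖ := by
  unfold tex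
  refine (norm_sum_le _ _).trans ?_
  have h : ∀ k ∈ Finset.range (K + 1), ‖w ^ k / (k.factorial : ℂ)‖ = ‖w‖ ^ k / (k.factorial : ℝ) := by
    intro k _
    rw [norm_div, norm_pow, Complex.norm_natCast]
  rw [Finset.sum_congr rfl h]
  exact Real.sum_le_exp_of_nonneg (norm_nonneg _) _

private lemma norm_lin_le (S : Finset ℕ) (c : ℕ → ℂ) (x : Om) : ‖lin S c x‖ ≤ ∑ p ∈ S, ‖c p‖ := by
  unfold lin
  refine (norm_sum_le _ _).trans (Finset.sum_le_sum fun p _ => ?_)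
  rw [norm_mul, norm_e1, mul_one]

private lemma norm_GF_le (r : ℕ) (S : Finset ℕ) (h : ℕ → ℝ) {z z' μ1 μ2 : ℂ} (hz : ‖z‖ ≤ 1)
    (hz' : ‖z'‖ ≤ 1) (h1 : ‖μ1‖ ≤ 1) (h2 : ‖μ2‖ ≤ 1) (x : Om) :
    ‖GF r S h z z' μ1 μ2 x‖ ≤ Real.exp (∑ p ∈ S, ‖(h p : ℂ)‖) ^ 4 := by
  set L := ∑ p ∈ S, ‖(h p : ℂ)‖ with hL
  have hl : ‖lin S (fun p => (h p : ℂ)) x‖ ≤ L := norm_lin_le _ _ _
  have hre : ‖(((lin S (fun p => (h p : ℂ)) x).re : ℝ) : ℂ)‖ ≤ L := by
    rw [Complex.norm_real, Real.norm_eq_abs]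
    exact (Complex.abs_re_le_norm _).trans hl
  have key : ∀ (w u : ℂ), ‖w‖ ≤ 1 → ‖u‖ ≤ L → ‖tex (KK r) (w * u)‖ ≤ Real.exp L := by
    intro w u hw hu
    refine (norm_tex_le _ _).trans (Real.exp_le_exp.mpr ?_)
    rw [norm_mul]
    calc ‖w‖ * ‖u‖ ≤ 1 * L := mul_le_mul hw hu (norm_nonneg _) zero_le_one
      _ = L := one_mul _
  unfold GF
  rw [norm_mul, norm_mul, norm_mul, RCLike.norm_conj, RCLike.norm_conj]
  have e : Real.exp L ^ 4 = Real.exp L * Real.exp L * Real.exp L * Real.exp L := by ring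
  rw [e]
  have := Real.exp_pos L
  refine mul_le_mul (mul_le_mul (mul_le_mul (key _ _ hz hre) (key _ _ hz' hre) (norm_nonneg _)
    (by positivity)) (key _ _ h1 hl) (norm_nonneg _) (by positivity)) (key _ _ h2 hl)
    (norm_nonneg _) (by positivity)

private lemma norm_bp_le (r : ℕ) (S : Finset ℕ) (c : ℕ → ℂ) (x : Om) :
    ‖(bp r S c x : ℂ)‖ ≤ ((∑ p ∈ S, ‖c p‖) / RR r) ^ (2 * MM r) := by
  have hR : 0 ≤ RR r := by unfold RR; positivity
  rw [Complex.norm_real, Real.norm_eq_abs]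
  unfold bp
  rw [abs_of_nonneg (by positivity)]
  exact pow_le_pow_left₀ (by positivity) (div_le_div_of_nonneg_right (norm_lin_le _ _ _) hR) _

private lemma norm_inv_le {a : ℂ} (ha : ‖a‖ ≤ 1 / 2) {e : ℂ} (he : ‖e‖ = 1) :
    ‖(1 - a * e)⁻¹‖ ≤ 2 := by
  have h1 : 1 / 2 ≤ ‖1 - a * e‖ := by
    have := norm_sub_norm_le (1 : ℂ) (a * e)
    rw [norm_one, norm_mul, he, mul_one] at this
    linarith
  rw [norm_inv]
  calc ‖1 - a * e‖⁻¹ ≤ (1 / 2 : ℝ)⁻¹ := inv_anti₀ (by norm_num) h1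
    _ = 2 := by norm_num

private lemma norm_HF_le {S : Finset ℕ} (hS : ∀ p ∈ S, 1000 ≤ p) {D : Dat} (hD : D.Ok) (x : Om) :
    ‖HF S D x‖ ≤ Real.exp (∑ p ∈ S, (‖D.g p‖ + ‖D.g' p‖)) * ∏ _p ∈ S, (4 : ℝ) := by
  unfold HF
  rw [norm_mul]
  refine mul_le_mul ?_ ?_ (norm_nonneg _) (Real.exp_pos _).le
  · rw [Complex.norm_exp]
    refine Real.exp_le_exp.mpr ((Complex.re_le_norm _).trans ?_)
    refine (norm_sum_le _ _).trans (Finset.sum_le_sum fun p _ => ?_)
    refine (norm_add_le _ _).trans ?_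
    rw [norm_mul, norm_mul, RCLike.norm_conj, norm_e1, mul_one, mul_one]
  · rw [norm_prod]
    refine Finset.prod_le_prod (fun _ _ => norm_nonneg _) fun p hp => ?_
    have h1 : 1 / Real.sqrt p ≤ 1 / 2 := by
      refine one_div_le_one_div_of_le (by norm_num) ?_
      have h1000 : (1000 : ℝ) ≤ p := by exact_mod_cast hS p hp
      exact Real.le_sqrt_of_sq_le (by linarith)
    have hp' := hD p
    rw [norm_mul]
    calc _ ≤ (2 : ℝ) * 2 := mul_le_mul (norm_inv_le (hp'.2.2.1.trans h1) (norm_e1 _))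
          (norm_inv_le (hp'.2.2.2.trans h1) (by rw [RCLike.norm_conj, norm_e1])) (norm_nonneg _)
          (by norm_num)
      _ = 4 := by norm_num

/-! ### measurability -/

private lemma meas_tex (K : ℕ) : Measurable (tex K) := by
  have : Continuous (tex K) := by
    unfold tex
    fun_prop
  exact this.measurable

private lemma meas_lin (S : Finset ℕ) (c : ℕ → ℂ) : Measurable (lin S c) := by
  have : Continuous (lin S c) := by
    unfold lin
    fun_prop
  exact this.measurable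

private lemma meas_conj : Measurable (fun z : ℂ => conj z) := Complex.continuous_conj.measurable

private lemma meas_ofReal_re : Measurable (fun z : ℂ => ((z.re : ℝ) : ℂ)) :=
  (Complex.continuous_ofReal.comp Complex.continuous_re).measurable

private lemma meas_GF (A : Par) (g : ℕ) (μ1 μ2 : ℂ) :
    Measurable (fun q : Om × (ℝ × ℝ) => GF (A.r g) (A.S g) A.h (A.zz q.2.1) (A.zz q.2.2) μ1 μ2 q.1) := by
  unfold GF
  have hzz : Measurable A.zz := by
    have : Continuous A.zz := by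
      unfold Par.zz
      fun_prop
    exact this.measurable
  have hl : Measurable (fun q : Om × (ℝ × ℝ) => lin (A.S g) (fun p => (A.h p : ℂ)) q.1) :=
    (meas_lin _ _).comp measurable_fst
  have hre := meas_ofReal_re.comp hl
  have hz1 : Measurable (fun q : Om × (ℝ × ℝ) => A.zz q.2.1) := hzz.comp (measurable_fst.comp measurable_snd)
  have hz2 : Measurable (fun q : Om × (ℝ × ℝ) => A.zz q.2.2) := hzz.comp (measurable_snd.comp measurable_snd)
  refine (((?_ : Measurable _).mul ?_).mul ?_).mul ?_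
  · exact (meas_tex _).comp (hz1.mul hre)
  · exact meas_conj.comp ((meas_tex _).comp (hz2.mul hre))
  · exact (meas_tex _).comp (measurable_const.mul hl)
  · exact meas_conj.comp ((meas_tex _).comp (measurable_const.mul hl))

private lemma meas_bp (r : ℕ) (S : Finset ℕ) (c : ℕ → ℂ) : Measurable (fun x : Om => (bp r S c x : ℂ)) := by
  have : Continuous (fun x : Om => (bp r S c x : ℂ)) := by
    unfold bp lin
    fun_prop
  exact this.measurable

private lemma meas_HF (S : Finset ℕ) (D : Dat) : Measurable (HF S D) := by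
  unfold HF
  refine Measurable.mul ?_ ?_
  · have : Continuous (fun x : Om => cexp (∑ p ∈ S, (D.g p * e1 (x p) + D.g' p * conj (e1 (x p))))) := by
      fun_prop
    exact this.measurable
  · refine Finset.measurable_fun_prod _ fun p _ => Measurable.mul ?_ ?_
    · have : Continuous (fun x : Om => 1 - D.a p * e1 (x p)) := by fun_prop
      exact this.measurable.inv
    · have : Continuous (fun x : Om => 1 - D.a' p * conj (e1 (x p))) := by fun_prop
      exact this.measurable.inv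

private lemma meas_AllF (A : Par) (s s' : Finset ℕ) (c : ℕ → ℂ) (μ1 μ2 : ℂ) (D : Dat) :
    Measurable (fun q : Om × (ℝ × ℝ) => AllF A s s' c (A.zz q.2.1) (A.zz q.2.2) μ1 μ2 D q.1) := by
  unfold AllF
  refine Finset.measurable_fun_prod _ fun g _ => (Measurable.mul ?_ ?_).mul ?_
  · by_cases h : g ∈ s
    · simp only [h, if_true]
      exact measurable_const
    · simp only [h, if_false]
      exact meas_GF A g μ1 μ2
  · by_cases h : g ∈ s'
    · simp only [h, if_true]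
      exact (meas_bp _ _ _).comp measurable_fst
    · simp only [h, if_false]
      exact measurable_const
  · exact (meas_HF _ _).comp measurable_fst

private lemma bound_AllF (A : Par) (hN : ∀ g, ∀ p ∈ A.S g, 1000 ≤ p) (s s' : Finset ℕ) (c : ℕ → ℂ)
    {μ1 μ2 : ℂ} (h1 : ‖μ1‖ ≤ 1) (h2 : ‖μ2‖ ≤ 1) {D : Dat} (hD : D.Ok) :
    ∃ M : ℝ, 0 ≤ M ∧ ∀ z z' : ℂ, ‖z‖ ≤ 1 → ‖z'‖ ≤ 1 → ∀ x, ‖AllF A s s' c z z' μ1 μ2 D x‖ ≤ M := by
  refine ⟨∏ g ∈ Finset.range A.J, ((1 + Real.exp (∑ p ∈ A.S g, ‖(A.h p : ℂ)‖) ^ 4)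
    * (1 + ((∑ p ∈ A.S g, ‖c p‖) / RR (A.r g)) ^ (2 * MM (A.r g)))
    * (Real.exp (∑ p ∈ A.S g, (‖D.g p‖ + ‖D.g' p‖)) * ∏ _p ∈ A.S g, (4 : ℝ))), ?_, ?_⟩
  · refine Finset.prod_nonneg fun g _ => ?_
    have hR : 0 ≤ RR (A.r g) := by unfold RR; positivity
    positivity
  · intro z z' hz hz' x
    unfold AllF
    rw [norm_prod]
    refine Finset.prod_le_prod (fun _ _ => norm_nonneg _) fun g _ => ?_
    have hR : 0 ≤ RR (A.r g) := by unfold RR; positivity
    rw [norm_mul, norm_mul]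
    refine mul_le_mul (mul_le_mul ?_ ?_ (norm_nonneg _) (by positivity)) (norm_HF_le (hN g) hD x)
      (norm_nonneg _) (by positivity)
    · split_ifs
      · rw [norm_one]
        have : 0 ≤ Real.exp (∑ p ∈ A.S g, ‖(A.h p : ℂ)‖) ^ 4 := by positivity
        linarith
      · have := norm_GF_le (A.r g) (A.S g) A.h hz hz' h1 h2 x
        linarith
    · split_ifs
      · have := norm_bp_le (A.r g) (A.S g) c x
        linarith
      · rw [norm_one]
        have : 0 ≤ ((∑ p ∈ A.S g, ‖c p‖) / RR (A.r g)) ^ (2 * MM (A.r g)) := by positivity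
        linarith

/-! ### dependence -/

private lemma dep_GF (r : ℕ) (S : Finset ℕ) (h : ℕ → ℝ) (z z' μ1 μ2 : ℂ) :
    Dep (S : Set ℕ) (GF r S h z z' μ1 μ2) := by
  intro x y hxy
  unfold GF
  rw [(dep_lin (S := S) (c := fun p => (h p : ℂ))) x y hxy]

private lemma dep_bp (r : ℕ) (S : Finset ℕ) (c : ℕ → ℂ) :
    Dep (S : Set ℕ) (fun x : Om => (bp r S c x : ℂ)) := by
  intro x y hxy
  simp only
  unfold bp
  rw [(dep_lin (S := S) (c := c)) x y hxy]

private lemma dep_HF (S : Finset ℕ) (D : Dat) : Dep (S : Set ℕ) (HF S D) := by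
  intro x y hxy
  unfold HF
  congr 1
  · congr 1
    refine Finset.sum_congr rfl fun p hp => ?_
    rw [hxy p (Finset.mem_coe.mpr hp)]
  · refine Finset.prod_congr rfl fun p hp => ?_
    rw [hxy p (Finset.mem_coe.mpr hp)]

private lemma S_sub_U (A : Par) {g : ℕ} (hg : g ∈ Finset.range A.J) :
    (A.S g : Set ℕ) ⊆ (A.U : Set ℕ) := by
  intro p hp
  unfold Par.U
  exact Finset.mem_coe.mpr (Finset.mem_biUnion.mpr ⟨g, hg, Finset.mem_coe.mp hp⟩)

private lemma dep_AllF (A : Par) (s s' : Finset ℕ) (c : ℕ → ℂ) (z z' μ1 μ2 : ℂ) (D : Dat) :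
    Dep (A.U : Set ℕ) (AllF A s s' c z z' μ1 μ2 D) := by
  unfold AllF
  refine dep_prod fun g hg => ?_
  refine Dep.mul (Dep.mul ?_ ?_) ((dep_HF _ _).mono (S_sub_U A hg))
  · by_cases h : g ∈ s
    · simp only [h, if_true]
      exact fun _ _ _ => rfl
    · simp only [h, if_false]
      exact (dep_GF _ _ _ _ _ _ _).mono (S_sub_U A hg)
  · by_cases h : g ∈ s'
    · simp only [h, if_true]
      exact (dep_bp _ _ _).mono (S_sub_U A hg)
    · simp only [h, if_false]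
      exact fun _ _ _ => rfl

private lemma prod_HF (A : Par) (hdis : ∀ g h, g ≠ h → Disjoint (A.S g) (A.S h)) (D : Dat) (x : Om) :
    ∏ g ∈ Finset.range A.J, HF (A.S g) D x = HF A.U D x := by
  have hpd : Set.PairwiseDisjoint (↑(Finset.range A.J) : Set ℕ) A.S := fun g _ h _ hgh => hdis g h hgh
  unfold HF Par.U
  rw [Finset.prod_mul_distrib, ← Complex.exp_sum, Finset.sum_biUnion hpd, Finset.prod_biUnion hpd]

/-! ### the support of the windows -/

private lemma ae_me : ∀ᵐ w : ℝ × ℝ ∂(me.prod me), |w.1| ≤ 1 / 2 ∧ |w.2| ≤ 1 / 2 := by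
  have h0 : ∀ᵐ η : ℝ ∂me, |η| ≤ 1 / 2 := by
    unfold me
    filter_upwards [ae_restrict_mem measurableSet_Icc] with η hη
    exact abs_le.mpr ⟨hη.1, hη.2⟩
  have h1 := (Measure.quasiMeasurePreserving_fst (μ := me) (ν := me)).ae h0
  have h2 := (Measure.quasiMeasurePreserving_snd (μ := me) (ν := me)).ae h0
  filter_upwards [h1, h2] with w hw1 hw2
  exact ⟨hw1, hw2⟩

private lemma norm_zz_le {A : Par} (hA : A.Ok) {η : ℝ} (hη : |η| ≤ 1 / 2) : ‖A.zz η‖ ≤ 1 := by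
  unfold Par.zz
  have hb := hA.hb
  have hbe := hA.hbe
  have hbb := hA.hbb
  refine (norm_add_le _ _).trans ?_
  have e1 : ‖((A.be : ℂ) / 2)‖ = A.be / 2 := by
    rw [norm_div, Complex.norm_real, Real.norm_eq_abs, abs_of_pos hbe, Complex.norm_ofNat]
  have e2 : ‖I * ((A.b : ℂ) * η)‖ = A.b * |η| := by
    rw [norm_mul, Complex.norm_I, one_mul, norm_mul, Complex.norm_real, Complex.norm_real,
      Real.norm_eq_abs, Real.norm_eq_abs, abs_of_pos (hbe.trans_le hbb)]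
  rw [e1, e2]
  have : A.b * |η| ≤ A.b * (1 / 2) := mul_le_mul_of_nonneg_left hη (hbe.trans_le hbb).le
  linarith

private lemma norm_pf (A : Par) (w : ℝ × ℝ) (y : ℝ) :
    ‖cexp (-((A.zz w.1 + conj (A.zz w.2)) * y))‖ = Real.exp (-(A.be * y)) := by
  rw [Complex.norm_exp]
  congr 1
  have h1 : (A.zz w.1).re = A.be / 2 := by
    unfold Par.zz
    rw [Complex.add_re, Complex.div_ofNat_re, Complex.ofReal_re, Complex.I_mul_re, ← Complex.ofReal_mul,
      Complex.ofReal_im]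
    ring
  have h2 : (A.zz w.2).re = A.be / 2 := by
    unfold Par.zz
    rw [Complex.add_re, Complex.div_ofNat_re, Complex.ofReal_re, Complex.I_mul_re, ← Complex.ofReal_mul,
      Complex.ofReal_im]
    ring
  rw [Complex.neg_re, Complex.re_mul_ofReal, Complex.add_re, Complex.conj_re, h1, h2]
  ring

private lemma phi_nonneg (η : ℝ) : 0 ≤ phi η := by unfold phi; positivity

private lemma phi_le {η : ℝ} (hη : |η| ≤ 1 / 2) : phi η ≤ 1 := by
  unfold phi
  have h := abs_le.mp hη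
  have h1 : η ^ 2 ≤ 1 / 4 := by nlinarith [h.1, h.2]
  have h0 : 0 ≤ η ^ 2 := sq_nonneg _
  have : (1 - 4 * η ^ 2) ^ 2 ≤ 1 ^ 2 := pow_le_pow_left₀ (by linarith) (by linarith) 2
  simpa using this

private lemma cont_phi : Continuous phi := by unfold phi; fun_prop

/-! ### the main lemma -/

private lemma core (hG : GroupNum) (C1 C2 : ℝ) (hC1 : 0 ≤ C1)
    (hAll : ∀ A : Par, A.Ok → ∀ z z' μ1 μ2 : ℂ, ‖z‖ ≤ 1 → ‖z'‖ ≤ 1 →
      ‖μ1‖ ≤ 1 → ‖μ2‖ ≤ 1 → ∀ D : Dat, D.Ok → ∀ c : ℕ → ℂ, (∀ p : ℕ, ‖c p‖ ≤ 1 / Real.sqrt p) →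
      ∀ s s' : Finset ℕ, s ⊆ s' → s' ⊆ Finset.range A.J →
      ‖∫ x, AllF A s s' c z z' μ1 μ2 D x ∂mu‖
        ≤ C1 * Real.exp (-(2 * ∑ g ∈ s', (A.r g : ℝ))) * ‖cexp (sab A.U A.h z z' μ1 μ2 D)‖)
    (hWG : ∀ A : Par, A.Ok → ∀ y : ℝ,
      A.b / c0 * ∫ w : ℝ × ℝ, (phi w.1 * phi w.2) * Real.exp (-(A.be * y)
        + (A.be ^ 2 - A.b ^ 2 * (w.1 - w.2) ^ 2) * A.vt / 4) ∂(me.prod me) ≤ C2 * A.G y)
    {A : Par} (hA : A.Ok) {μ1 μ2 : ℂ} (h1 : ‖μ1‖ ≤ 1) (h2 : ‖μ2‖ ≤ 1) {D : Dat} (hD : D.Ok) {B : ℝ}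
    (hB : ExpBd A μ1 μ2 D B) {k0 : ℝ} {Q : Om → ℂ} (hQ : Small A k0 Q) (y : ℝ) {c : ℕ → ℂ}
    (hc : ∀ p : ℕ, ‖c p‖ ≤ 1 / Real.sqrt p) {s s' : Finset ℕ} (hs : s ⊆ s')
    (hs' : s' ⊆ Finset.range A.J) :
    ‖∫ x, ((A.b / c0 : ℝ) * ∫ w : ℝ × ℝ, (phi w.1 * phi w.2 : ℝ)
      * (cexp (-((A.zz w.1 + conj (A.zz w.2)) * y))
        * AllF A s s' c (A.zz w.1) (A.zz w.2) μ1 μ2 D x) ∂(me.prod me)) * Q x ∂mu‖
      ≤ C1 * C2 * Real.exp (-(2 * ∑ g ∈ s', (A.r g : ℝ))) * k0 * Real.exp B * A.G y := by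
  obtain ⟨hN1, hN2, hN3, hN4, hN5, hN6, hN7, hN8⟩ := hG A hA
  obtain ⟨hQm, hQd, hQb⟩ := hQ
  have hk0 : 0 ≤ k0 := (norm_nonneg _).trans (hQb (fun _ => 0))
  have hc0 : 0 ≤ c0 := integral_nonneg fun r => by positivity
  have hbpos : 0 < A.b := hA.hbe.trans_le hA.hbb
  have hbc : 0 ≤ A.b / c0 := div_nonneg hbpos.le hc0
  have hvt : 0 ≤ A.vt := by
    unfold Par.vt
    exact Finset.sum_nonneg fun _ _ => sq_nonneg _
  obtain ⟨M, hM0, hM⟩ := bound_AllF A (fun g p hp => (hN1 g p hp).2.1) s s' c h1 h2 hD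
  -- the integrand
  set F : Om → ℝ × ℝ → ℂ := fun x w => ((phi w.1 * phi w.2 : ℝ) : ℂ)
      * (cexp (-((A.zz w.1 + conj (A.zz w.2)) * y))
        * AllF A s s' c (A.zz w.1) (A.zz w.2) μ1 μ2 D x) * Q x with hF
  have hFm : Measurable (Function.uncurry F) := by
    have e : Function.uncurry F = fun q : Om × (ℝ × ℝ) => ((phi q.2.1 * phi q.2.2 : ℝ) : ℂ)
      * (cexp (-((A.zz q.2.1 + conj (A.zz q.2.2)) * y))
        * AllF A s s' c (A.zz q.2.1) (A.zz q.2.2) μ1 μ2 D q.1) * Q q.1 := by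
      funext q
      rfl
    rw [e]
    refine (Measurable.mul ?_ (Measurable.mul ?_ (meas_AllF A s s' c μ1 μ2 D))).mul
      (hQm.comp measurable_fst)
    · have hc : Continuous (fun q : Om × (ℝ × ℝ) => ((phi q.2.1 * phi q.2.2 : ℝ) : ℂ)) := by
        have := cont_phi
        fun_prop
      exact hc.measurable
    · have hc : Continuous (fun q : Om × (ℝ × ℝ) => cexp (-((A.zz q.2.1 + conj (A.zz q.2.2)) * y))) := by
        unfold Par.zz
        fun_prop
      exact hc.measurable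
  have hFb : ∀ x : Om, ∀ w : ℝ × ℝ, |w.1| ≤ 1 / 2 ∧ |w.2| ≤ 1 / 2 →
      ‖F x w‖ ≤ Real.exp (-(A.be * y)) * M * k0 := by
    intro x w hw
    simp only [hF]
    rw [norm_mul, norm_mul, norm_mul, norm_pf, Complex.norm_real, Real.norm_eq_abs, abs_of_nonneg
      (mul_nonneg (phi_nonneg _) (phi_nonneg _))]
    have e1 : phi w.1 * phi w.2 ≤ 1 := by
      calc phi w.1 * phi w.2 ≤ 1 * 1 := mul_le_mul (phi_le hw.1) (phi_le hw.2) (phi_nonneg _) zero_le_one
        _ = 1 := one_mul _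
    have e2 := hM _ _ (norm_zz_le hA hw.1) (norm_zz_le hA hw.2) x
    have e3 := (Real.exp_pos (-(A.be * y))).le
    refine mul_le_mul ?_ (hQb x) (norm_nonneg _) (by positivity)
    calc phi w.1 * phi w.2 * (Real.exp (-(A.be * y)) * _)
        ≤ 1 * (Real.exp (-(A.be * y)) * M) := mul_le_mul e1 (mul_le_mul_of_nonneg_left e2 e3)
          (by positivity) zero_le_one
      _ = _ := one_mul _
  have hFi : Integrable (Function.uncurry F) (mu.prod (me.prod me)) := by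
    refine Integrable.of_bound hFm.aestronglyMeasurable (Real.exp (-(A.be * y)) * M * k0) ?_
    have h := (Measure.quasiMeasurePreserving_snd (μ := mu) (ν := me.prod me)).ae ae_me
    filter_upwards [h] with q hq
    exact hFb q.1 q.2 hq
  -- exchange
  have e1 : ∫ x, ((A.b / c0 : ℝ) * ∫ w : ℝ × ℝ, (phi w.1 * phi w.2 : ℝ)
      * (cexp (-((A.zz w.1 + conj (A.zz w.2)) * y))
        * AllF A s s' c (A.zz w.1) (A.zz w.2) μ1 μ2 D x) ∂(me.prod me)) * Q x ∂mu
      = (A.b / c0 : ℝ) * ∫ w, ∫ x, F x w ∂mu ∂(me.prod me) := by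
    rw [← integral_integral_swap hFi, ← integral_const_mul]
    refine integral_congr_ae (Eventually.of_forall fun x => ?_)
    simp only [hF]
    rw [integral_mul_const, mul_assoc]
  rw [e1, norm_mul, Complex.norm_real, Real.norm_eq_abs, abs_of_nonneg hbc]
  -- the inner integral
  have hdisU : Disjoint A.U (Finset.range (A.p0 + 1)) := by
    rw [Finset.disjoint_left]
    intro p hp hp'
    have := ((hN4 p).mp hp).2.1
    rw [Finset.mem_range] at hp'
    omega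
  set K : ℝ := C1 * Real.exp (-(2 * ∑ g ∈ s', (A.r g : ℝ))) * k0 * Real.exp B with hK
  have hK0 : 0 ≤ K := by positivity
  have hin : ∀ w : ℝ × ℝ, |w.1| ≤ 1 / 2 ∧ |w.2| ≤ 1 / 2 → ‖∫ x, F x w ∂mu‖
      ≤ K * ((phi w.1 * phi w.2) * Real.exp (-(A.be * y)
        + (A.be ^ 2 - A.b ^ 2 * (w.1 - w.2) ^ 2) * A.vt / 4)) := by
    intro w hw
    have e2 : ∫ x, F x w ∂mu = ((phi w.1 * phi w.2 : ℝ) : ℂ)
        * cexp (-((A.zz w.1 + conj (A.zz w.2)) * y))
        * ((∫ x, AllF A s s' c (A.zz w.1) (A.zz w.2) μ1 μ2 D x ∂mu) * ∫ x, Q x ∂mu) := by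
      rw [← integral_mul_of_dep hdisU ?_ hQm (dep_AllF A s s' c _ _ μ1 μ2 D) ?_, ← integral_const_mul]
      · refine integral_congr_ae (Eventually.of_forall fun x => ?_)
        simp only [hF]
        ring
      · have := (meas_AllF A s s' c μ1 μ2 D).comp
          (measurable_id.prodMk (measurable_const (a := w)) : Measurable fun x : Om => (x, w))
        exact this
      · refine hQd.mono ?_
        intro p hp
        rw [Finset.mem_coe, Finset.mem_range]
        have : p ≤ A.p0 := hp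
        omega
    have hQi : ‖∫ x, Q x ∂mu‖ ≤ k0 := by
      have := norm_integral_le_of_norm_le_const (μ := mu) (Eventually.of_forall hQb)
      simpa using this
    have hsab : ‖cexp (sab A.U A.h (A.zz w.1) (A.zz w.2) μ1 μ2 D)‖
        ≤ Real.exp ((A.be ^ 2 - A.b ^ 2 * (w.1 - w.2) ^ 2) * A.vt / 4 + B) := by
      rw [Complex.norm_exp]
      exact Real.exp_le_exp.mpr (hB w.1 w.2 hw.1 hw.2)
    have hA2 := hAll A hA _ _ μ1 μ2 (norm_zz_le hA hw.1) (norm_zz_le hA hw.2) h1 h2 D hD c hc s s' hs hs'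
    have hA3 : ‖∫ x, AllF A s s' c (A.zz w.1) (A.zz w.2) μ1 μ2 D x ∂mu‖
        ≤ C1 * Real.exp (-(2 * ∑ g ∈ s', (A.r g : ℝ)))
          * Real.exp ((A.be ^ 2 - A.b ^ 2 * (w.1 - w.2) ^ 2) * A.vt / 4 + B) :=
      hA2.trans (mul_le_mul_of_nonneg_left hsab (by positivity))
    rw [e2, norm_mul, norm_mul, norm_mul, norm_pf, Complex.norm_real, Real.norm_eq_abs, abs_of_nonneg
      (mul_nonneg (phi_nonneg _) (phi_nonneg _))]
    calc phi w.1 * phi w.2 * Real.exp (-(A.be * y)) * (‖∫ x, AllF A s s' c (A.zz w.1) (A.zz w.2) μ1 μ2 D x ∂mu‖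
          * ‖∫ x, Q x ∂mu‖)
        ≤ phi w.1 * phi w.2 * Real.exp (-(A.be * y)) * (C1 * Real.exp (-(2 * ∑ g ∈ s', (A.r g : ℝ)))
          * Real.exp ((A.be ^ 2 - A.b ^ 2 * (w.1 - w.2) ^ 2) * A.vt / 4 + B) * k0) :=
          mul_le_mul_of_nonneg_left (mul_le_mul hA3 hQi (norm_nonneg _) (by positivity))
            (mul_nonneg (mul_nonneg (phi_nonneg _) (phi_nonneg _)) (Real.exp_pos _).le)
      _ = _ := by
          rw [hK, Real.exp_add, Real.exp_add]
          ring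
  have hgi : Integrable (fun w : ℝ × ℝ => K * ((phi w.1 * phi w.2) * Real.exp (-(A.be * y)
        + (A.be ^ 2 - A.b ^ 2 * (w.1 - w.2) ^ 2) * A.vt / 4))) (me.prod me) := by
    refine Integrable.const_mul ?_ _
    refine Integrable.of_bound ?_ (Real.exp (-(A.be * y) + A.be ^ 2 * A.vt / 4)) ?_
    · have hc : Continuous (fun w : ℝ × ℝ => (phi w.1 * phi w.2) * Real.exp (-(A.be * y)
        + (A.be ^ 2 - A.b ^ 2 * (w.1 - w.2) ^ 2) * A.vt / 4)) := by
        have := cont_phi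
        fun_prop
      exact hc.aestronglyMeasurable
    · filter_upwards [ae_me] with w hw
      rw [Real.norm_eq_abs, abs_of_nonneg (mul_nonneg (mul_nonneg (phi_nonneg _) (phi_nonneg _))
        (Real.exp_pos _).le)]
      have e1 : phi w.1 * phi w.2 ≤ 1 := by
        calc phi w.1 * phi w.2 ≤ 1 * 1 := mul_le_mul (phi_le hw.1) (phi_le hw.2) (phi_nonneg _) zero_le_one
          _ = 1 := one_mul _
      have e2 : Real.exp (-(A.be * y) + (A.be ^ 2 - A.b ^ 2 * (w.1 - w.2) ^ 2) * A.vt / 4)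
          ≤ Real.exp (-(A.be * y) + A.be ^ 2 * A.vt / 4) := by
        refine Real.exp_le_exp.mpr ?_
        have : 0 ≤ A.b ^ 2 * (w.1 - w.2) ^ 2 * A.vt := by positivity
        linarith
      calc phi w.1 * phi w.2 * Real.exp (-(A.be * y) + (A.be ^ 2 - A.b ^ 2 * (w.1 - w.2) ^ 2) * A.vt / 4)
          ≤ 1 * Real.exp (-(A.be * y) + A.be ^ 2 * A.vt / 4) :=
            mul_le_mul e1 e2 (Real.exp_pos _).le zero_le_one
        _ = _ := one_mul _
  have hfin : ‖∫ w, ∫ x, F x w ∂mu ∂(me.prod me)‖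
      ≤ ∫ w : ℝ × ℝ, K * ((phi w.1 * phi w.2) * Real.exp (-(A.be * y)
        + (A.be ^ 2 - A.b ^ 2 * (w.1 - w.2) ^ 2) * A.vt / 4)) ∂(me.prod me) := by
    refine norm_integral_le_of_norm_le hgi ?_
    filter_upwards [ae_me] with w hw
    exact hin w hw
  rw [integral_const_mul] at hfin
  calc A.b / c0 * ‖∫ w, ∫ x, F x w ∂mu ∂(me.prod me)‖
      ≤ A.b / c0 * (K * ∫ w : ℝ × ℝ, (phi w.1 * phi w.2) * Real.exp (-(A.be * y)
        + (A.be ^ 2 - A.b ^ 2 * (w.1 - w.2) ^ 2) * A.vt / 4) ∂(me.prod me)) :=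
        mul_le_mul_of_nonneg_left hfin hbc
    _ = K * (A.b / c0 * ∫ w : ℝ × ℝ, (phi w.1 * phi w.2) * Real.exp (-(A.be * y)
        + (A.be ^ 2 - A.b ^ 2 * (w.1 - w.2) ^ 2) * A.vt / 4) ∂(me.prod me)) := by ring
    _ ≤ K * (C2 * A.G y) := mul_le_mul_of_nonneg_left (hWG A hA y) hK0
    _ = _ := by rw [hK]; ring

private lemma norm_h_le {A : Par} (hA : A.Ok) (p : ℕ) : ‖((A.h p : ℝ) : ℂ)‖ ≤ 1 / Real.sqrt p := by
  have hl := hA.hl
  rw [Complex.norm_real, Real.norm_eq_abs]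
  unfold Par.h
  rcases Nat.eq_zero_or_pos p with hp | hp
  · subst hp
    rw [Nat.cast_zero, Real.zero_rpow (by linarith)]
    simp
  · have hp1 : (1 : ℝ) ≤ p := by exact_mod_cast hp
    have h2 : 1 / Real.sqrt p = (p : ℝ) ^ (-(1 / 2 : ℝ)) := by
      rw [Real.rpow_neg (by positivity), Real.sqrt_eq_rpow, one_div (((p : ℝ) ^ (1 / 2 : ℝ)))]
    rw [abs_of_nonneg (by positivity), h2]
    exact Real.rpow_le_rpow_of_exponent_le hp1 (by linarith)

end C8

open C8 in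
/-- C8 -/
theorem wBd (h1 : WForm) (_h2 : AllMain) (h3 : AllBd) (h4 : WGauss) (h5 : GroupNum) : WBd := by
  obtain ⟨C1, hC1, hAll⟩ := h3
  obtain ⟨C2, hC2, hWG⟩ := h4
  refine ⟨C1 * C2, mul_nonneg hC1 hC2, ?_⟩
  intro A hA μ1 μ2 hμ1 hμ2 D hD B hB k0 Q hQ y
  have hN3 := (h5 A hA).2.2.1
  constructor
  · intro s hs
    have key := core h5 C1 C2 hC1 hAll (fun A hA y => (hWG A hA y).2.1) hA hμ1 hμ2 hD hB hQ y
      (c := fun p => (A.h p : ℂ)) (norm_h_le hA) (Finset.Subset.refl s) hs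
    refine le_trans (le_of_eq ?_) key
    congr 1
    refine integral_congr_ae (Eventually.of_forall fun x => ?_)
    simp only
    rw [h1 A s y x μ1 μ2 hs, ← prod_HF A hN3 D x, ← mul_assoc]
    congr 1
    rw [mul_assoc, ← integral_mul_const]
    congr 1
    refine integral_congr_ae (Eventually.of_forall fun w => ?_)
    simp only
    unfold AllF
    simp only [Finset.prod_mul_distrib, Par.bb]
    ring
  · intro c hc g hg
    have key := core h5 C1 C2 hC1 hAll (fun A hA y => (hWG A hA y).2.1) hA hμ1 hμ2 hD hB hQ y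
      hc (s := ∅) (s' := {g}) (Finset.empty_subset _) (by simpa using hg)
    rw [Finset.sum_singleton] at key
    refine le_trans (le_of_eq ?_) key
    congr 1
    refine integral_congr_ae (Eventually.of_forall fun x => ?_)
    simp only
    rw [h1 A ∅ y x μ1 μ2 (Finset.empty_subset _), ← prod_HF A hN3 D x, ← mul_assoc]
    congr 1
    rw [mul_assoc, mul_assoc, ← integral_mul_const]
    congr 1
    refine integral_congr_ae (Eventually.of_forall fun w => ?_)
    simp only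
    unfold AllF
    have e : ∏ g' ∈ Finset.range A.J, (if g' ∈ ({g} : Finset ℕ) then
        (bp (A.r g') (A.S g') c x : ℂ) else 1) = (bp (A.r g) (A.S g) c x : ℂ) := by
      rw [Finset.prod_eq_single g]
      · simp
      · intro b _ hb
        simp [hb]
      · intro h
        exact absurd (Finset.mem_range.mpr hg) h
    simp only [Finset.prod_mul_distrib]
    rw [e]
    simp only [Finset.notMem_empty, if_false, Finset.prod_const_one, mul_one]
    ring

end Pool.Agent.Lib.GT
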