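import Mathlib
import Pool.Agent.Lib.MP_f9aece_nt_gt.StmtsZ
import Pool.Agent.Lib.MP_f9aece_nt_n4.R1

/-!
D4: sums over rough numbers.
-/

set_option autoImplicit false

namespace Pool.Agent.Lib.GT

open MeasureTheory Set Filter Topology Complex
open Pool.Agent.Lib.MP_f9aece_nt (Smo)
open Pool.Agent.Lib.MP_f9aece_nt_h85 (Rst)

namespace D4

/-- the elements of `RoS Y a` are rough and larger than `e ^ Y` -/
lemma mem_roS {Y a : ℝ} {n : ℕ} (hn : n ∈ RoS Y a) :
    n ∈ Smo (Rst 2 Y) ∧ Y < Real.log n ∧ Real.log n ≤ a := by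
  classical
  unfold RoS at hn
  rw [Finset.mem_filter, Finset.mem_Icc] at hn
  obtain ⟨⟨h1, h2⟩, h3⟩ := hn
  have hn0 : n ≠ 0 := by omega
  have hnR : (0 : ℝ) < n := by exact_mod_cast Nat.pos_of_ne_zero hn0
  refine ⟨⟨hn0, fun p hp hd => ?_⟩, ?_, ?_⟩
  · rintro ⟨-, h5⟩
    have h4 := h3 p (Nat.mem_primeFactors.2 ⟨hp, hd, hn0⟩)
    have h6 : (p : ℝ) ≤ Real.exp Y := (Nat.le_floor_iff (Real.exp_pos Y).le).1 h5
    linarith
  · obtain ⟨p, hp, hd⟩ := Nat.exists_prime_and_dvd (by omega : n ≠ 1)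
    have h4 := h3 p (Nat.mem_primeFactors.2 ⟨hp, hd, hn0⟩)
    have h5 : (p : ℝ) ≤ n := by exact_mod_cast Nat.le_of_dvd (by omega) hd
    rw [Real.lt_log_iff_exp_lt hnR]
    linarith
  · rw [Real.log_le_iff_le_exp hnR]
    exact (Nat.le_floor_iff (Real.exp_pos a).le).1 h2

end D4

open D4

/-- D4: sums over rough numbers -/
theorem roughS : RoughS := by
  classical
  obtain ⟨C, hC, hR⟩ := N4.roughSum 2 le_rfl
  refine ⟨4 * C, by linarith, ?_⟩
  intro Y a lam hY hYa hlam
  have hY0 : 0 < Y := by linarith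
  constructor
  · have h1 := hR Y hY0.le Y a hYa (RoS Y a) fun n hn => mem_roS hn
    have h2 : ∑ n ∈ RoS Y a, (n : ℝ) ^ (-(1 : ℝ)) = ∑ n ∈ RoS Y a, (n : ℝ)⁻¹ :=
      Finset.sum_congr rfl fun n _ => Real.rpow_neg_one _
    rw [h2]
    refine h1.trans ?_
    have h3 : (a - Y + Y + 1) / (Y + 1) ≤ a / Y := by
      rw [div_le_div_iff₀ (by linarith) hY0]
      nlinarith
    have h4 : 0 ≤ a / Y := by
      have : 0 ≤ a := by linarith
      positivity
    calc C * ((a - Y + Y + 1) / (Y + 1)) ≤ C * (a / Y) :=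
          mul_le_mul_of_nonneg_left h3 (by linarith)
      _ ≤ 4 * C * (a / Y) := by nlinarith
  · intro hlY
    -- the window of `n`
    set j : ℕ → ℕ := fun n => ⌈Real.log n / Y⌉₊ - 1 with hj
    set q : ℝ := Real.exp (-(2 * lam * Y)) with hq
    have hq0 : 0 < q := Real.exp_pos _
    have hq1 : q ≤ 1 / 2 := by
      have h1 : q ≤ Real.exp (-(2 * 1)) := Real.exp_le_exp.2 (by nlinarith)
      have h2 : Real.exp (-(2 * 1)) ≤ 1 / 2 := by
        rw [Real.exp_neg, inv_le_comm₀ (Real.exp_pos _) (by norm_num)]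
        have := Real.add_one_le_exp (2 * 1 : ℝ)
        norm_num at this ⊢
        linarith
      exact h1.trans h2
    have hwin : ∀ n ∈ RoS Y a, 1 ≤ j n ∧ (j n : ℝ) * Y < Real.log n ∧ Real.log n ≤ (j n + 1 : ℝ) * Y := by
      intro n hn
      obtain ⟨-, h2, -⟩ := mem_roS hn
      have h3 : 1 < Real.log n / Y := by rw [lt_div_iff₀ hY0]; linarith
      have h4 : 1 < ⌈Real.log n / Y⌉₊ := by
        rw [Nat.lt_ceil]
        exact_mod_cast h3
      have h5 : ((j n : ℕ) : ℝ) = (⌈Real.log n / Y⌉₊ : ℝ) - 1 := by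
        rw [hj]
        push_cast [Nat.cast_sub h4.le]
        ring
      refine ⟨show 1 ≤ ⌈Real.log n / Y⌉₊ - 1 by omega, ?_, ?_⟩
      · have h6 := Nat.ceil_lt_add_one (a := Real.log n / Y) (by linarith)
        rw [h5, ← lt_div_iff₀ hY0]
        linarith
      · have h6 := Nat.le_ceil (Real.log n / Y)
        rw [h5, sub_add_cancel, ← div_le_iff₀ hY0]
        exact h6
    set K : ℕ := (RoS Y a).sup j + 1 with hK
    have hmaps : ∀ n ∈ RoS Y a, j n ∈ Finset.Ico 1 K := by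
      intro n hn
      rw [Finset.mem_Ico]
      refine ⟨(hwin n hn).1, ?_⟩
      have := Finset.le_sup (f := j) hn
      omega
    have hfib : ∀ i ∈ Finset.Ico 1 K, ∑ n ∈ (RoS Y a).filter (fun n => j n = i),
        (n : ℝ) ^ (-(1 + 2 * lam)) ≤ q ^ i * (2 * C) := by
      intro i _
      have h1 : ∀ n ∈ (RoS Y a).filter (fun n => j n = i),
          (n : ℝ) ^ (-(1 + 2 * lam)) ≤ q ^ i * (n : ℝ)⁻¹ := by
        intro n hn
        rw [Finset.mem_filter] at hn
        obtain ⟨h2, h3, h4⟩ := hwin n hn.1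
        rw [hn.2] at h3
        have hn0 : n ≠ 0 := (mem_roS hn.1).1.1
        have hnR : (0 : ℝ) < n := by exact_mod_cast Nat.pos_of_ne_zero hn0
        rw [show -(1 + 2 * lam) = -(2 * lam) + -1 by ring, Real.rpow_add hnR, Real.rpow_neg_one]
        refine mul_le_mul_of_nonneg_right ?_ (by positivity)
        rw [Real.rpow_def_of_pos hnR, hq, ← Real.exp_nat_mul]
        refine Real.exp_le_exp.2 ?_
        nlinarith
      refine (Finset.sum_le_sum h1).trans ?_
      rw [← Finset.mul_sum]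
      refine mul_le_mul_of_nonneg_left ?_ (by positivity)
      have h2 := hR Y hY0.le ((i : ℝ) * Y) ((i + 1 : ℝ) * Y) (by nlinarith)
        ((RoS Y a).filter fun n => j n = i) fun n hn => by
          rw [Finset.mem_filter] at hn
          obtain ⟨h3, h4, h5⟩ := hwin n hn.1
          rw [hn.2] at h4 h5
          exact ⟨(mem_roS hn.1).1, h4, h5⟩
      refine h2.trans ?_
      have h3 : ((i + 1 : ℝ) * Y - (i : ℝ) * Y + Y + 1) / (Y + 1) ≤ 2 := by
        rw [div_le_iff₀ (by linarith)]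
        nlinarith
      nlinarith
    calc ∑ n ∈ RoS Y a, (n : ℝ) ^ (-(1 + 2 * lam))
        = ∑ i ∈ Finset.Ico 1 K, ∑ n ∈ (RoS Y a).filter (fun n => j n = i),
            (n : ℝ) ^ (-(1 + 2 * lam)) := (Finset.sum_fiberwise_of_maps_to hmaps _).symm
      _ ≤ ∑ i ∈ Finset.Ico 1 K, q ^ i * (2 * C) := Finset.sum_le_sum hfib
      _ = (∑ i ∈ Finset.Ico 1 K, q ^ i) * (2 * C) := by rw [Finset.sum_mul]
      _ ≤ (q ^ 1 / (1 - q)) * (2 * C) := by
          refine mul_le_mul_of_nonneg_right ?_ (by linarith)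
          exact geom_sum_Ico_le_of_lt_one hq0.le (by linarith)
      _ ≤ (2 * q) * (2 * C) := by
          refine mul_le_mul_of_nonneg_right ?_ (by linarith)
          rw [pow_one, div_le_iff₀ (by linarith)]
          nlinarith
      _ = 4 * C * q := by ring

end Pool.Agent.Lib.GT
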