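import Mathlib
import Pool.Agent.Lib.MP_f9aece_nt_gt.Stmts

/-!
Gaussian tails of `log |zeta|`, module N3: the variance.
-/

set_option autoImplicit false

namespace Pool.Agent.Lib.GT

open Pool.Agent.Lib.MP_f9aece_nt (VV)
open Pool.Agent.Lib.J4 (Jok)

lemma U_eq_Pall' (A : Par) (hp : 1 ≤ A.p0) (hJ : Jok A.v A.p0 A.Y A.J) :
    A.U = MP_f9aece_nt_h6.Pall A.Y A.p0 := by
  have h1 : A.U = (Finset.range A.J).biUnion (MP_f9aece_nt_h6.Sg A.Y (A.v : ℝ) A.p0) := by
    unfold Par.U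
    congr 1
    funext g
    exact J4.Sg_eq _ _ _ _
  rw [h1]
  apply MP_f9aece_nt_h6.biUnion_eq_Pall
  · exact hp
  · have := hJ.1
    rwa [J4.Yg_eq] at this

lemma U_eq_Pall (A : Par) (hA : A.Ok) : A.U = MP_f9aece_nt_h6.Pall A.Y A.p0 := by
  refine U_eq_Pall' A ?_ hA.hJ
  have := hA.hp
  omega

/-- the variance, without the assumptions on the tilt -/
theorem variance' : ∃ C : ℝ, 0 ≤ C ∧ ∀ A : Par, 4 ≤ A.v → 1000 ≤ A.p0 → 1 ≤ A.Y →
    Jok A.v A.p0 A.Y A.J → 0 ≤ A.lam → A.lam ≤ 1 →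
    |A.vt - Real.log A.Y| ≤ C + Real.log A.p0 + C * (A.lam * A.Y) := by
  refine ⟨6, by norm_num, fun A _ hp hY hJ hl _ => ?_⟩
  have hU := U_eq_Pall' A (by omega) hJ
  have hlp : 0 ≤ Real.log A.p0 := Real.log_natCast_nonneg _
  have hlY : 0 ≤ A.lam * A.Y := mul_nonneg hl (by linarith)
  have h1 := MP_f9aece_nt_h6.VV_Pall_ge (p0 := A.p0) hY
  have h2 := MP_f9aece_nt_h6.VV_Pall_le (p0 := A.p0) hY
  rw [← hU] at h1 h2
  -- the terms
  have hsq : ∀ p ∈ A.U, A.h p ^ 2 = (p : ℝ)⁻¹ * Real.exp (-(2 * A.lam * Real.log p)) := by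
    intro p hp
    rw [hU] at hp
    have hp0 : (0 : ℝ) < p := by exact_mod_cast (MP_f9aece_nt_h6.mem_Pall.mp hp).2.1.pos
    unfold Par.h
    rw [← Real.rpow_natCast, ← Real.rpow_mul hp0.le, ← Real.rpow_neg_one, Real.rpow_def_of_pos hp0,
      Real.rpow_def_of_pos hp0, ← Real.exp_add]
    congr 1
    push_cast
    ring
  have hub : A.vt ≤ VV A.U := by
    unfold Par.vt VV
    refine Finset.sum_le_sum fun p hp => ?_
    rw [hsq p hp]
    have hp' := hp
    rw [hU] at hp'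
    have hp1 : (1 : ℝ) ≤ p := by exact_mod_cast (MP_f9aece_nt_h6.mem_Pall.mp hp').2.1.one_le
    have hlog : 0 ≤ Real.log p := Real.log_nonneg hp1
    apply mul_le_of_le_one_right (by positivity)
    rw [Real.exp_le_one_iff]
    have : 0 ≤ 2 * A.lam * Real.log p := by positivity
    linarith
  have hlb : VV A.U - 2 * A.lam * (A.Y + Real.log 4) ≤ A.vt := by
    have h3 : VV A.U - 2 * A.lam * ∑ p ∈ A.U, Real.log p / p ≤ A.vt := by
      unfold Par.vt VV
      rw [Finset.mul_sum, ← Finset.sum_sub_distrib]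
      refine Finset.sum_le_sum fun p hp => ?_
      rw [hsq p hp]
      have hp' := hp
      rw [hU] at hp'
      have hp0 : (0 : ℝ) < p := by exact_mod_cast (MP_f9aece_nt_h6.mem_Pall.mp hp').2.1.pos
      have h4 := Real.add_one_le_exp (-(2 * A.lam * Real.log p))
      have h5 : (p : ℝ)⁻¹ * (-(2 * A.lam * Real.log p) + 1) ≤
          (p : ℝ)⁻¹ * Real.exp (-(2 * A.lam * Real.log p)) :=
        mul_le_mul_of_nonneg_left h4 (by positivity)
      calc (p : ℝ)⁻¹ - 2 * A.lam * (Real.log p / p)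
          = (p : ℝ)⁻¹ * (-(2 * A.lam * Real.log p) + 1) := by
            field_simp
            ring
        _ ≤ _ := h5
    have hn : 1 ≤ ⌊Real.exp A.Y⌋₊ := by
      apply Nat.le_floor
      simpa using Real.one_le_exp (by linarith : (0 : ℝ) ≤ A.Y)
    have h6 : ∑ p ∈ A.U, Real.log p / p ≤ A.Y + Real.log 4 := by
      have hsub : A.U ⊆ (Finset.Ioc 0 ⌊Real.exp A.Y⌋₊).filter Nat.Prime := by
        intro p hp
        rw [hU] at hp
        obtain ⟨h7, h8, -⟩ := MP_f9aece_nt_h6.mem_Pall.mp hp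
        rw [Finset.mem_filter, Finset.mem_Ioc]
        exact ⟨⟨h8.pos, (Finset.mem_Icc.mp h7).2⟩, h8⟩
      have h7 : ∑ p ∈ A.U, Real.log p / p
          ≤ ∑ p ∈ Finset.Ioc 0 ⌊Real.exp A.Y⌋₊ with p.Prime, Real.log p / p :=
        Finset.sum_le_sum_of_subset_of_nonneg hsub fun p _ _ =>
          div_nonneg (Real.log_natCast_nonneg p) (Nat.cast_nonneg p)
      have h8 := MP_f9aece_nt.sum_log_div_le hn
      have h9 : Real.log ⌊Real.exp A.Y⌋₊ ≤ A.Y := by
        rw [Real.log_le_iff_le_exp (by exact_mod_cast hn)]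
        exact Nat.floor_le (Real.exp_pos _).le
      linarith
    have h7 : 2 * A.lam * ∑ p ∈ A.U, Real.log p / p ≤ 2 * A.lam * (A.Y + Real.log 4) :=
      mul_le_mul_of_nonneg_left h6 (by positivity)
    linarith
  have hl4 : Real.log 4 ≤ 3 / 2 := by
    have h := Real.log_two_lt_d9
    have : Real.log 4 = 2 * Real.log 2 := by
      rw [show (4 : ℝ) = 2 ^ 2 by norm_num, Real.log_pow]; norm_num
    linarith
  have h8 : 2 * A.lam * (A.Y + Real.log 4) ≤ 6 * (A.lam * A.Y) := by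
    have : A.lam * Real.log 4 ≤ A.lam * (3 / 2 * A.Y) := by
      apply mul_le_mul_of_nonneg_left _ hl
      linarith
    nlinarith
  rw [abs_le]
  constructor
  · linarith
  · linarith

theorem variance : Variance := by
  obtain ⟨C, hC, h⟩ := variance'
  exact ⟨C, hC, fun A hA => h A hA.hv hA.hp hA.hY hA.hJ hA.hl hA.hl1⟩

end Pool.Agent.Lib.GT
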