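import Mathlib
import Pool.Agent.Lib.MP_f9aece_nt_gt.D6a
import Pool.Agent.Lib.MP_f9aece_nt_gt.N3

/-!
Gaussian tails of `log |zeta|`: the Euler factors at the small primes, the data of module D6.
-/

set_option autoImplicit false

namespace Pool.Agent.Lib.GT.D6

open MeasureTheory Set Filter Topology Complex ProbabilityTheory
open scoped ComplexConjugate

/-- the coefficients of the Euler factors -/
noncomputable def af (A : Par) (u : ℝ) (p : ℕ) : ℂ := (p : ℂ) ^ (-(1 / 2 + A.lam + I * u) : ℂ)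

lemma af_eq (A : Par) (u : ℝ) {p : ℕ} (hp : 0 < p) :
    af A u p = (A.h p : ℂ) * (p : ℂ) ^ (-(I * u) : ℂ) := by
  unfold af Par.h
  have hp0 : (p : ℂ) ≠ 0 := by exact_mod_cast hp.ne'
  rw [Complex.ofReal_cpow (Nat.cast_nonneg p), ← Complex.ofReal_natCast, ← Complex.cpow_add _ _
    (by exact_mod_cast hp.ne')]
  congr 1
  push_cast
  ring

lemma cpow_iu (u : ℝ) {p : ℕ} (hp : 0 < p) :
    (p : ℂ) ^ (-(I * u) : ℂ) = cexp (I * ((-(u * Real.log p) : ℝ) : ℂ)) := by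
  have hp0 : (p : ℂ) ≠ 0 := by exact_mod_cast hp.ne'
  rw [Complex.cpow_def_of_ne_zero hp0, ← Complex.ofReal_natCast, ← Complex.ofReal_log
    (Nat.cast_nonneg p)]
  congr 1
  push_cast
  ring

lemma norm_cpow_iu (u : ℝ) {p : ℕ} (hp : 0 < p) : ‖(p : ℂ) ^ (-(I * u) : ℂ)‖ = 1 := by
  rw [cpow_iu u hp, mul_comm, Complex.norm_exp_ofReal_mul_I]

lemma norm_cpow_iu_sub_one (u : ℝ) {p : ℕ} (hp : 0 < p) :
    ‖(p : ℂ) ^ (-(I * u) : ℂ) - 1‖ ≤ |u| * Real.log p := by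
  rw [cpow_iu u hp]
  refine Real.norm_exp_I_mul_ofReal_sub_one_le.trans ?_
  rw [Real.norm_eq_abs, abs_neg, abs_mul, abs_of_nonneg (Real.log_natCast_nonneg p)]

lemma h_nonneg (A : Par) (p : ℕ) : 0 ≤ A.h p := by unfold Par.h; positivity

lemma norm_af (A : Par) (u : ℝ) {p : ℕ} (hp : 0 < p) : ‖af A u p‖ = A.h p := by
  rw [af_eq A u hp, norm_mul, norm_cpow_iu u hp, mul_one, Complex.norm_real, Real.norm_eq_abs,
    abs_of_nonneg (h_nonneg A p)]

lemma h_le (A : Par) (hl : 0 ≤ A.lam) {p : ℕ} (hp : 1 ≤ p) : A.h p ≤ 1 / Real.sqrt p := by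
  unfold Par.h
  have hp1 : (1 : ℝ) ≤ p := by exact_mod_cast hp
  have h2 : 1 / Real.sqrt p = (p : ℝ) ^ (-(1 / 2) : ℝ) := by
    rw [Real.sqrt_eq_rpow, Real.rpow_neg (by linarith), one_div ((p : ℝ) ^ (1 / 2 : ℝ))]
  rw [h2]
  apply Real.rpow_le_rpow_of_exponent_le hp1
  linarith

lemma h_le_34 (A : Par) (hl : 0 ≤ A.lam) {p : ℕ} (hp : 2 ≤ p) : A.h p ≤ 3 / 4 := by
  refine (h_le A hl (by omega)).trans ?_
  have h2 : (4 / 3 : ℝ) ≤ Real.sqrt p := by
    apply Real.le_sqrt_of_sq_le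
    have : (2 : ℝ) ≤ p := by exact_mod_cast hp
    norm_num
    linarith
  rw [div_le_iff₀ (by linarith)]
  linarith

lemma norm_af_lt (A : Par) (hl : 0 ≤ A.lam) (u : ℝ) {p : ℕ} (hp : 2 ≤ p) : ‖af A u p‖ < 1 := by
  rw [norm_af A u (by omega)]
  have := h_le_34 A hl hp
  linarith

lemma norm_h_lt (A : Par) (hl : 0 ≤ A.lam) {p : ℕ} (hp : 2 ≤ p) : ‖(A.h p : ℂ)‖ < 1 := by
  rw [Complex.norm_real, Real.norm_eq_abs, abs_of_nonneg (h_nonneg A p)]
  have := h_le_34 A hl hp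
  linarith

lemma af_bound (A : Par) (hl : 0 ≤ A.lam) (u : ℝ) (p : ℕ) : ‖af A u p‖ ≤ 1 / Real.sqrt p := by
  rcases Nat.eq_zero_or_pos p with h | h
  · subst h
    unfold af
    rw [Nat.cast_zero, Complex.zero_cpow]
    · simp
    · intro h0
      have h1 := congrArg Complex.re h0
      simp at h1
      linarith
  · rw [norm_af A u h]
    exact h_le A hl h

/-- the small primes -/
noncomputable def Sm (A : Par) : Finset ℕ := (Finset.Icc 1 A.p0).filter Nat.Prime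

lemma mem_Sm {A : Par} {p : ℕ} : p ∈ Sm A ↔ (1 ≤ p ∧ p ≤ A.p0) ∧ p.Prime := by
  unfold Sm
  rw [Finset.mem_filter, Finset.mem_Icc]

/-- the Euler factors of the small primes with the mollifier -/
noncomputable def Qs (A : Par) (u : ℝ) (x : Om) : ℂ :=
  ∏ p ∈ Sm A, ((1 - (A.h p : ℂ) * e1 (x p)) * fac (af A u p) (x p))

lemma cont_Qs (A : Par) (hl : 0 ≤ A.lam) (u : ℝ) : Continuous (Qs A u) := by
  unfold Qs
  refine continuous_finsetProd _ fun p hp => ?_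
  have hp2 : 2 ≤ p := (mem_Sm.mp hp).2.two_le
  exact (continuous_const.sub (continuous_const.mul (continuous_e1.comp (continuous_apply p)))).mul
    ((cont_fac (norm_af_lt A hl u hp2)).comp (continuous_apply p))

lemma dep_Qs (A : Par) (u : ℝ) : Dep {p : ℕ | p ≤ A.p0} (Qs A u) := by
  unfold Qs
  refine dep_prod fun p hp => ?_
  exact (dep_coord (S := {p : ℕ | p ≤ A.p0}) (p := p) (mem_Sm.mp hp).1.2).comp
    fun t => (1 - (A.h p : ℂ) * e1 t) * fac (af A u p) t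

lemma factor_eq (A : Par) (hl : 0 ≤ A.lam) (u : ℝ) {p : ℕ} (hp : 2 ≤ p) (t : ℝ) :
    (1 - (A.h p : ℂ) * e1 t) * fac (af A u p) t
      = 1 + (af A u p - A.h p) * e1 t * fac (af A u p) t := by
  unfold fac
  have h := mul_inv_cancel₀ (one_sub_ne (norm_af_lt A hl u hp) t)
  linear_combination h

lemma norm_dev (A : Par) (hl : 0 ≤ A.lam) (u : ℝ) {p : ℕ} (hp : 2 ≤ p) (t : ℝ) :
    ‖(af A u p - A.h p) * e1 t * fac (af A u p) t‖ ≤ 4 * ‖(p : ℂ) ^ (-(I * u) : ℂ) - 1‖ := by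
  have hp0 : 0 < p := by omega
  have h1 : af A u p - A.h p = (A.h p : ℂ) * ((p : ℂ) ^ (-(I * u) : ℂ) - 1) := by
    rw [af_eq A u hp0]; ring
  have h34 := h_le_34 A hl hp
  have h0 := h_nonneg A p
  have h2 : ‖fac (af A u p) t‖ ≤ 4 := by
    refine (norm_fac_le (norm_af_lt A hl u hp) t).trans ?_
    rw [norm_af A u hp0]
    have h3 : (1 : ℝ) / 4 ≤ 1 - A.h p := by linarith
    calc (1 - A.h p)⁻¹ ≤ (1 / 4 : ℝ)⁻¹ := inv_anti₀ (by norm_num) h3
      _ = 4 := by norm_num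
  rw [norm_mul, norm_mul, norm_e1, mul_one, h1, norm_mul, Complex.norm_real, Real.norm_eq_abs,
    abs_of_nonneg h0]
  have h3 : 0 ≤ ‖(p : ℂ) ^ (-(I * u) : ℂ) - 1‖ := norm_nonneg _
  calc A.h p * ‖(p : ℂ) ^ (-(I * u) : ℂ) - 1‖ * ‖fac (af A u p) t‖
      ≤ 1 * ‖(p : ℂ) ^ (-(I * u) : ℂ) - 1‖ * 4 := by
        apply mul_le_mul _ h2 (norm_nonneg _) (by positivity)
        exact mul_le_mul_of_nonneg_right (by linarith) h3
    _ = _ := by ring

lemma exp_sub_one_le {s : ℝ} : Real.exp s - 1 ≤ s * Real.exp s := by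
  have h := Real.add_one_le_exp (-s)
  have h2 : Real.exp s * Real.exp (-s) = 1 := by rw [← Real.exp_add]; simp
  have h3 : Real.exp s * (-s + 1) ≤ Real.exp s * Real.exp (-s) :=
    mul_le_mul_of_nonneg_left h (Real.exp_pos s).le
  nlinarith

/-- the constant for the small primes -/
noncomputable def K0 (p0 : ℕ) : ℝ := 4 * (p0 : ℝ) ^ 2 * Real.exp (8 * p0)

lemma Qs_sub_one (A : Par) (hl : 0 ≤ A.lam) (u : ℝ) (x : Om) :
    ‖Qs A u x - 1‖ ≤ K0 A.p0 * |u| ∧ ‖Qs A u x‖ ≤ Real.exp (8 * A.p0) := by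
  have hcard : ((Sm A).card : ℝ) ≤ A.p0 := by
    have h1 : (Sm A).card ≤ (Finset.Icc 1 A.p0).card := Finset.card_filter_le _ _
    rw [Nat.card_Icc] at h1
    exact_mod_cast (by omega : (Sm A).card ≤ A.p0)
  set z : ℕ → ℂ := fun p => (af A u p - A.h p) * e1 (x p) * fac (af A u p) (x p) with hz
  have hQ : Qs A u x = ∏ p ∈ Sm A, (1 + z p) := by
    unfold Qs
    exact Finset.prod_congr rfl fun p hp => factor_eq A hl u (mem_Sm.mp hp).2.two_le (x p)
  have hb1 : ∑ p ∈ Sm A, ‖z p‖ ≤ 4 * (A.p0 : ℝ) ^ 2 * |u| := by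
    calc ∑ p ∈ Sm A, ‖z p‖ ≤ ∑ _p ∈ Sm A, 4 * (|u| * A.p0) := by
          refine Finset.sum_le_sum fun p hp => ?_
          obtain ⟨⟨h1, h2⟩, h3⟩ := mem_Sm.mp hp
          refine (norm_dev A hl u h3.two_le (x p)).trans ?_
          have h4 := norm_cpow_iu_sub_one u h3.pos
          have h5 : Real.log p ≤ A.p0 := by
            have h6 : (0 : ℝ) < p := by exact_mod_cast h3.pos
            have h7 := Real.log_le_sub_one_of_pos h6
            have h8 : (p : ℝ) ≤ A.p0 := by exact_mod_cast h2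
            linarith
          have h6 : |u| * Real.log p ≤ |u| * A.p0 := mul_le_mul_of_nonneg_left h5 (abs_nonneg u)
          linarith
      _ = (Sm A).card * (4 * (|u| * A.p0)) := by rw [Finset.sum_const, nsmul_eq_mul]
      _ ≤ A.p0 * (4 * (|u| * A.p0)) := mul_le_mul_of_nonneg_right hcard (by positivity)
      _ = _ := by ring
  have hb2 : ∑ p ∈ Sm A, ‖z p‖ ≤ 8 * A.p0 := by
    calc ∑ p ∈ Sm A, ‖z p‖ ≤ ∑ _p ∈ Sm A, (8 : ℝ) := by
          refine Finset.sum_le_sum fun p hp => ?_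
          obtain ⟨⟨h1, h2⟩, h3⟩ := mem_Sm.mp hp
          refine (norm_dev A hl u h3.two_le (x p)).trans ?_
          have h4 : ‖(p : ℂ) ^ (-(I * u) : ℂ) - 1‖ ≤ 2 := by
            refine (norm_sub_le _ _).trans ?_
            rw [norm_cpow_iu u h3.pos, norm_one]
            norm_num
          linarith
      _ = (Sm A).card * 8 := by rw [Finset.sum_const, nsmul_eq_mul]
      _ ≤ A.p0 * 8 := mul_le_mul_of_nonneg_right hcard (by norm_num)
      _ = _ := by ring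
  have hs0 : 0 ≤ ∑ p ∈ Sm A, ‖z p‖ := Finset.sum_nonneg fun p _ => norm_nonneg _
  have h1 := Finset.norm_prod_one_add_sub_one_le (Sm A) z
  rw [← hQ] at h1
  have h2 : Real.exp (∑ p ∈ Sm A, ‖z p‖) ≤ Real.exp (8 * A.p0) := Real.exp_le_exp.mpr hb2
  refine ⟨?_, ?_⟩
  · refine h1.trans (exp_sub_one_le.trans ?_)
    calc (∑ p ∈ Sm A, ‖z p‖) * Real.exp (∑ p ∈ Sm A, ‖z p‖)
        ≤ (4 * (A.p0 : ℝ) ^ 2 * |u|) * Real.exp (8 * A.p0) :=
          mul_le_mul hb1 h2 (Real.exp_pos _).le (by positivity)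
      _ = _ := by unfold K0; ring
  · have h3 : ‖Qs A u x‖ ≤ ‖Qs A u x - 1‖ + 1 := by
      have h4 := norm_add_le (Qs A u x - 1) 1
      rwa [sub_add_cancel, norm_one] at h4
    linarith

/-- the constant for the small primes, both data -/
noncomputable def K1 (p0 : ℕ) : ℝ := K0 p0 * (Real.exp (8 * p0) + 1)

lemma K0_nonneg (p0 : ℕ) : 0 ≤ K0 p0 := by unfold K0; positivity

lemma K1_nonneg (p0 : ℕ) : 0 ≤ K1 p0 := by
  unfold K1
  have := K0_nonneg p0
  positivity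

lemma Qs_bd (A : Par) (hl : 0 ≤ A.lam) (u : ℝ) (x : Om) :
    ‖Qs A u x - 1‖ ≤ K1 A.p0 * |u| ∧ ‖((‖Qs A u x‖ ^ 2 : ℝ) : ℂ) - 1‖ ≤ K1 A.p0 * |u| := by
  obtain ⟨h1, h2⟩ := Qs_sub_one A hl u x
  have hK := K0_nonneg A.p0
  have he : 1 ≤ Real.exp (8 * (A.p0 : ℝ)) := Real.one_le_exp (by positivity)
  refine ⟨h1.trans ?_, ?_⟩
  · apply mul_le_mul_of_nonneg_right _ (abs_nonneg u)
    unfold K1
    nlinarith
  · have h3 : ((‖Qs A u x‖ ^ 2 : ℝ) : ℂ) - 1 = ((‖Qs A u x‖ ^ 2 - 1 : ℝ) : ℂ) := by push_cast; ring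
    rw [h3, Complex.norm_real, Real.norm_eq_abs]
    have h4 : ‖Qs A u x‖ ^ 2 - 1 = (‖Qs A u x‖ - 1) * (‖Qs A u x‖ + 1) := by ring
    rw [h4, abs_mul, abs_of_nonneg (by positivity : 0 ≤ ‖Qs A u x‖ + 1)]
    have h5 : |‖Qs A u x‖ - 1| ≤ K0 A.p0 * |u| := by
      have h6 := abs_norm_sub_norm_le (Qs A u x) 1
      rw [norm_one] at h6
      exact h6.trans h1
    calc |‖Qs A u x‖ - 1| * (‖Qs A u x‖ + 1)
        ≤ (K0 A.p0 * |u|) * (Real.exp (8 * A.p0) + 1) :=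
          mul_le_mul h5 (by linarith) (by positivity) (by positivity)
      _ = _ := by unfold K1; ring

lemma small_Qs (A : Par) (hl : 0 ≤ A.lam) (u : ℝ) : Small A (1 + K1 A.p0 * |u|) (Qs A u) := by
  refine ⟨(cont_Qs A hl u).measurable, dep_Qs A u, fun x => ?_⟩
  have h := (Qs_bd A hl u x).1
  have h4 := norm_add_le (Qs A u x - 1) 1
  rw [sub_add_cancel, norm_one] at h4
  linarith

lemma small_Qs2 (A : Par) (hl : 0 ≤ A.lam) (u : ℝ) :
    Small A (1 + K1 A.p0 * |u|) (fun x => ((‖Qs A u x‖ ^ 2 : ℝ) : ℂ)) := by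
  refine ⟨(Complex.continuous_ofReal.comp ((cont_Qs A hl u).norm.pow 2)).measurable,
    (dep_Qs A u).comp fun q : ℂ => ((‖q‖ ^ 2 : ℝ) : ℂ), fun x => ?_⟩
  have h := (Qs_bd A hl u x).2
  have h4 := norm_add_le (((‖Qs A u x‖ ^ 2 : ℝ) : ℂ) - 1) 1
  rw [sub_add_cancel, norm_one] at h4
  linarith

/-! ### the large primes -/

/-- the Euler factors of the primes of the groups -/
noncomputable def FU (A : Par) (u : ℝ) (x : Om) : ℂ := ∏ p ∈ A.U, fac (af A u p) (x p)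

lemma U_prime {A : Par} (hA : A.Ok) {p : ℕ} (hp : p ∈ A.U) : p.Prime := by
  rw [U_eq_Pall A hA] at hp
  exact (MP_f9aece_nt_h6.mem_Pall.mp hp).2.1

lemma cont_FU {A : Par} (hA : A.Ok) (u : ℝ) : Continuous (FU A u) := by
  unfold FU
  refine continuous_finsetProd _ fun p hp => ?_
  exact (cont_fac (norm_af_lt A hA.hl u (U_prime hA hp).two_le)).comp (continuous_apply p)

lemma FU_bd {A : Par} (hA : A.Ok) (u : ℝ) (x : Om) :
    ‖FU A u x‖ ≤ ∏ p ∈ A.U, (1 - ‖af A u p‖)⁻¹ := by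
  unfold FU
  rw [norm_prod]
  exact Finset.prod_le_prod (fun p _ => norm_nonneg _) fun p hp =>
    norm_fac_le (norm_af_lt A hA.hl u (U_prime hA hp).two_le) (x p)

lemma F_eq {A : Par} (hA : A.Ok) (u : ℝ) (x : Om) :
    A.F A.lam u x * A.Msm x = FU A u x * Qs A u x := by
  -- the set of the small primes is contained in the range of the product
  have hp0 : A.p0 ≤ ⌊Real.exp A.Y⌋₊ := by
    by_contra hcon
    rw [not_le] at hcon
    have hU : A.U = ∅ := by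
      rw [U_eq_Pall A hA, Finset.eq_empty_iff_forall_notMem]
      intro p hp
      obtain ⟨h1, h2, h3⟩ := MP_f9aece_nt_h6.mem_Pall.mp hp
      rw [Finset.mem_Icc] at h1
      omega
    have h1 := hA.hs
    unfold Par.s2 Par.vt at h1
    rw [hU] at h1
    simp at h1
    linarith
  have hset : (Finset.Icc 1 ⌊Real.exp A.Y⌋₊).filter Nat.Prime = Sm A ∪ A.U := by
    ext p
    rw [Finset.mem_filter, Finset.mem_Icc, Finset.mem_union, mem_Sm, U_eq_Pall A hA,
      MP_f9aece_nt_h6.mem_Pall, Finset.mem_Icc]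
    constructor
    · rintro ⟨⟨h1, h2⟩, h3⟩
      rcases le_or_gt p A.p0 with h | h
      · exact Or.inl ⟨⟨h1, h⟩, h3⟩
      · exact Or.inr ⟨⟨h1, h2⟩, h3, h⟩
    · rintro (⟨⟨h1, h2⟩, h3⟩ | ⟨⟨h1, h2⟩, h3, -⟩)
      · exact ⟨⟨h1, h2.trans hp0⟩, h3⟩
      · exact ⟨⟨h1, h2⟩, h3⟩
  have hdis : Disjoint (Sm A) A.U := by
    rw [Finset.disjoint_left]
    intro p h1 h2
    rw [U_eq_Pall A hA, MP_f9aece_nt_h6.mem_Pall] at h2
    have := (mem_Sm.mp h1).1.2
    omega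
  have hF : A.F A.lam u x = (∏ p ∈ Sm A, fac (af A u p) (x p)) * FU A u x := by
    unfold Par.F FU
    rw [hset, Finset.prod_union hdis]
    rfl
  rw [hF]
  have hQ : Qs A u x = (∏ p ∈ Sm A, (1 - (A.h p : ℂ) * e1 (x p))) *
      ∏ p ∈ Sm A, fac (af A u p) (x p) := by
    unfold Qs
    rw [Finset.prod_mul_distrib]
  have hM : A.Msm x = ∏ p ∈ Sm A, (1 - (A.h p : ℂ) * e1 (x p)) := rfl
  rw [hQ, hM]
  ring

/-! ### the data -/

/-- data of the second moment -/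
noncomputable def D1 (A : Par) (u : ℝ) : Dat := ⟨fun _ => 0, fun _ => 0, af A u, fun p => conj (af A u p)⟩

/-- data of the first moment -/
noncomputable def D2 (A : Par) (u : ℝ) : Dat := ⟨fun _ => 0, fun _ => 0, af A u, fun _ => 0⟩

/-- data of the mass -/
noncomputable def D3 : Dat := ⟨fun _ => 0, fun _ => 0, fun _ => 0, fun _ => 0⟩

lemma ok1 (A : Par) (hl : 0 ≤ A.lam) (u : ℝ) : (D1 A u).Ok := by
  intro p
  have h := af_bound A hl u p
  refine ⟨?_, ?_, h, ?_⟩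
  · simp only [D1, norm_zero]; positivity
  · simp only [D1, norm_zero]; positivity
  · simp only [D1, RCLike.norm_conj]; exact h

lemma ok2 (A : Par) (hl : 0 ≤ A.lam) (u : ℝ) : (D2 A u).Ok := by
  intro p
  have h := af_bound A hl u p
  refine ⟨?_, ?_, h, ?_⟩
  · simp only [D2, norm_zero]; positivity
  · simp only [D2, norm_zero]; positivity
  · simp only [D2, norm_zero]; positivity

lemma ok3 : D3.Ok := by
  intro p
  simp only [D3, norm_zero]
  refine ⟨?_, ?_, ?_, ?_⟩ <;> positivity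

lemma HF1 (A : Par) (u : ℝ) (x : Om) : HF A.U (D1 A u) x = FU A u x * conj (FU A u x) := by
  unfold HF FU D1
  simp only [zero_mul, add_zero, Finset.sum_const_zero, Complex.exp_zero, one_mul]
  rw [map_prod, ← Finset.prod_mul_distrib]
  refine Finset.prod_congr rfl fun p _ => ?_
  rw [conj_fac]
  rfl

lemma HF2 (A : Par) (u : ℝ) (x : Om) : HF A.U (D2 A u) x = FU A u x := by
  unfold HF FU D2
  simp only [zero_mul, add_zero, Finset.sum_const_zero, Complex.exp_zero, one_mul, sub_zero, inv_one,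
    mul_one]
  rfl

lemma HF3 (A : Par) (x : Om) : HF A.U D3 x = 1 := by
  unfold HF D3
  simp

/-- the linear term of the exponent -/
noncomputable def SS (A : Par) (u : ℝ) : ℂ := ∑ p ∈ A.U, (A.h p : ℂ) * (af A u p - A.h p)

/-- the quadratic term of the exponent -/
noncomputable def R2 (A : Par) (u : ℝ) : ℝ := ∑ p ∈ A.U, ‖af A u p - A.h p‖ ^ 2

lemma sab3 (A : Par) (z z' : ℂ) :
    sab A.U A.h z z' 0 0 D3 = (z + conj z') ^ 2 * A.vt / 4 := by
  unfold sab D3 Par.vt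
  push_cast
  rw [Finset.mul_sum, Finset.sum_div]
  refine Finset.sum_congr rfl fun p _ => ?_
  rw [map_zero]
  ring

lemma sab2 (A : Par) (u : ℝ) (z z' : ℂ) :
    sab A.U A.h z z' (-1) 0 (D2 A u) = (z + conj z') ^ 2 * A.vt / 4 + (z + conj z') / 2 * SS A u := by
  unfold sab D2 Par.vt SS
  push_cast
  rw [Finset.mul_sum, Finset.mul_sum, Finset.sum_div, ← Finset.sum_add_distrib]
  refine Finset.sum_congr rfl fun p _ => ?_
  rw [map_zero]
  ring

lemma sab1 (A : Par) (u : ℝ) (z z' : ℂ) :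
    sab A.U A.h z z' (-1) (-1) (D1 A u) = (z + conj z') ^ 2 * A.vt / 4
      + ((z + conj z') / 2 * (SS A u + conj (SS A u)) + R2 A u) := by
  have h1 : (R2 A u : ℂ) = ∑ p ∈ A.U, (af A u p - A.h p) * (conj (af A u p) - A.h p) := by
    unfold R2
    push_cast
    refine Finset.sum_congr rfl fun p _ => ?_
    rw [← Complex.mul_conj', map_sub, Complex.conj_ofReal]
  rw [h1]
  unfold sab D1 Par.vt SS
  push_cast
  rw [map_sum, Finset.mul_sum, ← Finset.sum_add_distrib, Finset.mul_sum, Finset.sum_div,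
    ← Finset.sum_add_distrib, ← Finset.sum_add_distrib]
  refine Finset.sum_congr rfl fun p _ => ?_
  rw [map_neg, map_one, map_mul, map_sub, Complex.conj_ofReal]
  ring

end Pool.Agent.Lib.GT.D6
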