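import Mathlib
import Pool.Agent.Lib.MP_f9aece_nt_gt.D6b
import Pool.Agent.Lib.MP_f9aece_nt_gt.StmtsZ

/-!
Gaussian tails of `log |zeta|`, module D6: the Euler products and the mollifier under the tilt.
-/

set_option autoImplicit false

namespace Pool.Agent.Lib.GT.D6

open MeasureTheory Set Filter Topology Complex ProbabilityTheory
open scoped ComplexConjugate

/-- the sum of the tilts -/
noncomputable def zt (A : Par) (w : ℝ × ℝ) : ℂ := A.zz w.1 + conj (A.zz w.2)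

lemma zz_eq (A : Par) (η : ℝ) : A.zz η = ((A.be / 2 : ℝ) : ℂ) + ((A.b * η : ℝ) : ℂ) * I := by
  unfold Par.zz
  push_cast
  ring

lemma zt_re (A : Par) (w : ℝ × ℝ) : (zt A w).re = A.be := by
  unfold zt
  rw [zz_eq, zz_eq, Complex.add_re, Complex.conj_re, Complex.add_re, Complex.add_re,
    Complex.re_ofReal_mul, Complex.re_ofReal_mul, Complex.I_re, Complex.ofReal_re]
  ring

lemma zt_im (A : Par) (w : ℝ × ℝ) : (zt A w).im = A.b * (w.1 - w.2) := by
  unfold zt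
  rw [zz_eq, zz_eq, Complex.add_im, Complex.conj_im, Complex.add_im, Complex.add_im,
    Complex.im_ofReal_mul, Complex.im_ofReal_mul, Complex.I_im, Complex.ofReal_im]
  ring

lemma cont_zt (A : Par) : Continuous (zt A) := by
  unfold zt
  exact ((cont_zz A).comp continuous_fst).add
    (Complex.continuous_conj.comp ((cont_zz A).comp continuous_snd))

lemma norm_zt_le {A : Par} (hA : A.Ok) {w : ℝ × ℝ} (h1 : |w.1| ≤ 1 / 2) (h2 : |w.2| ≤ 1 / 2) :
    ‖zt A w‖ ≤ 1 / 10 := by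
  have hbe : 0 < A.be := hA.hbe
  have hbb : A.be ≤ A.b := hA.hbb
  have hb : A.b ≤ 1 / 20 := hA.hb
  have e1 : |A.be| = A.be := abs_of_pos hbe
  have e2 : |A.b| = A.b := abs_of_pos (hbe.trans_le hbb)
  have h3 := norm_zz_le A h1
  have h4 := norm_zz_le A h2
  rw [e1, e2] at h3 h4
  unfold zt
  refine (norm_add_le _ _).trans ?_
  rw [RCLike.norm_conj]
  linarith

/-- the size of the Gaussian factor -/
noncomputable def gw (A : Par) (w : ℝ × ℝ) : ℝ :=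
  Real.exp ((A.be ^ 2 - A.b ^ 2 * (w.1 - w.2) ^ 2) * A.vt / 4)

lemma sq_re (A : Par) (w : ℝ × ℝ) :
    ((zt A w) ^ 2 * A.vt / 4).re = (A.be ^ 2 - A.b ^ 2 * (w.1 - w.2) ^ 2) * A.vt / 4 := by
  have h : (zt A w) ^ 2 * A.vt / 4 = (zt A w) ^ 2 * ((A.vt / 4 : ℝ) : ℂ) := by
    push_cast; ring
  rw [h, Complex.re_mul_ofReal, sq, Complex.mul_re, zt_re, zt_im]
  ring

lemma norm_exp_sq (A : Par) (w : ℝ × ℝ) : ‖cexp ((zt A w) ^ 2 * A.vt / 4)‖ = gw A w := by
  rw [Complex.norm_exp, sq_re]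
  rfl

lemma cont_gw (A : Par) : Continuous (gw A) := by
  unfold gw
  fun_prop

lemma norm_exp_y (A : Par) (w : ℝ × ℝ) (y : ℝ) :
    ‖cexp (-((zt A w) * y))‖ = Real.exp (-(A.be * y)) := by
  rw [Complex.norm_exp, Complex.neg_re, Complex.re_mul_ofReal, zt_re]

/-- integrals against the window -/
lemma main_bd {A : Par} (hb : 0 ≤ A.b) {y C : ℝ}
    (hG : A.b / c0 * ∫ w : ℝ × ℝ, (phi w.1 * phi w.2) * Real.exp (-(A.be * y)
      + (A.be ^ 2 - A.b ^ 2 * (w.1 - w.2) ^ 2) * A.vt / 4) ∂(me.prod me) ≤ C * A.G y)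
    {F : ℝ × ℝ → ℂ} {κ : ℝ} (hκ : 0 ≤ κ)
    (hF : ∀ w : ℝ × ℝ, |w.1| ≤ 1 / 2 → |w.2| ≤ 1 / 2 → ‖F w‖ ≤ κ * gw A w) :
    ‖((A.b / c0 : ℝ) : ℂ) * ∫ w : ℝ × ℝ, ((phi w.1 * phi w.2 : ℝ) : ℂ)
      * (cexp (-((zt A w) * y)) * F w) ∂(me.prod me)‖ ≤ κ * (C * A.G y) := by
  have hc := c0_nonneg
  have hbc : 0 ≤ A.b / c0 := div_nonneg hb hc
  set E : ℝ × ℝ → ℝ := fun w => (phi w.1 * phi w.2) * Real.exp (-(A.be * y)
      + (A.be ^ 2 - A.b ^ 2 * (w.1 - w.2) ^ 2) * A.vt / 4) with hE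
  have hEc : Continuous E := by
    have h1 := cont_phi
    rw [hE]
    fun_prop
  have hEw : ∀ w, E w = (phi w.1 * phi w.2) * (Real.exp (-(A.be * y)) * gw A w) := by
    intro w
    simp only [hE, gw]
    rw [Real.exp_add]
  have h1 : ‖∫ w : ℝ × ℝ, ((phi w.1 * phi w.2 : ℝ) : ℂ)
      * (cexp (-((zt A w) * y)) * F w) ∂(me.prod me)‖ ≤ ∫ w, κ * E w ∂(me.prod me) := by
    refine norm_integral_le_of_norm_le ((integrable_me hEc).const_mul κ) ?_
    filter_upwards [ae_me2] with w hw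
    have hphi : 0 ≤ phi w.1 * phi w.2 := mul_nonneg (phi_nonneg _) (phi_nonneg _)
    rw [norm_mul, Complex.norm_real, Real.norm_eq_abs, abs_of_nonneg hphi, norm_mul, norm_exp_y, hEw]
    have h2 := hF w hw.1 hw.2
    calc phi w.1 * phi w.2 * (Real.exp (-(A.be * y)) * ‖F w‖)
        ≤ phi w.1 * phi w.2 * (Real.exp (-(A.be * y)) * (κ * gw A w)) :=
          mul_le_mul_of_nonneg_left (mul_le_mul_of_nonneg_left h2 (Real.exp_pos _).le) hphi
      _ = κ * (phi w.1 * phi w.2 * (Real.exp (-(A.be * y)) * gw A w)) := by ring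
  rw [norm_mul, Complex.norm_real, Real.norm_eq_abs, abs_of_nonneg hbc]
  calc A.b / c0 * ‖∫ w : ℝ × ℝ, ((phi w.1 * phi w.2 : ℝ) : ℂ)
      * (cexp (-((zt A w) * y)) * F w) ∂(me.prod me)‖
      ≤ A.b / c0 * ∫ w, κ * E w ∂(me.prod me) := mul_le_mul_of_nonneg_left h1 hbc
    _ = κ * (A.b / c0 * ∫ w, E w ∂(me.prod me)) := by rw [integral_const_mul]; ring
    _ ≤ κ * (C * A.G y) := mul_le_mul_of_nonneg_left hG hκ

/-- the exponential of a small or moderate number -/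
lemma exp_bd {w : ℂ} {C X g : ℝ} (hC : 0 ≤ C) (hX : 0 ≤ X) (hg : 1 ≤ g)
    (h1 : Real.exp w.re ≤ Real.exp C * g) (h2 : ‖w‖ ≤ C * (X + X ^ 2)) :
    ‖cexp w - 1‖ ≤ (2 * C * Real.exp (2 * C) + Real.exp C + 1) * (X * g) := by
  have he : 0 < Real.exp C := Real.exp_pos C
  have he2 : 0 < Real.exp (2 * C) := Real.exp_pos _
  rcases le_or_gt X 1 with h | h
  · have h3 : ‖w‖ ≤ 2 * C * X := by nlinarith [mul_nonneg hC hX]
    have h4 : ‖w‖ ≤ 2 * C := by nlinarith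
    have h5 : ‖cexp w - 1‖ ≤ ‖w‖ * Real.exp ‖w‖ := by
      have := Complex.norm_exp_sub_sum_le_norm_mul_exp w 1
      simpa using this
    have h6 : Real.exp ‖w‖ ≤ Real.exp (2 * C) := Real.exp_le_exp.mpr h4
    calc ‖cexp w - 1‖ ≤ ‖w‖ * Real.exp ‖w‖ := h5
      _ ≤ (2 * C * X) * Real.exp (2 * C) := mul_le_mul h3 h6 (Real.exp_pos _).le (by positivity)
      _ = (2 * C * Real.exp (2 * C)) * (X * 1) := by ring
      _ ≤ (2 * C * Real.exp (2 * C)) * (X * g) := by gcongr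
      _ ≤ (2 * C * Real.exp (2 * C) + Real.exp C + 1) * (X * g) := by
          apply mul_le_mul_of_nonneg_right _ (by positivity)
          linarith
  · have h5 : ‖cexp w - 1‖ ≤ Real.exp C * g + 1 := by
      refine (norm_sub_le _ _).trans ?_
      rw [Complex.norm_exp, norm_one]
      linarith
    have h6 : Real.exp C * g + 1 ≤ (Real.exp C + 1) * g := by nlinarith
    have h7 : (Real.exp C + 1) * g ≤ (Real.exp C + 1) * (X * g) := by
      apply mul_le_mul_of_nonneg_left _ (by positivity)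
      nlinarith
    refine h5.trans (h6.trans (h7.trans ?_))
    apply mul_le_mul_of_nonneg_right _ (by positivity)
    have : 0 ≤ 2 * C * Real.exp (2 * C) := by positivity
    linarith

lemma G_nonneg (A : Par) (y : ℝ) : 0 ≤ A.G y := by unfold Par.G; positivity

lemma diff_eq (A : Par) (u : ℝ) {p : ℕ} (hp : 0 < p) :
    af A u p - A.h p = (A.h p : ℂ) * ((p : ℂ) ^ (-(I * u) : ℂ) - 1) := by
  rw [af_eq A u hp]; ring

lemma SS_re_le {A : Par} (hA : A.Ok) (u : ℝ) : (SS A u).re ≤ 0 := by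
  unfold SS
  rw [Complex.re_sum]
  refine Finset.sum_nonpos fun p hp => ?_
  have hp0 := (U_prime hA hp).pos
  rw [diff_eq A u hp0, Complex.re_ofReal_mul, Complex.re_ofReal_mul, Complex.sub_re, Complex.one_re]
  have h1 : ((p : ℂ) ^ (-(I * u) : ℂ)).re ≤ 1 := by
    refine (Complex.re_le_norm _).trans ?_
    rw [norm_cpow_iu u hp0]
  have h2 := h_nonneg A p
  exact mul_nonpos_of_nonneg_of_nonpos h2 (mul_nonpos_of_nonneg_of_nonpos h2 (by linarith))

lemma norm_SS_le {A : Par} (hA : A.Ok) (u : ℝ) :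
    ‖SS A u‖ ≤ ∑ p ∈ A.U, A.h p ^ 2 * ‖(p : ℂ) ^ (-(I * u) : ℂ) - 1‖ := by
  unfold SS
  refine (norm_sum_le _ _).trans (Finset.sum_le_sum fun p hp => ?_)
  rw [diff_eq A u (U_prime hA hp).pos, norm_mul, norm_mul, Complex.norm_real, Real.norm_eq_abs,
    abs_of_nonneg (h_nonneg A p)]
  apply le_of_eq
  ring

lemma R2_eq {A : Par} (hA : A.Ok) (u : ℝ) :
    R2 A u = ∑ p ∈ A.U, ‖(A.h p : ℂ) * ((p : ℂ) ^ (-(I * u) : ℂ) - 1)‖ ^ 2 := by
  unfold R2
  exact Finset.sum_congr rfl fun p hp => by rw [diff_eq A u (U_prime hA hp).pos]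

lemma R2_eq' {A : Par} (hA : A.Ok) (u : ℝ) :
    R2 A u = ∑ p ∈ A.U, A.h p ^ 2 * ‖(p : ℂ) ^ (-(I * u) : ℂ) - 1‖ ^ 2 := by
  rw [R2_eq hA]
  refine Finset.sum_congr rfl fun p hp => ?_
  rw [norm_mul, Complex.norm_real, Real.norm_eq_abs, abs_of_nonneg (h_nonneg A p), mul_pow]

lemma R2_nonneg (A : Par) (u : ℝ) : 0 ≤ R2 A u := by
  unfold R2
  exact Finset.sum_nonneg fun p _ => by positivity

/-- exponents of the three data, without the Gaussian part -/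
noncomputable def ex1 (A : Par) (u : ℝ) (w : ℝ × ℝ) : ℂ :=
  zt A w / 2 * (SS A u + conj (SS A u)) + R2 A u

noncomputable def ex2 (A : Par) (u : ℝ) (w : ℝ × ℝ) : ℂ := zt A w / 2 * SS A u

lemma ex1_re {A : Par} (hA : A.Ok) (u : ℝ) (w : ℝ × ℝ) : (ex1 A u w).re ≤ R2 A u := by
  unfold ex1
  have h : zt A w / 2 * (SS A u + conj (SS A u)) + R2 A u
      = zt A w * (((SS A u).re : ℝ) : ℂ) + ((R2 A u : ℝ) : ℂ) := by
    rw [Complex.add_conj]
    push_cast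
    ring
  rw [h, Complex.add_re, Complex.re_mul_ofReal, zt_re, Complex.ofReal_re]
  have h1 := SS_re_le hA u
  have h2 := hA.hbe.le
  have h3 := mul_nonpos_of_nonneg_of_nonpos h2 h1
  linarith

lemma ex1_norm {A : Par} (hA : A.Ok) (u : ℝ) {w : ℝ × ℝ} (h1 : |w.1| ≤ 1 / 2) (h2 : |w.2| ≤ 1 / 2) :
    ‖ex1 A u w‖ ≤ ‖SS A u‖ + R2 A u := by
  unfold ex1
  have hz := norm_zt_le hA h1 h2
  refine (norm_add_le _ _).trans ?_
  rw [norm_mul, norm_div, Complex.norm_real, Real.norm_eq_abs, abs_of_nonneg (R2_nonneg A u)]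
  have h3 : ‖SS A u + conj (SS A u)‖ ≤ 2 * ‖SS A u‖ := by
    refine (norm_add_le _ _).trans ?_
    rw [RCLike.norm_conj]
    linarith
  have h4 : ‖(2 : ℂ)‖ = 2 := by simp
  rw [h4]
  have h5 : ‖zt A w‖ / 2 * ‖SS A u + conj (SS A u)‖ ≤ (1 / 10) / 2 * (2 * ‖SS A u‖) := by
    apply mul_le_mul _ h3 (norm_nonneg _) (by norm_num)
    linarith
  have h6 := norm_nonneg (SS A u)
  linarith

lemma ex2_norm {A : Par} (hA : A.Ok) (u : ℝ) {w : ℝ × ℝ} (h1 : |w.1| ≤ 1 / 2) (h2 : |w.2| ≤ 1 / 2) :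
    ‖ex2 A u w‖ ≤ 1 / 20 * ‖SS A u‖ := by
  unfold ex2
  have hz := norm_zt_le hA h1 h2
  rw [norm_mul, norm_div]
  have h4 : ‖(2 : ℂ)‖ = 2 := by simp
  rw [h4]
  exact mul_le_mul_of_nonneg_right (by linarith) (norm_nonneg _)

/-- the function in the mean -/
noncomputable def Zf (A : Par) (u : ℝ) (x : Om) : ℂ := FU A u x * Qs A u x * A.mo (-1) ∅ x

lemma cont_Zf {A : Par} (hA : A.Ok) (u : ℝ) : Continuous (Zf A u) := by
  unfold Zf
  exact ((cont_FU hA u).mul (cont_Qs A hA.hl u)).mul (cont_mo A (-1) ∅)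

lemma Zf_bd {A : Par} (hA : A.Ok) (u : ℝ) : ∃ C : ℝ, ∀ x, ‖Zf A u x‖ ≤ C := by
  refine ⟨(∏ p ∈ A.U, (1 - ‖af A u p‖)⁻¹) * Real.exp (8 * A.p0) *
    ∏ g ∈ Finset.range A.J \ ∅, Real.exp (‖(-1 : ℂ)‖ * ∑ p ∈ A.S g, ‖(A.h p : ℂ)‖), fun x => ?_⟩
  unfold Zf
  rw [norm_mul, norm_mul]
  have h1 := FU_bd hA u x
  have h2 := (Qs_sub_one A hA.hl u x).2
  have h3 := mo_bd A (-1) ∅ x
  have h4 : 0 ≤ ∏ p ∈ A.U, (1 - ‖af A u p‖)⁻¹ := (norm_nonneg _).trans h1
  apply mul_le_mul (mul_le_mul h1 h2 (norm_nonneg _) h4) h3 (norm_nonneg _)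
  positivity

/-- the mean of a function close to one -/
lemma mean_sub_one {Q : Om → ℂ} (hQ : Measurable Q) {κ : ℝ} (h : ∀ x, ‖Q x - 1‖ ≤ κ) :
    ‖(∫ x, Q x ∂mu) - 1‖ ≤ κ := by
  have hi : Integrable Q mu := by
    refine integrable_of_bd hQ.aestronglyMeasurable (C := κ + 1) fun x => ?_
    have h4 := norm_add_le (Q x - 1) 1
    rw [sub_add_cancel, norm_one] at h4
    linarith [h x]
  have h1 : (∫ x, Q x ∂mu) - 1 = ∫ x, (Q x - 1) ∂mu := by
    rw [integral_sub hi (integrable_const _)]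
    simp
  rw [h1]
  have h2 := norm_integral_le_of_norm_le_const (μ := mu) (f := fun x => Q x - 1) (C := κ)
    (Eventually.of_forall h)
  simpa using h2

/-- the last step -/
lemma fin_bd {Cm E Cg K4 a X K u g G : ℝ} (hCm : 0 ≤ Cm) (hE : 0 ≤ E) (hCg : 0 ≤ Cg) (hK4 : 0 ≤ K4)
    (ha : 0 ≤ a) (hX : 0 ≤ X) (hK : 0 ≤ K) (hu : 0 ≤ u) (hgG : 0 ≤ g * G) :
    4 * (Cm * (a + K * u) * (E * g) * G) + 3 * (E * g * (Cg * G) * (K * u))
      + 3 * (K4 * (X * g) * (Cg * G))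
      ≤ (1 + 3 * K4 * Cg + 4 * Cm * E + 3 * Cg * E) * (a + X + (1 + K) * u) * g * G := by
  have e : (4 * Cm * E) * (a + K * u) + (3 * Cg * E) * (K * u) + (3 * K4 * Cg) * X
      ≤ (1 + 3 * K4 * Cg + 4 * Cm * E + 3 * Cg * E) * (a + X + (1 + K) * u) := by
    have hc1 : 0 ≤ 4 * Cm * E := by positivity
    have hc2 : 0 ≤ 3 * Cg * E := by positivity
    have hc3 : 0 ≤ 3 * K4 * Cg := by positivity
    have hKu : 0 ≤ K * u := mul_nonneg hK hu
    have s0 : 0 ≤ a + X + (1 + K) * u := by positivity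
    have s1 : 4 * Cm * E * (a + K * u) ≤ 4 * Cm * E * (a + X + (1 + K) * u) := by
      apply mul_le_mul_of_nonneg_left _ hc1
      linarith
    have s2 : 3 * Cg * E * (K * u) ≤ 3 * Cg * E * (a + X + (1 + K) * u) := by
      apply mul_le_mul_of_nonneg_left _ hc2
      linarith
    have s3 : 3 * K4 * Cg * X ≤ 3 * K4 * Cg * (a + X + (1 + K) * u) := by
      apply mul_le_mul_of_nonneg_left _ hc3
      linarith
    calc _ ≤ 4 * Cm * E * (a + X + (1 + K) * u) + 3 * Cg * E * (a + X + (1 + K) * u)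
          + 3 * K4 * Cg * (a + X + (1 + K) * u) := by linarith
      _ ≤ _ := by
          have : (1 + 3 * K4 * Cg + 4 * Cm * E + 3 * Cg * E) * (a + X + (1 + K) * u)
            = (a + X + (1 + K) * u) + (4 * Cm * E * (a + X + (1 + K) * u)
              + 3 * Cg * E * (a + X + (1 + K) * u) + 3 * K4 * Cg * (a + X + (1 + K) * u)) := by ring
          rw [this]
          linarith
  have e' := mul_le_mul_of_nonneg_right e hgG
  calc _ = ((4 * Cm * E) * (a + K * u) + (3 * Cg * E) * (K * u) + (3 * K4 * Cg) * X) * (g * G) := by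
        ring
    _ ≤ _ := e'
    _ = _ := by ring

/-- collecting the real parts -/
lemma collect {r1 r2 r3 r4 r5 r6 r7 e t m : ℝ} (u1 : r1 ≤ e) (u2 : -e ≤ r2) (u3 : r3 ≤ e) (u4 : r4 ≤ t)
    (u5 : -t ≤ r5) (u6 : r6 ≤ m) (u7 : -m ≤ r7) :
    r1 + r4 + r6 - 2 * (r2 + r5 + r7) + r3 ≤ 4 * e + 3 * t + 3 * m := by
  linarith

end D6

open D6 MeasureTheory Set Filter Topology Complex ProbabilityTheory
open scoped ComplexConjugate

theorem fNear (h1 : WMain) (h2 : WGauss) (h3 : PrimeSums) : FNear := by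
  obtain ⟨Cm, hCm, hm⟩ := h1
  obtain ⟨Cg, hCg, hg⟩ := h2
  obtain ⟨Cp, hCp, hp⟩ := h3
  set K4 : ℝ := 2 * Cp * Real.exp (2 * Cp) + Real.exp Cp + 1 with hK4
  have heCp : 0 < Real.exp Cp := Real.exp_pos Cp
  have hK40 : 0 ≤ K4 := by positivity
  refine ⟨1 + 3 * K4 * Cg + 4 * Cm * Real.exp Cp + 3 * Cg * Real.exp Cp, ?_, fun p0 hp0 =>
    ⟨1 + K1 p0, ?_, fun A hA hAp y u => ?_⟩⟩
  · have e1 : 0 ≤ 3 * K4 * Cg := by positivity
    have e2 : 0 ≤ 4 * Cm * Real.exp Cp := by positivity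
    have e3 : 0 ≤ 3 * Cg * Real.exp Cp := by positivity
    linarith
  · have := K1_nonneg p0
    linarith
  subst hAp
  have hl := hA.hl
  have hbe := hA.hbe
  have hb0 : 0 ≤ A.b := (hbe.trans_le hA.hbb).le
  have hY0 : 0 ≤ A.Y := by linarith [hA.hY]
  set K := K1 A.p0 with hK
  have hK0 : 0 ≤ K := K1_nonneg _
  set X := A.Y * |u| with hX
  have hX0 : 0 ≤ X := mul_nonneg hY0 (abs_nonneg u)
  set L := Real.log (1 + X) with hL
  have hL0 : 0 ≤ L := Real.log_nonneg (by linarith)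
  set g := gr A.Y u with hgr
  have hgL : g = Real.exp (17 / 4 * L) := by
    rw [hgr]
    unfold gr
    rw [Real.rpow_def_of_pos (by linarith : 0 < 1 + A.Y * |u|), mul_comm]
  have hg1 : 1 ≤ g := by
    rw [hgL]
    exact Real.one_le_exp (by positivity)
  have hg0 : 0 ≤ g := by linarith
  set B := 17 / 4 * L + Cp with hB
  have heB : Real.exp B = Real.exp Cp * g := by
    rw [hB, Real.exp_add, hgL, mul_comm]
  have hG0 := G_nonneg A y
  -- the sums over primes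
  obtain ⟨-, hp2, -, hp4, hp5⟩ := hp A hA
  have hR1 : R2 A u ≤ B := by
    rw [R2_eq hA]
    exact hp2 u
  have hR2 : R2 A u ≤ Cp * X ^ 2 := by
    rw [R2_eq' hA]
    exact hp5 u
  have hS := (norm_SS_le hA u).trans (hp4 u)
  have hS1 : ‖SS A u‖ ≤ Cp * X := hS.trans (min_le_left _ _)
  have hS2 : ‖SS A u‖ ≤ 2 * L + Cp := hS.trans (min_le_right _ _)
  -- the exponents
  have hx1 : ∀ w : ℝ × ℝ, (ex1 A u w).re ≤ B := fun w => (ex1_re hA u w).trans hR1
  have hx2 : ∀ w : ℝ × ℝ, |w.1| ≤ 1 / 2 → |w.2| ≤ 1 / 2 → (ex2 A u w).re ≤ B := by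
    intro w hw1 hw2
    refine (Complex.re_le_norm _).trans ((ex2_norm hA u hw1 hw2).trans ?_)
    rw [hB]
    linarith
  have hd1 : ∀ w : ℝ × ℝ, |w.1| ≤ 1 / 2 → |w.2| ≤ 1 / 2 → ‖cexp (ex1 A u w) - 1‖ ≤ K4 * (X * g) := by
    intro w hw1 hw2
    refine exp_bd hCp hX0 hg1 ?_ ?_
    · rw [← heB]; exact Real.exp_le_exp.mpr (hx1 w)
    · refine (ex1_norm hA u hw1 hw2).trans ?_
      linarith
  have hd2 : ∀ w : ℝ × ℝ, |w.1| ≤ 1 / 2 → |w.2| ≤ 1 / 2 → ‖cexp (ex2 A u w) - 1‖ ≤ K4 * (X * g) := by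
    intro w hw1 hw2
    refine exp_bd hCp hX0 hg1 ?_ ?_
    · rw [← heB]; exact Real.exp_le_exp.mpr (hx2 w hw1 hw2)
    · refine (ex2_norm hA u hw1 hw2).trans ?_
      have e1 : 0 ≤ Cp * X := mul_nonneg hCp hX0
      have e2 : 0 ≤ Cp * X ^ 2 := by positivity
      linarith
  -- the main terms
  set M : (ℝ × ℝ → ℂ) → ℂ := fun F => ((A.b / c0 : ℝ) : ℂ) * ∫ w : ℝ × ℝ,
    ((phi w.1 * phi w.2 : ℝ) : ℂ) * (cexp (-((zt A w) * y)) * F w) ∂(me.prod me) with hM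
  set F3 : ℝ × ℝ → ℂ := fun w => cexp ((zt A w) ^ 2 * A.vt / 4) with hF3
  set F1 : ℝ × ℝ → ℂ := fun w => cexp ((zt A w) ^ 2 * A.vt / 4 + ex1 A u w) with hF1
  set F2 : ℝ × ℝ → ℂ := fun w => cexp ((zt A w) ^ 2 * A.vt / 4 + ex2 A u w) with hF2
  have hczt := cont_zt A
  have hcF3 : Continuous F3 := by rw [hF3]; fun_prop
  have hcF1 : Continuous F1 := by rw [hF1]; unfold ex1; fun_prop
  have hcF2 : Continuous F2 := by rw [hF2]; unfold ex2; fun_prop
  have hMb : ∀ (F : ℝ × ℝ → ℂ) (κ : ℝ), 0 ≤ κ →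
      (∀ w : ℝ × ℝ, |w.1| ≤ 1 / 2 → |w.2| ≤ 1 / 2 → ‖F w‖ ≤ κ * gw A w) →
      ‖M F‖ ≤ κ * (Cg * A.G y) := fun F κ hκ hF => main_bd hb0 (hg A hA y).2.1 hκ hF
  have hMsub : ∀ F F' : ℝ × ℝ → ℂ, Continuous F → Continuous F' →
      M F - M F' = M (fun w => F w - F' w) := by
    intro F F' hF hF'
    have hcφ := cont_phi
    have i1 : Integrable (fun w : ℝ × ℝ => ((phi w.1 * phi w.2 : ℝ) : ℂ)
        * (cexp (-((zt A w) * y)) * F w)) (me.prod me) := integrable_me (by fun_prop)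
    have i2 : Integrable (fun w : ℝ × ℝ => ((phi w.1 * phi w.2 : ℝ) : ℂ)
        * (cexp (-((zt A w) * y)) * F' w)) (me.prod me) := integrable_me (by fun_prop)
    simp only [hM]
    rw [← mul_sub, ← integral_sub i1 i2]
    congr 1
    refine integral_congr_ae (Eventually.of_forall fun w => ?_)
    simp only
    ring
  have hgw0 : ∀ w, 0 < gw A w := fun w => Real.exp_pos _
  have hM1 : ‖M F1‖ ≤ Real.exp B * (Cg * A.G y) := by
    refine hMb F1 _ (Real.exp_pos _).le fun w _ _ => ?_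
    simp only [hF1]
    rw [Complex.exp_add, norm_mul, norm_exp_sq, Complex.norm_exp, mul_comm]
    exact mul_le_mul_of_nonneg_right (Real.exp_le_exp.mpr (hx1 w)) (hgw0 w).le
  have hM2 : ‖M F2‖ ≤ Real.exp B * (Cg * A.G y) := by
    refine hMb F2 _ (Real.exp_pos _).le fun w hw1 hw2 => ?_
    simp only [hF2]
    rw [Complex.exp_add, norm_mul, norm_exp_sq, Complex.norm_exp, mul_comm]
    exact mul_le_mul_of_nonneg_right (Real.exp_le_exp.mpr (hx2 w hw1 hw2)) (hgw0 w).le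
  have hM13 : ‖M F1 - M F3‖ ≤ K4 * (X * g) * (Cg * A.G y) := by
    rw [hMsub F1 F3 hcF1 hcF3]
    refine hMb _ _ (by positivity) fun w hw1 hw2 => ?_
    simp only [hF1, hF3]
    have e : cexp ((zt A w) ^ 2 * A.vt / 4 + ex1 A u w) - cexp ((zt A w) ^ 2 * A.vt / 4)
        = (cexp (ex1 A u w) - 1) * cexp ((zt A w) ^ 2 * A.vt / 4) := by
      rw [Complex.exp_add]; ring
    rw [e, norm_mul, norm_exp_sq]
    exact mul_le_mul_of_nonneg_right (hd1 w hw1 hw2) (hgw0 w).le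
  have hM23 : ‖M F2 - M F3‖ ≤ K4 * (X * g) * (Cg * A.G y) := by
    rw [hMsub F2 F3 hcF2 hcF3]
    refine hMb _ _ (by positivity) fun w hw1 hw2 => ?_
    simp only [hF2, hF3]
    have e : cexp ((zt A w) ^ 2 * A.vt / 4 + ex2 A u w) - cexp ((zt A w) ^ 2 * A.vt / 4)
        = (cexp (ex2 A u w) - 1) * cexp ((zt A w) ^ 2 * A.vt / 4) := by
      rw [Complex.exp_add]; ring
    rw [e, norm_mul, norm_exp_sq]
    exact mul_le_mul_of_nonneg_right (hd2 w hw1 hw2) (hgw0 w).le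
  -- the three means
  set a := Real.exp (-A.v) + 1 / A.p0 with ha
  have ha0 : 0 ≤ a := by positivity
  have ha1 : a ≤ 1 := by
    have e1 : Real.exp (-(A.v : ℝ)) ≤ 1 / 2 := by
      rw [Real.exp_neg, ← one_div]
      have e2 := Real.add_one_le_exp (A.v : ℝ)
      have e3 : (4 : ℝ) ≤ A.v := by exact_mod_cast hA.hv
      exact one_div_le_one_div_of_le (by norm_num) (by linarith)
    have e4 : 1 / (A.p0 : ℝ) ≤ 1 / 2 := by
      have e5 : (1000 : ℝ) ≤ A.p0 := by exact_mod_cast hA.hp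
      exact one_div_le_one_div_of_le (by norm_num) (by linarith)
    linarith
  set k0 := 1 + K * |u| with hk0
  have hKu : 0 ≤ K * |u| := mul_nonneg hK0 (abs_nonneg u)
  have hq : ∀ w : ℝ × ℝ, ((zt A w) ^ 2 * A.vt / 4).re
      = (A.be ^ 2 - A.b ^ 2 * (w.1 - w.2) ^ 2) * A.vt / 4 := fun w => sq_re A w
  have hE1 : ExpBd A (-1) (-1) (D1 A u) B := by
    intro η η' _ _
    rw [sab1, Complex.add_re]
    have e := hq (η, η')
    have e2 := hx1 (η, η')
    unfold zt at e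
    unfold ex1 zt at e2
    simp only at e e2
    rw [e]
    linarith
  have hE2 : ExpBd A (-1) 0 (D2 A u) B := by
    intro η η' h h'
    rw [sab2, Complex.add_re]
    have e := hq (η, η')
    have e2 := hx2 (η, η') h h'
    unfold zt at e
    unfold ex2 zt at e2
    simp only at e e2
    rw [e]
    linarith
  have hE3 : ExpBd A 0 0 D3 B := by
    intro η η' _ _
    rw [sab3]
    have e := hq (η, η')
    unfold zt at e
    simp only at e
    rw [e]
    have : 0 ≤ B := by rw [hB]; positivity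
    linarith
  have n1 : ‖(-1 : ℂ)‖ ≤ 1 := by simp
  have n0 : ‖(0 : ℂ)‖ ≤ 1 := by simp
  have hI1 := hm A hA (-1) (-1) n1 n1 (D1 A u) (ok1 A hl u) B hE1 k0 _ (small_Qs2 A hl u) y
  have hI2 := hm A hA (-1) 0 n1 n0 (D2 A u) (ok2 A hl u) B hE2 k0 _ (small_Qs A hl u) y
  have hI3 := hm A hA 0 0 n0 n0 D3 ok3 B hE3 k0 (fun _ => 1)
    ⟨measurable_const, fun _ _ _ => rfl, fun _ => by rw [norm_one, hk0]; linarith⟩ y
  -- the main terms in these
  have hm1 : ((A.b / c0 : ℝ) : ℂ) * (∫ w : ℝ × ℝ, ((phi w.1 * phi w.2 : ℝ) : ℂ)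
        * (cexp (-((A.zz w.1 + conj (A.zz w.2)) * y))
          * cexp (sab A.U A.h (A.zz w.1) (A.zz w.2) (-1) (-1) (D1 A u))) ∂(me.prod me)) = M F1 := by
    simp only [hM, hF1, sab1]
    rfl
  have hm2 : ((A.b / c0 : ℝ) : ℂ) * (∫ w : ℝ × ℝ, ((phi w.1 * phi w.2 : ℝ) : ℂ)
        * (cexp (-((A.zz w.1 + conj (A.zz w.2)) * y))
          * cexp (sab A.U A.h (A.zz w.1) (A.zz w.2) (-1) 0 (D2 A u))) ∂(me.prod me)) = M F2 := by
    simp only [hM, hF2, sab2]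
    rfl
  have hm3 : ((A.b / c0 : ℝ) : ℂ) * (∫ w : ℝ × ℝ, ((phi w.1 * phi w.2 : ℝ) : ℂ)
        * (cexp (-((A.zz w.1 + conj (A.zz w.2)) * y))
          * cexp (sab A.U A.h (A.zz w.1) (A.zz w.2) 0 0 D3)) ∂(me.prod me)) = M F3 := by
    simp only [hM, hF3, sab3]
    rfl
  rw [hm1] at hI1
  rw [hm2] at hI2
  rw [hm3] at hI3
  -- the integrands
  have hZ : ∀ x, A.F A.lam u x * (A.mo (-1) ∅ x * A.Msm x) = Zf A u x := by
    intro x
    have e := F_eq hA u x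
    unfold Zf
    rw [← e]
    ring
  set G1 : Om → ℂ := fun x => ((A.W ∅ y x * ‖Zf A u x‖ ^ 2 : ℝ) : ℂ) with hG1
  set G2 : Om → ℂ := fun x => (A.W ∅ y x : ℂ) * Zf A u x with hG2
  set G3 : Om → ℂ := fun x => (A.W ∅ y x : ℂ) with hG3
  have hg1' : ∀ x, (A.W ∅ y x : ℂ) * (A.mo (-1) ∅ x * conj (A.mo (-1) ∅ x))
      * (HF A.U (D1 A u) x * ((‖Qs A u x‖ ^ 2 : ℝ) : ℂ)) = G1 x := by
    intro x
    rw [HF1]
    simp only [hG1]
    have e1 : ((‖Zf A u x‖ ^ 2 : ℝ) : ℂ) = Zf A u x * conj (Zf A u x) := by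
      rw [Complex.mul_conj']; push_cast; rfl
    have e2 : ((‖Qs A u x‖ ^ 2 : ℝ) : ℂ) = Qs A u x * conj (Qs A u x) := by
      rw [Complex.mul_conj']; push_cast; rfl
    rw [e2, Complex.ofReal_mul, e1]
    unfold Zf
    rw [map_mul, map_mul]
    ring
  have hg2' : ∀ x, (A.W ∅ y x : ℂ) * (A.mo (-1) ∅ x * conj (A.mo 0 ∅ x))
      * (HF A.U (D2 A u) x * Qs A u x) = G2 x := by
    intro x
    rw [HF2, mo_zero, map_one]
    simp only [hG2]
    unfold Zf
    ring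
  have hg3' : ∀ x, (A.W ∅ y x : ℂ) * (A.mo 0 ∅ x * conj (A.mo 0 ∅ x))
      * (HF A.U D3 x * (1 : ℂ)) = G3 x := by
    intro x
    rw [HF3, mo_zero, map_one]
    simp only [hG3]
    ring
  rw [integral_congr_ae (Eventually.of_forall hg1')] at hI1
  rw [integral_congr_ae (Eventually.of_forall hg2')] at hI2
  rw [integral_congr_ae (Eventually.of_forall hg3')] at hI3
  obtain ⟨cZ, hcZ⟩ := Zf_bd hA u
  have hcZ0 : 0 ≤ cZ := (norm_nonneg _).trans (hcZ (fun _ => 0))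
  have hW0 := W_bd A y
  set cW := |A.b / c0| * qb A ∅ y ^ 2 with hcW
  have hcW0 : 0 ≤ cW := by positivity
  have iG1 : Integrable G1 mu := by
    refine integrable_of_bd (Continuous.aestronglyMeasurable ?_) (C := cW * cZ ^ 2) fun x => ?_
    · exact Complex.continuous_ofReal.comp ((cont_W A y).mul ((cont_Zf hA u).norm.pow 2))
    · simp only [hG1]
      rw [Complex.norm_real, Real.norm_eq_abs, abs_mul, abs_of_nonneg (sq_nonneg ‖Zf A u x‖)]
      exact mul_le_mul (hW0 x) (pow_le_pow_left₀ (norm_nonneg _) (hcZ x) 2) (by positivity) hcW0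
  have iG2 : Integrable G2 mu := by
    refine integrable_of_bd (Continuous.aestronglyMeasurable ?_) (C := cW * cZ) fun x => ?_
    · exact (Complex.continuous_ofReal.comp (cont_W A y)).mul (cont_Zf hA u)
    · simp only [hG2]
      rw [norm_mul, Complex.norm_real, Real.norm_eq_abs]
      exact mul_le_mul (hW0 x) (hcZ x) (norm_nonneg _) hcW0
  have iG3 : Integrable G3 mu := by
    refine integrable_of_bd (Continuous.aestronglyMeasurable ?_) (C := cW) fun x => ?_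
    · exact Complex.continuous_ofReal.comp (cont_W A y)
    · simp only [hG3]
      rw [Complex.norm_real, Real.norm_eq_abs]
      exact hW0 x
  have hsum : ∫ x, A.W ∅ y x * ‖A.F A.lam u x * (A.mo (-1) ∅ x * A.Msm x) - 1‖ ^ 2 ∂mu
      = (∫ x, G1 x ∂mu).re - 2 * (∫ x, G2 x ∂mu).re + (∫ x, G3 x ∂mu).re := by
    have e1 : ∀ x, A.W ∅ y x * ‖A.F A.lam u x * (A.mo (-1) ∅ x * A.Msm x) - 1‖ ^ 2
        = (G1 x - 2 * G2 x + G3 x).re := by
      intro x
      rw [hZ x]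
      have e2 : ‖Zf A u x - 1‖ ^ 2 = ‖Zf A u x‖ ^ 2 - 2 * (Zf A u x).re + 1 := by
        rw [← Complex.normSq_eq_norm_sq, ← Complex.normSq_eq_norm_sq, Complex.normSq_apply,
          Complex.normSq_apply, Complex.sub_re, Complex.sub_im, Complex.one_re, Complex.one_im]
        ring
      rw [e2]
      simp only [hG1, hG2, hG3]
      rw [Complex.add_re, Complex.sub_re, Complex.ofReal_re, Complex.ofReal_re]
      have e3 : (2 * ((A.W ∅ y x : ℂ) * Zf A u x)).re = 2 * (A.W ∅ y x * (Zf A u x).re) := by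
        have e4 : (2 : ℂ) = ((2 : ℝ) : ℂ) := by norm_num
        rw [e4, Complex.re_ofReal_mul, Complex.re_ofReal_mul]
      rw [e3]
      ring
    rw [integral_congr_ae (Eventually.of_forall e1)]
    have iD : Integrable (fun x => G1 x - 2 * G2 x) mu := iG1.sub (iG2.const_mul 2)
    have iS : Integrable (fun x => G1 x - 2 * G2 x + G3 x) mu := iD.add iG3
    have e5 := integral_re iS
    simp only [RCLike.re_to_complex] at e5
    rw [e5, integral_add iD iG3, integral_sub iG1 (iG2.const_mul 2),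
      integral_const_mul, Complex.add_re, Complex.sub_re]
    have e4 : (2 : ℂ) = ((2 : ℝ) : ℂ) := by norm_num
    rw [e4, Complex.re_ofReal_mul]
  rw [hsum]
  -- the small primes
  have hJ1 : ‖(∫ x, ((‖Qs A u x‖ ^ 2 : ℝ) : ℂ) ∂mu) - 1‖ ≤ K * |u| :=
    mean_sub_one (small_Qs2 A hl u).1 fun x => (Qs_bd A hl u x).2
  have hJ2 : ‖(∫ x, Qs A u x ∂mu) - 1‖ ≤ K * |u| :=
    mean_sub_one (small_Qs A hl u).1 fun x => (Qs_bd A hl u x).1
  have hJ3 : (∫ _x : Om, (1 : ℂ) ∂mu) = 1 := by simp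
  rw [hJ3, mul_one] at hI3
  set J1 := ∫ x, ((‖Qs A u x‖ ^ 2 : ℝ) : ℂ) ∂mu with hJ1d
  set J2 := ∫ x, Qs A u x ∂mu with hJ2d
  set i1 := ∫ x, G1 x ∂mu with hi1
  set i2 := ∫ x, G2 x ∂mu with hi2
  set i3 := ∫ x, G3 x ∂mu with hi3
  have hre : i1.re - 2 * i2.re + i3.re = (i1 - M F1 * J1).re + (M F1 * (J1 - 1)).re + (M F1 - M F3).re
      - 2 * ((i2 - M F2 * J2).re + (M F2 * (J2 - 1)).re + (M F2 - M F3).re) + (i3 - M F3).re := by
    simp only [Complex.sub_re, mul_sub, mul_one]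
    ring
  have t1 := (Complex.abs_re_le_norm (i1 - M F1 * J1)).trans hI1
  have t2 := (Complex.abs_re_le_norm (i2 - M F2 * J2)).trans hI2
  have t3 := (Complex.abs_re_le_norm (i3 - M F3)).trans hI3
  have t4 : |(M F1 * (J1 - 1)).re| ≤ Real.exp B * (Cg * A.G y) * (K * |u|) := by
    refine (Complex.abs_re_le_norm _).trans ?_
    rw [norm_mul]
    exact mul_le_mul hM1 hJ1 (norm_nonneg _) (by positivity)
  have t5 : |(M F2 * (J2 - 1)).re| ≤ Real.exp B * (Cg * A.G y) * (K * |u|) := by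
    refine (Complex.abs_re_le_norm _).trans ?_
    rw [norm_mul]
    exact mul_le_mul hM2 hJ2 (norm_nonneg _) (by positivity)
  have t6 := (Complex.abs_re_le_norm (M F1 - M F3)).trans hM13
  have t7 := (Complex.abs_re_le_norm (M F2 - M F3)).trans hM23
  rw [hre]
  -- the errors
  have hak : a * k0 ≤ a + K * |u| := by
    have h := mul_le_mul_of_nonneg_right ha1 hKu
    calc a * k0 = a + a * (K * |u|) := by rw [hk0]; ring
      _ ≤ a + 1 * (K * |u|) := by linarith only [h]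
      _ = _ := by rw [one_mul]
  have herr : Cm * a * k0 * Real.exp B * A.G y
      ≤ Cm * (a + K * |u|) * (Real.exp Cp * g) * A.G y := by
    rw [heB]
    have e : Cm * a * k0 ≤ Cm * (a + K * |u|) := by
      rw [mul_assoc]
      exact mul_le_mul_of_nonneg_left hak hCm
    have e2 : 0 ≤ Real.exp Cp * g := by positivity
    exact mul_le_mul_of_nonneg_right (mul_le_mul_of_nonneg_right e e2) hG0
  rw [heB] at t4 t5
  have hgG : 0 ≤ g * A.G y := mul_nonneg hg0 hG0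
  have hfin := fin_bd (K4 := K4) hCm heCp.le hCg hK40 ha0 hX0 hK0 (abs_nonneg u) hgG
  refine le_trans ?_ hfin
  exact collect ((abs_le.mp (t1.trans herr)).2) ((abs_le.mp (t2.trans herr)).1)
    ((abs_le.mp (t3.trans herr)).2) ((abs_le.mp t4).2) ((abs_le.mp t5).1) ((abs_le.mp t6).2)
    ((abs_le.mp t7).1)

end Pool.Agent.Lib.GT
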