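import Mathlib
import Pool.Agent.Lib.MP_f9aece_nt_gt.D6
import Pool.Agent.Lib.MP_f9aece_nt_gt.StmtsZ

/-!
Gaussian tails of `log |zeta|`, module D5: the Euler products under the tilt.
-/

set_option autoImplicit false

namespace Pool.Agent.Lib.GT.D5

open D6 MeasureTheory Set Filter Topology Complex ProbabilityTheory
open scoped ComplexConjugate

/-- the data of the second moment, any coefficients -/
noncomputable def DD (a : ℕ → ℂ) : Dat := ⟨fun _ => 0, fun _ => 0, a, fun p => conj (a p)⟩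

/-- the Euler factors of the primes of the groups -/
noncomputable def GU (A : Par) (a : ℕ → ℂ) (x : Om) : ℂ := ∏ p ∈ A.U, fac (a p) (x p)

/-- first order part of the exponent -/
noncomputable def S1 (A : Par) (a : ℕ → ℂ) : ℂ := ∑ p ∈ A.U, (A.h p : ℂ) * (a p - A.h p)

/-- second order part of the exponent -/
noncomputable def S2 (A : Par) (a : ℕ → ℂ) : ℝ := ∑ p ∈ A.U, ‖a p - A.h p‖ ^ 2

lemma okD {a : ℕ → ℂ} (ha : ∀ p : ℕ, ‖a p‖ ≤ 1 / Real.sqrt p) : (DD a).Ok := by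
  intro p
  refine ⟨?_, ?_, ha p, ?_⟩
  · simp only [DD, norm_zero]; positivity
  · simp only [DD, norm_zero]; positivity
  · simp only [DD, RCLike.norm_conj]; exact ha p

lemma HFD (A : Par) (a : ℕ → ℂ) (x : Om) : HF A.U (DD a) x = GU A a x * conj (GU A a x) := by
  unfold HF GU DD
  simp only [zero_mul, add_zero, Finset.sum_const_zero, Complex.exp_zero, one_mul]
  rw [map_prod, ← Finset.prod_mul_distrib]
  refine Finset.prod_congr rfl fun p _ => ?_
  rw [conj_fac]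
  rfl

lemma sabD (A : Par) (a : ℕ → ℂ) (z z' : ℂ) :
    sab A.U A.h z z' (-1) (-1) (DD a) = (z + conj z') ^ 2 * A.vt / 4
      + ((z + conj z') / 2 * (S1 A a + conj (S1 A a)) + S2 A a) := by
  have h1 : (S2 A a : ℂ) = ∑ p ∈ A.U, (a p - A.h p) * (conj (a p) - A.h p) := by
    unfold S2
    push_cast
    refine Finset.sum_congr rfl fun p _ => ?_
    rw [← Complex.mul_conj', map_sub, Complex.conj_ofReal]
  rw [h1]
  unfold sab DD Par.vt S1
  push_cast
  rw [map_sum, Finset.mul_sum, ← Finset.sum_add_distrib, Finset.mul_sum, Finset.sum_div,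
    ← Finset.sum_add_distrib, ← Finset.sum_add_distrib]
  refine Finset.sum_congr rfl fun p _ => ?_
  rw [map_neg, map_one, map_mul, map_sub, Complex.conj_ofReal]
  ring

lemma expBdD (A : Par) (a : ℕ → ℂ) {B : ℝ} (hB : A.be * (S1 A a).re + S2 A a ≤ B) :
    ExpBd A (-1) (-1) (DD a) B := by
  intro η η' _ _
  have h1 := sq_re A (η, η')
  unfold zt at h1
  simp only at h1
  rw [sabD, Complex.add_re, h1]
  have h2 := zt_re A (η, η')
  unfold zt at h2
  simp only at h2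
  have h3 : ((A.zz η + conj (A.zz η')) / 2 * (S1 A a + conj (S1 A a)) + (S2 A a : ℂ)).re
      = A.be * (S1 A a).re + S2 A a := by
    rw [Complex.add_conj, Complex.add_re, Complex.ofReal_re, Complex.re_mul_ofReal]
    have h4 : ((A.zz η + conj (A.zz η')) / 2).re = A.be / 2 := by
      rw [← h2]
      simp
    rw [h4]
    ring
  rw [h3]
  linarith

/-- **the second moment of an Euler product over the groups** -/
lemma core (hW : WBd) : ∃ C : ℝ, 0 ≤ C ∧ ∀ A : Par, A.Ok → ∀ a : ℕ → ℂ,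
    (∀ p : ℕ, ‖a p‖ ≤ 1 / Real.sqrt p) → ∀ (k0 : ℝ) (Q : Om → ℝ), Measurable Q →
    Dep {p : ℕ | p ≤ A.p0} Q → (∀ x, 0 ≤ Q x ∧ Q x ≤ k0) → ∀ B : ℝ,
    A.be * (S1 A a).re + S2 A a ≤ B → ∀ (y : ℝ) (s : Finset ℕ), s ⊆ Finset.range A.J →
    ∫ x, A.W s y x * (‖GU A a x‖ ^ 2 * ‖A.mo (-1) s x‖ ^ 2 * Q x) ∂mu
      ≤ C * Real.exp (-(2 * ∑ g ∈ s, (A.r g : ℝ))) * k0 * Real.exp B * A.G y := by
  obtain ⟨C, hC, H⟩ := hW
  refine ⟨C, hC, fun A hA a ha k0 Q hQ hdep hk0 B hB y s hs => ?_⟩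
  have hsm : Small A k0 (fun x => (Q x : ℂ)) := by
    refine ⟨Complex.measurable_ofReal.comp hQ, hdep.comp fun q : ℝ => (q : ℂ), fun x => ?_⟩
    rw [Complex.norm_real, Real.norm_eq_abs, abs_of_nonneg (hk0 x).1]
    exact (hk0 x).2
  have h1 := (H A hA (-1) (-1) (by simp) (by simp) (DD a) (okD ha) B (expBdD A a hB) k0 _ hsm y).1 s hs
  have h2 : ∀ x, (A.W s y x : ℂ) * (A.mo (-1) s x * conj (A.mo (-1) s x)) *
      (HF A.U (DD a) x * (Q x : ℂ)) =
      ((A.W s y x * (‖GU A a x‖ ^ 2 * ‖A.mo (-1) s x‖ ^ 2 * Q x) : ℝ) : ℂ) := by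
    intro x
    rw [HFD, Complex.mul_conj', Complex.mul_conj']
    push_cast
    ring
  simp_rw [h2] at h1
  rw [integral_complex_ofReal, Complex.norm_real, Real.norm_eq_abs] at h1
  exact (le_abs_self _).trans h1

/-! ### The Euler product on the line -/

/-- coefficients on the critical line -/
noncomputable def a0 (u : ℝ) (p : ℕ) : ℂ := (p : ℂ) ^ (-(1 / 2 + ((0 : ℝ) : ℂ) + I * u) : ℂ)

lemma norm_a0 (u : ℝ) {p : ℕ} (hp : 0 < p) : ‖a0 u p‖ = 1 / Real.sqrt p := by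
  unfold a0
  rw [Complex.norm_natCast_cpow_of_pos hp]
  have : (-(1 / 2 + ((0 : ℝ) : ℂ) + I * u) : ℂ).re = -(1 / 2) := by simp
  rw [this, Real.rpow_neg (by positivity), ← Real.sqrt_eq_rpow, one_div]

lemma a0_le (u : ℝ) (p : ℕ) : ‖a0 u p‖ ≤ 1 / Real.sqrt p := by
  rcases Nat.eq_zero_or_pos p with rfl | hp
  · unfold a0
    rw [Nat.cast_zero, Complex.zero_cpow]
    · simp
    · intro h
      have := congrArg Complex.re h
      simp at this
  · exact (norm_a0 u hp).le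

lemma norm_a0_le (u : ℝ) {p : ℕ} (hp : 2 ≤ p) : ‖a0 u p‖ ≤ 3 / 4 := by
  refine (a0_le u p).trans ?_
  have h2 : (4 / 3 : ℝ) ≤ Real.sqrt p := by
    apply Real.le_sqrt_of_sq_le
    have : (2 : ℝ) ≤ p := by exact_mod_cast hp
    norm_num
    linarith
  rw [div_le_iff₀ (by linarith)]
  linarith

lemma F0_eq {A : Par} (hA : A.Ok) (u : ℝ) (x : Om) :
    A.F 0 u x = (∏ p ∈ Sm A, fac (a0 u p) (x p)) * GU A (a0 u) x := by
  have hp0 : A.p0 ≤ ⌊Real.exp A.Y⌋₊ := by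
    by_contra hcon
    rw [not_le] at hcon
    have hU : A.U = ∅ := by
      rw [U_eq_Pall A hA, Finset.eq_empty_iff_forall_notMem]
      intro p hp
      obtain ⟨h1, h2, h3⟩ := MP_f9aece_nt_h6.mem_Pall.mp hp
      rw [Finset.mem_Icc] at h1
      omega
    have h1 := hA.hs
    unfold Par.s2 Par.vt at h1
    rw [hU] at h1
    simp at h1
    linarith
  have hset : (Finset.Icc 1 ⌊Real.exp A.Y⌋₊).filter Nat.Prime = Sm A ∪ A.U := by
    ext p
    rw [Finset.mem_filter, Finset.mem_Icc, Finset.mem_union, mem_Sm, U_eq_Pall A hA,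
      MP_f9aece_nt_h6.mem_Pall, Finset.mem_Icc]
    constructor
    · rintro ⟨⟨h1, h2⟩, h3⟩
      rcases le_or_gt p A.p0 with h | h
      · exact Or.inl ⟨⟨h1, h⟩, h3⟩
      · exact Or.inr ⟨⟨h1, h2⟩, h3, h⟩
    · rintro (⟨⟨h1, h2⟩, h3⟩ | ⟨⟨h1, h2⟩, h3, -⟩)
      · exact ⟨⟨h1, h2.trans hp0⟩, h3⟩
      · exact ⟨⟨h1, h2⟩, h3⟩
  have hdis : Disjoint (Sm A) A.U := by
    rw [Finset.disjoint_left]
    intro p h1 h2
    rw [U_eq_Pall A hA, MP_f9aece_nt_h6.mem_Pall] at h2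
    have := (mem_Sm.mp h1).1.2
    omega
  unfold Par.F GU
  rw [hset, Finset.prod_union hdis]
  rfl

lemma small0 (A : Par) (u : ℝ) : Measurable (fun x : Om => ‖∏ p ∈ Sm A, fac (a0 u p) (x p)‖ ^ 2) ∧
    Dep {p : ℕ | p ≤ A.p0} (fun x : Om => ‖∏ p ∈ Sm A, fac (a0 u p) (x p)‖ ^ 2) ∧
    ∀ x : Om, 0 ≤ ‖∏ p ∈ Sm A, fac (a0 u p) (x p)‖ ^ 2 ∧
      ‖∏ p ∈ Sm A, fac (a0 u p) (x p)‖ ^ 2 ≤ (4 ^ A.p0) ^ 2 := by
  have hlt : ∀ p ∈ Sm A, ‖a0 u p‖ < 1 := fun p hp =>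
    (norm_a0_le u (mem_Sm.mp hp).2.two_le).trans_lt (by norm_num)
  have hcont : Continuous (fun x : Om => ∏ p ∈ Sm A, fac (a0 u p) (x p)) :=
    continuous_finsetProd _ fun p hp => (cont_fac (hlt p hp)).comp (continuous_apply p)
  refine ⟨(hcont.norm.pow 2).measurable, ?_, fun x => ⟨by positivity, ?_⟩⟩
  · have h1 : Dep {p : ℕ | p ≤ A.p0} (fun x : Om => ∏ p ∈ Sm A, fac (a0 u p) (x p)) := by
      refine dep_prod fun p hp => ?_
      exact (dep_coord (S := {p : ℕ | p ≤ A.p0}) (p := p) (mem_Sm.mp hp).1.2).comp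
        fun t => fac (a0 u p) t
    exact h1.comp fun q : ℂ => ‖q‖ ^ 2
  · refine pow_le_pow_left₀ (norm_nonneg _) ?_ 2
    rw [norm_prod]
    calc ∏ p ∈ Sm A, ‖fac (a0 u p) (x p)‖ ≤ ∏ _p ∈ Sm A, (4 : ℝ) := by
          refine Finset.prod_le_prod (fun p _ => norm_nonneg _) fun p hp => ?_
          refine (norm_fac_le (hlt p hp) (x p)).trans ?_
          have h1 := norm_a0_le u (mem_Sm.mp hp).2.two_le
          rw [inv_le_comm₀ (by linarith) (by norm_num)]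
          linarith
      _ = 4 ^ (Sm A).card := by rw [Finset.prod_const]
      _ ≤ 4 ^ A.p0 := by
          refine pow_le_pow_right₀ (by norm_num) ?_
          have h1 : (Sm A).card ≤ (Finset.Icc 1 A.p0).card := Finset.card_filter_le _ _
          rw [Nat.card_Icc] at h1
          omega

lemma gr_eq (A : Par) (hY : 1 ≤ A.Y) (u : ℝ) :
    Real.exp (17 / 4 * Real.log (1 + A.Y * |u|)) = gr A.Y u := by
  have h1 : 0 < 1 + A.Y * |u| := by positivity
  unfold gr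
  rw [Real.rpow_def_of_pos h1]
  congr 1
  ring

lemma exp17 {X : ℝ} (hX : 0 ≤ X) : Real.exp (17 * Real.log (1 + X)) = (1 + X) ^ 17 := by
  have h1 : 0 < 1 + X := by positivity
  rw [show (17 : ℝ) * Real.log (1 + X) = ((17 : ℕ) : ℝ) * Real.log (1 + X) by norm_num,
    Real.exp_nat_mul, Real.exp_log h1]

end Pool.Agent.Lib.GT.D5

namespace Pool.Agent.Lib.GT

open D5 D6 MeasureTheory Set Filter Topology Complex ProbabilityTheory
open scoped ComplexConjugate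

theorem fBound (h1 : WBd) (h2 : PrimeSums) : FBound := by
  intro p0 hp0
  obtain ⟨C1, hC1, H1⟩ := core h1
  obtain ⟨C2, hC2, H2⟩ := h2
  have e0 : 0 ≤ C1 * (4 ^ p0) ^ 2 * Real.exp (2 * C2) := by positivity
  have e1 : 0 ≤ C1 * (Real.exp (8 * p0)) ^ 2 * Real.exp C2 := by positivity
  refine ⟨1 + C1 * (4 ^ p0) ^ 2 * Real.exp (2 * C2) + C1 * (Real.exp (8 * p0)) ^ 2 * Real.exp C2,
    by linarith, fun A hA hAp y u => ⟨fun s hs => ?_, ?_⟩⟩
  · -- on the line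
    obtain ⟨P1, -, P3, -, -⟩ := H2 A hA
    obtain ⟨m1, m2, m3⟩ := small0 A u
    have hlY : 0 ≤ A.lam * A.Y := mul_nonneg hA.hl (by linarith [hA.hY])
    have hS2 : S2 A (a0 u) ≤ 17 / 4 * Real.log (1 + A.Y * |u|) + 17 * Real.log (1 + A.lam * A.Y) + C2 := by
      refine le_trans (le_of_eq ?_) (P1 u)
      unfold S2 a0
      refine Finset.sum_congr rfl fun p _ => ?_
      rw [Complex.ofReal_zero, add_zero]
    have hS1 : (S1 A (a0 u)).re ≤ C2 := by
      refine le_trans ?_ P3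
      unfold S1
      rw [Complex.re_sum]
      refine Finset.sum_le_sum fun p hp => ?_
      have hpp := (U_prime hA hp).pos
      rw [Complex.re_ofReal_mul, Complex.sub_re, Complex.ofReal_re]
      refine mul_le_mul_of_nonneg_left ?_ (h_nonneg A p)
      have h5 : (a0 u p).re ≤ (p : ℝ) ^ (-(1 / 2) : ℝ) := by
        refine (Complex.re_le_norm _).trans (le_of_eq ?_)
        rw [norm_a0 u hpp, Real.rpow_neg (by positivity), ← Real.sqrt_eq_rpow, one_div]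
      linarith
    have hbe : A.be * (S1 A (a0 u)).re ≤ C2 := by
      have h6 : A.be ≤ 1 := by linarith [hA.hbb, hA.hb]
      have h7 : A.be * (S1 A (a0 u)).re ≤ A.be * C2 := mul_le_mul_of_nonneg_left hS1 hA.hbe.le
      nlinarith [hA.hbe]
    have h8 := H1 A hA (a0 u) (a0_le u) ((4 ^ A.p0) ^ 2) _ m1 m2 m3
      (2 * C2 + 17 / 4 * Real.log (1 + A.Y * |u|) + 17 * Real.log (1 + A.lam * A.Y)) (by linarith) y s hs
    have h9 : ∀ x, A.W s y x * (‖A.F 0 u x‖ ^ 2 * ‖A.mo (-1) s x‖ ^ 2) =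
        A.W s y x * (‖GU A (a0 u) x‖ ^ 2 * ‖A.mo (-1) s x‖ ^ 2 *
          ‖∏ p ∈ Sm A, fac (a0 u p) (x p)‖ ^ 2) := by
      intro x
      rw [F0_eq hA, norm_mul]
      ring
    simp_rw [h9]
    refine h8.trans ?_
    rw [hAp, Real.exp_add, Real.exp_add, gr_eq A hA.hY, exp17 hlY]
    have g0 : 0 ≤ Real.exp (-(2 * ∑ g ∈ s, (A.r g : ℝ))) * (1 + A.lam * A.Y) ^ 17 * gr A.Y u * A.G y := by
      have h10 := G_nonneg A y
      have h11 : 0 ≤ gr A.Y u := by
        unfold gr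
        have := hA.hY
        positivity
      have h12 := hA.hY
      positivity
    nlinarith
  · -- at distance `lam` from the line
    obtain ⟨-, P2, -, -, -⟩ := H2 A hA
    have hcont := cont_Qs A hA.hl u
    have hk : ∀ x, 0 ≤ ‖Qs A u x‖ ^ 2 ∧ ‖Qs A u x‖ ^ 2 ≤ (Real.exp (8 * A.p0)) ^ 2 := fun x =>
      ⟨by positivity, pow_le_pow_left₀ (norm_nonneg _) (Qs_sub_one A hA.hl u x).2 2⟩
    have hS2 : S2 A (af A u) ≤ 17 / 4 * Real.log (1 + A.Y * |u|) + C2 := by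
      refine le_trans (le_of_eq ?_) (P2 u)
      exact R2_eq hA u
    have hS1 : (S1 A (af A u)).re ≤ 0 := SS_re_le hA u
    have hbe : A.be * (S1 A (af A u)).re ≤ 0 := mul_nonpos_of_nonneg_of_nonpos hA.hbe.le hS1
    have h8 := H1 A hA (af A u) (af_bound A hA.hl u) ((Real.exp (8 * A.p0)) ^ 2)
      (fun x => ‖Qs A u x‖ ^ 2) (hcont.norm.pow 2).measurable
      ((dep_Qs A u).comp fun q : ℂ => ‖q‖ ^ 2) hk
      (C2 + 17 / 4 * Real.log (1 + A.Y * |u|)) (by linarith) y ∅ (Finset.empty_subset _)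
    have h9 : ∀ x, A.W ∅ y x * (‖A.F A.lam u x‖ ^ 2 * ‖A.mo (-1) ∅ x * A.Msm x‖ ^ 2) =
        A.W ∅ y x * (‖GU A (af A u) x‖ ^ 2 * ‖A.mo (-1) ∅ x‖ ^ 2 * ‖Qs A u x‖ ^ 2) := by
      intro x
      have h10 := congrArg (fun z => ‖z‖) (F_eq hA u x)
      simp only [norm_mul] at h10
      have h11 : GU A (af A u) x = FU A u x := rfl
      rw [h11, norm_mul]
      have h12 : ‖A.F A.lam u x‖ ^ 2 * (‖A.mo (-1) ∅ x‖ * ‖A.Msm x‖) ^ 2 =
          (‖A.F A.lam u x‖ * ‖A.Msm x‖) ^ 2 * ‖A.mo (-1) ∅ x‖ ^ 2 := by ring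
      rw [h12, h10]
      ring
    simp_rw [h9]
    refine h8.trans ?_
    rw [hAp, Real.exp_add, gr_eq A hA.hY, Finset.sum_empty, mul_zero, neg_zero, Real.exp_zero]
    have g0 : 0 ≤ gr A.Y u * A.G y := by
      have h10 := G_nonneg A y
      have h11 : 0 ≤ gr A.Y u := by
        unfold gr
        have := hA.hY
        positivity
      positivity
    nlinarith

end Pool.Agent.Lib.GT
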