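import Mathlib
import Pool.Agent.Lib.MP_f9aece_nt_gt.E1
import Pool.Agent.Lib.MP_f9aece_nt_gt.C4

/-!
Gaussian tails of `log |zeta|` on the critical line: E3, E6, the weights with shifted powers and with the
variation of the prime sum.
-/

set_option autoImplicit false

namespace Pool.Agent.Lib.GT

open MeasureTheory Set Filter Topology Complex ProbabilityTheory
open scoped ComplexConjugate
open Pool.Agent.Lib.MP_f9aece_nt (VV)
open Pool.Agent.Lib.J4 (Sg Yg rg Jok V2)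

namespace EE

section

variable {A : Par}

/-- a linear form of a set of primes up to `e ^ y` -/
lemma lin_tp {S : Finset ℕ} {y k : ℝ} (hy : 0 ≤ y) (hS : ∀ p ∈ S, p.Prime ∧ (p : ℝ) ≤ Real.exp y)
    {c : ℕ → ℂ} (hk : 0 ≤ k) (hc : ∀ p ∈ S, ‖c p‖ ≤ k) :
    TP (Real.exp y) (k * Real.exp y) (lin S c) := by
  have h0 : (1 : ℝ) ≤ Real.exp y := Real.one_le_exp hy
  refine TP.mono (TP.lin (fun p hp => (hS p hp).1) (fun p hp => (hS p hp).2) h0) le_rfl ?_
  refine (Finset.sum_le_card_nsmul _ _ _ hc).trans ?_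
  rw [nsmul_eq_mul, mul_comm]
  refine mul_le_mul_of_nonneg_left ?_ hk
  have h4 : S ⊆ Finset.Icc 1 ⌊Real.exp y⌋₊ := by
    intro p hp
    rw [Finset.mem_Icc]
    exact ⟨(hS p hp).1.one_le, Nat.le_floor (hS p hp).2⟩
  have h5 := Finset.card_le_card h4
  rw [Nat.card_Icc] at h5
  have h6 : (S.card : ℝ) ≤ ⌊Real.exp y⌋₊ := by
    have : S.card ≤ ⌊Real.exp y⌋₊ := by omega
    exact_mod_cast this
  exact h6.trans (Nat.floor_le (by positivity))

lemma rg_pos (hA : A.Ok) (g : ℕ) : 1 ≤ A.r g := by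
  have hv := hA.hv
  unfold Par.r rg
  exact Nat.mul_pos (by omega) (by omega)

/-- the power of a linear form -/
lemma bp_tp {r : ℕ} (hr : 1 ≤ r) {S : Finset ℕ} {c : ℕ → ℂ} {y : ℝ}
    (h : TP (Real.exp y) (Real.exp y) (lin S c)) :
    TP (Real.exp (1000 * (r * y))) (Real.exp (1000 * (r * y))) (fun x => (bp r S c x : ℂ)) := by
  have hr' : (1 : ℝ) ≤ r := by exact_mod_cast hr
  have h1 := (h.normSq.pow (MM r)).const_mul (((1 / RR r ^ (2 * MM r) : ℝ)) : ℂ)
  have hRR : 1 ≤ RR r := by unfold RR; linarith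
  have h2 : ‖((1 / RR r ^ (2 * MM r) : ℝ) : ℂ)‖ ≤ 1 := by
    rw [Complex.norm_real, Real.norm_of_nonneg (by positivity)]
    rw [div_le_one (by positivity)]
    exact one_le_pow₀ hRR
  have e1 : (Real.exp y * Real.exp y) ^ MM r = Real.exp (1000 * (r * y)) := by
    rw [← Real.exp_add, ← Real.exp_nat_mul]
    congr 1
    unfold MM
    push_cast
    ring
  rw [e1] at h1
  refine (h1.congr fun x => ?_).mono le_rfl ?_
  · unfold bp
    push_cast
    rw [div_pow, pow_mul, pow_mul]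
    have : ((RR r : ℂ) ^ 2) ^ MM r ≠ 0 := by
      have h0 : (RR r : ℂ) ≠ 0 := by
        have : RR r ≠ 0 := by positivity
        exact_mod_cast this
      positivity
    field_simp
  · calc ‖((1 / RR r ^ (2 * MM r) : ℝ) : ℂ)‖ * Real.exp (1000 * (r * y))
        ≤ 1 * Real.exp (1000 * (r * y)) := by gcongr
      _ = _ := one_mul _

lemma rY_le (hN : GroupNum) (hA : A.Ok) {g : ℕ} (hg : g < A.J) :
    (A.r g : ℝ) * Yg A.v A.Y g ≤ 2 * (A.v * A.Y) := by
  obtain ⟨-, -, -, -, -, -, h7, h8⟩ := hN A hA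
  have h1 := Finset.single_le_sum (f := fun g => (A.r g : ℝ) * Yg A.v A.Y g)
    (s := Finset.range A.J) (fun i hi => by
      have := h8 i (Finset.mem_range.mp hi)
      positivity) (Finset.mem_range.mpr hg)
  have h2 : (A.r g : ℝ) * Yg A.v A.Y g ≤ 2 * A.v * A.Y := h1.trans h7
  linarith

lemma norm_cpow_im (p : ℕ) (hp : 1 ≤ p) (w : ℝ) : ‖(p : ℂ) ^ (-(I * w) : ℂ)‖ = 1 := by
  rw [Complex.norm_natCast_cpow_of_pos hp]
  simp

lemma h_zero (A : Par) (hA : A.Ok) : A.h 0 = 0 := by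
  unfold Par.h
  rw [Nat.cast_zero]
  refine Real.zero_rpow ?_
  have := hA.hl
  linarith

/-- `|h p * p ^ (-iw)| ≤ 1 / √p` -/
lemma norm_shift_le (hA : A.Ok) (w : ℝ) (p : ℕ) :
    ‖(A.h p : ℂ) * (p : ℂ) ^ (-(I * w) : ℂ)‖ ≤ 1 / Real.sqrt p := by
  rcases Nat.eq_zero_or_pos p with rfl | hp
  · rw [h_zero A hA]
    simp
  · rw [norm_mul, norm_cpow_im p hp, mul_one, Complex.norm_real, Real.norm_of_nonneg (h_nonneg p)]
    exact h_le hA hp

end

end EE

open EE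

/-- E3 -/
theorem wShift (hT : WTransfer) (hB : WBd) (hN : GroupNum) : WShift := by
  obtain ⟨C, hC, hT⟩ := hT
  obtain ⟨C', hC', hB⟩ := hB
  refine ⟨C + C' + 1, 3, by linarith, le_refl _, fun A hA T hT0 hL x y w g hg => ?_⟩
  have hTp : 0 < T := by linarith
  obtain ⟨n1, -, -, -, -, -, n7, n8⟩ := hN A hA
  have hY := n8 g hg
  have hr := rg_pos hA g
  set c : ℕ → ℂ := fun p => (A.h p : ℂ) * (p : ℂ) ^ (-(I * w) : ℂ) with hc
  have hcn : ∀ p : ℕ, ‖c p‖ ≤ 1 / Real.sqrt p := norm_shift_le hA w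
  have hcn1 : ∀ p ∈ A.S g, ‖c p‖ ≤ 1 := by
    intro p hp
    refine (hcn p).trans ?_
    have h1 : (1 : ℝ) ≤ p := by exact_mod_cast (n1 g p hp).1.one_le
    rw [div_le_one (Real.sqrt_pos.mpr (by linarith)), Real.one_le_sqrt]
    exact h1
  have hlin : TP (Real.exp (Yg A.v A.Y g)) (Real.exp (Yg A.v A.Y g)) (lin (A.S g) c) := by
    have := lin_tp (by linarith) (fun p hp => ⟨(n1 g p hp).1, (n1 g p hp).2.2.2⟩) zero_le_one hcn1
    rwa [one_mul] at this
  have htp := bp_tp hr hlin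
  have h1 := (hB A hA 0 0 (by simp) (by simp) D0 D0_ok 0 expBd_D0 1 (fun _ => 1) small_one y).2 c
    hcn g hg
  have h2 : ∫ z, A.W ∅ y z * A.bbv w g z ∂mu ≤ C' * Real.exp (-(2 * (A.r g : ℝ))) * A.G y := by
    have e1 : ∀ z : Om, (A.W ∅ y z : ℂ) * (A.mo 0 ∅ z * conj (A.mo 0 ∅ z))
        * (bp (A.r g) (A.S g) c z : ℂ) * (HF A.U D0 z * 1)
        = ((A.W ∅ y z * A.bbv w g z : ℝ) : ℂ) := by
      intro z
      rw [mo_zero, map_one, HF_D0]
      unfold Par.bbv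
      push_cast
      ring
    simp only [e1] at h1
    rw [integral_complex_ofReal, Complex.norm_real, mul_one, Real.exp_zero, mul_one] at h1
    exact (le_abs_self _).trans h1
  have h3 := (hT A hA ∅ (Finset.empty_subset _) 0 0 (by simp) (by simp) _ _
    (fun z => (A.bbv w g z : ℂ)) (Real.one_le_exp (by positivity)) htp x T y hTp).1
  have h4 := abs_mean_sub_le (A := A) (s := ∅) (x := x) (y := y) (H := fun z => A.bbv w g z) h3
  have hbb : ∃ B, ∀ z, A.bbv w g z ≤ B := by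
    refine ⟨Real.exp (1000 * (A.r g * Yg A.v A.Y g)), fun z => ?_⟩
    have h5 := htp.norm_le z
    rw [Complex.norm_real] at h5
    exact (le_abs_self _).trans h5
  have h5 := lmean_le hA hTp (A.continuous_bbv w g) (fun z => Par.bp_nonneg _ _ _ z) hbb h2 h4
  refine h5.trans (ENNReal.ofReal_le_ofReal ?_)
  have hrY := rY_le hN hA hg
  have hK := K_ge hA
  have h6 := err_le hN hA hT0 hL y (D := Real.exp (1000 * (A.r g * Yg A.v A.Y g)) *
    Real.exp (1000 * (A.r g * Yg A.v A.Y g))) (by positivity) (by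
      rw [← Real.exp_add]
      refine Real.exp_le_exp.mpr ?_
      linarith)
  have h7 : (A.r g : ℝ) ≤ ∑ g ∈ Finset.range A.J, (A.r g : ℝ) :=
    Finset.single_le_sum (f := fun g => (A.r g : ℝ)) (fun i _ => by positivity)
      (Finset.mem_range.mpr hg)
  have h8 : (0 : ℝ) ≤ A.r g := by positivity
  have hG := hA.G_pos y
  have h9 : A.G y / Real.sqrt T ≤ A.G y := by
    refine div_le_self hG.le ?_
    rw [Real.one_le_sqrt]
    linarith
  have h10 : Real.exp (-∑ g ∈ Finset.range A.J, (A.r g : ℝ)) ≤ Real.exp (-(A.r g : ℝ)) :=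
    Real.exp_le_exp.mpr (by linarith)
  have h11 : Real.exp (-(2 * (A.r g : ℝ))) ≤ Real.exp (-(A.r g : ℝ)) :=
    Real.exp_le_exp.mpr (by linarith)
  set a := Real.exp (-(A.r g : ℝ)) with ha
  have ha0 : 0 < a := Real.exp_pos _
  calc C' * Real.exp (-(2 * (A.r g : ℝ))) * A.G y
        + C * (Real.exp (-(A.be * y)) * (Real.exp (2 * 10 ^ 7 * A.v * A.Y) *
          (Real.exp (1000 * (A.r g * Yg A.v A.Y g)) * Real.exp (1000 * (A.r g * Yg A.v A.Y g)) / T)))
      ≤ C' * a * A.G y + C * (a * A.G y) := by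
        refine add_le_add (by gcongr) (mul_le_mul_of_nonneg_left ?_ hC)
        refine h6.trans ?_
        exact mul_le_mul h10 h9 (by positivity) ha0.le
    _ ≤ (C + C' + 1) * a * A.G y := by nlinarith [mul_pos ha0 hG]

namespace EE

/-! ### the tilt by a real part -/

section

variable {A : Par}

/-- the coefficients of `τ Re lin c` -/
noncomputable def Dt (τ : ℝ) (c : ℕ → ℂ) : Dat :=
  ⟨fun p => ((τ / 2 : ℝ) : ℂ) * c p, fun p => ((τ / 2 : ℝ) : ℂ) * conj (c p), fun _ => 0, fun _ => 0⟩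

lemma Dt_ok {τ : ℝ} {c : ℕ → ℂ} (hτ : |τ| ≤ 1) (hc : ∀ p : ℕ, ‖c p‖ ≤ 2 / Real.sqrt p) :
    (Dt τ c).Ok := by
  intro p
  have h1 : 0 ≤ 2 / Real.sqrt p := by positivity
  have h2 : 0 ≤ 1 / Real.sqrt p := by positivity
  have h3 : ‖((τ / 2 : ℝ) : ℂ)‖ ≤ 1 := by
    rw [Complex.norm_real, Real.norm_eq_abs, abs_div]
    norm_num
    linarith [abs_nonneg τ]
  have h4 : ‖((τ / 2 : ℝ) : ℂ)‖ * ‖c p‖ ≤ 2 / Real.sqrt p := by
    calc ‖((τ / 2 : ℝ) : ℂ)‖ * ‖c p‖ ≤ 1 * (2 / Real.sqrt p) := by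
          gcongr
          exact hc p
      _ = _ := one_mul _
  refine ⟨?_, ?_, ?_, ?_⟩
  · simp only [Dt]
    rw [norm_mul]
    exact h4
  · simp only [Dt]
    rw [norm_mul, Complex.norm_conj]
    exact h4
  · simp only [Dt, norm_zero]
    exact h2
  · simp only [Dt, norm_zero]
    exact h2

lemma HF_Dt (S : Finset ℕ) (τ : ℝ) (c : ℕ → ℂ) (x : Om) :
    HF S (Dt τ c) x = ((Real.exp (τ * (lin S c x).re) : ℝ) : ℂ) := by
  unfold HF Dt
  simp only [zero_mul, sub_zero, inv_one, mul_one, Finset.prod_const_one]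
  rw [Complex.ofReal_exp]
  congr 1
  have e : ∑ p ∈ S, (((τ / 2 : ℝ) : ℂ) * c p * e1 (x p) + ((τ / 2 : ℝ) : ℂ) * conj (c p) *
      conj (e1 (x p))) = ((τ / 2 : ℝ) : ℂ) * (lin S c x + conj (lin S c x)) := by
    unfold lin
    rw [map_sum, ← Finset.sum_add_distrib, Finset.mul_sum]
    refine Finset.sum_congr rfl fun p _ => ?_
    rw [map_mul]
    ring
  rw [e, Complex.add_conj]
  push_cast
  ring

lemma sab_Dt (τ : ℝ) (c : ℕ → ℂ) (z z' : ℂ) : sab A.U A.h z z' 0 0 (Dt τ c) =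
    (z + conj z') ^ 2 * A.vt / 4 + (z + conj z') / 2 * ((τ * ∑ p ∈ A.U, A.h p * (c p).re : ℝ) : ℂ)
      + ((τ ^ 2 / 4 * ∑ p ∈ A.U, ‖c p‖ ^ 2 : ℝ) : ℂ) := by
  unfold sab Dt Par.vt
  push_cast
  rw [Finset.mul_sum, Finset.sum_div, Finset.mul_sum, Finset.mul_sum, Finset.mul_sum,
    ← Finset.sum_add_distrib, ← Finset.sum_add_distrib]
  refine Finset.sum_congr rfl fun p _ => ?_
  simp only [map_zero, add_zero]
  have e1 : (c p) + conj (c p) = 2 * ((c p).re : ℂ) := by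
    rw [Complex.add_conj]
    push_cast
    ring
  have e2 : c p * conj (c p) = (‖c p‖ : ℂ) ^ 2 := by
    rw [Complex.mul_conj, Complex.normSq_eq_norm_sq]
    push_cast
    rfl
  have e3 : ((A.h p : ℂ) * ((z + conj z') / 2) + (τ : ℂ) / 2 * c p) *
      ((A.h p : ℂ) * ((z + conj z') / 2) + (τ : ℂ) / 2 * conj (c p)) =
      (A.h p : ℂ) ^ 2 * ((z + conj z') / 2) ^ 2 + (A.h p : ℂ) * ((z + conj z') / 2) * ((τ : ℂ) / 2) *
        (c p + conj (c p)) + (τ : ℂ) ^ 2 / 4 * (c p * conj (c p)) := by ring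
  rw [e3, e1, e2]
  ring

lemma expBd_Dt {τ B : ℝ} {c : ℕ → ℂ} (hB : A.be / 2 * (τ * ∑ p ∈ A.U, A.h p * (c p).re)
    + τ ^ 2 / 4 * ∑ p ∈ A.U, ‖c p‖ ^ 2 ≤ B) : ExpBd A 0 0 (Dt τ c) B := by
  intro η η' _ _
  rw [sab_Dt]
  have e : (A.zz η + conj (A.zz η')) ^ 2 * (A.vt : ℂ) / 4 =
      ((A.vt / 4 : ℝ) : ℂ) * (A.zz η + conj (A.zz η')) ^ 2 := by
    push_cast
    ring
  have e2 : (A.zz η + conj (A.zz η')) / 2 * ((τ * ∑ p ∈ A.U, A.h p * (c p).re : ℝ) : ℂ) =
      ((τ * ∑ p ∈ A.U, A.h p * (c p).re : ℝ) : ℂ) * ((A.zz η + conj (A.zz η')) / 2) := by ring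
  have e3 : ((A.zz η + conj (A.zz η')) / 2).re = A.be / 2 := by
    rw [zz_sum]
    have : ((A.be : ℂ) + I * ((A.b * (η - η') : ℝ) : ℂ)) / 2 =
        ((A.be / 2 : ℝ) : ℂ) + ((A.b * (η - η') / 2 : ℝ) : ℂ) * I := by
      push_cast
      ring
    rw [this, Complex.add_re, Complex.re_ofReal_mul, Complex.ofReal_re, Complex.I_re]
    ring
  rw [e, e2, Complex.add_re, Complex.add_re, Complex.re_ofReal_mul, Complex.re_ofReal_mul, re_sq_zz,
    e3, Complex.ofReal_re]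
  linarith

lemma sq_le_exp (r : ℝ) : r ^ 2 ≤ 2 * (Real.exp r + Real.exp (-r)) := by
  have h1 : ∀ s : ℝ, 0 ≤ s → s ^ 2 ≤ 2 * (Real.exp s + Real.exp (-s)) := by
    intro s hs
    have h2 := Real.quadratic_le_exp_of_nonneg hs
    have h3 := Real.one_sub_le_exp_neg s
    nlinarith
  rcases le_total 0 r with h | h
  · exact h1 r h
  · have := h1 (-r) (by linarith)
    rw [neg_neg, neg_sq] at this
    linarith

/-- the weights and the square of a real part -/
lemma delta (hT : WTransfer) (hB : WBd) (hN : GroupNum) : ∃ C : ℝ, 0 ≤ C ∧ ∀ A : Par, A.Ok →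
    ∀ T : ℝ, 3 ≤ T → Len A T → ∀ (x y : ℝ) (c : ℕ → ℂ), (∀ p : ℕ, ‖c p‖ ≤ 2 / Real.sqrt p) →
    ∀ L B : ℝ, 1 ≤ L → 0 ≤ B → A.be / 2 * (1 / L * |∑ p ∈ A.U, A.h p * (c p).re|)
      + (1 / L) ^ 2 / 4 * ∑ p ∈ A.U, ‖c p‖ ^ 2 ≤ B →
    ∫⁻ t, ENNReal.ofReal (A.W ∅ y (om t) * ((lin A.U c (om t)).re) ^ 2) ∂(un x T)
      ≤ ENNReal.ofReal (C * Real.exp B * L ^ 2 * A.G y) := by
  obtain ⟨C, hC, hT⟩ := hT
  obtain ⟨C', hC', hB⟩ := hB
  refine ⟨C + 4 * C', by positivity, fun A hA T hT0 hL x y c hc L B hL1 hB0 hexp => ?_⟩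
  have hTp : 0 < T := by linarith
  have hLp : 0 < L := by linarith
  obtain ⟨-, -, -, n4, -, -, -, -⟩ := hN A hA
  have hY := hA.hY
  have hG := hA.G_pos y
  have hU : ∀ p ∈ A.U, p.Prime ∧ (p : ℝ) ≤ Real.exp A.Y := by
    intro p hp
    have := (n4 p).mp hp
    exact ⟨this.1, this.2.2⟩
  have hc2 : ∀ p ∈ A.U, ‖c p‖ ≤ 2 := by
    intro p hp
    refine (hc p).trans ?_
    have h1 : (1 : ℝ) ≤ p := by exact_mod_cast (hU p hp).1.one_le
    rw [div_le_iff₀ (Real.sqrt_pos.mpr (by linarith))]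
    have : 1 ≤ Real.sqrt p := by rwa [Real.one_le_sqrt]
    linarith
  have hlin := (lin_tp (by linarith) hU zero_le_two hc2).re
  have htp := hlin.mul hlin
  have htp' : TP (Real.exp A.Y * Real.exp A.Y) (2 * Real.exp A.Y * (2 * Real.exp A.Y))
      (fun z => ((((lin A.U c z).re) ^ 2 : ℝ) : ℂ)) :=
    htp.congr fun z => by push_cast; ring
  -- the torus
  have key : ∀ τ : ℝ, |τ| = 1 / L → ∫ z, A.W ∅ y z * Real.exp (τ * (lin A.U c z).re) ∂mu ≤
      C' * Real.exp B * A.G y := by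
    intro τ hτ
    have hτ1 : |τ| ≤ 1 := by
      rw [hτ, div_le_one hLp]
      exact hL1
    have hτ2 : τ ^ 2 = (1 / L) ^ 2 := by rw [← sq_abs, hτ]
    have hexp' : A.be / 2 * (τ * ∑ p ∈ A.U, A.h p * (c p).re)
        + τ ^ 2 / 4 * ∑ p ∈ A.U, ‖c p‖ ^ 2 ≤ B := by
      refine le_trans ?_ hexp
      rw [hτ2]
      refine add_le_add_left (mul_le_mul_of_nonneg_left ?_ (by have := hA.hbe; linarith)) _
      refine (le_abs_self _).trans ?_
      rw [abs_mul, hτ]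
    have h1 := (hB A hA 0 0 (by simp) (by simp) (Dt τ c) (Dt_ok hτ1 hc) B (expBd_Dt hexp') 1
      (fun _ => 1) small_one y).1 ∅ (Finset.empty_subset _)
    have e1 : ∀ z : Om, (A.W ∅ y z : ℂ) * (A.mo 0 ∅ z * conj (A.mo 0 ∅ z))
        * (HF A.U (Dt τ c) z * 1) = ((A.W ∅ y z * Real.exp (τ * (lin A.U c z).re) : ℝ) : ℂ) := by
      intro z
      rw [mo_zero, map_one, HF_Dt]
      push_cast
      ring
    simp only [e1] at h1
    rw [integral_complex_ofReal, Complex.norm_real, mul_one, Finset.sum_empty, mul_zero, neg_zero,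
      Real.exp_zero, mul_one] at h1
    exact (le_abs_self _).trans h1
  have hWc : Continuous fun z : Om => A.W ∅ y z := A.continuous_W' hA ∅ y
  obtain ⟨BW, hBW⟩ := A.W_le hA ∅ y
  have hW0 : ∀ z, 0 ≤ A.W ∅ y z := A.W_nonneg hA.b_pos.le ∅ y
  have hRc : Continuous fun z : Om => (lin A.U c z).re :=
    Complex.continuous_re.comp (continuous_lin _ _)
  have hRb : ∀ z : Om, |(lin A.U c z).re| ≤ ∑ p ∈ A.U, ‖c p‖ := fun z =>
    (Complex.abs_re_le_norm _).trans (norm_lin_le _ _ _)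
  have hint : ∀ τ : ℝ, Integrable (fun z : Om => A.W ∅ y z * Real.exp (τ * (lin A.U c z).re)) mu := by
    intro τ
    refine integrable_of_bd (hWc.mul (Real.continuous_exp.comp
      (continuous_const.mul hRc))).aestronglyMeasurable
      (C := BW * Real.exp (|τ| * ∑ p ∈ A.U, ‖c p‖)) fun z => ?_
    rw [Real.norm_of_nonneg (mul_nonneg (hW0 _) (Real.exp_nonneg _))]
    refine mul_le_mul (hBW z) (Real.exp_le_exp.mpr ?_) (Real.exp_nonneg _) ((hW0 z).trans (hBW z))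
    refine (le_abs_self _).trans ?_
    rw [abs_mul]
    exact mul_le_mul_of_nonneg_left (hRb z) (abs_nonneg _)
  have hint2 : Integrable (fun z : Om => A.W ∅ y z * ((lin A.U c z).re) ^ 2) mu := by
    refine integrable_of_bd (hWc.mul (hRc.pow 2)).aestronglyMeasurable
      (C := BW * (∑ p ∈ A.U, ‖c p‖) ^ 2) fun z => ?_
    rw [Real.norm_of_nonneg (mul_nonneg (hW0 _) (sq_nonneg _))]
    refine mul_le_mul (hBW z) ?_ (sq_nonneg _) ((hW0 z).trans (hBW z))
    rw [← sq_abs]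
    exact pow_le_pow_left₀ (abs_nonneg _) (hRb z) 2
  have h2 : ∫ z, A.W ∅ y z * ((lin A.U c z).re) ^ 2 ∂mu ≤ 4 * C' * Real.exp B * L ^ 2 * A.G y := by
    have k1 := key (1 / L) (abs_of_pos (by positivity))
    have k2 := key (-(1 / L)) (by rw [abs_neg]; exact abs_of_pos (by positivity))
    calc ∫ z, A.W ∅ y z * ((lin A.U c z).re) ^ 2 ∂mu
        ≤ ∫ z, 2 * L ^ 2 * (A.W ∅ y z * Real.exp (1 / L * (lin A.U c z).re)
            + A.W ∅ y z * Real.exp (-(1 / L) * (lin A.U c z).re)) ∂mu := by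
          refine integral_mono hint2 (((hint _).add (hint _)).const_mul _) fun z => ?_
          have h3 := sq_le_exp (1 / L * (lin A.U c z).re)
          have h4 : (lin A.U c z).re ^ 2 = L ^ 2 * (1 / L * (lin A.U c z).re) ^ 2 := by
            field_simp
          show A.W ∅ y z * (lin A.U c z).re ^ 2 ≤ _
          rw [h4, neg_mul]
          have h5 := hW0 z
          calc A.W ∅ y z * (L ^ 2 * (1 / L * (lin A.U c z).re) ^ 2)
              = L ^ 2 * (A.W ∅ y z * (1 / L * (lin A.U c z).re) ^ 2) := by ring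
            _ ≤ L ^ 2 * (A.W ∅ y z * (2 * (Real.exp (1 / L * (lin A.U c z).re)
                + Real.exp (-(1 / L * (lin A.U c z).re))))) := by gcongr
            _ = _ := by ring
      _ = 2 * L ^ 2 * (∫ z, A.W ∅ y z * Real.exp (1 / L * (lin A.U c z).re) ∂mu
            + ∫ z, A.W ∅ y z * Real.exp (-(1 / L) * (lin A.U c z).re) ∂mu) := by
          rw [integral_const_mul, integral_add (hint _) (hint _)]
      _ ≤ 2 * L ^ 2 * (C' * Real.exp B * A.G y + C' * Real.exp B * A.G y) := by gcongr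
      _ = _ := by ring
  have hN1 : 1 ≤ Real.exp A.Y * Real.exp A.Y := by
    rw [← Real.exp_add]
    exact Real.one_le_exp (by linarith)
  have h3 := (hT A hA ∅ (Finset.empty_subset _) 0 0 (by simp) (by simp) _ _
    (fun z => ((((lin A.U c z).re) ^ 2 : ℝ) : ℂ)) hN1 htp' x T y hTp).1
  have h4 := abs_mean_sub_le (A := A) (s := ∅) (x := x) (y := y)
    (H := fun z => ((lin A.U c z).re) ^ 2) h3
  have h5 := lmean_le (H := fun z => ((lin A.U c z).re) ^ 2) hA hTp (hRc.pow 2)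
    (fun z => sq_nonneg _)
    ⟨(∑ p ∈ A.U, ‖c p‖) ^ 2, fun z => by
      show (lin A.U c z).re ^ 2 ≤ _
      rw [← sq_abs]
      exact pow_le_pow_left₀ (abs_nonneg _) (hRb z) 2⟩ h2 h4
  refine h5.trans (ENNReal.ofReal_le_ofReal ?_)
  have hK := K_ge hA
  have hv : (4 : ℝ) ≤ A.v := by exact_mod_cast hA.hv
  have hKY : 4 * A.Y ≤ A.v * A.Y := by nlinarith
  have h6 := err_le hN hA hT0 hL y (D := 2 * Real.exp A.Y * (2 * Real.exp A.Y) *
    (Real.exp A.Y * Real.exp A.Y)) (by positivity) (by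
      have e : 2 * Real.exp A.Y * (2 * Real.exp A.Y) * (Real.exp A.Y * Real.exp A.Y) =
          4 * Real.exp (4 * A.Y) := by
        rw [show 4 * A.Y = A.Y + A.Y + (A.Y + A.Y) by ring, Real.exp_add, Real.exp_add]
        ring
      have h4' : (4 : ℝ) ≤ Real.exp (A.v * A.Y) := by
        have := Real.add_one_le_exp (A.v * A.Y)
        linarith
      rw [e]
      calc 4 * Real.exp (4 * A.Y) ≤ Real.exp (A.v * A.Y) * Real.exp (A.v * A.Y) := by gcongr
        _ = Real.exp (A.v * A.Y + A.v * A.Y) := by rw [Real.exp_add]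
        _ ≤ _ := Real.exp_le_exp.mpr (by linarith))
  have h8 : 0 ≤ ∑ g ∈ Finset.range A.J, (A.r g : ℝ) := Finset.sum_nonneg fun _ _ => by positivity
  have h9 : A.G y / Real.sqrt T ≤ A.G y := by
    refine div_le_self hG.le ?_
    rw [Real.one_le_sqrt]
    linarith
  have h10 : Real.exp (-∑ g ∈ Finset.range A.J, (A.r g : ℝ)) ≤ 1 :=
    Real.exp_le_one_iff.mpr (by linarith)
  have h12 : (1 : ℝ) ≤ Real.exp B := Real.one_le_exp hB0
  have h13 : (1 : ℝ) ≤ L ^ 2 := one_le_pow₀ hL1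
  have h14 : 1 * A.G y ≤ Real.exp B * L ^ 2 * A.G y := by
    refine mul_le_mul_of_nonneg_right ?_ hG.le
    nlinarith
  have h15 : C * (Real.exp (-(A.be * y)) * (Real.exp (2 * 10 ^ 7 * A.v * A.Y) *
      (2 * Real.exp A.Y * (2 * Real.exp A.Y) * (Real.exp A.Y * Real.exp A.Y) / T))) ≤
      C * (Real.exp B * L ^ 2 * A.G y) := by
    refine mul_le_mul_of_nonneg_left ?_ hC
    refine h6.trans (le_trans ?_ h14)
    exact mul_le_mul h10 h9 (by positivity) zero_le_one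
  calc _ ≤ 4 * C' * Real.exp B * L ^ 2 * A.G y + C * (Real.exp B * L ^ 2 * A.G y) := by
        gcongr
    _ = _ := by ring

end

end EE

/-- E6 -/
theorem wDelta (hT : WTransfer) (hB : WBd) (hN : GroupNum) (hP : PrimeSums) : WDelta := by
  obtain ⟨C, hC, hD⟩ := delta hT hB hN
  obtain ⟨C', hC', hP⟩ := hP
  set B : ℝ := 5 + C' with hBd
  refine ⟨C * Real.exp B + 1, 3, by nlinarith [Real.exp_pos B, mul_nonneg hC (Real.exp_pos B).le],
    le_refl _, fun A hA T hT0 hL x y w => ?_⟩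
  obtain ⟨p1, p2, p3, p4, -⟩ := hP A hA
  have hG := hA.G_pos y
  have hbe := hA.hbe
  have hbe' : A.be ≤ 1 / 20 := hA.hbb.trans hA.hb
  have hB0 : 0 ≤ B := by rw [hBd]; linarith
  have hlw : 0 ≤ Real.log (1 + A.Y * |w|) := Real.log_nonneg (by
    have := mul_nonneg (zero_le_one.trans hA.hY) (abs_nonneg w)
    linarith)
  have hll : 0 ≤ Real.log (1 + A.lam * A.Y) := Real.log_nonneg (by
    have := mul_nonneg hA.hl (zero_le_one.trans hA.hY)
    linarith)
  -- pointwise facts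
  have hu : ∀ p : ℕ, p ≠ 0 → ‖(p : ℂ) ^ (-(I * w) : ℂ)‖ = 1 := fun p hp =>
    norm_cpow_im p (Nat.one_le_iff_ne_zero.mpr hp) w
  have hsplit : ∀ p : ℕ, p ≠ 0 → (p : ℂ) ^ (-(1 / 2 + I * w) : ℂ) =
      (((p : ℝ) ^ (-(1 / 2) : ℝ) : ℝ) : ℂ) * (p : ℂ) ^ (-(I * w) : ℂ) := by
    intro p hp
    have hp' : (p : ℂ) ≠ 0 := by exact_mod_cast hp
    rw [neg_add, Complex.cpow_add _ _ hp', Complex.ofReal_cpow (by positivity)]
    push_cast
    rfl
  have hhalf : ∀ p : ℕ, p ≠ 0 → (p : ℝ) ^ (-(1 / 2) : ℝ) = 1 / Real.sqrt p := by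
    intro p hp
    rw [Real.rpow_neg (by positivity), Real.sqrt_eq_rpow, ← one_div]
  have hhle : ∀ p : ℕ, p ≠ 0 → A.h p ≤ (p : ℝ) ^ (-(1 / 2) : ℝ) := by
    intro p hp
    rw [hhalf p hp]
    exact h_le hA (Nat.one_le_iff_ne_zero.mpr hp)
  have hUne : ∀ p ∈ A.U, p ≠ 0 := by
    intro p hp
    exact (((hN A hA).2.2.2.1 p).mp hp).1.ne_zero
  have hfin : ∀ (c : ℕ → ℂ) (L : ℝ), (∀ p : ℕ, ‖c p‖ ≤ 2 / Real.sqrt p) → 1 ≤ L →
      |∑ p ∈ A.U, A.h p * (c p).re| ≤ (2 + 2 * C') * L → ∑ p ∈ A.U, ‖c p‖ ^ 2 ≤ (17 + C') * L →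
      ∫⁻ t, ENNReal.ofReal (A.W ∅ y (om t) * ((lin A.U c (om t)).re) ^ 2) ∂(un x T)
      ≤ ENNReal.ofReal ((C * Real.exp B + 1) * L ^ 2 * A.G y) := by
    intro c L hc hL1 hs1 hs2
    have hLp : 0 < L := by linarith
    refine (hD A hA T hT0 hL x y c hc L B hL1 hB0 ?_).trans (ENNReal.ofReal_le_ofReal ?_)
    · have k1 : 1 / L * |∑ p ∈ A.U, A.h p * (c p).re| ≤ 2 + 2 * C' := by
        rw [one_div, inv_mul_le_iff₀ hLp, mul_comm]
        exact hs1
      have k2 : (1 / L) ^ 2 / 4 * ∑ p ∈ A.U, ‖c p‖ ^ 2 ≤ (17 + C') / 4 := by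
        have k3 : (1 / L) ^ 2 / 4 * ∑ p ∈ A.U, ‖c p‖ ^ 2 ≤ (1 / L) ^ 2 / 4 * ((17 + C') * L) := by
          gcongr
        refine k3.trans ?_
        have k4 : (1 / L) ^ 2 / 4 * ((17 + C') * L) = (17 + C') / 4 * (1 / L) := by
          field_simp
        rw [k4]
        have k5 : 1 / L ≤ 1 := by rwa [div_le_one hLp]
        have k6 : 0 ≤ (17 + C') / 4 := by linarith
        nlinarith
      have k7 : A.be / 2 * (1 / L * |∑ p ∈ A.U, A.h p * (c p).re|) ≤ 1 / 40 * (2 + 2 * C') := by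
        refine mul_le_mul (by linarith) k1 (by positivity) (by norm_num)
      rw [hBd]
      linarith
    · have : 0 ≤ L ^ 2 * A.G y := by positivity
      nlinarith
  have habs : ∀ (c : ℕ → ℂ) (f : ℕ → ℝ), (∀ p ∈ A.U, A.h p * ‖c p‖ ≤ f p) →
      |∑ p ∈ A.U, A.h p * (c p).re| ≤ ∑ p ∈ A.U, f p := by
    intro c f hf
    refine (Finset.abs_sum_le_sum_abs _ _).trans (Finset.sum_le_sum fun p hp => ?_)
    rw [abs_mul, abs_of_nonneg (h_nonneg p)]
    exact (mul_le_mul_of_nonneg_left (Complex.abs_re_le_norm _) (h_nonneg p)).trans (hf p hp)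
  have p4' := (p4 w).trans (min_le_right _ _)
  constructor
  · refine (hfin _ (1 + Real.log (1 + A.Y * |w|) + Real.log (1 + A.lam * A.Y)) ?_ (by linarith)
      ?_ ?_).trans (le_of_eq rfl)
    · intro p
      rcases Nat.eq_zero_or_pos p with rfl | hp
      · have e1 : ((0 : ℕ) : ℂ) ^ (-(1 / 2 + I * w) : ℂ) = 0 := by
          rw [Nat.cast_zero, Complex.zero_cpow]
          intro h
          have := congrArg Complex.re h
          simp at this
        rw [e1, h_zero A hA]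
        simp
      · have hp0 : p ≠ 0 := by omega
        refine (norm_sub_le _ _).trans ?_
        rw [hsplit p hp0, norm_mul, hu p hp0, Complex.norm_real, Complex.norm_real,
          Real.norm_of_nonneg (by positivity), Real.norm_of_nonneg (h_nonneg p), mul_one,
          hhalf p hp0]
        have := h_le hA hp
        calc 1 / Real.sqrt p + A.h p ≤ 1 / Real.sqrt p + 1 / Real.sqrt p := by gcongr
          _ = _ := by ring
    · refine (habs _ (fun p => A.h p * ((p : ℝ) ^ (-(1 / 2) : ℝ) - A.h p)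
          + A.h p ^ 2 * ‖(p : ℂ) ^ (-(I * w) : ℂ) - 1‖) ?_).trans ?_
      · intro p hp
        have hp0 := hUne p hp
        have e1 : (p : ℂ) ^ (-(1 / 2 + I * w) : ℂ) - A.h p =
            (((p : ℝ) ^ (-(1 / 2) : ℝ) - A.h p : ℝ) : ℂ) * (p : ℂ) ^ (-(I * w) : ℂ)
              + (A.h p : ℂ) * ((p : ℂ) ^ (-(I * w) : ℂ) - 1) := by
          rw [hsplit p hp0]
          push_cast
          ring
        rw [e1]
        have h1 := norm_add_le ((((p : ℝ) ^ (-(1 / 2) : ℝ) - A.h p : ℝ) : ℂ) *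
          (p : ℂ) ^ (-(I * w) : ℂ)) ((A.h p : ℂ) * ((p : ℂ) ^ (-(I * w) : ℂ) - 1))
        rw [norm_mul, norm_mul, hu p hp0, Complex.norm_real, Complex.norm_real,
          Real.norm_of_nonneg (sub_nonneg.mpr (hhle p hp0)), Real.norm_of_nonneg (h_nonneg p),
          mul_one] at h1
        calc A.h p * _ ≤ A.h p * (((p : ℝ) ^ (-(1 / 2) : ℝ) - A.h p)
              + A.h p * ‖(p : ℂ) ^ (-(I * w) : ℂ) - 1‖) :=
              mul_le_mul_of_nonneg_left h1 (h_nonneg p)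
          _ = _ := by ring
      · rw [Finset.sum_add_distrib]
        nlinarith
    · refine (p1 w).trans ?_
      nlinarith
  · refine (hfin _ (1 + Real.log (1 + A.Y * |w|)) ?_ (by linarith) ?_ ?_).trans (le_of_eq rfl)
    · intro p
      rcases Nat.eq_zero_or_pos p with rfl | hp
      · rw [h_zero A hA]
        simp
      · have hp0 : p ≠ 0 := by omega
        rw [norm_mul, Complex.norm_real, Real.norm_of_nonneg (h_nonneg p)]
        have h1 : ‖(p : ℂ) ^ (-(I * w) : ℂ) - 1‖ ≤ 2 := by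
          refine (norm_sub_le _ _).trans ?_
          rw [hu p hp0, norm_one]
          norm_num
        have h2 := h_le hA hp
        calc A.h p * ‖(p : ℂ) ^ (-(I * w) : ℂ) - 1‖ ≤ 1 / Real.sqrt p * 2 :=
              mul_le_mul h2 h1 (norm_nonneg _) (by positivity)
          _ = _ := by ring
    · refine (habs _ (fun p => A.h p ^ 2 * ‖(p : ℂ) ^ (-(I * w) : ℂ) - 1‖) ?_).trans ?_
      · intro p _
        rw [norm_mul, Complex.norm_real, Real.norm_of_nonneg (h_nonneg p)]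
        exact le_of_eq (by ring)
      · nlinarith
    · refine (p2 w).trans ?_
      nlinarith

end Pool.Agent.Lib.GT
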