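import Mathlib
import Pool.Agent.Lib.MP_f9aece_nt_gt.E5a

/-!
Gaussian tails of `log |zeta|` on the critical line: E5, second part: the bound on the torus.
-/

set_option autoImplicit false

namespace Pool.Agent.Lib.GT

open MeasureTheory Set Filter Topology Complex ProbabilityTheory
open scoped ComplexConjugate
open Pool.Agent.Lib.J4 (Sg Yg rg Jok V2)

namespace LM

/-- profile -/
noncomputable def k2 (t : ℝ) : ℝ := 1 / (1 + |t|) ^ 2

lemma k2_nonneg (t : ℝ) : 0 ≤ k2 t := by unfold k2; positivity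

lemma integrable_k2 : Integrable k2 := by
  have h := integrable_one_add_norm (E := ℝ) (μ := volume) (r := 2) (by simp)
  refine h.congr (Eventually.of_forall fun t => ?_)
  unfold k2
  simp only [Real.norm_eq_abs]
  rw [Real.rpow_neg (by positivity), one_div]
  norm_cast

/-- the integral of the profile -/
noncomputable def c2 : ℝ := ∫ t, k2 t

lemma c2_nonneg : 0 ≤ c2 := integral_nonneg k2_nonneg

lemma integral_Lk2 {Λ : ℝ} (hΛ : 0 < Λ) : ∫ u, k2 (Λ * u) = c2 / Λ := by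
  rw [Measure.integral_comp_mul_left k2 Λ, abs_of_pos (inv_pos.2 hΛ), smul_eq_mul, mul_comm,
    ← div_eq_mul_inv]
  rfl

/-- integrals against the kernel -/
lemma kernel_le2 {Y Λ : ℝ} (hΛ : 0 < Λ) (hY : 0 ≤ Y) (hYΛ : Y ≤ Λ) {φ : ℝ → ℝ} {M0 M1 : ℝ}
    (hM0 : 0 ≤ M0) (hM1 : 0 ≤ M1) (h0 : ∀ u, 0 ≤ φ u) (h : ∀ u, φ u ≤ (M0 + M1 * |u|) * gr Y u) :
    ∫ u, kf Λ u * φ u ≤ c3 * M0 + c2 / Λ * M1 := by
  have hi : Integrable fun u => M0 * (Λ * k3 (Λ * u)) + M1 * k2 (Λ * u) :=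
    ((integrable_Lk3 hΛ).const_mul _).add ((integrable_k2.comp_mul_left' hΛ.ne').const_mul _)
  calc ∫ u, kf Λ u * φ u ≤ ∫ u, (M0 * (Λ * k3 (Λ * u)) + M1 * k2 (Λ * u)) := by
        refine integral_mono_of_nonneg
          (Eventually.of_forall fun u => mul_nonneg (kf_nonneg hΛ u) (h0 u)) hi
          (Eventually.of_forall fun u => ?_)
        simp only
        have h1 : gr Y u ≤ gr Λ u := by
          unfold gr
          refine Real.rpow_le_rpow (by positivity) ?_ (by norm_num)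
          have := mul_le_mul_of_nonneg_right hYΛ (abs_nonneg u)
          linarith
        have h2 := kf_mul_gr_le hΛ u
        have h3 := kf_nonneg hΛ u
        have h4 : |u| * (Λ * k3 (Λ * u)) ≤ k2 (Λ * u) := by
          unfold k3 k2
          rw [abs_mul, abs_of_pos hΛ]
          have hz : 0 ≤ Λ * |u| := by positivity
          rw [mul_one_div, mul_div_assoc', div_le_div_iff₀ (by positivity) (by positivity)]
          nlinarith [mul_nonneg (abs_nonneg u) hΛ.le, sq_nonneg (1 + Λ * |u|),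
            mul_nonneg hz (sq_nonneg (1 + Λ * |u|))]
        have h5 : 0 ≤ |u| := abs_nonneg u
        calc kf Λ u * φ u ≤ kf Λ u * ((M0 + M1 * |u|) * gr Λ u) := by
              refine mul_le_mul_of_nonneg_left ((h u).trans ?_) h3
              exact mul_le_mul_of_nonneg_left h1 (by positivity)
          _ = (M0 + M1 * |u|) * (kf Λ u * gr Λ u) := by ring
          _ ≤ (M0 + M1 * |u|) * (Λ * k3 (Λ * u)) := mul_le_mul_of_nonneg_left h2 (by positivity)
          _ = M0 * (Λ * k3 (Λ * u)) + M1 * (|u| * (Λ * k3 (Λ * u))) := by ring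
          _ ≤ _ := by gcongr
    _ = c3 * M0 + c2 / Λ * M1 := by
        rw [integral_add ((integrable_Lk3 hΛ).const_mul _)
          ((integrable_k2.comp_mul_left' hΛ.ne').const_mul _), integral_const_mul, integral_Lk3 hΛ,
          integral_const_mul, integral_Lk2 hΛ]
        ring

/-- the small primes are smaller than `e ^ Y` -/
lemma p0_lt {A : Par} (hA : A.Ok) : Real.log A.p0 < A.Y := by
  by_contra hcon
  push Not at hcon
  -- no groups
  have h1 : A.J = 0 := by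
    by_contra hJ
    have h2 := hA.hJ.2 0 (Nat.pos_of_ne_zero hJ)
    unfold Yg at h2
    simp at h2
    linarith
  have h3 : A.vt = 0 := by
    unfold Par.vt Par.U
    rw [h1]
    simp
  have h4 := hA.hs
  unfold Par.s2 at h4
  rw [h3] at h4
  norm_num at h4

lemma dep_Msm {A : Par} (hA : A.Ok) : Dep {p : ℕ | (p : ℝ) ≤ Real.exp A.Y} A.Msm := by
  unfold Par.Msm
  refine dep_prod fun p hp => ?_
  have hp1 := Finset.mem_Icc.mp (Finset.mem_filter.mp hp).1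
  have hmem : p ∈ {p : ℕ | (p : ℝ) ≤ Real.exp A.Y} := by
    change (p : ℝ) ≤ Real.exp A.Y
    have h1 : (p : ℝ) ≤ A.p0 := by exact_mod_cast hp1.2
    have h2 : (0 : ℝ) < A.p0 := by
      have : 0 < A.p0 := by have := hA.hp; omega
      exact_mod_cast this
    have h3 := (Real.log_lt_iff_lt_exp h2).mp (p0_lt hA)
    linarith
  exact (dep_coord hmem).comp fun z : ℝ => 1 - (A.h p : ℂ) * e1 z

/-- **The bound on the torus.** -/
lemma near_torus (h3 : SuBound) (h4 : RoughS) (h5 : FBound) (h6 : FNear) (hN : GroupNum) :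
    ∃ C : ℝ, 1 ≤ C ∧ ∀ p0 : ℕ, 1000 ≤ p0 → ∃ C' : ℝ, 1 ≤ C' ∧ ∀ A : Par, A.Ok → A.p0 = p0 →
    ∀ Λ a : ℝ, 200 ≤ Λ → 3 / 10 * Λ ≤ a → a ≤ 9 / 10 * Λ → A.Y ≤ 3 / 10 * Λ → 1 ≤ A.lam * A.Y →
    ∀ y : ℝ, ∫ x, A.W ∅ y x * ‖SU Λ a A.lam 0 x * (A.mo (-1) ∅ x * A.Msm x) - 1‖ ^ 2 ∂mu
      ≤ (C * (Real.exp (-A.v) + 1 / A.p0 + A.Y / Λ)
        + C' * (1 / Λ + Real.exp (-(2 * A.lam * A.Y)))) * A.G y := by
  obtain ⟨C1, hC1, h3⟩ := h3
  obtain ⟨C2, hC2, h4⟩ := h4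
  obtain ⟨C6, hC6, h6⟩ := h6
  have hc3 := c3_nonneg
  have hc2 := c2_nonneg
  refine ⟨C1 * C6 * (c3 + c2) + 1, ?_, fun p0 hp0 => ?_⟩
  · have : 0 ≤ C1 * C6 * (c3 + c2) := by positivity
    linarith
  obtain ⟨C5, hC5, h5⟩ := h5 p0 hp0
  obtain ⟨C7, hC7, h6⟩ := h6 p0 hp0
  refine ⟨C1 * C6 * C7 * c2 + C1 * C2 * C5 * c3 + 1, ?_, ?_⟩
  · have : 0 ≤ C1 * C6 * C7 * c2 + C1 * C2 * C5 * c3 := by positivity
    linarith
  intro A hA hAp Λ a hΛ ha1 ha2 hYΛ hlY y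
  have hΛ0 : 0 < Λ := by linarith
  have hY1 := hA.hY
  have hY0 : 0 < A.Y := by linarith
  have hl := hA.hl
  have hl1 := hA.hl1
  have hG := hA.G_pos y
  obtain ⟨B', hB'⟩ := A.W_le hA ∅ y
  obtain ⟨Bm, hBm⟩ := mo_bd A (-1) ∅
  have hW0 : ∀ x, 0 ≤ A.W ∅ y x := A.W_nonneg hA.b_pos.le ∅ y
  have hBm0 : 0 ≤ Bm := (norm_nonneg _).trans (hBm (fun _ => 0))
  have hcs := one_le_csm A.p0
  have hm : ∀ x, ‖A.mo (-1) ∅ x * A.Msm x‖ ≤ Bm * csm A.p0 := fun x => by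
    rw [norm_mul]
    exact mul_le_mul (hBm x) (norm_Msm_le hA x) (norm_nonneg _) hBm0
  have key := h3 A hA Λ a A.lam 0 hΛ ha1 ha2 hl hl1 (A.W ∅ y) (fun x => A.mo (-1) ∅ x * A.Msm x)
    (fun _ => 1) (max (max B' (Bm * csm A.p0)) 1) (A.continuous_W' hA ∅ y).measurable
    ((A.continuous_mo (-1) ∅).mul (continuous_Msm A)).measurable
    measurable_const (fun x => ⟨hW0 x, (hB' x).trans ((le_max_left _ _).trans (le_max_left _ _)),
      (hm x).trans ((le_max_right _ _).trans (le_max_left _ _)), by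
        rw [norm_one]
        exact le_max_right _ _⟩)
    (dep_W hN hA (Finset.empty_subset _) y) ((dep_mo hN hA (-1) ∅).mul (dep_Msm hA))
    (fun _ _ _ => rfl)
  simp only [zero_add] at key
  have hr := (h4 A.Y a A.lam hY1 (by linarith) hl).2 hlY
  -- the first integral
  have k1 := kernel_le2 (Y := A.Y) (Λ := Λ) (M0 := C6 * (Real.exp (-A.v) + 1 / A.p0) * A.G y)
    (M1 := C6 * (A.Y + C7) * A.G y)
    (φ := fun u => ∫ x, A.W ∅ y x * ‖A.F A.lam u x * (A.mo (-1) ∅ x * A.Msm x) - 1‖ ^ 2 ∂mu)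
    hΛ0 hY0.le (by linarith) (by positivity) (by positivity)
    (fun u => integral_nonneg fun x => mul_nonneg (hW0 x) (by positivity)) (fun u => by
      refine (h6 A hA hAp y u).trans (le_of_eq ?_)
      ring)
  have k2 := kernel_le2 (Y := A.Y) (Λ := Λ) (M0 := C5 * A.G y) (M1 := 0)
    (φ := fun u => ∫ x, A.W ∅ y x * (‖A.F A.lam u x‖ ^ 2 * ‖A.mo (-1) ∅ x * A.Msm x‖ ^ 2) ∂mu)
    hΛ0 hY0.le (by linarith) (by positivity) le_rfl
    (fun u => integral_nonneg fun x => mul_nonneg (hW0 x) (by positivity)) (fun u => by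
      refine (h5 A hA hAp y u).2.trans (le_of_eq ?_)
      ring)
  rw [mul_zero, add_zero] at k2
  set I1 : ℝ := ∫ u, kf Λ u * ∫ x, A.W ∅ y x * ‖A.F A.lam u x * (A.mo (-1) ∅ x * A.Msm x) - 1‖ ^ 2 ∂mu
    with hI1
  set I2 : ℝ := ∫ u, kf Λ u *
    ∫ x, A.W ∅ y x * (‖A.F A.lam u x‖ ^ 2 * ‖A.mo (-1) ∅ x * A.Msm x‖ ^ 2) ∂mu with hI2
  have hI2n : 0 ≤ I2 := integral_nonneg fun u => mul_nonneg (kf_nonneg hΛ0 u)
    (integral_nonneg fun x => mul_nonneg (hW0 x) (by positivity))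
  have hev : 0 < Real.exp (-(A.v : ℝ)) := Real.exp_pos _
  have hp0' : (0 : ℝ) ≤ 1 / A.p0 := by positivity
  have hYL : 0 ≤ A.Y / Λ := by positivity
  have h1L : 0 ≤ 1 / Λ := by positivity
  have hex := Real.exp_pos (-(2 * A.lam * A.Y))
  have hex2 : -(2 * A.lam * A.Y) = -(2 * A.lam * A.Y) := rfl
  calc ∫ x, A.W ∅ y x * ‖SU Λ a A.lam 0 x * (A.mo (-1) ∅ x * A.Msm x) - 1‖ ^ 2 ∂mu
      ≤ C1 * I1 + C1 * (∑ n ∈ RoS A.Y a, (n : ℝ) ^ (-(1 + 2 * A.lam))) * I2 := key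
    _ ≤ C1 * (c3 * (C6 * (Real.exp (-A.v) + 1 / A.p0) * A.G y) + c2 / Λ * (C6 * (A.Y + C7) * A.G y))
        + C1 * (C2 * Real.exp (-(2 * A.lam * A.Y))) * (c3 * (C5 * A.G y)) := by
        gcongr
    _ = (C1 * C6 * c3 * (Real.exp (-A.v) + 1 / A.p0) + C1 * C6 * c2 * (A.Y / Λ)
        + (C1 * C6 * C7 * c2 * (1 / Λ) + C1 * C2 * C5 * c3 * Real.exp (-(2 * A.lam * A.Y)))) * A.G y := by
        ring
    _ ≤ _ := by
        refine mul_le_mul_of_nonneg_right (add_le_add ?_ ?_) hG.le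
        · have e1 : (C1 * C6 * (c3 + c2) + 1) * (Real.exp (-A.v) + 1 / A.p0 + A.Y / Λ)
              = C1 * C6 * c3 * (Real.exp (-A.v) + 1 / A.p0) + C1 * C6 * c2 * (A.Y / Λ)
                + (C1 * C6 * c3 * (A.Y / Λ) + C1 * C6 * c2 * (Real.exp (-A.v) + 1 / A.p0)
                + (Real.exp (-A.v) + 1 / A.p0 + A.Y / Λ)) := by ring
          rw [e1]
          refine le_add_of_nonneg_right ?_
          positivity
        · have e2 : (C1 * C6 * C7 * c2 + C1 * C2 * C5 * c3 + 1)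
              * (1 / Λ + Real.exp (-(2 * A.lam * A.Y)))
              = C1 * C6 * C7 * c2 * (1 / Λ) + C1 * C2 * C5 * c3 * Real.exp (-(2 * A.lam * A.Y))
                + (C1 * C6 * C7 * c2 * Real.exp (-(2 * A.lam * A.Y)) + C1 * C2 * C5 * c3 * (1 / Λ)
                + (1 / Λ + Real.exp (-(2 * A.lam * A.Y)))) := by ring
          rw [e2]
          refine le_add_of_nonneg_right ?_
          positivity

end LM

end Pool.Agent.Lib.GT
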