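import Mathlib
import Pool.Agent.Lib.MP_f9aece_nt_gt.StmtsZ
import Pool.Agent.Lib.MP_f9aece_nt_gt.E4
import Pool.Agent.Lib.MP_f9aece_nt_h20.Kern2

/-!
Gaussian tails of `log |zeta|` on the critical line: E5, third part: zeta near the line is the smooth
sum up to an average of zeta on the line.
-/

set_option autoImplicit false

namespace Pool.Agent.Lib.GT

open MeasureTheory Set Filter Topology Complex
open scoped ComplexConjugate
open Pool.Agent.H20.Smooth (PK Kk kd PSum step_sum kernel_formula norm_int_Kk_le norm_pole_le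
  norm_zeta_le integrable_kern_zeta cM cM_nonneg c1 c1_nonneg continuous_zeta)

namespace NP

/-- the kernel -/
noncomputable def kw (w v : ℝ) : ℝ := w / (1 + w * |v|) ^ 6

lemma kw_nonneg {w : ℝ} (hw : 0 < w) (v : ℝ) : 0 ≤ kw w v := by unfold kw; positivity

lemma continuous_kw {w : ℝ} (hw : 0 < w) : Continuous (kw w) := by
  unfold kw
  refine Continuous.div continuous_const (by fun_prop) fun v => ?_
  positivity

/-- profile -/
noncomputable def k6 (t : ℝ) : ℝ := 1 / (1 + |t|) ^ 6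

lemma integrable_k6 : Integrable k6 := by
  have h := integrable_one_add_norm (E := ℝ) (μ := volume) (r := 6) (by simp)
  refine h.congr (Eventually.of_forall fun t => ?_)
  unfold k6
  simp only [Real.norm_eq_abs]
  rw [Real.rpow_neg (by positivity), one_div]
  norm_cast

/-- the integral of the profile -/
noncomputable def c6 : ℝ := ∫ t, k6 t

lemma c6_nonneg : 0 ≤ c6 := integral_nonneg fun t => by unfold k6; positivity

lemma kw_eq {w : ℝ} (hw : 0 < w) (v : ℝ) : kw w v = w * k6 (w * v) := by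
  unfold kw k6
  rw [abs_mul, abs_of_pos hw]
  ring

lemma integrable_kw {w : ℝ} (hw : 0 < w) : Integrable (kw w) :=
  ((integrable_k6.comp_mul_left' hw.ne').const_mul w).congr
    (Eventually.of_forall fun v => (kw_eq hw v).symm)

lemma integral_kw {w : ℝ} (hw : 0 < w) : ∫ v, kw w v = c6 := by
  have h : kw w = fun v => w * k6 (w * v) := funext (kw_eq hw)
  rw [h, integral_const_mul, Measure.integral_comp_mul_left k6 w, abs_of_pos (inv_pos.2 hw),
    smul_eq_mul, ← mul_assoc, mul_inv_cancel₀ hw.ne', one_mul]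
  rfl

/-- profile of the tail -/
noncomputable def kt (t : ℝ) : ℝ := (1 + |t|) ^ (-(3 / 2) : ℝ)

lemma kt_nonneg (t : ℝ) : 0 ≤ kt t := by unfold kt; positivity

lemma integrable_kt : Integrable kt := by
  have h := integrable_one_add_norm (E := ℝ) (μ := volume) (r := 3 / 2)
    (by rw [Module.finrank_self]; norm_num)
  exact h

/-- the integral of the profile -/
noncomputable def ct' : ℝ := ∫ t, kt t

lemma ct'_nonneg : 0 ≤ ct' := integral_nonneg kt_nonneg

/-- Cauchy-Schwarz on a set -/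
lemma cs {s : Set ℝ} {κ f : ℝ → ℝ} {c : ℝ} (hc : 0 < c) (hκ : IntegrableOn κ s)
    (hf : IntegrableOn (fun v => κ v * f v) s) (hff : IntegrableOn (fun v => κ v * f v ^ 2) s)
    (h0 : ∀ v, 0 ≤ κ v) (hm : ∫ v in s, κ v ≤ c) :
    (∫ v in s, κ v * f v) ^ 2 ≤ c * ∫ v in s, κ v * f v ^ 2 := by
  set A := ∫ v in s, κ v * f v with hA
  set B := ∫ v in s, κ v * f v ^ 2 with hB
  set m := ∫ v in s, κ v with hm'
  set x : ℝ := A / c with hx
  have h1 : 0 ≤ ∫ v in s, (κ v * f v ^ 2 - 2 * x * (κ v * f v) + x ^ 2 * κ v) := by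
    refine integral_nonneg fun v => ?_
    have e : κ v * f v ^ 2 - 2 * x * (κ v * f v) + x ^ 2 * κ v = κ v * (f v - x) ^ 2 := by ring
    change 0 ≤ κ v * f v ^ 2 - 2 * x * (κ v * f v) + x ^ 2 * κ v
    rw [e]
    exact mul_nonneg (h0 v) (sq_nonneg _)
  have i1 : IntegrableOn (fun v => κ v * f v ^ 2 - 2 * x * (κ v * f v)) s :=
    hff.sub (hf.const_mul _)
  rw [integral_add i1 (hκ.const_mul _), integral_sub hff (hf.const_mul _), integral_const_mul,
    integral_const_mul] at h1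
  have h2 : x ^ 2 * m ≤ x ^ 2 * c := mul_le_mul_of_nonneg_left hm (sq_nonneg x)
  have h3 : c * x = A := by
    rw [hx]
    field_simp
  have h4 : c * (B - 2 * x * A + x ^ 2 * c) = c * B - A ^ 2 := by
    have : c * (B - 2 * x * A + x ^ 2 * c) = c * B - 2 * (c * x) * A + (c * x) ^ 2 := by ring
    rw [this, h3]
    ring
  have h5 : 0 ≤ c * (B - 2 * x * A + x ^ 2 * c) := mul_nonneg hc.le (by linarith)
  linarith

/-- the far part of the integrand -/
lemma far_le {w t v Λ : ℝ} (hw : 1 ≤ w) (hΛ : 0 ≤ Λ) (ht0 : 0 ≤ t) (ht : t ≤ 2 * Real.exp Λ)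
    (hv : Real.exp (1 / 2 * Λ) ≤ |v|) :
    kw w v * ‖riemannZeta (1 / 2 + I * (t + v : ℝ))‖ ≤ 240 * Real.exp (-(1 / 4 * Λ)) * kt v := by
  have hR1 : 1 ≤ Real.exp (1 / 2 * Λ) := Real.one_le_exp (by positivity)
  set z : ℝ := |v| with hz
  have hz1 : 1 ≤ z := hR1.trans hv
  have hz0 : 0 < z := by linarith
  have h1 : Real.exp Λ ≤ z ^ 2 := by
    have e : Real.exp Λ = Real.exp (1 / 2 * Λ) ^ 2 := by
      rw [← Real.exp_nat_mul]
      congr 1
      push_cast
      ring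
    rw [e]
    gcongr
  have h2 : 1 + |t + v| ≤ 4 * z ^ 2 := by
    have h3 := abs_add_le t v
    rw [abs_of_nonneg ht0] at h3
    nlinarith
  have h3 : ‖riemannZeta (1 / 2 + I * (t + v : ℝ))‖ ≤ 80 * z ^ 4 := by
    refine (norm_zeta_le (t + v)).trans ?_
    calc 5 * (1 + |t + v|) ^ 2 ≤ 5 * (4 * z ^ 2) ^ 2 := by gcongr
      _ = 80 * z ^ 4 := by ring
  have h4 : kw w v ≤ 1 / z ^ 6 := by
    unfold kw
    rw [← hz, div_le_div_iff₀ (by positivity) (by positivity), one_mul]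
    calc w * z ^ 6 ≤ w ^ 6 * z ^ 6 := by
          have : w ≤ w ^ 6 := le_self_pow₀ hw (by norm_num)
          gcongr
      _ = (w * z) ^ 6 := by ring
      _ ≤ (1 + w * z) ^ 6 := by
          have : 0 ≤ w * z := by positivity
          gcongr
          linarith
  have h5 : kw w v * ‖riemannZeta (1 / 2 + I * (t + v : ℝ))‖ ≤ 80 * z ^ (-2 : ℝ) := by
    calc kw w v * ‖riemannZeta (1 / 2 + I * (t + v : ℝ))‖ ≤ 1 / z ^ 6 * (80 * z ^ 4) := by
          gcongr
      _ = 80 * (z ^ 2)⁻¹ := by field_simp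
      _ = 80 * z ^ (-2 : ℝ) := by
          rw [Real.rpow_neg hz0.le]
          norm_cast
  refine h5.trans ?_
  have e1 : z ^ (-2 : ℝ) = z ^ (-(1 / 2) : ℝ) * z ^ (-(3 / 2) : ℝ) := by
    rw [← Real.rpow_add hz0]
    norm_num
  have h6 : z ^ (-(1 / 2) : ℝ) ≤ Real.exp (-(1 / 4 * Λ)) := by
    have h7 : Real.exp (-(1 / 4 * Λ)) = Real.exp (1 / 2 * Λ) ^ (-(1 / 2) : ℝ) := by
      rw [← Real.exp_mul]
      congr 1
      ring
    rw [h7]
    exact Real.rpow_le_rpow_of_nonpos (Real.exp_pos _) hv (by norm_num)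
  have h8 : z ^ (-(3 / 2) : ℝ) ≤ 3 * kt v := by
    unfold kt
    rw [← hz]
    have h9 : (1 + z) / 2 ≤ z := by linarith
    have h10 : z ^ (-(3 / 2) : ℝ) ≤ ((1 + z) / 2) ^ (-(3 / 2) : ℝ) :=
      Real.rpow_le_rpow_of_nonpos (by positivity) h9 (by norm_num)
    refine h10.trans ?_
    rw [Real.div_rpow (by positivity) (by norm_num), div_eq_mul_inv, mul_comm]
    refine mul_le_mul_of_nonneg_right ?_ (by positivity)
    rw [Real.rpow_neg (by norm_num : (0 : ℝ) ≤ 2), inv_inv]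
    have h11 : (2 : ℝ) ^ (3 / 2 : ℝ) = 2 * Real.sqrt 2 := by
      rw [Real.sqrt_eq_rpow, show (3 / 2 : ℝ) = 1 + 1 / 2 by norm_num,
        Real.rpow_add (by norm_num), Real.rpow_one]
    rw [h11]
    have h12 : Real.sqrt 2 ≤ 3 / 2 := by
      rw [Real.sqrt_le_left (by norm_num)]
      norm_num
    linarith
  rw [e1]
  have h13 : 0 ≤ z ^ (-(3 / 2) : ℝ) := by positivity
  have h14 := kt_nonneg v
  calc 80 * (z ^ (-(1 / 2) : ℝ) * z ^ (-(3 / 2) : ℝ))
      ≤ 80 * (Real.exp (-(1 / 4 * Λ)) * (3 * kt v)) := by gcongr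
    _ = _ := by ring

lemma kw_le {Λ : ℝ} (hΛ : 0 < Λ) (v : ℝ) : kw (Λ / 20) v ≤ 20 ^ 5 * (Λ / (1 + Λ * |v|) ^ 6) := by
  unfold kw
  have hv := abs_nonneg v
  have e : Λ / 20 / (1 + Λ / 20 * |v|) ^ 6 = 20 ^ 5 * (Λ / (20 + Λ * |v|) ^ 6) := by
    field_simp
  rw [e]
  gcongr
  norm_num

end NP

open NP in
/-- near the line: zeta is the smooth sum up to an average of zeta on the line -/
theorem near_pt : ∃ C : ℝ, 0 ≤ C ∧ ∀ Λ lam t : ℝ, 200 ≤ Λ → 0 < lam → lam ≤ 1 / 4 → 20 ≤ lam * Λ →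
    Real.exp (19 / 20 * Λ) ≤ t → t ≤ 2 * Real.exp Λ →
    ‖riemannZeta (pt lam t) - SU Λ (17 / 20 * Λ) lam 0 (om t)‖ ^ 2
      ≤ C * (Real.exp (-(1 / 2 * Λ)) + Real.exp (-(8 / 5 * (lam * Λ))) *
        ∫ v in Icc (-Real.exp (1 / 2 * Λ)) (Real.exp (1 / 2 * Λ)), Λ / (1 + Λ * |v|) ^ 6
          * ‖riemannZeta (1 / 2 + I * (t + v : ℝ))‖ ^ 2) := by
  have hc1 := c1_nonneg
  have hcM := cM_nonneg 6
  have hc6 := c6_nonneg
  have hct := ct'_nonneg
  refine ⟨2 * c1 ^ 2 + 4 * (64 * cM 6) ^ 2 * ((c6 + 1) * 20 ^ 5 + (240 * ct') ^ 2), by positivity, ?_⟩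
  intro Λ lam t hΛ hl hl4 hlΛ ht1 ht2
  have hΛ0 : 0 < Λ := by linarith
  have ht0 : 0 < t := (Real.exp_pos _).trans_le ht1
  set w : ℝ := Λ / 20 with hw
  have hw0 : 0 < w := by positivity
  have hw1 : 1 ≤ w := by rw [hw]; linarith
  have hδw : 1 ≤ lam * w := by rw [hw]; linarith
  set x0 : ℝ := 4 / 5 * Λ with hx0
  have hxw : x0 + w = 17 / 20 * Λ := by rw [hx0, hw]; ring
  have hpt : pt lam t = ((1 / 2 + lam : ℝ) : ℂ) + I * t := by
    unfold pt
    push_cast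
    ring
  have hk := kernel_formula (x0 := x0) hl hw0 hδw ht0
  -- the smooth sum
  have hsu : (∫ x in x0..(x0 + w), (kd (x0 + w) w x : ℂ)
      * PSum (fun n => (n : ℂ) ^ (-((1 / 2 + lam : ℝ) + I * t) : ℂ)) x)
      = SU Λ (17 / 20 * Λ) lam 0 (om t) := by
    have h := step_sum hw0 (x0 + w) (fun n => (n : ℂ) ^ (-((1 / 2 + lam : ℝ) + I * t) : ℂ))
      (N := ⌈Real.exp (x0 + w)⌉₊) (Nat.le_ceil _)
    rw [add_sub_cancel_right] at h
    rw [← h, LM.su_eq hΛ0 (N := ⌈Real.exp (x0 + w)⌉₊) (by rw [← hxw]; exact Nat.le_ceil _)]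
    unfold LM.SN
    refine Finset.sum_congr rfl fun n hn => ?_
    have hn1 : 1 ≤ n := (Finset.mem_Icc.mp hn).1
    have hn0 : n ≠ 0 := by omega
    have hnC : (n : ℂ) ≠ 0 := by exact_mod_cast hn0
    rw [ch_om t hn0, ← Complex.cpow_add _ _ hnC, hxw]
    congr 2
    push_cast
    ring
  rw [hsu] at hk
  set D : ℂ := PK x0 w (1 - ((1 / 2 + lam : ℝ) + I * t)) / (1 - ((1 / 2 + lam : ℝ) + I * t)) with hD
  set K : ℂ := 1 / (2 * Real.pi : ℂ) * ∫ v : ℝ, Kk lam x0 w v * riemannZeta (1 / 2 + I * (t + v : ℝ))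
    with hK
  have hz : riemannZeta (pt lam t) - SU Λ (17 / 20 * Λ) lam 0 (om t) = K - D := by
    rw [hpt, hk]
    ring
  -- the pole
  have hDb : ‖D‖ ^ 2 ≤ c1 ^ 2 * Real.exp (-(1 / 2 * Λ)) := by
    have h1 := norm_pole_le (x0 := x0) hw0 hl hl4 ht0
    rw [← hD] at h1
    have h2 : c1 * Real.exp ((1 / 2 - lam) * (x0 + w)) / t ≤ c1 * Real.exp (-(1 / 4 * Λ)) := by
      rw [div_le_iff₀ ht0, mul_assoc]
      refine mul_le_mul_of_nonneg_left ?_ hc1
      calc Real.exp ((1 / 2 - lam) * (x0 + w)) ≤ Real.exp (-(1 / 4 * Λ) + 19 / 20 * Λ) := by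
            refine Real.exp_le_exp.mpr ?_
            rw [hxw]
            nlinarith
        _ = Real.exp (-(1 / 4 * Λ)) * Real.exp (19 / 20 * Λ) := Real.exp_add _ _
        _ ≤ Real.exp (-(1 / 4 * Λ)) * t := by gcongr
    calc ‖D‖ ^ 2 ≤ (c1 * Real.exp (-(1 / 4 * Λ))) ^ 2 := by
          have := h1.trans h2
          gcongr
      _ = c1 ^ 2 * Real.exp (-(1 / 2 * Λ)) := by
          rw [mul_pow, ← Real.exp_nat_mul]
          congr 2
          push_cast
          ring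
  -- the average
  set f : ℝ → ℝ := fun v => ‖riemannZeta (1 / 2 + I * (t + v : ℝ))‖ with hf
  have hf0 : ∀ v, 0 ≤ f v := fun v => norm_nonneg _
  have hfc : Continuous f := (continuous_zeta.comp (continuous_const.add continuous_id)).norm
  have hKb := norm_int_Kk_le (x0 := x0) hl hw0 hδw t
  rw [← hK] at hKb
  set R : ℝ := Real.exp (1 / 2 * Λ) with hR
  have hint : Integrable fun v => kw w v * f v := integrable_kern_zeta hw0 t
  have hI : (∫ v : ℝ, w / (1 + w * |v|) ^ 6 * ‖riemannZeta (1 / 2 + I * (t + v : ℝ))‖)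
      = (∫ v in Icc (-R) R, kw w v * f v) + ∫ v in (Icc (-R) R)ᶜ, kw w v * f v :=
    (integral_add_compl measurableSet_Icc hint).symm
  set I1 : ℝ := ∫ v in Icc (-R) R, kw w v * f v with hI1
  set I2 : ℝ := ∫ v in (Icc (-R) R)ᶜ, kw w v * f v with hI2
  set J : ℝ := ∫ v in Icc (-R) R, Λ / (1 + Λ * |v|) ^ 6 * ‖riemannZeta (1 / 2 + I * (t + v : ℝ))‖ ^ 2
    with hJ
  have hJ0 : 0 ≤ J := integral_nonneg fun v => by positivity
  have hI10 : 0 ≤ I1 := integral_nonneg fun v => mul_nonneg (kw_nonneg hw0 v) (hf0 v)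
  have hI20 : 0 ≤ I2 := integral_nonneg fun v => mul_nonneg (kw_nonneg hw0 v) (hf0 v)
  have hck := continuous_kw hw0
  have hfar : I2 ≤ 240 * ct' * Real.exp (-(1 / 4 * Λ)) := by
    calc I2 ≤ ∫ v in (Icc (-R) R)ᶜ, 240 * Real.exp (-(1 / 4 * Λ)) * kt v := by
          refine setIntegral_mono_on hint.integrableOn ((integrable_kt.const_mul _).integrableOn)
            measurableSet_Icc.compl fun v hv => ?_
          refine far_le hw1 hΛ0.le ht0.le ht2 ?_
          by_contra hcon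
          push Not at hcon
          exact hv (abs_le.mp hcon.le)
      _ ≤ ∫ v, 240 * Real.exp (-(1 / 4 * Λ)) * kt v :=
          setIntegral_le_integral (integrable_kt.const_mul _)
            (Eventually.of_forall fun v => mul_nonneg (by positivity) (kt_nonneg v))
      _ = 240 * ct' * Real.exp (-(1 / 4 * Λ)) := by
          rw [integral_const_mul]
          unfold ct'
          ring
  have hnear : I1 ^ 2 ≤ (c6 + 1) * (20 ^ 5 * J) := by
    have hci : Continuous fun v => kw w v * f v ^ 2 := hck.mul (hfc.pow 2)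
    have h1 : ∫ v in Icc (-R) R, kw w v ≤ c6 + 1 := by
      have h2 := setIntegral_le_integral (s := Icc (-R) R) (integrable_kw hw0)
        (Eventually.of_forall (kw_nonneg hw0))
      rw [integral_kw hw0] at h2
      linarith
    have h2 := cs (s := Icc (-R) R) (κ := kw w) (f := f) (c := c6 + 1) (by linarith)
      (integrable_kw hw0).integrableOn hint.integrableOn hci.integrableOn_Icc (kw_nonneg hw0) h1
    refine h2.trans (mul_le_mul_of_nonneg_left ?_ (by linarith))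
    rw [hJ, ← integral_const_mul]
    refine setIntegral_mono_on hci.integrableOn_Icc ?_ measurableSet_Icc fun v _ => ?_
    · refine (Continuous.integrableOn_Icc ?_)
      refine continuous_const.mul (Continuous.mul ?_ (hfc.pow 2))
      refine Continuous.div continuous_const (by fun_prop) fun v => ?_
      positivity
    · rw [← mul_assoc]
      exact mul_le_mul_of_nonneg_right (kw_le hΛ0 v) (sq_nonneg _)
  -- assembly
  rw [hI] at hKb
  set E : ℝ := Real.exp (-(lam * x0)) with hE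
  have hE0 : 0 < E := Real.exp_pos _
  have hE1 : E ≤ 1 := Real.exp_le_one_iff.mpr (by
    have : 0 ≤ lam * x0 := by positivity
    linarith)
  have hE2 : E ^ 2 = Real.exp (-(8 / 5 * (lam * Λ))) := by
    rw [hE, ← Real.exp_nat_mul, hx0]
    congr 1
    push_cast
    ring
  set q : ℝ := Real.exp (-(1 / 2 * Λ)) with hq
  have hq0 : 0 < q := Real.exp_pos _
  have hq2 : Real.exp (-(1 / 4 * Λ)) ^ 2 = q := by
    rw [hq, ← Real.exp_nat_mul]
    congr 1
    push_cast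
    ring
  have hfar2 : I2 ^ 2 ≤ (240 * ct') ^ 2 * q := by
    calc I2 ^ 2 ≤ (240 * ct' * Real.exp (-(1 / 4 * Λ))) ^ 2 := by gcongr
      _ = (240 * ct') ^ 2 * q := by rw [mul_pow, hq2]
  have hKb2 : ‖K‖ ^ 2 ≤ 2 * (64 * cM 6) ^ 2 * ((c6 + 1) * 20 ^ 5 * (E ^ 2 * J) + (240 * ct') ^ 2 * q) := by
    calc ‖K‖ ^ 2 ≤ (64 * cM 6 * E * (I1 + I2)) ^ 2 := by gcongr
      _ = (64 * cM 6) ^ 2 * E ^ 2 * (I1 + I2) ^ 2 := by ring
      _ ≤ (64 * cM 6) ^ 2 * E ^ 2 * (2 * I1 ^ 2 + 2 * I2 ^ 2) := by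
          refine mul_le_mul_of_nonneg_left ?_ (by positivity)
          nlinarith [sq_nonneg (I1 - I2)]
      _ ≤ (64 * cM 6) ^ 2 * E ^ 2 * (2 * ((c6 + 1) * (20 ^ 5 * J)) + 2 * ((240 * ct') ^ 2 * q)) := by
          gcongr
      _ = 2 * (64 * cM 6) ^ 2 * ((c6 + 1) * 20 ^ 5 * (E ^ 2 * J) + (240 * ct') ^ 2 * (E ^ 2 * q)) := by
          ring
      _ ≤ _ := by
          have h3 : E ^ 2 * q ≤ q := mul_le_of_le_one_left hq0.le (pow_le_one₀ hE0.le hE1)
          gcongr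
  rw [hz, ← hE2]
  have hEJ : 0 ≤ E ^ 2 * J := by positivity
  calc ‖K - D‖ ^ 2 ≤ (‖K‖ + ‖D‖) ^ 2 := by
        have := norm_sub_le K D
        gcongr
    _ ≤ 2 * ‖K‖ ^ 2 + 2 * ‖D‖ ^ 2 := by nlinarith [sq_nonneg (‖K‖ - ‖D‖)]
    _ ≤ 2 * (2 * (64 * cM 6) ^ 2 * ((c6 + 1) * 20 ^ 5 * (E ^ 2 * J) + (240 * ct') ^ 2 * q))
        + 2 * (c1 ^ 2 * q) := by gcongr
    _ ≤ _ := by
        have e1 : (2 * c1 ^ 2 + 4 * (64 * cM 6) ^ 2 * ((c6 + 1) * 20 ^ 5 + (240 * ct') ^ 2))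
            * (q + E ^ 2 * J)
            = 2 * (2 * (64 * cM 6) ^ 2 * ((c6 + 1) * 20 ^ 5 * (E ^ 2 * J) + (240 * ct') ^ 2 * q))
              + 2 * (c1 ^ 2 * q) + (2 * c1 ^ 2 * (E ^ 2 * J)
              + 4 * (64 * cM 6) ^ 2 * ((c6 + 1) * 20 ^ 5 * q + (240 * ct') ^ 2 * (E ^ 2 * J))) := by
          ring
        rw [e1]
        refine le_add_of_nonneg_right ?_
        positivity

end Pool.Agent.Lib.GT
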