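import Mathlib
import Pool.Agent.Lib.MP_f9aece_nt_gt.E5a
import Pool.Agent.Lib.MP_f9aece_nt_h40.Growth

/-!
Gaussian tails of `log |zeta|` on the critical line: E5, the crude bound for bounded `T`.
-/

set_option autoImplicit false

namespace Pool.Agent.Lib.GT

open MeasureTheory Set Filter Topology Complex ProbabilityTheory
open scoped ComplexConjugate
open Pool.Agent.Lib.J4 (Sg Yg rg Jok V2)

namespace LM

lemma zeta_crude {s : ℂ} (hs : 0 < s.re) (h1 : 1 ≤ s.im) :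
    ‖riemannZeta s‖ ≤ 6 * (1 + ‖s‖) ^ 2 := by
  have hne : s ≠ 1 := by
    intro h
    rw [h] at h1
    norm_num at h1
  have h2 := Pool.Agent.Lib.MP_f9aece_nt_h40.F_bound hs
  unfold Pool.Agent.Lib.MP_f9aece_nt_h40.F at h2
  rw [Pool.Agent.Lib.MP_f9aece_nt_h40.Z1_eq hne, norm_div, norm_mul] at h2
  have h3 : 1 ≤ ‖s - 1‖ := by
    have h4 := Complex.abs_im_le_norm (s - 1)
    rw [Complex.sub_im, Complex.one_im, sub_zero, abs_of_pos (by linarith)] at h4
    linarith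
  have h5 : 1 ≤ ‖s + 1‖ := Pool.Agent.Lib.MP_f9aece_nt_h40.one_le_norm_add_one hs
  have h6 : ‖s + 1‖ ≤ 1 + ‖s‖ := by
    have := norm_add_le s 1
    rw [norm_one] at this
    linarith
  rw [div_le_iff₀ (by linarith)] at h2
  have h7 : 0 ≤ ‖riemannZeta s‖ := norm_nonneg _
  have h8 : 0 ≤ ‖s‖ := norm_nonneg _
  calc ‖riemannZeta s‖ ≤ ‖s - 1‖ * ‖riemannZeta s‖ := le_mul_of_one_le_left h7 h3
    _ ≤ 6 * (1 + ‖s‖) * ‖s + 1‖ := h2
    _ ≤ 6 * (1 + ‖s‖) * (1 + ‖s‖) := by gcongr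
    _ = _ := by ring

/-- crude bound for the mollifier -/
lemma mo_crude (hN : GroupNum) {A : Par} (hA : A.Ok) (s : Finset ℕ) (x : Om) :
    ‖A.mo (-1) s x‖ ≤ Real.exp (Real.exp A.Y) := by
  obtain ⟨h1, -, h3, h4, -⟩ := hN A hA
  unfold Par.mo
  rw [norm_prod]
  calc ∏ g ∈ Finset.range A.J \ s, ‖tex (KK (A.r g)) (-1 * A.P g x)‖
      ≤ ∏ g ∈ Finset.range A.J \ s, Real.exp (∑ p ∈ A.S g, (1 : ℝ)) := by
        refine Finset.prod_le_prod (fun g _ => norm_nonneg _) fun g _ => ?_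
        refine (norm_tex_le _ _).trans (Real.exp_le_exp.mpr ?_)
        rw [norm_mul, norm_neg, norm_one, one_mul]
        refine (norm_lin_le _ _ _).trans (Finset.sum_le_sum fun p hp => ?_)
        exact norm_h_le hA (h1 g p hp).1.one_lt.le
    _ = Real.exp (∑ g ∈ Finset.range A.J \ s, ∑ p ∈ A.S g, (1 : ℝ)) := (Real.exp_sum _ _).symm
    _ ≤ Real.exp (∑ g ∈ Finset.range A.J, ∑ p ∈ A.S g, (1 : ℝ)) := by
        refine Real.exp_le_exp.mpr ?_
        refine Finset.sum_le_sum_of_subset_of_nonneg Finset.sdiff_subset fun g _ _ => ?_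
        exact Finset.sum_nonneg fun _ _ => zero_le_one
    _ = Real.exp (∑ p ∈ A.U, (1 : ℝ)) := by
        unfold Par.U
        rw [Finset.sum_biUnion fun g _ g' _ hgg => h3 g g' hgg]
    _ ≤ Real.exp (Real.exp A.Y) := by
        refine Real.exp_le_exp.mpr ?_
        have h5 : A.U ⊆ Finset.Icc 1 ⌊Real.exp A.Y⌋₊ := by
          intro p hp
          obtain ⟨h6, -, h7⟩ := (h4 p).mp hp
          exact Finset.mem_Icc.mpr ⟨h6.one_lt.le, Nat.le_floor h7⟩
        have h8 := Finset.card_le_card h5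
        rw [Nat.card_Icc, Nat.add_sub_cancel] at h8
        calc ∑ p ∈ A.U, (1 : ℝ) = (A.U.card : ℝ) := by simp
          _ ≤ (⌊Real.exp A.Y⌋₊ : ℝ) := by exact_mod_cast h8
          _ ≤ _ := Nat.floor_le (Real.exp_pos _).le

/-- **Crude bound for bounded `T`.** -/
lemma crude (hN : GroupNum) (p0 : ℕ) (L0 : ℝ) : ∃ B : ℝ, 0 ≤ B ∧ ∀ A : Par, A.Ok → A.p0 = p0 →
    ∀ T : ℝ, 3 ≤ T → Len A T → Real.log T ≤ L0 → A.lam ≤ 1 / 4 → ∀ x : ℝ, |x| ≤ T →
    ∀ t ∈ Icc (T ^ (19 / 20 : ℝ)) (x + T),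
    ‖riemannZeta (pt A.lam t) * (A.mo (-1) ∅ (om t) * A.Msm (om t)) - 1‖ ^ 2 ≤ B := by
  refine ⟨(6 * (1 + (1 + 2 * Real.exp L0)) ^ 2 * (Real.exp (Real.exp L0) * csm p0) + 1) ^ 2,
    by positivity, ?_⟩
  intro A hA hAp T hT hL hTL hl4 x hx t ht
  have hT0 : 0 < T := by linarith
  have hl := hA.hl
  obtain ⟨hK1, hK2⟩ := log_ge hA hL
  have hv : (4 : ℝ) ≤ A.v := by exact_mod_cast hA.hv
  have hY1 := hA.hY
  have hYL : A.Y ≤ L0 := by
    have : A.Y ≤ A.v * A.Y := by nlinarith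
    nlinarith
  have hTe : T ≤ Real.exp L0 := by
    rw [← Real.log_le_iff_le_exp hT0]
    exact hTL
  have ht1 : 1 ≤ t := by
    refine le_trans ?_ ht.1
    exact Real.one_le_rpow (by linarith) (by norm_num)
  have ht2 : t ≤ 2 * Real.exp L0 := by
    have h1 := ht.2
    have h2 := (abs_le.mp hx).2
    linarith
  have hre : (pt A.lam t).re = 1 / 2 + A.lam := by
    unfold pt
    simp
  have him : (pt A.lam t).im = t := by
    unfold pt
    simp
  have hz := zeta_crude (s := pt A.lam t) (by rw [hre]; linarith) (by rw [him]; exact ht1)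
  have hn : ‖pt A.lam t‖ ≤ 1 + 2 * Real.exp L0 := by
    have h1 := Complex.norm_le_abs_re_add_abs_im (pt A.lam t)
    rw [hre, him, abs_of_nonneg (by linarith), abs_of_nonneg (by linarith)] at h1
    linarith
  have hm := mo_crude hN hA ∅ (om t)
  have hM := norm_Msm_le hA (om t)
  rw [hAp] at hM
  have hcs := one_le_csm p0
  have hn0 := norm_nonneg (pt A.lam t)
  refine pow_le_pow_left₀ (norm_nonneg _) ?_ 2
  refine (norm_sub_le _ _).trans ?_
  rw [norm_one, norm_mul, norm_mul]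
  refine add_le_add ?_ le_rfl
  have h5 : ‖riemannZeta (pt A.lam t)‖ ≤ 6 * (1 + (1 + 2 * Real.exp L0)) ^ 2 :=
    hz.trans (by gcongr)
  have h6 : ‖A.mo (-1) ∅ (om t)‖ ≤ Real.exp (Real.exp L0) :=
    hm.trans (Real.exp_le_exp.mpr (Real.exp_le_exp.mpr hYL))
  have h7 := norm_nonneg (A.mo (-1) ∅ (om t))
  have h8 := norm_nonneg (A.Msm (om t))
  gcongr

end LM

end Pool.Agent.Lib.GT
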