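import Mathlib
import Pool.Agent.Lib.MP_f9aece_nt_gt.E5b
import Pool.Agent.Lib.MP_f9aece_nt_gt.E5c
import Pool.Agent.Lib.MP_f9aece_nt_gt.E5d

/-!
Gaussian tails of `log |zeta|` on the critical line: E5, the weights and zeta near the line.
-/

set_option autoImplicit false

namespace Pool.Agent.Lib.GT

open MeasureTheory Set Filter Topology Complex ProbabilityTheory
open scoped ComplexConjugate
open Pool.Agent.Lib.J4 (Sg Yg rg Jok V2)

namespace LM

/-- profile -/
noncomputable def k7 (t : ℝ) : ℝ := (1 + |t|) ^ (-(7 / 4) : ℝ)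

lemma k7_nonneg (t : ℝ) : 0 ≤ k7 t := by unfold k7; positivity

lemma integrable_k7 : Integrable k7 := by
  have h := integrable_one_add_norm (E := ℝ) (μ := volume) (r := 7 / 4)
    (by rw [Module.finrank_self]; norm_num)
  exact h

/-- the integral of the profile -/
noncomputable def c7 : ℝ := ∫ t, k7 t

lemma c7_nonneg : 0 ≤ c7 := integral_nonneg k7_nonneg

lemma k6_mul_gr {Λ : ℝ} (hΛ : 0 < Λ) (v : ℝ) :
    Λ / (1 + Λ * |v|) ^ 6 * gr Λ v = Λ * k7 (Λ * v) := by
  unfold gr k7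
  rw [abs_mul, abs_of_pos hΛ]
  have h0 : 0 ≤ Λ * |v| := by positivity
  set z : ℝ := 1 + Λ * |v| with hz
  have hz1 : 0 < z := by linarith
  have e : z ^ (-(7 / 4) : ℝ) = z ^ (17 / 4 : ℝ) * (z ^ 6)⁻¹ := by
    rw [← Real.rpow_natCast z 6, ← Real.rpow_neg hz1.le, ← Real.rpow_add hz1]
    norm_num
  rw [e]
  ring

lemma integral_Lk7 {Λ : ℝ} (hΛ : 0 < Λ) : ∫ v, Λ * k7 (Λ * v) = c7 := by
  rw [integral_const_mul, Measure.integral_comp_mul_left k7 Λ, abs_of_pos (inv_pos.2 hΛ),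
    smul_eq_mul, ← mul_assoc, mul_inv_cancel₀ hΛ.ne', one_mul]
  rfl

lemma integrable_Lk7 {Λ : ℝ} (hΛ : 0 < Λ) : Integrable fun v => Λ * k7 (Λ * v) :=
  (integrable_k7.comp_mul_left' hΛ.ne').const_mul Λ

/-- the mean of the average of zeta on the line -/
lemma avg_mean {A : Par} (hA : A.Ok) {T x y M : ℝ} (hT : 3 ≤ T) (hL : Len A T) (hM : 0 ≤ M)
    (h : ∀ v : ℝ, |v| ≤ Real.sqrt T →
      ∫⁻ t in Icc (T ^ (19 / 20 : ℝ)) (x + T), ENNReal.ofReal (A.W ∅ y (om t)
        * (‖A.mo (-1) ∅ (om t)‖ ^ 2 * ‖riemannZeta (1 / 2 + I * (t + v : ℝ))‖ ^ 2)) ∂(un x T)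
      ≤ ENNReal.ofReal (M * gr (Real.log T) v)) :
    ∫⁻ t in Icc (T ^ (19 / 20 : ℝ)) (x + T), ENNReal.ofReal (A.W ∅ y (om t)
        * (‖A.mo (-1) ∅ (om t)‖ ^ 2 *
          ∫ v in Icc (-Real.exp (1 / 2 * Real.log T)) (Real.exp (1 / 2 * Real.log T)),
            Real.log T / (1 + Real.log T * |v|) ^ 6
              * ‖riemannZeta (1 / 2 + I * (t + v : ℝ))‖ ^ 2)) ∂(un x T)
      ≤ ENNReal.ofReal (c7 * M) := by
  have hT0 : 0 < T := by linarith
  have hprob := prob_un x hT0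
  have hΛ2 := (log_ge hA hL).2
  have hsq : Real.exp (1 / 2 * Real.log T) = Real.sqrt T := by
    rw [Real.sqrt_eq_rpow, rpow_eq hT0]
  rw [hsq]
  set Λ : ℝ := Real.log T with hΛ
  have hΛ0 : 0 < Λ := by linarith
  set R : ℝ := Real.sqrt T with hR
  have hW0 : ∀ z, 0 ≤ A.W ∅ y z := A.W_nonneg hA.b_pos.le ∅ y
  set κ : ℝ → ℝ := fun v => Λ / (1 + Λ * |v|) ^ 6 with hκ
  have hκ0 : ∀ v, 0 ≤ κ v := fun v => by rw [hκ]; positivity
  have hκc : Continuous κ := by
    rw [hκ]
    refine Continuous.div continuous_const (by fun_prop) fun v => ?_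
    positivity
  set E : ℝ → ℝ → ℝ := fun t v => A.W ∅ y (om t)
        * (‖A.mo (-1) ∅ (om t)‖ ^ 2 * ‖riemannZeta (1 / 2 + I * (t + v : ℝ))‖ ^ 2) with hE
  have hE0 : ∀ t v, 0 ≤ E t v := fun t v => mul_nonneg (hW0 _) (by positivity)
  have hcE : Continuous fun q : ℝ × ℝ => κ q.2 * E q.1 q.2 := by
    have c1 : Continuous fun q : ℝ × ℝ => om q.1 := continuous_om.comp continuous_fst
    have c4 : Continuous fun q : ℝ × ℝ => A.W ∅ y (om q.1) := (A.continuous_W' hA ∅ y).comp c1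
    have c5 : Continuous fun q : ℝ × ℝ => A.mo (-1) ∅ (om q.1) := (A.continuous_mo (-1) ∅).comp c1
    have c6 : Continuous fun q : ℝ × ℝ => riemannZeta (1 / 2 + I * (q.1 + q.2 : ℝ)) :=
      Continuous.comp (g := fun z : ℝ => riemannZeta (1 / 2 + I * (z : ℝ)))
        (f := fun q : ℝ × ℝ => q.1 + q.2) Pool.Agent.H20.Smooth.continuous_zeta
        (continuous_fst.add continuous_snd)
    exact (hκc.comp continuous_snd).mul (c4.mul ((c5.norm.pow 2).mul (c6.norm.pow 2)))
  have hpt : ∀ t : ℝ, ENNReal.ofReal (A.W ∅ y (om t) * (‖A.mo (-1) ∅ (om t)‖ ^ 2 *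
      ∫ v in Icc (-R) R, κ v * ‖riemannZeta (1 / 2 + I * (t + v : ℝ))‖ ^ 2))
      = ∫⁻ v in Icc (-R) R, ENNReal.ofReal (κ v * E t v) := by
    intro t
    have hc : Continuous fun v : ℝ => κ v * E t v :=
      hcE.comp (f := fun v : ℝ => ((t, v) : ℝ × ℝ)) (by fun_prop)
    rw [← ofReal_integral_eq_lintegral_ofReal hc.integrableOn_Icc
      (Eventually.of_forall fun v => mul_nonneg (hκ0 v) (hE0 t v))]
    congr 1
    rw [← mul_assoc, ← integral_const_mul]
    refine integral_congr_ae (Eventually.of_forall fun v => ?_)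
    simp only [hE]
    ring
  have hmeas : Measurable fun q : ℝ × ℝ => ENNReal.ofReal (κ q.2 * E q.1 q.2) :=
    ENNReal.measurable_ofReal.comp hcE.measurable
  refine (le_of_eq (lintegral_congr fun t => hpt t)).trans ?_
  rw [lintegral_lintegral_swap hmeas.aemeasurable]
  calc ∫⁻ v in Icc (-R) R, (∫⁻ t in Icc (T ^ (19 / 20 : ℝ)) (x + T),
        ENNReal.ofReal (κ v * E t v) ∂(un x T))
      ≤ ∫⁻ v in Icc (-R) R, ENNReal.ofReal (M * (Λ * k7 (Λ * v))) := by
        refine setLIntegral_mono' measurableSet_Icc fun v hv => ?_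
        have h1 := h v (abs_le.mpr hv)
        simp only [ENNReal.ofReal_mul (hκ0 v)]
        rw [lintegral_const_mul' _ _ ENNReal.ofReal_ne_top]
        refine (mul_le_mul_right h1 _).trans (le_of_eq ?_)
        rw [← ENNReal.ofReal_mul (hκ0 v), ← k6_mul_gr hΛ0]
        congr 1
        rw [hκ]
        ring
    _ ≤ ∫⁻ v, ENNReal.ofReal (M * (Λ * k7 (Λ * v))) := setLIntegral_le_lintegral _ _
    _ = ENNReal.ofReal (c7 * M) := by
        rw [← ofReal_integral_eq_lintegral_ofReal ((integrable_Lk7 hΛ0).const_mul M)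
          (Eventually.of_forall fun v => mul_nonneg hM (mul_nonneg hΛ0.le (k7_nonneg _))),
          integral_const_mul, integral_Lk7 hΛ0, mul_comm]

end LM

open LM

/-- E5 -/
theorem nearMean (h3 : SuBound) (h4 : RoughS) (h5 : FBound) (h6 : FNear) (hLM : LineMean)
    (hT : WTransfer) (hB : WBd) (hW : WMean) (hN : GroupNum) : NearMean := by
  obtain ⟨Cp, hCp, hpt⟩ := near_pt
  obtain ⟨C4, hC4, hmo⟩ := mo_mean hT hB hN
  obtain ⟨Ct, hCt, hT⟩ := hT
  obtain ⟨Cn, hCn, htor⟩ := near_torus h3 h4 h5 h6 hN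
  obtain ⟨TL, hTL, hLM⟩ := hLM
  obtain ⟨CW, TW, hCW, hTW, hWM⟩ := hW
  refine ⟨6 * Cn + 1, max (max TL TW) 3, by linarith, le_max_right _ _, fun p0 hp0 => ?_⟩
  obtain ⟨Cn', hCn', htor⟩ := htor p0 hp0
  obtain ⟨CL, hCL, hLM⟩ := hLM p0 hp0
  -- the threshold
  set L0 : ℝ := 20 * (Real.log (Nsm p0) + Real.log (csm p0)) with hL0
  obtain ⟨Bc, hBc, hcr⟩ := crude hN p0 L0
  have hN1 := one_le_Nsm p0
  have hc1 := one_le_csm p0
  have hlN : 0 ≤ Real.log (Nsm p0) := Real.log_nonneg hN1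
  have hlc : 0 ≤ Real.log (csm p0) := Real.log_nonneg hc1
  have hL00 : 0 ≤ L0 := by rw [hL0]; positivity
  have hc7 := c7_nonneg
  set K1 : ℝ := 6 * Cn' + 24 * Ct + 2 * csm p0 ^ 2 * Cp * (4 * C4 + c7 * CL) + Bc * CW * L0 + 1
    with hK1
  have hK1' : 1 ≤ K1 := by
    have : 0 ≤ 6 * Cn' + 24 * Ct + 2 * csm p0 ^ 2 * Cp * (4 * C4 + c7 * CL) + Bc * CW * L0 := by
      positivity
    linarith
  refine ⟨K1, hK1', ?_⟩
  intro A hA hAp T hT0 hL hlY hlT hl4 x hx y
  have hT3 : 3 ≤ T := (le_max_right _ _).trans hT0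
  have hTL' : TL ≤ T := ((le_max_left _ _).trans (le_max_left _ _)).trans hT0
  have hTW' : TW ≤ T := ((le_max_right _ _).trans (le_max_left _ _)).trans hT0
  have hTp : 0 < T := by linarith
  obtain ⟨hK, hK2⟩ := log_ge hA hL
  have hKK := EE.K_ge hA
  have hG := hA.G_pos y
  have hl := hA.hl
  have hl0 : 0 < A.lam := by
    rcases hl.lt_or_eq with h | h
    · exact h
    · rw [← h] at hlT
      norm_num at hlT
  have hY1 := hA.hY
  have hY0 : 0 < A.Y := by linarith
  have hv : (4 : ℝ) ≤ A.v := by exact_mod_cast hA.hv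
  have hW0 : ∀ z, 0 ≤ A.W ∅ y z := A.W_nonneg hA.b_pos.le ∅ y
  have hprob := prob_un x hTp
  set Λ : ℝ := Real.log T with hΛ
  have hΛ0 : 0 < Λ := by linarith
  have hΛ200 : 200 ≤ Λ := by linarith
  have hYΛ : A.Y ≤ 3 / 10 * Λ := by nlinarith
  have hev : 0 < Real.exp (-(A.v : ℝ)) := Real.exp_pos _
  have hp0' : (0 : ℝ) ≤ 1 / A.p0 := by positivity
  have hYL : 0 ≤ A.Y / Λ := by positivity
  have h1L : 0 < 1 / Λ := by positivity
  set e1 : ℝ := Real.exp (-(2 * A.lam * A.Y)) with he1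
  have he10 : 0 < e1 := Real.exp_pos _
  set q : ℝ := Λ / A.Y * (1 + A.lam * A.Y) ^ 17 * Real.exp (-(3 / 2 * A.lam * Λ)) with hq
  have hq0 : 0 ≤ q := by positivity
  set a1 : ℝ := Real.exp (-A.v) + 1 / A.p0 + A.Y / Λ with ha1
  have ha10 : 0 ≤ a1 := by positivity
  by_cases hreg : Λ ≤ L0
  · -- bounded `T`
    have hb := hcr A hA hAp T hT3 hL hreg hl4 x hx
    have hm := hWM A hA T hTW' hL x y ∅ (Finset.empty_subset _)
    rw [Finset.sum_empty, neg_zero, Real.exp_zero, mul_one] at hm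
    calc _ ≤ ∫⁻ t in Icc (T ^ (19 / 20 : ℝ)) (x + T),
          ENNReal.ofReal Bc * ENNReal.ofReal (A.W ∅ y (om t)) ∂(un x T) := by
          refine setLIntegral_mono' measurableSet_Icc fun t ht => ?_
          rw [← ENNReal.ofReal_mul hBc]
          refine ENNReal.ofReal_le_ofReal ?_
          rw [mul_comm Bc]
          exact mul_le_mul_of_nonneg_left (hb t ht) (hW0 _)
      _ ≤ ∫⁻ t, ENNReal.ofReal Bc * ENNReal.ofReal (A.W ∅ y (om t)) ∂(un x T) :=
          setLIntegral_le_lintegral _ _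
      _ = ENNReal.ofReal Bc * ∫⁻ t, ENNReal.ofReal (A.W ∅ y (om t)) ∂(un x T) :=
          lintegral_const_mul' _ _ ENNReal.ofReal_ne_top
      _ ≤ ENNReal.ofReal Bc * ENNReal.ofReal (CW * A.G y) := mul_le_mul_right hm _
      _ = ENNReal.ofReal (Bc * (CW * A.G y)) := (ENNReal.ofReal_mul hBc).symm
      _ ≤ _ := by
          refine ENNReal.ofReal_le_ofReal ?_
          have e2 : Bc * (CW * A.G y) = Bc * CW * 1 * A.G y := by ring
          rw [e2]
          refine mul_le_mul_of_nonneg_right ?_ hG.le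
          have h1 : (1 : ℝ) ≤ L0 * (1 / Λ) := by
            rw [mul_one_div, one_le_div hΛ0]
            exact hreg
          calc Bc * CW * 1 ≤ Bc * CW * (L0 * (1 / Λ)) := by gcongr
            _ = (Bc * CW * L0) * (1 / Λ) := by ring
            _ ≤ K1 * (1 / Λ) := by
                refine mul_le_mul_of_nonneg_right ?_ h1L.le
                have : 0 ≤ 6 * Cn' + 24 * Ct + 2 * csm p0 ^ 2 * Cp * (4 * C4 + c7 * CL) := by
                  positivity
                linarith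
            _ ≤ K1 * (1 / Λ + e1 + q) := by
                refine mul_le_mul_of_nonneg_left ?_ (by linarith)
                linarith
            _ ≤ _ := by
                have : 0 ≤ (6 * Cn + 1) * a1 := by positivity
                linarith
  · push Not at hreg
    have hNsm : Nsm A.p0 ≤ Real.exp (1 / 20 * Λ) := by
      rw [hAp, ← Real.log_le_iff_le_exp (by linarith)]
      rw [hL0] at hreg
      linarith
    have hcsm : csm A.p0 ≤ Real.exp (1 / 20 * Λ) := by
      rw [hAp, ← Real.log_le_iff_le_exp (by linarith)]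
      rw [hL0] at hreg
      linarith
    set S : Om → ℂ := SU Λ (17 / 20 * Λ) A.lam 0 with hS
    -- the smooth sum
    have hsum : ∫⁻ t, ENNReal.ofReal (A.W ∅ y (om t)
          * ‖S (om t) * (A.mo (-1) ∅ (om t) * A.Msm (om t)) - 1‖ ^ 2) ∂(un x T)
        ≤ ENNReal.ofReal (3 * ((Cn * a1 + Cn' * (1 / Λ + e1)) * A.G y
          + 4 * Ct * (A.G y * Real.exp (-Λ)))) := by
      have h1 := near_un hN hCt hA
        (fun μ1 μ2 n1 n2 N c H hN1 hH x T y hT0 =>
          (hT A hA ∅ (Finset.empty_subset _) μ1 μ2 n1 n2 N c H hN1 hH x T y hT0).2)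
        (x := x) (y := y) hTp hL (ap_su Λ (17 / 20 * Λ) hl 0) (Real.one_le_exp (by positivity))
        (Real.one_le_exp (by positivity)) (by
          calc Real.exp (17 / 20 * Λ) * Nsm A.p0 ≤ Real.exp (17 / 20 * Λ) * Real.exp (1 / 20 * Λ) := by
                gcongr
            _ = Real.exp (9 / 10 * Λ) := by
                rw [← Real.exp_add]
                congr 1
                ring) (by
          calc Real.exp (17 / 20 * Λ) * csm A.p0 ≤ Real.exp (17 / 20 * Λ) * Real.exp (1 / 20 * Λ) := by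
                gcongr
            _ = Real.exp (9 / 10 * Λ) := by
                rw [← Real.exp_add]
                congr 1
                ring
            _ ≤ Real.exp (2 * Λ) := Real.exp_le_exp.mpr (by linarith))
      refine h1.trans (ENNReal.ofReal_le_ofReal ?_)
      have h2 := htor A hA hAp Λ (17 / 20 * Λ) hΛ200 (by linarith) (by linarith) hYΛ hlY y
      have h3 : ∫ w, A.W ∅ y w * ‖S w * (A.mo (-1) ∅ w * A.Msm w) - 1‖ ^ 2 ∂mu
          ≤ (Cn * a1 + Cn' * (1 / Λ + e1)) * A.G y := h2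
      linarith
    -- the difference
    set J : ℝ → ℝ := fun t => ∫ v in Icc (-Real.exp (1 / 2 * Λ)) (Real.exp (1 / 2 * Λ)),
      Λ / (1 + Λ * |v|) ^ 6 * ‖riemannZeta (1 / 2 + I * (t + v : ℝ))‖ ^ 2 with hJ
    have hJ0 : ∀ t, 0 ≤ J t := fun t => integral_nonneg fun v => by positivity
    set E8 : ℝ := Real.exp (-(8 / 5 * (A.lam * Λ))) with hE8
    have hE80 : 0 < E8 := Real.exp_pos _
    have hm := hmo A hA T hT3 hL x y ∅ (Finset.empty_subset _)
    rw [Finset.sum_empty, neg_zero, Real.exp_zero, mul_one] at hm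
    have havg := avg_mean (x := x) (y := y) (M := CL * (Λ / A.Y) * (1 + A.lam * A.Y) ^ 17 * A.G y)
      hA hT3 hL (by positivity) (fun v hv => by
        have h1 := hLM A hA hAp T hTL' hL x hx y v hv ∅ (Finset.empty_subset _)
        rw [Finset.sum_empty, neg_zero, Real.exp_zero, mul_one] at h1
        refine h1.trans (le_of_eq ?_)
        congr 1
        ring)
    have hbd : ∀ t ∈ Icc (T ^ (19 / 20 : ℝ)) (x + T), ENNReal.ofReal (A.W ∅ y (om t)
        * ‖riemannZeta (pt A.lam t) * (A.mo (-1) ∅ (om t) * A.Msm (om t)) - 1‖ ^ 2)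
        ≤ ENNReal.ofReal 2 * ENNReal.ofReal (A.W ∅ y (om t)
          * ‖S (om t) * (A.mo (-1) ∅ (om t) * A.Msm (om t)) - 1‖ ^ 2)
        + (ENNReal.ofReal (2 * csm p0 ^ 2 * Cp * Real.exp (-(1 / 2 * Λ)))
            * ENNReal.ofReal (A.W ∅ y (om t) * ‖A.mo (-1) ∅ (om t)‖ ^ 2)
          + ENNReal.ofReal (2 * csm p0 ^ 2 * Cp * E8)
            * ENNReal.ofReal (A.W ∅ y (om t) * (‖A.mo (-1) ∅ (om t)‖ ^ 2 * J t))) := by
      intro t ht
      have ht1 : Real.exp (19 / 20 * Λ) ≤ t := by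
        have := ht.1
        rwa [rpow_eq hTp] at this
      have ht2 : t ≤ 2 * Real.exp Λ := by
        rw [hΛ, Real.exp_log hTp]
        have h1 := ht.2
        have h2 := (abs_le.mp hx).2
        linarith
      have h1 := hpt Λ A.lam t hΛ200 hl0 hl4 (by rw [mul_comm] at hlT; linarith) ht1 ht2
      have h2 := norm_Msm_le hA (om t)
      rw [hAp] at h2
      have h0 := hW0 (om t)
      have hmn := norm_nonneg (A.mo (-1) ∅ (om t))
      rw [← ENNReal.ofReal_mul (by norm_num), ← ENNReal.ofReal_mul (by positivity),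
        ← ENNReal.ofReal_mul (by positivity), ← ENNReal.ofReal_add
          (mul_nonneg (by positivity) (mul_nonneg h0 (by positivity)))
          (mul_nonneg (by positivity) (mul_nonneg h0 (mul_nonneg (by positivity) (hJ0 t)))),
        ← ENNReal.ofReal_add (mul_nonneg (by norm_num) (mul_nonneg h0 (by positivity)))
          (add_nonneg (mul_nonneg (by positivity) (mul_nonneg h0 (by positivity)))
            (mul_nonneg (by positivity) (mul_nonneg h0 (mul_nonneg (by positivity) (hJ0 t)))))]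
      refine ENNReal.ofReal_le_ofReal ?_
      set z := riemannZeta (pt A.lam t) with hz
      set m := A.mo (-1) ∅ (om t) with hm'
      set μ := A.Msm (om t) with hμ
      have h3 : ‖z * (m * μ) - 1‖ ^ 2 ≤ 2 * ‖S (om t) * (m * μ) - 1‖ ^ 2
          + 2 * (‖z - S (om t)‖ ^ 2 * (‖m‖ ^ 2 * csm p0 ^ 2)) := by
        have e2 : z * (m * μ) - 1 = (S (om t) * (m * μ) - 1) + (z - S (om t)) * (m * μ) := by ring
        rw [e2]
        have h4 := norm_add_le (S (om t) * (m * μ) - 1) ((z - S (om t)) * (m * μ))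
        have h5 : ‖(z - S (om t)) * (m * μ)‖ ^ 2 ≤ ‖z - S (om t)‖ ^ 2 * (‖m‖ ^ 2 * csm p0 ^ 2) := by
          rw [norm_mul, norm_mul, mul_pow, mul_pow]
          gcongr
        calc ‖(S (om t) * (m * μ) - 1) + (z - S (om t)) * (m * μ)‖ ^ 2
            ≤ (‖S (om t) * (m * μ) - 1‖ + ‖(z - S (om t)) * (m * μ)‖) ^ 2 := by gcongr
          _ ≤ 2 * ‖S (om t) * (m * μ) - 1‖ ^ 2 + 2 * ‖(z - S (om t)) * (m * μ)‖ ^ 2 := by
              nlinarith [sq_nonneg (‖S (om t) * (m * μ) - 1‖ - ‖(z - S (om t)) * (m * μ)‖)]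
          _ ≤ _ := by linarith
      have h6 : ‖z - S (om t)‖ ^ 2 * (‖m‖ ^ 2 * csm p0 ^ 2)
          ≤ Cp * (Real.exp (-(1 / 2 * Λ)) + E8 * J t) * (‖m‖ ^ 2 * csm p0 ^ 2) :=
        mul_le_mul_of_nonneg_right h1 (by positivity)
      calc A.W ∅ y (om t) * ‖z * (m * μ) - 1‖ ^ 2
          ≤ A.W ∅ y (om t) * (2 * ‖S (om t) * (m * μ) - 1‖ ^ 2
            + 2 * (Cp * (Real.exp (-(1 / 2 * Λ)) + E8 * J t) * (‖m‖ ^ 2 * csm p0 ^ 2))) := by
            refine mul_le_mul_of_nonneg_left (h3.trans ?_) h0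
            linarith
        _ = _ := by ring
    have hWm : Measurable fun t : ℝ => ENNReal.ofReal (A.W ∅ y (om t)
        * ‖S (om t) * (A.mo (-1) ∅ (om t) * A.Msm (om t)) - 1‖ ^ 2) := by
      have c1 : Continuous fun t : ℝ => A.W ∅ y (om t) := (A.continuous_W' hA ∅ y).comp continuous_om
      have c2 : Continuous fun t : ℝ => S (om t) := (continuous_SU _ _ _ _).comp continuous_om
      have c3 : Continuous fun t : ℝ => A.mo (-1) ∅ (om t) :=
        (A.continuous_mo (-1) ∅).comp continuous_om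
      have c4 : Continuous fun t : ℝ => A.Msm (om t) := (continuous_Msm A).comp continuous_om
      exact ENNReal.measurable_ofReal.comp
        (c1.mul (((c2.mul (c3.mul c4)).sub continuous_const).norm.pow 2)).measurable
    have hmm : Measurable fun t : ℝ => ENNReal.ofReal (A.W ∅ y (om t) * ‖A.mo (-1) ∅ (om t)‖ ^ 2) := by
      have c1 : Continuous fun t : ℝ => A.W ∅ y (om t) := (A.continuous_W' hA ∅ y).comp continuous_om
      have c3 : Continuous fun t : ℝ => A.mo (-1) ∅ (om t) :=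
        (A.continuous_mo (-1) ∅).comp continuous_om
      exact ENNReal.measurable_ofReal.comp (c1.mul (c3.norm.pow 2)).measurable
    -- small quantities
    have hex : Real.exp (-Λ) ≤ 1 / Λ := by
      rw [Real.exp_neg, one_div]
      refine inv_anti₀ hΛ0 ?_
      have := Real.add_one_le_exp Λ
      linarith
    have hex2 : Real.exp (-(1 / 2 * Λ)) * Real.exp (4 * (A.v * A.Y)) ≤ 4 * (1 / Λ) := by
      rw [← Real.exp_add]
      calc Real.exp (-(1 / 2 * Λ) + 4 * (A.v * A.Y)) ≤ Real.exp (-(1 / 4 * Λ)) :=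
            Real.exp_le_exp.mpr (by linarith)
        _ = (Real.exp (1 / 4 * Λ))⁻¹ := Real.exp_neg _
        _ ≤ (1 / 4 * Λ)⁻¹ := by
            refine inv_anti₀ (by positivity) ?_
            have := Real.add_one_le_exp (1 / 4 * Λ)
            linarith
        _ = 4 * (1 / Λ) := by field_simp
    have hE3 : E8 ≤ Real.exp (-(3 / 2 * A.lam * Λ)) := by
      refine Real.exp_le_exp.mpr ?_
      have : 0 ≤ A.lam * Λ := by positivity
      nlinarith
    calc _ ≤ ∫⁻ t in Icc (T ^ (19 / 20 : ℝ)) (x + T),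
          (ENNReal.ofReal 2 * ENNReal.ofReal (A.W ∅ y (om t)
          * ‖S (om t) * (A.mo (-1) ∅ (om t) * A.Msm (om t)) - 1‖ ^ 2)
        + (ENNReal.ofReal (2 * csm p0 ^ 2 * Cp * Real.exp (-(1 / 2 * Λ)))
            * ENNReal.ofReal (A.W ∅ y (om t) * ‖A.mo (-1) ∅ (om t)‖ ^ 2)
          + ENNReal.ofReal (2 * csm p0 ^ 2 * Cp * E8)
            * ENNReal.ofReal (A.W ∅ y (om t) * (‖A.mo (-1) ∅ (om t)‖ ^ 2 * J t)))) ∂(un x T) :=
          setLIntegral_mono' measurableSet_Icc hbd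
      _ = ENNReal.ofReal 2 * (∫⁻ t in Icc (T ^ (19 / 20 : ℝ)) (x + T), ENNReal.ofReal
            (A.W ∅ y (om t) * ‖S (om t) * (A.mo (-1) ∅ (om t) * A.Msm (om t)) - 1‖ ^ 2) ∂(un x T))
          + (ENNReal.ofReal (2 * csm p0 ^ 2 * Cp * Real.exp (-(1 / 2 * Λ)))
            * (∫⁻ t in Icc (T ^ (19 / 20 : ℝ)) (x + T),
              ENNReal.ofReal (A.W ∅ y (om t) * ‖A.mo (-1) ∅ (om t)‖ ^ 2) ∂(un x T))
          + ENNReal.ofReal (2 * csm p0 ^ 2 * Cp * E8)
            * ∫⁻ t in Icc (T ^ (19 / 20 : ℝ)) (x + T), ENNReal.ofReal (A.W ∅ y (om t)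
              * (‖A.mo (-1) ∅ (om t)‖ ^ 2 * J t)) ∂(un x T)) := by
          rw [lintegral_add_left (hWm.const_mul _), lintegral_add_left (hmm.const_mul _),
            lintegral_const_mul' _ _ ENNReal.ofReal_ne_top,
            lintegral_const_mul' _ _ ENNReal.ofReal_ne_top,
            lintegral_const_mul' _ _ ENNReal.ofReal_ne_top]
      _ ≤ ENNReal.ofReal 2 * ENNReal.ofReal (3 * ((Cn * a1 + Cn' * (1 / Λ + e1)) * A.G y
            + 4 * Ct * (A.G y * Real.exp (-Λ))))
          + (ENNReal.ofReal (2 * csm p0 ^ 2 * Cp * Real.exp (-(1 / 2 * Λ)))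
            * ENNReal.ofReal (C4 * Real.exp (4 * (A.v * A.Y)) * A.G y)
          + ENNReal.ofReal (2 * csm p0 ^ 2 * Cp * E8)
            * ENNReal.ofReal (c7 * (CL * (Λ / A.Y) * (1 + A.lam * A.Y) ^ 17 * A.G y))) := by
          refine add_le_add (mul_le_mul_right ((setLIntegral_le_lintegral _ _).trans hsum) _)
            (add_le_add (mul_le_mul_right ((setLIntegral_le_lintegral _ _).trans hm) _)
              (mul_le_mul_right havg _))
      _ ≤ _ := by
          rw [← ENNReal.ofReal_mul (by norm_num), ← ENNReal.ofReal_mul (by positivity),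
            ← ENNReal.ofReal_mul (by positivity), ← ENNReal.ofReal_add (by positivity)
              (by positivity), ← ENNReal.ofReal_add (by positivity) (by positivity)]
          refine ENNReal.ofReal_le_ofReal ?_
          have s1 : 2 * (3 * ((Cn * a1 + Cn' * (1 / Λ + e1)) * A.G y
              + 4 * Ct * (A.G y * Real.exp (-Λ))))
              ≤ (6 * Cn * a1 + 6 * Cn' * (1 / Λ + e1) + 24 * Ct * (1 / Λ)) * A.G y := by
            have : 24 * Ct * (A.G y * Real.exp (-Λ)) ≤ 24 * Ct * (A.G y * (1 / Λ)) := by gcongr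
            nlinarith
          have s2 : 2 * csm p0 ^ 2 * Cp * Real.exp (-(1 / 2 * Λ))
              * (C4 * Real.exp (4 * (A.v * A.Y)) * A.G y)
              ≤ 2 * csm p0 ^ 2 * Cp * (4 * C4) * (1 / Λ) * A.G y := by
            calc _ = 2 * csm p0 ^ 2 * Cp * C4
                * (Real.exp (-(1 / 2 * Λ)) * Real.exp (4 * (A.v * A.Y))) * A.G y := by ring
              _ ≤ 2 * csm p0 ^ 2 * Cp * C4 * (4 * (1 / Λ)) * A.G y := by gcongr
              _ = _ := by ring
          have s3 : 2 * csm p0 ^ 2 * Cp * E8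
              * (c7 * (CL * (Λ / A.Y) * (1 + A.lam * A.Y) ^ 17 * A.G y))
              ≤ 2 * csm p0 ^ 2 * Cp * (c7 * CL) * q * A.G y := by
            calc _ = 2 * csm p0 ^ 2 * Cp * (c7 * CL) * (Λ / A.Y * (1 + A.lam * A.Y) ^ 17 * E8)
                * A.G y := by ring
              _ ≤ 2 * csm p0 ^ 2 * Cp * (c7 * CL) * (Λ / A.Y * (1 + A.lam * A.Y) ^ 17
                * Real.exp (-(3 / 2 * A.lam * Λ))) * A.G y := by gcongr
          refine (add_le_add s1 (add_le_add s2 s3)).trans ?_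
          rw [← add_mul, ← add_mul]
          refine mul_le_mul_of_nonneg_right ?_ hG.le
          rw [hK1]
          set P := 2 * csm p0 ^ 2 * Cp with hP
          have hP0 : 0 ≤ P := by positivity
          have e3 : (6 * Cn + 1) * a1 + (6 * Cn' + 24 * Ct + P * (4 * C4 + c7 * CL) + Bc * CW * L0 + 1)
              * (1 / Λ + e1 + q)
              = 6 * Cn * a1 + 6 * Cn' * (1 / Λ + e1) + 24 * Ct * (1 / Λ)
                + (P * (4 * C4) * (1 / Λ) + P * (c7 * CL) * q)
                + (a1 + 6 * Cn' * q + 24 * Ct * (e1 + q) + P * (4 * C4) * (e1 + q)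
                  + P * (c7 * CL) * (1 / Λ + e1) + (Bc * CW * L0 + 1) * (1 / Λ + e1 + q)) := by
            ring
          rw [e3]
          refine le_add_of_nonneg_right ?_
          positivity

end Pool.Agent.Lib.GT
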