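import Mathlib
import Pool.Agent.Lib.MP_f9aece_nt_gt.StmtsZ

/-!
Gaussian tails of `log |zeta|` on the critical line: module F4, upper bound for the large values.
-/

set_option autoImplicit false

namespace Pool.Agent.Lib.GT

open MeasureTheory Set Filter Topology Complex ProbabilityTheory
open scoped ComplexConjugate

private lemma cont_lin (S : Finset ℕ) (c : ℕ → ℂ) : Continuous fun t : ℝ => lin S c (om t) := by
  have h : Continuous fun x : Om => lin S c x := by
    unfold lin
    fun_prop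
  exact h.comp continuous_om

private lemma cont_X (A : Par) (s : Finset ℕ) : Continuous fun t : ℝ => A.X s (om t) := by
  unfold Par.X
  exact continuous_finsetSum _ fun g _ => Complex.continuous_re.comp (cont_lin _ _)

private lemma cont_mo (A : Par) (μ : ℂ) (s : Finset ℕ) : Continuous fun t : ℝ => A.mo μ s (om t) := by
  unfold Par.mo
  refine continuous_finsetProd _ fun g _ => ?_
  have h : Continuous fun t : ℝ => A.P g (om t) := cont_lin _ _
  unfold tex
  fun_prop

private lemma cont_zeta : Continuous fun t : ℝ => riemannZeta (1 / 2 + I * t) := by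
  rw [continuous_iff_continuousAt]
  intro t
  have h1 : (1 / 2 + I * t : ℂ) ≠ 1 := by
    intro h
    have := congrArg Complex.re h
    norm_num at this
  have h2 : ContinuousAt (fun t : ℝ => (1 / 2 + I * t : ℂ)) t := by fun_prop
  exact ContinuousAt.comp (g := riemannZeta) (f := fun t : ℝ => (1 / 2 + I * t : ℂ))
    (differentiableAt_riemannZeta h1).continuousAt h2

/-- the sum over the sets of groups -/
private lemma sum_sets (J : ℕ) (a : ℕ → ℝ) (ε : ℝ) (hε : 0 ≤ ε) (hε1 : ε ≤ 1)
    (h : ∑ g ∈ Finset.range J, Real.exp (-a g) ≤ 2 * ε) :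
    ∑ s ∈ (Finset.range J).powerset.erase ∅, Real.exp (-∑ g ∈ s, a g) ≤ 16 * ε ∧
      ∑ s ∈ (Finset.range J).powerset, Real.exp (-∑ g ∈ s, a g) ≤ 17 := by
  have h1 : ∑ s ∈ (Finset.range J).powerset, Real.exp (-∑ g ∈ s, a g)
      = ∏ g ∈ Finset.range J, (1 + Real.exp (-a g)) := by
    rw [Finset.prod_one_add]
    refine Finset.sum_congr rfl fun s _ => ?_
    rw [← Real.exp_sum, Finset.sum_neg_distrib]
  have h2 : ∏ g ∈ Finset.range J, (1 + Real.exp (-a g)) ≤ Real.exp (2 * ε) := by
    calc ∏ g ∈ Finset.range J, (1 + Real.exp (-a g))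
        ≤ ∏ g ∈ Finset.range J, Real.exp (Real.exp (-a g)) := by
          refine Finset.prod_le_prod (fun g _ => by positivity) fun g _ => ?_
          have := Real.add_one_le_exp (Real.exp (-a g))
          linarith
      _ = Real.exp (∑ g ∈ Finset.range J, Real.exp (-a g)) := (Real.exp_sum _ _).symm
      _ ≤ Real.exp (2 * ε) := Real.exp_le_exp.2 h
  have h3 : Real.exp (2 * ε) ≤ 1 + 16 * ε := by
    -- convexity
    have hc := convexOn_exp.2 (Set.mem_univ (0 : ℝ)) (Set.mem_univ (2 : ℝ))
      (show (0 : ℝ) ≤ 1 - ε by linarith) hε (by ring)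
    simp only [smul_eq_mul, mul_zero, zero_add, Real.exp_zero, mul_one] at hc
    have he : Real.exp 2 ≤ 9 := by
      have h4 := Real.exp_one_lt_d9
      have h5 : Real.exp 2 = Real.exp 1 * Real.exp 1 := by rw [← Real.exp_add]; norm_num
      rw [h5]
      nlinarith [Real.exp_pos 1]
    have : ε * 2 = 2 * ε := by ring
    rw [this] at hc
    nlinarith
  have h4 : (∅ : Finset ℕ) ∈ (Finset.range J).powerset := Finset.empty_mem_powerset _
  have h5 := Finset.add_sum_erase _ (fun s : Finset ℕ => Real.exp (-∑ g ∈ s, a g)) h4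
  simp only [Finset.sum_empty, neg_zero, Real.exp_zero] at h5
  constructor <;> linarith

private lemma un_out {T x : ℝ} (hT : 3 ≤ T) (hx : |x| ≤ T ^ (9 / 10 : ℝ)) :
    un x T (Icc (T ^ (19 / 20 : ℝ)) (x + T))ᶜ ≤ ENNReal.ofReal (2 * T ^ (-(1 / 20) : ℝ)) := by
  have hT0 : 0 < T := by linarith
  unfold un
  rw [Measure.smul_apply, Measure.restrict_apply measurableSet_Icc.compl, smul_eq_mul]
  have h1 : (Icc (T ^ (19 / 20 : ℝ)) (x + T))ᶜ ∩ Icc x (x + T) ⊆ Ico x (T ^ (19 / 20 : ℝ)) := by
    rintro t ⟨ht, ht1, ht2⟩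
    refine ⟨ht1, ?_⟩
    by_contra h
    exact ht ⟨not_lt.1 h, ht2⟩
  have h2 : T ^ (9 / 10 : ℝ) ≤ T ^ (19 / 20 : ℝ) :=
    Real.rpow_le_rpow_of_exponent_le (by linarith) (by norm_num)
  have h3 : volume ((Icc (T ^ (19 / 20 : ℝ)) (x + T))ᶜ ∩ Icc x (x + T))
      ≤ ENNReal.ofReal (2 * T ^ (19 / 20 : ℝ)) := by
    refine (measure_mono h1).trans ?_
    rw [Real.volume_Ico]
    refine ENNReal.ofReal_le_ofReal ?_
    have := (abs_le.1 hx).1
    linarith
  calc (ENNReal.ofReal T)⁻¹ * volume ((Icc (T ^ (19 / 20 : ℝ)) (x + T))ᶜ ∩ Icc x (x + T))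
      ≤ (ENNReal.ofReal T)⁻¹ * ENNReal.ofReal (2 * T ^ (19 / 20 : ℝ)) := by gcongr
    _ = ENNReal.ofReal (2 * T ^ (-(1 / 20) : ℝ)) := by
        rw [← ENNReal.ofReal_inv_of_pos hT0, ← ENNReal.ofReal_mul (by positivity)]
        congr 1
        have : T ^ (-(1 / 20) : ℝ) = T ^ (19 / 20 : ℝ) * T ^ (-1 : ℝ) := by
          rw [← Real.rpow_add hT0]
          norm_num
        rw [this, Real.rpow_neg_one]
        ring

/-- F4 -/
theorem upperTail (h1 : TiltUp) (h2 : TiltLow) (h3 : WMean) (h4 : LineMean) (h5 : WPoint)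
    (h6 : GroupNum) : UpperTail := by
  classical
  obtain ⟨C1, v1, hC1, H1⟩ := h1
  obtain ⟨C2, v2, hC2, H2⟩ := h2
  obtain ⟨C3, T3, hC3, hT3, H3⟩ := h3
  obtain ⟨T4, hT4, H4⟩ := h4
  obtain ⟨C5, D5, v5, -, -, H5⟩ := h5
  refine ⟨16 * (C1 * C3), max T3 T4, max v1 (max v2 v5), by nlinarith, le_max_of_le_left hT3, ?_⟩
  intro p0 hp0
  obtain ⟨C4, hC4, H4⟩ := H4 p0 hp0
  refine ⟨17 * (C2 * (2 * C4)), by nlinarith, ?_⟩
  intro A hA hv hAp hbb T hT hL x V hx
  have hT3' : T3 ≤ T := (le_max_left _ _).trans hT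
  have hT4' : T4 ≤ T := (le_max_right _ _).trans hT
  have hv1 : v1 ≤ A.v := (le_max_left _ _).trans hv
  have hv2 : v2 ≤ A.v := ((le_max_left _ _).trans (le_max_right _ _)).trans hv
  have hv5 : v5 ≤ A.v := ((le_max_right _ _).trans (le_max_right _ _)).trans hv
  have hT1 : 3 ≤ T := hT3.trans hT3'
  have hT0 : 0 < T := by linarith
  have hxT : |x| ≤ T := hx.trans (by
    conv_rhs => rw [← Real.rpow_one T]
    exact Real.rpow_le_rpow_of_exponent_le (by linarith) (by norm_num))
  have hbe := hA.hbe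
  have hb : 0 < A.b := hbe.trans_le hA.hbb
  have hG : 0 ≤ A.G V := by unfold Par.G; positivity
  have hlog : 0 ≤ Real.log T := Real.log_nonneg (by linarith)
  have hY : 0 < A.Y := by linarith [hA.hY]
  set μ := un x T with hμ
  have : IsProbabilityMeasure μ := prob_un x hT0
  set L : ℝ := Real.log T / A.Y * (1 + A.lam * A.Y) ^ 17 with hLdef
  have hL0 : 0 ≤ L := by
    have := hA.hl
    positivity
  set P := (Finset.range A.J).powerset with hP
  set w : Finset ℕ → ℝ := fun s => Real.exp (-∑ g ∈ s, (A.r g : ℝ)) with hw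
  -- the sets
  set EA : Finset ℕ → Set ℝ := fun s => {t | A.Good s (om t) ∧ A.Bad s (om t) ∧ V < A.X s (om t)}
    with hEA
  set DB : Finset ℕ → Set ℝ := fun s => {t | A.Good s (om t) ∧ A.Bad s (om t) ∧ A.X s (om t) ≤ V}
    with hDB
  set I0 : Set ℝ := Icc (T ^ (19 / 20 : ℝ)) (x + T) with hI0
  set EB : Finset ℕ → Set ℝ := fun s =>
    {t | t ∈ I0 ∧ t ∈ DB s ∧ Real.exp V < ‖riemannZeta (1 / 2 + I * t)‖} with hEB
  -- bounds
  have bA : ∀ s ∈ P, μ (EA s) ≤ ENNReal.ofReal (C1 * (C3 * w s) * (A.G V / A.be)) := by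
    intro s hs
    rw [hP, Finset.mem_powerset] at hs
    have := H1 A hA hv1 s hs x T (C3 * w s) hT0 (by positivity) (fun _ => 1) measurable_const
      (fun y => by
        simp only [mul_one]
        exact H3 A hA T hT3' hL x y s hs) V
    rwa [setLIntegral_one] at this
  have bB : ∀ s ∈ P, μ (EB s) ≤ ENNReal.ofReal (C2 * (2 * C4 * L * w s) * (A.G V / A.b)) := by
    intro s hs
    rw [hP, Finset.mem_powerset] at hs
    set m : ℝ → ℝ := fun t => ‖A.mo (-1) s (om t)‖ ^ 2 * ‖riemannZeta (1 / 2 + I * t)‖ ^ 2 with hm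
    have hmc : Continuous m := by
      have c1 := cont_mo A (-1) s
      have c2 := cont_zeta
      exact (c1.norm.pow 2).mul (c2.norm.pow 2)
    have hm0 : ∀ t, 0 ≤ m t := fun t => by positivity
    set H : ℝ → ENNReal := I0.indicator fun t => ENNReal.ofReal (2 * m t) with hH
    have hHm : Measurable H := by
      refine Measurable.indicator ?_ measurableSet_Icc
      exact ENNReal.measurable_ofReal.comp (continuous_const.mul hmc).measurable
    have key := H2 A hA hv2 hbb s hs x T (2 * C4 * L * w s) hT0 (by positivity) H hHm ?_ V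
    · refine le_trans ?_ key
      have e1 : EB s ⊆ DB s := fun t ht => ht.2.1
      rw [← Measure.restrict_eq_self (μ := μ) e1]
      refine meas_le_lintegral₀ ?_ ?_
      · refine Measurable.aemeasurable (Measurable.mul ?_ hHm)
        exact ENNReal.measurable_ofReal.comp (Real.continuous_exp.comp
          (continuous_const.mul ((cont_X A s).sub continuous_const))).measurable
      · rintro t ⟨ht1, ht2, ht3⟩
        have q1 := (H5 A hA hv5 s hs (om t) ht2.1 ht2.2.1).2.2.2.2
        rw [hH, Set.indicator_of_mem ht1, ← ENNReal.ofReal_mul (Real.exp_nonneg _)]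
        rw [← ENNReal.ofReal_one]
        refine ENNReal.ofReal_le_ofReal ?_
        have q2 : Real.exp (2 * V) ≤ ‖riemannZeta (1 / 2 + I * t)‖ ^ 2 := by
          have : Real.exp (2 * V) = Real.exp V ^ 2 := by rw [← Real.exp_nat_mul]; norm_num
          rw [this]
          exact pow_le_pow_left₀ (Real.exp_nonneg _) ht3.le 2
        have q3 : 1 / 2 * Real.exp (-(2 * A.X s (om t))) * Real.exp (2 * V) ≤ m t :=
          mul_le_mul q1 q2 (Real.exp_nonneg _) (by positivity)
        calc (1 : ℝ) = Real.exp (2 * (A.X s (om t) - V))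
              * (2 * (1 / 2 * Real.exp (-(2 * A.X s (om t))) * Real.exp (2 * V))) := by
              have : Real.exp (2 * (A.X s (om t) - V)) * (Real.exp (-(2 * A.X s (om t)))
                  * Real.exp (2 * V)) = 1 := by
                rw [← Real.exp_add, ← Real.exp_add]
                rw [show 2 * (A.X s (om t) - V) + (-(2 * A.X s (om t)) + 2 * V) = 0 by ring,
                  Real.exp_zero]
              linear_combination -this
          _ ≤ Real.exp (2 * (A.X s (om t) - V)) * (2 * m t) := by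
              refine mul_le_mul_of_nonneg_left ?_ (Real.exp_nonneg _)
              linarith
    · intro y
      have q4 := H4 A hA hAp T hT4' hL x hxT y 0 (by simp [Real.sqrt_nonneg]) s hs
      have e2 : ∀ t, ENNReal.ofReal (A.W s y (om t)) * H t
          = I0.indicator (fun t => 2 * ENNReal.ofReal (A.W s y (om t) * m t)) t := by
        intro t
        rw [hH]
        by_cases ht : t ∈ I0
        · rw [Set.indicator_of_mem ht, Set.indicator_of_mem ht, ← ENNReal.ofReal_mul'
            (by have := hm0 t; positivity)]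
          rw [show A.W s y (om t) * (2 * m t) = 2 * (A.W s y (om t) * m t) by ring,
            ENNReal.ofReal_mul (by norm_num)]
          norm_num
        · rw [Set.indicator_of_notMem ht, Set.indicator_of_notMem ht, mul_zero]
      simp_rw [e2]
      rw [lintegral_indicator measurableSet_Icc, lintegral_const_mul' _ _ (by norm_num)]
      have e3 : ∫⁻ t in I0, ENNReal.ofReal (A.W s y (om t) * m t) ∂μ
          ≤ ENNReal.ofReal (C4 * (Real.log T / A.Y) * (1 + A.lam * A.Y) ^ 17 * gr (Real.log T) 0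
            * w s * A.G y) := by
        refine le_trans (le_of_eq ?_) q4
        refine lintegral_congr fun t => ?_
        rw [hm]
        simp only [add_zero]
      refine (mul_le_mul_right e3 2).trans ?_
      rw [show (2 : ENNReal) = ENNReal.ofReal 2 by norm_num, ← ENNReal.ofReal_mul (by norm_num)]
      refine ENNReal.ofReal_le_ofReal (le_of_eq ?_)
      have e4 : gr (Real.log T) 0 = 1 := by
        unfold gr
        simp
      rw [e4, hLdef]
      ring
  -- the covering
  have cov : {t : ℝ | Real.exp V < ‖riemannZeta (1 / 2 + I * t)‖} ⊆ {t : ℝ | A.Good ∅ (om t) ∧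
      V < A.X ∅ (om t)} ∪ (I0ᶜ ∪ ((⋃ s ∈ P.erase ∅, EA s) ∪ ⋃ s ∈ P, EB s)) := by
    intro t ht
    by_cases hI : t ∈ I0
    swap
    · exact Or.inr (Or.inl hI)
    set s : Finset ℕ := (Finset.range A.J).filter fun g => RR (A.r g) < ‖A.P g (om t)‖ with hs
    have hsP : s ∈ P := Finset.mem_powerset.2 (Finset.filter_subset _ _)
    have hgood : A.Good s (om t) := by
      intro g hg
      rw [Finset.mem_sdiff, hs, Finset.mem_filter, not_and, not_lt] at hg
      exact hg.2 hg.1
    have hbad : A.Bad s (om t) := by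
      intro g hg
      rw [hs, Finset.mem_filter] at hg
      exact hg.2
    rcases lt_or_ge V (A.X s (om t)) with hX | hX
    · by_cases hs0 : s = ∅
      · left
        rw [hs0] at hgood hX
        exact ⟨hgood, hX⟩
      · refine Or.inr (Or.inr (Or.inl ?_))
        simp only [Set.mem_iUnion]
        exact ⟨s, Finset.mem_erase.2 ⟨hs0, hsP⟩, hgood, hbad, hX⟩
    · refine Or.inr (Or.inr (Or.inr ?_))
      simp only [Set.mem_iUnion]
      exact ⟨s, hsP, hI, ⟨hgood, hbad, hX⟩, ht⟩
  obtain ⟨s1, s2⟩ := sum_sets A.J (fun g => (A.r g : ℝ)) (Real.exp (-A.v)) (Real.exp_nonneg _)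
    (Real.exp_le_one_iff.2 (by simp)) (h6 A hA).2.2.2.2.2.1
  have t1 : μ (⋃ s ∈ P.erase ∅, EA s) ≤ ENNReal.ofReal (C1 * C3 * (16 * Real.exp (-A.v))
      * (A.G V / A.be)) := by
    refine (measure_biUnion_finset_le _ _).trans ?_
    refine (Finset.sum_le_sum fun s hs => bA s (Finset.mem_of_mem_erase hs)).trans ?_
    rw [← ENNReal.ofReal_sum_of_nonneg (fun s _ => by positivity)]
    refine ENNReal.ofReal_le_ofReal ?_
    rw [← Finset.sum_mul, ← Finset.mul_sum, ← Finset.mul_sum, ← mul_assoc]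
    have : 0 ≤ A.G V / A.be := by positivity
    gcongr
  have t2 : μ (⋃ s ∈ P, EB s) ≤ ENNReal.ofReal (C2 * (2 * C4 * L * 17) * (A.G V / A.b)) := by
    refine (measure_biUnion_finset_le _ _).trans ?_
    refine (Finset.sum_le_sum fun s hs => bB s hs).trans ?_
    rw [← ENNReal.ofReal_sum_of_nonneg (fun s _ => by positivity)]
    refine ENNReal.ofReal_le_ofReal ?_
    rw [← Finset.sum_mul, ← Finset.mul_sum, ← Finset.mul_sum]
    have : 0 ≤ A.G V / A.b := by positivity
    gcongr
  have t3 : μ I0ᶜ ≤ ENNReal.ofReal (2 * T ^ (-(1 / 20) : ℝ)) := un_out hT1 hx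
  have fin : μ {t : ℝ | Real.exp V < ‖riemannZeta (1 / 2 + I * t)‖} ≤
      μ {t | A.Good ∅ (om t) ∧ V < A.X ∅ (om t)} + ENNReal.ofReal (2 * T ^ (-(1 / 20) : ℝ)
        + (C1 * C3 * (16 * Real.exp (-A.v)) * (A.G V / A.be)
          + C2 * (2 * C4 * L * 17) * (A.G V / A.b))) := by
    refine (measure_mono cov).trans ((measure_union_le _ _).trans ?_)
    gcongr
    refine (measure_union_le _ _).trans ?_
    rw [ENNReal.ofReal_add (by positivity) (by positivity)]
    refine add_le_add t3 ((measure_union_le _ _).trans ?_)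
    rw [ENNReal.ofReal_add (by positivity) (by positivity)]
    exact add_le_add t1 t2
  have fin2 := ENNReal.toReal_mono (by finiteness) fin
  rw [ENNReal.toReal_add (by finiteness) ENNReal.ofReal_ne_top, ENNReal.toReal_ofReal
    (by positivity)] at fin2
  refine fin2.trans (le_of_eq ?_)
  have e5 : A.G V / A.b = A.be / A.b * (A.G V / A.be) := by
    field_simp
  rw [e5, hLdef]
  ring

end Pool.Agent.Lib.GT
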