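import Mathlib
import Pool.Agent.Lib.MP_f9aece_nt_gt.Stmts

/-!
Gaussian tails of `log |zeta|`: row N1 (`groupNum`), numerical facts about the groups of primes.
-/

set_option autoImplicit false

namespace Pool.Agent.Lib.GT

open MeasureTheory Set Filter Topology Complex ProbabilityTheory
open scoped ComplexConjugate
open Pool.Agent.Lib.MP_f9aece_nt (VV)
open Pool.Agent.Lib.J4 (Sg Yg rg Jok V2)

namespace N1

lemma rg_cast (v g : ℕ) : ((rg v g : ℕ) : ℝ) = (v : ℝ) * ((g : ℝ) + 1) := by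
  unfold rg
  push_cast
  ring

lemma sum_rg (v J : ℕ) : ∑ g ∈ Finset.range J, ((rg v g : ℕ) : ℝ) = (v : ℝ) * (J * (J + 1) / 2) := by
  induction J with
  | zero => simp
  | succ J ih =>
    rw [Finset.sum_range_succ, ih, rg_cast]
    push_cast
    ring

lemma geom_le {q : ℝ} (hq0 : 0 ≤ q) (hq : q ≤ 1 / 2) (J : ℕ) :
    ∑ g ∈ Finset.range J, q ^ g ≤ 2 - 2 * q ^ J := by
  induction J with
  | zero => simp
  | succ J ih =>
    rw [Finset.sum_range_succ, pow_succ]
    have : 0 ≤ q ^ J := pow_nonneg hq0 J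
    nlinarith

lemma exp_neg_four : Real.exp (-4) ≤ 1 / 4 := by
  have h := Real.add_one_le_exp (4 : ℝ)
  rw [Real.exp_neg]
  rw [inv_le_comm₀ (Real.exp_pos _) (by norm_num)]
  linarith

end N1

open N1 in
/-- N1 -/
theorem groupNum : GroupNum := by
  intro A hA
  have hY0 : 0 < A.Y := by linarith [hA.hY]
  have hv4 : (4 : ℝ) ≤ A.v := by exact_mod_cast hA.hv
  have hlogY : 0 ≤ Real.log A.Y := Real.log_nonneg hA.hY
  have hlp : (6 : ℝ) < Real.log A.p0 := by
    have h1 : Real.log (2 ^ 9 : ℝ) ≤ Real.log A.p0 := by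
      refine Real.log_le_log (by norm_num) ?_
      have : (1000 : ℝ) ≤ A.p0 := by exact_mod_cast hA.hp
      linarith
    rw [Real.log_pow] at h1
    have h2 := Real.log_two_gt_d9
    push_cast at h1
    linarith
  have h8 : ∀ g < A.J, 6 ≤ Yg A.v A.Y g := fun g hg => (hlp.trans (hA.hJ.2 g hg)).le
  refine ⟨?_, ?_, ?_, ?_, ?_, ?_, ?_, h8⟩
  · intro g p hp
    unfold Par.S Sg at hp
    rw [Finset.mem_filter, Finset.mem_Icc] at hp
    obtain ⟨⟨h1, h2⟩, h3, h4, h5, h6⟩ := hp
    refine ⟨h3, by have := hA.hp; omega, h4, ?_⟩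
    rwa [Real.log_le_iff_le_exp (by exact_mod_cast h3.pos)] at h6
  · intro g
    have h := MP_f9aece_nt_h6.VV_Sg_le (p0 := A.p0) hY0 (v := (A.v : ℝ)) hv4 g
    rw [← J4.Sg_eq] at h
    unfold Par.S Par.r
    rw [rg_cast]
    exact h
  · intro g h hgh
    exact J4.sgDisj A.v A.p0 A.Y hY0.le g h hgh
  · intro p
    have hU : A.U = MP_f9aece_nt_h6.Pall A.Y A.p0 := by
      rw [← MP_f9aece_nt_h6.biUnion_eq_Pall (v := (A.v : ℝ)) (J := A.J) (by have := hA.hp; omega)
        (by rw [← J4.Yg_eq]; exact hA.hJ.1)]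
      unfold Par.U
      congr 1
      funext g
      exact J4.Sg_eq _ _ _ _
    rw [hU, MP_f9aece_nt_h6.mem_Pall, Finset.mem_Icc, Nat.le_floor_iff (Real.exp_pos _).le]
    constructor
    · rintro ⟨⟨-, h1⟩, h2, h3⟩
      exact ⟨h2, h3, h1⟩
    · rintro ⟨h2, h3, h1⟩
      exact ⟨⟨h2.pos, h1⟩, h2, h3⟩
  · unfold Par.r
    rw [sum_rg]
    rcases Nat.eq_zero_or_pos A.J with h0 | h0
    · rw [h0]
      push_cast
      have : (0 : ℝ) ≤ A.v := by linarith
      linarith
    · obtain ⟨j, hj⟩ : ∃ j, A.J = j + 1 := ⟨A.J - 1, by omega⟩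
      have h1 := h8 j (by omega)
      unfold Yg at h1
      have h2 : 0 < Real.exp (-((A.v : ℝ) * j * (j + 1) / 2)) := Real.exp_pos _
      have h3 : Real.exp ((A.v : ℝ) * j * (j + 1) / 2) ≤ A.Y := by
        have e : Real.exp ((A.v : ℝ) * j * (j + 1) / 2)
            * Real.exp (-((A.v : ℝ) * j * (j + 1) / 2)) = 1 := by
          rw [← Real.exp_add]; simp
        have h4 : 0 < Real.exp ((A.v : ℝ) * j * (j + 1) / 2) := Real.exp_pos _
        have h5 : A.Y = Real.exp ((A.v : ℝ) * j * (j + 1) / 2)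
            * (A.Y * Real.exp (-((A.v : ℝ) * j * (j + 1) / 2))) := by
          rw [mul_left_comm, e, mul_one]
        rw [h5]
        nlinarith
      have h4 : (A.v : ℝ) * j * (j + 1) / 2 ≤ Real.log A.Y := by
        rwa [Real.le_log_iff_exp_le hY0]
      have h5 : (A.v : ℝ) * j ≤ (A.v : ℝ) * j * (j + 1) := by
        refine le_mul_of_one_le_right (by positivity) ?_
        have : (0 : ℝ) ≤ j := by positivity
        linarith
      rw [hj]
      push_cast
      nlinarith
  · unfold Par.r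
    have h1 : ∀ g : ℕ, Real.exp (-((rg A.v g : ℕ) : ℝ)) = Real.exp (-A.v) * Real.exp (-A.v) ^ g := by
      intro g
      rw [rg_cast, ← Real.exp_nat_mul, ← Real.exp_add]
      congr 1
      ring
    simp only [h1]
    rw [← Finset.mul_sum]
    have hq : Real.exp (-(A.v : ℝ)) ≤ 1 / 2 :=
      (Real.exp_le_exp.2 (by linarith)).trans (exp_neg_four.trans (by norm_num))
    have h2 := geom_le (Real.exp_pos (-(A.v : ℝ))).le hq A.J
    have h3 : 0 ≤ Real.exp (-(A.v : ℝ)) ^ A.J := by positivity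
    have h4 : 0 < Real.exp (-(A.v : ℝ)) := Real.exp_pos _
    nlinarith
  · unfold Par.r
    have h1 : ∀ g : ℕ, ((rg A.v g : ℕ) : ℝ) * Yg A.v A.Y g ≤ A.v * A.Y * (1 / 2) ^ g := by
      intro g
      rw [rg_cast]
      unfold Yg
      have h2 : ((g : ℝ) + 1) * Real.exp (-((A.v : ℝ) * g * (g + 1) / 2)) ≤ (1 / 2) ^ g := by
        have h3 : Real.exp (-((A.v : ℝ) * g * (g + 1) / 2)) ≤ Real.exp (-4) ^ g := by
          rw [← Real.exp_nat_mul]
          refine Real.exp_le_exp.2 ?_
          rcases Nat.eq_zero_or_pos g with h0 | h0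
          · rw [h0]; simp
          · have h5 : (1 : ℝ) ≤ g := by exact_mod_cast h0
            have h6 : (4 : ℝ) * (g * 2) ≤ A.v * (g * (g + 1)) := by
              refine mul_le_mul hv4 ?_ (by positivity) (by linarith)
              nlinarith
            nlinarith
        have h4 : (g : ℝ) + 1 ≤ 2 ^ g := by
          have := one_add_mul_le_pow (show (-2 : ℝ) ≤ 1 by norm_num) g
          norm_num at this
          linarith
        calc ((g : ℝ) + 1) * Real.exp (-((A.v : ℝ) * g * (g + 1) / 2))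
            ≤ 2 ^ g * Real.exp (-4) ^ g := mul_le_mul h4 h3 (Real.exp_pos _).le (by positivity)
          _ = (2 * Real.exp (-4)) ^ g := (mul_pow _ _ _).symm
          _ ≤ (1 / 2) ^ g := by
            refine pow_le_pow_left₀ (by positivity) ?_ _
            linarith [exp_neg_four]
      calc (A.v : ℝ) * ((g : ℝ) + 1) * (A.Y * Real.exp (-((A.v : ℝ) * g * (g + 1) / 2)))
          = A.v * A.Y * (((g : ℝ) + 1) * Real.exp (-((A.v : ℝ) * g * (g + 1) / 2))) := by ring
        _ ≤ _ := mul_le_mul_of_nonneg_left h2 (by positivity)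
    refine (Finset.sum_le_sum fun g _ => h1 g).trans ?_
    rw [← Finset.mul_sum]
    have h2 := geom_le (q := 1 / 2) (by norm_num) le_rfl A.J
    have h3 : (0 : ℝ) ≤ (1 / 2) ^ A.J := by positivity
    have h4 : (0 : ℝ) ≤ A.v * A.Y := by positivity
    nlinarith

end Pool.Agent.Lib.GT
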