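import Pool.Agent.Lib.MP_f9aece_nt_gt.Stmts
import Pool.Agent.Lib.MP_f9aece_nt_j4.GroupsH

/-!
Row N2: Mertens bounds for the sums occurring in the exponents.
-/

set_option autoImplicit false

namespace Pool.Agent.Lib.GT

open MeasureTheory Set Filter Topology Complex
open Pool.Agent.Lib.MP_f9aece_nt (VV)

private lemma n2_part {u : ℝ} (hu : 0 ≤ u) (s : Finset ℕ)
    (hs : ∀ p ∈ s, p.Prime ∧ Real.log p ≤ u) :
    ∑ p ∈ s, Real.log p / p ≤ u + Real.log 4 := by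
  have hn : 1 ≤ ⌊Real.exp u⌋₊ := by
    apply Nat.le_floor
    simpa using Real.one_le_exp hu
  have hsub : s ⊆ (Finset.Ioc 0 ⌊Real.exp u⌋₊).filter Nat.Prime := by
    intro p hp
    obtain ⟨h1, h2⟩ := hs p hp
    have hp0 : (0 : ℝ) < p := by exact_mod_cast h1.pos
    rw [Finset.mem_filter, Finset.mem_Ioc]
    refine ⟨⟨h1.pos, ?_⟩, h1⟩
    apply Nat.le_floor
    rw [← Real.exp_log hp0]
    exact Real.exp_le_exp.mpr h2
  calc ∑ p ∈ s, Real.log p / p
      ≤ ∑ p ∈ (Finset.Ioc 0 ⌊Real.exp u⌋₊).filter Nat.Prime, Real.log p / p := by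
        apply Finset.sum_le_sum_of_subset_of_nonneg hsub
        intro p _ _
        exact div_nonneg (Real.log_natCast_nonneg p) (Nat.cast_nonneg p)
    _ ≤ Real.log (⌊Real.exp u⌋₊ : ℕ) + Real.log 4 := MP_f9aece_nt.sum_log_div_le hn
    _ ≤ u + Real.log 4 := by
        have h1 : (0 : ℝ) < (⌊Real.exp u⌋₊ : ℕ) := by exact_mod_cast hn
        have h2 : Real.log (⌊Real.exp u⌋₊ : ℕ) ≤ Real.log (Real.exp u) :=
          Real.log_le_log h1 (Nat.floor_le (Real.exp_pos u).le)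
        rw [Real.log_exp] at h2
        linarith

private lemma n2_log4 : Real.log 4 ≤ 2 := by
  have h1 : Real.log 4 = 2 * Real.log 2 := by
    rw [show (4 : ℝ) = 2 ^ 2 by norm_num, Real.log_pow]
    norm_num
  have := Real.log_two_lt_d9
  rw [h1]
  linarith

/-- the elementary sums: `a = |u|` or `lam` -/
private lemma n2_one {a Y : ℝ} (ha : 0 ≤ a) (hY : 1 ≤ Y) (s : Finset ℕ)
    (hs : ∀ p ∈ s, p.Prime ∧ Real.log p ≤ Y) :
    ∑ p ∈ s, min 1 (a * Real.log p) * (p : ℝ)⁻¹ ≤ Real.log (1 + a * Y) + 10 := by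
  have h4 := n2_log4
  have hY0 : 0 < Y := by linarith
  have hlog0 : ∀ p : ℕ, 0 ≤ Real.log (p : ℝ) := fun p => Real.log_natCast_nonneg p
  have hinv0 : ∀ p : ℕ, 0 ≤ ((p : ℝ))⁻¹ := fun p => by positivity
  have haY : 0 ≤ a * Y := by positivity
  have hl0 : 0 ≤ Real.log (1 + a * Y) := Real.log_nonneg (by linarith)
  -- split at `y`
  have split : ∀ y : ℝ, 1 ≤ y → a * y ≤ 1 ∨ y = 1 → (1 ≤ a * y ∨ Y ≤ y) →
      ∑ p ∈ s, min 1 (a * Real.log p) * (p : ℝ)⁻¹ ≤ Real.log (1 + a * Y) + 10 := by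
    intro y hy1 hy2 hy3
    rw [← Finset.sum_filter_add_sum_filter_not s (fun p : ℕ => Real.log (p : ℝ) ≤ y)]
    have hsmall : ∑ p ∈ s.filter (fun p : ℕ => Real.log (p : ℝ) ≤ y),
        min 1 (a * Real.log p) * (p : ℝ)⁻¹ ≤ 3 := by
      rcases hy2 with hy2 | hy2
      · have hp := n2_part (by linarith : (0 : ℝ) ≤ y) (s.filter (fun p : ℕ => Real.log (p : ℝ) ≤ y))
          (fun p hp => ⟨(hs p (Finset.mem_filter.mp hp).1).1, (Finset.mem_filter.mp hp).2⟩)
        have ha1 : a ≤ 1 := by nlinarith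
        calc ∑ p ∈ s.filter (fun p : ℕ => Real.log (p : ℝ) ≤ y), min 1 (a * Real.log p) * (p : ℝ)⁻¹
            ≤ ∑ p ∈ s.filter (fun p : ℕ => Real.log (p : ℝ) ≤ y), a * (Real.log p / p) := by
              apply Finset.sum_le_sum
              intro p _
              calc min 1 (a * Real.log p) * (p : ℝ)⁻¹ ≤ (a * Real.log p) * (p : ℝ)⁻¹ :=
                    mul_le_mul_of_nonneg_right (min_le_right _ _) (hinv0 p)
                _ = a * (Real.log p / p) := by rw [div_eq_mul_inv]; ring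
          _ = a * ∑ p ∈ s.filter (fun p : ℕ => Real.log (p : ℝ) ≤ y), Real.log p / p := by
              rw [Finset.mul_sum]
          _ ≤ a * (y + Real.log 4) := mul_le_mul_of_nonneg_left hp ha
          _ ≤ 3 := by nlinarith
      · have hp := n2_part (by linarith : (0 : ℝ) ≤ y) (s.filter (fun p : ℕ => Real.log (p : ℝ) ≤ y))
          (fun p hp => ⟨(hs p (Finset.mem_filter.mp hp).1).1, (Finset.mem_filter.mp hp).2⟩)
        have hle : ∀ p ∈ s.filter (fun p : ℕ => Real.log (p : ℝ) ≤ y), p = 2 := by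
          intro p hp
          obtain ⟨h1, h2⟩ := Finset.mem_filter.mp hp
          rw [hy2] at h2
          have h3 := (hs p h1).1.two_le
          by_contra hne
          have h5 : 3 ≤ p := by omega
          have h6 : Real.exp 1 < 3 := Real.exp_one_lt_three
          have h7 : (1 : ℝ) < Real.log p := by
            rw [Real.lt_log_iff_exp_lt (by positivity)]
            have : (3 : ℝ) ≤ p := by exact_mod_cast h5
            linarith
          linarith
        calc ∑ p ∈ s.filter (fun p : ℕ => Real.log (p : ℝ) ≤ y), min 1 (a * Real.log p) * (p : ℝ)⁻¹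
            ≤ ∑ p ∈ ({2} : Finset ℕ), (1 : ℝ) := by
              calc ∑ p ∈ s.filter (fun p : ℕ => Real.log (p : ℝ) ≤ y),
                    min 1 (a * Real.log p) * (p : ℝ)⁻¹
                  ≤ ∑ p ∈ s.filter (fun p : ℕ => Real.log (p : ℝ) ≤ y), (1 : ℝ) := by
                    apply Finset.sum_le_sum
                    intro p hp
                    have h1 : (p : ℝ)⁻¹ ≤ 1 := by
                      apply inv_le_one_of_one_le₀
                      exact_mod_cast (hs p (Finset.mem_filter.mp hp).1).1.one_lt.le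
                    calc min 1 (a * Real.log p) * (p : ℝ)⁻¹ ≤ 1 * 1 :=
                          mul_le_mul (min_le_left _ _) h1 (hinv0 p) (by norm_num)
                      _ = 1 := by norm_num
                _ ≤ ∑ p ∈ ({2} : Finset ℕ), (1 : ℝ) := by
                    apply Finset.sum_le_sum_of_subset_of_nonneg
                    · intro p hp
                      rw [Finset.mem_singleton]
                      exact hle p hp
                    · intro _ _ _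
                      norm_num
          _ ≤ 3 := by norm_num
    have hlarge : ∑ p ∈ s.filter (fun p : ℕ => ¬ Real.log (p : ℝ) ≤ y),
        min 1 (a * Real.log p) * (p : ℝ)⁻¹ ≤ Real.log (1 + a * Y) + 7 := by
      rcases le_or_gt Y y with hYy | hYy
      · have : s.filter (fun p : ℕ => ¬ Real.log (p : ℝ) ≤ y) = ∅ := by
          rw [Finset.filter_eq_empty_iff]
          intro p hp hn
          exact hn ((hs p hp).2.trans hYy)
        rw [this, Finset.sum_empty]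
        linarith
      · have hVV := MP_f9aece_nt_h6.VV_le_log (by linarith : (0 : ℝ) < y) hYy.le
          (s.filter (fun p : ℕ => ¬ Real.log (p : ℝ) ≤ y))
          (fun p hp => ⟨(hs p (Finset.mem_filter.mp hp).1).1,
            not_le.mp (Finset.mem_filter.mp hp).2, (hs p (Finset.mem_filter.mp hp).1).2⟩)
        have h1 : 1 ≤ a * y := by
          rcases hy3 with h | h
          · exact h
          · linarith
        have h2 : Y / y ≤ 1 + a * Y := by
          rw [div_le_iff₀ (by linarith)]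
          nlinarith
        have h3 : Real.log (Y / y) ≤ Real.log (1 + a * Y) :=
          Real.log_le_log (by positivity) h2
        have h5 : Real.log 4 / y ≤ 2 := by
          rw [div_le_iff₀ (by linarith)]
          nlinarith
        have h6 : ∑ p ∈ s.filter (fun p : ℕ => ¬ Real.log (p : ℝ) ≤ y),
            min 1 (a * Real.log p) * (p : ℝ)⁻¹ ≤
            VV (s.filter (fun p : ℕ => ¬ Real.log (p : ℝ) ≤ y)) := by
          unfold MP_f9aece_nt.VV
          apply Finset.sum_le_sum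
          intro p _
          calc min 1 (a * Real.log p) * (p : ℝ)⁻¹ ≤ 1 * (p : ℝ)⁻¹ :=
                mul_le_mul_of_nonneg_right (min_le_left _ _) (hinv0 p)
            _ = (p : ℝ)⁻¹ := one_mul _
        linarith
    linarith
  rcases le_or_gt 1 a with h1 | h1
  · exact split 1 le_rfl (Or.inr rfl) (Or.inl (by linarith))
  · rcases eq_or_lt_of_le ha with h0 | h0
    · rw [← h0]
      have : ∑ p ∈ s, min 1 (0 * Real.log p) * (p : ℝ)⁻¹ = 0 := by
        apply Finset.sum_eq_zero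
        intro p _
        simp
      rw [this]
      simp
    · refine split (1 / a) ?_ (Or.inl ?_) (Or.inl ?_)
      · rw [le_div_iff₀ h0]
        linarith
      · rw [mul_one_div_cancel h0.ne']
      · rw [mul_one_div_cancel h0.ne']

private lemma n2_geom (n : ℕ) : ((n : ℝ) + 3) * Real.exp (-(n : ℝ)) ≤ 3 * (1 / 2) ^ n := by
  have h1 : (8 / 3 : ℝ) ≤ Real.exp 1 := by
    have := Real.exp_one_gt_d9
    linarith
  have h2 : Real.exp (-(n : ℝ)) = (Real.exp 1)⁻¹ ^ n := by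
    rw [← Real.exp_neg, ← Real.exp_nat_mul]
    congr 1
    ring
  have h3 : (Real.exp 1)⁻¹ ≤ 3 / 8 := by
    rw [inv_le_comm₀ (by positivity) (by norm_num)]
    linarith
  have h4 : (Real.exp 1)⁻¹ ^ n ≤ (3 / 8 : ℝ) ^ n := pow_le_pow_left₀ (by positivity) h3 n
  have h5 : (n : ℝ) + 3 ≤ 3 * (4 / 3) ^ n := by
    have := one_add_mul_le_pow (a := (1 / 3 : ℝ)) (by norm_num) n
    have h6 : (1 + 1 / 3 : ℝ) = 4 / 3 := by norm_num
    rw [h6] at this
    linarith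
  rw [h2]
  calc ((n : ℝ) + 3) * (Real.exp 1)⁻¹ ^ n ≤ (3 * (4 / 3) ^ n) * (3 / 8 : ℝ) ^ n :=
        mul_le_mul h5 h4 (by positivity) (by positivity)
    _ = 3 * (1 / 2) ^ n := by
        rw [mul_assoc, ← mul_pow]
        norm_num

private lemma n2_exp {a : ℝ} (ha : 0 ≤ a) (ha1 : a ≤ 1) (s : Finset ℕ)
    (hs : ∀ p ∈ s, p.Prime) :
    ∑ p ∈ s, a * Real.log p * Real.exp (-(a * Real.log p)) * (p : ℝ)⁻¹ ≤ 6 := by
  have h4 := n2_log4
  rcases eq_or_lt_of_le ha with h0 | h0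
  · rw [← h0]
    simp
  obtain ⟨N, hN⟩ : ∃ N : ℕ, ∀ p ∈ s, a * Real.log p ≤ N := by
    obtain ⟨M, hM⟩ := (s.image (fun p : ℕ => a * Real.log (p : ℝ))).bddAbove
    obtain ⟨N, hN⟩ := exists_nat_ge M
    refine ⟨N, fun p hp => le_trans (hM ?_) hN⟩
    rw [Finset.mem_coe, Finset.mem_image]
    exact ⟨p, hp, rfl⟩
  have hpt : ∀ p ∈ s, a * Real.log p * Real.exp (-(a * Real.log p)) * (p : ℝ)⁻¹ ≤
      ∑ n ∈ Finset.range N, (if a * Real.log (p : ℝ) ≤ (n : ℝ) + 1 then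
        Real.exp (-(n : ℝ)) * (a * (Real.log p / p)) else 0) := by
    intro p hp
    set x := a * Real.log (p : ℝ) with hx
    have hx0 : 0 < x := by
      apply mul_pos h0
      apply Real.log_pos
      exact_mod_cast (hs p hp).one_lt
    have hxN : x ≤ N := hN p hp
    set n := ⌈x⌉₊ - 1 with hn
    have hc1 : 1 ≤ ⌈x⌉₊ := Nat.one_le_ceil_iff.mpr hx0
    have hnN : n < N := by
      have : ⌈x⌉₊ ≤ N := Nat.ceil_le.mpr hxN
      omega
    have hn1 : x ≤ (n : ℝ) + 1 := by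
      have h1 := Nat.le_ceil x
      have h2 : ((⌈x⌉₊ : ℕ) : ℝ) = (n : ℝ) + 1 := by
        rw [hn]
        push_cast [hc1]
        ring
      linarith
    have hn2 : (n : ℝ) ≤ x := by
      have h1 := Nat.ceil_lt_add_one hx0.le
      have h2 : ((⌈x⌉₊ : ℕ) : ℝ) = (n : ℝ) + 1 := by
        rw [hn]
        push_cast [hc1]
        ring
      linarith
    have hnn : 0 ≤ a * (Real.log (p : ℝ) / p) := by
      apply mul_nonneg ha
      exact div_nonneg (Real.log_natCast_nonneg p) (Nat.cast_nonneg p)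
    calc x * Real.exp (-x) * (p : ℝ)⁻¹ = Real.exp (-x) * (a * (Real.log p / p)) := by
          rw [hx, div_eq_mul_inv]
          ring
      _ ≤ Real.exp (-(n : ℝ)) * (a * (Real.log p / p)) := by
          apply mul_le_mul_of_nonneg_right _ hnn
          apply Real.exp_le_exp.mpr
          linarith
      _ = (if x ≤ (n : ℝ) + 1 then Real.exp (-(n : ℝ)) * (a * (Real.log p / p)) else 0) := by
          rw [if_pos hn1]
      _ ≤ ∑ n ∈ Finset.range N, (if x ≤ (n : ℝ) + 1 then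
            Real.exp (-(n : ℝ)) * (a * (Real.log p / p)) else 0) := by
          apply Finset.single_le_sum (f := fun n : ℕ => (if x ≤ (n : ℝ) + 1 then
            Real.exp (-(n : ℝ)) * (a * (Real.log p / p)) else 0))
          · intro i _

            split_ifs
            · exact mul_nonneg (Real.exp_pos _).le hnn
            · exact le_rfl
          · exact Finset.mem_range.mpr hnN
  calc ∑ p ∈ s, a * Real.log p * Real.exp (-(a * Real.log p)) * (p : ℝ)⁻¹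
      ≤ ∑ p ∈ s, ∑ n ∈ Finset.range N, (if a * Real.log (p : ℝ) ≤ (n : ℝ) + 1 then
        Real.exp (-(n : ℝ)) * (a * (Real.log p / p)) else 0) := Finset.sum_le_sum hpt
    _ = ∑ n ∈ Finset.range N, ∑ p ∈ s, (if a * Real.log (p : ℝ) ≤ (n : ℝ) + 1 then
        Real.exp (-(n : ℝ)) * (a * (Real.log p / p)) else 0) := Finset.sum_comm
    _ ≤ ∑ n ∈ Finset.range N, 3 * (1 / 2 : ℝ) ^ n := by
        apply Finset.sum_le_sum
        intro n _
        rw [← Finset.sum_filter, ← Finset.mul_sum, ← Finset.mul_sum]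
        have h1 := n2_part (u := ((n : ℝ) + 1) / a) (by positivity)
          (s.filter (fun p : ℕ => a * Real.log (p : ℝ) ≤ (n : ℝ) + 1)) (by
            intro p hp
            obtain ⟨g1, g2⟩ := Finset.mem_filter.mp hp
            refine ⟨hs p g1, ?_⟩
            rw [le_div_iff₀ h0]
            linarith)
        have h2 : a * ∑ p ∈ s.filter (fun p : ℕ => a * Real.log (p : ℝ) ≤ (n : ℝ) + 1),
            Real.log p / p ≤ (n : ℝ) + 3 := by
          calc a * ∑ p ∈ s.filter (fun p : ℕ => a * Real.log (p : ℝ) ≤ (n : ℝ) + 1), Real.log p / p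
              ≤ a * (((n : ℝ) + 1) / a + Real.log 4) := mul_le_mul_of_nonneg_left h1 ha
            _ = (n : ℝ) + 1 + a * Real.log 4 := by
                rw [mul_add, mul_div_cancel₀ _ h0.ne']
            _ ≤ (n : ℝ) + 3 := by nlinarith
        calc Real.exp (-(n : ℝ)) * (a * ∑ p ∈ s.filter
              (fun p : ℕ => a * Real.log (p : ℝ) ≤ (n : ℝ) + 1), Real.log p / p)
            ≤ Real.exp (-(n : ℝ)) * ((n : ℝ) + 3) :=
              mul_le_mul_of_nonneg_left h2 (Real.exp_pos _).le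
          _ = ((n : ℝ) + 3) * Real.exp (-(n : ℝ)) := by ring
          _ ≤ 3 * (1 / 2) ^ n := n2_geom n
    _ = 3 * ∑ n ∈ Finset.range N, (1 / 2 : ℝ) ^ n := by rw [Finset.mul_sum]
    _ ≤ 3 * 2 := by
        apply mul_le_mul_of_nonneg_left _ (by norm_num)
        have := geom_sum_eq (by norm_num : (1 / 2 : ℝ) ≠ 1) N
        rw [this]
        have h1 : (0 : ℝ) < (1 / 2) ^ N := by positivity
        have h2 : ((1 / 2 : ℝ) ^ N - 1) / (1 / 2 - 1) = 2 * (1 - (1 / 2) ^ N) := by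
          field_simp
          ring
        rw [h2]
        linarith
    _ = 6 := by norm_num

/-! ### the characters -/

private lemma n2_pow {p : ℕ} (hp : 0 < p) (u : ℝ) :
    (p : ℂ) ^ (-(I * u) : ℂ) = cexp (I * ((-(u * Real.log p) : ℝ) : ℂ)) := by
  have h0 : (p : ℂ) ≠ 0 := by exact_mod_cast hp.ne'
  rw [Complex.cpow_def_of_ne_zero h0, ← Complex.natCast_log]
  congr 1
  push_cast
  ring

private lemma n2_norm_pow {p : ℕ} (hp : 0 < p) (u : ℝ) : ‖(p : ℂ) ^ (-(I * u) : ℂ)‖ = 1 := by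
  rw [n2_pow hp, mul_comm]
  exact Complex.norm_exp_ofReal_mul_I _

private lemma n2_d1 {p : ℕ} (hp : 0 < p) (u : ℝ) :
    ‖(p : ℂ) ^ (-(I * u) : ℂ) - 1‖ ≤ |u| * Real.log p := by
  rw [n2_pow hp]
  refine (Real.norm_exp_I_mul_ofReal_sub_one_le).trans ?_
  rw [Real.norm_eq_abs, abs_neg, abs_mul, abs_of_nonneg (Real.log_natCast_nonneg p)]

private lemma n2_d2 {p : ℕ} (hp : 0 < p) (u : ℝ) :
    ‖(p : ℂ) ^ (-(I * u) : ℂ) - 1‖ ≤ 2 := by
  calc ‖(p : ℂ) ^ (-(I * u) : ℂ) - 1‖ ≤ ‖(p : ℂ) ^ (-(I * u) : ℂ)‖ + ‖(1 : ℂ)‖ := norm_sub_le _ _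
    _ = 2 := by
      rw [n2_norm_pow hp]
      norm_num

private lemma n2_d3 {p : ℕ} (hp : 0 < p) (u : ℝ) :
    ‖(p : ℂ) ^ (-(I * u) : ℂ) - 1‖ ≤ 2 * min 1 (|u| * Real.log p) := by
  have h1 := n2_d1 hp u
  have h2 := n2_d2 hp u
  have h3 : 0 ≤ |u| * Real.log p := mul_nonneg (abs_nonneg _) (Real.log_natCast_nonneg p)
  rcases min_cases 1 (|u| * Real.log p) with ⟨h, _⟩ | ⟨h, _⟩ <;> rw [h] <;> linarith

private lemma n2_d4 {p : ℕ} (hp : 0 < p) (u : ℝ) :
    ‖(p : ℂ) ^ (-(I * u) : ℂ) - 1‖ ^ 2 ≤ 4 * min 1 (|u| * Real.log p) := by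
  have h1 := n2_d3 hp u
  have h0 : 0 ≤ ‖(p : ℂ) ^ (-(I * u) : ℂ) - 1‖ := norm_nonneg _
  have h3 : 0 ≤ min 1 (|u| * Real.log p) :=
    le_min zero_le_one (mul_nonneg (abs_nonneg _) (Real.log_natCast_nonneg p))
  have h4 : min 1 (|u| * Real.log p) ≤ 1 := min_le_left _ _
  nlinarith

private lemma n2_l {p : ℕ} (hp : 0 < p) {l : ℝ} (hl : 0 ≤ l) :
    0 ≤ 1 - (p : ℝ) ^ (-l) ∧ 1 - (p : ℝ) ^ (-l) ≤ min 1 (l * Real.log p) ∧
      (p : ℝ) ^ (-l) = Real.exp (-(l * Real.log p)) := by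
  have hp0 : (0 : ℝ) < p := by exact_mod_cast hp
  have he : (p : ℝ) ^ (-l) = Real.exp (-(l * Real.log p)) := by
    rw [Real.rpow_def_of_pos hp0]
    congr 1
    ring
  have hx : 0 ≤ l * Real.log p := mul_nonneg hl (Real.log_natCast_nonneg p)
  refine ⟨?_, ?_, he⟩
  · rw [he]
    have := Real.exp_le_one_iff.mpr (by linarith : -(l * Real.log (p : ℝ)) ≤ 0)
    linarith
  · rw [he]
    apply le_min
    · have := Real.exp_pos (-(l * Real.log (p : ℝ)))
      linarith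
    · have := Real.add_one_le_exp (-(l * Real.log (p : ℝ)))
      linarith

private lemma n2_h (A : Par) {p : ℕ} (hp : 0 < p) :
    A.h p = (p : ℝ) ^ (-(1 / 2) : ℝ) * (p : ℝ) ^ (-A.lam) := by
  have hp0 : (0 : ℝ) < p := by exact_mod_cast hp
  unfold Par.h
  rw [← Real.rpow_add hp0]
  congr 1
  ring

private lemma n2_half {p : ℕ} (hp : 0 < p) :
    (p : ℝ) ^ (-(1 / 2) : ℝ) * (p : ℝ) ^ (-(1 / 2) : ℝ) = (p : ℝ)⁻¹ := by
  have hp0 : (0 : ℝ) < p := by exact_mod_cast hp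
  rw [← Real.rpow_add hp0, ← Real.rpow_neg_one]
  congr 1
  norm_num

theorem primeSums : PrimeSums := by
  refine ⟨1000, by norm_num, ?_⟩
  intro A hA
  have hY := hA.hY
  have hY0 : 0 < A.Y := by linarith
  have hl := hA.hl
  have hU : ∀ p ∈ A.U, p.Prime ∧ Real.log p ≤ A.Y := by
    intro p hp
    unfold Par.U at hp
    obtain ⟨g, _, hg⟩ := Finset.mem_biUnion.mp hp
    unfold Par.S Pool.Agent.Lib.J4.Sg at hg
    obtain ⟨_, h1, _, _, h4⟩ := Finset.mem_filter.mp hg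
    exact ⟨h1, h4.trans (Pool.Agent.Lib.J4.Yg_le A.v hY0 g)⟩
  have hp0 : ∀ p ∈ A.U, 0 < p := fun p hp => (hU p hp).1.pos
  have h4 := n2_log4
  have hone : ∀ u : ℝ, ∑ p ∈ A.U, min 1 (|u| * Real.log p) * (p : ℝ)⁻¹ ≤
      Real.log (1 + A.Y * |u|) + 10 := by
    intro u
    have := n2_one (abs_nonneg u) hY A.U hU
    rwa [mul_comm |u| A.Y] at this
  have hlog : ∑ p ∈ A.U, Real.log p / p ≤ A.Y + Real.log 4 := n2_part hY0.le A.U hU
  have hlog3 : ∑ p ∈ A.U, Real.log p / p ≤ 3 * A.Y := by linarith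
  have hh0 : ∀ p ∈ A.U, 0 ≤ A.h p := by
    intro p hp
    unfold Par.h
    positivity
  have hh2 : ∀ p ∈ A.U, A.h p ^ 2 ≤ (p : ℝ)⁻¹ := by
    intro p hp
    rw [n2_h A (hp0 p hp), mul_pow, pow_two ((p : ℝ) ^ (-(1 / 2) : ℝ)), n2_half (hp0 p hp)]
    obtain ⟨g1, g2, g3⟩ := n2_l (hp0 p hp) hl
    have g4 : (p : ℝ) ^ (-A.lam) ≤ 1 := by linarith
    have g5 : 0 ≤ (p : ℝ) ^ (-A.lam) := by positivity
    have g6 : ((p : ℝ) ^ (-A.lam)) ^ 2 ≤ 1 := by nlinarith
    have g7 : (0 : ℝ) ≤ (p : ℝ)⁻¹ := by positivity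
    nlinarith
  refine ⟨?_, ?_, ?_, ?_, ?_⟩
  · -- (1)
    intro u
    have hpt : ∀ p ∈ A.U, ‖(p : ℂ) ^ (-(1 / 2 + I * u) : ℂ) - A.h p‖ ^ 2 ≤
        17 / 4 * (min 1 (|u| * Real.log p) * (p : ℝ)⁻¹) +
          17 * (min 1 (A.lam * Real.log p) * (p : ℝ)⁻¹) := by
      intro p hp
      have hpp := hp0 p hp
      have hpC : (p : ℂ) ≠ 0 := by exact_mod_cast hpp.ne'
      have e1 : (p : ℂ) ^ (-(1 / 2 + I * u) : ℂ) - A.h p =
          (((p : ℝ) ^ (-(1 / 2) : ℝ) : ℝ) : ℂ) *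
            (((p : ℂ) ^ (-(I * u) : ℂ) - 1) + ((1 - (p : ℝ) ^ (-A.lam) : ℝ) : ℂ)) := by
        rw [n2_h A hpp, neg_add, Complex.cpow_add _ _ hpC]
        have e2 : (p : ℂ) ^ (-(1 / 2) : ℂ) = (((p : ℝ) ^ (-(1 / 2) : ℝ) : ℝ) : ℂ) := by
          rw [Complex.ofReal_cpow (Nat.cast_nonneg p)]
          push_cast
          rfl
        rw [e2]
        push_cast
        ring
      rw [e1, norm_mul, Complex.norm_real, Real.norm_eq_abs,
        abs_of_nonneg (by positivity : (0 : ℝ) ≤ (p : ℝ) ^ (-(1 / 2) : ℝ)), mul_pow, pow_two ((p : ℝ) ^ (-(1 / 2) : ℝ)), n2_half hpp]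
      obtain ⟨g1, g2, g3⟩ := n2_l hpp hl
      set X := ‖(p : ℂ) ^ (-(I * u) : ℂ) - 1‖ with hX
      set Z := 1 - (p : ℝ) ^ (-A.lam) with hZ
      have hX0 : 0 ≤ X := norm_nonneg _
      have k1 : ‖((p : ℂ) ^ (-(I * u) : ℂ) - 1) + ((Z : ℝ) : ℂ)‖ ≤ X + Z := by
        refine (norm_add_le _ _).trans ?_
        rw [Complex.norm_real, Real.norm_eq_abs, abs_of_nonneg g1]
      have k2 : ‖((p : ℂ) ^ (-(I * u) : ℂ) - 1) + ((Z : ℝ) : ℂ)‖ ^ 2 ≤ (X + Z) ^ 2 :=
        pow_le_pow_left₀ (norm_nonneg _) k1 2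
      have k3 : (X + Z) ^ 2 ≤ 17 / 16 * X ^ 2 + 17 * Z ^ 2 := by
        nlinarith [sq_nonneg (X - 16 * Z)]
      have k4 := n2_d4 hpp u
      rw [← hX] at k4
      have k5 : Z ^ 2 ≤ min 1 (A.lam * Real.log p) := by
        have : Z ≤ 1 := g2.trans (min_le_left _ _)
        nlinarith
      have k6 : (0 : ℝ) ≤ (p : ℝ)⁻¹ := by positivity
      calc (p : ℝ)⁻¹ * ‖((p : ℂ) ^ (-(I * u) : ℂ) - 1) + ((Z : ℝ) : ℂ)‖ ^ 2
          ≤ (p : ℝ)⁻¹ * (17 / 4 * min 1 (|u| * Real.log p) + 17 * min 1 (A.lam * Real.log p)) := by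
            apply mul_le_mul_of_nonneg_left _ k6
            linarith
        _ = _ := by ring
    have k7 := hone u
    have k8 := n2_one hl hY A.U hU
    calc ∑ p ∈ A.U, ‖(p : ℂ) ^ (-(1 / 2 + I * u) : ℂ) - A.h p‖ ^ 2
        ≤ ∑ p ∈ A.U, (17 / 4 * (min 1 (|u| * Real.log p) * (p : ℝ)⁻¹) +
          17 * (min 1 (A.lam * Real.log p) * (p : ℝ)⁻¹)) := Finset.sum_le_sum hpt
      _ = 17 / 4 * ∑ p ∈ A.U, (min 1 (|u| * Real.log p) * (p : ℝ)⁻¹) +
          17 * ∑ p ∈ A.U, (min 1 (A.lam * Real.log p) * (p : ℝ)⁻¹) := by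
          rw [Finset.sum_add_distrib, Finset.mul_sum, Finset.mul_sum]
      _ ≤ _ := by linarith
  · -- (2)
    intro u
    have hpt : ∀ p ∈ A.U, ‖(A.h p : ℂ) * ((p : ℂ) ^ (-(I * u) : ℂ) - 1)‖ ^ 2 ≤
        4 * (min 1 (|u| * Real.log p) * (p : ℝ)⁻¹) := by
      intro p hp
      rw [norm_mul, Complex.norm_real, Real.norm_eq_abs, abs_of_nonneg (hh0 p hp), mul_pow]
      have k4 := n2_d4 (hp0 p hp) u
      have k1 := hh2 p hp
      calc A.h p ^ 2 * ‖(p : ℂ) ^ (-(I * u) : ℂ) - 1‖ ^ 2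
          ≤ (p : ℝ)⁻¹ * (4 * min 1 (|u| * Real.log p)) :=
            mul_le_mul k1 k4 (by positivity) (by positivity)
        _ = _ := by ring
    have k7 := hone u
    have k9 : 0 ≤ Real.log (1 + A.Y * |u|) := Real.log_nonneg (by
      have : 0 ≤ A.Y * |u| := by positivity
      linarith)
    calc ∑ p ∈ A.U, ‖(A.h p : ℂ) * ((p : ℂ) ^ (-(I * u) : ℂ) - 1)‖ ^ 2
        ≤ ∑ p ∈ A.U, 4 * (min 1 (|u| * Real.log p) * (p : ℝ)⁻¹) := Finset.sum_le_sum hpt
      _ = 4 * ∑ p ∈ A.U, (min 1 (|u| * Real.log p) * (p : ℝ)⁻¹) := by rw [Finset.mul_sum]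
      _ ≤ _ := by linarith
  · -- (3)
    have hpt : ∀ p ∈ A.U, A.h p * ((p : ℝ) ^ (-(1 / 2) : ℝ) - A.h p) ≤
        A.lam * Real.log p * Real.exp (-(A.lam * Real.log p)) * (p : ℝ)⁻¹ := by
      intro p hp
      have hpp := hp0 p hp
      obtain ⟨g1, g2, g3⟩ := n2_l hpp hl
      rw [n2_h A hpp]
      have e1 : (p : ℝ) ^ (-(1 / 2) : ℝ) * (p : ℝ) ^ (-A.lam) *
          ((p : ℝ) ^ (-(1 / 2) : ℝ) - (p : ℝ) ^ (-(1 / 2) : ℝ) * (p : ℝ) ^ (-A.lam)) =
          ((p : ℝ) ^ (-(1 / 2) : ℝ) * (p : ℝ) ^ (-(1 / 2) : ℝ)) *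
            ((p : ℝ) ^ (-A.lam) * (1 - (p : ℝ) ^ (-A.lam))) := by ring
      rw [e1, n2_half hpp]
      have k1 : (p : ℝ) ^ (-A.lam) * (1 - (p : ℝ) ^ (-A.lam)) ≤
          Real.exp (-(A.lam * Real.log p)) * (A.lam * Real.log p) := by
        rw [g3] at g2 ⊢
        exact mul_le_mul_of_nonneg_left (g2.trans (min_le_right _ _)) (Real.exp_pos _).le
      have k6 : (0 : ℝ) ≤ (p : ℝ)⁻¹ := by positivity
      calc (p : ℝ)⁻¹ * ((p : ℝ) ^ (-A.lam) * (1 - (p : ℝ) ^ (-A.lam)))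
          ≤ (p : ℝ)⁻¹ * (Real.exp (-(A.lam * Real.log p)) * (A.lam * Real.log p)) :=
            mul_le_mul_of_nonneg_left k1 k6
        _ = _ := by ring
    calc ∑ p ∈ A.U, A.h p * ((p : ℝ) ^ (-(1 / 2) : ℝ) - A.h p)
        ≤ ∑ p ∈ A.U, A.lam * Real.log p * Real.exp (-(A.lam * Real.log p)) * (p : ℝ)⁻¹ :=
          Finset.sum_le_sum hpt
      _ ≤ 6 := n2_exp hl hA.hl1 A.U (fun p hp => (hU p hp).1)
      _ ≤ 1000 := by norm_num
  · -- (4)
    intro u
    apply le_min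
    · have hpt : ∀ p ∈ A.U, A.h p ^ 2 * ‖(p : ℂ) ^ (-(I * u) : ℂ) - 1‖ ≤
          |u| * (Real.log p / p) := by
        intro p hp
        calc A.h p ^ 2 * ‖(p : ℂ) ^ (-(I * u) : ℂ) - 1‖ ≤ (p : ℝ)⁻¹ * (|u| * Real.log p) :=
              mul_le_mul (hh2 p hp) (n2_d1 (hp0 p hp) u) (norm_nonneg _) (by positivity)
          _ = |u| * (Real.log p / p) := by
              rw [div_eq_mul_inv]
              ring
      calc ∑ p ∈ A.U, A.h p ^ 2 * ‖(p : ℂ) ^ (-(I * u) : ℂ) - 1‖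
          ≤ ∑ p ∈ A.U, |u| * (Real.log p / p) := Finset.sum_le_sum hpt
        _ = |u| * ∑ p ∈ A.U, Real.log p / p := by rw [Finset.mul_sum]
        _ ≤ |u| * (3 * A.Y) := mul_le_mul_of_nonneg_left hlog3 (abs_nonneg _)
        _ ≤ 1000 * (A.Y * |u|) := by
            have : 0 ≤ A.Y * |u| := by positivity
            nlinarith
    · have hpt : ∀ p ∈ A.U, A.h p ^ 2 * ‖(p : ℂ) ^ (-(I * u) : ℂ) - 1‖ ≤
          2 * (min 1 (|u| * Real.log p) * (p : ℝ)⁻¹) := by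
        intro p hp
        calc A.h p ^ 2 * ‖(p : ℂ) ^ (-(I * u) : ℂ) - 1‖
            ≤ (p : ℝ)⁻¹ * (2 * min 1 (|u| * Real.log p)) :=
              mul_le_mul (hh2 p hp) (n2_d3 (hp0 p hp) u) (norm_nonneg _) (by positivity)
          _ = _ := by ring
      have k7 := hone u
      calc ∑ p ∈ A.U, A.h p ^ 2 * ‖(p : ℂ) ^ (-(I * u) : ℂ) - 1‖
          ≤ ∑ p ∈ A.U, 2 * (min 1 (|u| * Real.log p) * (p : ℝ)⁻¹) := Finset.sum_le_sum hpt
        _ = 2 * ∑ p ∈ A.U, (min 1 (|u| * Real.log p) * (p : ℝ)⁻¹) := by rw [Finset.mul_sum]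
        _ ≤ _ := by linarith
  · -- (5)
    intro u
    have hpt : ∀ p ∈ A.U, A.h p ^ 2 * ‖(p : ℂ) ^ (-(I * u) : ℂ) - 1‖ ^ 2 ≤
        (|u| ^ 2 * A.Y) * (Real.log p / p) := by
      intro p hp
      have k1 := n2_d1 (hp0 p hp) u
      have k2 : ‖(p : ℂ) ^ (-(I * u) : ℂ) - 1‖ ^ 2 ≤ (|u| * Real.log p) ^ 2 :=
        pow_le_pow_left₀ (norm_nonneg _) k1 2
      have k3 : Real.log p ^ 2 ≤ A.Y * Real.log p := by
        have g1 := (hU p hp).2
        have g2 := Real.log_natCast_nonneg p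
        nlinarith
      calc A.h p ^ 2 * ‖(p : ℂ) ^ (-(I * u) : ℂ) - 1‖ ^ 2
          ≤ (p : ℝ)⁻¹ * (|u| * Real.log p) ^ 2 :=
            mul_le_mul (hh2 p hp) k2 (by positivity) (by positivity)
        _ = |u| ^ 2 * (p : ℝ)⁻¹ * Real.log p ^ 2 := by ring
        _ ≤ |u| ^ 2 * (p : ℝ)⁻¹ * (A.Y * Real.log p) :=
            mul_le_mul_of_nonneg_left k3 (by positivity)
        _ = (|u| ^ 2 * A.Y) * (Real.log p / p) := by
            rw [div_eq_mul_inv]
            ring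
    calc ∑ p ∈ A.U, A.h p ^ 2 * ‖(p : ℂ) ^ (-(I * u) : ℂ) - 1‖ ^ 2
        ≤ ∑ p ∈ A.U, (|u| ^ 2 * A.Y) * (Real.log p / p) := Finset.sum_le_sum hpt
      _ = (|u| ^ 2 * A.Y) * ∑ p ∈ A.U, Real.log p / p := by rw [Finset.mul_sum]
      _ ≤ (|u| ^ 2 * A.Y) * (3 * A.Y) := mul_le_mul_of_nonneg_left hlog3 (by positivity)
      _ ≤ 1000 * (A.Y * |u|) ^ 2 := by
          have : 0 ≤ (A.Y * |u|) ^ 2 := by positivity
          nlinarith

end Pool.Agent.Lib.GT
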