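import Mathlib
import Pool.Agent.Lib.MP_f9aece_nt_gt.StmtsZ
import Pool.Agent.Lib.MP_f9aece_nt_h40.Poisson

/-!
Gaussian tails of `log |zeta|`: the Poisson-Jensen inequality (row P1).
It follows from the Poisson inequality for `‖F‖ ^ p` as `p` tends to `0`.
-/

set_option autoImplicit false
set_option linter.unusedVariables false

namespace Pool.Agent.Lib.GT

open MeasureTheory Set Filter Topology Complex ProbabilityTheory
open Pool.Agent.Lib.MP_f9aece_nt_h40 (poisson_ineq sin_half_integrable sin_half_pos)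

namespace P1aux

lemma posLog_sub_Ph {u x : ℝ} (hu : 0 < u) (hx : 0 < x) :
    Real.posLog x - Ph u x = max (-u) (Real.log x) := by
  unfold Ph Real.posLog
  rw [if_neg (not_le.mpr hx), Real.log_inv]
  rcases le_total 0 (Real.log x) with h | h
  · rw [max_eq_right h, max_eq_left (by linarith : -Real.log x ≤ 0), min_eq_right hu.le,
      max_eq_right (by linarith)]
    ring
  · rw [max_eq_left h, max_eq_right (by linarith : 0 ≤ -Real.log x)]
    rcases le_total u (-Real.log x) with h2 | h2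
    · rw [min_eq_left h2, max_eq_left (by linarith)]
      ring
    · rw [min_eq_right h2, max_eq_right (by linarith)]
      ring

lemma lim_trunc {u x : ℝ} (hu : 0 < u) (hx : 0 ≤ x) :
    Tendsto (fun p : ℝ => max (-u) ((x ^ p - 1) / p)) (𝓝[>] 0) (𝓝 (Real.posLog x - Ph u x)) := by
  rcases hx.eq_or_lt with h | h
  · subst h
    have e1 : Real.posLog 0 - Ph u 0 = -u := by
      unfold Ph Real.posLog
      simp
    rw [e1]
    apply tendsto_const_nhds.congr'
    have h1 : ∀ᶠ p : ℝ in 𝓝[>] 0, 0 < p := self_mem_nhdsWithin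
    have h2 : ∀ᶠ p : ℝ in 𝓝[>] 0, p < 1 / u := nhdsWithin_le_nhds (gt_mem_nhds (by positivity))
    filter_upwards [h1, h2] with p hp hp2
    rw [Real.zero_rpow hp.ne', max_eq_left]
    rw [div_le_iff₀ hp]
    rw [lt_div_iff₀ hu] at hp2
    nlinarith
  · rw [posLog_sub_Ph hu h]
    have h1 := (Real.hasStrictDerivAt_const_rpow h 0).hasDerivAt.tendsto_slope_zero_right
    simp only [zero_add, Real.rpow_zero, one_mul, smul_eq_mul] at h1
    have h2 : Tendsto (fun p : ℝ => (x ^ p - 1) / p) (𝓝[>] 0) (𝓝 (Real.log x)) := by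
      refine h1.congr ?_
      intro p
      rw [div_eq_inv_mul]
    exact tendsto_const_nhds.max h2

lemma bound_trunc {u x p : ℝ} (hu : 0 < u) (hx : 0 ≤ x) (hp : 0 < p) (hp1 : p ≤ 1 / 4) :
    |max (-u) ((x ^ p - 1) / p)| ≤ u + 4 * x ^ (1 / 2 : ℝ) := by
  have h0 : 0 ≤ x ^ (1 / 2 : ℝ) := by positivity
  have h1 : (x ^ p - 1) / p ≤ 4 * x ^ (1 / 2 : ℝ) := by
    rcases le_total x 1 with h | h
    · have h2 : x ^ p ≤ 1 := Real.rpow_le_one hx h hp.le
      have h3 : (x ^ p - 1) / p ≤ 0 := div_nonpos_of_nonpos_of_nonneg (by linarith) hp.le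
      linarith
    · have hx0 : 0 < x := by linarith
      have hL : 0 ≤ Real.log x := Real.log_nonneg h
      have h2 : x ^ p - 1 ≤ p * (Real.log x * x ^ p) := by
        have h3 : 1 - p * Real.log x ≤ Real.exp (-(p * Real.log x)) := by
          have := Real.add_one_le_exp (-(p * Real.log x))
          linarith
        have h4 : x ^ p = Real.exp (p * Real.log x) := by
          rw [Real.rpow_def_of_pos hx0, mul_comm]
        rw [h4]
        have h5 : Real.exp (-(p * Real.log x)) * Real.exp (p * Real.log x) = 1 := by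
          rw [← Real.exp_add]
          simp
        have h6 := mul_le_mul_of_nonneg_right h3 (Real.exp_pos (p * Real.log x)).le
        rw [h5] at h6
        nlinarith
      have h3 : Real.log x ≤ 4 * x ^ (1 / 4 : ℝ) := by
        have := Real.log_le_rpow_div hx (by norm_num : (0 : ℝ) < 1 / 4)
        linarith
      have h4 : x ^ p ≤ x ^ (1 / 4 : ℝ) := Real.rpow_le_rpow_of_exponent_le h hp1
      have h5 : x ^ (1 / 4 : ℝ) * x ^ (1 / 4 : ℝ) = x ^ (1 / 2 : ℝ) := by
        rw [← Real.rpow_add hx0]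
        norm_num
      rw [div_le_iff₀ hp]
      have h6 : 0 ≤ x ^ p := by positivity
      have h7 : 0 ≤ x ^ (1 / 4 : ℝ) := by positivity
      calc x ^ p - 1 ≤ p * (Real.log x * x ^ p) := h2
        _ ≤ p * ((4 * x ^ (1 / 4 : ℝ)) * x ^ (1 / 4 : ℝ)) := by gcongr
        _ = 4 * x ^ (1 / 2 : ℝ) * p := by
            rw [mul_assoc 4, h5]
            ring
  rw [abs_le]
  constructor
  · have := le_max_left (-u) ((x ^ p - 1) / p)
    linarith
  · apply max_le
    · linarith
    · linarith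

lemma norm_line {t δ θ : ℝ} (hδ : 0 < δ) (h0 : 0 < θ) (h1 : θ < 2 * Real.pi) :
    1 + ‖(1 / 2 + I * (t + δ * ct θ : ℝ) : ℂ)‖ ≤ (3 / 2 + |t| + δ) * |Real.sin (θ / 2)| ^ (-1 : ℝ) := by
  have hs := sin_half_pos h0 h1
  have hs1 : Real.sin (θ / 2) ≤ 1 := Real.sin_le_one _
  have h2 : ‖(1 / 2 + I * (t + δ * ct θ : ℝ) : ℂ)‖ ≤ 1 / 2 + |t + δ * ct θ| := by
    refine (norm_add_le _ _).trans ?_
    rw [norm_mul, norm_I, one_mul, Complex.norm_real, Real.norm_eq_abs]
    norm_num
  have h3 : |ct θ| ≤ 1 / Real.sin (θ / 2) := by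
    unfold ct
    rw [abs_div, abs_of_pos hs]
    gcongr
    exact Real.abs_cos_le_one _
  have h4 : |t + δ * ct θ| ≤ |t| + δ * (1 / Real.sin (θ / 2)) := by
    refine (abs_add_le _ _).trans ?_
    rw [abs_mul, abs_of_pos hδ]
    gcongr
  rw [Real.rpow_neg_one, abs_of_pos hs]
  have h5 : 1 ≤ (Real.sin (θ / 2))⁻¹ := (one_le_inv₀ hs).mpr hs1
  calc 1 + ‖(1 / 2 + I * (t + δ * ct θ : ℝ) : ℂ)‖ ≤ (3 / 2 + |t|) * 1 + δ * (Real.sin (θ / 2))⁻¹ := by
        rw [one_div] at h4
        linarith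
    _ ≤ (3 / 2 + |t|) * (Real.sin (θ / 2))⁻¹ + δ * (Real.sin (θ / 2))⁻¹ := by
        gcongr
    _ = _ := by ring

lemma rpow_line {F : ℂ → ℂ} {K : ℝ} (hK : 0 ≤ K)
    (hb : ∀ s : ℂ, 1 / 2 ≤ s.re → ‖F s‖ ≤ K * (1 + ‖s‖)) {t δ θ q : ℝ} (hq : 0 ≤ q) (hδ : 0 < δ)
    (h0 : 0 < θ) (h1 : θ < 2 * Real.pi) :
    ‖F (1 / 2 + I * (t + δ * ct θ : ℝ))‖ ^ q
      ≤ (K * (3 / 2 + |t| + δ)) ^ q * |Real.sin (θ / 2)| ^ (-q) := by
  have hs := sin_half_pos h0 h1
  have h2 := norm_line (t := t) hδ h0 h1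
  have h3 := hb (1 / 2 + I * (t + δ * ct θ : ℝ)) (by simp)
  calc ‖F (1 / 2 + I * (t + δ * ct θ : ℝ))‖ ^ q
      ≤ (K * ((3 / 2 + |t| + δ) * |Real.sin (θ / 2)| ^ (-1 : ℝ))) ^ q := by
        apply Real.rpow_le_rpow (norm_nonneg _) _ hq
        refine h3.trans ?_
        gcongr
    _ = ((K * (3 / 2 + |t| + δ)) * |Real.sin (θ / 2)| ^ (-1 : ℝ)) ^ q := by
        rw [mul_assoc]
    _ = (K * (3 / 2 + |t| + δ)) ^ q * |Real.sin (θ / 2)| ^ (-q) := by
        rw [Real.mul_rpow (by positivity) (by positivity), ← Real.rpow_mul (by positivity)]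
        ring_nf

end P1aux

open P1aux

theorem poisJen : PoisJen := by
  intro F hF K hK hb δ hδ t hne u hu
  have hpi := Real.pi_pos
  obtain ⟨g, hg⟩ : ∃ g : ℝ → ℝ, g = fun θ => ‖F (1 / 2 + I * (t + δ * ct θ : ℝ))‖ := ⟨_, rfl⟩
  have hg0 : ∀ θ, 0 ≤ g θ := by intro θ; rw [hg]; exact norm_nonneg _
  obtain ⟨μ, hμ⟩ : ∃ μ : Measure ℝ, μ = volume.restrict (Ioo 0 (2 * Real.pi)) := ⟨_, rfl⟩
  have hfin : IsFiniteMeasure μ := by
    rw [hμ]
    exact ⟨by rw [Measure.restrict_apply_univ, Real.volume_Ioo]; exact ENNReal.ofReal_lt_top⟩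
  have hμmem : ∀ᵐ θ ∂μ, θ ∈ Ioo (0 : ℝ) (2 * Real.pi) := by
    rw [hμ]
    exact ae_restrict_mem measurableSet_Ioo
  -- measurability of g
  have hgc : ContinuousOn g (Ioo 0 (2 * Real.pi)) := by
    intro θ hθ
    have hs := sin_half_pos hθ.1 hθ.2
    apply ContinuousAt.continuousWithinAt
    rw [hg]
    have h1 : ContinuousAt (fun θ : ℝ => (1 / 2 + I * (t + δ * ct θ : ℝ) : ℂ)) θ := by
      have h2 : ContinuousAt ct θ := by
        unfold ct
        fun_prop (disch := exact hs.ne')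
      have h3 : ContinuousAt (fun θ : ℝ => ((t + δ * ct θ : ℝ) : ℂ)) θ :=
        Complex.continuous_ofReal.continuousAt.comp (by fun_prop)
      fun_prop
    have h4 : ContinuousAt F (1 / 2 + I * (t + δ * ct θ : ℝ)) := (hF _ (by simp)).continuousAt
    exact (ContinuousAt.comp (f := fun θ : ℝ => (1 / 2 + I * (t + δ * ct θ : ℝ) : ℂ)) h4 h1).norm
  have hgm : AEStronglyMeasurable g μ := by
    rw [hμ]
    exact hgc.aestronglyMeasurable measurableSet_Ioo
  have hgm' : AEMeasurable g μ := hgm.aemeasurable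
  -- the integrable bound
  have hbd : ∀ q : ℝ, 0 ≤ q → q < 1 → Integrable (fun θ => g θ ^ q) μ := by
    intro q hq hq1
    have h1 : Integrable (fun θ : ℝ => (K * (3 / 2 + |t| + δ)) ^ q * |Real.sin (θ / 2)| ^ (-q)) μ := by
      rw [hμ]
      have h2 := (sin_half_integrable hq hq1).const_mul ((K * (3 / 2 + |t| + δ)) ^ q)
      rw [intervalIntegrable_iff_integrableOn_Ioc_of_le (by positivity)] at h2
      exact h2.mono_set Ioo_subset_Ioc_self
    refine h1.mono' (hgm'.pow_const q).aestronglyMeasurable ?_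
    filter_upwards [hμmem] with θ hθ
    rw [Real.norm_of_nonneg (Real.rpow_nonneg (hg0 θ) q), hg]
    exact rpow_line hK hb hq hδ hθ.1 hθ.2
  have hx0 : 0 < ‖F (pt δ t)‖ := norm_pos_iff.mpr hne
  -- the Poisson inequality
  have hpoi : ∀ p : ℝ, 0 < p → p ≤ 1 / 4 →
      2 * Real.pi * Real.log ‖F (pt δ t)‖ ≤ ∫ θ, max (-u) ((g θ ^ p - 1) / p) ∂μ := by
    intro p hp hp1
    have h1 := poisson_ineq hF (K := K ^ p) (a := p) (p := p) hp hp.le (by linarith) (by positivity)
      (fun s hs => by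
        rw [← Real.mul_rpow hK (by positivity)]
        exact Real.rpow_le_rpow (norm_nonneg _) (hb s hs) hp.le) hδ t
    have e1 : (1 / 2 + (δ : ℂ) + t * I) = pt δ t := by
      unfold pt
      ring
    rw [e1, intervalIntegral.integral_of_le (by positivity), integral_Ioc_eq_integral_Ioo] at h1
    have e2 : ∫ θ in Ioo 0 (2 * Real.pi),
        ‖F (1 / 2 + ((t + δ * (Real.cos (θ / 2) / Real.sin (θ / 2)) : ℝ) : ℂ) * I)‖ ^ p
        = ∫ θ, g θ ^ p ∂μ := by
      rw [hμ, hg]
      apply integral_congr_ae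
      filter_upwards with θ
      unfold ct
      rw [mul_comm I]
    rw [e2] at h1
    have h2 : ‖F (pt δ t)‖ ^ p ≥ 1 + p * Real.log ‖F (pt δ t)‖ := by
      rw [Real.rpow_def_of_pos hx0]
      have := Real.add_one_le_exp (Real.log ‖F (pt δ t)‖ * p)
      linarith
    have h3 : 2 * Real.pi * (1 + p * Real.log ‖F (pt δ t)‖) ≤ ∫ θ, g θ ^ p ∂μ := by
      have h4 := h2.le.trans h1
      rw [← div_eq_inv_mul, le_div_iff₀ (by positivity)] at h4
      linarith
    have hip := hbd p hp.le (by linarith)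
    have e3 : ∫ θ, (g θ ^ p - 1) / p ∂μ = ((∫ θ, g θ ^ p ∂μ) - 2 * Real.pi) / p := by
      rw [integral_div, integral_sub hip (integrable_const _)]
      congr 2
      rw [integral_const, hμ]
      simp [Measure.real, Real.volume_Ioo]
      positivity
    have hi2 : Integrable (fun θ => (g θ ^ p - 1) / p) μ := (hip.sub (integrable_const _)).div_const _
    have hi3 : Integrable (fun θ => max (-u) ((g θ ^ p - 1) / p)) μ :=
      (integrable_const (-u)).sup hi2
    calc 2 * Real.pi * Real.log ‖F (pt δ t)‖ ≤ ∫ θ, (g θ ^ p - 1) / p ∂μ := by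
          rw [e3, le_div_iff₀ hp]
          linarith
      _ ≤ _ := integral_mono hi2 hi3 (fun θ => le_max_right _ _)
  -- the limit
  have hbdint : Integrable (fun θ => u + 4 * g θ ^ (1 / 2 : ℝ)) μ :=
    (integrable_const u).add ((hbd (1 / 2) (by norm_num) (by norm_num)).const_mul 4)
  have hlim : Tendsto (fun p : ℝ => ∫ θ, max (-u) ((g θ ^ p - 1) / p) ∂μ) (𝓝[>] 0)
      (𝓝 (∫ θ, (Real.posLog (g θ) - Ph u (g θ)) ∂μ)) := by
    have hr1 : ∀ᶠ p : ℝ in 𝓝[>] 0, 0 < p := self_mem_nhdsWithin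
    have hr2 : ∀ᶠ p : ℝ in 𝓝[>] 0, p < 1 / 4 := nhdsWithin_le_nhds (gt_mem_nhds (by norm_num))
    refine tendsto_integral_filter_of_dominated_convergence
      (fun θ => u + 4 * g θ ^ (1 / 2 : ℝ)) ?_ ?_ hbdint ?_
    · filter_upwards with p
      apply AEMeasurable.aestronglyMeasurable
      exact aemeasurable_const.max (((hgm'.pow_const p).sub_const 1).div_const p)
    · filter_upwards [hr1, hr2] with p h1 h2
      filter_upwards with θ
      rw [Real.norm_eq_abs]
      exact bound_trunc hu (hg0 θ) h1 h2.le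
    · filter_upwards with θ
      exact lim_trunc hu (hg0 θ)
  have hfinal : 2 * Real.pi * Real.log ‖F (pt δ t)‖ ≤ ∫ θ, (Real.posLog (g θ) - Ph u (g θ)) ∂μ := by
    refine ge_of_tendsto hlim ?_
    have hr1 : ∀ᶠ p : ℝ in 𝓝[>] 0, 0 < p := self_mem_nhdsWithin
    have hr2 : ∀ᶠ p : ℝ in 𝓝[>] 0, p < 1 / 4 := nhdsWithin_le_nhds (gt_mem_nhds (by norm_num))
    filter_upwards [hr1, hr2] with p h1 h2
    exact hpoi p h1 h2.le
  -- integrability of the two parts
  have hPm : Measurable (Ph u) := by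
    unfold Ph
    apply Measurable.ite measurableSet_Iic measurable_const
    apply measurable_const.min
    unfold Real.posLog
    fun_prop
  have hPL : Measurable Real.posLog := by
    unfold Real.posLog
    fun_prop
  have hP0 : ∀ x, 0 ≤ Ph u x ∧ Ph u x ≤ u := by
    intro x
    unfold Ph
    split_ifs
    · exact ⟨hu.le, le_rfl⟩
    · exact ⟨le_min hu.le Real.posLog_nonneg, min_le_left _ _⟩
  have hiP : Integrable (fun θ => Ph u (g θ)) μ := by
    refine (integrable_const u).mono' (hPm.comp_aemeasurable hgm').aestronglyMeasurable ?_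
    filter_upwards with θ
    rw [Real.norm_of_nonneg (hP0 _).1]
    exact (hP0 _).2
  have hiL : Integrable (fun θ => Real.posLog (g θ)) μ := by
    refine hbdint.mono' (hPL.comp_aemeasurable hgm').aestronglyMeasurable ?_
    filter_upwards with θ
    rw [Real.norm_of_nonneg Real.posLog_nonneg]
    have h0 : 0 ≤ g θ ^ (1 / 2 : ℝ) := Real.rpow_nonneg (hg0 θ) _
    unfold Real.posLog
    apply max_le
    · linarith
    · rcases (hg0 θ).eq_or_lt with h | h
      · rw [← h, Real.log_zero]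
        positivity
      · have := Real.log_le_rpow_div (hg0 θ) (by norm_num : (0 : ℝ) < 1 / 2)
        linarith
  rw [integral_sub hiL hiP] at hfinal
  have hlast : -Real.log ‖F (pt δ t)‖ ≤ Real.posLog ‖F (pt δ t)‖⁻¹ := by
    unfold Real.posLog
    rw [Real.log_inv]
    exact le_max_right _ _
  have hmain : ∫ θ, Ph u (g θ) ∂μ ≤ (∫ θ, Real.posLog (g θ) ∂μ)
      + 2 * Real.pi * Real.posLog ‖F (pt δ t)‖⁻¹ := by
    nlinarith
  have hgoal : ∫⁻ θ, ENNReal.ofReal (Ph u (g θ)) ∂μ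
      ≤ (∫⁻ θ, ENNReal.ofReal (Real.posLog (g θ)) ∂μ)
        + ENNReal.ofReal (2 * Real.pi * Real.posLog ‖F (pt δ t)‖⁻¹) := by
    rw [← ofReal_integral_eq_lintegral_ofReal hiP (ae_of_all _ fun θ => (hP0 _).1),
      ← ofReal_integral_eq_lintegral_ofReal hiL (ae_of_all _ fun θ => Real.posLog_nonneg),
      ← ENNReal.ofReal_add (integral_nonneg fun θ => Real.posLog_nonneg)
        (mul_nonneg (by positivity) Real.posLog_nonneg)]
    exact ENNReal.ofReal_le_ofReal hmain
  rw [hμ, hg] at hgoal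
  exact hgoal

end Pool.Agent.Lib.GT
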