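import Mathlib
import Pool.Agent.Lib.MP_f9aece_nt_gt.StmtsZ

/-!
Gaussian tails of `log |zeta|`: properties of the function to which the Poisson-Jensen inequality is
applied (row P2).
-/

set_option autoImplicit false
set_option linter.unusedVariables false

namespace Pool.Agent.Lib.GT

open MeasureTheory Set Filter Topology Complex ProbabilityTheory
open scoped ComplexConjugate
open Pool.Agent.Lib.J4 (Sg Yg rg Jok V2 sgDisj)

namespace P2aux

lemma mem_U {A : Par} {p : ℕ} (hp : p ∈ A.U) : p.Prime ∧ p ∈ Finset.Icc 1 ⌊Real.exp A.Y⌋₊ := by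
  unfold Par.U Par.S Sg at hp
  simp only [Finset.mem_biUnion, Finset.mem_filter] at hp
  obtain ⟨g, -, h1, h2, -⟩ := hp
  exact ⟨h2, h1⟩

lemma norm_le_one {p : ℕ} (hp : p.Prime) {s : ℂ} (hs : 1 / 2 ≤ s.re) : ‖(p : ℂ) ^ (-s)‖ ≤ 1 := by
  rw [Complex.norm_natCast_cpow_of_pos hp.pos]
  apply Real.rpow_le_one_of_one_le_of_nonpos
  · exact_mod_cast hp.one_le
  · simp
    linarith

lemma norm_prod_le (n : ℕ) {s : ℂ} (hs : 1 / 2 ≤ s.re) :
    ‖∏ p ∈ (Finset.Icc 1 n).filter Nat.Prime, (1 - (p : ℂ) ^ (-s))‖ ≤ 2 ^ n := by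
  rw [norm_prod]
  calc ∏ p ∈ (Finset.Icc 1 n).filter Nat.Prime, ‖1 - (p : ℂ) ^ (-s)‖
      ≤ ∏ p ∈ (Finset.Icc 1 n).filter Nat.Prime, (2 : ℝ) := by
        apply Finset.prod_le_prod (fun _ _ => norm_nonneg _)
        intro p hp
        have hp' := (Finset.mem_filter.mp hp).2
        refine (norm_sub_le _ _).trans ?_
        rw [norm_one]
        linarith [norm_le_one hp' hs]
    _ = 2 ^ ((Finset.Icc 1 n).filter Nat.Prime).card := by rw [Finset.prod_const]
    _ ≤ 2 ^ n := by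
        apply pow_le_pow_right₀ (by norm_num)
        refine (Finset.card_filter_le _ _).trans ?_
        simp

lemma cpow_split {p : ℕ} (hp : p.Prime) (σ t : ℝ) :
    (p : ℂ) ^ (-(pt σ t)) = (p : ℂ) ^ (-(1 / 2 + σ) : ℂ) * e1 (om t p) := by
  rw [e1_om t hp.ne_zero, ← Complex.cpow_add _ _ (by exact_mod_cast hp.ne_zero)]
  congr 1
  unfold pt
  ring

lemma h_cast {A : Par} (p : ℕ) : (p : ℂ) ^ (-(1 / 2 + A.lam) : ℂ) = (A.h p : ℂ) := by
  unfold Par.h
  rw [Complex.ofReal_cpow (by positivity)]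
  push_cast
  ring_nf

lemma re_pt (σ t : ℝ) : (pt σ t).re = 1 / 2 + σ := by
  unfold pt
  simp

lemma im_pt (σ t : ℝ) : (pt σ t).im = t := by
  unfold pt
  simp

end P2aux

open P2aux

theorem hsProps : HsProps := by
  intro A hA
  refine ⟨?_, ?_, ?_, ?_⟩
  · intro s hsr
    have h1 : AnalyticAt ℂ Pool.Agent.Lib.MP_f9aece_nt_h40.F s :=
      Pool.Agent.Lib.MP_f9aece_nt_h40.F_analyticAt (by linarith)
    have h0 : ∀ p : ℕ, p.Prime → AnalyticAt ℂ (fun s : ℂ => (p : ℂ) ^ (-s)) s := by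
      intro p hp
      have hne : (p : ℂ) ≠ 0 := by exact_mod_cast hp.ne_zero
      have e : (fun s : ℂ => (p : ℂ) ^ (-s)) = fun s => cexp (Complex.log p * (-s)) := by
        funext w
        rw [Complex.cpow_def_of_ne_zero hne]
      rw [e]
      fun_prop
    have h2 : AnalyticAt ℂ (fun s : ℂ => ∏ p ∈ (Finset.Icc 1 A.p0).filter Nat.Prime,
        (1 - (p : ℂ) ^ (-s))) s := by
      apply Finset.analyticAt_fun_prod
      intro p hp
      exact analyticAt_const.sub (h0 p (Finset.mem_filter.mp hp).2)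
    have h3 : AnalyticAt ℂ (fun s : ℂ => ∑ p ∈ A.U, (p : ℂ) ^ (-s)) s := by
      apply Finset.analyticAt_fun_sum
      intro p hp
      exact h0 p (mem_U hp).1
    have h4 : AnalyticAt ℂ (fun s : ℂ => cexp (-∑ p ∈ A.U, (p : ℂ) ^ (-s))) s := h3.neg.cexp
    exact (h1.mul h2).mul h4
  · refine ⟨6 * 2 ^ A.p0 * Real.exp (2 * Real.exp A.Y), by positivity, le_rfl, ?_⟩
    intro s hsr
    unfold hs
    rw [norm_mul, norm_mul]
    have h1 := Pool.Agent.Lib.MP_f9aece_nt_h40.F_bound (s := s) (by linarith)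
    have h2 := norm_prod_le A.p0 hsr
    have h3 : ‖cexp (-∑ p ∈ A.U, (p : ℂ) ^ (-s))‖ ≤ Real.exp (2 * Real.exp A.Y) := by
      rw [Complex.norm_exp]
      apply Real.exp_le_exp.mpr
      have h4 : (-∑ p ∈ A.U, (p : ℂ) ^ (-s)).re ≤ ‖∑ p ∈ A.U, (p : ℂ) ^ (-s)‖ := by
        rw [← norm_neg]
        exact Complex.re_le_norm _
      have h5 : ‖∑ p ∈ A.U, (p : ℂ) ^ (-s)‖ ≤ (A.U.card : ℝ) := by
        refine (norm_sum_le _ _).trans ?_
        calc ∑ p ∈ A.U, ‖(p : ℂ) ^ (-s)‖ ≤ ∑ p ∈ A.U, (1 : ℝ) :=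
              Finset.sum_le_sum fun p hp => norm_le_one (mem_U hp).1 hsr
          _ = _ := by simp
      have h6 : (A.U.card : ℝ) ≤ Real.exp A.Y := by
        have h7 : A.U ⊆ Finset.Icc 1 ⌊Real.exp A.Y⌋₊ := fun p hp => (mem_U hp).2
        have h8 := Finset.card_le_card h7
        rw [Nat.card_Icc, Nat.add_sub_cancel] at h8
        calc (A.U.card : ℝ) ≤ (⌊Real.exp A.Y⌋₊ : ℝ) := by exact_mod_cast h8
          _ ≤ _ := Nat.floor_le (Real.exp_pos _).le
      have h9 := Real.exp_pos A.Y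
      linarith
    have h0 := norm_nonneg s
    calc ‖Pool.Agent.Lib.MP_f9aece_nt_h40.F s‖
          * ‖∏ p ∈ (Finset.Icc 1 A.p0).filter Nat.Prime, (1 - (p : ℂ) ^ (-s))‖
          * ‖cexp (-∑ p ∈ A.U, (p : ℂ) ^ (-s))‖
        ≤ (6 * (1 + ‖s‖)) * 2 ^ A.p0 * Real.exp (2 * Real.exp A.Y) := by gcongr
      _ = _ := by ring
  · intro τ
    unfold hs
    rw [norm_mul, norm_mul]
    obtain ⟨s, hsd⟩ : ∃ s : ℂ, s = 1 / 2 + I * τ := ⟨_, rfl⟩
    have hsre : s.re = 1 / 2 := by rw [hsd]; simp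
    have hs1 : s ≠ 1 := by
      intro h
      rw [h] at hsre
      norm_num at hsre
    rw [← hsd]
    have hps : s + 1 ≠ 0 := Pool.Agent.Lib.MP_f9aece_nt_h40.add_one_ne_zero (by linarith)
    have h1 : ‖Pool.Agent.Lib.MP_f9aece_nt_h40.F s‖ ≤ ‖riemannZeta s‖ := by
      rw [Pool.Agent.Lib.MP_f9aece_nt_h40.F, Pool.Agent.Lib.MP_f9aece_nt_h40.Z1_eq hs1, norm_div,
        norm_mul, div_le_iff₀ (norm_pos_iff.mpr hps)]
      have := Pool.Agent.Lib.MP_f9aece_nt_h40.norm_sub_one_le (s := s) (by linarith)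
      rw [mul_comm]
      gcongr
    have h2 := norm_prod_le A.p0 (s := s) (by linarith)
    have h3 : ‖cexp (-∑ p ∈ A.U, (p : ℂ) ^ (-s))‖
        = Real.exp (-(lin A.U (fun p => (p : ℂ) ^ (-(1 / 2) : ℂ)) (om τ)).re) := by
      rw [Complex.norm_exp, Complex.neg_re]
      congr 3
      unfold lin
      apply Finset.sum_congr rfl
      intro p hp
      have h4 := cpow_split (mem_U hp).1 0 τ
      have e : pt 0 τ = s := by
        rw [hsd]
        unfold pt
        push_cast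
        ring
      rw [e] at h4
      rw [h4]
      congr 2
      push_cast
      ring
    rw [h3]
    gcongr
  · intro t ht
    unfold hs
    rw [norm_mul, norm_mul]
    obtain ⟨s, hsd⟩ : ∃ s : ℂ, s = pt A.lam t := ⟨_, rfl⟩
    have hsre : s.re = 1 / 2 + A.lam := by rw [hsd, re_pt]
    have hsim : s.im = t := by rw [hsd, im_pt]
    have hl := hA.hl
    have hs1 : s ≠ 1 := by
      intro h
      rw [h] at hsim
      simp at hsim
      linarith
    have hps : s + 1 ≠ 0 := Pool.Agent.Lib.MP_f9aece_nt_h40.add_one_ne_zero (by linarith)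
    have h1 : 1 / 2 * ‖riemannZeta s‖ ≤ ‖Pool.Agent.Lib.MP_f9aece_nt_h40.F s‖ := by
      rw [Pool.Agent.Lib.MP_f9aece_nt_h40.F, Pool.Agent.Lib.MP_f9aece_nt_h40.Z1_eq hs1, norm_div,
        norm_mul, le_div_iff₀ (norm_pos_iff.mpr hps)]
      have h2 : 2 ≤ ‖s - 1‖ := by
        have := Complex.abs_im_le_norm (s - 1)
        rw [Complex.sub_im, Complex.one_im, sub_zero, hsim, abs_of_nonneg (by linarith)] at this
        linarith
      have h3 : ‖s + 1‖ ≤ ‖s - 1‖ + 2 := by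
        have e : s + 1 = (s - 1) + 2 := by ring
        rw [e]
        refine (norm_add_le _ _).trans ?_
        simp
      have h4 := norm_nonneg (riemannZeta s)
      nlinarith
    have h2 : A.Msm (om t) = ∏ p ∈ (Finset.Icc 1 A.p0).filter Nat.Prime, (1 - (p : ℂ) ^ (-s)) := by
      unfold Par.Msm
      apply Finset.prod_congr rfl
      intro p hp
      rw [hsd, cpow_split (Finset.mem_filter.mp hp).2, h_cast]
    have h3 : ‖cexp (-∑ p ∈ A.U, (p : ℂ) ^ (-s))‖ = Real.exp (-(A.X ∅ (om t))) := by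
      rw [Complex.norm_exp, Complex.neg_re]
      congr 2
      unfold Par.X Par.P lin
      rw [Finset.sdiff_empty, Complex.re_sum]
      unfold Par.U
      rw [Finset.sum_biUnion]
      · apply Finset.sum_congr rfl
        intro g hg
        rw [Complex.re_sum]
        apply Finset.sum_congr rfl
        intro p hp
        have hp' : p ∈ A.U := by
          unfold Par.U
          exact Finset.mem_biUnion.mpr ⟨g, hg, hp⟩
        rw [hsd, cpow_split (mem_U hp').1, h_cast]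
      · intro g _ g' _ hne
        exact sgDisj A.v A.p0 A.Y (by linarith [hA.hY]) g g' hne
    rw [← hsd, ← h2, h3, norm_mul]
    have h5 := norm_nonneg (A.Msm (om t))
    calc 1 / 2 * (‖riemannZeta s‖ * ‖A.Msm (om t)‖ * Real.exp (-(A.X ∅ (om t))))
        = (1 / 2 * ‖riemannZeta s‖) * ‖A.Msm (om t)‖ * Real.exp (-(A.X ∅ (om t))) := by ring
      _ ≤ _ := by gcongr

end Pool.Agent.Lib.GT
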