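import Mathlib
import Pool.Agent.Lib.MP_f9aece_nt_h40.Poisson
import Pool.Agent.Lib.MP_f9aece_nt_gt.StmtsZ
import Pool.Agent.Lib.MP_f9aece_nt_gt.Cont

/-!
Gaussian tails of `log |zeta|`: the mean of the truncated negative part of the logarithm (row P3).
-/

set_option autoImplicit false
set_option linter.unusedVariables false

namespace Pool.Agent.Lib.GT

open MeasureTheory Set Filter Topology Complex ProbabilityTheory
open scoped ComplexConjugate
open Pool.Agent.Lib.J4 (Sg Yg rg Jok V2 sgDisj)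
open Pool.Agent.Lib.MP_f9aece_nt_h40 (sin_half_integrable sin_half_pos)

namespace P3aux

/-! ### elementary inequalities -/

lemma log_one_add_le {x : ℝ} (hx : 0 ≤ x) : Real.log (1 + x) ≤ 2 * Real.sqrt x := by
  have h0 := Real.sqrt_nonneg x
  have h1 : 1 + x ≤ (1 + Real.sqrt x) ^ 2 := by
    have := Real.sq_sqrt hx
    nlinarith
  calc Real.log (1 + x) ≤ Real.log ((1 + Real.sqrt x) ^ 2) := Real.log_le_log (by linarith) h1
    _ = 2 * Real.log (1 + Real.sqrt x) := by rw [Real.log_pow]; norm_num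
    _ ≤ 2 * Real.sqrt x := by
      have := Real.log_le_sub_one_of_pos (show 0 < 1 + Real.sqrt x by linarith)
      linarith

lemma log_one_add_mul_le {a b : ℝ} (ha : 0 ≤ a) (hb : 0 ≤ b) :
    Real.log (1 + a * b) ≤ Real.log (1 + a) + 2 * Real.sqrt b := by
  have h1 : 1 + a * b ≤ (1 + a) * (1 + b) := by nlinarith
  have h2 := log_one_add_le hb
  calc Real.log (1 + a * b) ≤ Real.log ((1 + a) * (1 + b)) := Real.log_le_log (by positivity) h1
    _ = Real.log (1 + a) + Real.log (1 + b) := Real.log_mul (by positivity) (by positivity)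
    _ ≤ _ := by linarith

lemma posLog_le_of_sq {a b τ : ℝ} (ha : 0 ≤ a) (hab : a ^ 2 ≤ b) (hτ : 1 ≤ τ) :
    Real.posLog a ≤ 1 / 2 * Real.log τ + 1 / 2 * (b / τ) := by
  have h1 := Real.log_nonneg hτ
  have hb : 0 ≤ b := (sq_nonneg a).trans hab
  have h2 : 0 ≤ b / τ := by positivity
  rw [Real.posLog_apply]
  apply max_le
  · positivity
  · rcases ha.eq_or_lt with h0 | h0
    · rw [← h0, Real.log_zero]
      positivity
    · have hb0 : 0 < b := lt_of_lt_of_le (by positivity) hab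
      have h3 : Real.log a = 1 / 2 * Real.log (a ^ 2) := by
        rw [Real.log_pow]
        push_cast
        ring
      have h4 : Real.log (a ^ 2) ≤ Real.log b := Real.log_le_log (by positivity) hab
      have h5 : Real.log b = Real.log τ + Real.log (b / τ) := by
        rw [Real.log_div hb0.ne' (by positivity)]
        ring
      have h6 := Real.log_le_sub_one_of_pos (show 0 < b / τ by positivity)
      rw [h3]
      linarith

lemma posLog_mul_exp_le {a d : ℝ} : Real.posLog (a * Real.exp d) ≤ Real.posLog a + |d| := by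
  refine Real.posLog_mul.trans ?_
  have : Real.posLog (Real.exp d) ≤ |d| := by
    rw [Real.posLog_apply, Real.log_exp]
    exact max_le (abs_nonneg d) (le_abs_self d)
  linarith

lemma abs_le_sq {d ϑ : ℝ} (hϑ : 0 < ϑ) : |d| ≤ 1 / 2 * ϑ + 1 / 2 * (d ^ 2 / ϑ) := by
  have h1 : |d| * ϑ ≤ 1 / 2 * ϑ ^ 2 + 1 / 2 * d ^ 2 := by
    have := sq_nonneg (|d| - ϑ)
    have h2 := sq_abs d
    nlinarith
  have h3 : |d| ≤ (1 / 2 * ϑ ^ 2 + 1 / 2 * d ^ 2) / ϑ := by
    rw [le_div_iff₀ hϑ]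
    exact h1
  calc |d| ≤ _ := h3
    _ = _ := by field_simp

lemma mem_U {A : Par} {p : ℕ} (hp : p ∈ A.U) : p.Prime := by
  unfold Par.U Par.S Sg at hp
  simp only [Finset.mem_biUnion, Finset.mem_filter] at hp
  obtain ⟨g, -, h1, h2, -⟩ := hp
  exact h2

lemma X_eq {A : Par} (hA : A.Ok) (x : Om) : A.X ∅ x = (lin A.U (fun p => (A.h p : ℂ)) x).re := by
  unfold Par.X Par.P lin
  rw [Finset.sdiff_empty, Complex.re_sum]
  unfold Par.U
  rw [Finset.sum_biUnion]
  · apply Finset.sum_congr rfl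
    intro g hg
    rw [Complex.re_sum]
  · intro g _ g' _ hne
    exact sgDisj A.v A.p0 A.Y (by linarith [hA.hY]) g g' hne

/-- the variation of the prime sum -/
noncomputable def Dl (A : Par) (w t : ℝ) : ℝ :=
  (lin A.U (fun p => (p : ℂ) ^ (-(1 / 2 + I * w) : ℂ) - A.h p) (om t)).re

lemma lin_half {A : Par} (hA : A.Ok) (t w : ℝ) :
    (lin A.U (fun p => (p : ℂ) ^ (-(1 / 2) : ℂ)) (om (t + w))).re = A.X ∅ (om t) + Dl A w t := by
  rw [lin_om_add _ (fun p hp => (mem_U hp).ne_zero), X_eq hA]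
  unfold Dl
  rw [← Complex.add_re]
  congr 1
  unfold lin
  rw [← Finset.sum_add_distrib]
  apply Finset.sum_congr rfl
  intro p hp
  have hp' : (p : ℂ) ≠ 0 := by exact_mod_cast (mem_U hp).ne_zero
  have h1 : (p : ℂ) ^ (-(1 / 2) : ℂ) * (p : ℂ) ^ (-(I * w) : ℂ) = (p : ℂ) ^ (-(1 / 2 + I * w) : ℂ) := by
    rw [← Complex.cpow_add _ _ hp']
    congr 1
    ring
  beta_reduce
  rw [h1]
  ring

/-- pointwise bound on the line -/
lemma near_point {A : Par} (hA : A.Ok) (hP : HsProps) {t w τ ϑ : ℝ} (hτ : 1 ≤ τ) (hϑ : 0 < ϑ)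
    (hmo : 1 / 2 * Real.exp (-(2 * A.X ∅ (om t))) ≤ ‖A.mo (-1) ∅ (om t)‖ ^ 2) :
    Real.posLog ‖hs A (1 / 2 + I * (t + w : ℝ))‖
      ≤ (1 / 2 * Real.log τ + 1 / 2 * ϑ)
        + 4 ^ A.p0 / τ * (‖A.mo (-1) ∅ (om t)‖ ^ 2 * ‖riemannZeta (1 / 2 + I * (t + w : ℝ))‖ ^ 2)
        + 1 / 2 / ϑ * (Dl A w t) ^ 2 := by
  have h1 := (hP A hA).2.2.1 (t + w)
  rw [lin_half hA] at h1
  set X := A.X ∅ (om t)
  set D := Dl A w t
  set z := ‖riemannZeta (1 / 2 + I * (t + w : ℝ))‖
  set m := ‖A.mo (-1) ∅ (om t)‖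
  have hz : 0 ≤ z := norm_nonneg _
  have h2 : Real.exp (-(X + D)) = Real.exp (-X) * Real.exp (-D) := by
    rw [← Real.exp_add]
    ring_nf
  rw [h2] at h1
  have h3 : Real.posLog ‖hs A (1 / 2 + I * (t + w : ℝ))‖
      ≤ Real.posLog ((z * 2 ^ A.p0 * Real.exp (-X)) * Real.exp (-D)) := by
    apply Real.posLog_le_posLog (norm_nonneg _)
    calc _ ≤ _ := h1
      _ = _ := by ring
  have h4 := h3.trans posLog_mul_exp_le
  have h5 : (z * 2 ^ A.p0 * Real.exp (-X)) ^ 2 ≤ 2 * 4 ^ A.p0 * (m ^ 2 * z ^ 2) := by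
    have e1 : (Real.exp (-X)) ^ 2 = Real.exp (-(2 * X)) := by
      rw [← Real.exp_nat_mul]
      congr 1
      push_cast
      ring
    have e2 : ((2 : ℝ) ^ A.p0) ^ 2 = 4 ^ A.p0 := by
      rw [← pow_mul, mul_comm, pow_mul]
      norm_num
    rw [mul_pow, mul_pow, e1, e2]
    have h6 : Real.exp (-(2 * X)) ≤ 2 * m ^ 2 := by linarith
    calc z ^ 2 * 4 ^ A.p0 * Real.exp (-(2 * X)) ≤ z ^ 2 * 4 ^ A.p0 * (2 * m ^ 2) := by gcongr
      _ = _ := by ring
  have h6 := posLog_le_of_sq (by positivity) h5 hτ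
  have h7 : |(-D)| ≤ 1 / 2 * ϑ + 1 / 2 * (D ^ 2 / ϑ) := by
    rw [abs_neg]
    exact abs_le_sq hϑ
  calc _ ≤ _ := h4
    _ ≤ (1 / 2 * Real.log τ + 1 / 2 * (2 * 4 ^ A.p0 * (m ^ 2 * z ^ 2) / τ))
        + (1 / 2 * ϑ + 1 / 2 * (D ^ 2 / ϑ)) := add_le_add h6 h7
    _ = _ := by ring

/-- the lower bound at the points of `Th` -/
lemma far_point {A : Par} (hA : A.Ok) (hP : HsProps) {t : ℝ} (ht : 10 ≤ t) {ε : ℝ} (hε : ε ≤ 1 / 2)
    (h1 : ‖A.mo (-1) ∅ (om t) * cexp (∑ g ∈ Finset.range A.J \ ∅, A.P g (om t)) - 1‖ ≤ ε)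
    (h2 : ‖riemannZeta (pt A.lam t) * (A.mo (-1) ∅ (om t) * A.Msm (om t)) - 1‖ ≤ 1 / 2) :
    1 / 6 ≤ ‖hs A (pt A.lam t)‖ := by
  have h3 := (hP A hA).2.2.2 t ht
  have h4 : ‖cexp (∑ g ∈ Finset.range A.J \ ∅, A.P g (om t))‖ = Real.exp (A.X ∅ (om t)) := by
    rw [Complex.norm_exp, Complex.re_sum]
    rfl
  have h5 : ‖A.mo (-1) ∅ (om t)‖ * Real.exp (A.X ∅ (om t)) ≤ 3 / 2 := by
    rw [← h4, ← norm_mul]
    set a := A.mo (-1) ∅ (om t) * cexp (∑ g ∈ Finset.range A.J \ ∅, A.P g (om t))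
    have : ‖a‖ ≤ ‖a - 1‖ + 1 := by
      calc ‖a‖ = ‖(a - 1) + 1‖ := by ring_nf
        _ ≤ _ := by
          refine (norm_add_le _ _).trans ?_
          rw [norm_one]
    linarith
  have h6 : 1 / 2 ≤ ‖riemannZeta (pt A.lam t) * (A.mo (-1) ∅ (om t) * A.Msm (om t))‖ := by
    set a := riemannZeta (pt A.lam t) * (A.mo (-1) ∅ (om t) * A.Msm (om t))
    have : (1 : ℝ) ≤ ‖a‖ + ‖a - 1‖ := by
      calc (1 : ℝ) = ‖a - (a - 1)‖ := by
            rw [sub_sub_cancel, norm_one]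
        _ ≤ _ := norm_sub_le _ _
    linarith
  have e1 : ‖riemannZeta (pt A.lam t) * (A.mo (-1) ∅ (om t) * A.Msm (om t))‖
      = ‖riemannZeta (pt A.lam t) * A.Msm (om t)‖ * ‖A.mo (-1) ∅ (om t)‖ := by
    rw [norm_mul, norm_mul, norm_mul]
    ring
  rw [e1] at h6
  set Z := ‖riemannZeta (pt A.lam t) * A.Msm (om t)‖
  set m := ‖A.mo (-1) ∅ (om t)‖
  have hZ : 0 ≤ Z := norm_nonneg _
  have hE := Real.exp_pos (A.X ∅ (om t))
  have h7 : m ≤ 3 / 2 * Real.exp (-(A.X ∅ (om t))) := by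
    rw [Real.exp_neg, ← div_eq_mul_inv, le_div_iff₀ hE]
    exact h5
  have h8 : 1 / 2 ≤ Z * (3 / 2 * Real.exp (-(A.X ∅ (om t)))) := h6.trans (by gcongr)
  linarith

/-! ### the angles -/

lemma abs_ct_le {θ : ℝ} (h0 : 0 < θ) (h1 : θ < 2 * Real.pi) : |ct θ| ≤ |Real.sin (θ / 2)|⁻¹ := by
  have hs := sin_half_pos h0 h1
  unfold ct
  rw [abs_div, abs_of_pos hs, ← one_div]
  gcongr
  exact Real.abs_cos_le_one _

lemma sqrt_ct_le {θ : ℝ} (h0 : 0 < θ) (h1 : θ < 2 * Real.pi) :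
    1 + Real.sqrt |ct θ| ≤ 2 * |Real.sin (θ / 2)| ^ (-(1 / 2) : ℝ) := by
  have hs := sin_half_pos h0 h1
  have hs1 : |Real.sin (θ / 2)| ≤ 1 := Real.abs_sin_le_one _
  have hs0 : 0 < |Real.sin (θ / 2)| := abs_pos.mpr hs.ne'
  have h2 := Real.sqrt_le_sqrt (abs_ct_le h0 h1)
  have h3 : Real.sqrt (|Real.sin (θ / 2)|⁻¹) = |Real.sin (θ / 2)| ^ (-(1 / 2) : ℝ) := by
    rw [Real.sqrt_eq_rpow, Real.inv_rpow hs0.le, Real.rpow_neg hs0.le]
  have h4 : 1 ≤ |Real.sin (θ / 2)| ^ (-(1 / 2) : ℝ) :=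
    Real.one_le_rpow_of_pos_of_le_one_of_nonpos hs0 hs1 (by norm_num)
  linarith

lemma measurable_ct : Measurable ct := by
  unfold ct
  fun_prop

/-- the constant of the angles -/
noncomputable def Cθ : ℝ := ∫ θ in Ioo 0 (2 * Real.pi), 2 * |Real.sin (θ / 2)| ^ (-(1 / 2) : ℝ)

lemma Cθ_nonneg : 0 ≤ Cθ := by
  unfold Cθ
  apply integral_nonneg
  intro θ
  positivity

lemma lintegral_ct {κ : ℝ} (hκ : 0 ≤ κ) :
    ∫⁻ θ in Ioo 0 (2 * Real.pi), ENNReal.ofReal (κ * (1 + Real.sqrt |ct θ|))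
      ≤ ENNReal.ofReal (κ * Cθ) := by
  have h1 := sin_half_integrable (a := 1 / 2) (by norm_num) (by norm_num)
  rw [intervalIntegrable_iff_integrableOn_Ioc_of_le (by positivity)] at h1
  have h2 : IntegrableOn (fun θ : ℝ => κ * (2 * |Real.sin (θ / 2)| ^ (-(1 / 2) : ℝ)))
      (Ioo 0 (2 * Real.pi)) := ((h1.mono_set Ioo_subset_Ioc_self).const_mul 2).const_mul κ
  unfold Cθ
  rw [← integral_const_mul, ofReal_integral_eq_lintegral_ofReal h2]
  · apply setLIntegral_mono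
    · fun_prop
    · intro θ hθ
      apply ENNReal.ofReal_le_ofReal
      exact mul_le_mul_of_nonneg_left (sqrt_ct_le hθ.1 hθ.2) hκ
  · filter_upwards with θ
    positivity

lemma continuous_hs {A : Par} (hA : A.Ok) (hP : HsProps) :
    Continuous fun τ : ℝ => hs A (1 / 2 + I * (τ : ℂ)) := by
  rw [continuous_iff_continuousAt]
  intro τ
  have h1 : ContinuousAt (fun τ : ℝ => (1 / 2 + I * (τ : ℂ) : ℂ)) τ := by fun_prop
  have h2 : ContinuousAt (hs A) (1 / 2 + I * (τ : ℂ)) := ((hP A hA).1 _ (by simp)).continuousAt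
  exact ContinuousAt.comp (f := fun τ : ℝ => (1 / 2 + I * (τ : ℂ) : ℂ)) h2 h1

lemma continuous_Dl (A : Par) (w : ℝ) : Continuous (Dl A w) := by
  unfold Dl
  exact Complex.continuous_re.comp ((continuous_lin _ _).comp continuous_om)

lemma good_meas (A : Par) : MeasurableSet {t : ℝ | A.Good ∅ (om t)} := by
  have : {t : ℝ | A.Good ∅ (om t)}
      = ⋂ g ∈ Finset.range A.J \ ∅, {t : ℝ | ‖A.P g (om t)‖ ≤ RR (A.r g)} := by
    ext t
    simp [Par.Good]
  rw [this]
  apply Finset.measurableSet_biInter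
  intro g _
  apply measurableSet_le _ measurable_const
  exact ((A.continuous_P g).comp continuous_om).norm.measurable

/-- the function integrated over the angles -/
noncomputable def ph (A : Par) (E : Set ℝ) (t θ : ℝ) : ENNReal :=
  E.indicator (fun _ => (1 : ENNReal)) t *
    ENNReal.ofReal (Real.posLog ‖hs A (1 / 2 + I * (t + A.lam * ct θ : ℝ))‖)

lemma measurable_ph {A : Par} (hA : A.Ok) (hP : HsProps) {E : Set ℝ} (hE : MeasurableSet E) :
    Measurable fun w : ℝ × ℝ => ph A E w.1 w.2 := by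
  unfold ph
  have h1 : Measurable fun τ : ℝ => ENNReal.ofReal (Real.posLog ‖hs A (1 / 2 + I * (τ : ℂ))‖) := by
    apply ENNReal.measurable_ofReal.comp
    exact (Real.continuous_posLog.comp (continuous_hs hA hP).norm).measurable
  have h2 : Measurable fun w : ℝ × ℝ => w.1 + A.lam * ct w.2 := by
    have := measurable_ct
    fun_prop
  have h3 : Measurable fun w : ℝ × ℝ => E.indicator (fun _ => (1 : ENNReal)) w.1 :=
    (measurable_one.indicator hE).comp measurable_fst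
  exact h3.mul (h1.comp h2)

/-- the mean for one shift, near -/
lemma near_mean {A : Par} (hA : A.Ok) (hP : HsProps) {x T w y : ℝ} {E : Set ℝ}
    (hEs : E ⊆ Icc (T ^ (19 / 20 : ℝ)) (x + T))
    (hmo : ∀ t ∈ E, 1 / 2 * Real.exp (-(2 * A.X ∅ (om t))) ≤ ‖A.mo (-1) ∅ (om t)‖ ^ 2)
    {τ ϑ CW CL CD : ℝ} (hτ : 1 ≤ τ) (hϑ : 0 < ϑ) (hCW : 0 ≤ CW) (hCL : 0 ≤ CL) (hCD : 0 ≤ CD)
    (h1 : ∫⁻ t, ENNReal.ofReal (A.W ∅ y (om t)) ∂(un x T) ≤ ENNReal.ofReal (CW * A.G y))
    (h2 : ∫⁻ t in Icc (T ^ (19 / 20 : ℝ)) (x + T), ENNReal.ofReal (A.W ∅ y (om t)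
      * (‖A.mo (-1) ∅ (om t)‖ ^ 2 * ‖riemannZeta (1 / 2 + I * (t + w : ℝ))‖ ^ 2)) ∂(un x T)
      ≤ ENNReal.ofReal (CL * τ * A.G y))
    (h3 : ∫⁻ t, ENNReal.ofReal (A.W ∅ y (om t) * (Dl A w t) ^ 2) ∂(un x T)
      ≤ ENNReal.ofReal (CD * ϑ ^ 2 * A.G y)) :
    ∫⁻ t, ENNReal.ofReal (A.W ∅ y (om t)) * (E.indicator (fun _ => (1 : ENNReal)) t *
      ENNReal.ofReal (Real.posLog ‖hs A (1 / 2 + I * (t + w : ℝ))‖)) ∂(un x T)
      ≤ ENNReal.ofReal (((1 / 2 * Real.log τ + 1 / 2 * ϑ) * CW + 4 ^ A.p0 * CL + 1 / 2 * ϑ * CD)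
        * A.G y) := by
  have hG := hA.G_pos y
  have hlog := Real.log_nonneg hτ
  have hW : ∀ t, 0 ≤ A.W ∅ y (om t) := fun t => A.W_nonneg hA.b_pos.le _ _ _
  have hWm : Measurable fun t => ENNReal.ofReal (A.W ∅ y (om t)) :=
    ENNReal.measurable_ofReal.comp ((A.continuous_W' hA ∅ y).comp continuous_om).measurable
  set B := Icc (T ^ (19 / 20 : ℝ)) (x + T) with hB
  set c1 := 1 / 2 * Real.log τ + 1 / 2 * ϑ with hc1
  have hc1' : 0 ≤ c1 := by positivity
  have hpt : ∀ t, ENNReal.ofReal (A.W ∅ y (om t)) * (E.indicator (fun _ => (1 : ENNReal)) t *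
      ENNReal.ofReal (Real.posLog ‖hs A (1 / 2 + I * (t + w : ℝ))‖))
      ≤ ENNReal.ofReal c1 * ENNReal.ofReal (A.W ∅ y (om t))
        + (ENNReal.ofReal (1 / 2 / ϑ) * ENNReal.ofReal (A.W ∅ y (om t) * (Dl A w t) ^ 2)
        + ENNReal.ofReal (4 ^ A.p0 / τ) * B.indicator (fun t => ENNReal.ofReal (A.W ∅ y (om t)
          * (‖A.mo (-1) ∅ (om t)‖ ^ 2 * ‖riemannZeta (1 / 2 + I * (t + w : ℝ))‖ ^ 2))) t) := by
    intro t
    by_cases ht : t ∈ E
    · rw [indicator_of_mem ht, one_mul, indicator_of_mem (hEs ht), ← ENNReal.ofReal_mul (hW t),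
        ← ENNReal.ofReal_mul hc1', ← ENNReal.ofReal_mul (by positivity),
        ← ENNReal.ofReal_mul (by positivity), ← ENNReal.ofReal_add, ← ENNReal.ofReal_add]
      · apply ENNReal.ofReal_le_ofReal
        have h4 := near_point hA hP (t := t) (w := w) hτ hϑ (hmo t ht)
        calc _ ≤ A.W ∅ y (om t) * _ := mul_le_mul_of_nonneg_left h4 (hW t)
          _ = _ := by rw [← hc1]; ring
      · have := hW t
        positivity
      · have := hW t
        positivity
      · have := hW t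
        positivity
      · have := hW t
        positivity
    · rw [indicator_of_notMem ht, zero_mul, mul_zero]
      exact zero_le
  calc _ ≤ ∫⁻ t, (ENNReal.ofReal c1 * ENNReal.ofReal (A.W ∅ y (om t))
        + (ENNReal.ofReal (1 / 2 / ϑ) * ENNReal.ofReal (A.W ∅ y (om t) * (Dl A w t) ^ 2)
        + ENNReal.ofReal (4 ^ A.p0 / τ) * B.indicator (fun t => ENNReal.ofReal (A.W ∅ y (om t)
          * (‖A.mo (-1) ∅ (om t)‖ ^ 2 * ‖riemannZeta (1 / 2 + I * (t + w : ℝ))‖ ^ 2))) t)) ∂(un x T) :=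
        lintegral_mono hpt
    _ = ENNReal.ofReal c1 * (∫⁻ t, ENNReal.ofReal (A.W ∅ y (om t)) ∂(un x T))
        + (ENNReal.ofReal (1 / 2 / ϑ) * (∫⁻ t, ENNReal.ofReal (A.W ∅ y (om t) * (Dl A w t) ^ 2) ∂(un x T))
        + ENNReal.ofReal (4 ^ A.p0 / τ) * (∫⁻ t in B, ENNReal.ofReal (A.W ∅ y (om t)
          * (‖A.mo (-1) ∅ (om t)‖ ^ 2 * ‖riemannZeta (1 / 2 + I * (t + w : ℝ))‖ ^ 2)) ∂(un x T))) := by
        rw [lintegral_add_left, lintegral_add_left, lintegral_const_mul' _ _ ENNReal.ofReal_ne_top,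
          lintegral_const_mul' _ _ ENNReal.ofReal_ne_top, lintegral_const_mul' _ _ ENNReal.ofReal_ne_top,
          lintegral_indicator measurableSet_Icc]
        · apply Measurable.const_mul
          apply ENNReal.measurable_ofReal.comp
          apply Continuous.measurable
          have := continuous_Dl A w
          have := (A.continuous_W' hA ∅ y).comp continuous_om
          exact this.mul (by fun_prop)
        · exact hWm.const_mul _
    _ ≤ ENNReal.ofReal c1 * ENNReal.ofReal (CW * A.G y)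
        + (ENNReal.ofReal (1 / 2 / ϑ) * ENNReal.ofReal (CD * ϑ ^ 2 * A.G y)
        + ENNReal.ofReal (4 ^ A.p0 / τ) * ENNReal.ofReal (CL * τ * A.G y)) := by gcongr
    _ = _ := by
        rw [← ENNReal.ofReal_mul hc1', ← ENNReal.ofReal_mul (by positivity),
          ← ENNReal.ofReal_mul (by positivity), ← ENNReal.ofReal_add, ← ENNReal.ofReal_add]
        · congr 1
          have hτ0 : τ ≠ 0 := by positivity
          have hϑ0 : ϑ ≠ 0 := hϑ.ne'
          field_simp
          ring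
        all_goals positivity

lemma exp_Y_le {A : Par} (hA : A.Ok) {T : ℝ} (hT : 1 ≤ T) (hL : Len A T) :
    Real.exp A.Y ≤ T ^ (1 / 4 : ℝ) := by
  have hv : (4 : ℝ) ≤ A.v := by exact_mod_cast hA.hv
  have hY := hA.hY
  unfold Len at hL
  rw [Real.rpow_def_of_pos (by linarith)]
  apply Real.exp_le_exp.mpr
  nlinarith

/-- pointwise bound on the line, far -/
lemma far_log {A : Par} (hA : A.Ok) (hP : HsProps) {x T t c : ℝ} (hT : 1 ≤ T) (hL : Len A T)
    (hx : x ≤ T) (ht0 : 0 ≤ t) (ht : t ≤ x + T) (hc : Real.sqrt T < |A.lam * c|) :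
    Real.posLog ‖hs A (1 / 2 + I * (t + A.lam * c : ℝ))‖
      ≤ (24 + A.p0) * (1 + Real.sqrt |c|) := by
  have hT0 : 0 < T := by linarith
  have hl := hA.hl
  have hl1 := hA.hl1
  obtain ⟨K, hK0, hK1, hK⟩ := (hP A hA).2.1
  have h1 := hK (1 / 2 + I * (t + A.lam * c : ℝ)) (by simp)
  have hw : |A.lam * c| ≤ |c| := by
    rw [abs_mul, abs_of_nonneg hl]
    have := abs_nonneg c
    nlinarith
  have h2 : ‖(1 / 2 + I * (t + A.lam * c : ℝ) : ℂ)‖ ≤ 1 / 2 + (t + |c|) := by
    refine (norm_add_le _ _).trans ?_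
    rw [norm_mul, norm_I, one_mul, Complex.norm_real, Real.norm_eq_abs]
    have h3 : |t + A.lam * c| ≤ t + |c| := by
      refine (abs_add_le _ _).trans ?_
      rw [abs_of_nonneg ht0]
      linarith
    have h4 : ‖(1 / 2 : ℂ)‖ = 1 / 2 := by norm_num
    rw [h4]
    linarith
  have hc0 := abs_nonneg c
  have h3 : 1 + ‖(1 / 2 + I * (t + A.lam * c : ℝ) : ℂ)‖ ≤ 4 * T * (1 + |c|) := by
    nlinarith
  have h4 : ‖hs A (1 / 2 + I * (t + A.lam * c : ℝ))‖
      ≤ (6 * 2 ^ A.p0 * Real.exp (2 * Real.exp A.Y)) * (4 * T * (1 + |c|)) := by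
    refine h1.trans ?_
    gcongr
  have h5 : Real.posLog ‖hs A (1 / 2 + I * (t + A.lam * c : ℝ))‖
      ≤ Real.log ((6 * 2 ^ A.p0 * Real.exp (2 * Real.exp A.Y)) * (4 * T * (1 + |c|))) := by
    refine (Real.posLog_le_posLog (norm_nonneg _) h4).trans ?_
    rw [Real.posLog_eq_log]
    rw [abs_of_nonneg (by positivity)]
    have e1 : (1 : ℝ) ≤ 2 ^ A.p0 := one_le_pow₀ (by norm_num)
    have e2 : (1 : ℝ) ≤ Real.exp (2 * Real.exp A.Y) := Real.one_le_exp (by positivity)
    have e3 : (1 : ℝ) ≤ 4 * T * (1 + |c|) := by nlinarith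
    have e4 : (1 : ℝ) ≤ 6 * 2 ^ A.p0 := by linarith
    exact one_le_mul_of_one_le_of_one_le (one_le_mul_of_one_le_of_one_le e4 e2) e3
  have h6 : Real.log ((6 * 2 ^ A.p0 * Real.exp (2 * Real.exp A.Y)) * (4 * T * (1 + |c|)))
      = Real.log 6 + A.p0 * Real.log 2 + 2 * Real.exp A.Y
        + (Real.log 4 + Real.log T + Real.log (1 + |c|)) := by
    rw [Real.log_mul (by positivity) (by positivity), Real.log_mul (by positivity) (by positivity),
      Real.log_mul (by positivity) (by positivity), Real.log_mul (by positivity) (by positivity),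
      Real.log_mul (by positivity) (by positivity), Real.log_pow, Real.log_exp]
  have h7 : Real.log 6 ≤ 5 := by
    have := Real.log_le_sub_one_of_pos (show (0 : ℝ) < 6 by norm_num)
    linarith
  have h8 : Real.log 2 ≤ 1 := by
    have := Real.log_le_sub_one_of_pos (show (0 : ℝ) < 2 by norm_num)
    linarith
  have h9 : Real.log 4 ≤ 3 := by
    have := Real.log_le_sub_one_of_pos (show (0 : ℝ) < 4 by norm_num)
    linarith
  have h10 := exp_Y_le hA hT hL
  have h11 : Real.log T ≤ 4 * T ^ (1 / 4 : ℝ) := by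
    have := Real.log_le_rpow_div hT0.le (show (0 : ℝ) < 1 / 4 by norm_num)
    linarith
  have h12 : T ^ (1 / 4 : ℝ) ≤ Real.sqrt |c| := by
    have e : T ^ (1 / 4 : ℝ) = Real.sqrt (Real.sqrt T) := by
      rw [Real.sqrt_eq_rpow, Real.sqrt_eq_rpow, ← Real.rpow_mul hT0.le]
      norm_num
    rw [e]
    exact Real.sqrt_le_sqrt (hc.le.trans hw)
  have h13 := log_one_add_le hc0
  have hs0 := Real.sqrt_nonneg |c|
  have hp0 : (0 : ℝ) ≤ A.p0 := by positivity
  calc _ ≤ _ := h5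
    _ = _ := h6
    _ ≤ 5 + A.p0 * 1 + 2 * Real.sqrt |c| + (3 + 4 * Real.sqrt |c| + 2 * Real.sqrt |c|) := by
        have := mul_le_mul_of_nonneg_left h8 hp0
        linarith
    _ ≤ _ := by nlinarith

/-- the mean for one shift, far -/
lemma far_mean {A : Par} (hA : A.Ok) (hP : HsProps) {x T c y : ℝ} {E : Set ℝ} (hT : 1 ≤ T)
    (hL : Len A T) (hx : x ≤ T) (hc : Real.sqrt T < |A.lam * c|)
    (hEs : E ⊆ Icc (T ^ (19 / 20 : ℝ)) (x + T)) {CW : ℝ} (hCW : 0 ≤ CW)
    (h1 : ∫⁻ t, ENNReal.ofReal (A.W ∅ y (om t)) ∂(un x T) ≤ ENNReal.ofReal (CW * A.G y)) :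
    ∫⁻ t, ENNReal.ofReal (A.W ∅ y (om t)) * (E.indicator (fun _ => (1 : ENNReal)) t *
      ENNReal.ofReal (Real.posLog ‖hs A (1 / 2 + I * (t + A.lam * c : ℝ))‖)) ∂(un x T)
      ≤ ENNReal.ofReal ((24 + A.p0) * (1 + Real.sqrt |c|) * (CW * A.G y)) := by
  have hb : (0 : ℝ) ≤ (24 + A.p0) * (1 + Real.sqrt |c|) := by positivity
  calc _ ≤ ∫⁻ t, ENNReal.ofReal ((24 + A.p0) * (1 + Real.sqrt |c|))
          * ENNReal.ofReal (A.W ∅ y (om t)) ∂(un x T) := by
        apply lintegral_mono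
        intro t
        beta_reduce
        rw [mul_comm]
        by_cases ht : t ∈ E
        · rw [indicator_of_mem ht, one_mul]
          have h2 := hEs ht
          have h3 : 0 ≤ t := (Real.rpow_nonneg (by linarith) _).trans h2.1
          gcongr
          exact far_log hA hP hT hL hx h3 h2.2 hc
        · rw [indicator_of_notMem ht, zero_mul, zero_mul]
          exact zero_le
    _ = ENNReal.ofReal ((24 + A.p0) * (1 + Real.sqrt |c|))
          * ∫⁻ t, ENNReal.ofReal (A.W ∅ y (om t)) ∂(un x T) :=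
        lintegral_const_mul' _ _ ENNReal.ofReal_ne_top
    _ ≤ ENNReal.ofReal ((24 + A.p0) * (1 + Real.sqrt |c|)) * ENNReal.ofReal (CW * A.G y) := by
        gcongr
    _ = _ := (ENNReal.ofReal_mul hb).symm

/-- the size of the parameters -/
lemma size_tau {A : Par} (hA : A.Ok) {Λ c : ℝ} (hΛ : A.Y ≤ Λ) :
    1 ≤ (Λ / A.Y) * (1 + A.lam * A.Y) ^ 17 * gr Λ (A.lam * c) ∧
    Real.log ((Λ / A.Y) * (1 + A.lam * A.Y) ^ 17 * gr Λ (A.lam * c))
      ≤ 22 * (1 + Real.log (1 + A.lam * Λ) + Real.log (Λ / A.Y)) * (1 + Real.sqrt |c|) ∧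
    0 < 1 + Real.log (1 + A.Y * |A.lam * c|) + Real.log (1 + A.lam * A.Y) ∧
    1 + Real.log (1 + A.Y * |A.lam * c|) + Real.log (1 + A.lam * A.Y)
      ≤ 2 * (1 + Real.log (1 + A.lam * Λ) + Real.log (Λ / A.Y)) * (1 + Real.sqrt |c|) := by
  have hY := hA.hY
  have hl := hA.hl
  have hY0 : 0 < A.Y := by linarith
  have hΛ0 : 0 < Λ := by linarith
  have hq : 1 ≤ Λ / A.Y := by
    rw [le_div_iff₀ hY0]
    linarith
  have ha := Real.log_nonneg hq
  have hlY : 0 ≤ A.lam * A.Y := by positivity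
  have hlΛ : 0 ≤ A.lam * Λ := by positivity
  have hb : 0 ≤ Real.log (1 + A.lam * Λ) := Real.log_nonneg (by linarith)
  have hb' : 0 ≤ Real.log (1 + A.lam * A.Y) := Real.log_nonneg (by linarith)
  have hs := Real.sqrt_nonneg |c|
  have hbY : Real.log (1 + A.lam * A.Y) ≤ Real.log (1 + A.lam * Λ) := by
    apply Real.log_le_log (by positivity)
    gcongr
  have hw : |A.lam * c| = A.lam * |c| := by rw [abs_mul, abs_of_nonneg hl]
  have hc0 := abs_nonneg c
  have hgr : 1 ≤ gr Λ (A.lam * c) := by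
    unfold gr
    apply Real.one_le_rpow _ (by norm_num)
    have : 0 ≤ Λ * |A.lam * c| := by positivity
    linarith
  have hp17 : 1 ≤ (1 + A.lam * A.Y) ^ 17 := one_le_pow₀ (by linarith)
  have h1 : Real.log (1 + Λ * |A.lam * c|) ≤ Real.log (1 + A.lam * Λ) + 2 * Real.sqrt |c| := by
    have := log_one_add_mul_le hlΛ hc0
    rw [hw]
    calc _ = Real.log (1 + A.lam * Λ * |c|) := by ring_nf
      _ ≤ _ := this
  have h2 : Real.log (1 + A.Y * |A.lam * c|) ≤ Real.log (1 + A.lam * Λ) + 2 * Real.sqrt |c| := by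
    have := log_one_add_mul_le hlY hc0
    rw [hw]
    calc _ = Real.log (1 + A.lam * A.Y * |c|) := by ring_nf
      _ ≤ Real.log (1 + A.lam * A.Y) + 2 * Real.sqrt |c| := this
      _ ≤ _ := by linarith
  have h2' : 0 ≤ Real.log (1 + A.Y * |A.lam * c|) := by
    apply Real.log_nonneg
    have : 0 ≤ A.Y * |A.lam * c| := by positivity
    linarith
  refine ⟨?_, ?_, ?_, ?_⟩
  · exact one_le_mul_of_one_le_of_one_le (one_le_mul_of_one_le_of_one_le hq hp17) hgr
  · rw [Real.log_mul (by positivity) (by positivity), Real.log_mul (by positivity) (by positivity),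
      Real.log_pow]
    have h3 : Real.log (gr Λ (A.lam * c)) = 17 / 4 * Real.log (1 + Λ * |A.lam * c|) := by
      unfold gr
      rw [Real.log_rpow (by positivity)]
    rw [h3]
    set a := Real.log (Λ / A.Y)
    set b := Real.log (1 + A.lam * Λ)
    set s := Real.sqrt |c|
    have h4 : (a + (17 : ℕ) * Real.log (1 + A.lam * A.Y)) + 17 / 4 * Real.log (1 + Λ * |A.lam * c|)
        ≤ a + 17 * b + 17 / 4 * (b + 2 * s) := by
      push_cast
      linarith
    have h5 : 0 ≤ (b + a) * s := by positivity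
    nlinarith
  · positivity
  · set a := Real.log (Λ / A.Y)
    set b := Real.log (1 + A.lam * Λ)
    set s := Real.sqrt |c|
    have h5 : 0 ≤ (b + a) * s := by positivity
    nlinarith

end P3aux

open P3aux

theorem negMean (hJ : PoisJen) (hP : HsProps) (hT : TiltUp) (hL : LineMean) (hD : WDelta)
    (hM : WMean) (hPt : Pointwise) (hWP : WPoint) : NegMean := by
  obtain ⟨CT, v1, hCT, hT⟩ := hT
  obtain ⟨T1, hT1, hL⟩ := hL
  obtain ⟨CD, T2, hCD, hT2, hD⟩ := hD
  obtain ⟨CW, T3, hCW, hT3, hM⟩ := hM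
  obtain ⟨CP, hCP, hPt⟩ := hPt
  obtain ⟨C2, C3, v2, -, -, hWP⟩ := hWP
  obtain ⟨v3, hv3⟩ : ∃ v3 : ℕ, ∀ v : ℕ, v3 ≤ v → CP * Real.exp (-(v : ℝ)) ≤ 1 / 2 := by
    have h1 : Tendsto (fun v : ℕ => CP * Real.exp (-(v : ℝ))) atTop (𝓝 (CP * 0)) := by
      apply Tendsto.const_mul
      exact Real.tendsto_exp_neg_atTop_nhds_zero.comp tendsto_natCast_atTop_atTop
    rw [mul_zero] at h1
    have h2 := h1.eventually (gt_mem_nhds (show (0 : ℝ) < 1 / 2 by norm_num))
    obtain ⟨v3, h3⟩ := eventually_atTop.mp h2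
    exact ⟨v3, fun v hv => (h3 v hv).le⟩
  refine ⟨max 100 (max T1 (max T2 T3)), max v1 (max v2 v3), le_max_of_le_left (by norm_num), ?_⟩
  intro p0 hp0
  obtain ⟨CL, hCL, hL⟩ := hL p0 hp0
  set Ct := 12 * CW + 4 ^ p0 * CL + CD + (24 + (p0 : ℝ)) * CW with hCt
  have hCt0 : 0 ≤ Ct := by positivity
  have hCθ := Cθ_nonneg
  refine ⟨1 + CT * (Ct * Cθ + 13 * CW), ?_, ?_⟩
  · have : 0 ≤ CT * (Ct * Cθ + 13 * CW) := by positivity
    linarith
  intro A hA hv hAp hlam T hTT hLen x hx V u hu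
  have hTm := max_le_iff.mp hTT
  have hT100 : 100 ≤ T := hTm.1
  have hTT1 : T1 ≤ T := (max_le_iff.mp hTm.2).1
  have hTT2 : T2 ≤ T := (max_le_iff.mp (max_le_iff.mp hTm.2).2).1
  have hTT3 : T3 ≤ T := (max_le_iff.mp (max_le_iff.mp hTm.2).2).2
  have hv1 : v1 ≤ A.v := (max_le_iff.mp hv).1
  have hv2 : v2 ≤ A.v := (max_le_iff.mp (max_le_iff.mp hv).2).1
  have hv3' : v3 ≤ A.v := (max_le_iff.mp (max_le_iff.mp hv).2).2
  have hT0 : 0 < T := by linarith
  have hT1' : 1 ≤ T := by linarith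
  have hY := hA.hY
  have hbe := hA.hbe
  have hx1 : |x| ≤ T := by
    refine hx.trans ?_
    calc T ^ (9 / 10 : ℝ) ≤ T ^ (1 : ℝ) := Real.rpow_le_rpow_of_exponent_le hT1' (by norm_num)
      _ = T := Real.rpow_one T
  set Λ := Real.log T with hΛ
  have hYΛ : A.Y ≤ Λ := by
    have hv4 : (4 : ℝ) ≤ A.v := by exact_mod_cast hA.hv
    have := hLen
    unfold Len at this
    nlinarith
  set L1 := 1 + Real.log (1 + A.lam * Λ) + Real.log (Λ / A.Y) with hL1
  have hL1' : 1 ≤ L1 := by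
    have h1 : 0 ≤ Real.log (1 + A.lam * Λ) := by
      apply Real.log_nonneg
      have : 0 ≤ A.lam * Λ := mul_nonneg hlam.le (by linarith)
      linarith
    have h2 : 0 ≤ Real.log (Λ / A.Y) := by
      apply Real.log_nonneg
      rw [le_div_iff₀ (by linarith)]
      linarith
    linarith
  -- the sets
  set E : Set ℝ := Icc (T ^ (19 / 20 : ℝ)) (x + T) ∩ {t | A.Good ∅ (om t)} with hE
  have hEm : MeasurableSet E := measurableSet_Icc.inter (good_meas A)
  have hEs : E ⊆ Icc (T ^ (19 / 20 : ℝ)) (x + T) := inter_subset_left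
  have hmo : ∀ t ∈ E, 1 / 2 * Real.exp (-(2 * A.X ∅ (om t))) ≤ ‖A.mo (-1) ∅ (om t)‖ ^ 2 := by
    intro t ht
    exact (hWP A hA hv2 ∅ (Finset.empty_subset _) (om t) ht.2 (by intro g hg; simp at hg)).2.2.2.2
  set H : ℝ → ENNReal := fun t => ∫⁻ θ in Ioo 0 (2 * Real.pi), ph A E t θ with hH
  have hHm : Measurable H := (measurable_ph hA hP hEm).lintegral_prod_right'
  have hWE : ∀ y : ℝ, ∫⁻ t, ENNReal.ofReal (A.W ∅ y (om t)) ∂(un x T)
      ≤ ENNReal.ofReal (CW * A.G y) := by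
    intro y
    have := hM A hA T hTT3 hLen x y ∅ (Finset.empty_subset _)
    simpa using this
  -- the mean of `H`
  have hmean : ∀ y : ℝ, ∫⁻ t, ENNReal.ofReal (A.W ∅ y (om t)) * H t ∂(un x T)
      ≤ ENNReal.ofReal (Ct * L1 * Cθ * A.G y) := by
    intro y
    have hG := hA.G_pos y
    have hWm : Measurable fun t => ENNReal.ofReal (A.W ∅ y (om t)) :=
      ENNReal.measurable_ofReal.comp ((A.continuous_W' hA ∅ y).comp continuous_om).measurable
    have hprob := prob_un x hT0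
    calc ∫⁻ t, ENNReal.ofReal (A.W ∅ y (om t)) * H t ∂(un x T)
        = ∫⁻ t, (∫⁻ θ in Ioo 0 (2 * Real.pi), ENNReal.ofReal (A.W ∅ y (om t)) * ph A E t θ) ∂(un x T) := by
          apply lintegral_congr
          intro t
          exact (lintegral_const_mul' _ _ ENNReal.ofReal_ne_top).symm
      _ = ∫⁻ θ in Ioo 0 (2 * Real.pi), (∫⁻ t, ENNReal.ofReal (A.W ∅ y (om t)) * ph A E t θ ∂(un x T)) := by
          apply lintegral_lintegral_swap
          apply Measurable.aemeasurable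
          exact (hWm.comp measurable_fst).mul (measurable_ph hA hP hEm)
      _ ≤ ∫⁻ θ in Ioo 0 (2 * Real.pi), ENNReal.ofReal (Ct * L1 * A.G y * (1 + Real.sqrt |ct θ|)) := by
          apply lintegral_mono
          intro θ
          beta_reduce
          obtain ⟨s1, s2, s3, s4⟩ := size_tau hA (c := ct θ) hYΛ
          rw [← hL1] at s2 s4
          have hs0 := Real.sqrt_nonneg |ct θ|
          have hLs : 1 ≤ L1 * (1 + Real.sqrt |ct θ|) := by nlinarith
          rcases le_or_gt |A.lam * ct θ| (Real.sqrt T) with hw | hw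
          · have h2 := hL A hA hAp T hTT1 hLen x hx1 y (A.lam * ct θ) hw ∅ (Finset.empty_subset _)
            have h3 := (hD A hA T hTT2 hLen x y (A.lam * ct θ)).1
            have h4 := near_mean hA hP (y := y) (w := A.lam * ct θ) hEs hmo s1 s3
              (by linarith : (0 : ℝ) ≤ CW) (by linarith : (0 : ℝ) ≤ CL) (by linarith : (0 : ℝ) ≤ CD)
              (hWE y) (by
                refine h2.trans (le_of_eq ?_)
                congr 1
                simp only [Finset.sum_empty, neg_zero, Real.exp_zero]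
                ring) h3
            refine h4.trans ?_
            apply ENNReal.ofReal_le_ofReal
            rw [hAp]
            set s := Real.sqrt |ct θ|
            have h5 : (1 / 2 * Real.log (Λ / A.Y * (1 + A.lam * A.Y) ^ 17 * gr Λ (A.lam * ct θ))
                + 1 / 2 * (1 + Real.log (1 + A.Y * |A.lam * ct θ|) + Real.log (1 + A.lam * A.Y))) * CW
                ≤ (12 * (L1 * (1 + s))) * CW := by
              apply mul_le_mul_of_nonneg_right _ (by linarith)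
              linarith
            have h6 : 1 / 2 * (1 + Real.log (1 + A.Y * |A.lam * ct θ|) + Real.log (1 + A.lam * A.Y)) * CD
                ≤ (L1 * (1 + s)) * CD := by
              apply mul_le_mul_of_nonneg_right _ (by linarith)
              linarith
            have h7 : 4 ^ p0 * CL ≤ (4 ^ p0 * CL) * (L1 * (1 + s)) := le_mul_of_one_le_right (by positivity) hLs
            have h8 : 0 ≤ (24 + (p0 : ℝ)) * CW * (L1 * (1 + s)) := by positivity
            calc _ ≤ ((12 * (L1 * (1 + s))) * CW + (4 ^ p0 * CL) * (L1 * (1 + s))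
                  + (L1 * (1 + s)) * CD + (24 + (p0 : ℝ)) * CW * (L1 * (1 + s))) * A.G y := by
                  apply mul_le_mul_of_nonneg_right _ hG.le
                  linarith
              _ = _ := by rw [hCt]; ring
          · have h4 := far_mean hA hP (y := y) (c := ct θ) hT1' hLen ((le_abs_self x).trans hx1) hw hEs
              (by linarith : (0 : ℝ) ≤ CW) (hWE y)
            refine h4.trans ?_
            apply ENNReal.ofReal_le_ofReal
            rw [hAp]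
            set s := Real.sqrt |ct θ|
            have h8 : (24 + (p0 : ℝ)) * CW * (1 + s) ≤ Ct * L1 * (1 + s) := by
              apply mul_le_mul_of_nonneg_right _ (by positivity)
              have h9 : (24 + (p0 : ℝ)) * CW ≤ Ct := by
                rw [hCt]
                have : 0 ≤ 12 * CW + 4 ^ p0 * CL + CD := by positivity
                linarith
              nlinarith
            calc (24 + (p0 : ℝ)) * (1 + s) * (CW * A.G y) = ((24 + (p0 : ℝ)) * CW * (1 + s)) * A.G y := by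
                  ring
              _ ≤ (Ct * L1 * (1 + s)) * A.G y := mul_le_mul_of_nonneg_right h8 hG.le
              _ = _ := by ring
      _ ≤ ENNReal.ofReal (Ct * L1 * A.G y * Cθ) := lintegral_ct (by positivity)
      _ = _ := by
          congr 1
          ring
  -- the tilted bounds
  set S : Set ℝ := {t | A.Good ∅ (om t) ∧ A.Bad ∅ (om t) ∧ V < A.X ∅ (om t)} with hS
  have hGV := hA.G_pos V
  have t1 := hT A hA hv1 ∅ (Finset.empty_subset _) x T (Ct * L1 * Cθ) hT0 (by positivity) H hHm hmean V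
  have t2 := hT A hA hv1 ∅ (Finset.empty_subset _) x T (13 * CW) hT0 (by positivity)
    (fun _ => ENNReal.ofReal 13) measurable_const (by
      intro y
      have hG := hA.G_pos y
      rw [lintegral_mul_const' _ _ ENNReal.ofReal_ne_top]
      calc _ ≤ ENNReal.ofReal (CW * A.G y) * ENNReal.ofReal 13 := by
            gcongr
            exact hWE y
        _ = _ := by
          rw [← ENNReal.ofReal_mul (by positivity)]
          congr 1
          ring) V
  -- the points of `Th`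
  have hpt : ∀ t ∈ Th A x T V, (∫⁻ θ in Ioo 0 (2 * Real.pi),
      ENNReal.ofReal (Ph u ‖hs A (1 / 2 + I * (t + A.lam * ct θ : ℝ))‖)) ≤ H t + ENNReal.ofReal 13 := by
    intro t ht
    obtain ⟨ht1, ht2, ht3, ht4⟩ := ht
    have ht10 : 10 ≤ t := by
      refine le_trans ?_ ht1.1
      calc (10 : ℝ) = (100 : ℝ) ^ (1 / 2 : ℝ) := by
            rw [← Real.sqrt_eq_rpow, show (100 : ℝ) = 10 ^ 2 by norm_num, Real.sqrt_sq (by norm_num)]
        _ ≤ T ^ (1 / 2 : ℝ) := Real.rpow_le_rpow (by norm_num) hT100 (by norm_num)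
        _ ≤ T ^ (19 / 20 : ℝ) := Real.rpow_le_rpow_of_exponent_le hT1' (by norm_num)
    have h1 := (hPt A hA ∅ (Finset.empty_subset _) (om t) ht2).2
    have h2 := far_point hA hP ht10 (hv3 A.v hv3') h1 ht4
    have hne : hs A (pt A.lam t) ≠ 0 := by
      intro h0
      rw [h0, norm_zero] at h2
      norm_num at h2
    obtain ⟨K, hK0, hK1, hK⟩ := (hP A hA).2.1
    have h3 := hJ (hs A) (hP A hA).1 K hK0 hK A.lam hlam t hne u hu
    refine h3.trans ?_
    have h4 : Real.posLog ‖hs A (pt A.lam t)‖⁻¹ ≤ 2 := by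
      have h5 : ‖hs A (pt A.lam t)‖⁻¹ ≤ 6 := by
        rw [inv_le_comm₀ (by linarith) (by norm_num)]
        linarith
      refine (Real.posLog_le_posLog (by positivity) h5).trans ?_
      rw [Real.posLog_eq_log (by norm_num)]
      rw [Real.log_le_iff_le_exp (by norm_num)]
      have h6 := Real.quadratic_le_exp_of_nonneg (show (0 : ℝ) ≤ 2 by norm_num)
      have h7 : Real.exp 2 = Real.exp 1 * Real.exp 1 := by
        rw [← Real.exp_add]
        norm_num
      have h8 := Real.exp_one_gt_d9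
      rw [h7]
      nlinarith
    have h5 : 2 * Real.pi * Real.posLog ‖hs A (pt A.lam t)‖⁻¹ ≤ 13 := by
      have h6 := Real.pi_lt_d2
      have h7 := Real.posLog_nonneg (x := ‖hs A (pt A.lam t)‖⁻¹)
      nlinarith
    have hHt : H t = ∫⁻ θ in Ioo 0 (2 * Real.pi),
        ENNReal.ofReal (Real.posLog ‖hs A (1 / 2 + I * (t + A.lam * ct θ : ℝ))‖) := by
      rw [hH]
      apply lintegral_congr
      intro θ
      have htE : t ∈ E := ⟨ht1, ht2⟩
      unfold ph
      rw [indicator_of_mem htE, one_mul]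
    rw [hHt]
    gcongr
  have hsub : Th A x T V ⊆ S := by
    intro t ht
    exact ⟨ht.2.1, by intro g hg; simp at hg, ht.2.2.1⟩
  calc _ ≤ ∫⁻ t in Th A x T V, (H t + ENNReal.ofReal 13) ∂(un x T) :=
        setLIntegral_mono (hHm.add_const _) hpt
    _ ≤ ∫⁻ t in S, (H t + ENNReal.ofReal 13) ∂(un x T) := lintegral_mono_set hsub
    _ = (∫⁻ t in S, H t ∂(un x T)) + ∫⁻ t in S, ENNReal.ofReal 13 ∂(un x T) :=
        lintegral_add_left hHm _
    _ ≤ ENNReal.ofReal (CT * (Ct * L1 * Cθ) * (A.G V / A.be))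
        + ENNReal.ofReal (CT * (13 * CW) * (A.G V / A.be)) := add_le_add t1 t2
    _ = ENNReal.ofReal (CT * (Ct * L1 * Cθ) * (A.G V / A.be) + CT * (13 * CW) * (A.G V / A.be)) :=
        (ENNReal.ofReal_add (by positivity) (by positivity)).symm
    _ ≤ _ := by
        apply ENNReal.ofReal_le_ofReal
        have hg : 0 ≤ A.G V / A.be := by positivity
        have h1 : CT * (13 * CW) ≤ CT * (13 * CW) * L1 := le_mul_of_one_le_right (by positivity) hL1'
        have h2 : CT * (Ct * L1 * Cθ) + CT * (13 * CW) ≤ (1 + CT * (Ct * Cθ + 13 * CW)) * L1 := by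
          nlinarith
        calc _ = (CT * (Ct * L1 * Cθ) + CT * (13 * CW)) * (A.G V / A.be) := by ring
          _ ≤ ((1 + CT * (Ct * Cθ + 13 * CW)) * L1) * (A.G V / A.be) := by gcongr

end Pool.Agent.Lib.GT
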