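import Mathlib
import Pool.Agent.Lib.MP_f9aece_nt_gt.StmtsZ
import Pool.Agent.Lib.MP_f9aece_nt_gt.Cont
import Pool.Agent.Lib.MP_f9aece_nt_gt.P2

/-!
Gaussian tails of `log |zeta|`: the lower bound (row P4).
-/

set_option autoImplicit false
set_option linter.unusedVariables false

namespace Pool.Agent.Lib.GT

open MeasureTheory Set Filter Topology Complex ProbabilityTheory
open scoped ComplexConjugate
open Pool.Agent.Lib.J4 (Sg Yg rg Jok V2 sgDisj)

namespace P4aux

/-! ### Markov inequalities -/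

lemma markov {m : Measure ℝ} {E F : Set ℝ} {H : ℝ → ENNReal} (hH : Measurable H)
    (hF : ∀ t ∈ F, t ∈ E ∧ 1 ≤ H t) : m F ≤ ∫⁻ t in E, H t ∂m := by
  calc m F ≤ m ({t | 1 ≤ H t} ∩ E) := measure_mono fun t ht => ⟨(hF t ht).2, (hF t ht).1⟩
    _ = (m.restrict E) {t | 1 ≤ H t} :=
        (Measure.restrict_apply (measurableSet_le measurable_const hH)).symm
    _ ≤ ∫⁻ t in E, H t ∂m := by
        have := mul_meas_ge_le_lintegral (μ := m.restrict E) hH 1
        rwa [one_mul] at this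

/-- averages over shifts, first form -/
lemma avg4 {m : Measure ℝ} [SFinite m] {Q Th : Set ℝ} (hQ : MeasurableSet Q)
    (hTh : MeasurableSet Th) {v : ℝ → ℝ} (hv : Measurable v) {J : Set ℝ} (hJ : MeasurableSet J)
    {ε M : ENNReal} {S : Set ℝ}
    (hS : ∀ τ ∈ S, τ ∈ Q ∧ ε ≤ volume (J ∩ {θ | τ - v θ ∉ Th}))
    (hM : ∀ θ ∈ J, m {τ | τ ∈ Q ∧ τ - v θ ∉ Th} ≤ M) : ε * m S ≤ M * volume J := by
  obtain ⟨G, hG⟩ : ∃ G : Set (ℝ × ℝ), G = {p | p.1 ∈ Q ∧ p.1 - v p.2 ∉ Th} := ⟨_, rfl⟩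
  have hGm : MeasurableSet G := by
    rw [hG]
    refine (measurable_fst hQ).inter ?_
    exact ((measurable_fst.sub (hv.comp measurable_snd)) hTh).compl
  have hf : Measurable (Set.indicator G (fun _ => (1 : ENNReal))) := measurable_const.indicator hGm
  obtain ⟨F, hFd⟩ : ∃ F : ℝ → ENNReal,
      F = fun τ => ∫⁻ θ in J, Set.indicator G (fun _ => (1 : ENNReal)) (τ, θ) := ⟨_, rfl⟩
  have hFm : Measurable F := by
    rw [hFd]
    exact hf.lintegral_prod_right'
  have h1 : ∀ τ ∈ S, ε ≤ F τ := by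
    intro τ hτ
    obtain ⟨h2, h3⟩ := hS τ hτ
    refine h3.trans (le_of_eq ?_)
    rw [hFd]
    have hset : MeasurableSet {θ | τ - v θ ∉ Th} :=
      ((measurable_const.sub hv) hTh).compl
    have e : ∀ θ, Set.indicator G (fun _ => (1 : ENNReal)) (τ, θ)
        = Set.indicator {θ | τ - v θ ∉ Th} (fun _ => (1 : ENNReal)) θ := by
      intro θ
      by_cases h : τ - v θ ∉ Th
      · rw [Set.indicator_of_mem (by rw [hG]; exact ⟨h2, h⟩), Set.indicator_of_mem (by exact h)]
      · rw [Set.indicator_of_notMem (by rw [hG]; exact fun h' => h h'.2),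
          Set.indicator_of_notMem (by exact h)]
    simp only [e]
    rw [lintegral_indicator hset, setLIntegral_const, one_mul, Measure.restrict_apply hset,
      inter_comm]
  calc ε * m S ≤ ε * m {τ | ε ≤ F τ} := by
        gcongr
        exact fun τ hτ => h1 τ hτ
    _ ≤ ∫⁻ τ, F τ ∂m := mul_meas_ge_le_lintegral hFm ε
    _ = ∫⁻ θ in J, ∫⁻ τ, Set.indicator G (fun _ => (1 : ENNReal)) (τ, θ) ∂m := by
        rw [hFd]
        exact lintegral_lintegral_swap hf.aemeasurable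
    _ ≤ ∫⁻ θ in J, M := by
        refine setLIntegral_mono measurable_const fun θ hθ => ?_
        have hset : MeasurableSet {τ | τ ∈ Q ∧ τ - v θ ∉ Th} :=
          hQ.inter ((measurable_id.sub measurable_const) hTh).compl
        have e : ∀ τ, Set.indicator G (fun _ => (1 : ENNReal)) (τ, θ)
            = Set.indicator {τ | τ ∈ Q ∧ τ - v θ ∉ Th} (fun _ => (1 : ENNReal)) τ := by
          intro τ
          by_cases h : τ ∈ Q ∧ τ - v θ ∉ Th
          · rw [Set.indicator_of_mem (by rw [hG]; exact h), Set.indicator_of_mem (by exact h)]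
          · rw [Set.indicator_of_notMem (by rw [hG]; exact h),
              Set.indicator_of_notMem (by exact h)]
        simp only [e]
        rw [lintegral_indicator hset, setLIntegral_const, one_mul]
        exact hM θ hθ
    _ = M * volume J := setLIntegral_const _ _

/-- the restriction of the uniform measure to a subset of the interval -/
lemma un_restrict {x T : ℝ} {Th : Set ℝ} (hTh : MeasurableSet Th) (hsub : Th ⊆ Icc x (x + T)) :
    (un x T).restrict Th = (ENNReal.ofReal T)⁻¹ • volume.restrict Th := by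
  unfold un
  rw [Measure.restrict_smul, Measure.restrict_restrict hTh, inter_eq_left.mpr hsub]

/-- averages over shifts, second form -/
lemma avg3 {x T : ℝ} {Th : Set ℝ} (hTh : MeasurableSet Th) (hsub : Th ⊆ Icc x (x + T))
    {v : ℝ → ℝ} (hv : Measurable v) {J : Set ℝ} (hJ : MeasurableSet J)
    {φ : ℝ → ENNReal} (hφ : Measurable φ) {ε : ENNReal} {S : Set ℝ}
    (hS : ∀ τ ∈ S, ε ≤ volume (J ∩ {θ | τ - v θ ∈ Th}) * φ τ) :
    ε * un x T S ≤ ∫⁻ t in Th, (∫⁻ θ in J, φ (t + v θ)) ∂(un x T) := by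
  obtain ⟨g, hg⟩ : ∃ g : ℝ × ℝ → ENNReal,
      g = fun p => Set.indicator Th (fun _ => (1 : ENNReal)) (p.1 - v p.2) * φ p.1 := ⟨_, rfl⟩
  have hgm : Measurable g := by
    rw [hg]
    exact ((measurable_const.indicator hTh).comp
      (measurable_fst.sub (hv.comp measurable_snd))).mul (hφ.comp measurable_fst)
  obtain ⟨F, hFd⟩ : ∃ F : ℝ → ENNReal, F = fun τ => ∫⁻ θ in J, g (τ, θ) := ⟨_, rfl⟩
  have hFm : Measurable F := by
    rw [hFd]
    exact hgm.lintegral_prod_right'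
  have h1 : ∀ τ ∈ S, ε ≤ F τ := by
    intro τ hτ
    refine (hS τ hτ).trans (le_of_eq ?_)
    rw [hFd, hg]
    have hset : MeasurableSet {θ | τ - v θ ∈ Th} := (measurable_const.sub hv) hTh
    have hm1 : Measurable fun θ => Set.indicator Th (fun _ => (1 : ENNReal)) (τ - v θ) :=
      (measurable_const.indicator hTh).comp (measurable_const.sub hv)
    simp only
    rw [lintegral_mul_const _ hm1]
    congr 1
    have e : ∀ θ, Set.indicator Th (fun _ => (1 : ENNReal)) (τ - v θ)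
        = Set.indicator {θ | τ - v θ ∈ Th} (fun _ => (1 : ENNReal)) θ := by
      intro θ
      by_cases h : τ - v θ ∈ Th
      · rw [Set.indicator_of_mem h, Set.indicator_of_mem (by exact h)]
      · rw [Set.indicator_of_notMem h, Set.indicator_of_notMem (by exact h)]
    simp only [e]
    rw [lintegral_indicator hset, setLIntegral_const, one_mul, Measure.restrict_apply hset,
      inter_comm]
  have h2 : ε * un x T S ≤ ∫⁻ τ, F τ ∂(un x T) := by
    calc ε * un x T S ≤ ε * un x T {τ | ε ≤ F τ} := by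
          gcongr
          exact fun τ hτ => h1 τ hτ
      _ ≤ _ := mul_meas_ge_le_lintegral hFm ε
  refine h2.trans ?_
  rw [un_restrict hTh hsub]
  unfold un
  rw [lintegral_smul_measure, lintegral_smul_measure]
  gcongr (ENNReal.ofReal T)⁻¹ • ?_
  calc ∫⁻ τ in Icc x (x + T), F τ ≤ ∫⁻ τ, F τ := setLIntegral_le_lintegral _ _
    _ = ∫⁻ θ in J, ∫⁻ τ, g (τ, θ) := by
        rw [hFd]
        exact lintegral_lintegral_swap hgm.aemeasurable
    _ = ∫⁻ θ in J, ∫⁻ t, Set.indicator Th (fun _ => (1 : ENNReal)) t * φ (t + v θ) := by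
        congr 1
        ext θ
        rw [hg]
        rw [← lintegral_add_right_eq_self (μ := volume) _ (v θ)]
        simp only [add_sub_cancel_right]
    _ = ∫⁻ t, ∫⁻ θ in J, Set.indicator Th (fun _ => (1 : ENNReal)) t * φ (t + v θ) := by
        refine (lintegral_lintegral_swap ?_).symm
        refine Measurable.aemeasurable ?_
        exact ((measurable_const.indicator hTh).comp measurable_fst).mul
          (hφ.comp (measurable_fst.add (hv.comp measurable_snd)))
    _ = ∫⁻ t, Set.indicator Th (fun t => ∫⁻ θ in J, φ (t + v θ)) t := by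
        congr 1
        ext t
        by_cases h : t ∈ Th
        · simp only [Set.indicator_of_mem h, one_mul]
        · simp only [Set.indicator_of_notMem h, zero_mul, lintegral_zero]
    _ = ∫⁻ t in Th, ∫⁻ θ in J, φ (t + v θ) := lintegral_indicator hTh _

/-- translation of the uniform measure -/
lemma un_shift {x T v : ℝ} {Q B : Set ℝ} (hB : MeasurableSet B) (hsub : B ⊆ Icc x (x + T))
    (hQ : ∀ τ ∈ Q, τ - v ∈ B) : un x T Q ≤ un x T B := by
  unfold un
  rw [Measure.smul_apply, Measure.smul_apply]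
  gcongr (ENNReal.ofReal T)⁻¹ • ?_
  calc (volume.restrict (Icc x (x + T))) Q ≤ volume Q := Measure.restrict_apply_le _ _
    _ ≤ volume ((fun τ => τ + -v) ⁻¹' B) := by
        refine measure_mono fun τ hτ => ?_
        have := hQ τ hτ
        rwa [sub_eq_add_neg] at this
    _ = volume B := measure_preimage_add_right _ _ _
    _ = (volume.restrict (Icc x (x + T))) B := by
        rw [Measure.restrict_apply hB, inter_eq_left.mpr hsub]

/-- the ends of the interval -/
lemma un_ends {x T : ℝ} (hT : 3 ≤ T) (hx : |x| ≤ T ^ (9 / 10 : ℝ)) :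
    un x T {t | t ∉ Icc (T ^ (19 / 20 : ℝ) + 1) (x + T - 1)}
      ≤ ENNReal.ofReal (4 * T ^ (-(1 / 20) : ℝ)) := by
  have hT0 : 0 < T := by linarith
  have h1 : T ^ (9 / 10 : ℝ) ≤ T ^ (19 / 20 : ℝ) :=
    Real.rpow_le_rpow_of_exponent_le (by linarith) (by norm_num)
  have h2 : 1 ≤ T ^ (19 / 20 : ℝ) := Real.one_le_rpow (by linarith) (by norm_num)
  have h3 : -x ≤ T ^ (9 / 10 : ℝ) := (neg_le_abs x).trans hx
  unfold un
  rw [Measure.smul_apply, smul_eq_mul, Measure.restrict_apply' measurableSet_Icc]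
  have h4 : volume ({t | t ∉ Icc (T ^ (19 / 20 : ℝ) + 1) (x + T - 1)} ∩ Icc x (x + T))
      ≤ ENNReal.ofReal (4 * T ^ (19 / 20 : ℝ)) := by
    calc volume ({t | t ∉ Icc (T ^ (19 / 20 : ℝ) + 1) (x + T - 1)} ∩ Icc x (x + T))
        ≤ volume (Icc x (T ^ (19 / 20 : ℝ) + 1) ∪ Icc (x + T - 1) (x + T)) := by
          refine measure_mono fun t ht => ?_
          obtain ⟨ht1, ht2, ht3⟩ := ht
          by_contra h
          apply ht1
          rw [mem_union, not_or] at h
          constructor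
          · by_contra h5
            push Not at h5
            exact h.1 ⟨ht2, h5.le⟩
          · by_contra h5
            push Not at h5
            exact h.2 ⟨h5.le, ht3⟩
      _ ≤ volume (Icc x (T ^ (19 / 20 : ℝ) + 1)) + volume (Icc (x + T - 1) (x + T)) :=
          measure_union_le _ _
      _ ≤ ENNReal.ofReal (3 * T ^ (19 / 20 : ℝ)) + ENNReal.ofReal (T ^ (19 / 20 : ℝ)) := by
          rw [Real.volume_Icc, Real.volume_Icc]
          gcongr <;> linarith
      _ = _ := by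
          rw [← ENNReal.ofReal_add (by positivity) (by positivity)]
          congr 1
          ring
  calc (ENNReal.ofReal T)⁻¹
        * volume ({t | t ∉ Icc (T ^ (19 / 20 : ℝ) + 1) (x + T - 1)} ∩ Icc x (x + T))
      ≤ (ENNReal.ofReal T)⁻¹ * ENNReal.ofReal (4 * T ^ (19 / 20 : ℝ)) := by gcongr
    _ = ENNReal.ofReal (4 * T ^ (-(1 / 20) : ℝ)) := by
        rw [← ENNReal.ofReal_inv_of_pos hT0, ← ENNReal.ofReal_mul (by positivity)]
        congr 1
        have : T ^ (19 / 20 : ℝ) = T ^ (-(1 / 20) : ℝ) * T := by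
          rw [← Real.rpow_add_one hT0.ne']
          norm_num
        rw [this]
        field_simp

/-! ### The prime sums -/

lemma U_ne {A : Par} : ∀ p ∈ A.U, p ≠ 0 := fun p hp => (P2aux.mem_U hp).1.ne_zero

lemma X_eq {A : Par} (hA : A.Ok) (x : Om) : A.X ∅ x = (lin A.U (fun p => (A.h p : ℂ)) x).re := by
  unfold Par.X Par.P lin
  rw [Finset.sdiff_empty, Complex.re_sum]
  unfold Par.U
  rw [Finset.sum_biUnion]
  · apply Finset.sum_congr rfl
    intro g hg
    rw [Complex.re_sum]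
  · intro g _ g' _ hne
    exact sgDisj A.v A.p0 A.Y (by linarith [hA.hY]) g g' hne

lemma X_sub {A : Par} (hA : A.Ok) (τ v : ℝ) : A.X ∅ (om (τ - v)) - A.X ∅ (om τ)
    = (lin A.U (fun p => (A.h p : ℂ) * ((p : ℂ) ^ (-(I * (-v : ℝ)) : ℂ) - 1)) (om τ)).re := by
  rw [X_eq hA, X_eq hA, sub_eq_add_neg τ v, lin_om_add A.U U_ne, ← Complex.sub_re]
  congr 1
  unfold lin
  rw [← Finset.sum_sub_distrib]
  apply Finset.sum_congr rfl
  intro p _
  ring

lemma lin_half {A : Par} (hA : A.Ok) (x : Om) : (lin A.U (fun p => (p : ℂ) ^ (-(1 / 2) : ℂ)) x).re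
    = A.X ∅ x + (lin A.U (fun p => (p : ℂ) ^ (-(1 / 2 + I * (0 : ℝ)) : ℂ) - A.h p) x).re := by
  rw [X_eq hA, ← Complex.add_re]
  congr 1
  unfold lin
  rw [← Finset.sum_add_distrib]
  apply Finset.sum_congr rfl
  intro p _
  rw [Complex.ofReal_zero, mul_zero, add_zero]
  ring

lemma r_pos {A : Par} (hA : A.Ok) (g : ℕ) : 0 < RR (A.r g) := by
  unfold RR Par.r rg
  have := hA.hv
  have h1 : 0 < A.v * (g + 1) := by positivity
  have h2 : (0 : ℝ) < ((A.v * (g + 1) : ℕ) : ℝ) := by exact_mod_cast h1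
  linarith

lemma P_shift {A : Par} (τ v : ℝ) (g : ℕ) : A.P g (om (τ - v)) = A.Pv (-v) g (om τ) := by
  unfold Par.P Par.Pv
  rw [sub_eq_add_neg τ v, lin_om_add]
  intro p hp
  unfold Par.S Sg at hp
  simp only [Finset.mem_filter] at hp
  exact hp.2.1.ne_zero

lemma bbv_eq {A : Par} (v : ℝ) (g : ℕ) (x : Om) :
    A.bbv v g x = (‖A.Pv v g x‖ / RR (A.r g)) ^ (2 * MM (A.r g)) := rfl

lemma bbv_nonneg {A : Par} (v : ℝ) (g : ℕ) (x : Om) : 0 ≤ A.bbv v g x := Par.bp_nonneg _ _ _ _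

lemma not_good {A : Par} (hA : A.Ok) {τ v : ℝ} (h : ¬ A.Good ∅ (om (τ - v))) :
    1 ≤ ∑ g ∈ Finset.range A.J, A.bbv (-v) g (om τ) := by
  unfold Par.Good at h
  push Not at h
  obtain ⟨g, hg, h1⟩ := h
  rw [Finset.sdiff_empty] at hg
  refine le_trans ?_ (Finset.single_le_sum (fun g _ => bbv_nonneg (-v) g (om τ)) hg)
  rw [bbv_eq, ← P_shift]
  apply one_le_pow₀
  rw [one_le_div (r_pos hA g)]
  exact h1.le

lemma Ph_small {u y : ℝ} (hu : 0 < u) (hy : 0 ≤ y) (h : y ≤ Real.exp (-u)) : Ph u y = u := by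
  unfold Ph
  split_ifs with h1
  · rfl
  · push Not at h1
    apply min_eq_left
    unfold Real.posLog
    refine le_trans ?_ (le_max_right _ _)
    rw [Real.log_inv]
    have h2 := Real.log_le_log h1 h
    rw [Real.log_exp] at h2
    linarith

/-! ### Measurability -/

lemma cont_pt (σ : ℝ) : Continuous fun t : ℝ => pt σ t := by
  unfold pt
  fun_prop

lemma cont_zeta {lam : ℝ} (h0 : 0 ≤ lam) (h1 : lam ≤ 1 / 4) :
    Continuous fun t : ℝ => riemannZeta (pt lam t) := by
  rw [continuous_iff_continuousAt]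
  intro t
  have hne : pt lam t ≠ 1 := by
    intro h
    have := congrArg Complex.re h
    rw [P2aux.re_pt, Complex.one_re] at this
    linarith
  exact ContinuousAt.comp (f := fun t : ℝ => pt lam t) (differentiableAt_riemannZeta hne).continuousAt
    (cont_pt lam).continuousAt

lemma cont_Msm (A : Par) : Continuous A.Msm := by
  unfold Par.Msm
  exact continuous_finsetProd _ fun p _ => continuous_const.sub
    (continuous_const.mul (continuous_e1.comp (continuous_apply p)))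

lemma cont_near (A : Par) (h0 : 0 ≤ A.lam) (h1 : A.lam ≤ 1 / 4) : Continuous fun t : ℝ =>
    ‖riemannZeta (pt A.lam t) * (A.mo (-1) ∅ (om t) * A.Msm (om t)) - 1‖ :=
  (((cont_zeta h0 h1).mul (((A.continuous_mo (-1) ∅).comp continuous_om).mul
    ((cont_Msm A).comp continuous_om))).sub continuous_const).norm

lemma cont_X (A : Par) : Continuous fun t : ℝ => A.X ∅ (om t) :=
  (A.continuous_X ∅).comp continuous_om

lemma meas_good (A : Par) : MeasurableSet {t : ℝ | A.Good ∅ (om t)} := by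
  have e : {t : ℝ | A.Good ∅ (om t)}
      = ⋂ g ∈ (Finset.range A.J \ ∅), {t : ℝ | ‖A.P g (om t)‖ ≤ RR (A.r g)} := by
    ext t
    simp only [Par.Good, Set.mem_iInter, Set.mem_ofPred_eq]
  rw [e]
  refine Finset.measurableSet_biInter _ fun g _ => ?_
  exact measurableSet_le ((A.continuous_P g).comp continuous_om).norm.measurable measurable_const

lemma meas_Th (A : Par) (h0 : 0 ≤ A.lam) (h1 : A.lam ≤ 1 / 4) (x T V : ℝ) :
    MeasurableSet (Th A x T V) := by
  unfold Th
  refine measurableSet_Icc.inter ((meas_good A).inter (MeasurableSet.inter ?_ ?_))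
  · exact measurableSet_lt measurable_const (cont_X A).measurable
  · exact measurableSet_le (cont_near A h0 h1).measurable measurable_const

lemma meas_ct : Measurable ct := by
  unfold ct
  fun_prop

lemma cont_hs {A : Par} (hA : A.Ok) : Continuous fun τ : ℝ => hs A (1 / 2 + I * τ) := by
  rw [continuous_iff_continuousAt]
  intro t
  have h1 : ContinuousAt (hs A) (1 / 2 + I * t) := ((hsProps A hA).1 _ (by simp)).continuousAt
  exact ContinuousAt.comp (f := fun t : ℝ => (1 / 2 + I * t : ℂ)) h1 (by fun_prop)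

lemma meas_Ph (u : ℝ) : Measurable (Ph u) := by
  unfold Ph
  apply Measurable.ite measurableSet_Iic measurable_const
  apply measurable_const.min
  unfold Real.posLog
  fun_prop

lemma abs_ct_le {θ : ℝ} (h0 : Real.pi / 10 ≤ θ) (h1 : θ ≤ 19 * Real.pi / 10) : |ct θ| ≤ 10 := by
  have hpi := Real.pi_pos
  have key : ∀ y : ℝ, Real.pi / 10 ≤ y → y ≤ Real.pi → 1 / 10 ≤ Real.sin (y / 2) := by
    intro y hy hy1
    have := Real.mul_le_sin (x := y / 2) (by linarith) (by linarith)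
    refine le_trans ?_ this
    rw [div_mul_eq_mul_div, le_div_iff₀ hpi]
    linarith
  have hs : 1 / 10 ≤ Real.sin (θ / 2) := by
    rcases le_total θ Real.pi with h | h
    · exact key θ h0 h
    · have h3 : Real.sin (θ / 2) = Real.sin ((2 * Real.pi - θ) / 2) := by
        rw [← Real.sin_pi_sub]
        congr 1
        ring
      rw [h3]
      exact key _ (by linarith) (by linarith)
  unfold ct
  rw [abs_div, abs_of_pos (show 0 < Real.sin (θ / 2) by linarith), div_le_iff₀ (by linarith)]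
  have := Real.abs_cos_le_one (θ / 2)
  linarith

/-! ### Sets through the weights -/

/-- the form in which the tilt is used -/
lemma tilt_set {C : ℝ} {A : Par} (hA : A.Ok) {x T : ℝ} (hT : 0 < T)
    (h : ∀ (κ : ℝ), 0 ≤ κ → ∀ H : ℝ → ENNReal, Measurable H →
      (∀ y : ℝ, ∫⁻ t, ENNReal.ofReal (A.W ∅ y (om t)) * H t ∂(un x T) ≤ ENNReal.ofReal (κ * A.G y)) →
      ∀ V : ℝ, ∫⁻ t in {t | A.Good ∅ (om t) ∧ A.Bad ∅ (om t) ∧ V < A.X ∅ (om t)}, H t ∂(un x T)
        ≤ ENNReal.ofReal (C * κ * (A.G V / A.be)))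
    {f : ℝ → ℝ} (hf : Measurable f) (hf0 : ∀ t, 0 ≤ f t) {κ : ℝ} (hκ : 0 ≤ κ)
    (hW : ∀ y : ℝ, ∫⁻ t, ENNReal.ofReal (A.W ∅ y (om t) * f t) ∂(un x T)
      ≤ ENNReal.ofReal (κ * A.G y)) (V : ℝ) {S : Set ℝ} {c : ℝ} (hc : 0 ≤ c)
    (hS : ∀ t ∈ S, A.Good ∅ (om t) ∧ V < A.X ∅ (om t) ∧ 1 ≤ c * f t) :
    un x T S ≤ ENNReal.ofReal (C * (c * κ) * (A.G V / A.be)) := by
  have hb : 0 ≤ A.b := hA.b_pos.le
  have hH : Measurable fun t => ENNReal.ofReal (c * f t) := (hf.const_mul c).ennreal_ofReal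
  refine le_trans (markov (E := {t | A.Good ∅ (om t) ∧ A.Bad ∅ (om t) ∧ V < A.X ∅ (om t)}) hH ?_)
    (h (c * κ) (by positivity) _ hH ?_ V)
  · intro t ht
    obtain ⟨h1, h2, h3⟩ := hS t ht
    refine ⟨⟨h1, ?_, h2⟩, ?_⟩
    · intro g hg
      simp at hg
    · rw [← ENNReal.ofReal_one]
      exact ENNReal.ofReal_le_ofReal h3
  · intro y
    have e : ∀ t, ENNReal.ofReal (A.W ∅ y (om t)) * ENNReal.ofReal (c * f t)
        = ENNReal.ofReal c * ENNReal.ofReal (A.W ∅ y (om t) * f t) := by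
      intro t
      rw [← ENNReal.ofReal_mul (A.W_nonneg hb ∅ y (om t)), ← ENNReal.ofReal_mul hc]
      congr 1
      ring
    simp only [e]
    rw [lintegral_const_mul' _ _ ENNReal.ofReal_ne_top]
    calc ENNReal.ofReal c * ∫⁻ t, ENNReal.ofReal (A.W ∅ y (om t) * f t) ∂(un x T)
        ≤ ENNReal.ofReal c * ENNReal.ofReal (κ * A.G y) := by
          gcongr
          exact hW y
      _ = ENNReal.ofReal (c * κ * A.G y) := by
          rw [← ENNReal.ofReal_mul hc]
          congr 1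
          ring

lemma div_aux {a b : ℝ} (ha : 0 < a) {X : ENNReal}
    (h : ENNReal.ofReal a * X ≤ ENNReal.ofReal b) : X ≤ ENNReal.ofReal (b / a) := by
  rw [ENNReal.ofReal_div_of_pos ha, ENNReal.le_div_iff_mul_le
    (Or.inl (by simpa using ha)) (Or.inl ENNReal.ofReal_ne_top), mul_comm]
  exact h

/-- the main part: many shifts are good -/
lemma s3_bound {A : Par} (hA : A.Ok) (h1 : A.lam ≤ 1 / 4) {x T V u K : ℝ} (hu : 0 < u)
    (hx : x ≤ T ^ (19 / 20 : ℝ)) (hK : 0 ≤ K) (hp0 : (A.p0 : ℝ) ≤ u)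
    (hneg : ∫⁻ t in Th A x T V, (∫⁻ θ in Ioo 0 (2 * Real.pi),
      ENNReal.ofReal (Ph u ‖hs A (1 / 2 + I * (t + A.lam * ct θ : ℝ))‖)) ∂(un x T)
        ≤ ENNReal.ofReal K) :
    un x T {t | V + 3 * u < A.X ∅ (om t) ∧ ‖riemannZeta (1 / 2 + I * t)‖ ≤ Real.exp V ∧
      |(lin A.U (fun p => (p : ℂ) ^ (-(1 / 2 + I * (0 : ℝ)) : ℂ) - A.h p) (om t)).re| ≤ u ∧
      ENNReal.ofReal Real.pi ≤ volume (Ioo 0 (2 * Real.pi) ∩ {θ | t - A.lam * ct θ ∈ Th A x T V})}
      ≤ ENNReal.ofReal (K / u) := by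
  have hpi := Real.pi_pos
  have hl := hA.hl
  have hTh := meas_Th A hl h1 x T V
  have hsub : Th A x T V ⊆ Icc x (x + T) := by
    intro t ht
    exact ⟨hx.trans ht.1.1, ht.1.2⟩
  have hφ : Measurable fun τ : ℝ => ENNReal.ofReal (Ph u ‖hs A (1 / 2 + I * τ)‖) :=
    ((meas_Ph u).comp (cont_hs hA).norm.measurable).ennreal_ofReal
  have h2 := avg3 (x := x) (T := T) hTh hsub (v := fun θ => A.lam * ct θ)
    (meas_ct.const_mul _) (J := Ioo 0 (2 * Real.pi)) measurableSet_Ioo hφ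
    (ε := ENNReal.ofReal (Real.pi * u))
    (S := {t | V + 3 * u < A.X ∅ (om t) ∧ ‖riemannZeta (1 / 2 + I * t)‖ ≤ Real.exp V ∧
      |(lin A.U (fun p => (p : ℂ) ^ (-(1 / 2 + I * (0 : ℝ)) : ℂ) - A.h p) (om t)).re| ≤ u ∧
      ENNReal.ofReal Real.pi ≤ volume (Ioo 0 (2 * Real.pi) ∩ {θ | t - A.lam * ct θ ∈ Th A x T V})})
    (by
      intro t ht
      obtain ⟨g1, g2, g3, g4⟩ := ht
      rw [ENNReal.ofReal_mul hpi.le]
      have h3 : Ph u ‖hs A (1 / 2 + I * t)‖ = u := by
        apply Ph_small hu (norm_nonneg _)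
        refine ((hsProps A hA).2.2.1 t).trans ?_
        rw [lin_half hA]
        have h4 : (2 : ℝ) ^ A.p0 ≤ Real.exp u := by
          have h5 : (2 : ℝ) ≤ Real.exp 1 := by
            have := Real.add_one_le_exp (1 : ℝ)
            linarith
          calc (2 : ℝ) ^ A.p0 ≤ Real.exp 1 ^ A.p0 := by gcongr
            _ = Real.exp (A.p0 : ℝ) := by rw [← Real.exp_nat_mul, mul_one]
            _ ≤ Real.exp u := Real.exp_le_exp.mpr hp0
        have h6 := (abs_le.1 g3).1
        calc ‖riemannZeta (1 / 2 + I * t)‖ * 2 ^ A.p0 * Real.exp (-(A.X ∅ (om t)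
              + (lin A.U (fun p => (p : ℂ) ^ (-(1 / 2 + I * (0 : ℝ)) : ℂ) - A.h p) (om t)).re))
            ≤ Real.exp V * Real.exp u * Real.exp (-(V + 2 * u)) := by
              have h7 : Real.exp (-(A.X ∅ (om t) + (lin A.U (fun p =>
                  (p : ℂ) ^ (-(1 / 2 + I * (0 : ℝ)) : ℂ) - A.h p) (om t)).re))
                  ≤ Real.exp (-(V + 2 * u)) := Real.exp_le_exp.mpr (by linarith)
              have h8 := mul_le_mul g2 h4 (by positivity) (Real.exp_pos V).le
              exact mul_le_mul h8 h7 (Real.exp_pos _).le (by positivity)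
          _ = Real.exp (-u) := by
              rw [← Real.exp_add, ← Real.exp_add]
              congr 1
              ring
      rw [h3]
      gcongr)
  have h5 := div_aux (by positivity) (h2.trans hneg)
  refine h5.trans (ENNReal.ofReal_le_ofReal ?_)
  have h6 : u ≤ Real.pi * u := by
    have := Real.pi_gt_three
    nlinarith
  gcongr

/-- the rest: few shifts are good -/
lemma s4_bound {A : Par} (hA : A.Ok) (h1 : A.lam ≤ 1 / 4) {x T V u M : ℝ} (hM : 0 ≤ M)
    {Q : Set ℝ} (hQ : MeasurableSet Q) (hT : 0 < T)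
    (hv : ∀ v : ℝ, |v| ≤ 10 * A.lam → un x T {τ | τ ∈ Q ∧ τ - v ∉ Th A x T V} ≤ ENNReal.ofReal M) :
    un x T {t | t ∈ Q ∧
      volume (Ioo 0 (2 * Real.pi) ∩ {θ | t - A.lam * ct θ ∈ Th A x T V}) < ENNReal.ofReal Real.pi}
      ≤ ENNReal.ofReal (9 / 4 * M) := by
  have hpi := Real.pi_pos
  have hl := hA.hl
  have := prob_un x hT
  have hTh := meas_Th A hl h1 x T V
  have h2 := avg4 (m := un x T) hQ hTh (v := fun θ => A.lam * ct θ) (meas_ct.const_mul _)
    (J := Icc (Real.pi / 10) (19 * Real.pi / 10)) measurableSet_Icc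
    (ε := ENNReal.ofReal (4 * Real.pi / 5)) (M := ENNReal.ofReal M)
    (S := {t | t ∈ Q ∧
      volume (Ioo 0 (2 * Real.pi) ∩ {θ | t - A.lam * ct θ ∈ Th A x T V}) < ENNReal.ofReal Real.pi})
    (by
      intro t ht
      obtain ⟨g1, g2⟩ := ht
      refine ⟨g1, ?_⟩
      have hset : MeasurableSet {θ | t - A.lam * ct θ ∈ Th A x T V} :=
        (measurable_const.sub (meas_ct.const_mul _)) hTh
      have e := measure_inter_add_sdiff (μ := volume) (Icc (Real.pi / 10) (19 * Real.pi / 10)) hset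
      rw [Real.volume_Icc, show 19 * Real.pi / 10 - Real.pi / 10 = Real.pi + 4 * Real.pi / 5 by ring,
        ENNReal.ofReal_add hpi.le (by positivity)] at e
      have h3 : volume (Icc (Real.pi / 10) (19 * Real.pi / 10)
          ∩ {θ | t - A.lam * ct θ ∈ Th A x T V}) ≤ ENNReal.ofReal Real.pi := by
        refine le_trans (measure_mono ?_) g2.le
        intro θ hθ
        refine ⟨⟨?_, ?_⟩, hθ.2⟩
        · have := hθ.1.1
          linarith
        · have := hθ.1.2
          linarith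
      have h4 : ENNReal.ofReal Real.pi + ENNReal.ofReal (4 * Real.pi / 5) ≤ ENNReal.ofReal Real.pi
          + volume (Icc (Real.pi / 10) (19 * Real.pi / 10)
            \ {θ | t - A.lam * ct θ ∈ Th A x T V}) := by
        rw [← e]
        gcongr
      exact (ENNReal.add_le_add_iff_left ENNReal.ofReal_ne_top).mp h4)
    (by
      intro θ hθ
      apply hv
      rw [abs_mul, abs_of_nonneg hl, mul_comm]
      exact mul_le_mul_of_nonneg_right (abs_ct_le hθ.1 hθ.2) hl)
  rw [Real.volume_Icc, ← ENNReal.ofReal_mul hM] at h2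
  refine (div_aux (by positivity) h2).trans (ENNReal.ofReal_le_ofReal (le_of_eq ?_))
  field_simp
  ring

/-- one shift -/
lemma s4_inner {C κa κb κc : ℝ} (hC : 0 ≤ C) {A : Par} (hA : A.Ok) (hl1 : A.lam ≤ 1 / 100)
    {x T : ℝ} (hT : 0 < T) (hx : x ≤ T ^ (19 / 20 : ℝ))
    (h : ∀ (κ : ℝ), 0 ≤ κ → ∀ H : ℝ → ENNReal, Measurable H →
      (∀ y : ℝ, ∫⁻ t, ENNReal.ofReal (A.W ∅ y (om t)) * H t ∂(un x T) ≤ ENNReal.ofReal (κ * A.G y)) →
      ∀ V : ℝ, ∫⁻ t in {t | A.Good ∅ (om t) ∧ A.Bad ∅ (om t) ∧ V < A.X ∅ (om t)}, H t ∂(un x T)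
        ≤ ENNReal.ofReal (C * κ * (A.G V / A.be)))
    {V u : ℝ} (hu : 0 < u) (ha0 : 0 ≤ κa) (hb0 : 0 ≤ κb) (hc0 : 0 ≤ κc) {v : ℝ}
    (hv : |v| ≤ 10 * A.lam)
    (ha : ∀ y : ℝ, ∫⁻ t, ENNReal.ofReal (A.W ∅ y (om t)
      * ∑ g ∈ Finset.range A.J, A.bbv (-v) g (om t)) ∂(un x T) ≤ ENNReal.ofReal (κa * A.G y))
    (hb : ∀ y : ℝ, ∫⁻ t, ENNReal.ofReal (A.W ∅ y (om t) *
      ((lin A.U (fun p => (A.h p : ℂ) * ((p : ℂ) ^ (-(I * (-v : ℝ)) : ℂ) - 1)) (om t)).re) ^ 2)
        ∂(un x T) ≤ ENNReal.ofReal (κb * A.G y))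
    (hc : ∀ y : ℝ, ∫⁻ t in Icc (T ^ (19 / 20 : ℝ)) (x + T), ENNReal.ofReal (A.W ∅ y (om t)
      * ‖riemannZeta (pt A.lam t) * (A.mo (-1) ∅ (om t) * A.Msm (om t)) - 1‖ ^ 2) ∂(un x T)
        ≤ ENNReal.ofReal (κc * A.G y)) :
    un x T {τ | (τ ∈ Icc (T ^ (19 / 20 : ℝ) + 1) (x + T - 1) ∧ A.Good ∅ (om τ)
        ∧ V + 3 * u < A.X ∅ (om τ)) ∧ τ - v ∉ Th A x T V}
      ≤ ENNReal.ofReal (C * (κa + κb / u ^ 2 + 4 * κc) * (A.G V / A.be)) := by
  have hl := hA.hl
  have hG : 0 ≤ A.G V / A.be := (div_pos (hA.G_pos V) hA.hbe).le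
  have hbb : 0 ≤ A.b := hA.b_pos.le
  have hv1 : |v| ≤ 1 := by linarith
  have hva := abs_le.1 hv1
  -- the three sets
  have hsa : un x T {τ | A.Good ∅ (om τ) ∧ V < A.X ∅ (om τ) ∧ ¬ A.Good ∅ (om (τ - v))}
      ≤ ENNReal.ofReal (C * (1 * κa) * (A.G V / A.be)) := by
    refine tilt_set hA hT h (f := fun t => ∑ g ∈ Finset.range A.J, A.bbv (-v) g (om t)) ?_ ?_ ha0
      ha V zero_le_one ?_
    · apply Continuous.measurable
      exact continuous_finsetSum _ fun g _ => (A.continuous_bbv (-v) g).comp continuous_om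
    · intro t
      exact Finset.sum_nonneg fun g _ => bbv_nonneg _ _ _
    · intro t ht
      refine ⟨ht.1, ht.2.1, ?_⟩
      rw [one_mul]
      exact not_good hA ht.2.2
  have hsb : un x T {τ | A.Good ∅ (om τ) ∧ V + 3 * u < A.X ∅ (om τ) ∧ A.X ∅ (om (τ - v)) ≤ V}
      ≤ ENNReal.ofReal (C * (1 / u ^ 2 * κb) * (A.G V / A.be)) := by
    refine tilt_set hA hT h (f := fun t => ((lin A.U (fun p => (A.h p : ℂ)
      * ((p : ℂ) ^ (-(I * (-v : ℝ)) : ℂ) - 1)) (om t)).re) ^ 2) ?_ ?_ hb0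
      hb V (by positivity) ?_
    · apply Continuous.measurable
      exact (Complex.continuous_re.comp ((continuous_lin _ _).comp continuous_om)).pow 2
    · intro t
      positivity
    · intro t ht
      refine ⟨ht.1, by linarith [ht.2.1], ?_⟩
      rw [← X_sub hA]
      have h1 : A.X ∅ (om (t - v)) - A.X ∅ (om t) ≤ -u := by
        have := ht.2.1
        have := ht.2.2
        linarith
      have h2 : u ^ 2 ≤ (A.X ∅ (om (t - v)) - A.X ∅ (om t)) ^ 2 := by nlinarith
      rw [one_div, inv_mul_eq_div, one_le_div (by positivity)]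
      exact h2
  obtain ⟨B, hB⟩ : ∃ B : Set ℝ, B = {t | t ∈ Icc (T ^ (19 / 20 : ℝ)) (x + T) ∧ A.Good ∅ (om t) ∧
    V < A.X ∅ (om t) ∧
      1 / 2 < ‖riemannZeta (pt A.lam t) * (A.mo (-1) ∅ (om t) * A.Msm (om t)) - 1‖} := ⟨_, rfl⟩
  have hBm : MeasurableSet B := by
    rw [hB]
    refine measurableSet_Icc.inter ((meas_good A).inter (MeasurableSet.inter ?_ ?_))
    · exact measurableSet_lt measurable_const (cont_X A).measurable
    · exact measurableSet_lt measurable_const (cont_near A hl (by linarith)).measurable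
  have hsc : un x T B ≤ ENNReal.ofReal (C * (4 * κc) * (A.G V / A.be)) := by
    refine tilt_set hA hT h (f := fun t => Set.indicator (Icc (T ^ (19 / 20 : ℝ)) (x + T))
      (fun t => ‖riemannZeta (pt A.lam t) * (A.mo (-1) ∅ (om t) * A.Msm (om t)) - 1‖ ^ 2) t) ?_ ?_ hc0
      ?_ V (by norm_num) ?_
    · exact ((cont_near A hl (by linarith)).pow 2).measurable.indicator measurableSet_Icc
    · intro t
      exact Set.indicator_nonneg (fun _ _ => by positivity) t
    · intro y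
      refine le_trans (le_of_eq ?_) (hc y)
      rw [← lintegral_indicator measurableSet_Icc]
      congr 1
      ext t
      by_cases ht : t ∈ Icc (T ^ (19 / 20 : ℝ)) (x + T)
      · simp only [Set.indicator_of_mem ht]
      · simp only [Set.indicator_of_notMem ht, mul_zero, ENNReal.ofReal_zero]
    · intro t ht
      rw [hB] at ht
      refine ⟨ht.2.1, ht.2.2.1, ?_⟩
      rw [Set.indicator_of_mem ht.1]
      have := ht.2.2.2
      nlinarith
  have hsc' : un x T {τ | τ - v ∈ B} ≤ ENNReal.ofReal (C * (4 * κc) * (A.G V / A.be)) := by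
    refine le_trans (un_shift hBm ?_ (fun τ hτ => hτ)) hsc
    intro t ht
    rw [hB] at ht
    exact ⟨hx.trans ht.1.1, ht.1.2⟩
  calc un x T {τ | (τ ∈ Icc (T ^ (19 / 20 : ℝ) + 1) (x + T - 1) ∧ A.Good ∅ (om τ)
        ∧ V + 3 * u < A.X ∅ (om τ)) ∧ τ - v ∉ Th A x T V}
      ≤ un x T ({τ | A.Good ∅ (om τ) ∧ V < A.X ∅ (om τ) ∧ ¬ A.Good ∅ (om (τ - v))}
        ∪ ({τ | A.Good ∅ (om τ) ∧ V + 3 * u < A.X ∅ (om τ) ∧ A.X ∅ (om (τ - v)) ≤ V}
          ∪ {τ | τ - v ∈ B})) := by
        refine measure_mono fun τ hτ => ?_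
        obtain ⟨⟨g1, g2, g3⟩, g4⟩ := hτ
        by_cases h5 : A.Good ∅ (om (τ - v))
        · by_cases h6 : A.X ∅ (om (τ - v)) ≤ V
          · exact Or.inr (Or.inl ⟨g2, g3, h6⟩)
          · refine Or.inr (Or.inr ?_)
            push Not at h6
            have h7 : τ - v ∈ Icc (T ^ (19 / 20 : ℝ)) (x + T) := by
              have e1 := g1.1
              have e2 := g1.2
              exact ⟨by linarith [hva.2], by linarith [hva.1]⟩
            show τ - v ∈ B
            rw [hB]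
            refine ⟨h7, h5, h6, ?_⟩
            by_contra h8
            push Not at h8
            exact g4 ⟨h7, h5, h6, h8⟩
        · exact Or.inl ⟨g2, by linarith, h5⟩
    _ ≤ ENNReal.ofReal (C * (1 * κa) * (A.G V / A.be))
        + (ENNReal.ofReal (C * (1 / u ^ 2 * κb) * (A.G V / A.be))
          + ENNReal.ofReal (C * (4 * κc) * (A.G V / A.be))) := by
        refine (measure_union_le _ _).trans (add_le_add hsa ?_)
        exact (measure_union_le _ _).trans (add_le_add hsb hsc')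
    _ = _ := by
        rw [← ENNReal.ofReal_add (by positivity) (by positivity),
          ← ENNReal.ofReal_add (by positivity) (by positivity)]
        congr 1
        ring

end P4aux

open P4aux

/-- P4 -/
theorem lowerTail (h1 : NegMean) (h2 : TiltUp) (h3 : NearMean) (h4 : WDelta) (h5 : WShift)
    (h6 : GroupNum) : LowerTail := by
  obtain ⟨T1, v1, hT1, h1⟩ := h1
  obtain ⟨C2, v2, hC2, h2⟩ := h2
  obtain ⟨C3, T3, hC3, hT3, h3⟩ := h3
  obtain ⟨C4, T4, hC4, hT4, h4⟩ := h4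
  obtain ⟨C5, T5, hC5, hT5, h5⟩ := h5
  refine ⟨9 * (C2 * (C5 + C3)), max T1 (max T3 (max T4 T5)), max v1 v2, by nlinarith,
    hT1.trans (le_max_left _ _), ?_⟩
  intro p0 hp0
  obtain ⟨C1', hC1', h1⟩ := h1 p0 hp0
  obtain ⟨C3', hC3', h3⟩ := h3 p0 hp0
  have hp0' : (1000 : ℝ) ≤ p0 := by exact_mod_cast hp0
  have hc24 : 0 ≤ C2 * C4 := by positivity
  have hc23 : 0 ≤ C2 * C3' := by positivity
  refine ⟨9 * (C2 * C3') + 226 * (C2 * C4) + C1' + p0, by linarith, ?_⟩
  intro A hA hv hAp T hT hLen hlY hlT hl1 x hx V u hCu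
  have hl := hA.hl
  have hTT1 : T1 ≤ T := (le_max_left _ _).trans hT
  have hTT3 : T3 ≤ T := ((le_max_left _ _).trans (le_max_right _ _)).trans hT
  have hTT4 : T4 ≤ T :=
    (((le_max_left _ _).trans (le_max_right _ _)).trans (le_max_right _ _)).trans hT
  have hTT5 : T5 ≤ T :=
    (((le_max_right _ _).trans (le_max_right _ _)).trans (le_max_right _ _)).trans hT
  have hT3' : 3 ≤ T := hT1.trans hTT1
  have hT0 : 0 < T := by linarith
  have hu1 : 1 ≤ u := by linarith
  have hu : 0 < u := by linarith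
  have hup : (A.p0 : ℝ) ≤ u := by
    rw [hAp]
    linarith
  have hlogT : 1 < Real.log T := by
    rw [Real.lt_log_iff_exp_lt hT0]
    have := Real.exp_one_lt_d9
    linarith
  have hl0 : 0 < A.lam := by
    by_contra h
    have : A.lam = 0 := le_antisymm (not_lt.mp h) hl
    rw [this] at hlT
    linarith
  have hY1 := hA.hY
  have hYL : A.Y ≤ Real.log T := by
    unfold Len at hLen
    have h7 : (4 : ℝ) ≤ A.v := by exact_mod_cast hA.hv
    have h8 : A.Y ≤ 10 ^ 10 * A.v * A.Y := by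
      have : (1 : ℝ) ≤ 10 ^ 10 * A.v := by linarith
      nlinarith
    linarith
  have hY0 : 0 < A.Y := by linarith
  obtain ⟨ℓ, hℓ⟩ : ∃ ℓ : ℝ, ℓ = 1 + Real.log (1 + A.lam * Real.log T) + Real.log (Real.log T / A.Y) :=
    ⟨_, rfl⟩
  have hlogLY : 0 ≤ Real.log (Real.log T / A.Y) := by
    apply Real.log_nonneg
    rw [le_div_iff₀ hY0]
    linarith
  have hlogl : Real.log (1 + A.lam * A.Y) ≤ Real.log (1 + A.lam * Real.log T) := by
    apply Real.log_le_log (by positivity)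
    have := mul_le_mul_of_nonneg_left hYL hl
    linarith
  have hloglY0 : 0 ≤ Real.log (1 + A.lam * A.Y) := Real.log_nonneg (by
    have := mul_nonneg hl hY0.le
    linarith)
  have hℓ1 : 1 + Real.log (1 + A.lam * A.Y) ≤ ℓ := by
    rw [hℓ]
    linarith
  have hℓ0 : 1 ≤ ℓ := by linarith
  rw [← hℓ]
  have hG : 0 ≤ A.G V / A.be := (div_pos (hA.G_pos V) hA.hbe).le
  have hG' : 0 ≤ A.G V := (hA.G_pos V).le
  have hxT : |x| ≤ T := hx.trans (by
    calc T ^ (9 / 10 : ℝ) ≤ T ^ (1 : ℝ) :=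
          Real.rpow_le_rpow_of_exponent_le (by linarith) (by norm_num)
      _ = T := Real.rpow_one T)
  have hx' : x ≤ T ^ (19 / 20 : ℝ) := ((le_abs_self x).trans hx).trans
    (Real.rpow_le_rpow_of_exponent_le (by linarith) (by norm_num))
  have := prob_un x hT0
  have hbb : 0 ≤ A.b := hA.b_pos.le
  -- the tilt
  have htilt : ∀ (κ : ℝ), 0 ≤ κ → ∀ H : ℝ → ENNReal, Measurable H →
      (∀ y : ℝ, ∫⁻ t, ENNReal.ofReal (A.W ∅ y (om t)) * H t ∂(un x T) ≤ ENNReal.ofReal (κ * A.G y)) →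
      ∀ V : ℝ, ∫⁻ t in {t | A.Good ∅ (om t) ∧ A.Bad ∅ (om t) ∧ V < A.X ∅ (om t)}, H t ∂(un x T)
        ≤ ENNReal.ofReal (C2 * κ * (A.G V / A.be)) := fun κ hκ H hH hW V =>
    h2 A hA ((le_max_right _ _).trans hv) ∅ (Finset.empty_subset _) x T κ hT0 hκ H hH hW V
  obtain ⟨D, hD⟩ : ∃ D : ℝ → ℝ, D = fun t => (lin A.U (fun p =>
    (p : ℂ) ^ (-(1 / 2 + I * (0 : ℝ)) : ℂ) - A.h p) (om t)).re := ⟨_, rfl⟩
  -- the set where the variation is large
  have hS2 : un x T {t | A.Good ∅ (om t) ∧ V + 3 * u < A.X ∅ (om t) ∧ u < |D t|}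
      ≤ ENNReal.ofReal (C2 * (1 / u ^ 2 * (C4 * ℓ ^ 2)) * (A.G V / A.be)) := by
    refine tilt_set hA hT0 htilt (f := fun t => (D t) ^ 2) ?_ (fun t => by positivity)
      (by positivity) ?_ V (by positivity) ?_
    · apply Continuous.measurable
      rw [hD]
      exact (Complex.continuous_re.comp ((continuous_lin _ _).comp continuous_om)).pow 2
    · intro y
      rw [hD]
      refine ((h4 A hA T hTT4 hLen x y 0).1).trans (ENNReal.ofReal_le_ofReal ?_)
      rw [abs_zero, mul_zero, add_zero, Real.log_one, add_zero]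
      have := (hA.G_pos y).le
      gcongr
    · intro t ht
      refine ⟨ht.1, by linarith [ht.2.1], ?_⟩
      have h7 : u ^ 2 ≤ (D t) ^ 2 := by
        rw [← sq_abs (D t)]
        have := ht.2.2
        gcongr
      rw [one_div, inv_mul_eq_div, one_le_div (by positivity)]
      exact h7
  -- many good shifts
  have hS3 := s3_bound hA (by linarith) (x := x) (T := T) (V := V) (u := u)
    (K := C1' * ℓ * (A.G V / A.be)) hu hx' (by positivity) hup (by
      rw [hℓ]
      exact h1 A hA ((le_max_left _ _).trans hv) hAp hl0 T hTT1 hLen x hx V u hu)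
  -- few good shifts
  obtain ⟨κc, hκc⟩ : ∃ κc : ℝ, κc = C3 * (Real.exp (-A.v) + 1 / A.p0 + A.Y / Real.log T)
      + C3' * (1 / Real.log T + Real.exp (-(2 * A.lam * A.Y))
        + Real.log T / A.Y * (1 + A.lam * A.Y) ^ 17 * Real.exp (-(3 / 2 * A.lam * Real.log T))) :=
    ⟨_, rfl⟩
  have hlt0 : 0 < Real.log T := by linarith
  have hκc0 : 0 ≤ κc := by
    rw [hκc]
    positivity
  obtain ⟨M, hMd⟩ : ∃ M : ℝ, M = C2 * (2 * C5 * Real.exp (-A.v) + (C4 * (100 * ℓ ^ 2)) / u ^ 2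
      + 4 * κc) * (A.G V / A.be) := ⟨_, rfl⟩
  have hM0 : 0 ≤ M := by
    rw [hMd]
    positivity
  have hQm : MeasurableSet {τ : ℝ | τ ∈ Icc (T ^ (19 / 20 : ℝ) + 1) (x + T - 1) ∧ A.Good ∅ (om τ)
        ∧ V + 3 * u < A.X ∅ (om τ)} := by
    refine measurableSet_Icc.inter ((meas_good A).inter ?_)
    exact measurableSet_lt measurable_const (cont_X A).measurable
  have hS4 := s4_bound hA (by linarith) (x := x) (T := T) (V := V) (u := u) hM0 hQm hT0 (by
    intro v hv10
    rw [hMd]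
    refine s4_inner (by linarith) hA hl1 hT0 hx' htilt hu (by positivity) (by positivity) hκc0 hv10
      ?_ ?_ ?_
    · intro y
      have hm : ∀ g, Measurable fun t : ℝ => ENNReal.ofReal (A.W ∅ y (om t) * A.bbv (-v) g (om t)) := by
        intro g
        apply Measurable.ennreal_ofReal
        apply Continuous.measurable
        exact ((A.continuous_W' hA ∅ y).comp continuous_om).mul
          ((A.continuous_bbv (-v) g).comp continuous_om)
      have e : ∀ t : ℝ, ENNReal.ofReal (A.W ∅ y (om t) * ∑ g ∈ Finset.range A.J, A.bbv (-v) g (om t))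
          = ∑ g ∈ Finset.range A.J, ENNReal.ofReal (A.W ∅ y (om t) * A.bbv (-v) g (om t)) := by
        intro t
        rw [Finset.mul_sum, ENNReal.ofReal_sum_of_nonneg]
        intro g _
        exact mul_nonneg (A.W_nonneg hbb ∅ y _) (bbv_nonneg _ _ _)
      simp only [e]
      rw [lintegral_finsetSum _ (fun g _ => hm g)]
      calc ∑ g ∈ Finset.range A.J, ∫⁻ t, ENNReal.ofReal (A.W ∅ y (om t) * A.bbv (-v) g (om t))
            ∂(un x T)
          ≤ ∑ g ∈ Finset.range A.J, ENNReal.ofReal (C5 * Real.exp (-(A.r g : ℝ)) * A.G y) :=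
            Finset.sum_le_sum fun g hg => h5 A hA T hTT5 hLen x y (-v) g (Finset.mem_range.mp hg)
        _ = ENNReal.ofReal (∑ g ∈ Finset.range A.J, C5 * Real.exp (-(A.r g : ℝ)) * A.G y) := by
            rw [ENNReal.ofReal_sum_of_nonneg]
            intro g _
            have := (hA.G_pos y).le
            positivity
        _ ≤ ENNReal.ofReal (2 * C5 * Real.exp (-A.v) * A.G y) := by
            refine ENNReal.ofReal_le_ofReal ?_
            rw [← Finset.sum_mul, ← Finset.mul_sum]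
            have h7 := (h6 A hA).2.2.2.2.2.1
            have := (hA.G_pos y).le
            refine mul_le_mul_of_nonneg_right ?_ this
            calc C5 * ∑ g ∈ Finset.range A.J, Real.exp (-(A.r g : ℝ))
                ≤ C5 * (2 * Real.exp (-A.v)) := by gcongr
              _ = _ := by ring
    · intro y
      refine ((h4 A hA T hTT4 hLen x y (-v)).2).trans (ENNReal.ofReal_le_ofReal ?_)
      have := (hA.G_pos y).le
      refine mul_le_mul_of_nonneg_right ?_ this
      have h7 : 1 + Real.log (1 + A.Y * |(-v)|) ≤ 10 * ℓ := by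
        rw [abs_neg]
        have h8 : Real.log (1 + A.Y * |v|) ≤ Real.log (10 * (1 + A.lam * A.Y)) := by
          apply Real.log_le_log (by positivity)
          have := mul_le_mul_of_nonneg_left hv10 hY0.le
          have e1 : A.Y * (10 * A.lam) = 10 * (A.lam * A.Y) := by ring
          rw [e1] at this
          linarith
        rw [Real.log_mul (by norm_num) (by positivity)] at h8
        have h9 : Real.log 10 ≤ 9 := by
          have := Real.log_le_sub_one_of_pos (show (0 : ℝ) < 10 by norm_num)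
          linarith
        linarith
      have h8 : 0 ≤ 1 + Real.log (1 + A.Y * |(-v)|) := by
        have : 0 ≤ Real.log (1 + A.Y * |(-v)|) := by
          apply Real.log_nonneg
          have := mul_nonneg hY0.le (abs_nonneg (-v))
          linarith
        linarith
      calc C4 * (1 + Real.log (1 + A.Y * |(-v)|)) ^ 2 ≤ C4 * (10 * ℓ) ^ 2 := by gcongr
        _ = _ := by ring
    · intro y
      rw [hκc]
      exact h3 A hA hAp T hTT3 hLen hlY hlT (by linarith) x hxT y)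
  have hS1 := un_ends hT3' hx
  -- the covering
  obtain ⟨E0, hE0⟩ : ∃ E0 : Set ℝ, E0 = {t | A.Good ∅ (om t) ∧ V + 3 * u < A.X ∅ (om t)} := ⟨_, rfl⟩
  obtain ⟨S0, hS0⟩ : ∃ S0 : Set ℝ, S0 = {t : ℝ | Real.exp V < ‖riemannZeta (1 / 2 + I * t)‖} :=
    ⟨_, rfl⟩
  obtain ⟨R, hR⟩ : ∃ R : ℝ, R = 4 * T ^ (-(1 / 20) : ℝ)
    + (C2 * (1 / u ^ 2 * (C4 * ℓ ^ 2)) * (A.G V / A.be)
      + (C1' * ℓ * (A.G V / A.be) / u + 9 / 4 * M)) := ⟨_, rfl⟩
  have hcov : un x T E0 ≤ un x T S0 + ENNReal.ofReal R := by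
    rw [hR, ENNReal.ofReal_add (by positivity) (by positivity),
      ENNReal.ofReal_add (by positivity) (by positivity),
      ENNReal.ofReal_add (by positivity) (by positivity)]
    refine le_trans ?_ (add_le_add le_rfl (add_le_add hS1 (add_le_add hS2 (add_le_add hS3 hS4))))
    refine le_trans (measure_mono ?_) ((measure_union_le _ _).trans (add_le_add le_rfl
      ((measure_union_le _ _).trans (add_le_add le_rfl ((measure_union_le _ _).trans
        (add_le_add le_rfl (measure_union_le _ _)))))))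
    intro t ht
    rw [hE0] at ht
    obtain ⟨g1, g2⟩ := ht
    by_cases c0 : Real.exp V < ‖riemannZeta (1 / 2 + I * t)‖
    · left
      rw [hS0]
      exact c0
    push Not at c0
    right
    by_cases c1 : t ∉ Icc (T ^ (19 / 20 : ℝ) + 1) (x + T - 1)
    · left
      exact c1
    push Not at c1
    right
    by_cases c2 : u < |D t|
    · left
      exact ⟨g1, g2, c2⟩
    push Not at c2
    right
    rw [hD] at c2
    by_cases c3 : ENNReal.ofReal Real.pi
        ≤ volume (Ioo 0 (2 * Real.pi) ∩ {θ | t - A.lam * ct θ ∈ Th A x T V})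
    · left
      exact ⟨g2, c0, c2, c3⟩
    · right
      push Not at c3
      exact ⟨⟨c1, g1, g2⟩, c3⟩
  have hR0 : 0 ≤ R := by
    rw [hR]
    positivity
  have hreal : (un x T E0).toReal ≤ (un x T S0).toReal + R := by
    have h7 := ENNReal.toReal_mono (ENNReal.add_ne_top.mpr ⟨measure_ne_top _ _,
      ENNReal.ofReal_ne_top⟩) hcov
    rwa [ENNReal.toReal_add (measure_ne_top _ _) ENNReal.ofReal_ne_top,
      ENNReal.toReal_ofReal hR0] at h7
  rw [← hE0, ← hS0]
  refine hreal.trans ?_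
  rw [add_assoc]
  refine add_le_add le_rfl ?_
  rw [hR, add_comm (4 * T ^ (-(1 / 20) : ℝ))]
  refine add_le_add ?_ le_rfl
  -- the constants
  obtain ⟨a, ha⟩ : ∃ a : ℝ, a = Real.exp (-A.v) + 1 / A.p0 + A.Y / Real.log T := ⟨_, rfl⟩
  obtain ⟨b, hb⟩ : ∃ b : ℝ, b = 1 / Real.log T + Real.exp (-(2 * A.lam * A.Y))
        + Real.log T / A.Y * (1 + A.lam * A.Y) ^ 17 * Real.exp (-(3 / 2 * A.lam * Real.log T)) :=
    ⟨_, rfl⟩
  rw [← ha, ← hb] at hκc ⊢
  have ha0 : Real.exp (-A.v) ≤ a := by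
    rw [ha]
    have e1 : 0 ≤ 1 / (A.p0 : ℝ) := by positivity
    have e2 : 0 ≤ A.Y / Real.log T := by positivity
    linarith
  have hb0 : 0 ≤ b := by
    rw [hb]
    positivity
  have ha1 : 0 ≤ a := (Real.exp_pos _).le.trans ha0
  have hu2 : 1 / u ^ 2 ≤ 1 / u := by
    apply one_div_le_one_div_of_le hu
    have := mul_le_mul_of_nonneg_left hu1 hu.le
    rw [sq]
    linarith
  have hq : 0 ≤ 1 / u := by positivity
  have hℓ2 : ℓ ≤ ℓ ^ 2 := by
    have := mul_le_mul_of_nonneg_left hℓ0 (show (0 : ℝ) ≤ ℓ by linarith)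
    rw [sq]
    linarith
  have hmain : C2 * (1 / u ^ 2 * (C4 * ℓ ^ 2)) + (C1' * ℓ * (1 / u)
      + 9 / 4 * (C2 * (2 * C5 * Real.exp (-A.v) + (C4 * (100 * ℓ ^ 2)) * (1 / u ^ 2) + 4 * κc)))
      ≤ 9 * (C2 * (C5 + C3)) * a + (9 * (C2 * C3') + 226 * (C2 * C4) + C1' + p0) * b
        + (9 * (C2 * C3') + 226 * (C2 * C4) + C1' + p0) * (ℓ ^ 2 * (1 / u)) := by
    have f1 : C2 * (1 / u ^ 2 * (C4 * ℓ ^ 2)) ≤ C2 * (1 / u * (C4 * ℓ ^ 2)) := by gcongr
    have f2 : C1' * ℓ * (1 / u) ≤ C1' * ℓ ^ 2 * (1 / u) := by gcongr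
    have f3 : C2 * (C5 * Real.exp (-A.v)) ≤ C2 * (C5 * a) := by gcongr
    have f4 : C2 * ((C4 * (100 * ℓ ^ 2)) * (1 / u ^ 2)) ≤ C2 * ((C4 * (100 * ℓ ^ 2)) * (1 / u)) := by
      gcongr
    have f5 : 0 ≤ (226 * (C2 * C4) + C1' + p0) * b := by positivity
    have f6 : 0 ≤ (9 * (C2 * C3') + p0) * (ℓ ^ 2 * (1 / u)) := by positivity
    have f7 : 0 ≤ C2 * (C5 * a) := by positivity
    rw [hκc]
    linarith
  have hrw : C2 * (1 / u ^ 2 * (C4 * ℓ ^ 2)) * (A.G V / A.be)
      + (C1' * ℓ * (A.G V / A.be) / u + 9 / 4 * M)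
      = (C2 * (1 / u ^ 2 * (C4 * ℓ ^ 2)) + (C1' * ℓ * (1 / u)
      + 9 / 4 * (C2 * (2 * C5 * Real.exp (-A.v) + (C4 * (100 * ℓ ^ 2)) * (1 / u ^ 2) + 4 * κc))))
        * (A.G V / A.be) := by
    rw [hMd]
    ring
  rw [hrw]
  refine mul_le_mul_of_nonneg_right (hmain.trans (le_of_eq ?_)) hG
  ring

end Pool.Agent.Lib.GT
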