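import Mathlib
import Pool.Agent.Lib.MP_f9aece_nt_gt.B1
import Pool.Agent.Lib.MP_f9aece_nt_gt.B2
import Pool.Agent.Lib.MP_f9aece_nt_gt.B3
import Pool.Agent.Lib.MP_f9aece_nt_gt.B4
import Pool.Agent.Lib.MP_f9aece_nt_gt.B5
import Pool.Agent.Lib.MP_f9aece_nt_gt.B6
import Pool.Agent.Lib.MP_f9aece_nt_gt.B7
import Pool.Agent.Lib.MP_f9aece_nt_gt.N1
import Pool.Agent.Lib.MP_f9aece_nt_gt.N2
import Pool.Agent.Lib.MP_f9aece_nt_gt.N3
import Pool.Agent.Lib.MP_f9aece_nt_gt.C1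
import Pool.Agent.Lib.MP_f9aece_nt_gt.C2
import Pool.Agent.Lib.MP_f9aece_nt_gt.C3
import Pool.Agent.Lib.MP_f9aece_nt_gt.C4
import Pool.Agent.Lib.MP_f9aece_nt_gt.C5
import Pool.Agent.Lib.MP_f9aece_nt_gt.C6
import Pool.Agent.Lib.MP_f9aece_nt_gt.C7
import Pool.Agent.Lib.MP_f9aece_nt_gt.C8
import Pool.Agent.Lib.MP_f9aece_nt_gt.C9
import Pool.Agent.Lib.MP_f9aece_nt_gt.C10
import Pool.Agent.Lib.MP_f9aece_nt_gt.C11
import Pool.Agent.Lib.MP_f9aece_nt_gt.D1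
import Pool.Agent.Lib.MP_f9aece_nt_gt.D2
import Pool.Agent.Lib.MP_f9aece_nt_gt.D3
import Pool.Agent.Lib.MP_f9aece_nt_gt.D4
import Pool.Agent.Lib.MP_f9aece_nt_gt.D5
import Pool.Agent.Lib.MP_f9aece_nt_gt.D6
import Pool.Agent.Lib.MP_f9aece_nt_gt.E1
import Pool.Agent.Lib.MP_f9aece_nt_gt.E3
import Pool.Agent.Lib.MP_f9aece_nt_gt.E4
import Pool.Agent.Lib.MP_f9aece_nt_gt.E5
import Pool.Agent.Lib.MP_f9aece_nt_gt.F1
import Pool.Agent.Lib.MP_f9aece_nt_gt.F3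
import Pool.Agent.Lib.MP_f9aece_nt_gt.F4
import Pool.Agent.Lib.MP_f9aece_nt_gt.P1
import Pool.Agent.Lib.MP_f9aece_nt_gt.P2
import Pool.Agent.Lib.MP_f9aece_nt_gt.P3
import Pool.Agent.Lib.MP_f9aece_nt_gt.P4
import Pool.Agent.Lib.MP_f9aece_nt_gt.G1
import Pool.Agent.Lib.MP_f9aece_nt_gt.G2

/-!
Gaussian tails of `log |zeta|` on the critical line: the assembly.
-/

set_option autoImplicit false

namespace Pool.Agent.Lib.GT

/-- Gaussian tails of `log |zeta|` on the critical line -/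
theorem gaussianTails : Main := by
  have hN1 := groupNum
  have hN2 := primeSums
  have hB2 := prodPrimes onePrime
  have hB4 := groupMain hB2 expMom
  have hB5 := groupBad expMom
  have hB6 := allMain hB4 hN1
  have hB7 := allBd hB4 hB5 hN1
  have hC1 := psiBd winDecay
  have hC4 := wLen hN1
  have hC5 := wTransfer wForm hC4
  have hC6 := wGauss hC1
  have hC7 := wMain wForm hB6 hC6 hN1
  have hC8 := wBd wForm hB6 hB7 hC6 hN1
  have hC9 := pointwise winDecay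
  have hC10 := wPoint hC1 hC9
  have hC11 := compare hC1
  have hD3 := suBound kerRep
  have hD5 := fBound hC8 hN2
  have hD6 := fNear hC7 hC6 hN2
  have hE1 := wMean hC5 hC8 hN1
  have hE2 := wAsym hC5 hC7 hC6 hN1
  have hE3 := wShift hC5 hC8 hN1
  have hE6 := wDelta hC5 hC8 hN1 hN2
  have hE4 := lineMean smoothAfe hD3 roughS hD5 hC5 hC8 hN1
  have hE5 := nearMean hD3 roughS hD5 hD6 hE4 hC5 hC8 hE1 hN1
  have hF1 := tiltUp hC10
  have hF2 := tiltLow hC10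
  have hF3 := lawX hE1 hE2 hE3 hC10 hC11 hC6 hN1
  have hF4 := upperTail hF1 hF2 hE1 hE4 hC10 hN1
  have hP3 := negMean poisJen hsProps hF1 hE4 hE6 hE1 hC9 hC10
  have hP4 := lowerTail hP3 hF1 hE5 hE6 hE3 hN1
  exact main hF3 hF4 hP4 tailFacts variance'

end Pool.Agent.Lib.GT
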