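import Mathlib
import Pool.Agent.Lib.MP_f9aece_nt_gt.Cont

/-!
Gaussian tails of `log |zeta|`: the window (row C1).
-/

set_option autoImplicit false

namespace Pool.Agent.Lib.GT

open MeasureTheory Set Filter Topology Complex ProbabilityTheory

lemma continuous_psi : Continuous psi := by
  unfold psi
  refine continuous_of_dominated (F := fun (r : ℝ) (η : ℝ) => (phi η : ℂ) * cexp (I * η * r))
    (bound := fun _ => (1 : ℝ)) ?_ ?_ (integrable_const _) ?_
  · intro r
    apply Continuous.aestronglyMeasurable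
    have := continuous_phi
    fun_prop
  · intro r
    refine ae_me fun η hη => ?_
    have h1 : ‖cexp (I * η * r)‖ = 1 := by
      rw [Complex.norm_exp]
      simp
    rw [norm_mul, h1, mul_one, Complex.norm_real, Real.norm_eq_abs]
    exact abs_phi_le hη
  · refine Eventually.of_forall fun η => ?_
    fun_prop

lemma psi_zero : psi 0 = ((∫ η, phi η ∂me : ℝ) : ℂ) := by
  unfold psi
  rw [← integral_complex_ofReal]
  refine integral_congr_ae (Eventually.of_forall fun η => ?_)
  simp

lemma integral_phi_pos : 0 < ∫ η, phi η ∂me := by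
  unfold me
  rw [integral_Icc_eq_integral_Ioc, ← intervalIntegral.integral_of_le (by norm_num)]
  apply intervalIntegral.intervalIntegral_pos_of_pos_on
  · exact continuous_phi.intervalIntegrable _ _
  · intro η hη
    unfold phi
    have h1 : 4 * η ^ 2 < 1 := by nlinarith [hη.1, hη.2]
    have h2 : 0 < 1 - 4 * η ^ 2 := by linarith
    positivity
  · norm_num

theorem psiBd (h : WinDecay) : PsiBd := by
  obtain ⟨C, hC, h⟩ := h
  have hb : ∀ r : ℝ, ‖psi r‖ ≤ C / (1 + r ^ 2) := by
    intro r
    have h1 := h (fun _ => 1) (fun _ => 0) (fun _ => 0) 1 (by norm_num)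
      (fun η => hasDerivAt_const _ _) (fun η => hasDerivAt_const _ _) continuous_const
      (fun η _ => by simp) r
    simp only [one_mul, mul_one] at h1
    exact h1
  have hi : Integrable (fun r => ‖psi r‖ ^ 2) := by
    have h2 : Integrable (fun r : ℝ => C ^ 2 * (1 + r ^ 2)⁻¹) := integrable_inv_one_add_sq.const_mul _
    refine h2.mono' (continuous_psi.norm.pow 2).aestronglyMeasurable (Eventually.of_forall fun r => ?_)
    rw [Real.norm_of_nonneg (by positivity)]
    have h3 := hb r
    have h4 : (1 : ℝ) ≤ 1 + r ^ 2 := by nlinarith [sq_nonneg r]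
    calc ‖psi r‖ ^ 2 ≤ (C / (1 + r ^ 2)) ^ 2 := by gcongr
      _ = C ^ 2 * ((1 + r ^ 2)⁻¹ * (1 + r ^ 2)⁻¹) := by
        rw [div_pow, div_eq_mul_inv, ← mul_inv]
        ring_nf
      _ ≤ C ^ 2 * ((1 + r ^ 2)⁻¹ * 1) := by
        gcongr
        exact inv_le_one_of_one_le₀ h4
      _ = _ := by ring
  refine ⟨C, hC, hb, continuous_psi, ?_, hi⟩
  unfold c0
  rw [integral_pos_iff_support_of_nonneg (fun r => by positivity) hi]
  apply IsOpen.measure_pos
  · exact (continuous_psi.norm.pow 2).isOpen_support
  · refine ⟨0, ?_⟩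
    rw [Function.mem_support, psi_zero]
    have := integral_phi_pos
    have h5 : ((∫ η, phi η ∂me : ℝ) : ℂ) ≠ 0 := by exact_mod_cast this.ne'
    positivity

end Pool.Agent.Lib.GT
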